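import Pool.Agent.Y741.Final

/-!
The lines on a generic complete intersection.
-/

set_option autoImplicit false

open MvPolynomial FF Pool.Agent.W603.LV Pool.Agent.W603.PV Pool.Agent.W602.RG Pool.Agent.TH145.GH
open Pool.Agent.TH145.GC (Gen Rt Cf finite_cf exists_big indep_scale)
open Pool.Agent.Y735 (rho eval_rho rho_X pl fht rho_deg Two card_le_adjoin coeff_rho_mem)
open LinearAlgebra.Projectivization

namespace Pool.Agent.Y741

section count

variable {k Ω : Type} [Field k] [Field Ω] [Algebra k Ω]

/-- The dimension of the space of the lines on a generic complete intersection. -/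
theorem line_count0 [Infinite Ω] {n : ℕ} {A : Type} [Fintype A] [DecidableEq A] {dg : A → ℕ}
    {F : Fam Ω n A} (hF : ∀ a, (F a).IsHomogeneous (dg a))
    {x y : Fin (n + 1) → Ω} {i j : Fin (n + 1)} (hp : pl x y (i, j) ≠ 0)
    (hC : ∀ c, ∀ a b : Ω, eval (a • x + b • y) (F c) = 0)
    (hind : AlgebraicIndependent k fun p : Cf n dg => (F p.1).coeff p.2.1) :
    ∑ a, dg a + Fintype.card A + 2 ≤ 2 * n := by
  classical
  have hpp : pl x y (i, j) = x i * y j - x j * y i := rfl
  have hij : i ≠ j := by
    rintro rfl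
    rw [hpp, sub_self] at hp
    exact hp rfl
  have hcf := finite_cf n dg
  have : Fintype (Cf n dg) := Fintype.ofFinite _
  obtain ⟨pp, hpp1⟩ : ∃ pp, pp = y j / pl x y (i, j) := ⟨_, rfl⟩
  obtain ⟨qq, hqq1⟩ : ∃ qq, qq = -(x j) / pl x y (i, j) := ⟨_, rfl⟩
  obtain ⟨rr, hrr1⟩ : ∃ rr, rr = -(y i) / pl x y (i, j) := ⟨_, rfl⟩
  obtain ⟨ss, hss1⟩ : ∃ ss, ss = x i / pl x y (i, j) := ⟨_, rfl⟩
  obtain ⟨u, hu⟩ : ∃ u : Fin (n + 1) → Ω, u = pp • x + qq • y := ⟨_, rfl⟩
  obtain ⟨w, hw⟩ : ∃ w : Fin (n + 1) → Ω, w = rr • x + ss • y := ⟨_, rfl⟩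
  have hui : u i = 1 := by
    rw [hu, Pi.add_apply, Pi.smul_apply, Pi.smul_apply, smul_eq_mul, smul_eq_mul, hpp1, hqq1]
    field_simp
    rw [hpp]; ring
  have huj : u j = 0 := by
    rw [hu, Pi.add_apply, Pi.smul_apply, Pi.smul_apply, smul_eq_mul, smul_eq_mul, hpp1, hqq1]
    field_simp
    ring
  have hwi : w i = 0 := by
    rw [hw, Pi.add_apply, Pi.smul_apply, Pi.smul_apply, smul_eq_mul, smul_eq_mul, hrr1, hss1]
    field_simp
    ring
  have hwj : w j = 1 := by
    rw [hw, Pi.add_apply, Pi.smul_apply, Pi.smul_apply, smul_eq_mul, smul_eq_mul, hrr1, hss1]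
    field_simp
    rw [hpp]; ring
  have hTuw : ∀ T : Ω, T • u + w = (T * pp + rr) • x + (T * qq + ss) • y := by
    intro T
    rw [hu, hw]
    module
  have hrhoC : ∀ c, rho u w (F c) = 0 := by
    intro c
    apply Polynomial.funext
    intro T
    rw [eval_rho, Polynomial.eval_zero, hTuw]
    exact hC c _ _
  -- the generators
  obtain ⟨NT, hNT⟩ : ∃ NT : Finset (Cf n dg), NT = Finset.univ.filter
    fun p : Cf n dg => ¬ Two i j p.2.1 := ⟨_, rfl⟩
  obtain ⟨S0, hS0⟩ : ∃ S0 : Finset Ω, S0 = (((Finset.univ.erase i).erase j).image u ∪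
    ((Finset.univ.erase i).erase j).image w) ∪ NT.image (fun p => (F p.1).coeff p.2.1) := ⟨_, rfl⟩
  have hNTc : NT.card + ∑ a, (dg a + 1) ≤ Fintype.card (Cf n dg) := by
    have h1 : ∑ a, (dg a + 1) ≤ (Finset.univ.filter fun p : Cf n dg => Two i j p.2.1).card := by
      obtain ⟨f, hf⟩ : ∃ f : (Σ a : A, Fin (dg a + 1)) → Cf n dg,
          ∀ a, (f a).1 = a.1 ∧ (f a).2.1 = Finsupp.single i (a.2 : ℕ) +
            Finsupp.single j (dg a.1 - a.2) :=
        ⟨fun a => ⟨a.1, Finsupp.single i (a.2 : ℕ) + Finsupp.single j (dg a.1 - a.2), by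
          rw [map_add, Finsupp.degree_single, Finsupp.degree_single]
          have := a.2.2
          omega⟩, fun _ => ⟨rfl, rfl⟩⟩
      have hinj : Function.Injective f := by
        intro a b hab
        have h1 : a.1 = b.1 := by rw [← (hf a).1, ← (hf b).1, hab]
        have h2 : (f a).2.1 i = (f b).2.1 i := by rw [hab]
        rw [(hf a).2, (hf b).2] at h2
        simp only [Finsupp.add_apply, Finsupp.single_eq_same,
          Finsupp.single_eq_of_ne hij, add_zero] at h2
        obtain ⟨a1, a2⟩ := a
        obtain ⟨b1, b2⟩ := b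
        dsimp only at h1 h2
        subst h1
        rw [Fin.ext h2]
      have h2 := Finset.card_le_card (s := Finset.univ.image f) (t := Finset.univ.filter
        fun p : Cf n dg => Two i j p.2.1) (by
          intro I hI
          rw [Finset.mem_image] at hI
          obtain ⟨a, -, rfl⟩ := hI
          rw [Finset.mem_filter]
          refine ⟨Finset.mem_univ _, fun l hli hlj => ?_⟩
          rw [(hf a).2, Finsupp.add_apply, Finsupp.single_eq_of_ne hli,
            Finsupp.single_eq_of_ne hlj, add_zero])
      rw [Finset.card_image_of_injective _ hinj, Finset.card_univ, Fintype.card_sigma] at h2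
      simpa using h2
    have h2 := Finset.card_filter_add_card_filter_not (s := (Finset.univ :
      Finset (Cf n dg))) (fun p => Two i j p.2.1)
    rw [Finset.card_univ] at h2
    rw [hNT]
    omega
  have hcard0 : S0.card + ∑ a, (dg a + 1) ≤ 2 * (n - 1) + Fintype.card (Cf n dg) := by
    have h1 : ((Finset.univ.erase i).erase j).card = n - 1 := by
      rw [Finset.card_erase_of_mem (Finset.mem_erase.2 ⟨hij.symm, Finset.mem_univ j⟩),
        Finset.card_erase_of_mem (Finset.mem_univ i), Finset.card_univ, Fintype.card_fin]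
      omega
    have h3 : S0.card ≤ ((n - 1) + (n - 1)) + NT.card := by
      rw [hS0]
      refine (Finset.card_union_le _ _).trans (add_le_add ((Finset.card_union_le _ _).trans
        (add_le_add ?_ ?_)) Finset.card_image_le)
      · exact Finset.card_image_le.trans h1.le
      · exact Finset.card_image_le.trans h1.le
    omega
  have hS' : ∀ s ∈ S0, s ∈ IntermediateField.adjoin k (S0 : Set Ω) := fun s hs =>
    IntermediateField.subset_adjoin _ _ hs
  have hul : ∀ l, u l ∈ IntermediateField.adjoin k (S0 : Set Ω) := by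
    intro l
    by_cases hli : l = i
    · rw [hli, hui]; exact one_mem _
    · by_cases hlj : l = j
      · rw [hlj, huj]; exact zero_mem _
      · apply hS'
        rw [hS0]
        exact Finset.mem_union_left _ (Finset.mem_union_left _ (Finset.mem_image_of_mem _
          (Finset.mem_erase.2 ⟨hlj, Finset.mem_erase.2 ⟨hli, Finset.mem_univ l⟩⟩)))
  have hwl : ∀ l, w l ∈ IntermediateField.adjoin k (S0 : Set Ω) := by
    intro l
    by_cases hli : l = i
    · rw [hli, hwi]; exact zero_mem _
    · by_cases hlj : l = j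
      · rw [hlj, hwj]; exact one_mem _
      · apply hS'
        rw [hS0]
        exact Finset.mem_union_left _ (Finset.mem_union_right _ (Finset.mem_image_of_mem _
          (Finset.mem_erase.2 ⟨hlj, Finset.mem_erase.2 ⟨hli, Finset.mem_univ l⟩⟩)))
  have h3 : ∀ p : Cf n dg, (F p.1).coeff p.2.1 ∈ IntermediateField.adjoin k (S0 : Set Ω) := by
    intro p
    refine coeff_mem_line' _ hul hwl hij hui huj hwi hwj (hF p.1) ?_ (fun I hI hT => ?_) p.2.1
      p.2.2
    · rw [hrhoC p.1, ← Polynomial.C_0]
      exact LC.C (zero_mem _)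
    · apply hS'
      rw [hS0]
      refine Finset.mem_union_right _ (Finset.mem_image.2 ⟨⟨p.1, ⟨I, hI⟩⟩, ?_, rfl⟩)
      rw [hNT, Finset.mem_filter]
      exact ⟨Finset.mem_univ _, hT⟩
  have hn1 : 1 ≤ n := by
    by_contra hn0
    apply hij
    apply Fin.ext
    omega
  rw [Finset.sum_add_distrib, Finset.sum_const, smul_eq_mul, mul_one, Finset.card_univ] at hcard0
  have h4 := card_le_adjoin hind S0 h3
  rw [Nat.card_eq_fintype_card (α := Cf n dg)] at h4
  omega

end count

variable {k K : Type} [Field k] [Field K] [IsAlgClosed K] [CharZero K] [Algebra k K]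
  {n : ℕ} {A : Type} [Fintype A] [DecidableEq A] {d : A → ℕ}

/-- There are no lines in large degree. -/
theorem no_line_K (hd : 2 * n ≤ ∑ a, d a + Fintype.card A + 1)
    (F : A → MvPolynomial (Fin (n + 1)) K) (hF : ∀ a, (F a).IsHomogeneous (d a))
    (I0 : A → Fin (n + 1) →₀ ℕ) (h0 : ∀ a, (F a).coeff (I0 a) ≠ 0)
    (hind : AlgebraicIndependent k fun p : Rt d I0 =>
      (F p.1).coeff p.2.1 / (F p.1).coeff (I0 p.1))
    {x y : Fin (n + 1) → K} (hxy : LinearIndependent K ![x, y])
    (h : ∀ c, ∀ a b : K, eval (a • x + b • y) (F c) = 0) : False := by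
  obtain ⟨i, j, hij⟩ := pl_of_li hxy
  obtain ⟨K', i1, i2, i3, i4, u, G, hG, hGh, hGi⟩ := exists_scaled F hF I0 h0 hind
  have h1 := line_count0 (k := k) hGh (x := fun l => algebraMap K K' (x l))
    (y := fun l => algebraMap K K' (y l)) (i := i) (j := j) (by
      rw [pl_map]
      dsimp only
      rwa [Ne, map_eq_zero]) (fun c a b => by
      have hinf : Infinite K := IsAlgClosed.instInfinite
      have h2 : rho x y (F c) = 0 := by
        apply Polynomial.funext
        intro t
        rw [eval_rho, Polynomial.eval_zero]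
        have := h c t 1
        rwa [one_smul] at this
      have h3 : rho (fun l => algebraMap K K' (x l)) (fun l => algebraMap K K' (y l))
          (map (algebraMap K K') (F c)) = 0 := by
        rw [rho_map, h2, Polynomial.map_zero]
      have h4 : eval (fun l => algebraMap K K' (x l)) (map (algebraMap K K') (F c)) = 0 := by
        rw [eval_mapF]
        have := h c 1 0
        rw [one_smul, zero_smul, add_zero] at this
        rw [this, map_zero]
      have h5 : ∀ a b : K', eval (a • (fun l => algebraMap K K' (x l)) + b • fun l =>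
          algebraMap K K' (y l)) (map (algebraMap K K') (F c)) = 0 := by
        intro a b
        by_cases hb : b = 0
        · rw [hb, zero_smul, add_zero, eval_smul_hom ((hF c).map _), h4, mul_zero]
        · have h5 : a • (fun l => algebraMap K K' (x l)) + b • (fun l => algebraMap K K' (y l)) =
              b • ((a / b) • (fun l => algebraMap K K' (x l)) + fun l => algebraMap K K' (y l)) := by
            rw [smul_add, smul_smul, mul_div_cancel₀ _ hb]
          rw [h5, eval_smul_hom ((hF c).map _), ← eval_rho, h3, Polynomial.eval_zero, mul_zero]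
      rw [hG, map_mul, h5, mul_zero]) hGi
  omega

end Pool.Agent.Y741
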