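import Pool.Agent.Y741.SetupV
import Pool.Agent.TH145.GC.Scale

/-!
Forms whose coefficients have algebraically independent ratios.
-/

set_option autoImplicit false

open MvPolynomial Pool.Agent.TH145.GH
open Pool.Agent.TH145.GC (Gen Cf finite_cf Rt exists_big indep_scale)
open Pool.Agent.Y735 (rho eval_rho rho_X pl fht rho_deg fht_nonneg)

namespace Pool.Agent.Y741

/-- Specialization to an algebraically closed field. -/
theorem exists_spec {K Ω σ : Type} [Field K] [Field Ω] [Algebra K Ω] [IsAlgClosed K] [Finite σ]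
    (v : σ → Ω) (p : MvPolynomial σ K) (hp : aeval v p ≠ 0) :
    ∃ v0 : σ → K, eval v0 p ≠ 0 ∧ ∀ q : MvPolynomial σ K, aeval v q = 0 → eval v0 q = 0 := by
  obtain ⟨I, hI⟩ : ∃ I : Ideal (MvPolynomial σ K), I = RingHom.ker (aeval (R := K) v) := ⟨_, rfl⟩
  by_contra hcon
  push Not at hcon
  have h3 : p ∈ vanishingIdeal K (zeroLocus K I) := by
    rw [mem_vanishingIdeal_iff]
    intro y0 hy0
    by_contra h4
    obtain ⟨q, hq, hq0⟩ := hcon y0 h4
    exact hq0 (hy0 q (by rw [hI, RingHom.mem_ker]; exact hq))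
  rw [vanishingIdeal_zeroLocus_eq_radical] at h3
  obtain ⟨m, hm⟩ := h3
  rw [hI, RingHom.mem_ker, map_pow] at hm
  exact pow_ne_zero m hp hm

section

variable {n : ℕ} {A : Type} [Fintype A] [DecidableEq A]

/-- Lines over an extension of an algebraically closed field. -/
theorem exc_descend {K Ω : Type} [Field K] [Field Ω] [Algebra K Ω] [IsAlgClosed K] {r : ℕ}
    {F : Fam K n A} {dg : A → ℕ} (hF : ∀ a, (F a).IsHomogeneous (dg a)) {C : Finset A}
    {x : Fin (n + 1) → K} (hxC : ∀ c ∈ C, eval x (F c) = 0)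
    (h : Exc r (mapF (algebraMap K Ω) F) C fun j => algebraMap K Ω (x j)) : Exc r F C x := by
  classical
  obtain ⟨y, ⟨i, j⟩, hij, h1, t, m, h2⟩ := h
  have hinf : Infinite Ω := Infinite.of_injective _ (algebraMap K Ω).injective
  obtain ⟨f, hf⟩ : ∃ f : K → A → MvPolynomial (Fin (n + 1) ⊕ Fin r) K, ∀ s a, f s a =
      aeval (fun l => MvPolynomial.C (s * x l) + X (Sum.inl l)) (F a) := ⟨_, fun _ _ => rfl⟩
  obtain ⟨v0, hv0, hv⟩ := exists_spec (K := K) (Sum.elim y t)
    (MvPolynomial.C (x i) * X (Sum.inl j) - MvPolynomial.C (x j) * X (Sum.inl i)) (by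
      rw [map_sub, map_mul, map_mul, aeval_X, aeval_X, aeval_C, aeval_C]
      exact hij)
  obtain ⟨y0, hy0⟩ : ∃ y0 : Fin (n + 1) → K, y0 = fun l => v0 (Sum.inl l) := ⟨_, rfl⟩
  have hfe : ∀ s a, eval v0 (f s a) = eval (s • x + y0) (F a) := by
    intro s a
    rw [hf, ← coe_aeval_eq_eval, RingHom.coe_coe, ← coe_aeval_eq_eval, RingHom.coe_coe,
      ← AlgHom.comp_apply]
    congr 1
    apply MvPolynomial.algHom_ext
    intro l
    rw [AlgHom.comp_apply, aeval_X, aeval_X, map_add, aeval_X, hy0]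
    simp
  have hfa : ∀ s a, aeval (Sum.elim y t) (f s a) = eval (algebraMap K Ω s •
      (fun j => algebraMap K Ω (x j)) + y) (mapF (algebraMap K Ω) F a) := by
    intro s a
    unfold mapF
    rw [hf, eval_map, ← aeval_def, ← AlgHom.comp_apply]
    congr 1
    apply MvPolynomial.algHom_ext
    intro l
    rw [AlgHom.comp_apply, aeval_X, aeval_X, map_add, C_mul, map_mul, aeval_X, aeval_C,
      aeval_C, Pi.add_apply, Pi.smul_apply, smul_eq_mul]
    rfl
  refine ⟨y0, (i, j), ?_, ?_, fun i => v0 (Sum.inr i), m, ?_⟩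
  · rw [map_sub, map_mul, map_mul, eval_X, eval_X, eval_C, eval_C] at hv0
    rw [hy0]
    exact hv0
  · rw [onL_iff_rho hF hxC]
    intro c hc
    apply Polynomial.funext
    intro s
    rw [eval_rho, Polynomial.eval_zero, ← hfe]
    refine hv _ ?_
    rw [hfa]
    have := h1 c hc (algebraMap K Ω s) 1
    rwa [one_smul] at this
  · obtain ⟨q0, hq0⟩ : ∃ q0 : K, q0 = ∏ b ∈ Cᶜ, eval x (F b) := ⟨_, rfl⟩
    rw [← hq0]
    have hq1 : ∏ b ∈ Cᶜ, eval (fun j => algebraMap K Ω (x j)) (mapF (algebraMap K Ω) F b) =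
        algebraMap K Ω q0 := by
      rw [hq0, map_prod]
      refine Finset.prod_congr rfl fun b _ => ?_
      unfold mapF
      rw [eval_mapF]
    rw [hq1] at h2
    apply Polynomial.funext
    intro s
    have h3 := hv (∏ b ∈ Cᶜ, f s b - MvPolynomial.C q0 *
      ∏ i, (MvPolynomial.C s - X (Sum.inr i)) ^ m i) (by
      rw [map_sub, map_mul, map_prod, map_prod, aeval_C]
      have h4 := congrArg (Polynomial.eval (algebraMap K Ω s)) h2
      unfold bdy at h4
      rw [Polynomial.eval_prod, Polynomial.eval_mul, Polynomial.eval_C,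
        Polynomial.eval_prod] at h4
      rw [Finset.prod_congr rfl fun b _ => hfa s b]
      rw [Finset.prod_congr rfl fun b _ => eval_rho _ _ _ _] at h4
      rw [h4, sub_eq_zero]
      congr 1
      refine Finset.prod_congr rfl fun i _ => ?_
      rw [map_pow, map_sub, aeval_C, aeval_X, Polynomial.eval_pow, Polynomial.eval_sub,
        Polynomial.eval_X, Polynomial.eval_C]
      rfl)
    rw [map_sub, map_mul, map_prod, map_prod, eval_C, sub_eq_zero] at h3
    unfold bdy
    rw [Polynomial.eval_prod, Polynomial.eval_mul, Polynomial.eval_C, Polynomial.eval_prod,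
      Finset.prod_congr rfl fun b _ => eval_rho _ _ _ _,
      Finset.prod_congr rfl fun b _ => (hfe s b).symm, h3]
    congr 1
    refine Finset.prod_congr rfl fun i _ => ?_
    rw [map_pow, map_sub, eval_C, eval_X, Polynomial.eval_pow, Polynomial.eval_sub,
      Polynomial.eval_X, Polynomial.eval_C]

/-- Multiples of the forms. -/
theorem exc_scale {K : Type} [Field K] {r : ℕ} {F G : Fam K n A} {C : Finset A}
    {u : A → K} (hu : ∀ a, u a ≠ 0) (hG : ∀ a, G a = MvPolynomial.C (u a) * F a)
    {x : Fin (n + 1) → K} (h : Exc r G C x) : Exc r F C x := by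
  obtain ⟨y, ik, hik, h1, t, m, h2⟩ := h
  have hrho : ∀ a, rho x y (G a) = Polynomial.C (u a) * rho x y (F a) := by
    intro a
    rw [hG, map_mul]
    congr 1
    unfold rho
    rw [aeval_C]
    rfl
  have hev : ∀ a z, eval z (G a) = u a * eval z (F a) := by
    intro a z
    rw [hG, map_mul, eval_C]
  refine ⟨y, ik, hik, fun c hc a b => ?_, t, m, ?_⟩
  · have h3 := h1 c hc a b
    rw [hev] at h3
    exact (mul_eq_zero.1 h3).resolve_left (hu c)
  · unfold bdy at h2 ⊢
    rw [Finset.prod_congr rfl fun b _ => hrho b, Finset.prod_mul_distrib,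
      Finset.prod_congr rfl fun b _ => hev b x, Finset.prod_mul_distrib, map_mul, mul_assoc,
      ← map_prod] at h2
    refine mul_left_cancel₀ ?_ h2
    rw [Ne, Polynomial.C_eq_zero]
    exact Finset.prod_ne_zero_iff.2 fun b _ => hu b

end

/-- Finiteness of the integral points. -/
theorem fin_points_W {k0 K : Type} [Field k0] [Field K] [Algebra k0 K] [IsAlgClosed K]
    [CharZero K] [IsAlgClosed k0] {n r : ℕ} {A : Type} [Fintype A] [DecidableEq A] {dg : A → ℕ}
    {C : Finset A} (hpos : ∀ a, 0 < dg a)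
    (hn : 1 ≤ n) (hr : 1 ≤ r)
    (hC : ∃ b, b ∉ C) (hd : 3 * n + 3 ≤ 2 * ∑ a, dg a + C.card) (hM : LineM n A dg C r)
    (F : A → MvPolynomial (Fin (n + 1)) K) (hF : ∀ a, (F a).IsHomogeneous (dg a))
    (I0 : A → Fin (n + 1) →₀ ℕ) (h0 : ∀ a, (F a).coeff (I0 a) ≠ 0)
    (hind : AlgebraicIndependent k0 fun p : Rt dg I0 =>
      (F p.1).coeff p.2.1 / (F p.1).coeff (I0 p.1))
    (T : Finset K) (l0 : Fin (n + 1)) :
    Few {x : Fin (n + 1) → K | (∀ j, x j ∈ IntermediateField.adjoin k0 (T : Set K)) ∧ x l0 = 1 ∧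
      (∀ a ∈ C, eval x (F a) = 0) ∧
      (∀ a, a ∉ C → eval x (F a) ≠ 0) ∧ (∀ a, a ∉ C → ∀ j, x j ^ dg a / eval x (F a) ∈
        Subring.closure (Set.range (algebraMap k0 K) ∪ (T : Set K))) ∧ ¬ Exc r F C x} := by
  classical
  obtain ⟨K', _, _, hK', hc, t, ht⟩ := exists_big K A
  let _ : Algebra k0 K' := ((algebraMap K K').comp (algebraMap k0 K)).toAlgebra
  have hst : IsScalarTower k0 K K' := IsScalarTower.of_algebraMap_eq fun _ => rfl
  have hI0 : ∀ a, (I0 a).degree = dg a := fun a =>
    deg_of_mem (hF a) (mem_support_iff.2 (h0 a))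
  have h1 := indep_scale (k0 := k0) (K' := K') F I0 hI0 h0 hind ht
  obtain ⟨G, hG⟩ : ∃ G : A → MvPolynomial (Fin (n + 1)) K', ∀ a, G a =
    MvPolynomial.C (t a / algebraMap K K' ((F a).coeff (I0 a))) * map (algebraMap K K') (F a) :=
    ⟨_, fun _ => rfl⟩
  have h2 : ∀ a, (G a).IsHomogeneous (dg a) := fun a => by
    have := (isHomogeneous_C (Fin (n + 1)) (t a / algebraMap K K' ((F a).coeff (I0 a)))).mul
      ((hF a).map (algebraMap K K'))
    rwa [zero_add, ← hG] at this
  have h4 : (fun p : Cf n dg => (G p.1).coeff p.2.1) =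
      fun p => t p.1 / algebraMap K K' ((F p.1).coeff (I0 p.1)) *
        algebraMap K K' ((F p.1).coeff p.2.1) := by
    funext p
    rw [hG, coeff_C_mul, coeff_map]
  have h5 : AlgebraicIndependent k0 (fun p : Cf n dg => (G p.1).coeff p.2.1) := by
    rw [h4]
    exact h1
  have ha0 : ∀ a, algebraMap K K' ((F a).coeff (I0 a)) ≠ 0 := fun a => by
    rw [Ne, map_eq_zero]; exact h0 a
  have ht0 : ∀ a, t a ≠ 0 := fun a => by
    intro h5
    have h6 : Transcendental K (t a) := ht.transcendental a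
    rw [h5] at h6
    exact h6 (by
      have := isAlgebraic_algebraMap (R := K) (A := K') 0
      rwa [map_zero] at this)
  obtain ⟨T', hT'⟩ : ∃ T' : Finset K', T' = Finset.univ.image
    (fun a => algebraMap K K' ((F a).coeff (I0 a)) / t a) ∪ T.image (algebraMap K K') := ⟨_, rfl⟩
  have h3 := fin_points_V (k0 := k0) hpos hn hr hC hd hM h2 h5 T' l0
  have hev : ∀ (a : A) (x : Fin (n + 1) → K), eval (fun j => algebraMap K K' (x j)) (G a) =
      t a / algebraMap K K' ((F a).coeff (I0 a)) * algebraMap K K' (eval x (F a)) := by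
    intro a x
    rw [hG, map_mul, eval_map, eval_C]
    have h5 := eval₂_comp_left (algebraMap K K') (RingHom.id K) x (F a)
    rw [RingHom.comp_id] at h5
    congr 1
    exact h5.symm
  refine few_comap (algebraMap K K') (few_mono h3 ?_)
  rintro _ ⟨x, ⟨hx, hxl, hxC, hxF, hxs, hxX⟩, rfl⟩
  refine ⟨fun j => ?_, ?_, fun a ha => ?_, fun a ha => ?_, fun a ha j => ?_, fun hX => hxX ?_⟩
  · have h4 : (IntermediateField.adjoin k0 (T : Set K)).map (IsScalarTower.toAlgHom k0 K K') =
        IntermediateField.adjoin k0 ((T.image (algebraMap K K') : Finset K') : Set K') := by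
      rw [IntermediateField.adjoin_map, Finset.coe_image]
      rfl
    have h6 : algebraMap K K' (x j) ∈
        IntermediateField.adjoin k0 ((T.image (algebraMap K K') : Finset K') : Set K') := by
      rw [← h4]
      exact ⟨x j, hx j, rfl⟩
    refine IntermediateField.adjoin.mono _ _ _ ?_ h6
    rw [hT', Finset.coe_union]
    exact Set.subset_union_right
  · dsimp only
    rw [hxl, map_one]
  · rw [hev, hxC a ha, map_zero, mul_zero]
  · rw [hev]
    exact mul_ne_zero (div_ne_zero (ht0 a) (ha0 a)) (by rw [Ne, map_eq_zero]; exact hxF a ha)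
  · rw [hev]
    have h6 : algebraMap K K' (x j) ^ dg a /
        (t a / algebraMap K K' ((F a).coeff (I0 a)) * algebraMap K K' (eval x (F a))) =
        algebraMap K K' ((F a).coeff (I0 a)) / t a *
          algebraMap K K' (x j ^ dg a / eval x (F a)) := by
      rw [map_div₀, map_pow]
      have h7 : algebraMap K K' (eval x (F a)) ≠ 0 := by rw [Ne, map_eq_zero]; exact hxF a ha
      have h8 := ht0 a
      have h9 := ha0 a
      field_simp
    rw [h6]
    refine mul_mem (Subring.subset_closure (Or.inr ?_)) ?_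
    · rw [hT', Finset.mem_coe]
      exact Finset.mem_union_left _ (Finset.mem_image_of_mem _ (Finset.mem_univ _))
    · have h7 : Subring.closure (Set.range (algebraMap k0 K) ∪ (T : Set K)) ≤
          (Subring.closure (Set.range (algebraMap k0 K') ∪
            (T' : Set K'))).comap (algebraMap K K') := by
        rw [Subring.closure_le]
        rintro z (⟨r, rfl⟩ | hz)
        · exact Subring.subset_closure (Or.inl ⟨r, rfl⟩)
        · refine Subring.subset_closure (Or.inr ?_)
          rw [hT', Finset.mem_coe]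
          exact Finset.mem_union_right _ (Finset.mem_image_of_mem _ hz)
      exact h7 (hxs a ha j)
  · exact exc_descend hF hxC (exc_scale (fun a => div_ne_zero (ht0 a) (ha0 a)) hG hX)

end Pool.Agent.Y741
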