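import Pool.Agent.Y741.KFin
import Pool.Agent.Y741.KLines
import Pool.Agent.Y741.ScaleV
import Pool.Agent.Y735.Irred
import Pool.Agent.TH145.GH.MainA

/-!
Rational points on generic complete intersections: assembly.
-/

set_option autoImplicit false

open MvPolynomial FF Pool.Agent.W603.PV Pool.Agent.W602.GT Pool.Agent.TH145.MG
open Pool.Agent.TH145.GH
open Pool.Agent.TH145.GC (Gen Cf finite_cf Rt exists_big indep_scale)
open Pool.Agent.Y735 (rho eval_rho rho_X pl fht rho_deg fht_nonneg)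
open LinearAlgebra.Projectivization

namespace Pool.Agent.Y741

/-- Finiteness of the rational points that do not lie on lines. -/
theorem fin_scaled_K {k0 K : Type} [Field k0] [Field K] [Algebra k0 K] [IsAlgClosed K]
    [CharZero K] [IsAlgClosed k0] {n : ℕ} {A : Type} [Fintype A] [DecidableEq A] {dg : A → ℕ}
    (hpos : ∀ a, 0 < dg a)
    (hn : 1 ≤ n) (hd : 3 * n + 3 ≤ 2 * ∑ a, dg a + Fintype.card A)
    (F : A → MvPolynomial (Fin (n + 1)) K) (hF : ∀ a, (F a).IsHomogeneous (dg a))
    (I0 : A → Fin (n + 1) →₀ ℕ) (h0 : ∀ a, (F a).coeff (I0 a) ≠ 0)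
    (hind : AlgebraicIndependent k0 fun p : Rt dg I0 =>
      (F p.1).coeff p.2.1 / (F p.1).coeff (I0 p.1))
    (T : Finset K) (l0 : Fin (n + 1)) :
    {x : Fin (n + 1) → K | (∀ j, x j ∈ IntermediateField.adjoin k0 (T : Set K)) ∧ x l0 = 1 ∧
      (∀ a, eval x (F a) = 0) ∧ ¬ Exc 1 F Finset.univ x}.Finite := by
  classical
  obtain ⟨K', _, _, hK', hc, t, ht⟩ := exists_big K A
  let _ : Algebra k0 K' := ((algebraMap K K').comp (algebraMap k0 K)).toAlgebra
  have hst : IsScalarTower k0 K K' := IsScalarTower.of_algebraMap_eq fun _ => rfl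
  have hI0 : ∀ a, (I0 a).degree = dg a := fun a =>
    deg_of_mem (hF a) (mem_support_iff.2 (h0 a))
  have h1 := indep_scale (k0 := k0) (K' := K') F I0 hI0 h0 hind ht
  obtain ⟨G, hG⟩ : ∃ G : A → MvPolynomial (Fin (n + 1)) K', ∀ a, G a =
    MvPolynomial.C (t a / algebraMap K K' ((F a).coeff (I0 a))) * map (algebraMap K K') (F a) :=
    ⟨_, fun _ => rfl⟩
  have h2 : ∀ a, (G a).IsHomogeneous (dg a) := fun a => by
    have := (isHomogeneous_C (Fin (n + 1)) (t a / algebraMap K K' ((F a).coeff (I0 a)))).mul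
      ((hF a).map (algebraMap K K'))
    rwa [zero_add, ← hG] at this
  have h4 : (fun p : Cf n dg => (G p.1).coeff p.2.1) =
      fun p => t p.1 / algebraMap K K' ((F p.1).coeff (I0 p.1)) *
        algebraMap K K' ((F p.1).coeff p.2.1) := by
    funext p
    rw [hG, coeff_C_mul, coeff_map]
  have h5 : AlgebraicIndependent k0 (fun p : Cf n dg => (G p.1).coeff p.2.1) := by
    rw [h4]
    exact h1
  have ha0 : ∀ a, algebraMap K K' ((F a).coeff (I0 a)) ≠ 0 := fun a => by
    rw [Ne, map_eq_zero]; exact h0 a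
  have ht0 : ∀ a, t a ≠ 0 := fun a => by
    intro h5
    have h6 : Transcendental K (t a) := ht.transcendental a
    rw [h5] at h6
    exact h6 (by
      have := isAlgebraic_algebraMap (R := K) (A := K') 0
      rwa [map_zero] at this)
  have h3 := fin_points_K (k0 := k0) hpos hn hd h2 h5 (T.image (algebraMap K K')) l0
  have hev : ∀ (a : A) (x : Fin (n + 1) → K), eval (fun j => algebraMap K K' (x j)) (G a) =
      t a / algebraMap K K' ((F a).coeff (I0 a)) * algebraMap K K' (eval x (F a)) := by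
    intro a x
    rw [hG, map_mul, eval_map, eval_C]
    have h5 := eval₂_comp_left (algebraMap K K') (RingHom.id K) x (F a)
    rw [RingHom.comp_id] at h5
    congr 1
    exact h5.symm
  have hinj : Function.Injective fun (x : Fin (n + 1) → K) j => algebraMap K K' (x j) := by
    intro x x' h
    funext j
    exact (algebraMap K K').injective (congrFun h j)
  refine Set.Finite.of_finite_image (h3.subset ?_) (f := fun x j => algebraMap K K' (x j))
    hinj.injOn
  rintro _ ⟨x, ⟨hx, hxl, hxC, hxX⟩, rfl⟩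
  refine ⟨fun j => ?_, ?_, fun a => ?_, fun hX => hxX ?_⟩
  · have h4 : (IntermediateField.adjoin k0 (T : Set K)).map (IsScalarTower.toAlgHom k0 K K') =
        IntermediateField.adjoin k0 ((T.image (algebraMap K K') : Finset K') : Set K') := by
      rw [IntermediateField.adjoin_map, Finset.coe_image]
      rfl
    rw [← h4]
    exact ⟨x j, hx j, rfl⟩
  · dsimp only
    rw [hxl, map_one]
  · rw [hev, hxC a, map_zero, mul_zero]
  · exact exc_descend hF (fun c _ => hxC c)
      (exc_scale (fun a => div_ne_zero (ht0 a) (ha0 a)) hG hX)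

section

variable {k K : Type} [Field k] [Field K] [IsAlgClosed K] [CharZero K] [Algebra k K] {n : ℕ}
  {A : Type} [Fintype A] [DecidableEq A] {d : A → ℕ}

/-- The lines on a complete intersection. -/
def LineIn {K A : Type} [Field K] {n : ℕ} (F : A → MvPolynomial (Fin (n + 1)) K)
    (W : Submodule K (Fin (n + 1) → K)) : Prop :=
  Module.finrank K W = 2 ∧ ∀ a, ∀ v ∈ W, eval v (F a) = 0

omit [IsAlgClosed K] [CharZero K] [Algebra k K] in
theorem lineIn_of_exc {F : Fam K n A} {x : Fin (n + 1) → K} (h : Exc 1 F Finset.univ x) :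
    ∃ W, LineIn F W ∧ x ∈ W := by
  obtain ⟨y, ik, hik, h1, -⟩ := h
  have hli := li_of_pl hik
  refine ⟨Submodule.span K {x, y}, ⟨finrank_span_of_li hli, fun a v hv => ?_⟩,
    Submodule.subset_span (Set.mem_insert _ _)⟩
  obtain ⟨r, s, rfl⟩ := Submodule.mem_span_pair.1 hv
  exact h1 a (Finset.mem_univ a) r s

omit [CharZero K] [Algebra k K] in
theorem exc_of_lineIn {F : Fam K n A} (d : A → ℕ) {W : Submodule K (Fin (n + 1) → K)}
    (hW : LineIn F W) {x : Fin (n + 1) → K} (hx : x ∈ W) (hx0 : x ≠ 0) :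
    Exc 1 F Finset.univ x := by
  have hinf : Infinite K := IsAlgClosed.instInfinite
  obtain ⟨y, hy, hli⟩ : ∃ y ∈ W, LinearIndependent K ![x, y] := by
    by_contra hcon
    push Not at hcon
    have h1 : W ≤ Submodule.span K {x} := by
      intro y hy
      have h2 := hcon y hy
      rw [LinearIndependent.pair_iff' hx0] at h2
      push Not at h2
      obtain ⟨a, ha⟩ := h2
      exact Submodule.mem_span_singleton.2 ⟨a, ha⟩
    have h2 := Submodule.finrank_mono h1
    rw [finrank_span_singleton hx0, hW.1] at h2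
    omega
  obtain ⟨i, j, hij⟩ := pl_of_li hli
  exact exc_univ d (ik := (i, j)) hij fun c _ a b =>
    hW.2 c _ (add_mem (W.smul_mem _ hx) (W.smul_mem _ hy))

/-- Rational points on generic complete intersections. -/
theorem generic_proper (hn : 1 ≤ n) (hd0 : ∀ a, 0 < d a)
    (hd : 3 * n + 3 ≤ 2 * ∑ a, d a + Fintype.card A)
    (F : A → MvPolynomial (Fin (n + 1)) K) (hF : ∀ a, (F a).IsHomogeneous (d a))
    (I0 : ∀ a, {I : Fin (n + 1) →₀ ℕ // I.degree = d a}) (h0 : ∀ a, (F a).coeff (I0 a).1 ≠ 0)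
    (hgen : AlgebraicIndependent k
      fun p : (a : A) × {I : {I : Fin (n + 1) →₀ ℕ // I.degree = d a} // I ≠ I0 a} =>
        (F p.1).coeff p.2.1.1 / (F p.1).coeff (I0 p.1).1) :
    (∀ T : Finset K, {p : ℙ K (Fin (n + 1) → K) | ∃ x : Fin (n + 1) → K,
      ((∀ a, eval x (F a) = 0) ∧ ¬ ∃ W, LineIn F W ∧ x ∈ W) ∧
      (∀ i, x i ∈ IntermediateField.adjoin (algebraicClosure k K) (T : Set K)) ∧
        ∃ hx : x ≠ 0, p = Projectivization.mk K x hx}.Finite) ∧
    (2 * n ≤ ∑ a, d a + Fintype.card A + 1 → ∀ W, ¬ LineIn F W) ∧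
    (Fintype.card A < n → ∃ (H : MvPolynomial (Fin (n + 1)) K) (e : ℕ), H.IsHomogeneous e ∧
      (∃ v, (∀ a, eval v (F a) = 0) ∧ eval v H ≠ 0) ∧
      ∀ W, LineIn F W → ∀ v ∈ W, v ≠ 0 → eval v H = 0) ∧
    (2 ≤ n → ∀ a, (∀ b, b = a) → Irreducible (F a)) ∧
    ∀ (L : Type) [Field L] [Algebra K L] (w : ℕ) (x : Fin (n + 1) → L), 0 < w →
      2 * n + 2 ≤ ∑ a, d a + Fintype.card A + w → Algebra.trdeg K L = w → x ≠ 0 →
      Algebra.IsAlgebraic (coords K x) L → (∀ a, aeval x (F a) = 0) → GeneralType K L w := by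
  classical
  have hac : IsAlgClosed (algebraicClosure k K) := (algebraicClosure.isAlgClosure k K).isAlgClosed
  have hind : AlgebraicIndependent k fun p : Pool.Agent.TH145.GC.Rt d (fun a => (I0 a).1) =>
      (F p.1).coeff p.2.1 / (F p.1).coeff ((fun a => (I0 a).1) p.1) := by
    have h2 := hgen.comp (fun p : Pool.Agent.TH145.GC.Rt d (fun a => (I0 a).1) =>
      (⟨p.1, ⟨p.2.1, p.2.2.1⟩, fun h => p.2.2.2 (congrArg Subtype.val h)⟩ :
        (a : A) × {I : {I : Fin (n + 1) →₀ ℕ // I.degree = d a} // I ≠ I0 a})) (by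
          rintro ⟨a, ⟨I, hI⟩⟩ ⟨a', ⟨I', hI'⟩⟩ h
          have e1 : a = a' := congrArg Sigma.fst h
          subst e1
          have e2 := eq_of_heq (Sigma.mk.inj_iff.1 h).2
          have e3 : I = I' := congrArg (fun z => z.1.1) e2
          subst e3
          rfl)
    exact h2
  have hcu : (Finset.univ : Finset A).card = Fintype.card A := Finset.card_univ
  refine ⟨fun T => ?_, fun hd' W hW => ?_, fun hA => ?_, fun hn2 a ha => ?_,
    fun L _ _ w x hw hdw htr hx0 halg hxF => ?_⟩
  · have h1 := proj_finite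
      (IntermediateField.adjoin (algebraicClosure k K) (T : Set K)).toSubfield
      {x : Fin (n + 1) → K | (∀ a, eval x (F a) = 0) ∧ ¬ ∃ W, LineIn F W ∧ x ∈ W} (by
        rintro x ⟨hx, hxL⟩ a ha
        refine ⟨fun b => ?_, fun ⟨W, hW, hxW⟩ => hxL ⟨W, hW, ?_⟩⟩
        · rw [eval_smul_hom (hF b), hx b, mul_zero]
        · have h2 := W.smul_mem a⁻¹ hxW
          rwa [smul_smul, inv_mul_cancel₀ ha, one_smul] at h2) (fun l0 => by
        have h2 := fin_scaled_K (k0 := algebraicClosure k K) hd0 hn hd F hF _ h0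
          hind.algebraicClosure T l0
        refine h2.subset ?_
        rintro x ⟨hx, hxl, hxF, hxL⟩
        exact ⟨hx, hxl, hxF, fun h => hxL (lineIn_of_exc h)⟩)
    exact h1
  · obtain ⟨x, hx, hx0⟩ : ∃ x ∈ W, x ≠ 0 := by
      have h1 : W ≠ ⊥ := by
        rintro rfl
        have := hW.1
        rw [finrank_bot] at this
        omega
      exact Submodule.exists_mem_ne_zero_of_ne_bot h1
    obtain ⟨y, ik, hik, h1, -⟩ := exc_of_lineIn d hW hx hx0
    exact no_line_K (k := k) hd' F hF _ h0 hind (li_of_pl hik)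
      fun c a b => h1 c (Finset.mem_univ c) a b
  · have hS : n + 2 ≤ ∑ a, d a := by omega
    obtain ⟨H, e, hH0, hHe, hH⟩ := exists_H_exc (k := k) Finset.univ hS F hF _ h0 hind
    obtain ⟨v, hv1, hv2, hv3⟩ := exists_good hd0 Finset.univ (by rw [hcu]; omega) F hF _ h0 hind hH0
    refine ⟨rename (Fin.castLE (Nat.sub_le _ _)) H, e, hHe.rename_isHomogeneous,
      ⟨v, fun a => hv1 a (Finset.mem_univ a), by rw [eval_rename]; exact hv3⟩,
      fun W hW v hv hv0 => ?_⟩
    rw [eval_rename]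
    obtain ⟨p, hp⟩ : ∃ p, p = Projectivization.mk K v hv0 := ⟨_, rfl⟩
    obtain ⟨u, hu⟩ := Projectivization.exists_smul_eq_mk_rep K v hv0
    rw [← hp] at hu
    have hu0 : (u : K) ≠ 0 := u.ne_zero
    have hu' : p.rep = (u : K) • v := hu.symm
    have hbd : Bd F Finset.univ = ∅ := by
      ext q
      refine ⟨?_, fun h => h.elim⟩
      rintro ⟨b, hb, -⟩
      exact hb (Finset.mem_univ b)
    have h6 := hH W ⟨hW.1, fun c _ => hW.2 c⟩ (by
      rw [hbd, Set.inter_empty, Set.encard_empty]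
      exact zero_le) p (by
      change p.rep ∈ W
      rw [hu']
      exact W.smul_mem _ hv) (by
      rw [hbd]
      exact fun h => h.elim)
    have h7 : (fun l => p.rep (Fin.castLE (Nat.sub_le _ _) l)) = (u : K) •
        (fun l : Fin (n + 1 - (Finset.univ : Finset A).card) =>
          v (Fin.castLE (Nat.sub_le _ _) l)) := by
      funext l
      rw [hu']
      rfl
    rw [h7, eval_smul_fin hHe] at h6
    exact (mul_eq_zero.1 h6).resolve_left (pow_ne_zero _ hu0)
  · have hA : Fintype.card A = 1 := Fintype.card_eq_one_iff.2 ⟨a, ha⟩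
    have hsum : ∑ b, d b = d a := by
      rw [Finset.sum_eq_single a (fun b _ hb => absurd (ha b) hb)
        (fun h => absurd (Finset.mem_univ a) h)]
    rw [hsum, hA] at hd
    have hgen' : AlgebraicIndependent k
        fun I : {I : {I : Fin (n + 1) →₀ ℕ // I.degree = d a} // I ≠ I0 a} =>
          (F a).coeff I.1.1 / (F a).coeff (I0 a).1 := by
      exact hgen.comp (fun I : {I : {I : Fin (n + 1) →₀ ℕ // I.degree = d a} // I ≠ I0 a} =>
        (⟨a, I⟩ : (a : A) × {I : {I : Fin (n + 1) →₀ ℕ // I.degree = d a} // I ≠ I0 a}))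
        (fun I J h => eq_of_heq (Sigma.mk.inj_iff.1 h).2)
    exact Pool.Agent.Y735.irreducible_gen hn2 (by omega) (hF a) (I0 a) (h0 a) hgen'
  · have h1 := log_sub (k := k) hw Finset.univ (by rw [hcu]; exact hdw) F hF _ h0 hind htr hx0
      halg (fun c _ => hxF c) (fun b hb => absurd (Finset.mem_univ b) hb)
    have h2 : (fun Q : Place K L => ∃ b, b ∉ (Finset.univ : Finset A) ∧
        d b * pord Q x < Q.ord (aeval x (F b))) = fun _ => False := by
      funext Q
      refine propext ⟨?_, fun h => h.elim⟩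
      rintro ⟨b, hb, -⟩
      exact hb (Finset.mem_univ b)
    rw [h2] at h1
    exact Pool.Agent.W602.GT.general_of_log h1

end

end Pool.Agent.Y741
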