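import Pool.Agent.Y741.ExcG
import Pool.Agent.TH145.GL.Main
import Pool.Agent.Y735.MainL

/-!
The subvarieties of large dimension of generic pairs are of log general type.
-/

set_option autoImplicit false

open MvPolynomial FF Pool.Agent.W603.LV Pool.Agent.W603.PV Pool.Agent.W602.RG Pool.Agent.TH145.GH
open Pool.Agent.TH145.GC (Gen Rt)
open Pool.Agent.W602.GT Pool.Agent.TH145.MG
open Pool.Agent.Y735 (dim_top)
open LinearAlgebra.Projectivization

namespace Pool.Agent.Y741

/-- A form is the sum of its terms. -/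
theorem form_eq_sum {k K : Type} [Field k] [Field K] [Algebra k K] {n d : ℕ}
    {F : MvPolynomial (Fin (n + 1)) K} (hF : F.IsHomogeneous d)
    [Fintype {I : Fin (n + 1) →₀ ℕ // I.degree = d}] :
    F = ∑ I : {I : Fin (n + 1) →₀ ℕ // I.degree = d},
      MvPolynomial.C (F.coeff I.1) * map (algebraMap k K) (monomial I.1 1) := by
  classical
  have h2 : ∀ I : {I : Fin (n + 1) →₀ ℕ // I.degree = d},
      MvPolynomial.C (F.coeff I.1) * map (algebraMap k K) (monomial I.1 1) =
        monomial I.1 (F.coeff I.1) := by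
    intro I
    rw [MvPolynomial.map_monomial, map_one, C_mul_monomial, mul_one]
  rw [Finset.sum_congr rfl fun I _ => h2 I]
  conv_lhs => rw [F.as_sum]
  rw [← Finset.sum_subtype_of_mem (p := fun I : Fin (n + 1) →₀ ℕ => I.degree = d)
    (fun I => monomial I (F.coeff I)) (fun I hI => deg_of_mem hF hI)]
  refine Finset.sum_subset (Finset.subset_univ _) fun I _ hI => ?_
  rw [Finset.mem_subtype, notMem_support_iff] at hI
  rw [hI, monomial_zero]

theorem log_sub {k K L : Type} [Field k] [Field K] [Field L] [Algebra k K] [Algebra K L]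
    [IsAlgClosed K] [CharZero K] {n w : ℕ} {A : Type} [Fintype A] [DecidableEq A] {d : A → ℕ}
    (hw : 0 < w) (C : Finset A) (hd : 2 * n + 2 ≤ ∑ a, d a + C.card + w)
    (F : A → MvPolynomial (Fin (n + 1)) K) (hF : ∀ a, (F a).IsHomogeneous (d a))
    (I0 : A → Fin (n + 1) →₀ ℕ) (h0 : ∀ a, (F a).coeff (I0 a) ≠ 0)
    (hind : AlgebraicIndependent k fun p : Rt d I0 =>
      (F p.1).coeff p.2.1 / (F p.1).coeff (I0 p.1)) (htr : Algebra.trdeg K L = w)
    {x : Fin (n + 1) → L} (hx0 : x ≠ 0) (halg : Algebra.IsAlgebraic (coords K x) L)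
    (hxC : ∀ c ∈ C, aeval x (F c) = 0) (hxb : ∀ b, b ∉ C → aeval x (F b) ≠ 0) :
    LogGeneralType K L w fun Q : Place K L =>
      ∃ b, b ∉ C ∧ d b * pord Q x < Q.ord (aeval x (F b)) := by
  classical
  have hfd : ∀ a, Finite {I : Fin (n + 1) →₀ ℕ // I.degree = d a} := fun a => finite_deg n (d a)
  have hft : ∀ a, Fintype {I : Fin (n + 1) →₀ ℕ // I.degree = d a} := fun a => Fintype.ofFinite _
  have hI0 : ∀ a, (I0 a).degree = d a := fun a => deg_of_mem (hF a) (mem_support_iff.2 (h0 a))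
  obtain ⟨c0, hc0⟩ := Function.ne_iff.1 hx0
  have h1 := Pool.Agent.TH145.GL.cyc_general (k0 := k) (K := K) (L := L) (n := n) (m := n) (w := w)
    (A := A) (dg := d) (∅ : Set (MvPolynomial (Fin (n + 1)) k)) (by simp) (dim_top k n)
    (J := fun a => {I : Fin (n + 1) →₀ ℕ // I.degree = d a})
    (fun _ I => monomial I.1 1) (fun _ I => isHomogeneous_monomial _ I.2)
    (fun a I => (F a).coeff I.1) (fun a => ⟨I0 a, hI0 a⟩) h0 (by
      have h2 := hind.comp (fun p : (Σ a : A, {j : {I : Fin (n + 1) →₀ ℕ // I.degree = d a} //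
        j ≠ ⟨I0 a, hI0 a⟩}) => (⟨p.1, p.2.1.1, p.2.1.2, fun h => p.2.2 (Subtype.ext h)⟩ :
          Rt d I0)) (by
          rintro ⟨a, ⟨⟨I, hI⟩, hI2⟩⟩ ⟨a', ⟨⟨I', hI'⟩, hI2'⟩⟩ h
          have e1 : a = a' := congrArg Sigma.fst h
          subst e1
          have e2 := eq_of_heq (Sigma.mk.inj_iff.1 h).2
          have e3 : I = I' := congrArg Subtype.val e2
          subst e3
          rfl)
      exact h2) c0 (fun _ I hI => ⟨⟨I, Pool.Agent.TH145.GD.deg_St hI⟩, rfl⟩)
    (F := F) (fun a => form_eq_sum (hF a)) C (fun _ => 0) (fun a ha => Or.inr rfl) hw (by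
      simp only [Nat.div_zero, Finset.sum_const_zero, add_zero]
      exact hd) htr x hc0 halg (by simp) hxC hxb (fun _ => 0) (fun a ha h => absurd rfl h)
  have h2 : (fun Q : Place K L => ∃ a, a ∉ C ∧ (0 : ℕ) = 0 ∧
      d a * pord Q x < Q.ord (aeval x (F a))) = fun Q : Place K L => ∃ b, b ∉ C ∧
      d b * pord Q x < Q.ord (aeval x (F b)) := by
    funext Q
    refine propext ⟨?_, ?_⟩
    · rintro ⟨a, ha, -, h⟩
      exact ⟨a, ha, h⟩
    · rintro ⟨a, ha, h⟩
      exact ⟨a, ha, rfl, h⟩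
  rwa [h2] at h1

end Pool.Agent.Y741
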