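import Pool.Agent.Y741.UDeg
import Pool.Agent.Y741.LogSub

/-!
Degrees of curves in generic pairs: assembly.
-/

set_option autoImplicit false

open MvPolynomial FF Pool.Agent.W603.LV Pool.Agent.W603.PV Pool.Agent.TH145.GH
open Pool.Agent.TH145.GC (Cf finite_cf)
open Pool.Agent.W602.GT Pool.Agent.TH145.MG
open LinearAlgebra.Projectivization

namespace Pool.Agent.Y741

/-- The vector `f` gives a morphism to the complement of `F b = 0`, `b ∉ C`, in `F c = 0`, `c ∈ C`,
from the smooth projective curve with function field `L`, without the points in `S`. -/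
def MapU {k A : Type} [Field k] {n : ℕ} (F : A → MvPolynomial (Fin (n + 1)) k) (d : A → ℕ)
    (C : Finset A) {L : Type} [Field L] [Algebra k L] (S : Finset (Place k L))
    (f : Fin (n + 1) → L) : Prop :=
  f ≠ 0 ∧ (∀ c ∈ C, aeval f (F c) = 0) ∧ ∀ b, b ∉ C → aeval f (F b) ≠ 0 ∧
    ∀ P ∉ S, P.ord (aeval f (F b)) = d b * pord P f

/-- There are no exceptional lines over extensions of the base field in large degree. -/
theorem no_exc_ext {k0 k Ω : Type} [Field k0] [Field k] [Field Ω] [Algebra k0 k] [Algebra k Ω]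
    [IsAlgClosed Ω] [CharZero Ω] {n : ℕ} {A : Type} [Fintype A] [DecidableEq A] {d : A → ℕ}
    (C : Finset A) (hd : 2 * n + 1 ≤ ∑ a, d a + C.card)
    {F : A → MvPolynomial (Fin (n + 1)) k} (hF : ∀ a, (F a).IsHomogeneous (d a))
    (hgen : AlgebraicIndependent k0 fun p : Cf n d => (F p.1).coeff p.2.1)
    (W : Submodule Ω (Fin (n + 1) → Ω)) (hW : IsLine (fun a => map (algebraMap k Ω) (F a)) C W) :
    ¬ (Pts W ∩ Bd (fun a => map (algebraMap k Ω) (F a)) C).encard ≤ 2 := by
  obtain ⟨I0, hI0⟩ : ∃ I0 : A → Fin (n + 1) →₀ ℕ, ∀ a, (I0 a).degree = d a :=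
    ⟨fun a => Finsupp.single 0 (d a), fun a => Finsupp.degree_single _ _⟩
  have h0 : ∀ a, (F a).coeff (I0 a) ≠ 0 := fun a => hgen.ne_zero ⟨a, ⟨I0 a, hI0 a⟩⟩
  let _ : Algebra k0 Ω := ((algebraMap k Ω).comp (algebraMap k0 k)).toAlgebra
  have hst : IsScalarTower k0 k Ω := IsScalarTower.of_algebraMap_eq fun _ => rfl
  obtain ⟨G, hG⟩ : ∃ G : A → MvPolynomial (Fin (n + 1)) Ω, ∀ a, G a = map (algebraMap k Ω) (F a) :=
    ⟨_, fun _ => rfl⟩
  have hGG : (fun a => map (algebraMap k Ω) (F a)) = G := funext fun a => (hG a).symm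
  rw [hGG] at hW ⊢
  have hgenΩ : AlgebraicIndependent k0 fun p : Cf n d => (G p.1).coeff p.2.1 := by
    have h3 := hgen.map' (f := IsScalarTower.toAlgHom k0 k Ω) (algebraMap k Ω).injective
    have h4 : (fun p : Cf n d => (G p.1).coeff p.2.1) =
        (IsScalarTower.toAlgHom k0 k Ω) ∘ fun p : Cf n d => (F p.1).coeff p.2.1 := by
      funext p
      rw [hG, coeff_map]
      rfl
    rw [h4]
    exact h3
  exact no_exc_line (k := k0) C hd G (fun a => by rw [hG]; exact (hF a).map _) I0 (fun a => by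
    rw [hG, coeff_map]; exact (_root_.map_ne_zero _).2 (h0 a)) (ratio_indep_fam hgenΩ I0 hI0) W hW

theorem generic_degrees {n : ℕ} (hn : 1 ≤ n) {A : Type} [Fintype A] [DecidableEq A] {d : A → ℕ}
    (hd0 : ∀ a, 0 < d a) (C : Finset A) (hC : C ≠ Finset.univ)
    (hd : 3 * n + 3 ≤ 2 * ∑ a, d a + C.card) :
    ∃ B : ℕ, ∀ (k0 k : Type) [Field k0] [Field k] [Algebra k0 k] [IsAlgClosed k] [CharZero k]
      (F : A → MvPolynomial (Fin (n + 1)) k), (∀ a, (F a).IsHomogeneous (d a)) →
      (AlgebraicIndependent k0 fun p : (a : A) × {I : Fin (n + 1) →₀ ℕ // I.degree = d a} =>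
        (F p.1).coeff p.2.1) →
      (∀ (L : Type) [Field L] [Algebra k L] [IsFF k L] (S : Finset (Place k L))
        (f : Fin (n + 1) → L), MapU F d C S f → pht k f ≤ B * max (canDeg k L + S.card) 0 ∨
          ∃ W, (IsLine (fun a => map (algebraMap k (AlgebraicClosure L)) (F a)) C W ∧
            (Pts W ∩ Bd (fun a => map (algebraMap k (AlgebraicClosure L)) (F a)) C).encard ≤ 2) ∧
            (fun j => algebraMap L (AlgebraicClosure L) (f j)) ∈ W) ∧
      (2 * n + 1 ≤ ∑ a, d a + C.card → ∀ (L : Type) [Field L] [Algebra k L] [IsFF k L]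
        (S : Finset (Place k L)) (f : Fin (n + 1) → L), MapU F d C S f →
          pht k f ≤ B * max (canDeg k L + S.card) 0) ∧
      ∀ (K : Type) [Field K] [Algebra k K] (w : ℕ) (y : Fin (n + 1) → K), 0 < w →
        2 * n + 2 ≤ ∑ a, d a + C.card + w → Algebra.trdeg k K = w → y ≠ 0 →
        Algebra.IsAlgebraic (coords k y) K → (∀ c ∈ C, aeval y (F c) = 0) →
        (∀ b, b ∉ C → aeval y (F b) ≠ 0) →
        (LogGeneralType k K w fun Q : Place k K =>
          ∃ b, b ∉ C ∧ d b * pord Q y < Q.ord (aeval y (F b))) ∧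
        ∃ (G : MvPolynomial (Fin (n + 1)) k) (e : ℕ), G.IsHomogeneous e ∧ aeval y G ≠ 0 ∧
          ∀ (L : Type) [Field L] [Algebra k L] [IsFF k L] (S : Finset (Place k L))
            (f : Fin (n + 1) → L), MapU F d C S f → aeval f G ≠ 0 →
              pht k f ≤ B * max (canDeg k L + S.card) 0 := by
  classical
  have hb : ∃ b, b ∉ C := by
    by_contra hcon
    push Not at hcon
    exact hC (Finset.eq_univ_iff_forall.2 hcon)
  obtain ⟨B, hB⟩ := deg_pairs n A d hn hd0 C hb hd
  refine ⟨B, ?_⟩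
  intro k0 k _ _ _ _ _ F hF hgen
  have hmapF : ∀ (L : Type) [Field L] [Algebra k L],
      (mapF (algebraMap L (AlgebraicClosure L)) fun a => map (algebraMap k L) (F a)) =
        fun a => map (algebraMap k (AlgebraicClosure L)) (F a) := by
    intro L _ _
    unfold mapF
    funext a
    rw [map_map, ← IsScalarTower.algebraMap_eq]
  have hevb : ∀ (L : Type) [Field L] [Algebra k L] (f : Fin (n + 1) → L) (a : A),
      eval (fun j => algebraMap L (AlgebraicClosure L) (f j))
        (map (algebraMap k (AlgebraicClosure L)) (F a)) =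
        algebraMap L (AlgebraicClosure L) (aeval f (F a)) := by
    intro L _ _ f a
    rw [eval_map, ← aeval_def]
    exact aeval_algebraMap_apply (AlgebraicClosure L) f (F a)
  have hall : ∀ (L : Type) [Field L] [Algebra k L] [IsFF k L] (S : Finset (Place k L))
      (f : Fin (n + 1) → L), MapU F d C S f →
      ¬ Exc 2 (fun a => map (algebraMap k (AlgebraicClosure L)) (F a)) C
        (fun j => algebraMap L (AlgebraicClosure L) (f j)) →
      pht k f ≤ B * max (canDeg k L + S.card) 0 := by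
    intro L _ _ _ S f hf hexc
    refine hB k0 k L (AlgebraicClosure L) F hF hgen S f hf.1 hf.2.1 (fun b hb => (hf.2.2 b hb).1)
      (fun b hb => (hf.2.2 b hb).2) ?_
    rw [hmapF]
    exact hexc
  have hne : ∀ (L : Type) [Field L] [Algebra k L] [IsFF k L] (S : Finset (Place k L))
      (f : Fin (n + 1) → L), MapU F d C S f → ∀ b, b ∉ C →
      eval (fun j => algebraMap L (AlgebraicClosure L) (f j))
        (map (algebraMap k (AlgebraicClosure L)) (F b)) ≠ 0 := by
    intro L _ _ _ S f hf b hb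
    rw [hevb]
    exact (_root_.map_ne_zero _).2 (hf.2.2 b hb).1
  obtain ⟨I0, hI0⟩ : ∃ I0 : A → Fin (n + 1) →₀ ℕ, ∀ a, (I0 a).degree = d a :=
    ⟨fun a => Finsupp.single 0 (d a), fun a => Finsupp.degree_single _ _⟩
  have hgen' : AlgebraicIndependent k0 fun p : Cf n d => (F p.1).coeff p.2.1 := hgen
  have h0 : ∀ a, (F a).coeff (I0 a) ≠ 0 := fun a => hgen'.ne_zero ⟨a, ⟨I0 a, hI0 a⟩⟩
  refine ⟨fun L _ _ _ S f hf => ?_, fun h2 L _ _ _ S f hf => ?_,
    fun K _ _ w y hw hdw htr hy halg hyC hyb => ⟨?_, ?_⟩⟩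
  · by_cases hexc : Exc 2 (fun a => map (algebraMap k (AlgebraicClosure L)) (F a)) C
        (fun j => algebraMap L (AlgebraicClosure L) (f j))
    · right
      obtain ⟨W, hW, hWB, hfW⟩ := exc_line (fun a => (hF a).map _) (hne L S f hf) hexc
      exact ⟨W, ⟨hW, hWB⟩, hfW⟩
    · exact Or.inl (hall L S f hf hexc)
  · refine hall L S f hf fun hexc => ?_
    have hczL : CharZero (AlgebraicClosure L) :=
      charZero_of_injective_algebraMap (algebraMap k (AlgebraicClosure L)).injective
    obtain ⟨W, hW, hWB, hfW⟩ := exc_line (fun a => (hF a).map _) (hne L S f hf) hexc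
    exact no_exc_ext C h2 hF hgen' W hW hWB
  · exact log_sub hw C hdw F hF I0 h0 (ratio_indep_fam hgen' I0 hI0) htr hy halg hyC hyb
  · obtain ⟨G, e, hG, hGy, hGx⟩ := exists_H_sub C hdw F hF hgen' hy halg htr
    refine ⟨G, e, hG, hGy, fun L _ _ _ S f hf hfG => hall L S f hf fun hexc => hfG ?_⟩
    have h1 := hGx (AlgebraicClosure L) (fun j => algebraMap L (AlgebraicClosure L) (f j)) (by
      intro h
      apply hf.1
      funext j
      exact (map_eq_zero _).1 (congrFun h j)) (hne L S f hf) hexc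
    have h2 : aeval (fun j => algebraMap L (AlgebraicClosure L) (f j)) G =
        algebraMap L (AlgebraicClosure L) (aeval f G) := aeval_algebraMap_apply (AlgebraicClosure L) f G
    rw [h2] at h1
    exact (map_eq_zero _).1 h1

end Pool.Agent.Y741
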