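import Pool.Agent.Y741.UVoj
import Pool.Agent.Y741.UFin
import Pool.Agent.Y741.KMain

/-!
Vojta's height inequality for generic pairs: assembly.
-/

set_option autoImplicit false

open MvPolynomial FF Pool.Agent.W603.LV Pool.Agent.W603.PV Pool.Agent.TH145.GH
open Pool.Agent.TH145.GC (Cf finite_cf)
open Pool.Agent.W602.GT Pool.Agent.TH145.MG
open LinearAlgebra.Projectivization

namespace Pool.Agent.Y741

/-- Independence over a larger field. -/
theorem indep_ext {k0 k Ω : Type} [Field k0] [Field k] [Field Ω] [Algebra k0 k] [Algebra k Ω]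
    {n : ℕ} {A : Type} {d : A → ℕ} {F : A → MvPolynomial (Fin (n + 1)) k}
    (hgen : AlgebraicIndependent k0 fun p : Cf n d => (F p.1).coeff p.2.1)
    {G : A → MvPolynomial (Fin (n + 1)) Ω} (hG : ∀ a, G a = map (algebraMap k Ω) (F a)) :
    let _ : Algebra k0 Ω := ((algebraMap k Ω).comp (algebraMap k0 k)).toAlgebra
    AlgebraicIndependent k0 fun p : Cf n d => (G p.1).coeff p.2.1 := by
  intro _
  have hst : IsScalarTower k0 k Ω := IsScalarTower.of_algebraMap_eq fun _ => rfl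
  have h3 := hgen.map' (f := IsScalarTower.toAlgHom k0 k Ω) (algebraMap k Ω).injective
  have h4 : (fun p : Cf n d => (G p.1).coeff p.2.1) =
      (IsScalarTower.toAlgHom k0 k Ω) ∘ fun p : Cf n d => (F p.1).coeff p.2.1 := by
    funext p
    rw [hG, coeff_map]
    rfl
  rw [h4]
  exact h3

/-- There are no lines over extensions of the base field in large degree. -/
theorem no_exc_ext' {k0 k Ω : Type} [Field k0] [Field k] [Field Ω] [Algebra k0 k] [Algebra k Ω]
    [IsAlgClosed Ω] [CharZero Ω] {n : ℕ} {A : Type} [Fintype A] [DecidableEq A] {d : A → ℕ}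
    (C : Finset A) (hd : 2 * n + 1 ≤ ∑ a, d a + C.card ∨
      (C = Finset.univ ∧ 2 * n ≤ ∑ a, d a + C.card + 1))
    {F : A → MvPolynomial (Fin (n + 1)) k} (hF : ∀ a, (F a).IsHomogeneous (d a))
    (hgen : AlgebraicIndependent k0 fun p : Cf n d => (F p.1).coeff p.2.1)
    (W : Submodule Ω (Fin (n + 1) → Ω)) (hW : IsLine (fun a => map (algebraMap k Ω) (F a)) C W) :
    ¬ (Pts W ∩ Bd (fun a => map (algebraMap k Ω) (F a)) C).encard ≤ 2 := by
  rcases hd with hd | ⟨hCu, hd⟩
  · exact no_exc_ext C hd hF hgen W hW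
  intro _
  subst hCu
  obtain ⟨I0, hI0⟩ : ∃ I0 : A → Fin (n + 1) →₀ ℕ, ∀ a, (I0 a).degree = d a :=
    ⟨fun a => Finsupp.single 0 (d a), fun a => Finsupp.degree_single _ _⟩
  have h0 : ∀ a, (F a).coeff (I0 a) ≠ 0 := fun a => hgen.ne_zero ⟨a, ⟨I0 a, hI0 a⟩⟩
  obtain ⟨G, hG⟩ : ∃ G : A → MvPolynomial (Fin (n + 1)) Ω, ∀ a, G a = map (algebraMap k Ω) (F a) :=
    ⟨_, fun _ => rfl⟩
  have hGG : (fun a => map (algebraMap k Ω) (F a)) = G := funext fun a => (hG a).symm
  rw [hGG] at hW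
  let _ : Algebra k0 Ω := ((algebraMap k Ω).comp (algebraMap k0 k)).toAlgebra
  have hgenΩ := indep_ext hgen hG
  have hGh : ∀ a, (G a).IsHomogeneous (d a) := fun a => by rw [hG]; exact (hF a).map _
  have hW' : LineIn G W := ⟨hW.1, fun a v hv => hW.2 a (Finset.mem_univ a) v hv⟩
  obtain ⟨x, hx, hx0⟩ : ∃ x ∈ W, x ≠ 0 := by
    have h1 : W ≠ ⊥ := by
      rintro rfl
      have := hW.1
      rw [finrank_bot] at this
      omega
    exact Submodule.exists_mem_ne_zero_of_ne_bot h1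
  obtain ⟨y, ik, hik, h1, -⟩ := exc_of_lineIn d hW' hx hx0
  exact no_line_K (k := k0) (by rw [Finset.card_univ] at hd; exact hd) G hGh I0 (fun a => by
    rw [hG, coeff_map]; exact (_root_.map_ne_zero _).2 (h0 a)) (ratio_indep_fam hgenΩ I0 hI0)
    (li_of_pl hik) fun c a b => h1 c (Finset.mem_univ c) a b

/-- Vojta's height inequality for generic pairs. -/
theorem generic_vojta {n : ℕ} (hn : 1 ≤ n) {A : Type} [Fintype A] [DecidableEq A] {d : A → ℕ}
    (hd0 : ∀ a, 0 < d a) (C : Finset A) (hd : 3 * n + 3 ≤ 2 * ∑ a, d a + C.card) :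
    ∃ c : ℕ, ∀ (k0 k F0 F : Type) [Field k0] [Field k] [Field F0] [Field F] [IsAlgClosed k]
      [CharZero k] [Algebra k0 k] [Algebra k F] [Algebra k0 F] [IsScalarTower k0 k F]
      [Algebra k0 F0] [Algebra F0 F] [IsScalarTower k0 F0 F] [IsFF k F],
      (∃ S : Finset F0, IntermediateField.adjoin k0 (S : Set F0) = ⊤) →
      ∀ (H : A → MvPolynomial (Fin (n + 1)) F), (∀ a, (H a).IsHomogeneous (d a)) →
      (AlgebraicIndependent F0 fun p : (a : A) × {I : Fin (n + 1) →₀ ℕ // I.degree = d a} =>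
        (H p.1).coeff p.2.1) →
      ∃ B : ℕ, ∀ (Ω : Type) [Field Ω] [Algebra F Ω] [IsAlgClosed Ω],
        (∀ (L : Type) [Field L] [Algebra k L] [Algebra F L] [IsScalarTower k F L]
          [FiniteDimensional F L] (φ : L →ₐ[F] Ω) (x : Fin (n + 1) → L), x ≠ 0 →
          (∀ c ∈ C, aeval x (H c) = 0) → (∀ b, b ∉ C → aeval x (H b) ≠ 0) →
          pht k x ≤ c * (canDeg k L +
            {P : Place k L | ∃ b, b ∉ C ∧ d b * pord P x < P.ord (aeval x (H b))}.ncard) +
              B * Module.finrank F L ∨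
          ∃ W, (IsLine (fun a => map (algebraMap F Ω) (H a)) C W ∧
            (Pts W ∩ Bd (fun a => map (algebraMap F Ω) (H a)) C).encard ≤ 2) ∧
            (fun j => φ (x j)) ∈ W) ∧
        ((2 * n + 1 ≤ ∑ a, d a + C.card ∨ (C = Finset.univ ∧ 2 * n ≤ ∑ a, d a + C.card + 1)) →
          ∀ W, ¬ (IsLine (fun a => map (algebraMap F Ω) (H a)) C W ∧
            (Pts W ∩ Bd (fun a => map (algebraMap F Ω) (H a)) C).encard ≤ 2)) ∧
        ∀ (K : Type) [Field K] [Algebra Ω K] (w : ℕ) (y : Fin (n + 1) → K), 0 < w →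
          2 * n + 2 ≤ ∑ a, d a + C.card + w → Algebra.trdeg Ω K = w → y ≠ 0 →
          Algebra.IsAlgebraic (coords Ω y) K →
          (∀ c ∈ C, aeval y (map (algebraMap F Ω) (H c)) = 0) →
          (∀ b, b ∉ C → aeval y (map (algebraMap F Ω) (H b)) ≠ 0) →
          (LogGeneralType Ω K w fun Q : Place Ω K => ∃ b, b ∉ C ∧
            d b * pord Q y < Q.ord (aeval y (map (algebraMap F Ω) (H b)))) ∧
          ∃ (G : MvPolynomial (Fin (n + 1)) Ω) (e : ℕ), G.IsHomogeneous e ∧ aeval y G ≠ 0 ∧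
            ∀ (L : Type) [Field L] [Algebra k L] [Algebra F L] [IsScalarTower k F L]
              [FiniteDimensional F L] (φ : L →ₐ[F] Ω) (x : Fin (n + 1) → L), x ≠ 0 →
              (∀ c ∈ C, aeval x (H c) = 0) → (∀ b, b ∉ C → aeval x (H b) ≠ 0) →
              eval (fun j => φ (x j)) G ≠ 0 →
              pht k x ≤ c * (canDeg k L +
                {P : Place k L | ∃ b, b ∉ C ∧ d b * pord P x < P.ord (aeval x (H b))}.ncard) +
                  B * Module.finrank F L := by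
  classical
  obtain ⟨c, hc⟩ := vojta_pairs n A d hn hd0 C hd
  refine ⟨c, ?_⟩
  intro k0 k F0 F _ _ _ _ _ _ _ _ _ _ _ _ _ _ hfg H hH hgen
  have hgen' : AlgebraicIndependent F0 fun p : Cf n d => (H p.1).coeff p.2.1 := hgen
  obtain ⟨B, hB⟩ := hc k0 k F0 F hfg H hH hgen'
  refine ⟨B, ?_⟩
  intro Ω _ _ _
  have hczF : CharZero F := charZero_of_injective_algebraMap (algebraMap k F).injective
  have hczΩ : CharZero Ω := charZero_of_injective_algebraMap (algebraMap F Ω).injective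
  obtain ⟨G, hG⟩ : ∃ G : A → MvPolynomial (Fin (n + 1)) Ω, ∀ a, G a = map (algebraMap F Ω) (H a) :=
    ⟨_, fun _ => rfl⟩
  have hGG : (fun a => map (algebraMap F Ω) (H a)) = G := funext fun a => (hG a).symm
  have hGh : ∀ a, (G a).IsHomogeneous (d a) := fun a => by rw [hG]; exact (hH a).map _
  have hev : ∀ (L : Type) [Field L] [Algebra F L] (φ : L →ₐ[F] Ω) (x : Fin (n + 1) → L) (a : A),
      eval (fun j => φ (x j)) (G a) = φ (aeval x (H a)) := by
    intro L _ _ φ x a
    rw [hG, eval_map, ← aeval_def]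
    have h1 : aeval (fun j => φ (x j)) (H a) = (φ.comp (aeval x)) (H a) := by
      congr 1
      apply MvPolynomial.algHom_ext
      intro l
      rw [aeval_X, AlgHom.comp_apply, aeval_X]
    rw [h1]
    rfl
  have hall : ∀ (L : Type) [Field L] [Algebra k L] [Algebra F L] [IsScalarTower k F L]
      [FiniteDimensional F L] (φ : L →ₐ[F] Ω) (x : Fin (n + 1) → L), x ≠ 0 →
      (∀ c ∈ C, aeval x (H c) = 0) → (∀ b, b ∉ C → aeval x (H b) ≠ 0) →
      ¬ Exc 2 G C (fun j => φ (x j)) →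
      pht k x ≤ c * (canDeg k L +
        {P : Place k L | ∃ b, b ∉ C ∧ d b * pord P x < P.ord (aeval x (H b))}.ncard) +
          B * Module.finrank F L := by
    intro L _ _ _ _ _ φ x hx hxC hxb hexc
    let _ : Algebra L Ω := φ.toRingHom.toAlgebra
    refine hB L Ω x hx hxC hxb ?_
    have h1 : (mapF (algebraMap L Ω) fun a => map (algebraMap F L) (H a)) = G := by
      unfold mapF
      funext a
      rw [map_map, hG, show (algebraMap L Ω).comp (algebraMap F L) = algebraMap F Ω from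
        φ.comp_algebraMap]
    rw [h1]
    exact hexc
  have hne : ∀ (L : Type) [Field L] [Algebra F L] (φ : L →ₐ[F] Ω) (x : Fin (n + 1) → L),
      (∀ b, b ∉ C → aeval x (H b) ≠ 0) → ∀ b, b ∉ C → eval (fun j => φ (x j)) (G b) ≠ 0 := by
    intro L _ _ φ x hxb b hb
    rw [hev]
    exact (_root_.map_ne_zero φ).2 (hxb b hb)
  let _ : Algebra F0 Ω := ((algebraMap F Ω).comp (algebraMap F0 F)).toAlgebra
  have hgenΩ : AlgebraicIndependent F0 fun p : Cf n d => (G p.1).coeff p.2.1 := indep_ext hgen' hG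
  obtain ⟨I0, hI0⟩ : ∃ I0 : A → Fin (n + 1) →₀ ℕ, ∀ a, (I0 a).degree = d a :=
    ⟨fun a => Finsupp.single 0 (d a), fun a => Finsupp.degree_single _ _⟩
  have h0 : ∀ a, (G a).coeff (I0 a) ≠ 0 := fun a => hgenΩ.ne_zero ⟨a, ⟨I0 a, hI0 a⟩⟩
  refine ⟨fun L _ _ _ _ _ φ x hx hxC hxb => ?_, fun h2 W hW => ?_,
    fun K _ _ w y hw hdw htr hy halg hyC hyb => ⟨?_, ?_⟩⟩
  · rw [hGG]
    by_cases hexc : Exc 2 G C (fun j => φ (x j))
    · right
      obtain ⟨W, hW, hWB, hfW⟩ := exc_line hGh (hne L φ x hxb) hexc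
      exact ⟨W, ⟨hW, hWB⟩, hfW⟩
    · exact Or.inl (hall L φ x hx hxC hxb hexc)
  · exact no_exc_ext' C h2 hH hgen' W hW.1 hW.2
  · have h1 := log_sub (k := F0) hw C hdw G hGh I0 h0 (ratio_indep_fam hgenΩ I0 hI0) htr hy halg
      (fun c hc => by rw [hG]; exact hyC c hc) (fun b hb => by rw [hG]; exact hyb b hb)
    have h2 : (fun Q : Place Ω K => ∃ b, b ∉ C ∧
        d b * pord Q y < Q.ord (aeval y (G b))) = fun Q : Place Ω K => ∃ b, b ∉ C ∧
        d b * pord Q y < Q.ord (aeval y (map (algebraMap F Ω) (H b))) := by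
      funext Q
      simp only [hG]
    rwa [h2] at h1
  · obtain ⟨G1, e, hG1, hGy, hGx⟩ := exists_H_sub (k0 := F0) C hdw G hGh hgenΩ hy halg htr
    refine ⟨G1, e, hG1, hGy, fun L _ _ _ _ _ φ x hx hxC hxb hxG =>
      hall L φ x hx hxC hxb fun hexc => hxG ?_⟩
    have hmapid : mapF (algebraMap Ω Ω) G = G := by
      unfold mapF
      funext a
      exact map_id _
    have h1 := hGx Ω (fun j => φ (x j)) (by
      intro h
      apply hx
      funext j
      exact (map_eq_zero φ).1 (congrFun h j)) (by rw [hmapid]; exact hne L φ x hxb)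
        (by rw [hmapid]; exact hexc)
    rw [aeval_eq_eval] at h1
    exact h1

end Pool.Agent.Y741
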