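import Pool.Agent.Y735.Alt

/-!
Orders of the values of alternating maps at rows that satisfy a condition.
-/

set_option autoImplicit false

open Module Submodule FF Pool.Agent.W603.LV Pool.Agent.Y735

namespace Pool.Agent.Y741

variable {k K J ι : Type*} [Field k] [Field K] [Algebra k K] [DecidableEq ι]

/-- The order of the value of an alternating map at rows that come in pairs. -/
theorem ge_pairs' (P : Place k K) {N : ℤ} (Pr : (J → K) → Prop) (f : (J → K) [⋀^ι]→ₗ[K] K)
    (hf : ∀ R : ι → J → K, (∀ k, Pr (R k)) → Ge P N (f R)) {B : Type*} [DecidableEq B]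
    (α β : B → ι) (hα : Function.Injective α) (hβ : Function.Injective β)
    (hαβ : ∀ b b', α b ≠ β b') {x0 : K} (x1 x2 : B → K) {m : ℤ} (hm0 : Ge P m x0)
    (hm1 : ∀ b, Ge P m (x1 b)) (hm2 : ∀ b, Ge P m (x2 b)) (e1 e2 e3 : B → J → K)
    (he1 : ∀ b, Pr (e1 b)) (he2 : ∀ b, Pr (e2 b)) (he3 : ∀ b, Pr (e3 b))
    (t : Finset B) : ∀ R : ι → J → K,
      (∀ b ∈ t, R (α b) = x0 • e2 b - x1 b • e1 b ∧ R (β b) = x0 • e3 b - x2 b • e1 b) →
      (∀ k, (∀ b ∈ t, k ≠ α b ∧ k ≠ β b) → Pr (R k)) →
      Ge P (t.card * (P.ord x0 + m) + N) (f R) := by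
  classical
  induction t using Finset.induction_on with
  | empty =>
    intro R _ h2
    rw [Finset.card_empty, Nat.cast_zero, zero_mul, zero_add]
    exact hf R fun k => h2 k (by simp)
  | insert b t hb ih =>
    intro R h1 h2
    obtain ⟨hRα, hRβ⟩ := h1 b (Finset.mem_insert_self _ _)
    have hR : R = Function.update (Function.update R (α b) (x0 • e2 b - x1 b • e1 b)) (β b)
        (x0 • e3 b - x2 b • e1 b) := by
      rw [← hRα, ← hRβ, Function.update_eq_self, Function.update_eq_self]
    have key : ∀ v w : J → K, Pr v → Pr w →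
        Ge P (t.card * (P.ord x0 + m) + N)
          (f (Function.update (Function.update R (α b) v) (β b) w)) := by
      intro v w hv hw
      refine ih _ ?_ ?_
      · intro b' hb'
        have hne : b' ≠ b := fun h => hb (h ▸ hb')
        rw [Function.update_of_ne (hαβ b' b), Function.update_of_ne (fun h => hne (hα h)),
          Function.update_of_ne (fun h => hne (hβ h)), Function.update_of_ne (hαβ b b').symm]
        exact h1 b' (Finset.mem_insert_of_mem hb')
      · intro k hk
        by_cases hkβ : k = β b
        · rw [hkβ, Function.update_self]; exact hw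
        rw [Function.update_of_ne hkβ]
        by_cases hkα : k = α b
        · rw [hkα, Function.update_self]; exact hv
        rw [Function.update_of_ne hkα]
        refine h2 k (fun b' hb' => ?_)
        rcases Finset.mem_insert.1 hb' with rfl | hb'
        · exact ⟨hkα, hkβ⟩
        · exact hk b' hb'
    rw [hR, alt_pair f R (hαβ b b)]
    have h3 : Ge P (P.ord x0) x0 := Or.inr le_rfl
    have h4 := h3.mul (((hm0.mul (key _ _ (he2 b) (he3 b))).sub
      ((hm1 b).mul (key _ _ (he1 b) (he3 b)))).add ((hm2 b).mul (key _ _ (he1 b) (he2 b))))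
    refine h4.mono ?_
    rw [Finset.card_insert_of_notMem hb]
    push_cast
    linarith

end Pool.Agent.Y741
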