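import Pool.Agent.Y741.Tri

/-!
Extension of the field.
-/

set_option autoImplicit false

open MvPolynomial FF Pool.Agent.W603.LV Pool.Agent.W603.PV Pool.Agent.TH145.GH
open Pool.Agent.Y735 (lf lf_apply pm tm pl DD DD_apply span_tm sum_tm)

namespace Pool.Agent.Y741

section desc

variable {L Ω : Type} [Field L] [Field Ω] (ψ : L →+* Ω) {N : ℕ}

theorem span_asc {R : Set (Fin N → L)} {v : Fin N → L} (h : v ∈ Submodule.span L R) :
    (fun j => ψ (v j)) ∈ Submodule.span Ω ((fun (v : Fin N → L) j => ψ (v j)) '' R) := by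
  induction h using Submodule.span_induction with
  | mem x hx => exact Submodule.subset_span ⟨x, hx, rfl⟩
  | zero =>
    have h1 : (fun j => ψ ((0 : Fin N → L) j)) = 0 := by
      funext j
      rw [Pi.zero_apply, map_zero, Pi.zero_apply]
    rw [h1]
    exact zero_mem _
  | add x y _ _ hx hy =>
    have h1 : (fun j => ψ ((x + y) j)) = (fun j => ψ (x j)) + fun j => ψ (y j) := by
      funext j
      rw [Pi.add_apply, map_add, Pi.add_apply]
    rw [h1]
    exact add_mem hx hy
  | smul r x _ hx =>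
    have h1 : (fun j => ψ ((r • x) j)) = ψ r • fun j => ψ (x j) := by
      funext j
      rw [Pi.smul_apply, Pi.smul_apply, smul_eq_mul, smul_eq_mul, map_mul]
    rw [h1]
    exact Submodule.smul_mem _ _ hx

/-- The extension of a linear form. -/
theorem exists_form (f : (Fin N → L) →ₗ[L] L) : ∃ g : (Fin N → Ω) →ₗ[Ω] Ω,
    ∀ z : Fin N → L, g (fun j => ψ (z j)) = ψ (f z) := by
  refine ⟨∑ j, ψ (f (Pi.single j 1)) • LinearMap.proj (R := Ω) (φ := fun _ : Fin N => Ω) j,
    fun z => ?_⟩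
  have h1 : z = ∑ i, z i • (Pi.single i 1 : Fin N → L) := by
    funext j
    rw [Finset.sum_apply, Finset.sum_eq_single j]
    · rw [Pi.smul_apply, Pi.single_eq_same, smul_eq_mul, mul_one]
    · intro i _ hi
      rw [Pi.smul_apply, Pi.single_eq_of_ne hi.symm, smul_zero]
    · intro h; exact absurd (Finset.mem_univ j) h
  conv_rhs => rw [h1, map_sum, map_sum]
  rw [LinearMap.coe_sum, Finset.sum_apply]
  refine Finset.sum_congr rfl fun j _ => ?_
  rw [LinearMap.smul_apply, LinearMap.proj_apply, map_smul, smul_eq_mul, smul_eq_mul, map_mul,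
    mul_comm]

theorem span_desc {R : Set (Fin N → L)} {v : Fin N → L}
    (h : (fun j => ψ (v j)) ∈ Submodule.span Ω ((fun (v : Fin N → L) j => ψ (v j)) '' R)) :
    v ∈ Submodule.span L R := by
  by_contra hv
  obtain ⟨f, hf0, hf⟩ := Submodule.exists_dual_map_eq_bot_of_notMem hv inferInstance
  obtain ⟨g, hg⟩ := exists_form ψ f
  have h1 : Submodule.span Ω ((fun (v : Fin N → L) j => ψ (v j)) '' R) ≤ LinearMap.ker g := by
    rw [Submodule.span_le]
    rintro _ ⟨z, hz, rfl⟩
    have h2 : f z ∈ (Submodule.span L R).map f :=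
      Submodule.mem_map_of_mem (Submodule.subset_span hz)
    rw [hf, Submodule.mem_bot] at h2
    rw [SetLike.mem_coe, LinearMap.mem_ker, hg, h2, map_zero]
  have h2 := h1 h
  rw [LinearMap.mem_ker, hg, map_eq_zero] at h2
  exact hf0 h2

theorem li_asc {ι : Type} [Finite ι] {r : ι → Fin N → L} (h : LinearIndependent L r) :
    LinearIndependent Ω fun i j => ψ (r i j) := by
  classical
  have := Fintype.ofFinite ι
  rw [Fintype.linearIndependent_iff]
  intro c hc i
  -- a dual form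
  have h1 : r i ∉ Submodule.span L (r '' {j | j ≠ i}) := by
    have := h.notMem_span_image (s := {j | j ≠ i}) (x := i) (by simp)
    exact this
  obtain ⟨f, hf0, hf⟩ := Submodule.exists_dual_map_eq_bot_of_notMem h1 inferInstance
  obtain ⟨g, hg⟩ := exists_form ψ f
  have h2 : ∀ j, j ≠ i → f (r j) = 0 := by
    intro j hj
    have h2 : f (r j) ∈ (Submodule.span L (r '' {j | j ≠ i})).map f :=
      Submodule.mem_map_of_mem (Submodule.subset_span ⟨j, hj, rfl⟩)
    rwa [hf, Submodule.mem_bot] at h2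
  have h3 := congrArg g hc
  rw [map_sum, map_zero, Finset.sum_eq_single i] at h3
  · rw [map_smul, hg, smul_eq_mul] at h3
    exact (mul_eq_zero.1 h3).resolve_right (by rw [map_eq_zero]; exact hf0)
  · intro j _ hj
    rw [map_smul, hg, h2 j hj, map_zero, smul_zero]
  · intro h; exact absurd (Finset.mem_univ i) h

end desc

variable {L Ω : Type} [Field L] [Field Ω] {n : ℕ} {A W B U T : Type}

/-- The family over the extension. -/
noncomputable def mapF (ψ : L →+* Ω) (F : Fam L n A) : Fam Ω n A := fun a => map ψ (F a)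

theorem mapF_nf (ψ : L →+* Ω) (Q : A → MvPolynomial (Fin (n + 1)) ℕ) :
    mapF ψ (nf L Q) = nf Ω Q := by
  funext a
  unfold mapF nf
  rw [map_map]
  have h1 : ψ.comp (Nat.castRingHom L) = Nat.castRingHom Ω := Subsingleton.elim _ _
  rw [h1]

/-- Compatible derivations. -/
def Cmp (ψ : L →+* Ω) (D : A → (Fin (n + 1) →₀ ℕ) → Derivation ℤ L L)
    (D' : A → (Fin (n + 1) →₀ ℕ) → Derivation ℤ Ω Ω) : Prop :=
  ∀ a I z, D' a I (ψ z) = ψ (D a I z)

theorem pl_map (ψ : L →+* Ω) (x y : Fin (n + 1) → L) :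
    pl (fun j => ψ (x j)) (fun j => ψ (y j)) = fun q => ψ (pl x y q) := by
  funext q
  simp only [pl, map_sub, map_mul]

theorem pm_map (ψ : L →+* Ω) (x : Fin (n + 1) → L) (i j : Fin (n + 1)) :
    pm (fun j => ψ (x j)) i j = fun l => ψ (pm x i j l) := by
  funext l
  simp only [pm, map_sub]
  split_ifs <;> simp

theorem tm_map (ψ : L →+* Ω) (p : Fin (n + 1) × Fin (n + 1) → L)
    (t : Fin (n + 1) × Fin (n + 1) × Fin (n + 1)) :
    tm (fun q => ψ (p q)) t = fun l => ψ (tm p t l) := by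
  funext l
  simp only [tm, map_sub, map_add]
  split_ifs <;> simp

theorem lf_map (ψ : L →+* Ω) (m : Fin (n + 1) → L) :
    lf (fun j => ψ (m j)) = map ψ (lf m) := by
  rw [lf_apply, lf_apply, map_sum]
  refine Finset.sum_congr rfl fun i _ => ?_
  rw [smul_eq_C_mul, smul_eq_C_mul, map_mul, map_C, map_X]

theorem dF_map (ψ : L →+* Ω) (G : MvPolynomial (Fin (n + 1)) L) (x z : Fin (n + 1) → L) :
    dF (map ψ G) (fun j => ψ (x j)) (fun j => ψ (z j)) = ψ (dF G x z) := by
  unfold dF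
  rw [map_sum]
  refine Finset.sum_congr rfl fun l _ => ?_
  rw [map_mul, pderiv_map]
  congr 1
  rw [eval_map]
  have h5 := eval₂_comp_left ψ (RingHom.id L) x (pderiv l G)
  rw [RingHom.comp_id] at h5
  exact h5.symm

theorem eval_mapF (ψ : L →+* Ω) (G : MvPolynomial (Fin (n + 1)) L) (x : Fin (n + 1) → L) :
    eval (fun j => ψ (x j)) (map ψ G) = ψ (eval x G) := by
  rw [eval_map]
  have h5 := eval₂_comp_left ψ (RingHom.id L) x G
  rw [RingHom.comp_id] at h5
  exact h5.symm

theorem ql_map (ψ : L →+* Ω) (Q : Fam L n A) (m : Fin (n + 1) → L) :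
    ql (mapF ψ Q) (fun j => ψ (m j)) = mapF ψ (ql Q m) := by
  funext a
  rw [ql_apply, lf_map]
  unfold mapF
  rw [ql_apply, map_mul]

section

variable [Fintype A] {ψ : L →+* Ω} {D : A → (Fin (n + 1) →₀ ℕ) → Derivation ℤ L L}
    {D' : A → (Fin (n + 1) →₀ ℕ) → Derivation ℤ Ω Ω} (hc : Cmp ψ D D')

include hc

theorem DA_map (G : Fam L n A) (f : L) : DA D' (mapF ψ G) (ψ f) = ψ (DA D G f) := by
  rw [DA_apply, DA_apply, map_sum]
  refine Finset.sum_congr rfl fun a _ => ?_
  rw [DD_apply, DD_apply, map_sum]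
  unfold mapF
  rw [support_map_of_injective _ ψ.injective]
  refine Finset.sum_congr rfl fun J _ => ?_
  rw [coeff_map, map_mul, hc]

theorem vA_map (x : Fin (n + 1) → L) (G : Fam L n A) :
    vA D' (fun j => ψ (x j)) (mapF ψ G) = fun j => ψ (vA D x G j) := by
  funext j
  rw [vA_apply, vA_apply]
  exact DA_map hc G _

theorem vq_map (x : Fin (n + 1) → L) (Q : Fam L n A) (m : Fin (n + 1) → L) :
    vq D' (fun j => ψ (x j)) (mapF ψ Q) (fun j => ψ (m j)) = fun j => ψ (vq D x Q m j) := by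
  rw [vq_apply, ql_map, vA_map hc, vq_apply]

variable [DecidableEq A]

omit [Fintype A] hc in
theorem gf_map (ψ : L →+* Ω) (F : Fam L n A) (w : (Fin (n + 1) × Fin (n + 1)) ⊕ A) :
    gf (mapF ψ F) w = mapF ψ (gf F w) := by
  rcases w with pq | a
  · funext a
    simp only [gf, mapF]
    rw [map_mul, map_X, pderiv_map]
  · funext b
    simp only [gf, mapF]
    by_cases hb : b = a
    · subst hb
      rw [Pi.single_eq_same, Pi.single_eq_same]
    · rw [Pi.single_eq_of_ne hb, Pi.single_eq_of_ne hb, map_zero]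

theorem ww_map (F : Fam L n A) (x : Fin (n + 1) → L) (w : (Fin (n + 1) × Fin (n + 1)) ⊕ A) :
    ww (mapF ψ F) D' (fun j => ψ (x j)) w = fun j => ψ (ww F D x w j) := by
  rcases w with pq | a
  · simp only [ww]
    rw [gf_map, vA_map hc]
    funext j
    simp only [Pi.add_apply, Pi.smul_apply, smul_eq_mul, map_add, map_mul]
    congr 2
    by_cases hj : j = pq.1
    · subst hj
      rw [Pi.single_eq_same, Pi.single_eq_same, map_one]
    · rw [Pi.single_eq_of_ne hj, Pi.single_eq_of_ne hj, map_zero]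
  · simp only [ww]
    rw [gf_map, vA_map hc]

theorem row1_map (F : Fam L n A) (dg : A → ℕ) (C : Finset A) (x y : Fin (n + 1) → L)
    (i0 : Fin (n + 1)) (ik : Fin (n + 1) × Fin (n + 1)) (rn : RN n A W B U T)
    (κ : Option (W ⊕ (B ⊕ B) ⊕ (U ⊕ T))) :
    row1 (mapF ψ F) dg D' C (fun j => ψ (x j)) (fun j => ψ (y j)) i0 ik (rn.rd Ω) κ =
      fun j => ψ (row1 F dg D C x y i0 ik (rn.rd L) κ j) := by
  rcases κ with _ | a | (b | b) | u | t
  · rfl
  · exact ww_map hc F x _
  · change vq D' _ (nf Ω (rn.PB b)) (pm _ i0 (rn.jb b)) =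
      fun j => ψ (vq D x (nf L (rn.PB b)) (pm x i0 (rn.jb b)) j)
    rw [pm_map, ← mapF_nf ψ, vq_map hc]
  · change vq D' _ (nf Ω (rn.PB b)) (pm _ i0 (rn.lb b)) =
      fun j => ψ (vq D x (nf L (rn.PB b)) (pm x i0 (rn.lb b)) j)
    rw [pm_map, ← mapF_nf ψ, vq_map hc]
  · change vq D' _ (nf Ω (rn.PU u)) (tm (pl _ _) (rn.tu u)) =
      fun j => ψ (vq D x (nf L (rn.PU u)) (tm (pl x y) (rn.tu u)) j)
    rw [pl_map, tm_map, ← mapF_nf ψ, vq_map hc]
  · change vq D' _ (nf Ω (rn.PT t)) ((pl _ _ ik)⁻¹ • pm _ ik.1 ik.2) =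
      fun j => ψ (vq D x (nf L (rn.PT t)) ((pl x y ik)⁻¹ • pm x ik.1 ik.2) j)
    rw [pl_map, pm_map, ← mapF_nf ψ, ← vq_map hc]
    congr 1
    funext j
    rw [Pi.smul_apply, Pi.smul_apply, smul_eq_mul, smul_eq_mul, map_mul, map_inv₀]

theorem image_row1 (F : Fam L n A) (dg : A → ℕ) (C : Finset A) (x y : Fin (n + 1) → L)
    (i0 : Fin (n + 1)) (ik : Fin (n + 1) × Fin (n + 1)) (rn : RN n A W B U T)
    (s : Set (Option (W ⊕ (B ⊕ B) ⊕ (U ⊕ T)))) :
    row1 (mapF ψ F) dg D' C (fun j => ψ (x j)) (fun j => ψ (y j)) i0 ik (rn.rd Ω) '' s =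
      (fun (v : Fin (n + 1) → L) j => ψ (v j)) '' (row1 F dg D C x y i0 ik (rn.rd L) '' s) := by
  rw [Set.image_image]
  refine Set.image_congr fun κ _ => ?_
  exact row1_map hc F dg C x y i0 ik rn κ

omit [Fintype A] [DecidableEq A] hc in
theorem TC_map (ψ : L →+* Ω) (F : Fam L n A) (C : Finset A) (x z : Fin (n + 1) → L) :
    (fun j => ψ (z j)) ∈ TC (mapF ψ F) C (fun j => ψ (x j)) ↔ z ∈ TC F C x := by
  rw [mem_TC, mem_TC]
  refine forall_congr' fun c => forall_congr' fun _ => ?_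
  unfold mapF
  rw [dF_map, map_eq_zero]

variable [Fintype W] [Fintype B] [Fintype U] [Fintype T]

/-- Descent of the valid choices. -/
theorem VRD.down {F : Fam L n A} {dg : A → ℕ} {C : Finset A} {x y : Fin (n + 1) → L}
    {i0 : Fin (n + 1)} {ik : Fin (n + 1) × Fin (n + 1)} {rn : RN n A W B U T}
    (h : VRD (mapF ψ F) dg D' C (fun j => ψ (x j)) (fun j => ψ (y j)) i0 ik rn) :
    VRD F dg D C x y i0 ik rn := by
  refine ⟨h.PB, h.PU, h.PT, fun t m hx hy => ?_, h.card, fun z hz => ?_⟩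
  · have h1 := h.hT t (fun j => ψ (m j)) (by
      rw [← map_zero ψ, ← hx, map_sum]
      exact Finset.sum_congr rfl fun l _ => (map_mul ψ _ _).symm) (by
      rw [← map_zero ψ, ← hy, map_sum]
      exact Finset.sum_congr rfl fun l _ => (map_mul ψ _ _).symm)
    rw [← mapF_nf ψ, vq_map hc, image_row1 hc] at h1
    exact span_desc ψ h1
  · have h1 := h.span ((TC_map ψ F C x z).2 hz)
    rw [← Set.image_univ, image_row1 hc, Set.image_univ] at h1
    exact span_desc ψ h1

/-- Ascent of the valid choices. -/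
theorem VRD.up {F : Fam L n A} {dg : A → ℕ} {C : Finset A} {x y : Fin (n + 1) → L}
    (hF : ∀ a, (F a).IsHomogeneous (dg a)) (hD : TH145.GC.Dual F dg D)
    (hD' : TH145.GC.Dual (mapF ψ F) dg D')
    (hxC : ∀ c ∈ C, eval x (F c) = 0) (hx0 : x ≠ 0)
    {i0 : Fin (n + 1)} {ik : Fin (n + 1) × Fin (n + 1)} (hik : pl x y ik ≠ 0)
    {rn : RN n A W B U T} (h : VRD F dg D C x y i0 ik rn) :
    VRD (mapF ψ F) dg D' C (fun j => ψ (x j)) (fun j => ψ (y j)) i0 ik rn := by
  have hik' : pl (fun j => ψ (x j)) (fun j => ψ (y j)) ik ≠ 0 := by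
    rw [pl_map]
    dsimp only
    rwa [Ne, map_eq_zero]
  refine ⟨h.PB, h.PU, h.PT, fun t m hx hy => ?_, h.card, ?_⟩
  · rw [span_tm hik' hx hy, map_sum]
    refine sum_mem fun c _ => ?_
    rw [map_smul]
    refine Submodule.smul_mem _ _ ?_
    rw [pl_map, tm_map, ← mapF_nf ψ, vq_map hc, image_row1 hc]
    exact span_asc ψ (h.hT t _ (sum_tm x y _).1 (sum_tm x y _).2)
  · have h1 := TC_finrank hF hD hxC hx0
    have hx0' : (fun j => ψ (x j)) ≠ 0 := by
      intro h0
      apply hx0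
      funext j
      exact ψ.injective (by rw [Pi.zero_apply, map_zero]; exact congrFun h0 j)
    have h2 := TC_finrank (F := mapF ψ F) (fun a => (hF a).map ψ) hD'
      (C := C) (x := fun j => ψ (x j)) (fun c hcC => by
        unfold mapF
        rw [eval_mapF, hxC c hcC, map_zero]) hx0'
    have hcard : Fintype.card (Option (W ⊕ (B ⊕ B) ⊕ (U ⊕ T))) =
        Module.finrank L (TC F C x) := by
      have h3 := h.card
      simp only [Fintype.card_option, Fintype.card_sum]
      omega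
    have h3 := Submodule.finrank_mono h.span
    have h4 : Module.finrank L (Submodule.span L (Set.range (row1 F dg D C x y i0 ik (rn.rd L)))) =
        Fintype.card (Option (W ⊕ (B ⊕ B) ⊕ (U ⊕ T))) :=
      le_antisymm (finrank_range_le_card _) (by omega)
    have hli : LinearIndependent L (row1 F dg D C x y i0 ik (rn.rd L)) :=
      linearIndependent_iff_card_eq_finrank_span.2 h4.symm
    have hTC : TC F C x = Submodule.span L (Set.range (row1 F dg D C x y i0 ik (rn.rd L))) :=
      Submodule.eq_of_le_of_finrank_eq h.span (by omega)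
    have hli' := li_asc ψ hli
    have h5 : (fun (i : Option (W ⊕ (B ⊕ B) ⊕ (U ⊕ T))) j =>
        ψ (row1 F dg D C x y i0 ik (rn.rd L) i j)) =
        row1 (mapF ψ F) dg D' C (fun j => ψ (x j)) (fun j => ψ (y j)) i0 ik (rn.rd Ω) := by
      funext κ
      exact (row1_map hc F dg C x y i0 ik rn κ).symm
    rw [h5] at hli'
    refine (Submodule.eq_of_le_of_finrank_eq ?_ ?_).ge
    · rw [Submodule.span_le]
      rintro _ ⟨κ, rfl⟩
      rw [row1_map hc]
      refine (TC_map ψ F C x _).2 ?_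
      rw [hTC]
      exact Submodule.subset_span ⟨κ, rfl⟩
    · rw [finrank_span_eq_card hli']
      omega

end

end Pool.Agent.Y741
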