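import Pool.Agent.Y741.Integ
import Pool.Agent.Y735.LineHt

/-!
The combination of the cases.
-/

set_option autoImplicit false

open MvPolynomial FF Pool.Agent.W603.LV Pool.Agent.W603.PV Pool.Agent.TH145.GH
open Pool.Agent.Y735 (lf dt pl rho eval_rho mem_Mx exists_ms_mt po exists_scaled' zp zp_pl
  exists_xi ge_eval_sub line_basis fht sum_two fht_nonneg fht_fin Good exists_pl zp_smul)

namespace Pool.Agent.Y741

variable {k K : Type} [Field k] [Field K] [Algebra k K] {n : ℕ} {A : Type}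

/-- The local inequality for the points of a line. -/
theorem line_local {d : ℕ} {F : MvPolynomial (Fin (n + 1)) K} (hF : F.IsHomogeneous d)
    {x y : Fin (n + 1) → K} (hxF : eval x F = 0)
    {ik : Fin (n + 1) × Fin (n + 1)} (hik : pl x y ik ≠ 0) {ξ : Fin (n + 1) → k}
    (hξ : eval (zp (pl x y) fun i => algebraMap k K (ξ i)) F ≠ 0) (P : Place k K) {g : ℤ}
    (hc : ∀ u, Ge P (-g) (F.coeff u)) :
    (-1) * pord P x + d * po P (pl x y) + 1 * P.ord (∑ i, algebraMap k K (ξ i) * x i) - g ≤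
      P.ord (eval (zp (pl x y) fun i => algebraMap k K (ξ i)) F) := by
  classical
  have hx0 : x ≠ 0 := by
    rintro rfl
    apply hik
    simp [pl]
  have hp0 : pl x y ≠ 0 := fun h0 => hik (by rw [h0]; rfl)
  obtain ⟨lam, x', hlam, hlamP, hxx, hx', a, ha⟩ := exists_scaled P hx0
  obtain ⟨mu, p', hmu, hmuP, hpp, hp', -⟩ := exists_scaled' P hp0
  obtain ⟨η, hη⟩ : ∃ η : Fin (n + 1) → K, η = fun i => algebraMap k K (ξ i) := ⟨_, rfl⟩
  rw [← hη] at hξ ⊢
  have hηi : ∀ i, algebraMap k K (ξ i) = η i := fun i => by rw [hη]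
  simp only [hηi]
  obtain ⟨y', hy'⟩ : ∃ y' : Fin (n + 1) → K, y' = fun i => p' (a, i) := ⟨_, rfl⟩
  have hpl := line_basis hlam hmu hxx hpp ha
  rw [← hy'] at hpl
  have hy'i : ∀ i, Ge P 0 (y' i) := fun i => by rw [hy']; exact hp' _
  have hηP : ∀ i, Ge P 0 (η i) := fun i => by rw [hη]; exact Ge.const _
  obtain ⟨s, hs⟩ : ∃ s, s = ∑ i, η i * x' i := ⟨_, rfl⟩
  obtain ⟨t, ht⟩ : ∃ t, t = ∑ i, η i * y' i := ⟨_, rfl⟩
  have hsP : Ge P 0 s := by
    rw [hs]
    refine Ge.sum _ _ fun i _ => ?_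
    have := (hηP i).mul (hx' i)
    rwa [add_zero] at this
  have htP : Ge P 0 t := by
    rw [ht]
    refine Ge.sum _ _ fun i _ => ?_
    have := (hηP i).mul (hy'i i)
    rwa [add_zero] at this
  have hz : zp (pl x y) η = mu • (s • y' + (-t) • x') := by
    rw [hpp, zp_smul, hpl, zp_pl, hs, ht]
  have hsx : ∑ i, η i * x i = lam * s := by
    rw [hs, Finset.mul_sum]
    refine Finset.sum_congr rfl fun i _ => ?_
    rw [hxx, Pi.smul_apply, smul_eq_mul]; ring
  rw [hz, eval_smul_hom hF] at hξ ⊢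
  have hx'F : eval x' F = 0 := by
    have h1 := hxF
    rw [hxx, eval_smul_hom hF] at h1
    exact (mul_eq_zero.1 h1).resolve_left (pow_ne_zero _ hlam)
  have hF0 : eval (s • y' + (-t) • x') F ≠ 0 := right_ne_zero_of_mul hξ
  have h0 : eval ((-t) • x') F = 0 := by rw [eval_smul_hom hF, hx'F, mul_zero]
  have hs0 : s ≠ 0 := by
    rintro rfl
    apply hF0
    rw [zero_smul, zero_add, h0]
  have hsP' : Ge P (P.ord s) s := Or.inr le_rfl
  have h2 : Ge P (-g + P.ord s) (eval (s • y' + (-t) • x') F - eval ((-t) • x') F) := by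
    refine ge_eval_sub P (fun i => ?_) (fun i => ?_) (fun i => ?_) hc
    · simp only [Pi.add_apply, Pi.smul_apply, smul_eq_mul]
      refine Ge.add ?_ ?_
      · have := hsP.mul (hy'i i)
        rwa [add_zero] at this
      · have := htP.neg.mul (hx' i)
        rwa [add_zero] at this
    · simp only [Pi.smul_apply, smul_eq_mul]
      have := htP.neg.mul (hx' i)
      rwa [add_zero] at this
    · simp only [Pi.add_apply, add_sub_cancel_right, Pi.smul_apply, smul_eq_mul]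
      have := hsP'.mul (hy'i i)
      rwa [add_zero] at this
  rw [h0, sub_zero] at h2
  have h3 := h2.resolve_left hF0
  rw [P.ord_mul (pow_ne_zero _ hmu) hF0, P.ord_pow, hsx, P.ord_mul hlam hs0, hlamP, hmuP]
  linarith

/-- The line through `x` and `y` lies on the variety. -/
def OnL (F : Fam K n A) (C : Finset A) (x y : Fin (n + 1) → K) : Prop :=
  ∀ c ∈ C, ∀ a b : K, eval (a • x + b • y) (F c) = 0

section
variable [CharZero k] [IsFF k K] [IsAlgClosed k] [DecidableEq A] [Fintype A] {F : Fam K n A}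
  {dg : A → ℕ} {D : A → (Fin (n + 1) →₀ ℕ) → Derivation ℤ K K} {e g : Place k K → ℤ}

omit [CharZero k] [IsFF k K] [IsAlgClosed k] [DecidableEq A] [Fintype A] in
theorem DataL.fin_g (hdat : DataL k F dg D e g) : {P : Place k K | g P ≠ 0}.Finite :=
  hdat.fin.subset fun _ hP => Or.inr hP

omit [DecidableEq A] [Fintype A] in
/-- The height of a point of the hypersurface on a line. -/
theorem DataL.line_ht (hdat : DataL k F dg D e g) {c : A} {x y : Fin (n + 1) → K}
    (hxF : eval x (F c) = 0) {ik : Fin (n + 1) × Fin (n + 1)} (hik : pl x y ik ≠ 0) {a b : K}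
    (hab : eval (a • x + b • y) (F c) ≠ 0) :
    pht k x ≤ dg c * fht k (pl x y) + ∑ᶠ P, g P := by
  have hx0 : x ≠ 0 := by
    rintro rfl
    apply hik
    simp [pl]
  have hp0 : pl x y ≠ 0 := fun h0 => hik (by rw [h0]; rfl)
  obtain ⟨ξ, hξ⟩ := exists_xi (k := k) hik hab
  have := sum_two (k := k) hx0 hp0 hdat.fin_g
    (fun P => line_local (hdat.hom c) hxF hik hξ P (hdat.coef P c))
  linarith

omit [DecidableEq A] in
theorem DataL.CL_nonneg (hdat : DataL k F dg D e g) : 0 ≤ CL n A e g := by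
  refine finsum_nonneg fun P => ?_
  have h1 := hdat.e_nonneg P
  have h2 := hdat.g_nonneg P
  positivity

omit [IsAlgClosed k] [DecidableEq A] [Fintype A] in
theorem pht_nonneg [IsAlgClosed k] {x : Fin (n + 1) → K} (hx0 : x ≠ 0) : 0 ≤ pht k x := by
  rw [← fht_fin]
  exact fht_nonneg hx0

/-- The integrability. -/
theorem on_line [CharZero K] (hdat : DataL k F dg D e g) (hcm : Comm D) {C : Finset A}
    {x : Fin (n + 1) → K} (hxC : ∀ c ∈ C, eval x (F c) = 0)
    (hxb : ∀ b, b ∉ C → eval x (F b) ≠ 0) (hC : ∃ b, b ∉ C) {y : Fin (n + 1) → K}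
    {ik : Fin (n + 1) × Fin (n + 1)} (hik : pl x y ik ≠ 0)
    (hr : 2 * Module.finrank K (Vl F dg D x y) + 2 + C.card ≤
      Module.finrank K (Wsp F D x) + (n + 1))
    (hd : ∑ a, dg a + C.card + Module.finrank K (Vl F dg D x y) ≤ 2 * n + 1) :
    OnL F C x y := by
  obtain ⟨ms, mt, h1, h2, h3, h4⟩ := exists_ms_mt hik
  have hL : LineData F dg D C x y ms mt :=
    ⟨hdat.pos, hdat.hom, hdat.dual, hcm, hxC, hxb, h1, h2, h3, h4⟩
  intro c hc a b
  by_cases hb : b = 0
  · rw [hb, zero_smul, add_zero, eval_smul_hom (hdat.hom c), hxC c hc, mul_zero]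
  · have h5 : a • x + b • y = b • ((a / b) • x + y) := by
      rw [smul_add, smul_smul, mul_div_cancel₀ _ hb]
    rw [h5, eval_smul_hom (hdat.hom c), ← eval_rho, hL.line_zero hr hd hC hc,
      Polynomial.eval_zero, mul_zero]

/-- The height of the points that are not on lines. -/
theorem combine [CharZero K] (hdat : DataL k F dg D e g) (hcm : Comm D) (hn : 1 ≤ n)
    {C : Finset A} (hC : ∃ b, b ∉ C) (hd : 3 * n + 3 ≤ 2 * ∑ a, dg a + C.card)
    {x : Fin (n + 1) → K} (hxC : ∀ c ∈ C, eval x (F c) = 0)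
    (hxb : ∀ b, b ∉ C → eval x (F b) ≠ 0) (hx0 : x ≠ 0) (hP : PlOK dg D e F C x) :
    (∃ (y : Fin (n + 1) → K) (ik : Fin (n + 1) × Fin (n + 1)), pl x y ik ≠ 0 ∧
      OnL F C x y) ∨
    pht k x ≤ ((∑ a, dg a : ℕ) + 1) * CL n A e g + ∑ᶠ P, g P := by
  classical
  have hCn := hdat.CL_nonneg
  have hg : 0 ≤ ∑ᶠ P, g P := finsum_nonneg fun P => hdat.g_nonneg P
  have hh := pht_nonneg (k := k) hx0
  have hker := TC_finrank hdat.hom hdat.dual hxC hx0
  have hWle := Wsp_le hdat.pos hdat.hom hdat.dual hxC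
  have hwn := Submodule.finrank_mono hWle
  have hw1 : 1 ≤ Module.finrank K (Wsp F D x) :=
    (finrank_span_singleton (K := K) hx0).symm.le.trans (Submodule.finrank_mono le_sup_left)
  obtain ⟨S, hS⟩ : ∃ S, S = ∑ a, dg a := ⟨_, rfl⟩
  obtain ⟨H, hH⟩ : ∃ H, H = CL n A e g := ⟨_, rfl⟩
  obtain ⟨G, hGG⟩ : ∃ G, G = ∑ᶠ P, g P := ⟨_, rfl⟩
  obtain ⟨h, hhh⟩ : ∃ h, h = pht k x := ⟨_, rfl⟩
  obtain ⟨N, hN⟩ : ∃ N, N = Module.finrank K (TC F C x) := ⟨_, rfl⟩
  obtain ⟨w, hw⟩ : ∃ w, w = Module.finrank K (Wsp F D x) := ⟨_, rfl⟩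
  rw [← hS, ← hH, ← hGG, ← hhh]
  rw [← hH] at hCn
  rw [← hGG] at hg
  rw [← hhh] at hh
  rw [← hS] at hd
  rw [← hN] at hker
  rw [← hw, ← hN] at hwn
  rw [← hw] at hw1
  have hSC : 0 ≤ (S : ℤ) * H := mul_nonneg (by positivity) hCn
  -- points on lines of bounded height
  have hline : ∀ (y : Fin (n + 1) → K) (ik : Fin (n + 1) × Fin (n + 1)), pl x y ik ≠ 0 →
      fht k (pl x y) ≤ H → ((∃ (y : Fin (n + 1) → K) (ik : Fin (n + 1) × Fin (n + 1)),
        pl x y ik ≠ 0 ∧ OnL F C x y) ∨ h ≤ (S + 1) * H + G) := by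
    intro y ik hik hl
    by_cases hz : OnL F C x y
    · exact Or.inl ⟨y, ik, hik, hz⟩
    · unfold OnL at hz
      push Not at hz
      obtain ⟨c, hc, a, b, hab⟩ := hz
      have h1 := hdat.line_ht (hxC c hc) hik hab
      right
      rw [← hhh, ← hGG] at h1
      have h2 : (dg c : ℤ) * fht k (pl x y) ≤ dg c * H :=
        mul_le_mul_of_nonneg_left hl (by positivity)
      have h3 : (dg c : ℤ) ≤ S := by
        rw [hS]
        exact_mod_cast Finset.single_le_sum (f := dg) (fun _ _ => Nat.zero_le _)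
          (Finset.mem_univ c)
      have h4 : (dg c : ℤ) * H ≤ S * H := mul_le_mul_of_nonneg_right h3 hCn
      nlinarith
  by_cases hG : Good (Bset D x dg) (TC F C x) (Wsp F D x)
  · rcases Nat.even_or_odd' (N - w) with ⟨p, hp | hp⟩
    · right
      have h1 := case_even hdat hn hxC hxb hx0 hP hG (p := p) (by rw [← hw]; omega)
      rw [← hH, ← hhh, ← hS] at h1
      have h2 : (1 : ℤ) ≤ (S : ℤ) - ((n + 1 + p : ℕ) : ℤ) := by omega
      have h3 : h ≤ H := by nlinarith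
      nlinarith
    · obtain ⟨y, ik, hik, h1⟩ := case_odd hdat hxC hxb hx0 hP hG (p := p) (by
        rw [← hw]; omega)
      rw [← hH, ← hhh, ← hS] at h1
      have h2 : (0 : ℤ) ≤ (S : ℤ) - ((n + 1 + p + 1 : ℕ) : ℤ) := by omega
      exact hline y ik hik (by nlinarith)
  · unfold Good at hG
    push Not at hG
    obtain ⟨φ, hφ0, hφ⟩ := hG
    obtain ⟨y, hy, ik, hik⟩ := exists_pl hx0 hφ0
    rw [← Vl_eq F dg D hy, ← hN, ← hw] at hφ
    have hWV : w ≤ Module.finrank K (Vl F dg D x y) := by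
      rw [hw]
      exact Submodule.finrank_mono le_sup_left
    have hL := fun h1 h2 => on_line hdat hcm hxC hxb hC hik h1 h2
    obtain ⟨v, hv⟩ : ∃ v, v = Module.finrank K (Vl F dg D x y) := ⟨_, rfl⟩
    have hcl := case_line hdat hxC hxb hP hik (j := v - w) (r := N - v)
      (by rw [← hw, ← hv]; rw [← hv] at hWV; omega)
      (by rw [← hv] at hφ ⊢; omega)
    rw [← hv] at hφ hWV
    rw [← hv, ← hw] at hL
    have hl0 : 0 ≤ fht k (pl x y) := fht_nonneg fun h0 => hik (by rw [h0]; rfl)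
    rw [← hH, ← hhh, ← hS] at hcl
    rw [← hS] at hL
    obtain ⟨l, hll⟩ : ∃ l, l = fht k (pl x y) := ⟨_, rfl⟩
    rw [← hll] at hcl hl0
    obtain ⟨s, hs⟩ : ∃ s : ℤ, s = ((N - v : ℕ) : ℤ) - ((v - w : ℕ) : ℤ) := ⟨_, rfl⟩
    have hs2 : 2 ≤ s := by omega
    rw [← hs] at hcl
    by_cases h1 : S + C.card + v ≤ 2 * n + 1
    · exact Or.inl ⟨y, ik, hik, hL (by omega) h1⟩
    by_cases h2 : S + C.card + v = 2 * n + 2
    · have h5 : (S : ℤ) - ((n + 1 + (N - v) : ℕ) : ℤ) = 0 := by omega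
      rw [h5] at hcl
      exact hline y ik hik (by rw [← hll]; nlinarith)
    · right
      have h5 : 1 ≤ (S : ℤ) - ((n + 1 + (N - v) : ℕ) : ℤ) := by omega
      have h6 : h ≤ H := by nlinarith
      nlinarith

end

end Pool.Agent.Y741
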