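import Pool.Agent.Y741.MainR

/-!
Exceptional lines have infinitely many points over some finitely generated ring.
-/

set_option autoImplicit false

open MvPolynomial FF Pool.Agent.W603.LV Pool.Agent.W603.PV Pool.Agent.W602.RG Pool.Agent.TH145.GH
open Pool.Agent.TH145.GC (Gen Rt)
open Pool.Agent.Y735 (rho eval_rho rho_X pl fht rho_deg)
open LinearAlgebra.Projectivization

namespace Pool.Agent.Y741

variable {K : Type} [Field K] {n : ℕ} {A : Type}

theorem mk_mem_rpts {F : A → MvPolynomial (Fin (n + 1)) K} {d : A → ℕ}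
    (hF : ∀ a, (F a).IsHomogeneous (d a)) {C : Finset A} {R : Subring K}
    {v : Fin (n + 1) → K} (hv : v ≠ 0) (h1 : ∀ c ∈ C, eval v (F c) = 0)
    (h2 : ∀ b, b ∉ C → eval v (F b) ≠ 0 ∧ ∀ I : Fin (n + 1) →₀ ℕ, I.degree = d b →
      (∏ i, v i ^ I i) / eval v (F b) ∈ R) : Projectivization.mk K v hv ∈ RPts F d C R := by
  obtain ⟨a, ha⟩ := (Projectivization.mk_eq_mk_iff' K _ _ _ _).1
    (Projectivization.mk_rep (Projectivization.mk K v hv))
  have ha0 : a ≠ 0 := by
    rintro rfl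
    rw [zero_smul] at ha
    exact (Projectivization.mk K v hv).rep_nonzero ha.symm
  refine ⟨fun c hc => ?_, fun b hb => ⟨?_, fun I hI => ?_⟩⟩
  · rw [← ha, eval_smul_hom (hF c), h1 c hc, mul_zero]
  · rw [← ha, eval_smul_hom (hF b)]
    exact mul_ne_zero (pow_ne_zero _ ha0) (h2 b hb).1
  · rw [← ha, eval_smul_hom (hF b)]
    have h3 : ∏ i, (a • v) i ^ I i = a ^ d b * ∏ i, v i ^ I i := by
      have h4 : ∑ i, I i = d b := by
        rw [← hI, Finsupp.degree_eq_sum]
      rw [← h4, ← Finset.prod_pow_eq_pow_sum, ← Finset.prod_mul_distrib]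
      exact Finset.prod_congr rfl fun i _ => by rw [Pi.smul_apply, smul_eq_mul, mul_pow]
    rw [h3, mul_div_mul_left _ _ (pow_ne_zero _ ha0)]
    exact (h2 b hb).2 I hI

/-- Exceptional lines have infinitely many points over some finitely generated ring. -/
theorem conv_line [IsAlgClosed K] [CharZero K] [Fintype A] [DecidableEq A] {d : A → ℕ}
    {F : A → MvPolynomial (Fin (n + 1)) K} (hF : ∀ a, (F a).IsHomogeneous (d a)) {C : Finset A}
    {W : Submodule K (Fin (n + 1) → K)} (hW : IsLine F C W)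
    (hB : (Pts W ∩ Bd F C).encard ≤ 2) :
    ∃ T : Finset K, {p | p ∈ RPts F d C (Subring.closure (T : Set K)) ∧ p ∈ Pts W}.Infinite := by
  classical
  obtain ⟨x, hx, hx0, hxb⟩ := exists_off hW hB
  obtain ⟨y, i, j, e, m0, m1, t0, t1, hy, hij, hR⟩ := exists_rhoD' hF hW hB hx hx0 hxb
  have hli : LinearIndependent K ![x, y] := li_of_pl hij
  have hE := hR.excD hF
  have hexc : ∀ b, b ∉ C → ∀ a a' : K, eval (a • x + a' • y) (F b) =
      e b * ((a - t0 * a') ^ (m0 b : ℕ) * (a - t1 * a') ^ (m1 b : ℕ)) := by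
    intro b hb a a'
    have h1 := hE.2 b hb a a'
    rw [h1]
  have he : ∀ b, b ∉ C → e b ≠ 0 := fun b hb => by
    rw [(hR.2 b hb).2.1]
    exact hxb b hb
  obtain ⟨T, hT⟩ : ∃ T : Finset K, T = Finset.univ.image x ∪ (Finset.univ.image y ∪
    ({t0, t1, (t0 - t1)⁻¹, 2⁻¹} ∪ Finset.univ.image fun b => (e b)⁻¹)) := ⟨_, rfl⟩
  obtain ⟨R, hRe⟩ : ∃ R : Subring K, R = Subring.closure (T : Set K) := ⟨_, rfl⟩
  have hTR : ∀ z ∈ T, z ∈ R := by
    intro z hz
    rw [hRe]
    exact Subring.subset_closure (Finset.mem_coe.2 hz)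
  have rx : ∀ i, x i ∈ R := fun i => hTR _ (by rw [hT]; simp)
  have ry : ∀ i, y i ∈ R := fun i => hTR _ (by rw [hT]; simp)
  have r0 : t0 ∈ R := hTR _ (by rw [hT]; simp)
  have r1 : t1 ∈ R := hTR _ (by rw [hT]; simp)
  have ri : (t0 - t1)⁻¹ ∈ R := hTR _ (by rw [hT]; simp)
  have rh : (2 : K)⁻¹ ∈ R := hTR _ (by rw [hT]; simp)
  have re : ∀ b, (e b)⁻¹ ∈ R := fun b => hTR _ (by rw [hT]; simp)
  -- the parameters
  obtain ⟨α, a', hα0, hαR, hαi, ha'R, hsec, hinj⟩ : ∃ α a' : ℕ → K, (∀ m, α m ≠ 0) ∧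
      (∀ m, α m ∈ R) ∧ (∀ m, (α m)⁻¹ ∈ R) ∧ (∀ m, a' m ∈ R) ∧
      (∀ m, α m + t0 * a' m - t1 * a' m = 1) ∧ ∀ m m' : ℕ, ∀ r : K,
        α m = r * α m' → a' m = r * a' m' → m = m' := by
    by_cases htt : t0 = t1
    · refine ⟨fun _ => 1, fun m => (m : K), fun _ => one_ne_zero, fun _ => one_mem _,
        fun _ => by rw [inv_one]; exact one_mem _, fun m => natCast_mem _ m, fun m => ?_,
        fun m m' r h1 h2 => ?_⟩
      · rw [htt]; ring
      · have h1' : (1 : K) = r * 1 := h1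
        have h2' : (m : K) = r * (m' : K) := h2
        rw [← h1'.trans (mul_one r), one_mul] at h2'
        exact_mod_cast h2'
    · have hne : t0 - t1 ≠ 0 := sub_ne_zero.2 htt
      have h20 : (2 : K) ≠ 0 := two_ne_zero
      have h2R : (2 : K) ∈ R := by
        exact_mod_cast natCast_mem R 2
      refine ⟨fun m => 2 ^ m, fun m => (1 - 2 ^ m) * (t0 - t1)⁻¹, fun m => pow_ne_zero _ h20,
        fun m => pow_mem h2R m, fun m => ?_, fun m => mul_mem (sub_mem (one_mem _)
          (pow_mem h2R m)) ri, fun m => ?_, fun m m' r h1 h2 => ?_⟩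
      · dsimp only
        rw [← inv_pow]
        exact pow_mem rh m
      · field_simp
        ring
      · have h3 : (1 : K) - 2 ^ m = r * (1 - 2 ^ m') := by
          have h4 := mul_right_cancel₀ (inv_ne_zero hne) (h2.trans (mul_assoc _ _ _).symm)
          exact h4
        have h1' : (2 : K) ^ m = r * 2 ^ m' := h1
        have h5 : r = 1 := by linear_combination -h1' - h3
        rw [h5, one_mul] at h1'
        have h6 : (2 : ℕ) ^ m = 2 ^ m' := by
          have h7 : ((2 ^ m : ℕ) : K) = ((2 ^ m' : ℕ) : K) := by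
            push_cast
            exact h1'
          exact_mod_cast h7
        exact Nat.pow_right_injective le_rfl h6
  obtain ⟨v, hv⟩ : ∃ v : ℕ → Fin (n + 1) → K, ∀ m, v m = (α m + t0 * a' m) • x + a' m • y :=
    ⟨_, fun _ => rfl⟩
  have hv0 : ∀ m, v m ≠ 0 := by
    intro m h0
    rw [hv] at h0
    rw [LinearIndependent.pair_iff] at hli
    obtain ⟨h1, h2⟩ := hli _ _ h0
    rw [h2, mul_zero, add_zero] at h1
    exact hα0 m h1
  have hFb : ∀ m b, b ∉ C → eval (v m) (F b) = e b * α m ^ (m0 b : ℕ) := by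
    intro m b hb
    rw [hv, hexc b hb, hsec, one_pow, mul_one, add_sub_cancel_right]
  have hvR : ∀ m i, v m i ∈ R := by
    intro m i
    rw [hv]
    exact add_mem (mul_mem (add_mem (hαR m) (mul_mem r0 (ha'R m))) (rx i)) (mul_mem (ha'R m) (ry i))
  refine ⟨T, ?_⟩
  rw [← hRe]
  refine Set.infinite_of_injective_forall_mem (f := fun m => Projectivization.mk K (v m) (hv0 m))
    ?_ fun m => ⟨mk_mem_rpts hF (hv0 m) (fun c hc => ?_) fun b hb => ⟨?_, fun I hI => ?_⟩, ?_⟩
  · intro m m' hmm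
    obtain ⟨r, hr⟩ := (Projectivization.mk_eq_mk_iff' K _ _ _ _).1 hmm
    rw [hv, hv, smul_add, smul_smul, smul_smul] at hr
    have h1 : (r * (α m' + t0 * a' m') - (α m + t0 * a' m)) • x + (r * a' m' - a' m) • y = 0 := by
      rw [sub_smul, sub_smul]
      linear_combination (exp := 1) hr
    rw [LinearIndependent.pair_iff] at hli
    obtain ⟨h2, h3⟩ := hli _ _ h1
    refine hinj m m' r ?_ (sub_eq_zero.1 h3).symm
    linear_combination -h2 + t0 * h3
  · rw [hv]
    exact hE.1 c hc _ _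
  · rw [hFb m b hb]
    exact mul_ne_zero (he b hb) (pow_ne_zero _ (hα0 m))
  · rw [hFb m b hb, div_eq_mul_inv, mul_inv, ← inv_pow]
    exact mul_mem (prod_mem fun i _ => pow_mem (hvR m i) _)
      (mul_mem (re b) (pow_mem (hαi m) _))
  · obtain ⟨a, ha⟩ := (Projectivization.mk_eq_mk_iff' K _ _ _ _).1
      (Projectivization.mk_rep (Projectivization.mk K (v m) (hv0 m)))
    change (Projectivization.mk K (v m) (hv0 m)).rep ∈ W
    rw [← ha, hv]
    exact W.smul_mem _ (W.add_mem (W.smul_mem _ hx) (W.smul_mem _ hy))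

end Pool.Agent.Y741
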