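import Pool.Agent.Y741.Global
import Pool.Agent.Y735.Rho

/-!
The spaces of vector fields at a point.
-/

set_option autoImplicit false

open MvPolynomial FF Pool.Agent.W603.LV Pool.Agent.W603.PV Pool.Agent.TH145.GH
open Pool.Agent.Y735 (lf pm tm pl lf_single lf_pm lf_tm eval_lf eval_pm tm_smul sum_tm sum_pm vol
  vol_apply alt_tri lf_hom po exists_scaled' ge_lf ge_coeff_mul ge_X ge_vol fht sum_two Mx mem_Mx
  pmx span_pmx sel exists_pl span_tm imB mem_imB imB_le Good exists_pairs compl_one pm_x pm_y Js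
  mem_Js_point finrank_sup_one)

namespace Pool.Agent.Y741

variable {k K : Type} [Field k] [Field K] [Algebra k K] {n : ℕ} {A : Type}

section spaces

variable [DecidableEq A] [Fintype A]

/-- The map given by a family of forms of degree `d - 1`. -/
noncomputable def bmap (D : A → (Fin (n + 1) →₀ ℕ) → Derivation ℤ K K) (x : Fin (n + 1) → K)
    (Q : Fam K n A) : Mx x →ₗ[K] (Fin (n + 1) → K) := vq D x Q ∘ₗ (Mx x).subtype

omit [DecidableEq A] in
theorem bmap_apply (D : A → (Fin (n + 1) →₀ ℕ) → Derivation ℤ K K) (x : Fin (n + 1) → K)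
    (Q : Fam K n A) (m : Mx x) : bmap D x Q m = vq D x Q (m : Fin (n + 1) → K) := rfl

/-- The vector field as a function of the family of forms. -/
noncomputable def rq (D : A → (Fin (n + 1) →₀ ℕ) → Derivation ℤ K K) (x m : Fin (n + 1) → K) :
    Fam K n A →ₗ[K] (Fin (n + 1) → K) where
  toFun Q := vq D x Q m
  map_add' Q R := by rw [vq_apply, vq_apply, vq_apply, ql_add, map_add]
  map_smul' c Q := by
    have h1 : ql (c • Q) m = c • ql Q m := by
      funext a
      rw [ql_apply, Pi.smul_apply, Pi.smul_apply, ql_apply, smul_mul_assoc]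
    rw [vq_apply, vq_apply, h1, map_smul, RingHom.id_apply]

omit [DecidableEq A] in
theorem rq_apply (D : A → (Fin (n + 1) →₀ ℕ) → Derivation ℤ K K) (x m : Fin (n + 1) → K)
    (Q : Fam K n A) : rq D x m Q = vq D x Q m := rfl

variable (K n) in
/-- The families of forms with coefficients that are natural numbers. -/
def CS (dg : A → ℕ) : AddSubmonoid (Fam K n A) where
  carrier := {Q | (∀ a, (Q a).IsHomogeneous (dg a - 1)) ∧ ∀ a, Nc (Q a)}
  add_mem' := by
    rintro Q R ⟨ha, ha'⟩ ⟨hb, hb'⟩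
    refine ⟨fun a => (ha a).add (hb a), fun a u => ?_⟩
    obtain ⟨c, hc⟩ := ha' a u
    obtain ⟨c', hc'⟩ := hb' a u
    exact ⟨c + c', by rw [Pi.add_apply, coeff_add, hc, hc', Nat.cast_add]⟩
  zero_mem' := ⟨fun a => isHomogeneous_zero _ _ _, fun a u => ⟨0, by
    rw [Pi.zero_apply, coeff_zero, Nat.cast_zero]⟩⟩

omit [DecidableEq A] [Fintype A] in
theorem mem_CS {dg : A → ℕ} {Q : Fam K n A} : Q ∈ CS K n dg ↔
    (∀ a, (Q a).IsHomogeneous (dg a - 1)) ∧ ∀ a, Nc (Q a) := Iff.rfl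

omit [Fintype A] in
theorem monomial_mem_CS {dg : A → ℕ} {a : A} {u : Fin (n + 1) →₀ ℕ} (hu : u.degree = dg a - 1) :
    (Pi.single a (monomial u 1) : Fam K n A) ∈ CS K n dg := by
  classical
  refine ⟨fun b => single_hom (dg := fun a => dg a - 1) (isHomogeneous_monomial _ hu) b,
    fun b v => ?_⟩
  by_cases h : b = a
  · subst h
    rw [Pi.single_eq_same, coeff_monomial]
    split_ifs
    · exact ⟨1, Nat.cast_one.symm⟩
    · exact ⟨0, Nat.cast_zero.symm⟩
  · rw [Pi.single_eq_of_ne h, coeff_zero]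
    exact ⟨0, Nat.cast_zero.symm⟩

/-- The maps given by the families of forms with natural coefficients. -/
noncomputable def Bset (D : A → (Fin (n + 1) →₀ ℕ) → Derivation ℤ K K) (x : Fin (n + 1) → K)
    (dg : A → ℕ) : AddSubmonoid (Mx x →ₗ[K] (Fin (n + 1) → K)) where
  carrier := {b | ∃ Q ∈ CS K n dg, b = bmap D x Q}
  add_mem' := by
    rintro a b ⟨Q, hQ, rfl⟩ ⟨R, hR, rfl⟩
    refine ⟨Q + R, add_mem hQ hR, ?_⟩
    ext1 m
    exact ((rq D x m).map_add Q R).symm
  zero_mem' := by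
    refine ⟨0, zero_mem _, ?_⟩
    ext1 m
    exact (rq D x m).map_zero.symm

omit [DecidableEq A] in
theorem mem_Bset {D : A → (Fin (n + 1) →₀ ℕ) → Derivation ℤ K K} {x : Fin (n + 1) → K}
    {dg : A → ℕ} {b : Mx x →ₗ[K] (Fin (n + 1) → K)} :
    b ∈ Bset D x dg ↔ ∃ Q ∈ CS K n dg, b = bmap D x Q := Iff.rfl

/-- Reduction to natural coefficients. -/
theorem map_mem_of_nat {V : Type*} [AddCommGroup V] [Module K V] (f : Fam K n A →ₗ[K] V)
    (U : Submodule K V) {dg : A → ℕ} (h : ∀ Q ∈ CS K n dg, f Q ∈ U) {Q : Fam K n A}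
    (hQ : ∀ a, (Q a).IsHomogeneous (dg a - 1)) : f Q ∈ U := by
  have h1 : Q = ∑ a, ∑ u ∈ (Q a).support, (Q a).coeff u •
      (Pi.single a (monomial u 1) : Fam K n A) := by
    have h2 : ∀ a, ∑ u ∈ (Q a).support, (Q a).coeff u •
        (Pi.single a (monomial u 1) : Fam K n A) = Pi.single a (Q a) := by
      intro a
      funext b
      rw [Finset.sum_apply]
      by_cases hb : b = a
      · subst hb
        rw [Pi.single_eq_same]
        conv_rhs => rw [(Q b).as_sum]
        refine Finset.sum_congr rfl fun u _ => ?_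
        rw [Pi.smul_apply, Pi.single_eq_same, smul_monomial, smul_eq_mul, mul_one]
      · rw [Pi.single_eq_of_ne hb]
        exact Finset.sum_eq_zero fun u _ => by
          rw [Pi.smul_apply, Pi.single_eq_of_ne hb, smul_zero]
    rw [Finset.sum_congr rfl fun a _ => h2 a, Finset.univ_sum_single]
  rw [h1, map_sum]
  refine sum_mem fun a _ => ?_
  rw [map_sum]
  refine sum_mem fun u hu => ?_
  rw [map_smul]
  exact U.smul_mem _ (h _ (monomial_mem_CS (deg_of_mem (hQ a) hu)))

theorem vq_mem_of_nat (D : A → (Fin (n + 1) →₀ ℕ) → Derivation ℤ K K) (x : Fin (n + 1) → K)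
    (U : Submodule K (Fin (n + 1) → K)) {dg : A → ℕ} {m : Fin (n + 1) → K}
    (h : ∀ Q ∈ CS K n dg, vq D x Q m ∈ U) {Q : Fam K n A}
    (hQ : ∀ a, (Q a).IsHomogeneous (dg a - 1)) : vq D x Q m ∈ U :=
  map_mem_of_nat (rq D x m) U h hQ

/-- The families of forms that vanish at the point. -/
theorem vA_mem_imB [Infinite K] {D : A → (Fin (n + 1) →₀ ℕ) → Derivation ℤ K K}
    {x : Fin (n + 1) → K} (hx0 : x ≠ 0) {dg : A → ℕ} {G : Fam K n A}
    (hG : ∀ a, (G a).IsHomogeneous (dg a)) (hGx : ∀ a, eval x (G a) = 0) :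
    vA D x G ∈ imB (Bset D x dg) ⊤ := by
  rw [← Finset.univ_sum_single G, map_sum]
  refine sum_mem fun a _ => ?_
  have h1 := mem_Js_point hx0 (hG a) (hGx a)
  have key : ∀ p ∈ Js (Mx x) (dg a), vA D x (Pi.single a p) ∈ imB (Bset D x dg) ⊤ := by
    intro p hp
    refine Submodule.span_induction (p := fun p _ => vA D x (Pi.single a p) ∈
      imB (Bset D x dg) ⊤) ?_ ?_ ?_ ?_ hp
    · rintro _ ⟨Q, m, e', he', hQ, hm, rfl⟩
      have h2 : vA D x (Pi.single a (Q * lf m)) = vq D x (Pi.single a Q) m := by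
        rw [vq_apply]
        congr 1
        funext b
        rw [ql_apply]
        by_cases hb : b = a
        · subst hb
          rw [Pi.single_eq_same, Pi.single_eq_same]
        · rw [Pi.single_eq_of_ne hb, Pi.single_eq_of_ne hb, zero_mul]
      rw [h2]
      refine vq_mem_of_nat D x _ (dg := dg) (fun Q' hQ' => ?_)
        (fun b => single_hom (dg := fun a => dg a - 1) (by
          have : e' = dg a - 1 := by omega
          rw [← this]
          exact hQ) b)
      have h3 := mem_imB (H := (⊤ : Submodule K (Mx x))) (mem_Bset.2 ⟨Q', hQ', rfl⟩ :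
        bmap D x Q' ∈ Bset D x dg) (m := ⟨m, hm⟩) trivial
      exact h3
    · rw [Pi.single_zero, map_zero]; exact zero_mem _
    · intro p q _ _ hp hq
      rw [Pi.single_add, map_add]; exact add_mem hp hq
    · intro c p _ hp
      rw [Pi.single_smul, map_smul]; exact Submodule.smul_mem _ _ hp
  exact key _ h1

/-- The space of the vectors of the linear group and of the torus. -/
noncomputable def Wsp (F : Fam K n A) (D : A → (Fin (n + 1) →₀ ℕ) → Derivation ℤ K K)
    (x : Fin (n + 1) → K) : Submodule K (Fin (n + 1) → K) :=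
  Submodule.span K {x} ⊔ Submodule.span K (Set.range (ww F D x))

theorem x_mem_Wsp (F : Fam K n A) (D : A → (Fin (n + 1) →₀ ℕ) → Derivation ℤ K K)
    (x : Fin (n + 1) → K) : x ∈ Wsp F D x :=
  Submodule.mem_sup_left (Submodule.mem_span_singleton_self x)

theorem ww_mem_Wsp (F : Fam K n A) (D : A → (Fin (n + 1) →₀ ℕ) → Derivation ℤ K K)
    (x : Fin (n + 1) → K) (w : (Fin (n + 1) × Fin (n + 1)) ⊕ A) : ww F D x w ∈ Wsp F D x :=
  Submodule.mem_sup_right (Submodule.subset_span ⟨w, rfl⟩)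

variable {F : Fam K n A} {dg : A → ℕ} {D : A → (Fin (n + 1) →₀ ℕ) → Derivation ℤ K K}

theorem Wsp_le (hpos : ∀ a, 0 < dg a) (hF : ∀ a, (F a).IsHomogeneous (dg a))
    (hD : TH145.GC.Dual F dg D) {C : Finset A} {x : Fin (n + 1) → K}
    (hx : ∀ c ∈ C, eval x (F c) = 0) : Wsp F D x ≤ TC F C x := by
  unfold Wsp
  refine sup_le ?_ ?_
  · rw [Submodule.span_le, Set.singleton_subset_iff]
    exact x_mem_TC hF hx
  · rw [Submodule.span_le]
    rintro _ ⟨w, rfl⟩
    exact ww_mem_TC hpos hF hD hx w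

/-- The vector fields span the tangent space. -/
theorem im_top [Infinite K] (hpos : ∀ a, 0 < dg a) (hF : ∀ a, (F a).IsHomogeneous (dg a))
    (hD : TH145.GC.Dual F dg D) {C : Finset A} {x : Fin (n + 1) → K}
    (hx : ∀ c ∈ C, eval x (F c) = 0) (hxb : ∀ b, b ∉ C → eval x (F b) ≠ 0) (hx0 : x ≠ 0) :
    imB (Bset D x dg) ⊤ ⊔ Wsp F D x = TC F C x := by
  classical
  obtain ⟨i0, hi0⟩ := Function.ne_iff.1 hx0
  have hi0' : x i0 ≠ 0 := hi0
  refine le_antisymm (sup_le (imB_le ?_) (Wsp_le hpos hF hD hx)) ?_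
  · rintro b ⟨Q, hQ, rfl⟩ m -
    exact vq_mem_TC hpos hF hD hx hQ.1 (mem_Mx.1 m.2)
  · intro z hz
    -- the correction
    obtain ⟨H, hH⟩ : ∃ H : Fam K n A, H = ∑ p, z p • gf F (Sum.inl (p, i0)) := ⟨_, rfl⟩
    have hHa : ∀ a, H a = ∑ p, z p • (X i0 * pderiv p (F a)) := by
      intro a
      rw [hH, Finset.sum_apply]
      rfl
    have hHhom : ∀ a, (H a).IsHomogeneous (dg a) := by
      intro a
      rw [hHa]
      refine IsHomogeneous.sum _ _ _ fun p _ => ?_
      rw [smul_eq_C_mul]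
      have := (isHomogeneous_C (Fin (n + 1)) (z p)).mul (gf_hom hpos hF (Sum.inl (p, i0)) a)
      rwa [zero_add] at this
    have hHx : ∀ a, eval x (H a) = x i0 * dF (F a) x z := by
      intro a
      rw [hHa, map_sum]
      unfold dF
      rw [Finset.mul_sum]
      refine Finset.sum_congr rfl fun p _ => ?_
      rw [smul_eval, map_mul, eval_X]
      ring
    obtain ⟨lam, hlam⟩ : ∃ lam : A → K, ∀ a, lam a = if a ∈ C then 0 else
      eval x (H a) / eval x (F a) := ⟨_, fun _ => rfl⟩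
    obtain ⟨H', hH'⟩ : ∃ H' : Fam K n A, H' = H - ∑ a, lam a • gf F (Sum.inr a) := ⟨_, rfl⟩
    have hsum : ∀ b, (∑ a, lam a • gf F (Sum.inr a)) b = lam b • F b := by
      intro b
      rw [Finset.sum_apply, Finset.sum_eq_single b]
      · rw [Pi.smul_apply]
        simp only [gf, Pi.single_eq_same]
      · intro a _ hab
        rw [Pi.smul_apply]
        simp only [gf]
        rw [Pi.single_eq_of_ne hab.symm, smul_zero]
      · intro h; exact absurd (Finset.mem_univ b) h
    have hH'hom : ∀ a, (H' a).IsHomogeneous (dg a) := by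
      intro a
      rw [hH', Pi.sub_apply, hsum]
      refine (hHhom a).sub ?_
      rw [smul_eq_C_mul]
      have := (isHomogeneous_C (Fin (n + 1)) (lam a)).mul (hF a)
      rwa [zero_add] at this
    have hH'x : ∀ a, eval x (H' a) = 0 := by
      intro a
      rw [hH', Pi.sub_apply, hsum, map_sub, smul_eval, hlam]
      split_ifs with ha
      · rw [hHx, hz a ha, mul_zero, zero_mul, sub_zero]
      · rw [div_mul_cancel₀ _ (hxb a ha), sub_self]
    have h1 : z = (x i0)⁻¹ • ((∑ p, z p • ww F D x (Sum.inl (p, i0))) -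
        (vA D x H' + ∑ a, lam a • ww F D x (Sum.inr a))) := by
      have h2 : ∑ p, z p • ww F D x (Sum.inl (p, i0)) = x i0 • z + vA D x H := by
        rw [hH, map_sum, ← sub_eq_iff_eq_add, ← Finset.sum_sub_distrib]
        funext l
        rw [Finset.sum_apply, Finset.sum_eq_single l]
        · simp only [ww, map_smul, smul_add, Pi.sub_apply, Pi.add_apply, Pi.smul_apply,
            smul_eq_mul, Pi.single_eq_same]
          ring
        · intro p _ hp
          simp only [ww, map_smul, smul_add, Pi.sub_apply, Pi.add_apply, Pi.smul_apply,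
            smul_eq_mul]
          rw [Pi.single_eq_of_ne hp.symm]
          ring
        · intro h; exact absurd (Finset.mem_univ l) h
      have h3 : vA D x H' = vA D x H - ∑ a, lam a • ww F D x (Sum.inr a) := by
        rw [hH', map_sub, map_sum]
        congr 1
        exact Finset.sum_congr rfl fun a _ => by rw [map_smul]; rfl
      rw [h2, h3, sub_add_cancel, add_sub_cancel_right, smul_smul, inv_mul_cancel₀ hi0', one_smul]
    rw [h1]
    refine Submodule.smul_mem _ _ (sub_mem ?_ (add_mem ?_ ?_))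
    · exact sum_mem fun p _ => Submodule.smul_mem _ _
        (Submodule.mem_sup_right (ww_mem_Wsp F D x _))
    · exact Submodule.mem_sup_left (vA_mem_imB hx0 hH'hom hH'x)
    · exact sum_mem fun p _ => Submodule.smul_mem _ _
        (Submodule.mem_sup_right (ww_mem_Wsp F D x _))

/-- The choice of the vectors of the linear group. -/
theorem exists_wa (F : Fam K n A) (D : A → (Fin (n + 1) →₀ ℕ) → Derivation ℤ K K)
    {x : Fin (n + 1) → K} (hx0 : x ≠ 0) :
    ∃ (a : ℕ) (v : Fin a → (Fin (n + 1) × Fin (n + 1)) ⊕ A),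
      1 + a = Module.finrank K (Wsp F D x) ∧
      Wsp F D x = Submodule.span K {x} ⊔ Submodule.span K (Set.range (ww F D x ∘ v)) := by
  have h1 : Module.finrank K (Submodule.span K {x}) = 1 := finrank_span_singleton hx0
  have h2 : Module.finrank K (Submodule.span K {x}) ≤ Module.finrank K (Wsp F D x) :=
    Submodule.finrank_mono le_sup_left
  obtain ⟨v, hv⟩ := sel (ww F D x) (Module.finrank K (Wsp F D x) - 1) (Submodule.span K {x}) (by
    change Module.finrank K (Wsp F D x) = _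
    omega)
  exact ⟨_, v, by omega, hv.symm⟩

/-- The rows of the first two types. -/
theorem Wsp_le_rows {W B U T : Type} (F : Fam K n A) (dg : A → ℕ)
    (D : A → (Fin (n + 1) →₀ ℕ) → Derivation ℤ K K) (C : Finset A) (x y : Fin (n + 1) → K)
    (i0 : Fin (n + 1)) (ik : Fin (n + 1) × Fin (n + 1)) (rd : RD K n A W B U T)
    (h : Wsp F D x = Submodule.span K {x} ⊔ Submodule.span K (Set.range (ww F D x ∘ rd.wa))) :
    Wsp F D x ≤ Submodule.span K (row1 F dg D C x y i0 ik rd ''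
        {κ | rk (Sum.inr κ : Ri C W B U T) < 2}) := by
  rw [h]
  refine sup_le ?_ ?_
  · rw [Submodule.span_le, Set.singleton_subset_iff]
    exact Submodule.subset_span ⟨none, by simp [rk], rfl⟩
  · rw [Submodule.span_le]
    rintro _ ⟨a, rfl⟩
    exact Submodule.subset_span ⟨some (Sum.inl a), by simp [rk], rfl⟩

/-- The space of the vector fields that are given by the forms that vanish on a line. -/
noncomputable def Vl (F : Fam K n A) (dg : A → ℕ)
    (D : A → (Fin (n + 1) →₀ ℕ) → Derivation ℤ K K) (x y : Fin (n + 1) → K) :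
    Submodule K (Fin (n + 1) → K) :=
  Wsp F D x ⊔ Submodule.span K {v | ∃ (Q : Fam K n A) (m : Fin (n + 1) → K),
    (∀ a, (Q a).IsHomogeneous (dg a - 1)) ∧ ∑ l, m l * x l = 0 ∧ ∑ l, m l * y l = 0 ∧
      v = vq D x Q m}

theorem Vl_eq (F : Fam K n A) (dg : A → ℕ) (D : A → (Fin (n + 1) →₀ ℕ) → Derivation ℤ K K)
    {x y : Fin (n + 1) → K}
    {φ : Mx x →ₗ[K] K} (hφ : ∀ m : Mx x, φ m = ∑ l, (m : Fin (n + 1) → K) l * y l) :
    Vl F dg D x y = imB (Bset D x dg) (LinearMap.ker φ) ⊔ Wsp F D x := by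
  rw [sup_comm]
  unfold Vl
  refine le_antisymm (sup_le le_sup_left ?_) (sup_le le_sup_left (imB_le ?_))
  · rw [Submodule.span_le]
    rintro _ ⟨Q, m, hQ, hx, hy, rfl⟩
    refine vq_mem_of_nat D x _ (fun Q' hQ' => Submodule.mem_sup_right ?_) hQ
    have h1 : (⟨m, mem_Mx.2 hx⟩ : Mx x) ∈ LinearMap.ker φ := by
      rw [LinearMap.mem_ker, hφ]
      exact hy
    have h2 : bmap D x Q' ∈ Bset D x dg := mem_Bset.2 ⟨Q', hQ', rfl⟩
    have h3 := mem_imB h2 h1
    exact h3
  · rintro b ⟨Q, hQ, rfl⟩ m hm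
    rw [LinearMap.mem_ker, hφ] at hm
    exact Submodule.mem_sup_right (Submodule.subset_span
      ⟨Q, m, hQ.1, mem_Mx.1 m.2, hm, rfl⟩)

end spaces

section cases

variable [DecidableEq A] [Fintype A] {F : Fam K n A} {dg : A → ℕ}
  {D : A → (Fin (n + 1) →₀ ℕ) → Derivation ℤ K K} {e g : Place k K → ℤ}
  [CharZero k] [IsFF k K] [IsAlgClosed k] [Infinite K]

/-- The first case, even. -/
theorem case_even (hdat : DataL k F dg D e g) (hn : 1 ≤ n) {C : Finset A} {x : Fin (n + 1) → K}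
    (hxC : ∀ c ∈ C, eval x (F c) = 0) (hxb : ∀ b, b ∉ C → eval x (F b) ≠ 0) (hx0 : x ≠ 0)
    (hP : PlOK dg D e F C x) (hG : Good (Bset D x dg) (TC F C x) (Wsp F D x)) {p : ℕ}
    (hp : C.card + Module.finrank K (Wsp F D x) + 2 * p = n + 1) :
    (((∑ a, dg a : ℕ) : ℤ) - ((n + 1 + p : ℕ) : ℤ)) * pht k x ≤ CL n A e g := by
  classical
  obtain ⟨i0, hi0⟩ := Function.ne_iff.1 hx0
  have hi0' : x i0 ≠ 0 := hi0
  have hker := TC_finrank hdat.hom hdat.dual hxC hx0
  obtain ⟨a, v, ha, hv⟩ := exists_wa F D hx0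
  obtain ⟨b, i, j, hb, hfin⟩ := exists_pairs (pmx x i0) (span_pmx hi0') (Bset D x dg)
    (TC F C x) p (Wsp F D x) (im_top hdat.pos hdat.hom hdat.dual hxC hxb hx0) hG
    (by omega)
  choose Q hQ hbQ using fun a => mem_Bset.1 (hb a)
  -- a second point
  obtain ⟨y, ik, hik⟩ : ∃ (y : Fin (n + 1) → K) (ik : Fin (n + 1) × Fin (n + 1)),
      pl x y ik ≠ 0 := by
    obtain ⟨l, hl⟩ : ∃ l, l ≠ i0 := by
      have : Nontrivial (Fin (n + 1)) := Fin.nontrivial_iff_two_le.2 (by omega)
      exact exists_ne i0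
    refine ⟨Pi.single l 1, (i0, l), ?_⟩
    simp only [pl, Pi.single_eq_same, mul_one]
    rw [Pi.single_eq_of_ne hl.symm, mul_zero, sub_zero]
    exact hi0'
  obtain ⟨rd, hrd⟩ : ∃ rd : RD K n A (Fin a) (Fin p) Empty Empty,
      rd = ⟨v, Q, i, j, fun e => e.elim, fun e => e.elim, fun e => e.elim⟩ := ⟨_, rfl⟩
  have hW : Wsp F D x ≤ Submodule.span K (Set.range (row1 F dg D C x y i0 ik rd)) :=
    (Wsp_le_rows F dg D C x y i0 ik rd (by rw [hrd]; exact hv)).trans
      (Submodule.span_mono (Set.image_subset_range _ _))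
  have h1 := global_ineq hdat hxC hxb hi0' hik rd (fun b => by rw [hrd]; exact (hQ b).1)
    (fun b => b.elim) (fun b => b.elim) (fun b => by rw [hrd]; exact (hQ b).2)
    (fun b => b.elim) (fun b => b.elim) hP (fun t => t.elim) (by
      rw [Fintype.card_fin, Fintype.card_fin, Fintype.card_empty]
      omega) (by
      have h2 : Wsp F D x ⊔ Submodule.span K (Set.range (fun a => b a (pmx x i0 (i a))) ∪
          Set.range (fun a => b a (pmx x i0 (j a)))) = TC F C x := by
        refine Submodule.eq_of_le_of_finrank_eq ?_ (by rw [hfin]; omega)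
        refine sup_le (Wsp_le hdat.pos hdat.hom hdat.dual hxC) ?_
        rw [Submodule.span_le]
        rintro _ (⟨a, rfl⟩ | ⟨a, rfl⟩)
        · dsimp only
          rw [hbQ a]
          exact vq_mem_TC hdat.pos hdat.hom hdat.dual hxC (hQ a).1 (mem_Mx.1 (pmx x i0 (i a)).2)
        · dsimp only
          rw [hbQ a]
          exact vq_mem_TC hdat.pos hdat.hom hdat.dual hxC (hQ a).1 (mem_Mx.1 (pmx x i0 (j a)).2)
      rw [← h2]
      refine sup_le hW ?_
      rw [Submodule.span_le]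
      rintro _ (⟨a, rfl⟩ | ⟨a, rfl⟩)
      · dsimp only
        rw [hbQ a]
        exact Submodule.subset_span ⟨some (Sum.inr (Sum.inl (Sum.inl a))), by rw [hrd]; rfl⟩
      · dsimp only
        rw [hbQ a]
        exact Submodule.subset_span ⟨some (Sum.inr (Sum.inl (Sum.inr a))), by rw [hrd]; rfl⟩)
  rw [Fintype.card_fin, Fintype.card_empty] at h1
  rw [add_zero, Nat.cast_zero, sub_zero, zero_mul, add_zero] at h1
  exact h1

/-- The first case, odd. -/
theorem case_odd (hdat : DataL k F dg D e g) {C : Finset A} {x : Fin (n + 1) → K}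
    (hxC : ∀ c ∈ C, eval x (F c) = 0) (hxb : ∀ b, b ∉ C → eval x (F b) ≠ 0) (hx0 : x ≠ 0)
    (hP : PlOK dg D e F C x) (hG : Good (Bset D x dg) (TC F C x) (Wsp F D x)) {p : ℕ}
    (hp : C.card + Module.finrank K (Wsp F D x) + 2 * p + 1 = n + 1) :
    ∃ (y : Fin (n + 1) → K) (ik : Fin (n + 1) × Fin (n + 1)), pl x y ik ≠ 0 ∧
      (((∑ a, dg a : ℕ) : ℤ) - ((n + 1 + p + 1 : ℕ) : ℤ)) * pht k x + fht k (pl x y) ≤
        CL n A e g := by
  classical
  obtain ⟨i0, hi0⟩ := Function.ne_iff.1 hx0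
  have hi0' : x i0 ≠ 0 := hi0
  have hker := TC_finrank hdat.hom hdat.dual hxC hx0
  obtain ⟨a, v, ha, hv⟩ := exists_wa F D hx0
  have him := im_top hdat.pos hdat.hom hdat.dual hxC hxb hx0
  obtain ⟨b, i, j, hb, hfin⟩ := exists_pairs (pmx x i0) (span_pmx hi0') (Bset D x dg)
    (TC F C x) p (Wsp F D x) him hG (by omega)
  choose Q hQ hbQ using fun a => mem_Bset.1 (hb a)
  obtain ⟨D', hD'⟩ : ∃ D', D' = Wsp F D x ⊔ Submodule.span K
    (Set.range (fun a => b a (pmx x i0 (i a))) ∪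
          Set.range (fun a => b a (pmx x i0 (j a)))) := ⟨_, rfl⟩
  rw [← hD'] at hfin
  have hD'T : D' ≤ TC F C x := by
    rw [hD']
    refine sup_le (Wsp_le hdat.pos hdat.hom hdat.dual hxC) ?_
    rw [Submodule.span_le]
    rintro _ (⟨a, rfl⟩ | ⟨a, rfl⟩)
    · dsimp only
      rw [hbQ a]
      exact vq_mem_TC hdat.pos hdat.hom hdat.dual hxC (hQ a).1 (mem_Mx.1 (pmx x i0 (i a)).2)
    · dsimp only
      rw [hbQ a]
      exact vq_mem_TC hdat.pos hdat.hom hdat.dual hxC (hQ a).1 (mem_Mx.1 (pmx x i0 (j a)).2)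
  -- the last vector
  obtain ⟨Q0, hQ0, m0, hm0⟩ : ∃ Q0 ∈ CS K n dg, ∃ m : Mx x, bmap D x Q0 m ∉ D' := by
    by_contra hcon
    push Not at hcon
    have h1 : TC F C x ≤ D' := by
      rw [← him]
      refine sup_le (imB_le ?_) (by rw [hD']; exact le_sup_left)
      rintro b ⟨Q, hQ, rfl⟩ m -
      exact hcon Q hQ m
    have := Submodule.finrank_mono h1
    omega
  have hmemT : ∀ m : Mx x, bmap D x Q0 m ∈ TC F C x := fun m =>
    vq_mem_TC hdat.pos hdat.hom hdat.dual hxC hQ0.1 (mem_Mx.1 m.2)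
  obtain ⟨ψ, hψ0, hψ⟩ := Submodule.exists_dual_map_eq_bot_of_notMem hm0 inferInstance
  have hψD : ∀ z ∈ D', ψ z = 0 := by
    intro z hz
    have h1 : ψ z ∈ D'.map ψ := Submodule.mem_map_of_mem hz
    rw [hψ] at h1
    exact (Submodule.mem_bot K).1 h1
  obtain ⟨φ, hφ⟩ : ∃ φ : Mx x →ₗ[K] K, ∀ m, φ m = ψ (bmap D x Q0 m) :=
    ⟨ψ ∘ₗ bmap D x Q0, fun _ => rfl⟩
  have hφ0 : φ ≠ 0 := by
    intro h0
    apply hψ0
    rw [← hφ, h0, LinearMap.zero_apply]
  have hφker : ∀ m, φ m = 0 → bmap D x Q0 m ∈ D' := by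
    intro m hm
    have h1 := compl_one hD'T (by omega) (hmemT m0) hm0
    have h2 := hmemT m
    rw [← h1] at h2
    obtain ⟨z, hz, w, hw, hzw⟩ := Submodule.mem_sup.1 h2
    obtain ⟨c, rfl⟩ := Submodule.mem_span_singleton.1 hw
    rw [hφ, ← hzw, map_add, hψD z hz, zero_add, map_smul, smul_eq_mul] at hm
    rcases mul_eq_zero.1 hm with h3 | h3
    · rw [← hzw, h3, zero_smul, add_zero]; exact hz
    · exact absurd h3 hψ0
  obtain ⟨y, hy, ik, hik⟩ := exists_pl hx0 hφ0
  refine ⟨y, ik, hik, ?_⟩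
  obtain ⟨rd, hrd⟩ : ∃ rd : RD K n A (Fin a) (Fin p) Empty Unit,
      rd = ⟨v, Q, i, j, fun e => e.elim, fun e => e.elim, fun _ => Q0⟩ := ⟨_, rfl⟩
  have hW := Wsp_le_rows F dg D C x y i0 ik rd (by rw [hrd]; exact hv)
  have hD'row : D' ≤ Submodule.span K (row1 F dg D C x y i0 ik rd ''
        {κ | rk (Sum.inr κ : Ri C (Fin a) (Fin p) Empty Unit) < 2}) := by
    rw [hD']
    refine sup_le hW ?_
    rw [Submodule.span_le]
    rintro _ (⟨a, rfl⟩ | ⟨a, rfl⟩)
    · dsimp only
      rw [hbQ a]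
      exact Submodule.subset_span ⟨some (Sum.inr (Sum.inl (Sum.inl a))), by simp [rk],
        by rw [hrd]; rfl⟩
    · dsimp only
      rw [hbQ a]
      exact Submodule.subset_span ⟨some (Sum.inr (Sum.inl (Sum.inr a))), by simp [rk],
        by rw [hrd]; rfl⟩
  have h1 := global_ineq hdat hxC hxb hi0' hik rd (fun b => by rw [hrd]; exact (hQ b).1)
    (fun b => b.elim) (fun b => by rw [hrd]; exact hQ0.1) (fun b => by rw [hrd]; exact (hQ b).2)
    (fun b => b.elim) (fun b => by rw [hrd]; exact hQ0.2) hP (by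
      intro t m hmx hmy
      refine hD'row ?_
      rw [hrd]
      exact hφker ⟨m, mem_Mx.2 hmx⟩ (by rw [hy]; exact hmy)) (by
      rw [Fintype.card_fin, Fintype.card_fin, Fintype.card_empty, Fintype.card_unit]
      omega) (by
      obtain ⟨m1, hm1⟩ : ∃ m1 : Mx x, (m1 : Fin (n + 1) → K) =
        (pl x y ik)⁻¹ • pm x ik.1 ik.2 := ⟨⟨_, mem_Mx.2 (pm_x x y ik)⟩, rfl⟩
      have hφ1 : φ m1 = 1 := by rw [hy, hm1, pm_y x y hik]
      have h2 : bmap D x Q0 m1 ∉ D' := by
        intro h2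
        have h3 := hψD _ h2
        rw [← hφ, hφ1] at h3
        exact one_ne_zero h3
      rw [← compl_one hD'T (by omega) (hmemT m1) h2]
      refine sup_le (hD'row.trans (Submodule.span_mono (Set.image_subset_range _ _))) ?_
      rw [Submodule.span_le, Set.singleton_subset_iff]
      refine Submodule.subset_span ⟨some (Sum.inr (Sum.inr (Sum.inr ()))), ?_⟩
      rw [hrd, bmap_apply, hm1]
      rfl)
  rw [Fintype.card_fin, Fintype.card_empty, Fintype.card_unit] at h1
  rw [Nat.cast_zero, sub_zero, Nat.cast_one, one_mul] at h1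
  exact h1

/-- The second case. -/
theorem case_line (hdat : DataL k F dg D e g) {C : Finset A} {x : Fin (n + 1) → K}
    (hxC : ∀ c ∈ C, eval x (F c) = 0) (hxb : ∀ b, b ∉ C → eval x (F b) ≠ 0)
    (hP : PlOK dg D e F C x)
    {y : Fin (n + 1) → K} {ik : Fin (n + 1) × Fin (n + 1)} (hik : pl x y ik ≠ 0) {j r : ℕ}
    (hj : Module.finrank K (Wsp F D x) + j = Module.finrank K (Vl F dg D x y))
    (hr : C.card + Module.finrank K (Vl F dg D x y) + r = n + 1) :
    (((∑ a, dg a : ℕ) : ℤ) - ((n + 1 + r : ℕ) : ℤ)) * pht k x +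
      ((r : ℤ) - j) * fht k (pl x y) ≤ CL n A e g := by
  classical
  have hx0 : x ≠ 0 := by
    rintro rfl
    apply hik
    simp [pl]
  obtain ⟨i0, hi0⟩ := Function.ne_iff.1 hx0
  have hi0' : x i0 ≠ 0 := hi0
  have hker := TC_finrank hdat.hom hdat.dual hxC hx0
  obtain ⟨a, v, ha, hv⟩ := exists_wa F D hx0
  have him := im_top hdat.pos hdat.hom hdat.dual hxC hxb hx0
  -- the forms that vanish on the line
  obtain ⟨w1, hw1⟩ : ∃ w1 : CS K n dg × Fin (n + 1) × Fin (n + 1) × Fin (n + 1) →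
      Fin (n + 1) → K, ∀ q, w1 q = vq D x (q.1 : Fam K n A) (tm (pl x y) q.2) := ⟨_, fun _ => rfl⟩
  have hV1 : Wsp F D x ⊔ Submodule.span K (Set.range w1) = Vl F dg D x y := by
    unfold Vl
    refine le_antisymm (sup_le le_sup_left ?_) (sup_le le_sup_left ?_)
    · rw [Submodule.span_le]
      rintro _ ⟨q, rfl⟩
      rw [hw1]
      exact Submodule.mem_sup_right (Submodule.subset_span
        ⟨_, _, q.1.2.1, (sum_tm x y _).1, (sum_tm x y _).2, rfl⟩)
    · rw [Submodule.span_le]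
      rintro _ ⟨Q, m, hQ, hmx, hmy, rfl⟩
      refine vq_mem_of_nat D x _ (fun Q' hQ' => Submodule.mem_sup_right ?_) hQ
      rw [span_tm hik hmx hmy, map_sum]
      refine sum_mem fun c _ => ?_
      rw [map_smul]
      refine Submodule.smul_mem _ _ (Submodule.subset_span ⟨(⟨Q', hQ'⟩, (ik.1, ik.2, c)), ?_⟩)
      rw [hw1]
  obtain ⟨v1, hv1⟩ := sel w1 j (Wsp F D x) (by rw [hV1, hj])
  rw [hV1] at hv1
  -- the other forms
  obtain ⟨w2, hw2⟩ : ∃ w2 : CS K n dg → Fin (n + 1) → K,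
      ∀ q, w2 q = vq D x (q : Fam K n A) ((pl x y ik)⁻¹ • pm x ik.1 ik.2) := ⟨_, fun _ => rfl⟩
  have hV2 : Vl F dg D x y ⊔ Submodule.span K (Set.range w2) = TC F C x := by
    refine le_antisymm (sup_le (sup_le (Wsp_le hdat.pos hdat.hom hdat.dual hxC) ?_) ?_) ?_
    · rw [Submodule.span_le]
      rintro _ ⟨Q, m, hQ, hmx, hmy, rfl⟩
      exact vq_mem_TC hdat.pos hdat.hom hdat.dual hxC hQ hmx
    · rw [Submodule.span_le]
      rintro _ ⟨q, rfl⟩
      rw [hw2]
      exact vq_mem_TC hdat.pos hdat.hom hdat.dual hxC q.2.1 (pm_x x y ik)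
    · rw [← him]
      refine sup_le (imB_le ?_) (le_sup_left.trans le_sup_left)
      rintro b ⟨Q, hQ, rfl⟩ m -
      have hmx := mem_Mx.1 m.2
      obtain ⟨s, hs⟩ : ∃ s, s = ∑ l, (m : Fin (n + 1) → K) l * y l := ⟨_, rfl⟩
      have h1 : (m : Fin (n + 1) → K) = s • ((pl x y ik)⁻¹ • pm x ik.1 ik.2) +
          ((m : Fin (n + 1) → K) - s • ((pl x y ik)⁻¹ • pm x ik.1 ik.2)) := by abel
      rw [bmap_apply, h1, map_add, map_smul]
      refine add_mem (Submodule.mem_sup_right (Submodule.smul_mem _ _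
        (Submodule.subset_span ⟨⟨Q, hQ⟩, hw2 _⟩))) (Submodule.mem_sup_left
        (Submodule.mem_sup_right (Submodule.subset_span ⟨Q, _, hQ.1, ?_, ?_, rfl⟩)))
      · simp only [Pi.sub_apply, sub_mul, Finset.sum_sub_distrib]
        rw [hmx, zero_sub, neg_eq_zero]
        have h2 := pm_x x y ik
        simp only [Pi.smul_apply s, smul_eq_mul, mul_assoc] at h2 ⊢
        rw [← Finset.mul_sum]
        simp only [Pi.smul_apply, smul_eq_mul, mul_assoc] at h2 ⊢
        rw [h2, mul_zero]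
      · simp only [Pi.sub_apply, sub_mul, Finset.sum_sub_distrib]
        rw [← hs, sub_eq_zero]
        have h2 := pm_y x y hik
        simp only [Pi.smul_apply s, smul_eq_mul, mul_assoc] at h2 ⊢
        rw [← Finset.mul_sum]
        simp only [Pi.smul_apply, smul_eq_mul, mul_assoc] at h2 ⊢
        rw [h2, mul_one]
  obtain ⟨v2, hv2⟩ := sel w2 r (Vl F dg D x y) (by rw [hV2]; omega)
  rw [hV2] at hv2
  obtain ⟨rd, hrd⟩ : ∃ rd : RD K n A (Fin a) Empty (Fin j) (Fin r),
      rd = ⟨v, fun e => e.elim, fun e => e.elim, fun e => e.elim, fun u => (v1 u).1,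
        fun u => (v1 u).2, fun t => v2 t⟩ := ⟨_, rfl⟩
  have hW := Wsp_le_rows F dg D C x y i0 ik rd (by rw [hrd]; exact hv)
  have hVrow : Vl F dg D x y ≤ Submodule.span K (row1 F dg D C x y i0 ik rd ''
        {κ | rk (Sum.inr κ : Ri C (Fin a) Empty (Fin j) (Fin r)) < 2}) := by
    rw [← hv1]
    refine sup_le hW ?_
    rw [Submodule.span_le]
    rintro _ ⟨u, rfl⟩
    rw [Function.comp_apply, hw1]
    exact Submodule.subset_span ⟨some (Sum.inr (Sum.inr (Sum.inl u))), by simp [rk],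
      by rw [hrd]; rfl⟩
  have h1 := global_ineq hdat hxC hxb hi0' hik rd (fun b => b.elim)
    (fun u => by rw [hrd]; exact (v1 u).1.2.1) (fun t => by rw [hrd]; exact (v2 t).2.1)
    (fun b => b.elim)
    (fun u => by rw [hrd]; exact (v1 u).1.2.2) (fun t => by rw [hrd]; exact (v2 t).2.2) hP (by
      intro t m hmx hmy
      refine hVrow (Submodule.mem_sup_right (Submodule.subset_span ⟨_, m, ?_, hmx, hmy, rfl⟩))
      rw [hrd]
      exact (v2 t).2.1) (by
      rw [Fintype.card_fin, Fintype.card_fin, Fintype.card_empty, Fintype.card_fin]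
      omega) (by
      rw [← hv2]
      refine sup_le (hVrow.trans (Submodule.span_mono (Set.image_subset_range _ _))) ?_
      rw [Submodule.span_le]
      rintro _ ⟨t, rfl⟩
      rw [Function.comp_apply, hw2]
      exact Submodule.subset_span ⟨some (Sum.inr (Sum.inr (Sum.inr t))), by rw [hrd]; rfl⟩)
  rw [Fintype.card_fin, Fintype.card_empty, Fintype.card_fin, add_zero] at h1
  exact h1

end cases

end Pool.Agent.Y741
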