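import Pool.Agent.Y741.LimX

/-!
Lines that meet the boundary in few points.
-/

set_option autoImplicit false

open MvPolynomial FF Pool.Agent.W603.LV Pool.Agent.W603.PV Pool.Agent.W602.RG Pool.Agent.TH145.GH
open Pool.Agent.TH145.GC (Gen)
open Pool.Agent.Y735 (rho eval_rho rho_X pl fht rho_deg)

namespace Pool.Agent.Y741

variable {K : Type} [Field K] {n : ℕ} {A : Type}

section

variable [Fintype A] [DecidableEq A]

/-- The boundary on the line through `x` and `y`. -/
noncomputable def bdy (F : Fam K n A) (C : Finset A) (x y : Fin (n + 1) → K) : Polynomial K :=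
  ∏ b ∈ Cᶜ, rho x y (F b)

/-- The boundary meets the line through `x` and `y` in at most `r` points. -/
def Pun (r : ℕ) (F : Fam K n A) (C : Finset A) (x y : Fin (n + 1) → K) : Prop :=
  ∃ (t : Fin r → K) (m : Fin r → ℕ), bdy F C x y =
    Polynomial.C (∏ b ∈ Cᶜ, eval x (F b)) * ∏ i, (Polynomial.X - Polynomial.C (t i)) ^ m i

/-- The point lies on a line on the variety that meets the boundary in at most `r` points. -/
def Exc (r : ℕ) (F : Fam K n A) (C : Finset A) (x : Fin (n + 1) → K) : Prop :=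
  ∃ (y : Fin (n + 1) → K) (ik : Fin (n + 1) × Fin (n + 1)), pl x y ik ≠ 0 ∧
    OnL F C x y ∧ Pun r F C x y

theorem pun_of_one [Infinite K] {r : ℕ} (hr : 1 ≤ r) {F : Fam K n A} {dg : A → ℕ} {C : Finset A}
    {x y : Fin (n + 1) → K} (h : One F dg C x y) : Pun r F C x y := by
  obtain ⟨t0, h⟩ := one_iff_rho.1 h
  refine ⟨fun _ => t0, fun i => if i = ⟨0, by omega⟩ then ∑ b ∈ Cᶜ, dg b else 0, ?_⟩
  unfold bdy
  rw [Finset.prod_congr rfl fun b hb => h b (Finset.mem_compl.1 hb), Finset.prod_mul_distrib,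
    map_prod, Finset.prod_pow_eq_pow_sum, Finset.prod_pow_eq_pow_sum, Finset.sum_ite_eq',
    if_pos (Finset.mem_univ _)]

theorem bdy_map {L Ω : Type} [Field L] [Field Ω] (ψ : L →+* Ω) (F : Fam L n A) (C : Finset A)
    (x y : Fin (n + 1) → L) :
    bdy (mapF ψ F) C (fun j => ψ (x j)) (fun j => ψ (y j)) = (bdy F C x y).map ψ := by
  unfold bdy
  rw [Polynomial.map_prod]
  refine Finset.prod_congr rfl fun b _ => ?_
  unfold mapF
  rw [rho_map]

theorem pun_map {L Ω : Type} [Field L] [Field Ω] (ψ : L →+* Ω) {r : ℕ} {F : Fam L n A}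
    {C : Finset A} {x y : Fin (n + 1) → L} (h : Pun r F C x y) :
    Pun r (mapF ψ F) C (fun j => ψ (x j)) (fun j => ψ (y j)) := by
  obtain ⟨t, m, h⟩ := h
  refine ⟨fun i => ψ (t i), m, ?_⟩
  rw [bdy_map, h, Polynomial.map_mul, Polynomial.map_C, Polynomial.map_prod, map_prod]
  congr 1
  · congr 1
    refine Finset.prod_congr rfl fun b _ => ?_
    unfold mapF
    rw [eval_mapF]
  · refine Finset.prod_congr rfl fun i _ => ?_
    rw [Polynomial.map_pow, Polynomial.map_sub, Polynomial.map_X, Polynomial.map_C]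

theorem exc_map {L Ω : Type} [Field L] [Infinite L] [Field Ω] [Infinite Ω] (ψ : L →+* Ω)
    {r : ℕ} {F : Fam L n A} {dg : A → ℕ} (hF : ∀ a, (F a).IsHomogeneous (dg a))
    {C : Finset A} {x : Fin (n + 1) → L} (hxC : ∀ c ∈ C, eval x (F c) = 0)
    (h : Exc r F C x) : Exc r (mapF ψ F) C (fun j => ψ (x j)) := by
  obtain ⟨y, ik, hik, h1, h2⟩ := h
  refine ⟨fun j => ψ (y j), ik, ?_, (onL_mapF ψ hF hxC).2 h1, pun_map ψ h2⟩
  rw [pl_map]
  dsimp only
  rwa [Ne, map_eq_zero]

/-- The number of the roots. -/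
theorem pun_of_card [IsAlgClosed K] {r : ℕ} {F : Fam K n A} {C : Finset A}
    {x y : Fin (n + 1) → K} (hlc : (bdy F C x y).leadingCoeff = ∏ b ∈ Cᶜ, eval x (F b))
    (h0 : bdy F C x y ≠ 0) {s0 : Finset K} (hs0 : ∀ a, (bdy F C x y).eval a = 0 → a ∈ s0)
    (h : s0.card ≤ r) : Pun r F C x y := by
  classical
  obtain ⟨f, hf⟩ : ∃ f, f = bdy F C x y := ⟨_, rfl⟩
  rw [← hf] at hlc h0 hs0
  obtain ⟨s, hs⟩ : ∃ s, s = f.roots.toFinset := ⟨_, rfl⟩
  have hss : s ⊆ s0 := by
    intro a ha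
    rw [hs, Multiset.mem_toFinset, Polynomial.mem_roots h0] at ha
    exact hs0 a ha
  replace h := (Finset.card_le_card hss).trans h
  have h1 : f = Polynomial.C f.leadingCoeff * (f.roots.map fun a =>
      Polynomial.X - Polynomial.C a).prod :=
    (IsAlgClosed.splits f).eq_prod_roots
  have h2 : (f.roots.map fun a => Polynomial.X - Polynomial.C a).prod =
      ∏ a ∈ s, (Polynomial.X - Polynomial.C a) ^ f.roots.count a := by
    rw [Finset.prod_multiset_map_count, hs]
  obtain ⟨t0⟩ : Nonempty K := ⟨0⟩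
  let e := s.equivFin
  obtain ⟨G, hG⟩ : ∃ G : Fin r → Polynomial K, ∀ j, G j =
    (Polynomial.X - Polynomial.C (if hi : j.1 < s.card then (e.symm ⟨j.1, hi⟩ : K) else t0)) ^
        (if hi : j.1 < s.card then f.roots.count (e.symm ⟨j.1, hi⟩ : K) else 0) := ⟨_, fun _ => rfl⟩
  refine ⟨fun i => if hi : i.1 < s.card then (e.symm ⟨i.1, hi⟩ : K) else t0,
    fun i => if hi : i.1 < s.card then f.roots.count (e.symm ⟨i.1, hi⟩ : K) else 0, ?_⟩
  rw [← hf, ← hlc]
  conv_lhs => rw [h1, h2]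
  congr 1
  rw [← Finset.prod_coe_sort, ← Equiv.prod_comp e.symm]
  have h3 : ∀ i : Fin s.card, (Polynomial.X - Polynomial.C ((e.symm i : s) : K)) ^
      f.roots.count ((e.symm i : s) : K) = G (Fin.castLEEmb h i) := by
    intro i
    have h4 : (Fin.castLEEmb h i).1 < s.card := i.2
    rw [hG, dif_pos h4, dif_pos h4]
    rfl
  rw [Finset.prod_congr rfl fun i _ => h3 i, ← Finset.prod_map Finset.univ (Fin.castLEEmb h) G]
  refine (Finset.prod_subset (Finset.subset_univ _) fun j _ hj => ?_).trans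
    (Finset.prod_congr rfl fun j _ => hG j)
  have h5 : ¬ j.1 < s.card := by
    intro h5
    apply hj
    rw [Finset.mem_map]
    exact ⟨⟨j.1, h5⟩, Finset.mem_univ _, rfl⟩
  rw [hG, dif_neg h5, dif_neg h5, pow_zero]

end

end Pool.Agent.Y741
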