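import Pool.Agent.Y741.ExcH

/-!
The exceptional lines of a generic pair.
-/

set_option autoImplicit false

open MvPolynomial FF Pool.Agent.W603.LV Pool.Agent.W603.PV Pool.Agent.W602.RG Pool.Agent.TH145.GH
open Pool.Agent.TH145.GC (Gen Rt Cf finite_cf exists_big indep_scale)
open Pool.Agent.Y735 (rho eval_rho rho_X pl fht rho_deg Two card_le_adjoin coeff_rho_mem H_descend)
open LinearAlgebra.Projectivization

namespace Pool.Agent.Y741

section rhoD

/-- The data of a line that meets the boundary in at most two points, by polynomials. -/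
def RhoD {Ω : Type} [Field Ω] {n : ℕ} {A : Type} (F : Fam Ω n A) (dg : A → ℕ) (C : Finset A)
    (x y : Fin (n + 1) → Ω) (e : A → Ω) (m0 m1 : A → ℕ) (t0 t1 : Ω) : Prop :=
  (∀ c ∈ C, eval x (F c) = 0 ∧ rho x y (F c) = 0) ∧
    ∀ b, b ∉ C → m0 b + m1 b = dg b ∧ e b = eval x (F b) ∧ rho x y (F b) =
      Polynomial.C (e b) * ((Polynomial.X - Polynomial.C t0) ^ m0 b *
        (Polynomial.X - Polynomial.C t1) ^ m1 b)

variable {Ω : Type} [Field Ω] {n : ℕ} {A : Type}

theorem RhoD.excD {F : Fam Ω n A} {dg : A → ℕ} (hF : ∀ a, (F a).IsHomogeneous (dg a))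
    {C : Finset A} {x y : Fin (n + 1) → Ω} {e : A → Ω} {m0 m1 : A → ℕ} {t0 t1 : Ω}
    (h : RhoD F dg C x y e m0 m1 t0 t1) : ExcD F C x y e m0 m1 t0 t1 := by
  have hcomb : ∀ a a' : Ω, a' ≠ 0 → a • x + a' • y = a' • ((a / a') • x + y) := by
    intro a a' ha'
    rw [smul_add, smul_smul, mul_div_cancel₀ _ ha']
  refine ⟨fun c hc a a' => ?_, fun b hb a a' => ?_⟩
  · by_cases ha' : a' = 0
    · rw [ha', zero_smul, add_zero, eval_smul_hom (hF c), (h.1 c hc).1, mul_zero]
    · rw [hcomb a a' ha', eval_smul_hom (hF c), ← eval_rho, (h.1 c hc).2, Polynomial.eval_zero,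
        mul_zero]
  · obtain ⟨h1, h2, h3⟩ := h.2 b hb
    by_cases ha' : a' = 0
    · rw [ha', zero_smul, add_zero, eval_smul_hom (hF b), mul_zero, sub_zero, mul_zero, sub_zero,
        ← pow_add, h1, h2, mul_comm]
    · rw [hcomb a a' ha', eval_smul_hom (hF b), ← eval_rho, h3]
      simp only [Polynomial.eval_mul, Polynomial.eval_pow, Polynomial.eval_sub, Polynomial.eval_C,
        Polynomial.eval_X]
      have h4 : a - t0 * a' = a' * (a / a' - t0) := by field_simp
      have h5 : a - t1 * a' = a' * (a / a' - t1) := by field_simp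
      rw [h4, h5, mul_pow, mul_pow, ← h1, pow_add]
      ring

theorem RhoD.map {Ω' : Type} [Field Ω'] (ψ : Ω →+* Ω') {F : Fam Ω n A} {dg : A → ℕ}
    {C : Finset A} {x y : Fin (n + 1) → Ω} {e : A → Ω} {m0 m1 : A → ℕ} {t0 t1 : Ω}
    (h : RhoD F dg C x y e m0 m1 t0 t1) {G : Fam Ω' n A} {u : A → Ω'}
    (hG : ∀ a, G a = MvPolynomial.C (u a) * map ψ (F a)) :
    RhoD G dg C (fun j => ψ (x j)) (fun j => ψ (y j)) (fun b => u b * ψ (e b)) m0 m1 (ψ t0)
      (ψ t1) := by
  have hr : ∀ a, rho (fun j => ψ (x j)) (fun j => ψ (y j)) (G a) =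
      Polynomial.C (u a) * (rho x y (F a)).map ψ := by
    intro a
    rw [hG, map_mul, rho_map]
    congr 1
    rw [rho, aeval_C]
    rfl
  have he : ∀ a, eval (fun j => ψ (x j)) (G a) = u a * ψ (eval x (F a)) := by
    intro a
    rw [hG, map_mul, eval_C, eval_mapF]
  refine ⟨fun c hc => ⟨?_, ?_⟩, fun b hb => ?_⟩
  · rw [he, (h.1 c hc).1, map_zero, mul_zero]
  · rw [hr, (h.1 c hc).2, Polynomial.map_zero, mul_zero]
  · obtain ⟨h1, h2, h3⟩ := h.2 b hb
    refine ⟨h1, ?_, ?_⟩
    · rw [he, ← h2]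
    · rw [hr, h3]
      simp only [Polynomial.map_mul, Polynomial.map_pow, Polynomial.map_sub, Polynomial.map_X,
        Polynomial.map_C, map_mul]
      ring

end rhoD

section lines

variable {K : Type} [Field K] {n : ℕ} {A : Type}

theorem exists_two {K : Type} (d : K) {S : Set K} (h : S.encard ≤ 2) :
    ∃ t0 t1 : K, ∀ t ∈ S, t = t0 ∨ t = t1 := by
  classical
  by_contra hcon
  push Not at hcon
  obtain ⟨a, ha, -, -⟩ := hcon d d
  obtain ⟨b, hb, hba, -⟩ := hcon a a
  obtain ⟨c, hc, hca, hcb⟩ := hcon a b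
  have h1 : ({a, b, c} : Set K) ⊆ S := by
    rintro t (rfl | rfl | rfl)
    · exact ha
    · exact hb
    · exact hc
  have h2 := Set.encard_le_encard h1
  rw [Set.encard_insert_of_notMem, Set.encard_insert_of_notMem, Set.encard_singleton] at h2
  · have h3 := h2.trans h
    norm_num at h3
  · rw [Set.mem_singleton_iff]
    exact hcb.symm
  · rintro (h3 | h3)
    · exact hba h3.symm
    · exact hca (Set.mem_singleton_iff.1 h3).symm

theorem exists_pair_of_mem {W : Submodule K (Fin (n + 1) → K)} (hW : Module.finrank K W = 2)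
    {x : Fin (n + 1) → K} (hx0 : x ≠ 0) :
    ∃ y ∈ W, LinearIndependent K ![x, y] := by
  by_contra hcon
  push Not at hcon
  have h1 : W ≤ Submodule.span K {x} := by
    intro y hy
    have h2 := hcon y hy
    rw [LinearIndependent.pair_iff] at h2
    push Not at h2
    obtain ⟨a, b, hab, hne⟩ := h2
    have hb : b ≠ 0 := by
      rintro rfl
      rw [zero_smul, add_zero] at hab
      exact hne ((smul_eq_zero.1 hab).resolve_right hx0) rfl
    rw [Submodule.mem_span_singleton]
    refine ⟨-(a / b), ?_⟩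
    have h3 : b • y = (-a) • x := by
      rw [neg_smul]
      exact eq_neg_of_add_eq_zero_right hab
    rw [← inv_smul_smul₀ hb y, h3, smul_smul]
    congr 1
    field_simp
  have h2 := Submodule.finrank_mono h1
  rw [finrank_span_singleton hx0] at h2
  omega

theorem pts_infinite [Infinite K] {W : Submodule K (Fin (n + 1) → K)}
    (hW : Module.finrank K W = 2) : (Pts W).Infinite := by
  obtain ⟨x, hx, hx0⟩ : ∃ x ∈ W, x ≠ 0 := by
    by_contra hcon
    push Not at hcon
    have : W = ⊥ := (Submodule.eq_bot_iff _).2 hcon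
    rw [this, finrank_bot] at hW
    omega
  obtain ⟨y, hy, hli⟩ := exists_pair_of_mem hW hx0
  refine Set.infinite_of_injective_forall_mem
    (f := fun t : K => Projectivization.mk K (t • x + y) (comb_ne hli t)) ?_ fun t => ?_
  · intro s t hst
    obtain ⟨a, ha⟩ := (Projectivization.mk_eq_mk_iff' K _ _ _ _).1 hst
    have h1 : (a * t - s) • x + (a - 1) • y = 0 := by
      rw [sub_smul, sub_smul, mul_smul, one_smul]
      have h2 : a • t • x + a • y = s • x + y := by rw [← smul_add]; exact ha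
      linear_combination (exp := 1) h2
    rw [LinearIndependent.pair_iff] at hli
    obtain ⟨h2, h3⟩ := hli _ _ h1
    have h4 : a = 1 := sub_eq_zero.1 h3
    rw [h4, one_mul] at h2
    exact (sub_eq_zero.1 h2).symm
  · have h1 : Projectivization.mk K (Projectivization.mk K (t • x + y) (comb_ne hli t)).rep
        (Projectivization.rep_nonzero _) = Projectivization.mk K (t • x + y) (comb_ne hli t) :=
      Projectivization.mk_rep _
    obtain ⟨a, ha⟩ := (Projectivization.mk_eq_mk_iff' K _ _ _ _).1 h1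
    change (Projectivization.mk K (t • x + y) (comb_ne hli t)).rep ∈ W
    rw [← ha]
    exact W.smul_mem _ (W.add_mem (W.smul_mem _ hx) hy)

theorem pl_of_li {x y : Fin (n + 1) → K} (h : LinearIndependent K ![x, y]) :
    ∃ i j, pl x y (i, j) ≠ 0 := by
  by_contra hcon
  push Not at hcon
  obtain ⟨l, hl⟩ : ∃ l, x l ≠ 0 := by
    by_contra hc
    push Not at hc
    have : x = 0 := funext hc
    exact (LinearIndependent.ne_zero (i := 0) h) (by simpa using this)
  have h1 : (-(y l)) • x + x l • y = 0 := by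
    funext i
    have := hcon i l
    have h2 : pl x y (i, l) = x i * y l - x l * y i := rfl
    rw [h2] at this
    simp only [Pi.add_apply, Pi.smul_apply, smul_eq_mul, Pi.zero_apply]
    linear_combination -this
  rw [LinearIndependent.pair_iff] at h
  exact hl (h _ _ h1).2

/-- The data of an exceptional line. -/
theorem exists_rhoD' [IsAlgClosed K] [Fintype A] [DecidableEq A] {F : Fam K n A} {dg : A → ℕ}
    (hF : ∀ a, (F a).IsHomogeneous (dg a)) {C : Finset A}
    {W : Submodule K (Fin (n + 1) → K)} (hW : IsLine F C W) (hB : (Pts W ∩ Bd F C).encard ≤ 2)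
    {x : Fin (n + 1) → K} (hx : x ∈ W) (hx0 : x ≠ 0) (hxb : ∀ b, b ∉ C → eval x (F b) ≠ 0) :
    ∃ (y : Fin (n + 1) → K) (i j : Fin (n + 1)) (e : A → K) (m0 m1 : A → Fin (∑ a, dg a + 1))
      (t0 t1 : K), y ∈ W ∧ pl x y (i, j) ≠ 0 ∧
      RhoD F dg C x y e (fun a => m0 a) (fun a => m1 a) t0 t1 := by
  classical
  have hinf : Infinite K := IsAlgClosed.instInfinite
  obtain ⟨y, hy, hli⟩ := exists_pair_of_mem hW.1 hx0
  obtain ⟨i, j, hij⟩ := pl_of_li hli
  have hinj : Function.Injective fun t : K =>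
      Projectivization.mk K (t • x + y) (comb_ne hli t) := by
    intro s t hst
    obtain ⟨a, ha⟩ := (Projectivization.mk_eq_mk_iff' K _ _ _ _).1 hst
    have h1 : (a * t - s) • x + (a - 1) • y = 0 := by
      rw [sub_smul, sub_smul, mul_smul, one_smul]
      have h2 : a • t • x + a • y = s • x + y := by rw [← smul_add]; exact ha
      linear_combination (exp := 1) h2
    rw [LinearIndependent.pair_iff] at hli
    obtain ⟨h2, h3⟩ := hli _ _ h1
    have h4 : a = 1 := sub_eq_zero.1 h3
    rw [h4, one_mul] at h2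
    exact (sub_eq_zero.1 h2).symm
  have hrep : ∀ (v : Fin (n + 1) → K) (hv : v ≠ 0), ∃ a : K,
      (Projectivization.mk K v hv).rep = a • v := by
    intro v hv
    obtain ⟨a, ha⟩ := (Projectivization.mk_eq_mk_iff' K _ _ _ _).1
      (Projectivization.mk_rep (Projectivization.mk K v hv))
    exact ⟨a, ha.symm⟩
  obtain ⟨t0, t1, ht⟩ := exists_two (0 : K) (S := {t | ∃ b, b ∉ C ∧ eval (t • x + y) (F b) = 0})
    (by
      rw [← hinj.encard_image]
      refine (Set.encard_le_encard ?_).trans hB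
      rintro _ ⟨t, ⟨b, hb, htb⟩, rfl⟩
      obtain ⟨a, ha⟩ := hrep (t • x + y) (comb_ne hli t)
      refine ⟨?_, b, hb, ?_⟩
      · change (Projectivization.mk K (t • x + y) (comb_ne hli t)).rep ∈ W
        rw [ha]
        exact W.smul_mem _ (W.add_mem (W.smul_mem _ hx) hy)
      · dsimp only
        rw [ha, eval_smul_hom (hF b), htb, mul_zero])
  have hsp : ∀ b, ∃ m0 m1 : Fin (∑ a, dg a + 1), b ∉ C → (m0 : ℕ) + m1 = dg b ∧
      rho x y (F b) = Polynomial.C (eval x (F b)) * ((Polynomial.X - Polynomial.C t0) ^ (m0 : ℕ) *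
        (Polynomial.X - Polynomial.C t1) ^ (m1 : ℕ)) := by
    intro b
    by_cases hb : b ∈ C
    · exact ⟨0, 0, fun h => absurd hb h⟩
    · have h1 := rho_top x y (hF b)
      have h2 : (rho x y (F b)).natDegree = dg b := by
        refine le_antisymm (rho_deg x y (hF b)) (Polynomial.le_natDegree_of_ne_zero ?_)
        rw [h1]
        exact hxb b hb
      have h3 : (rho x y (F b)).leadingCoeff = eval x (F b) := by
        rw [← Polynomial.coeff_natDegree, h2, h1]
      have h4 : rho x y (F b) ≠ 0 := by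
        intro h0
        rw [h0, Polynomial.coeff_zero] at h1
        exact hxb b hb h1.symm
      obtain ⟨m0, m1, hm, hmm⟩ := split_two t0 t1 _ _ h2 h4 fun a ha => ht a ⟨b, hb, by
        rw [← eval_rho]
        exact ha⟩
      have h5 : dg b ≤ ∑ a, dg a := Finset.single_le_sum (f := dg) (fun _ _ => Nat.zero_le _)
        (Finset.mem_univ b)
      refine ⟨⟨m0, by omega⟩, ⟨m1, by omega⟩, fun _ => ⟨hm, ?_⟩⟩
      rw [← h3]
      exact hmm
  choose m0 m1 hm using hsp
  refine ⟨y, i, j, fun b => eval x (F b), m0, m1, t0, t1, hy, hij, fun c hc => ⟨hW.2 c hc x hx, ?_⟩,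
    fun b hb => ⟨(hm b hb).1, rfl, (hm b hb).2⟩⟩
  apply Polynomial.funext
  intro t
  rw [eval_rho, Polynomial.eval_zero]
  exact hW.2 c hc _ (W.add_mem (W.smul_mem _ hx) hy)

/-- The data of an exceptional line. -/
theorem exists_rhoD [IsAlgClosed K] [Fintype A] [DecidableEq A] {F : Fam K n A} {dg : A → ℕ}
    (hF : ∀ a, (F a).IsHomogeneous (dg a)) {C : Finset A}
    {W : Submodule K (Fin (n + 1) → K)} (hW : IsLine F C W) (hB : (Pts W ∩ Bd F C).encard ≤ 2)
    {x : Fin (n + 1) → K} (hx : x ∈ W) (hx0 : x ≠ 0) (hxb : ∀ b, b ∉ C → eval x (F b) ≠ 0) :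
    ∃ (y : Fin (n + 1) → K) (i j : Fin (n + 1)) (e : A → K) (m0 m1 : A → Fin (∑ a, dg a + 1))
      (t0 t1 : K), pl x y (i, j) ≠ 0 ∧
      RhoD F dg C x y e (fun a => m0 a) (fun a => m1 a) t0 t1 := by
  obtain ⟨y, i, j, e, m0, m1, t0, t1, -, h1, h2⟩ := exists_rhoD' hF hW hB hx hx0 hxb
  exact ⟨y, i, j, e, m0, m1, t0, t1, h1, h2⟩

end lines

end Pool.Agent.Y741
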