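import Pool.Agent.Y741.ExcF

/-!
The exceptional lines of a generic pair: there are none in large degree, and otherwise they lie in
a proper closed subset.
-/

set_option autoImplicit false

open MvPolynomial FF Pool.Agent.W603.LV Pool.Agent.W603.PV Pool.Agent.W602.RG Pool.Agent.TH145.GH
open Pool.Agent.TH145.GC (Gen Rt Cf finite_cf exists_big indep_scale)
open Pool.Agent.Y735 (rho eval_rho rho_X pl fht rho_deg Two card_le_adjoin coeff_rho_mem)
open LinearAlgebra.Projectivization

namespace Pool.Agent.Y741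

/-- A polynomial over the base field. -/
theorem H_descend' {K Ω : Type} [Field K] [Field Ω] [Algebra K Ω] {m : ℕ}
    {H : MvPolynomial (Fin m) Ω} (hH : H ≠ 0) :
    ∃ H0 : MvPolynomial (Fin m) K, H0 ≠ 0 ∧ ∀ x : Fin m → K,
      eval (fun j => algebraMap K Ω (x j)) H = 0 → eval x H0 = 0 := by
  classical
  obtain ⟨u, hu⟩ := ne_zero_iff.1 hH
  obtain ⟨φ, hφ⟩ : ∃ φ : Module.Dual K Ω, φ (H.coeff u) ≠ 0 := by
    by_contra hcon
    push Not at hcon
    exact hu ((Module.forall_dual_apply_eq_zero_iff K _).1 hcon)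
  obtain ⟨H0, hH0⟩ : ∃ H0 : MvPolynomial (Fin m) K, ∀ v, H0.coeff v = φ (H.coeff v) := by
    refine ⟨∑ v ∈ H.support, monomial v (φ (H.coeff v)), fun v => ?_⟩
    rw [coeff_sum]
    simp only [coeff_monomial]
    rw [Finset.sum_ite_eq']
    split_ifs with h
    · rfl
    · rw [notMem_support_iff.1 h, map_zero]
  refine ⟨H0, ?_, fun x hx => ?_⟩
  · rintro rfl
    apply hφ
    rw [← hH0, coeff_zero]
  · have h1 : eval x H0 = φ (eval (fun j => algebraMap K Ω (x j)) H) := by
      have hsub : H0.support ⊆ H.support := by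
        intro v hv
        rw [mem_support_iff] at hv ⊢
        intro h
        rw [hH0, h, map_zero] at hv
        exact hv rfl
      rw [eval_eq', eval_eq', map_sum, Finset.sum_subset hsub]
      · refine Finset.sum_congr rfl fun v _ => ?_
        rw [hH0]
        have h2 : H.coeff v * ∏ i, algebraMap K Ω (x i) ^ v i =
            (∏ i, x i ^ v i) • H.coeff v := by
          rw [Algebra.smul_def, map_prod, mul_comm]
          simp only [map_pow]
        rw [h2, map_smul, smul_eq_mul, mul_comm]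
      · intro v _ hv
        rw [notMem_support_iff.1 hv, zero_mul]
    rw [h1, hx, map_zero]

/-- A form that vanishes on a cone. -/
theorem homog_of_cone {K : Type} [Field K] [Infinite K] {m : ℕ} {E : Set (Fin m → K)}
    (hE : ∀ v ∈ E, ∀ t : K, t ≠ 0 → t • v ∈ E) {G : MvPolynomial (Fin m) K} (hG0 : G ≠ 0)
    (hG : ∀ v ∈ E, eval v G = 0) : ∃ (H : MvPolynomial (Fin m) K) (e : ℕ), H ≠ 0 ∧
      H.IsHomogeneous e ∧ ∀ v ∈ E, eval v H = 0 := by
  classical
  obtain ⟨e, he⟩ : ∃ e, homogeneousComponent e G ≠ 0 := by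
    by_contra hcon
    push Not at hcon
    apply hG0
    rw [← sum_homogeneousComponent G]
    exact Finset.sum_eq_zero fun e _ => hcon e
  refine ⟨homogeneousComponent e G, e, he, homogeneousComponent_isHomogeneous e G, fun v hv => ?_⟩
  obtain ⟨R, hR⟩ : ∃ R : Polynomial K, R = ∑ i ∈ Finset.range (G.totalDegree + 1),
    Polynomial.monomial i (eval v (homogeneousComponent i G)) := ⟨_, rfl⟩
  have hR0 : Polynomial.X * R = 0 := by
    apply Polynomial.funext
    intro t
    rw [Polynomial.eval_mul, Polynomial.eval_X, Polynomial.eval_zero]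
    by_cases ht : t = 0
    · rw [ht, zero_mul]
    · have h1 := hG _ (hE v hv t ht)
      rw [← sum_homogeneousComponent G, map_sum] at h1
      have h3 : Polynomial.eval t R = 0 := by
        rw [← h1, hR, Polynomial.eval_finsetSum]
        refine Finset.sum_congr rfl fun i _ => ?_
        rw [Polynomial.eval_monomial]
        have h4 : ∀ (m : ℕ) (p : MvPolynomial (Fin m) K) (e : ℕ), p.IsHomogeneous e →
            ∀ v : Fin m → K, eval (t • v) p = t ^ e * eval v p := by
          intro m p e hp v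
          rw [eval_eq', eval_eq', Finset.mul_sum]
          refine Finset.sum_congr rfl fun u hu => ?_
          have h5 : ∏ i, (t • v) i ^ u i = t ^ e * ∏ i, v i ^ u i := by
            have h6 : ∑ i, u i = e := by
              have := hp (mem_support_iff.1 hu)
              rwa [Finsupp.weight_apply, Finsupp.sum_fintype _ _ (by simp)] at this
                |> fun h => by simpa using h
            rw [← h6, ← Finset.prod_pow_eq_pow_sum, ← Finset.prod_mul_distrib]
            exact Finset.prod_congr rfl fun i _ => by rw [Pi.smul_apply, smul_eq_mul, mul_pow]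
          rw [h5]; ring
        rw [h4 _ _ i (homogeneousComponent_isHomogeneous i G), mul_comm]
      rw [h3, mul_zero]
  have hR1 : R = 0 := (mul_eq_zero.1 hR0).resolve_left Polynomial.X_ne_zero
  by_cases hee : e < G.totalDegree + 1
  · have h1 := congrArg (fun q => Polynomial.coeff q e) hR1
    simp only [hR, Polynomial.finsetSum_coeff, Polynomial.coeff_monomial, Polynomial.coeff_zero]
      at h1
    rw [Finset.sum_ite_eq', if_pos (Finset.mem_range.2 hee)] at h1
    exact h1
  · exact absurd (homogeneousComponent_eq_zero e G (by omega)) he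

variable {k K : Type} [Field k] [Field K] [IsAlgClosed K] [CharZero K] [Algebra k K]
  {n : ℕ} {A : Type} [Fintype A] [DecidableEq A] {d : A → ℕ}

omit [IsAlgClosed K] [DecidableEq A] in
/-- Scaling of the forms. -/
theorem exists_scaled' (F : A → MvPolynomial (Fin (n + 1)) K) (hF : ∀ a, (F a).IsHomogeneous (d a))
    (I0 : A → Fin (n + 1) →₀ ℕ) (h0 : ∀ a, (F a).coeff (I0 a) ≠ 0)
    (hind : AlgebraicIndependent k fun p : Rt d I0 =>
      (F p.1).coeff p.2.1 / (F p.1).coeff (I0 p.1)) :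
    ∃ (K' : Type) (_ : Field K') (_ : Algebra K K') (_ : Algebra k K') (_ : IsScalarTower k K K')
      (_ : Infinite K')
      (u : A → K') (G : Fam K' n A), (∀ a, G a = MvPolynomial.C (u a) *
        map (algebraMap K K') (F a)) ∧ (∀ a, (G a).IsHomogeneous (d a)) ∧
      AlgebraicIndependent k fun p : Cf n d => (G p.1).coeff p.2.1 := by
  classical
  obtain ⟨K', i1, i2, hK', hc, t, ht⟩ := exists_big K A
  let i3 : Algebra k K' := ((algebraMap K K').comp (algebraMap k K)).toAlgebra
  have hst : IsScalarTower k K K' := IsScalarTower.of_algebraMap_eq fun _ => rfl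
  have hI0 : ∀ a, (I0 a).degree = d a := fun a =>
    deg_of_mem (hF a) (mem_support_iff.2 (h0 a))
  have h1 := indep_scale (k0 := k) (K' := K') F I0 hI0 h0 hind ht
  obtain ⟨G, hG⟩ : ∃ G : A → MvPolynomial (Fin (n + 1)) K', ∀ a, G a =
    MvPolynomial.C (t a / algebraMap K K' ((F a).coeff (I0 a))) * map (algebraMap K K') (F a) :=
    ⟨_, fun _ => rfl⟩
  refine ⟨K', i1, i2, i3, hst, IsAlgClosed.instInfinite, _, G, hG, fun a => ?_, ?_⟩
  · have := (isHomogeneous_C (Fin (n + 1)) (t a / algebraMap K K' ((F a).coeff (I0 a)))).mul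
      ((hF a).map (algebraMap K K'))
    rwa [zero_add, ← hG] at this
  · have h4 : (fun p : Cf n d => (G p.1).coeff p.2.1) =
        fun p => t p.1 / algebraMap K K' ((F p.1).coeff (I0 p.1)) *
          algebraMap K K' ((F p.1).coeff p.2.1) := by
      funext p
      rw [hG, coeff_C_mul, coeff_map]
    rw [h4]
    exact h1

omit [IsAlgClosed K] [DecidableEq A] in
/-- Scaling of the forms. -/
theorem exists_scaled (F : A → MvPolynomial (Fin (n + 1)) K) (hF : ∀ a, (F a).IsHomogeneous (d a))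
    (I0 : A → Fin (n + 1) →₀ ℕ) (h0 : ∀ a, (F a).coeff (I0 a) ≠ 0)
    (hind : AlgebraicIndependent k fun p : Rt d I0 =>
      (F p.1).coeff p.2.1 / (F p.1).coeff (I0 p.1)) :
    ∃ (K' : Type) (_ : Field K') (_ : Algebra K K') (_ : Algebra k K') (_ : Infinite K')
      (u : A → K') (G : Fam K' n A), (∀ a, G a = MvPolynomial.C (u a) *
        map (algebraMap K K') (F a)) ∧ (∀ a, (G a).IsHomogeneous (d a)) ∧
      AlgebraicIndependent k fun p : Cf n d => (G p.1).coeff p.2.1 := by
  obtain ⟨K', i1, i2, i3, -, i4, h⟩ := exists_scaled' F hF I0 h0 hind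
  exact ⟨K', i1, i2, i3, i4, h⟩

omit [CharZero K] [Fintype A] [DecidableEq A] in
/-- A point of a line outside of the boundary. -/
theorem exists_off {F : A → MvPolynomial (Fin (n + 1)) K} {C : Finset A}
    {W : Submodule K (Fin (n + 1) → K)} (hW : IsLine F C W) (hB : (Pts W ∩ Bd F C).encard ≤ 2) :
    ∃ x ∈ W, x ≠ 0 ∧ ∀ b, b ∉ C → eval x (F b) ≠ 0 := by
  have hinf : Infinite K := IsAlgClosed.instInfinite
  have h1 : (Pts W ∩ Bd F C).Finite := by
    rw [← Set.encard_lt_top_iff]
    exact hB.trans_lt (ENat.natCast_lt_top 2)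
  have h2 := (pts_infinite hW.1).sdiff h1
  obtain ⟨p, hp, hp2⟩ := h2.nonempty
  refine ⟨p.rep, hp, p.rep_nonzero, fun b hb h0 => hp2 ⟨hp, b, hb, h0⟩⟩

/-- There are no exceptional lines in large degree. -/
theorem no_exc_line (C : Finset A) (hd : 2 * n + 1 ≤ ∑ a, d a + C.card)
    (F : A → MvPolynomial (Fin (n + 1)) K) (hF : ∀ a, (F a).IsHomogeneous (d a))
    (I0 : A → Fin (n + 1) →₀ ℕ) (h0 : ∀ a, (F a).coeff (I0 a) ≠ 0)
    (hind : AlgebraicIndependent k fun p : Rt d I0 =>
      (F p.1).coeff p.2.1 / (F p.1).coeff (I0 p.1))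
    (W : Submodule K (Fin (n + 1) → K)) (hW : IsLine F C W) :
    ¬ (Pts W ∩ Bd F C).encard ≤ 2 := by
  intro hB
  obtain ⟨x, hx, hx0, hxb⟩ := exists_off hW hB
  obtain ⟨y, i, j, e, m0, m1, t0, t1, hij, hR⟩ := exists_rhoD hF hW hB hx hx0 hxb
  obtain ⟨K', _, _, _, _, u, G, hG, hGh, hGi⟩ := exists_scaled F hF I0 h0 hind
  have h1 := (hR.map (algebraMap K K') hG).excD hGh
  have h2 := line_count' (k := k) hGh (x := fun l => algebraMap K K' (x l))
    (y := fun l => algebraMap K K' (y l)) (i := i) (j := j) (by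
      rw [pl_map]
      dsimp only
      rwa [Ne, map_eq_zero]) _ _ _ _ _ h1.1 h1.2 (fun l : Fin 0 => Fin.elim0 l) (by
      have h3 : AlgebraicIndependent K' (fun l : Fin 0 =>
          (fun l => algebraMap K K' (x l)) (Fin.elim0 l)) := algebraicIndependent_empty_type
      exact hGi.sumElim_comp h3)
  have h3 := h2.2 inferInstance
  omega

/-- The exceptional lines lie in a proper closed subset. -/
theorem exists_H_exc (C : Finset A) (hd : n + 2 ≤ ∑ a, d a)
    (F : A → MvPolynomial (Fin (n + 1)) K) (hF : ∀ a, (F a).IsHomogeneous (d a))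
    (I0 : A → Fin (n + 1) →₀ ℕ) (h0 : ∀ a, (F a).coeff (I0 a) ≠ 0)
    (hind : AlgebraicIndependent k fun p : Rt d I0 =>
      (F p.1).coeff p.2.1 / (F p.1).coeff (I0 p.1)) :
    ∃ (H : MvPolynomial (Fin (n + 1 - C.card)) K) (e : ℕ), H ≠ 0 ∧ H.IsHomogeneous e ∧
      ∀ W, IsLine F C W → (Pts W ∩ Bd F C).encard ≤ 2 → ∀ p ∈ Pts W, p ∉ Bd F C →
        eval (fun l => p.rep (Fin.castLE (Nat.sub_le _ _) l)) H = 0 := by
  classical
  have hinf : Infinite K := IsAlgClosed.instInfinite
  obtain ⟨K', _, _, _, _, u, G, hG, hGh, hGi⟩ := exists_scaled F hF I0 h0 hind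
  choose H hH hHx using fun (ij : Fin (n + 1) × Fin (n + 1))
    (m : (A → Fin (∑ a, d a + 1)) × (A → Fin (∑ a, d a + 1))) =>
    exists_H_type (k := k) (N := n + 1 - C.card) hGh (C := C) (Nat.sub_le _ _) (by omega) hGi
      ij.1 ij.2 (fun a => m.1 a) (fun a => m.2 a)
  obtain ⟨H1, hH1⟩ : ∃ H1, H1 = ∏ ij, ∏ m, H ij m := ⟨_, rfl⟩
  have hH10 : H1 ≠ 0 := by
    rw [hH1]
    exact Finset.prod_ne_zero_iff.2 fun ij _ => Finset.prod_ne_zero_iff.2 fun m _ => hH ij m
  obtain ⟨H2, hH20, hH2⟩ := H_descend' (K := K) hH10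
  obtain ⟨H3, e, hH30, hH3e, hH3⟩ := homog_of_cone (E := {v | ∃ W, IsLine F C W ∧
      (Pts W ∩ Bd F C).encard ≤ 2 ∧ ∃ x ∈ W, x ≠ 0 ∧ (∀ b, b ∉ C → eval x (F b) ≠ 0) ∧
        v = fun l => x (Fin.castLE (Nat.sub_le _ _) l)}) (by
    rintro v ⟨W, hW, hB, x, hx, hx0, hxb, rfl⟩ t ht
    refine ⟨W, hW, hB, t • x, W.smul_mem _ hx, smul_ne_zero ht hx0, fun b hb => ?_, rfl⟩
    rw [eval_smul_hom (hF b)]
    exact mul_ne_zero (pow_ne_zero _ ht) (hxb b hb)) hH20 (by
    rintro v ⟨W, hW, hB, x, hx, hx0, hxb, rfl⟩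
    apply hH2
    obtain ⟨y, i, j, e, m0, m1, t0, t1, hij, hR⟩ := exists_rhoD hF hW hB hx hx0 hxb
    have h1 := (hR.map (algebraMap K K') hG).excD hGh
    rw [hH1, map_prod]
    refine Finset.prod_eq_zero (Finset.mem_univ (i, j)) ?_
    rw [map_prod]
    refine Finset.prod_eq_zero (Finset.mem_univ (m0, m1)) ?_
    refine hHx (i, j) (m0, m1) (fun l => algebraMap K K' (x l)) (fun l => algebraMap K K' (y l))
      _ _ _ ?_ h1
    rw [pl_map]
    dsimp only
    rwa [Ne, map_eq_zero])
  refine ⟨H3, e, hH30, hH3e, fun W hW hB p hp hpB => ?_⟩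
  exact hH3 _ ⟨W, hW, hB, p.rep, hp, p.rep_nonzero, fun b hb h0 => hpB ⟨b, hb, h0⟩, rfl⟩

end Pool.Agent.Y741
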