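import Pool.Agent.Y741.FinV

/-!
Finiteness over a finitely generated ring.
-/

set_option autoImplicit false

open MvPolynomial FF Pool.Agent.W603.LV Pool.Agent.W603.PV Pool.Agent.W602.RG Pool.Agent.TH145.GH
open Pool.Agent.TH145.GC (Gen Cf finite_cf)
open Pool.Agent.Y735 (rho eval_rho rho_X pl fht rho_deg fht_nonneg)

namespace Pool.Agent.Y741

variable {k0 K ι : Type} [Field k0] [Field K] [Algebra k0 K] [IsAlgClosed K] [CharZero K]
  {y : ι → K} (E : IntermediateField (IntermediateField.adjoin k0 (Set.range y)) K)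

/-- The integral points lie on finitely many lines. -/
theorem fin_V {n r : ℕ} {A : Type} [Fintype A] [DecidableEq A] {dg : A → ℕ} [IsAlgClosed k0]
    [Finite ι] (hpos : ∀ a, 0 < dg a)
    (hy : IsTranscendenceBasis k0 y)
    [FiniteDimensional (IntermediateField.adjoin k0 (Set.range y)) E]
    [IsGalois (IntermediateField.adjoin k0 (Set.range y)) E]
    {F : A → MvPolynomial (Fin (n + 1)) E.toSubfield}
    {DE : A → (Fin (n + 1) →₀ ℕ) → E.toSubfield → E.toSubfield}
    (hG : Gen F dg DE)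
    (D : A → (Fin (n + 1) →₀ ℕ) → Derivation ℤ K K)
    (hDE : ∀ a I (x : E.toSubfield), D a I x = (DE a I x : K))
    (hDk : ∀ a I (r : k0), D a I (algebraMap k0 K r) = 0)
    (hDy : ∀ a I j, ∃ r : k0, D a I (y j) = algebraMap k0 K r) (hcm : Comm D) {C : Finset A}
    (hn : 1 ≤ n) (hr : 1 ≤ r)
    (hC : ∃ b, b ∉ C) (hd : 3 * n + 3 ≤ 2 * ∑ a, dg a + C.card) (hM : LineM n A dg C r)
    (l0 : Fin (n + 1)) (T : Finset K) (hT : ∀ t ∈ T, t ∈ E) :
    Few {x : Fin (n + 1) → K | (∀ j, x j ∈ E) ∧ x l0 = 1 ∧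
      (∀ a ∈ C, eval x (map E.toSubfield.subtype (F a)) = 0) ∧
      (∀ a, a ∉ C → eval x (map E.toSubfield.subtype (F a)) ≠ 0) ∧
      (∀ a, a ∉ C → ∀ j, x j ^ dg a / eval x (map E.toSubfield.subtype (F a)) ∈
        Subring.closure (Set.range (algebraMap k0 K) ∪ (T : Set K))) ∧
      ¬ Exc r (fun a => map E.toSubfield.subtype (F a)) C x} := by
  by_contra hinf
  obtain ⟨x, hxS, hx3⟩ := exists_seq hinf
  have hxE : ∀ n j, x n j ∈ E := fun n j => (hxS n).1 j
  have hxl : ∀ n, x n l0 = 1 := fun n => (hxS n).2.1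
  have hxC : ∀ n, ∀ a ∈ C, eval (x n) (map E.toSubfield.subtype (F a)) = 0 := fun n =>
    (hxS n).2.2.1
  have hxF : ∀ n a, a ∉ C → eval (x n) (map E.toSubfield.subtype (F a)) ≠ 0 := fun n =>
    (hxS n).2.2.2.1
  have hxs : ∀ n a, a ∉ C → ∀ j,
      x n j ^ dg a / eval (x n) (map E.toSubfield.subtype (F a)) ∈
      Subring.closure (Set.range (algebraMap k0 K) ∪ (T : Set K)) := fun n =>
    (hxS n).2.2.2.2.1
  have hxX : ∀ n, ¬ Exc r (fun a => map E.toSubfield.subtype (F a)) C (x n) := fun n =>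
    (hxS n).2.2.2.2.2
  have hcE : Subring.closure (Set.range (algebraMap k0 K) ∪ (T : Set K)) ≤
      E.toSubfield.toSubring := by
    rw [Subring.closure_le]
    rintro w (⟨r, rfl⟩ | hw)
    · exact k0_mem E r
    · exact hT w hw
  obtain ⟨s, hs⟩ : ∃ s : ℕ → A → Fin (n + 1) → E, ∀ n a, a ∉ C → ∀ j, (s n a j : K) =
      x n j ^ dg a / eval (x n) (map E.toSubfield.subtype (F a)) := by
    classical
    refine ⟨fun n a j => if ha : a ∉ C then ⟨_, hcE (hxs n a ha j)⟩ else 0, fun n a ha j => ?_⟩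
    simp only [dif_pos ha]
  choose B hB using fun i => heights_V E hpos hy.1 hG D hDE hDk hDy hcm hn hr hC hd hM l0 T hT i
  have hB' : ∀ n i j, hgt (kap k0 y i) (⟨x n j, subset_LL y _ i (hxE n j)⟩ :
        LL k0 y (E : Set K) i) ≤ B i ∧ ∀ a, a ∉ C →
      hgt (kap k0 y i) (⟨(s n a j : K), subset_LL y _ i (s n a j).2⟩ :
        LL k0 y (E : Set K) i) ≤ B i := fun n i j =>
    hB i (fun j => ⟨x n j, hxE n j⟩) (s n) (Subtype.ext (hxl n)) (hxC n) (hxF n)
      (hs n) (fun a ha j => by rw [hs n a ha j]; exact hxs n a ha j) (hxX n) j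
  have hz : ∀ j, Om.mk (fun n => x n j) ∈ OE k0 ((E.toSubfield : Subfield K) : Set K) := fun j =>
    lim_mem E hy (fun n => ⟨x n j, hxE n j⟩) B fun n i => (hB' n i j).1
  have hev : ∀ a, eval (fun j => Om.mk fun n => x n j) (FOm F a) =
      Om.mk fun n => eval (x n) (map E.toSubfield.subtype (F a)) := fun a => eval_mk (F a) x
  have hczK : CharZero K := inferInstance
  have hlim := limit_V E.toSubfield (fun r => k0_mem E r) hG hpos D hDE hDk hcm hn hC hd
    (fun j => Om.mk fun n => x n j) hz (l0 := l0) (by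
      have h1 : (fun n => x n l0) = fun _ => 1 := funext hxl
      rw [h1]; rfl) (fun a ha => by
      rw [hev]
      have h1 : (fun n => eval (x n) (map E.toSubfield.subtype (F a))) = fun _ => 0 :=
        funext fun n => hxC n a ha
      rw [h1]; rfl) (fun a ha => by
      rw [hev]
      intro h0
      have h1 : (Om.mk fun n => eval (x n) (map E.toSubfield.subtype (F a))) = Om.mk fun _ => 0 :=
        h0
      rw [Om.mk_eq] at h1
      obtain ⟨n, hn⟩ := h1.exists
      exact hxF n a ha hn) (fun a ha j => by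
      have h1 := lim_int E hy T (fun n => s n a j) (fun n => by
        rw [hs n a ha j]; exact hxs n a ha j) B fun n i => (hB' n i j).2 a ha
      have h2 : (Om.mk fun n => x n j) ^ dg a /
          eval (fun j => Om.mk fun n => x n j) (FOm F a) =
          Om.mk fun n => (s n a j : K) := by
        have h3 : (fun n => (s n a j : K)) = fun n =>
            x n j ^ dg a / eval (x n) (map E.toSubfield.subtype (F a)) :=
          funext fun n => hs n a ha j
        rw [hev, h3, ← Om.mk_div]
        congr 1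
      rw [h2]
      exact h1)
  rcases hlim with h | h | h
  · obtain ⟨y', ik, hik, h1, h2⟩ := h
    obtain ⟨m, hm⟩ := exc_mk hr hG.hom x hxC hik h1 h2
    exact hxX m hm
  · choose a ha using fun j => eventually_const (h j)
    refine no_line hxl hx3 (W := Submodule.span K {a, a}) (finrank_pair _ _) ?_
    refine (Filter.eventually_all.2 ha).mono fun m hm => ?_
    have h1 : x m = a := funext hm
    rw [h1]
    exact Submodule.subset_span (Set.mem_insert _ _)
  · obtain ⟨y', ik, hik, h1⟩ := h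
    obtain ⟨W, hW, hW2⟩ := ev_line x hik h1
    exact no_line hxl hx3 hW hW2

end Pool.Agent.Y741
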