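import Pool.Agent.Y741.ExcG
import Pool.Agent.Y735.Lines
import Pool.Agent.H952R2.Sextic.CommonZero

/-!
A closed subset given by a form in few of the variables is a proper subset of a generic complete
intersection.
-/

set_option autoImplicit false

open MvPolynomial FF Pool.Agent.W603.LV Pool.Agent.W603.PV Pool.Agent.W602.RG Pool.Agent.TH145.GH
open Pool.Agent.TH145.GC (Gen Rt Cf finite_cf exists_big indep_scale)
open Pool.Agent.Y735 (card_le_adjoin)
open Pool.Agent.H952R2.Sextic (exists_common_zero)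

namespace Pool.Agent.Y741

/-- The number of generic forms that vanish at a point. -/
theorem point_count {k Ω : Type} [Field k] [Field Ω] [Algebra k Ω] {n : ℕ} {A : Type} [Fintype A]
    [DecidableEq A] {d : A → ℕ} {F : Fam Ω n A} (hF : ∀ a, (F a).IsHomogeneous (d a))
    (hind : AlgebraicIndependent k fun p : Cf n d => (F p.1).coeff p.2.1) (C : Finset A)
    {ξ : Fin (n + 1) → Ω} {l : Fin (n + 1)} (hl : ξ l = 1) (hz : ∀ a ∈ C, eval ξ (F a) = 0)
    (Z : Finset Ω) (hZ : ∀ i, ξ i ∈ IntermediateField.adjoin k (Z : Set Ω)) :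
    C.card ≤ Z.card := by
  classical
  have hcf := finite_cf n d
  have hft : Fintype (Cf n d) := Fintype.ofFinite _
  obtain ⟨q, hq⟩ : ∃ q : A → Cf n d, ∀ a, q a = ⟨a, Finsupp.single l (d a),
    Finsupp.degree_single _ _⟩ := ⟨_, fun _ => rfl⟩
  have hqi : Function.Injective q := by
    intro a a' h
    rw [hq, hq] at h
    exact congrArg Sigma.fst h
  obtain ⟨S, hS⟩ : ∃ S : Finset Ω, S = Z ∪ (Finset.univ \ C.image q).image
    fun p : Cf n d => (F p.1).coeff p.2.1 := ⟨_, rfl⟩
  have hmem : ∀ p : Cf n d, p ∉ C.image q →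
      (F p.1).coeff p.2.1 ∈ IntermediateField.adjoin k (S : Set Ω) := by
    intro p hp
    refine IntermediateField.subset_adjoin _ _ ?_
    rw [hS]
    exact Finset.mem_coe.2 (Finset.mem_union_right _ (Finset.mem_image_of_mem _
      (Finset.mem_sdiff.2 ⟨Finset.mem_univ _, hp⟩)))
  have hξ : ∀ i, ξ i ∈ IntermediateField.adjoin k (S : Set Ω) := by
    intro i
    have h1 : IntermediateField.adjoin k (Z : Set Ω) ≤ IntermediateField.adjoin k (S : Set Ω) := by
      refine IntermediateField.adjoin.mono _ _ _ ?_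
      rw [hS, Finset.coe_union]
      exact Set.subset_union_left
    exact h1 (hZ i)
  have hall : ∀ p : Cf n d, (F p.1).coeff p.2.1 ∈ IntermediateField.adjoin k (S : Set Ω) := by
    intro p
    by_cases hp : p ∈ C.image q
    · obtain ⟨a, ha, rfl⟩ := Finset.mem_image.1 hp
      rw [hq]
      dsimp only
      obtain ⟨J, hJ⟩ : ∃ J : Fin (n + 1) →₀ ℕ, J = Finsupp.single l (d a) := ⟨_, rfl⟩
      rw [← hJ]
      by_cases hJs : J ∈ (F a).support
      · have h1 := hz a ha
        rw [eval_eq', ← Finset.add_sum_erase _ _ hJs] at h1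
        have h2 : ∏ i, ξ i ^ J i = 1 := by
          refine Finset.prod_eq_one fun i _ => ?_
          by_cases hi : i = l
          · rw [hi, hl, one_pow]
          · rw [hJ, Finsupp.single_apply, if_neg (fun h => hi h.symm), pow_zero]
        rw [h2, mul_one] at h1
        rw [eq_neg_of_add_eq_zero_left h1]
        refine neg_mem (sum_mem fun I hI => ?_)
        obtain ⟨hIJ, hIs⟩ := Finset.mem_erase.1 hI
        refine mul_mem ?_ (prod_mem fun i _ => pow_mem (hξ i) _)
        refine hmem ⟨a, I, deg_of_mem (hF a) hIs⟩ fun h => ?_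
        obtain ⟨a', -, ha'⟩ := Finset.mem_image.1 h
        rw [hq] at ha'
        have e1 : a' = a := congrArg Sigma.fst ha'
        subst e1
        have e2 := eq_of_heq (Sigma.mk.inj_iff.1 ha').2
        exact hIJ ((congrArg Subtype.val e2).symm.trans hJ.symm)
      · rw [notMem_support_iff.1 hJs]
        exact zero_mem _
    · exact hmem p hp
  have h1 := card_le_adjoin hind S hall
  rw [Nat.card_eq_fintype_card] at h1
  have h2 : S.card ≤ Z.card + (Fintype.card (Cf n d) - C.card) := by
    rw [hS]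
    refine (Finset.card_union_le _ _).trans (add_le_add_right (Finset.card_image_le.trans ?_) _)
    rw [Finset.card_sdiff_of_subset (Finset.subset_univ _), Finset.card_univ,
      Finset.card_image_of_injective _ hqi]
  have h3 : C.card ≤ Fintype.card (Cf n d) := by
    rw [← Finset.card_image_of_injective C hqi]
    exact Finset.card_le_univ _
  omega

section

variable {k K : Type} [Field k] [Field K] [IsAlgClosed K] [CharZero K] [Algebra k K]
  {n : ℕ} {A : Type} [Fintype A] [DecidableEq A] {d : A → ℕ}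

omit [IsAlgClosed K] in
/-- The same for the scaled forms, at points some of whose coordinates are in the small field. -/
theorem point_count' (F : A → MvPolynomial (Fin (n + 1)) K) (hF : ∀ a, (F a).IsHomogeneous (d a))
    (I0 : A → Fin (n + 1) →₀ ℕ) (h0 : ∀ a, (F a).coeff (I0 a) ≠ 0)
    (hind : AlgebraicIndependent k fun p : Rt d I0 =>
      (F p.1).coeff p.2.1 / (F p.1).coeff (I0 p.1)) (C : Finset A)
    {ξ : Fin (n + 1) → K} {l : Fin (n + 1)} (hl : ξ l = 1) (hz : ∀ a ∈ C, eval ξ (F a) = 0)
    (N : Finset (Fin (n + 1))) (hN : ∀ i, i ∉ N → ξ i ∈ Set.range (algebraMap k K)) :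
    C.card ≤ N.card := by
  classical
  obtain ⟨K', _, _, _, _, _, u, G, hG, hGh, hGi⟩ := exists_scaled' F hF I0 h0 hind
  refine (point_count (k := k) hGh hGi C (ξ := fun i => algebraMap K K' (ξ i)) (l := l)
    (by rw [hl, map_one]) (fun a ha => ?_) (N.image fun i => algebraMap K K' (ξ i))
    fun i => ?_).trans Finset.card_image_le
  · rw [hG, map_mul, eval_mapF, hz a ha, map_zero, mul_zero]
  · by_cases hi : i ∈ N
    · exact IntermediateField.subset_adjoin _ _ (Finset.mem_coe.2 (Finset.mem_image_of_mem _ hi))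
    · obtain ⟨c, hc⟩ := hN i hi
      rw [← hc, ← IsScalarTower.algebraMap_apply k K K']
      exact IntermediateField.algebraMap_mem _ c

/-- A form in few variables does not vanish at some point off the boundary. -/
theorem exists_good (hpos : ∀ a, 0 < d a) (C : Finset A) (hCn : C.card ≤ n)
    (F : A → MvPolynomial (Fin (n + 1)) K) (hF : ∀ a, (F a).IsHomogeneous (d a))
    (I0 : A → Fin (n + 1) →₀ ℕ) (h0 : ∀ a, (F a).coeff (I0 a) ≠ 0)
    (hind : AlgebraicIndependent k fun p : Rt d I0 =>
      (F p.1).coeff p.2.1 / (F p.1).coeff (I0 p.1))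
    {H : MvPolynomial (Fin (n + 1 - C.card)) K} (hH : H ≠ 0) :
    ∃ v : Fin (n + 1) → K, (∀ c ∈ C, eval v (F c) = 0) ∧ (∀ b, b ∉ C → eval v (F b) ≠ 0) ∧
      eval (fun l => v (Fin.castLE (Nat.sub_le _ _) l)) H ≠ 0 := by
  classical
  have hkz : CharZero k := by
    refine ⟨fun a b hab => ?_⟩
    have h1 := congrArg (algebraMap k K) hab
    rw [map_natCast, map_natCast] at h1
    exact_mod_cast h1
  have hkinf : Infinite k := Infinite.of_injective (Nat.cast : ℕ → k) Nat.cast_injective
  obtain ⟨m, hm⟩ : ∃ m, m = n + 1 - C.card := ⟨_, rfl⟩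
  have hm0 : 0 < m := by omega
  have hle : n + 1 - C.card ≤ n + 1 := Nat.sub_le _ _
  obtain ⟨z0, hz0⟩ : ∃ z0 : Fin (n + 1 - C.card), z0 = ⟨0, by omega⟩ := ⟨_, rfl⟩
  -- a point with coordinates in the small field
  obtain ⟨x', hx'⟩ : ∃ x' : Fin (n + 1 - C.card) → k,
      eval (fun i => algebraMap k K (x' i)) (H * X z0) ≠ 0 := by
    by_contra hcon
    push Not at hcon
    have h1 : H * X z0 = 0 := by
      refine funext_set (fun _ => Set.range (algebraMap k K))
        (fun _ => Set.infinite_range_of_injective (algebraMap k K).injective) fun x hx => ?_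
      choose x' hx' using fun i => hx i (Set.mem_univ i)
      have h2 : x = fun i => algebraMap k K (x' i) := funext fun i => (hx' i).symm
      rw [h2, hcon x', map_zero]
    exact mul_ne_zero hH (X_ne_zero z0) h1
  rw [map_mul, eval_X] at hx'
  have hxH := left_ne_zero_of_mul hx'
  have hx0 := right_ne_zero_of_mul hx'
  -- the equations on the span
  obtain ⟨w, hw⟩ : ∃ w : (Option (Fin C.card) → K) → Fin (n + 1) → K, ∀ s i, w s i =
    if h : i.val < n + 1 - C.card then s none * algebraMap k K (x' ⟨i.val, h⟩) else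
      s (some ⟨i.val - (n + 1 - C.card), by have := i.2; omega⟩) := ⟨_, fun _ _ => rfl⟩
  obtain ⟨φ, hφ⟩ : ∃ φ : Fin (n + 1) → MvPolynomial (Option (Fin C.card)) K, ∀ i, φ i =
    if h : i.val < n + 1 - C.card then X none * MvPolynomial.C (algebraMap k K (x' ⟨i.val, h⟩))
      else X (some ⟨i.val - (n + 1 - C.card), by have := i.2; omega⟩) := ⟨_, fun _ => rfl⟩
  have hφw : ∀ s i, eval s (φ i) = w s i := by
    intro s i
    rw [hφ, hw]
    split_ifs with h
    · rw [map_mul, eval_X, eval_C]
    · rw [eval_X]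
  have hev : ∀ (s : Option (Fin C.card) → K) (p : MvPolynomial (Fin (n + 1)) K),
      eval s (aeval φ p) = eval (w s) p := by
    intro s p
    induction p using MvPolynomial.induction_on with
    | C a => rw [aeval_C, eval_C, MvPolynomial.algebraMap_eq, eval_C]
    | add p q hp hq => rw [map_add, map_add, map_add, hp, hq]
    | mul_X p i hp => rw [map_mul, map_mul, map_mul, aeval_X, eval_X, hp, hφw]
  have hw0 : w 0 = 0 := by
    funext i
    rw [hw]
    split_ifs
    · simp
    · simp
  obtain ⟨s, hs0, hs⟩ := exists_common_zero (κ := {c // c ∈ C}) (ι := Option (Fin C.card)) (by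
    rw [Fintype.card_coe, Fintype.card_option, Fintype.card_fin]
    omega) (fun c => aeval φ (F c.1)) (fun c => by
      rw [hev, hw0]
      have h5 := eval_smul_hom (hF c.1) (0 : Fin (n + 1) → K) 0
      rw [smul_zero, zero_pow (hpos c.1).ne', zero_mul] at h5
      exact h5)
  have hsC : ∀ c ∈ C, eval (w s) (F c) = 0 := fun c hc => by
    rw [← hev]
    exact hs ⟨c, hc⟩
  -- the indices of the last coordinates
  obtain ⟨N, hN⟩ : ∃ N : Finset (Fin (n + 1)), ∀ i, i ∈ N ↔ ¬ i.val < n + 1 - C.card :=
    ⟨Finset.univ.filter fun i => ¬ i.val < n + 1 - C.card, fun i => by simp⟩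
  have hNc : N.card ≤ C.card := by
    have h1 : (N.image fun i => i.val) ⊆ Finset.Ico (n + 1 - C.card) (n + 1) := by
      intro j hj
      obtain ⟨i, hi, rfl⟩ := Finset.mem_image.1 hj
      have h2 := (hN i).1 hi
      have h3 := i.2
      rw [Finset.mem_Ico]
      omega
    have h2 := Finset.card_le_card h1
    rw [Finset.card_image_of_injective _ Fin.val_injective, Nat.card_Ico] at h2
    omega
  have hsn : s none ≠ 0 := by
    intro hn
    obtain ⟨j, hj⟩ : ∃ j, s (some j) ≠ 0 := by
      by_contra hcon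
      push Not at hcon
      apply hs0
      funext o
      cases o with
      | none => exact hn
      | some j => exact hcon j
    obtain ⟨l, hl⟩ : ∃ l : Fin (n + 1), l = ⟨j.val + (n + 1 - C.card), by have := j.2; omega⟩ :=
      ⟨_, rfl⟩
    have hlN : l ∈ N := by
      rw [hN, hl]
      dsimp only
      omega
    have hlv : l.val = j.val + (n + 1 - C.card) := by rw [hl]
    have hwl : w s l = s (some j) := by
      rw [hw, dif_neg ((hN l).1 hlN)]
      congr 2
      ext
      change l.val - (n + 1 - C.card) = j.val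
      omega
    have h1 := point_count' F hF I0 h0 hind C (ξ := (w s l)⁻¹ • w s) (l := l) (by
      rw [Pi.smul_apply, smul_eq_mul, inv_mul_cancel₀ (by rw [hwl]; exact hj)]) (fun c hc => by
      rw [eval_smul_hom (hF c), hsC c hc, mul_zero]) (N.erase l) (fun i hi => by
      by_cases hil : i = l
      · rw [hil, Pi.smul_apply, smul_eq_mul, inv_mul_cancel₀ (by rw [hwl]; exact hj)]
        exact ⟨1, map_one _⟩
      · have h2 : i ∉ N := fun h => hi (Finset.mem_erase.2 ⟨hil, h⟩)
        rw [hN, not_not] at h2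
        have h3 : w s i = 0 := by rw [hw, dif_pos h2, hn, zero_mul]
        rw [Pi.smul_apply, h3, smul_zero]
        exact ⟨0, map_zero _⟩)
    rw [Finset.card_erase_of_mem hlN] at h1
    have h2 := Finset.card_pos.2 ⟨l, hlN⟩
    omega
  obtain ⟨v, hv⟩ : ∃ v : Fin (n + 1) → K, v = (s none)⁻¹ • w s := ⟨_, rfl⟩
  have hvl : ∀ i (h : i.val < n + 1 - C.card), v i = algebraMap k K (x' ⟨i.val, h⟩) := by
    intro i h
    rw [hv, Pi.smul_apply, smul_eq_mul, hw, dif_pos h, inv_mul_cancel_left₀ hsn]
  have hvC : ∀ c ∈ C, eval v (F c) = 0 := fun c hc => by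
    rw [hv, eval_smul_hom (hF c), hsC c hc, mul_zero]
  refine ⟨v, hvC, fun b hb h1 => ?_, ?_⟩
  · obtain ⟨l, hl⟩ : ∃ l : Fin (n + 1), l = ⟨0, by omega⟩ := ⟨_, rfl⟩
    have hlt : l.val < n + 1 - C.card := by
      rw [hl]
      dsimp only
      omega
    have hvl0 : v l ≠ 0 := by
      rw [hvl l hlt]
      have h2 : (⟨l.val, hlt⟩ : Fin (n + 1 - C.card)) = z0 := by
        rw [hz0]
        ext
        change l.val = 0
        rw [hl]
      rw [h2]
      exact hx0
    have h2 := point_count' F hF I0 h0 hind (insert b C) (ξ := (v l)⁻¹ • v) (l := l) (by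
      rw [Pi.smul_apply, smul_eq_mul, inv_mul_cancel₀ hvl0]) (fun c hc => by
      rw [eval_smul_hom (hF c)]
      rcases Finset.mem_insert.1 hc with rfl | hc
      · rw [h1, mul_zero]
      · rw [hvC c hc, mul_zero]) N (fun i hi => by
      rw [hN, not_not] at hi
      rw [Pi.smul_apply, smul_eq_mul, hvl i hi, hvl l hlt]
      exact ⟨(x' ⟨l.val, hlt⟩)⁻¹ * x' ⟨i.val, hi⟩, by rw [map_mul, map_inv₀]⟩)
    rw [Finset.card_insert_of_notMem hb] at h2
    omega
  · have h1 : (fun l : Fin (n + 1 - C.card) => v (Fin.castLE (Nat.sub_le _ _) l)) =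
        fun i => algebraMap k K (x' i) := by
      funext i
      exact hvl (Fin.castLE (Nat.sub_le _ _) i) i.2
    rw [h1]
    exact hxH

end

end Pool.Agent.Y741
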