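import Pool.Agent.Y741.Conv
import Pool.Agent.Y741.LogSub
import Pool.Agent.Y741.Proper

/-!
Integral points on generic pairs: assembly.
-/

set_option autoImplicit false

open MvPolynomial FF Pool.Agent.W603.PV Pool.Agent.W602.GT Pool.Agent.TH145.MG
open LinearAlgebra.Projectivization

namespace Pool.Agent.Y741

/-- The values of a form at proportional points. -/
theorem eval_smul_fin {K : Type} [Field K] {m e : ℕ} {G : MvPolynomial (Fin m) K}
    (hG : G.IsHomogeneous e) (z : Fin m → K) (r : K) : eval (r • z) G = r ^ e * eval z G := by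
  classical
  rw [eval_eq', eval_eq', Finset.mul_sum]
  refine Finset.sum_congr rfl fun I hI => ?_
  have h10 : ∑ i, I i = e := by
    have := hG (mem_support_iff.1 hI)
    rwa [Finsupp.weight_apply, Finsupp.sum_fintype _ _ (by simp)] at this
      |> fun h => by simpa using h
  have h11 : ∏ i, (r • z) i ^ I i = r ^ e * ∏ i, z i ^ I i := by
    rw [← h10, ← Finset.prod_pow_eq_pow_sum, ← Finset.prod_mul_distrib]
    exact Finset.prod_congr rfl fun i _ => by rw [Pi.smul_apply, smul_eq_mul, mul_pow]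
  rw [h11]
  ring

section

variable {k K : Type} [Field k] [Field K] [IsAlgClosed K] [CharZero K] [Algebra k K] {n : ℕ}
  {A : Type} [Fintype A] [DecidableEq A] {d : A → ℕ}

/-- The exceptional locus is a proper closed subset. -/
theorem exists_H_proper (hpos : ∀ a, 0 < d a) (C : Finset A) (hb : ∃ b, b ∉ C)
    (hd : 3 * n + 3 ≤ 2 * ∑ a, d a + C.card) (hCn : C.card ≤ n)
    (F : A → MvPolynomial (Fin (n + 1)) K) (hF : ∀ a, (F a).IsHomogeneous (d a))
    (I0 : A → Fin (n + 1) →₀ ℕ) (h0 : ∀ a, (F a).coeff (I0 a) ≠ 0)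
    (hind : AlgebraicIndependent k fun p : Pool.Agent.TH145.GC.Rt d I0 =>
      (F p.1).coeff p.2.1 / (F p.1).coeff (I0 p.1)) :
    ∃ (H : MvPolynomial (Fin (n + 1)) K) (e : ℕ), H.IsHomogeneous e ∧
      (∃ v, (∀ c ∈ C, eval v (F c) = 0) ∧ (∀ b, b ∉ C → eval v (F b) ≠ 0) ∧ eval v H ≠ 0) ∧
      ∀ W, (IsLine F C W ∧ (Pts W ∩ Bd F C).encard ≤ 2) →
        ∀ v ∈ W, (∀ b, b ∉ C → eval v (F b) ≠ 0) → eval v H = 0 := by
  classical
  obtain ⟨H, e, hH0, hHe, hH⟩ : ∃ (H : MvPolynomial (Fin (n + 1 - C.card)) K) (e : ℕ), H ≠ 0 ∧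
      H.IsHomogeneous e ∧ ∀ W, IsLine F C W → (Pts W ∩ Bd F C).encard ≤ 2 →
        ∀ p ∈ Pts W, p ∉ Bd F C →
          eval (fun l => p.rep (Fin.castLE (Nat.sub_le _ _) l)) H = 0 := by
    by_cases hC : C.card < n
    · exact exists_H_exc C (by omega) F hF I0 h0 hind
    · have h1 : Fintype.card A ≤ ∑ a, d a := by
        rw [← Finset.card_univ, Finset.card_eq_sum_ones]
        exact Finset.sum_le_sum fun a _ => hpos a
      obtain ⟨b, hb⟩ := hb
      have h2 : C.card < Fintype.card A := by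
        rw [← Finset.card_univ]
        exact Finset.card_lt_card ((Finset.ssubset_univ_iff).2 fun h => hb (by
          rw [h]; exact Finset.mem_univ _))
      refine ⟨1, 0, one_ne_zero, isHomogeneous_one _ _, fun W hW hB => ?_⟩
      exact absurd hB (no_exc_line C (by omega) F hF I0 h0 hind W hW)
  obtain ⟨v, hv1, hv2, hv3⟩ := exists_good hpos C hCn F hF I0 h0 hind hH0
  refine ⟨rename (Fin.castLE (Nat.sub_le _ _)) H, e, hHe.rename_isHomogeneous,
    ⟨v, hv1, hv2, by rw [eval_rename]; exact hv3⟩, fun W hW v hv hvb => ?_⟩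
  rw [eval_rename]
  obtain ⟨b, hb⟩ := hb
  have hv0 : v ≠ 0 := by
    rintro rfl
    apply hvb b hb
    have h5 := Pool.Agent.TH145.GH.eval_smul_hom (hF b) (0 : Fin (n + 1) → K) 0
    rw [smul_zero, zero_pow (hpos b).ne', zero_mul] at h5
    exact h5
  obtain ⟨p, hp⟩ : ∃ p, p = Projectivization.mk K v hv0 := ⟨_, rfl⟩
  obtain ⟨u, hu⟩ := Projectivization.exists_smul_eq_mk_rep K v hv0
  rw [← hp] at hu
  have hu0 : (u : K) ≠ 0 := u.ne_zero
  have hu' : p.rep = (u : K) • v := hu.symm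
  have h6 := hH W hW.1 hW.2 p (by
    change p.rep ∈ W
    rw [hu']
    exact W.smul_mem _ hv) (by
    rintro ⟨b', hb', h7⟩
    rw [hu', Pool.Agent.TH145.GH.eval_smul_hom (hF b')] at h7
    exact mul_ne_zero (pow_ne_zero _ hu0) (hvb b' hb') h7)
  have h7 : (fun l => p.rep (Fin.castLE (Nat.sub_le _ _) l)) = (u : K) •
      (fun l : Fin (n + 1 - C.card) => v (Fin.castLE (Nat.sub_le _ _) l)) := by
    funext l
    rw [hu']
    rfl
  rw [h7, eval_smul_fin hHe] at h6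
  exact (mul_eq_zero.1 h6).resolve_left (pow_ne_zero _ hu0)

/-- Integral points on generic pairs. -/
theorem generic_pairs (hn : 1 ≤ n) (hd0 : ∀ a, 0 < d a) (C : Finset A) (hC : C ≠ Finset.univ)
    (hd : 3 * n + 3 ≤ 2 * ∑ a, d a + C.card)
    (F : A → MvPolynomial (Fin (n + 1)) K) (hF : ∀ a, (F a).IsHomogeneous (d a))
    (I0 : ∀ a, {I : Fin (n + 1) →₀ ℕ // I.degree = d a}) (h0 : ∀ a, (F a).coeff (I0 a).1 ≠ 0)
    (hgen : AlgebraicIndependent k
      fun p : (a : A) × {I : {I : Fin (n + 1) →₀ ℕ // I.degree = d a} // I ≠ I0 a} =>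
        (F p.1).coeff p.2.1.1 / (F p.1).coeff (I0 p.1).1) :
    (∀ (T : Finset K) (R : Subring K), R ≤ Subring.closure (T : Set K) →
      {p | p ∈ RPts F d C R ∧
        ¬ ∃ W, (IsLine F C W ∧ (Pts W ∩ Bd F C).encard ≤ 2) ∧ p.rep ∈ W}.Finite) ∧
    (∀ W, (IsLine F C W ∧ (Pts W ∩ Bd F C).encard ≤ 2) → ∃ T : Finset K,
      {p | p ∈ RPts F d C (Subring.closure (T : Set K)) ∧ p.rep ∈ W}.Infinite) ∧
    (2 * n + 1 ≤ ∑ a, d a + C.card →
      (∀ W, ¬ (IsLine F C W ∧ (Pts W ∩ Bd F C).encard ≤ 2)) ∧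
        ∀ (T : Finset K) (R : Subring K), R ≤ Subring.closure (T : Set K) →
          (RPts F d C R).Finite) ∧
    (C.card ≤ n → ∃ (H : MvPolynomial (Fin (n + 1)) K) (e : ℕ), H.IsHomogeneous e ∧
      (∃ v, (∀ c ∈ C, eval v (F c) = 0) ∧ (∀ b, b ∉ C → eval v (F b) ≠ 0) ∧ eval v H ≠ 0) ∧
      ∀ W, (IsLine F C W ∧ (Pts W ∩ Bd F C).encard ≤ 2) →
        ∀ v ∈ W, (∀ b, b ∉ C → eval v (F b) ≠ 0) → eval v H = 0) ∧
    (∀ (T : Finset K) (R : Subring K),
      R ≤ Subring.closure ((algebraicClosure k K : Set K) ∪ (T : Set K)) →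
      ∃ L : Set (Submodule K (Fin (n + 1) → K)), L.Finite ∧ (∀ W ∈ L, IsLine F C W) ∧
        {p | p ∈ RPts F d C R ∧ ¬ ∃ W, ((IsLine F C W ∧ (Pts W ∩ Bd F C).encard ≤ 2) ∨ W ∈ L) ∧
          p.rep ∈ W}.Finite) ∧
    ∀ (L : Type) [Field L] [Algebra K L] (w : ℕ) (x : Fin (n + 1) → L), 0 < w →
      2 * n + 2 ≤ ∑ a, d a + C.card + w → Algebra.trdeg K L = w → x ≠ 0 →
      Algebra.IsAlgebraic (coords K x) L → (∀ c ∈ C, aeval x (F c) = 0) →
      (∀ b, b ∉ C → aeval x (F b) ≠ 0) →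
      LogGeneralType K L w fun Q : Place K L =>
        ∃ b, b ∉ C ∧ d b * pord Q x < Q.ord (aeval x (F b)) := by
  classical
  have hb : ∃ b, b ∉ C := by
    by_contra hcon
    push Not at hcon
    exact hC (Finset.eq_univ_iff_forall.2 hcon)
  have hind : AlgebraicIndependent k fun p : Pool.Agent.TH145.GC.Rt d (fun a => (I0 a).1) =>
      (F p.1).coeff p.2.1 / (F p.1).coeff ((fun a => (I0 a).1) p.1) := by
    have h2 := hgen.comp (fun p : Pool.Agent.TH145.GC.Rt d (fun a => (I0 a).1) =>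
      (⟨p.1, ⟨p.2.1, p.2.2.1⟩, fun h => p.2.2.2 (congrArg Subtype.val h)⟩ :
        (a : A) × {I : {I : Fin (n + 1) →₀ ℕ // I.degree = d a} // I ≠ I0 a})) (by
          rintro ⟨a, ⟨I, hI⟩⟩ ⟨a', ⟨I', hI'⟩⟩ h
          have e1 : a = a' := congrArg Sigma.fst h
          subst e1
          have e2 := eq_of_heq (Sigma.mk.inj_iff.1 h).2
          have e3 : I = I' := congrArg (fun z => z.1.1) e2
          subst e3
          rfl)
    exact h2
  have h3 : ∀ W, IsLine F C W → ¬ (IsLine F C W ∧ (Pts W ∩ Bd F C).encard ≤ 2) →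
      3 ≤ (Pts W ∩ Bd F C).encard := by
    intro W hW hE
    have h4 : ¬ (Pts W ∩ Bd F C).encard ≤ 2 := fun h => hE ⟨hW, h⟩
    rw [not_le] at h4
    exact Order.add_one_le_of_lt h4
  refine ⟨fun T R hR => ?_, fun W hW => conv_line hF hW.1 hW.2, fun hd' => ⟨fun W hW =>
    no_exc_line C hd' F hF _ h0 hind W hW.1 hW.2, fun T R hR =>
      main_fin hn hd0 C hb hd hd' F hF _ h0 hind T R hR⟩, fun hCn =>
      exists_H_proper hd0 C hb hd hCn F hF _ h0 hind, fun T R hR => ?_,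
    fun L _ _ w x hw hdw htr hx0 halg hxC hxb => log_sub hw C hdw F hF _ h0 hind htr hx0 halg
      hxC hxb⟩
  · refine (main_fg hn hd0 C hb hd F hF _ h0 hind T R hR).subset ?_
    rintro p ⟨hp, hpE⟩
    exact ⟨hp, fun W hW hpW => h3 W hW fun hE => hpE ⟨W, hE, hpW⟩⟩
  · obtain ⟨L, hL1, hL2, hL3⟩ := main_k hn hd0 C hb hd F hF _ h0 hind T R hR
    refine ⟨L, hL1, fun W hW => (hL2 W hW).1, hL3.subset ?_⟩
    rintro p ⟨hp, hpE⟩
    exact ⟨hp, fun W hW hpW => ⟨fun hWL => hpE ⟨W, Or.inr hWL, hpW⟩,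
      h3 W hW fun hE => hpE ⟨W, Or.inl hE, hpW⟩⟩⟩

end

end Pool.Agent.Y741
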