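import Pool.Agent.Y741.Local
import Pool.Agent.Y735.Global

/-!
The global inequality.
-/

set_option autoImplicit false

open MvPolynomial FF Pool.Agent.W603.LV Pool.Agent.W603.PV Pool.Agent.TH145.GH
open Pool.Agent.Y735 (lf pm tm pl lf_single lf_pm lf_tm eval_lf eval_pm tm_smul sum_tm sum_pm vol
  vol_apply alt_tri lf_hom po exists_scaled' ge_lf ge_coeff_mul ge_X ge_vol fht sum_two)

namespace Pool.Agent.Y741

variable {k K : Type} [Field k] [Field K] [Algebra k K] {n : ℕ} {A W B U T : Type}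

section

variable [DecidableEq A] [Fintype A] {F : Fam K n A} {dg : A → ℕ}
  {D : A → (Fin (n + 1) →₀ ℕ) → Derivation ℤ K K} {e g : Place k K → ℤ}

/-- The differentials of the equations. -/
noncomputable def Phi (F : Fam K n A) (C : Finset A) (x : Fin (n + 1) → K) :
    (Fin (n + 1) → K) →ₗ[K] (C → K) where
  toFun z := fun c => dF (F c) x z
  map_add' y z := by funext c; exact dF_add _ _ _ _
  map_smul' r z := by funext c; exact dF_smul _ _ _ _

omit [DecidableEq A] [Fintype A] in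
theorem Phi_apply (C : Finset A) (x z : Fin (n + 1) → K) (c : C) :
    Phi F C x z c = dF (F c) x z := rfl

omit [DecidableEq A] [Fintype A] in
theorem ker_Phi (C : Finset A) (x : Fin (n + 1) → K) :
    LinearMap.ker (Phi F C x) = TC F C x := by
  ext z
  rw [LinearMap.mem_ker, mem_TC]
  constructor
  · intro h c hc
    exact congrFun h ⟨c, hc⟩
  · intro h
    funext c
    exact h c c.2

theorem Phi_eps (hF : ∀ a, (F a).IsHomogeneous (dg a)) (hD : TH145.GC.Dual F dg D) {C : Finset A}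
    {x : Fin (n + 1) → K} (hx : ∀ c ∈ C, eval x (F c) = 0) (i0 : Fin (n + 1)) (c : C) :
    Phi F C x (vA D x (Pi.single c.1 (X i0 ^ dg c.1))) = Pi.single c (-(x i0 ^ dg c.1)) := by
  funext b
  rw [Phi_apply, dF_vA hF hD x (fun a => single_hom (isHomogeneous_X_pow i0 (dg c.1)) a), hx b b.2,
    map_zero, zero_sub]
  by_cases h : b = c
  · subst h
    rw [Pi.single_eq_same, Pi.single_eq_same, map_pow, eval_X]
  · rw [Pi.single_eq_of_ne h, Pi.single_eq_of_ne fun h' => h (Subtype.ext h'), map_zero, neg_zero]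

theorem exists_dec (hF : ∀ a, (F a).IsHomogeneous (dg a)) (hD : TH145.GC.Dual F dg D)
    {C : Finset A} {x : Fin (n + 1) → K} (hx : ∀ c ∈ C, eval x (F c) = 0) {i0 : Fin (n + 1)}
    (hi0 : x i0 ≠ 0) (z : Fin (n + 1) → K) :
    z - ∑ c : C, (-(dF (F c) x z / x i0 ^ dg c.1)) • vA D x (Pi.single c.1 (X i0 ^ dg c.1)) ∈
      TC F C x := by
  rw [← ker_Phi, LinearMap.mem_ker, map_sub, map_sum]
  funext b
  rw [Pi.sub_apply, Finset.sum_apply, Finset.sum_eq_single b, Pi.zero_apply, map_smul,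
    Pi.smul_apply, Phi_eps hF hD hx, Pi.single_eq_same, Phi_apply, smul_eq_mul]
  · field_simp
    ring
  · intro c _ hcb
    rw [map_smul, Pi.smul_apply, Phi_eps hF hD hx, Pi.single_eq_of_ne hcb.symm, smul_zero]
  · intro h; exact absurd (Finset.mem_univ b) h

theorem TC_finrank (hF : ∀ a, (F a).IsHomogeneous (dg a)) (hD : TH145.GC.Dual F dg D)
    {C : Finset A} {x : Fin (n + 1) → K} (hx : ∀ c ∈ C, eval x (F c) = 0) (hx0 : x ≠ 0) :
    Module.finrank K (TC F C x) + C.card = n + 1 := by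
  obtain ⟨i0, hi0⟩ := Function.ne_iff.1 hx0
  have hi0' : x i0 ≠ 0 := hi0
  have h2 := LinearMap.finrank_range_add_finrank_ker (Phi F C x)
  have h3 : LinearMap.range (Phi F C x) = ⊤ := by
    rw [LinearMap.range_eq_top]
    intro y
    refine ⟨∑ c : C, (-(y c / x i0 ^ dg c.1)) • vA D x (Pi.single c.1 (X i0 ^ dg c.1)), ?_⟩
    rw [map_sum]
    funext b
    rw [Finset.sum_apply, Finset.sum_eq_single b, map_smul,
      Pi.smul_apply, Phi_eps hF hD hx, Pi.single_eq_same, smul_eq_mul]
    · field_simp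
    · intro c _ hcb
      rw [map_smul, Pi.smul_apply, Phi_eps hF hD hx, Pi.single_eq_of_ne hcb.symm, smul_zero]
    · intro h; exact absurd (Finset.mem_univ b) h
  rw [h3, finrank_top, Module.finrank_pi, Fintype.card_coe, Module.finrank_fin_fun, ker_Phi] at h2
  omega

/-- The rows that are tangent to the equations. -/
noncomputable def row1 (F : Fam K n A) (dg : A → ℕ)
    (D : A → (Fin (n + 1) →₀ ℕ) → Derivation ℤ K K) (C : Finset A) (x y : Fin (n + 1) → K)
    (i0 : Fin (n + 1)) (ik : Fin (n + 1) × Fin (n + 1)) (rd : RD K n A W B U T)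
    (κ : Option (W ⊕ (B ⊕ B) ⊕ (U ⊕ T))) : Fin (n + 1) → K :=
  row F dg D C x y i0 ik rd (Sum.inr κ)

/-- The constant of the inequality. -/
noncomputable def CL (n : ℕ) (A : Type) [Fintype A] (e g : Place k K → ℤ) : ℤ :=
  ∑ᶠ P : Place k K, ((n + 1 + Fintype.card A) * (e P + g P))

/-- The forms with coefficients that are natural numbers. -/
def Nc (p : MvPolynomial (Fin (n + 1)) K) : Prop := ∀ u, ∃ c : ℕ, p.coeff u = c

theorem Nc.ge {p : MvPolynomial (Fin (n + 1)) K} (h : Nc p) (P : Place k K)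
    (u : Fin (n + 1) →₀ ℕ) : Ge P 0 (p.coeff u) := by
  obtain ⟨c, hc⟩ := h u
  rw [hc]
  exact Ge.natCast c

/-- The condition at the places. -/
def PlOK (dg : A → ℕ) (D : A → (Fin (n + 1) →₀ ℕ) → Derivation ℤ K K) (e : Place k K → ℤ)
    (F : Fam K n A) (C : Finset A) (x : Fin (n + 1) → K) : Prop :=
  ∀ P : Place k K, (∀ b, b ∉ C → P.ord (eval x (F b)) ≤ dg b * pord P x) ∨
      ∀ f, f ≠ 0 → ∀ a, ∀ I : Fin (n + 1) →₀ ℕ, I.degree = dg a →
        Ge P (P.ord f - e P) (D a I f)

variable [CharZero k] [IsFF k K] [IsAlgClosed k]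

/-- The global inequality. -/
theorem global_ineq [Fintype W] [Fintype B] [Fintype U] [Fintype T]
    (hdat : DataL k F dg D e g) {C : Finset A} {x y : Fin (n + 1) → K}
    (hxC : ∀ c ∈ C, eval x (F c) = 0) (hxb : ∀ b, b ∉ C → eval x (F b) ≠ 0)
    {i0 : Fin (n + 1)} (hi0 : x i0 ≠ 0) {ik : Fin (n + 1) × Fin (n + 1)} (hik : pl x y ik ≠ 0)
    (rd : RD K n A W B U T)
    (hPB : ∀ b a, (rd.PB b a).IsHomogeneous (dg a - 1))
    (hPU : ∀ b a, (rd.PU b a).IsHomogeneous (dg a - 1))
    (hPT : ∀ b a, (rd.PT b a).IsHomogeneous (dg a - 1))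
    (hcB : ∀ b a, Nc (rd.PB b a)) (hcU : ∀ b a, Nc (rd.PU b a)) (hcT : ∀ b a, Nc (rd.PT b a))
    (hP : PlOK dg D e F C x)
    (hT : ∀ t m, ∑ l, m l * x l = 0 → ∑ l, m l * y l = 0 → vq D x (rd.PT t) m ∈
      Submodule.span K (row1 F dg D C x y i0 ik rd ''
        {κ | rk (Sum.inr κ : Ri C W B U T) < 2}))
    (hcard : C.card + 1 + Fintype.card W + 2 * Fintype.card B + Fintype.card U +
      Fintype.card T = n + 1)
    (hspan : TC F C x ≤ Submodule.span K (Set.range (row1 F dg D C x y i0 ik rd))) :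
    (((∑ a, dg a : ℕ) : ℤ) - ((n + 1 + Fintype.card B + Fintype.card T : ℕ) : ℤ)) * pht k x +
      ((Fintype.card T : ℤ) - Fintype.card U) * fht k (pl x y) ≤ CL n A e g := by
  classical
  have hx0 : x ≠ 0 := by
    rintro rfl
    exact hi0 rfl
  have hp0 : pl x y ≠ 0 := fun h0 => hik (by rw [h0]; rfl)
  have hE : Fintype.card (Ri C W B U T) = Fintype.card (Fin (n + 1)) := by
    simp only [Fintype.card_option, Fintype.card_sum, Fintype.card_fin, Fintype.card_coe]
    omega
  obtain ⟨E⟩ : Nonempty (Ri C W B U T ≃ Fin (n + 1)) := Fintype.card_eq.1 hE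
  have htop : Submodule.span K (Set.range (row F dg D C x y i0 ik rd)) = ⊤ := by
    rw [eq_top_iff]
    intro z _
    have h1 := exists_dec hdat.hom hdat.dual hxC hi0 z
    have h2 : Submodule.span K (Set.range (row1 F dg D C x y i0 ik rd)) ≤
        Submodule.span K (Set.range (row F dg D C x y i0 ik rd)) := by
      refine Submodule.span_mono ?_
      rintro _ ⟨κ, rfl⟩
      exact ⟨Sum.inr κ, rfl⟩
    have h3 := h2 (hspan h1)
    have h4 : ∑ c : C, (-(dF (F c) x z / x i0 ^ dg c.1)) •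
        vA D x (Pi.single c.1 (X i0 ^ dg c.1)) ∈
        Submodule.span K (Set.range (row F dg D C x y i0 ik rd)) :=
      sum_mem fun c _ => Submodule.smul_mem _ _ (Submodule.subset_span ⟨Sum.inl c, rfl⟩)
    have h5 := add_mem h3 h4
    rwa [sub_add_cancel] at h5
  have hind : LinearIndependent K (row F dg D C x y i0 ik rd) :=
    linearIndependent_of_top_le_span_of_card_eq_finrank htop.ge (by
      rw [hE, Fintype.card_fin, Module.finrank_fin_fun])
  have hdet : vol E (row F dg D C x y i0 ik rd) ≠ 0 := by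
    rw [vol_apply]
    have h4 := Matrix.linearIndependent_rows_iff_isUnit
      (A := Matrix.of fun i => row F dg D C x y i0 ik rd (E.symm i))
    rw [Matrix.isUnit_iff_isUnit_det, isUnit_iff_ne_zero] at h4
    refine h4.1 ?_
    exact (linearIndependent_equiv E.symm).2 hind
  have hsub : ∀ m, row1 F dg D C x y i0 ik rd ''
        {κ | rk (Sum.inr κ : Ri C W B U T) < m} ⊆
      row F dg D C x y i0 ik rd '' {l | rk l < m} := by
    rintro m _ ⟨κ, hκ, rfl⟩
    exact ⟨Sum.inr κ, hκ, rfl⟩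
  have hloc := fun P : Place k K => local_ineq hdat hxC hxb hi0 hik rd hPB hPU hPT P
    (fun b a u => (hcB b a).ge P u) (fun b a u => (hcU b a).ge P u)
    (fun b a u => (hcT b a).ge P u) (hP P)
    (fun t m h1 h2 => Submodule.span_mono (hsub 2) (hT t m h1 h2)) (by
      refine hspan.trans (Submodule.span_mono ?_)
      rintro _ ⟨κ, rfl⟩
      refine ⟨Sum.inr κ, ?_, rfl⟩
      rcases κ with _ | a | (b | b) | u | t <;> simp [rk]) hcard E hdet
  have hfin : {P : Place k K | ((n : ℤ) + 1 + Fintype.card A) * (e P + g P) ≠ 0}.Finite := by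
    refine hdat.fin.subset fun P hP => ?_
    by_contra hcon
    simp only [Set.mem_ofPred_eq, not_or, not_not] at hcon
    apply hP
    rw [hcon.1, hcon.2]
    ring
  have h1 := sum_two hx0 hp0 hfin hloc
  rw [neg_sub, neg_sub] at h1
  exact h1

end

end Pool.Agent.Y741
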