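import Pool.Agent.Y741.Oper

/-!
Integrability: the lines through the point that are given by the vector fields.
-/

set_option autoImplicit false

open MvPolynomial FF Pool.Agent.W603.LV Pool.Agent.W603.PV Pool.Agent.TH145.GH
open Pool.Agent.Y735 (lf lf_apply lf_hom dt dt_smul dt_sub' dt_smul' dt_single pl rho rho_X rho_lf
  eval_rho rho_deg rho_mem sg sg_apply sg_hom rho_sg Js mem_Js_point mem_Js_line Nl mem_Nl Mx mem_Mx
  rank_le le_rank exists_ms_mt finrank_degreeLT imB imB_le vm vm_mulVec pdz LM_vm mem_line LM LM_hom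
  LM_add rho_pdz_x rho_deriv)

namespace Pool.Agent.Y741

variable {K : Type} [Field K] {n : ℕ} {A : Type}

/-- Families of polynomials of bounded degrees. -/
noncomputable def DL (K : Type) [Field K] {A : Type} (e : A → ℕ) : Submodule K (A → Polynomial K) :=
  Submodule.pi Set.univ fun a => Polynomial.degreeLT K (e a)

theorem mem_DL {e : A → ℕ} {q : A → Polynomial K} :
    q ∈ DL K e ↔ ∀ a, q a ∈ Polynomial.degreeLT K (e a) := by
  unfold DL
  rw [Submodule.mem_pi]
  exact ⟨fun h a => h a trivial, fun h a _ => h a⟩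

/-- The equivalence with the product. -/
noncomputable def eDL (K : Type) [Field K] {A : Type} (e : A → ℕ) :
    DL K e ≃ₗ[K] ((a : A) → Polynomial.degreeLT K (e a)) where
  toFun q := fun a => ⟨q.1 a, mem_DL.1 q.2 a⟩
  map_add' _ _ := rfl
  map_smul' _ _ := rfl
  invFun q := ⟨fun a => (q a).1, mem_DL.2 fun a => (q a).2⟩
  left_inv _ := rfl
  right_inv _ := rfl

instance fd_DL [Fintype A] (e : A → ℕ) : FiniteDimensional K (DL K e) := by
  have : ∀ a, FiniteDimensional K (Polynomial.degreeLT K (e a)) := fun a =>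
    Pool.Agent.Y735.fd_degreeLT (e a)
  exact LinearEquiv.finiteDimensional (eDL K e).symm

theorem finrank_DL [Fintype A] (e : A → ℕ) : Module.finrank K (DL K e) = ∑ a, e a := by
  have : ∀ a, FiniteDimensional K (Polynomial.degreeLT K (e a)) := fun a =>
    Pool.Agent.Y735.fd_degreeLT (e a)
  rw [(eDL K e).finrank_eq, Module.finrank_pi_fintype]
  exact Finset.sum_congr rfl fun a _ => finrank_degreeLT (e a)

/-- The families of binary forms. -/
noncomputable def sgA (ms mt : Fin (n + 1) → K) (e : A → ℕ) :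
    (A → Polynomial K) →ₗ[K] Fam K n A :=
  LinearMap.pi fun a => sg ms mt (e a) ∘ₗ LinearMap.proj a

theorem sgA_apply (ms mt : Fin (n + 1) → K) (e : A → ℕ) (q : A → Polynomial K) (a : A) :
    sgA ms mt e q a = sg ms mt (e a) (q a) := rfl

/-- The restrictions of a family to a line. -/
noncomputable def rhoA (x y : Fin (n + 1) → K) : Fam K n A →ₗ[K] (A → Polynomial K) :=
  LinearMap.pi fun a => (rho x y).toLinearMap ∘ₗ LinearMap.proj a

theorem rhoA_apply (x y : Fin (n + 1) → K) (G : Fam K n A) (a : A) :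
    rhoA x y G a = rho x y (G a) := rfl

/-- The restriction of a form that vanishes at the point. -/
theorem rho_mem_of_eval [Infinite K] {x y : Fin (n + 1) → K} (hx0 : x ≠ 0) {d : ℕ}
    {p : MvPolynomial (Fin (n + 1)) K} (hp : p.IsHomogeneous d) (h : eval x p = 0) :
    rho x y p ∈ Polynomial.degreeLT K d := by
  have h1 := mem_Js_point hx0 hp h
  refine Submodule.span_induction (p := fun q _ => rho x y q ∈ Polynomial.degreeLT K d)
    ?_ ?_ ?_ ?_ h1
  · rintro _ ⟨Q, m, e', he', hQ, hm, rfl⟩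
    rw [mem_Mx] at hm
    change dt m x = 0 at hm
    rw [map_mul, rho_lf, hm, map_zero, zero_mul, zero_add, mul_comm,
      ← Polynomial.smul_eq_C_mul]
    exact Submodule.smul_mem _ _ (rho_mem x y (by omega) hQ)
  · rw [map_zero]; exact zero_mem _
  · intro p q _ _ hp hq
    rw [map_add]; exact add_mem hp hq
  · intro c p _ hp
    rw [map_smul]; exact Submodule.smul_mem _ _ hp

theorem coeff_of_mem_degreeLT {q : Polynomial K} {d : ℕ} (h : q ∈ Polynomial.degreeLT K d) :
    q.coeff d = 0 := by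
  rw [Polynomial.mem_degreeLT] at h
  exact Polynomial.coeff_eq_zero_of_degree_lt h

/-- The leading coefficient of the restriction. -/
theorem rho_coeff [Infinite K] {x y ms : Fin (n + 1) → K} (hx0 : x ≠ 0) (h1 : dt ms x = 1)
    (h2 : dt ms y = 0) {d : ℕ} {p : MvPolynomial (Fin (n + 1)) K} (hp : p.IsHomogeneous d) :
    (rho x y p).coeff d = eval x p := by
  have h3 : (p - eval x p • lf ms ^ d).IsHomogeneous d := by
    refine hp.sub (smul_hom ?_ _)
    have := (lf_hom ms).pow d
    rwa [one_mul] at this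
  have h4 : eval x (p - eval x p • lf ms ^ d) = 0 := by
    rw [map_sub, smul_eval, map_pow, Pool.Agent.Y735.eval_lf]
    change _ - _ * dt ms x ^ d = 0
    rw [h1, one_pow, mul_one, sub_self]
  have h5 := coeff_of_mem_degreeLT (rho_mem_of_eval (y := y) hx0 h3 h4)
  rw [map_sub, map_smul, map_pow, rho_lf, h1, h2, map_one, map_zero, one_mul, add_zero,
    Polynomial.coeff_sub, Polynomial.coeff_smul, Polynomial.coeff_X_pow, if_pos rfl, smul_eq_mul,
    mul_one, sub_eq_zero] at h5
  exact h5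

section line

variable [Fintype A] [DecidableEq A]

/-- The setting. -/
structure LineData (F : Fam K n A) (dg : A → ℕ) (D : A → (Fin (n + 1) →₀ ℕ) → Derivation ℤ K K)
    (C : Finset A) (x y ms mt : Fin (n + 1) → K) : Prop where
  pos : ∀ a, 0 < dg a
  hom : ∀ a, (F a).IsHomogeneous (dg a)
  dual : TH145.GC.Dual F dg D
  comm : Comm D
  zero : ∀ c ∈ C, eval x (F c) = 0
  ne : ∀ b, b ∉ C → eval x (F b) ≠ 0
  sx : dt ms x = 1
  sy : dt ms y = 0
  tx : dt mt x = 0
  ty : dt mt y = 1

variable {F : Fam K n A} {dg : A → ℕ} {D : A → (Fin (n + 1) →₀ ℕ) → Derivation ℤ K K}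
  {C : Finset A} {x y ms mt : Fin (n + 1) → K}

/-- The map for the full space. -/
noncomputable def psF (D : A → (Fin (n + 1) →₀ ℕ) → Derivation ℤ K K)
    (x ms mt : Fin (n + 1) → K) (dg : A → ℕ) :
    DL K (fun a => dg a + 1) →ₗ[K] (Fin (n + 1) → K) :=
  vA D x ∘ₗ sgA ms mt dg ∘ₗ (DL K fun a => dg a + 1).subtype

/-- The map for the space of the forms that vanish at the point. -/
noncomputable def ps0 (D : A → (Fin (n + 1) →₀ ℕ) → Derivation ℤ K K)
    (x ms mt : Fin (n + 1) → K) (dg : A → ℕ) : DL K dg →ₗ[K] (Fin (n + 1) → K) :=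
  vA D x ∘ₗ sgA ms mt dg ∘ₗ (DL K dg).subtype

/-- The map for the forms that vanish on the line. -/
noncomputable def psN (D : A → (Fin (n + 1) →₀ ℕ) → Derivation ℤ K K)
    (x ms mt m : Fin (n + 1) → K) (dg : A → ℕ) : DL K dg →ₗ[K] (Fin (n + 1) → K) :=
  rq D x m ∘ₗ sgA ms mt (fun a => dg a - 1) ∘ₗ (DL K dg).subtype

/-- The restrictions of the vector fields. -/
noncomputable def Zs (F : Fam K n A) (D : A → (Fin (n + 1) →₀ ℕ) → Derivation ℤ K K)
    (x y ms mt : Fin (n + 1) → K) (dg : A → ℕ) : Submodule K (A → Polynomial K) :=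
  ((Vl F dg D x y).comap (psF D x ms mt dg)).map (DL K fun a => dg a + 1).subtype

/-- The restrictions of the vector fields that vanish at the point. -/
noncomputable def Zo (F : Fam K n A) (D : A → (Fin (n + 1) →₀ ℕ) → Derivation ℤ K K)
    (x y ms mt : Fin (n + 1) → K) (dg : A → ℕ) : Submodule K (A → Polynomial K) :=
  ((Vl F dg D x y).comap (ps0 D x ms mt dg)).map (DL K dg).subtype

/-- The forms that are mapped to the tangent vectors of the linear group. -/
noncomputable def Nm (F : Fam K n A) (D : A → (Fin (n + 1) →₀ ℕ) → Derivation ℤ K K)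
    (x ms mt m : Fin (n + 1) → K) (dg : A → ℕ) : Submodule K (A → Polynomial K) :=
  ((Wsp F D x).comap (psN D x ms mt m dg)).map (DL K dg).subtype

theorem mem_Zs {q : A → Polynomial K} : q ∈ Zs F D x y ms mt dg ↔
    q ∈ DL K (fun a => dg a + 1) ∧ vA D x (sgA ms mt dg q) ∈ Vl F dg D x y := by
  unfold Zs
  rw [Submodule.mem_map]
  constructor
  · rintro ⟨q, hq, rfl⟩
    exact ⟨q.2, hq⟩
  · rintro ⟨hq, h⟩
    exact ⟨⟨q, hq⟩, h, rfl⟩

theorem mem_Zo {q : A → Polynomial K} : q ∈ Zo F D x y ms mt dg ↔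
    q ∈ DL K dg ∧ vA D x (sgA ms mt dg q) ∈ Vl F dg D x y := by
  unfold Zo
  rw [Submodule.mem_map]
  constructor
  · rintro ⟨q, hq, rfl⟩
    exact ⟨q.2, hq⟩
  · rintro ⟨hq, h⟩
    exact ⟨⟨q, hq⟩, h, rfl⟩

theorem mem_Nm {m : Fin (n + 1) → K} {q : A → Polynomial K} : q ∈ Nm F D x ms mt m dg ↔
    q ∈ DL K dg ∧ vq D x (sgA ms mt (fun a => dg a - 1) q) m ∈ Wsp F D x := by
  unfold Nm
  rw [Submodule.mem_map]
  constructor
  · rintro ⟨q, hq, rfl⟩
    exact ⟨q.2, hq⟩
  · rintro ⟨hq, h⟩
    exact ⟨⟨q, hq⟩, h, rfl⟩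

instance fd_Zs : FiniteDimensional K (Zs F D x y ms mt dg) := by
  unfold Zs; infer_instance

instance fd_Zo : FiniteDimensional K (Zo F D x y ms mt dg) := by
  unfold Zo; infer_instance

instance fd_Nm {m : Fin (n + 1) → K} : FiniteDimensional K (Nm F D x ms mt m dg) := by
  unfold Nm; infer_instance

/-- The families of the ideal of the line are mapped to the space of the line. -/
theorem vA_Js_mem {G : Fam K n A} (hG : ∀ a, G a ∈ Js (Nl x y) (dg a)) :
    vA D x G ∈ Vl F dg D x y := by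
  rw [← Finset.univ_sum_single G, map_sum]
  refine sum_mem fun a _ => ?_
  refine Submodule.span_induction (p := fun q _ => vA D x (Pi.single a q) ∈ Vl F dg D x y)
    ?_ ?_ ?_ ?_ (hG a)
  · rintro _ ⟨Q, m, e', he', hQ, hm, rfl⟩
    rw [mem_Nl] at hm
    refine Submodule.mem_sup_right (Submodule.subset_span ⟨Pi.single a Q, m, fun b => ?_, hm.1,
      hm.2, ?_⟩)
    · exact single_hom (dg := fun a => dg a - 1) (by
        have : e' = dg a - 1 := by omega
        rw [← this]
        exact hQ) b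
    · rw [vq_apply]
      congr 1
      funext b
      rw [ql_apply]
      by_cases hb : b = a
      · subst hb
        rw [Pi.single_eq_same, Pi.single_eq_same]
      · rw [Pi.single_eq_of_ne hb, Pi.single_eq_of_ne hb, zero_mul]
  · rw [Pi.single_zero, map_zero]; exact zero_mem _
  · intro p q _ _ hp hq
    rw [Pi.single_add, map_add]; exact add_mem hp hq
  · intro c p _ hp
    rw [Pi.single_smul, map_smul]; exact Submodule.smul_mem _ _ hp

section
variable [CharZero K] (hL : LineData F dg D C x y ms mt)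
include hL

omit [CharZero K] [Fintype A] [DecidableEq A] in
theorem LineData.x_ne : x ≠ 0 := by
  rintro rfl
  have h := hL.sx
  have h2 : dt ms (0 : Fin (n + 1) → K) = 0 := by simp [dt]
  rw [h2] at h
  exact zero_ne_one h

theorem LineData.line_mem {G : Fam K n A} (hG : ∀ a, (G a).IsHomogeneous (dg a))
    (h : ∀ a, rho x y (G a) = 0) : vA D x G ∈ Vl F dg D x y :=
  vA_Js_mem fun a => mem_Js_line hL.sx hL.sy hL.tx hL.ty (hG a) (h a)

theorem LineData.lift_mem {G : Fam K n A} (hG : ∀ a, (G a).IsHomogeneous (dg a)) :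
    vA D x G - vA D x (sgA ms mt dg (rhoA x y G)) ∈ Vl F dg D x y := by
  rw [← map_sub]
  refine hL.line_mem (fun a => (hG a).sub (sg_hom ms mt (dg a) _)) fun a => ?_
  rw [Pi.sub_apply, map_sub, sgA_apply, rhoA_apply,
    rho_sg hL.sx hL.sy hL.tx hL.ty (rho_mem x y (Nat.lt_succ_self _) (hG a)), sub_self]

theorem LineData.rho_mem_Zs {G : Fam K n A} (hG : ∀ a, (G a).IsHomogeneous (dg a))
    (h : vA D x G ∈ Vl F dg D x y) : rhoA x y G ∈ Zs F D x y ms mt dg := by
  rw [mem_Zs]
  refine ⟨mem_DL.2 fun a => rho_mem x y (Nat.lt_succ_self _) (hG a), ?_⟩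
  have h3 := sub_mem h (hL.lift_mem hG)
  rwa [sub_sub_cancel] at h3

theorem LineData.rho_mem_Zo {G : Fam K n A} (hG : ∀ a, (G a).IsHomogeneous (dg a))
    (h : vA D x G ∈ Vl F dg D x y) (hd : rhoA x y G ∈ DL K dg) :
    rhoA x y G ∈ Zo F D x y ms mt dg := by
  rw [mem_Zo]
  refine ⟨hd, ?_⟩
  have h3 := sub_mem h (hL.lift_mem hG)
  rwa [sub_sub_cancel] at h3

/-- The dimension of the full space. -/
theorem LineData.finrank_Zs :
    Module.finrank K (Zs F D x y ms mt dg) + (n + 1) ≤
      ∑ a, (dg a + 1) + Module.finrank K (Vl F dg D x y) := by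
  obtain ⟨i0, hi0⟩ := Function.ne_iff.1 hL.x_ne
  have hi0' : x i0 ≠ 0 := hi0
  have hgen : ∀ G : Fam K n A, (∀ a, (G a).IsHomogeneous (dg a)) →
      vA D x G ∈ LinearMap.range (psF D x ms mt dg) ⊔ Vl F dg D x y := by
    intro G hG
    have h4 : vA D x G = vA D x (sgA ms mt dg (rhoA x y G)) +
        (vA D x G - vA D x (sgA ms mt dg (rhoA x y G))) := by abel
    rw [h4]
    exact add_mem (Submodule.mem_sup_left ⟨⟨_, mem_DL.2 fun a =>
      rho_mem x y (Nat.lt_succ_self _) (hG a)⟩, rfl⟩) (Submodule.mem_sup_right (hL.lift_mem hG))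
  have h1 := rank_le (psF D x ms mt dg) (D := Vl F dg D x y) (T := ⊤) le_top (by
    intro z _
    have h2 := exists_dec hL.hom hL.dual hL.zero hi0' z
    rw [← im_top hL.pos hL.hom hL.dual hL.zero hL.ne hL.x_ne] at h2
    have h3 : imB (Bset D x dg) ⊤ ⊔ Wsp F D x ≤
        LinearMap.range (psF D x ms mt dg) ⊔ Vl F dg D x y := by
      refine sup_le (imB_le ?_) (le_sup_left.trans le_sup_right)
      rintro b ⟨Q, hQ, rfl⟩ m -
      exact hgen _ (ql_hom hL.pos hQ.1 _)
    have h4 : ∑ c : C, (-(dF (F c) x z / x i0 ^ dg c.1)) •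
        vA D x (Pi.single c.1 (X i0 ^ dg c.1)) ∈
        LinearMap.range (psF D x ms mt dg) ⊔ Vl F dg D x y :=
      sum_mem fun c _ => Submodule.smul_mem _ _
        (hgen _ fun a => single_hom (isHomogeneous_X_pow i0 (dg c.1)) a)
    have h5 := add_mem (h3 h2) h4
    rwa [sub_add_cancel] at h5)
  rw [finrank_top, Module.finrank_fin_fun, finrank_DL] at h1
  unfold Zs
  rw [Submodule.finrank_map_subtype_eq]
  exact h1

omit [CharZero K] in
theorem LineData.Vl_le : Vl F dg D x y ≤ TC F C x := by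
  unfold Vl
  refine sup_le (Wsp_le hL.pos hL.hom hL.dual hL.zero) ?_
  rw [Submodule.span_le]
  rintro _ ⟨Q, m, hQ, hmx, hmy, rfl⟩
  exact vq_mem_TC hL.pos hL.hom hL.dual hL.zero hQ hmx

/-- The dimension of the space of the forms that vanish at the point. -/
theorem LineData.finrank_Zo :
    Module.finrank K (Zo F D x y ms mt dg) + (n + 1) ≤
      ∑ a, dg a + Module.finrank K (Vl F dg D x y) + C.card := by
  have h1 := rank_le (ps0 D x ms mt dg) (D := Vl F dg D x y) (T := TC F C x) hL.Vl_le (by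
    rw [← im_top hL.pos hL.hom hL.dual hL.zero hL.ne hL.x_ne]
    refine sup_le (imB_le ?_) (le_sup_left.trans le_sup_right)
    rintro b ⟨Q, hQ, rfl⟩ m -
    have hQm := ql_hom hL.pos hQ.1 (m : Fin (n + 1) → K)
    have h4 : bmap D x Q m = vA D x (sgA ms mt dg (rhoA x y (ql Q (m : Fin (n + 1) → K)))) +
        (vA D x (ql Q (m : Fin (n + 1) → K)) -
          vA D x (sgA ms mt dg (rhoA x y (ql Q (m : Fin (n + 1) → K))))) := by
      rw [bmap_apply, vq_apply]; abel
    rw [h4]
    refine add_mem (Submodule.mem_sup_left ⟨⟨_, mem_DL.2 fun a => ?_⟩, rfl⟩)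
      (Submodule.mem_sup_right (hL.lift_mem hQm))
    refine rho_mem_of_eval hL.x_ne (hQm a) ?_
    change eval x (ql Q (m : Fin (n + 1) → K) a) = 0
    rw [eval_ql, mem_Mx.1 m.2, mul_zero])
  have h2 := TC_finrank hL.hom hL.dual hL.zero hL.x_ne
  rw [finrank_DL] at h1
  unfold Zo
  rw [Submodule.finrank_map_subtype_eq]
  omega

omit [CharZero K] hL in
theorem finrank_Nm {m : Fin (n + 1) → K} (hm : m ∈ Nl x y) :
    ∑ a, dg a + Module.finrank K (Wsp F D x) ≤
      Module.finrank K (Nm F D x ms mt m dg) + Module.finrank K (Vl F dg D x y) := by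
  have h1 := le_rank (psN D x ms mt m dg) (D := Wsp F D x) (T := Vl F dg D x y)
    le_sup_left (by
      rintro _ ⟨q, rfl⟩
      rw [mem_Nl] at hm
      exact Submodule.mem_sup_right (Submodule.subset_span
        ⟨_, m, fun a => sg_hom ms mt (dg a - 1) _, hm.1, hm.2, rfl⟩))
  rw [finrank_DL] at h1
  unfold Nm
  rw [Submodule.finrank_map_subtype_eq]
  exact h1

end

omit [DecidableEq A] in
theorem rho_nab {G : Fam K n A} {M : Matrix (Fin (n + 1)) (Fin (n + 1)) K} {κ : A → K}
    (h : IsOp F dg D x G M κ) {m : Fin (n + 1) → K} (hm : m ∈ Nl x y) (Q : Fam K n A) :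
    rhoA x y (nab F D G M κ (ql Q m)) = (-dt m (nabv F D G M κ y)) • rhoA x y Q := by
  obtain ⟨-, c, hc⟩ := h
  rw [mem_Nl] at hm
  obtain ⟨m', hm', hv⟩ := nb_lf (DA D (tot F G M κ)) M m
  have h1 : dt m' x = 0 := by
    have h3 : vA D x (tot F G M κ) + M.mulVec x = c • x := hc
    rw [vA_dv] at h3
    rw [hv, h3, hm.1, map_zero, dt_smul, hm.1, mul_zero, sub_zero]
  have h2 : dt m' y = -dt m (nabv F D G M κ y) := by
    rw [hv, hm.2, map_zero, zero_sub]
    rfl
  funext a
  rw [rhoA_apply, nab, ql_apply, nb_mul, hm', map_sub, map_add, map_mul, map_mul, map_smul,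
    map_mul, rho_lf, rho_lf, hm.1, hm.2, h1, h2, Pi.smul_apply, rhoA_apply,
    Polynomial.smul_eq_C_mul, Polynomial.smul_eq_C_mul, Polynomial.C_0]
  ring

omit [DecidableEq A] in
/-- An operator maps the ideal of the line to the ideal of the line when it preserves the line. -/
theorem rho_nab_Js {G : Fam K n A} {M : Matrix (Fin (n + 1)) (Fin (n + 1)) K} {κ : A → K}
    (h : IsOp F dg D x G M κ) (hy : ∀ m ∈ Nl x y, dt m (nabv F D G M κ y) = 0) {P : Fam K n A}
    (hP : ∀ a, P a ∈ Js (Nl x y) (dg a)) : rhoA x y (nab F D G M κ P) = 0 := by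
  obtain ⟨-, c, hc⟩ := h
  funext a
  have key : rho x y (nb (DA D (tot F G M κ)) M (P a)) = 0 ∧ rho x y (P a) = 0 := by
    refine Submodule.span_induction (p := fun q _ =>
      rho x y (nb (DA D (tot F G M κ)) M q) = 0 ∧ rho x y q = 0) ?_ ?_ ?_ ?_ (hP a)
    · rintro _ ⟨Q, m, e', he', hQ, hm, rfl⟩
      have hm' := hm
      rw [mem_Nl] at hm'
      refine ⟨?_, ?_⟩
      · obtain ⟨m', hm1, hv⟩ := nb_lf (DA D (tot F G M κ)) M m
        have h1 : dt m' x = 0 := by
          have h3 : vA D x (tot F G M κ) + M.mulVec x = c • x := hc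
          rw [vA_dv] at h3
          rw [hv, h3, hm'.1, map_zero, dt_smul, hm'.1, mul_zero, sub_zero]
        have h2 : dt m' y = 0 := by
          rw [hv, hm'.2, map_zero, zero_sub, neg_eq_zero]
          exact hy m hm
        rw [nb_mul, hm1, map_add, map_mul, map_mul, rho_lf, rho_lf, hm'.1, hm'.2, h1, h2]
        simp
      · rw [map_mul, rho_lf, hm'.1, hm'.2, map_zero, zero_mul, zero_add, mul_zero]
    · rw [nb_zero]
      exact ⟨map_zero _, map_zero _⟩
    · rintro p q - - ⟨hp, hp'⟩ ⟨hq, hq'⟩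
      rw [nb_add, map_add, map_add, hp, hq, hp', hq']
      exact ⟨add_zero _, add_zero _⟩
    · rintro r p - ⟨hp, hp'⟩
      rw [nb_smul, map_add, map_smul, map_smul, map_smul, hp, hp', smul_zero, smul_zero]
      exact ⟨add_zero _, rfl⟩
  rw [rhoA_apply, nab, map_sub, map_smul, key.1, key.2, smul_zero, sub_zero]
  rfl

section
variable [CharZero K] (hL : LineData F dg D C x y ms mt)
include hL

omit [CharZero K] [Fintype A] [DecidableEq A] in
theorem LineData.rhoA_sgA {q : A → Polynomial K} (hq : q ∈ DL K dg) :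
    rhoA x y (sgA ms mt (fun a => dg a - 1) q) = q := by
  funext a
  have h4 : dg a - 1 + 1 = dg a := by have := hL.pos a; omega
  rw [rhoA_apply, sgA_apply, rho_sg hL.sx hL.sy hL.tx hL.ty
    (by rw [h4]; exact mem_DL.1 hq a)]

omit [CharZero K] [Fintype A] [DecidableEq A] in
theorem LineData.rhoA_mem {Q : Fam K n A} (hQ : ∀ a, (Q a).IsHomogeneous (dg a - 1)) :
    rhoA x y Q ∈ DL K dg :=
  mem_DL.2 fun a => rho_mem x y (by have := hL.pos a; omega) (hQ a)

/-- The first step. -/
theorem LineData.step1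
    (hr : 2 * Module.finrank K (Vl F dg D x y) + 2 + C.card ≤
      Module.finrank K (Wsp F D x) + (n + 1))
    {Q1 : Fam K n A} (hQ1 : ∀ a, (Q1 a).IsHomogeneous (dg a - 1))
    {M1 : Matrix (Fin (n + 1)) (Fin (n + 1)) K} {κ1 : A → K}
    {m1 m : Fin (n + 1) → K} (hm1 : m1 ∈ Nl x y)
    (h1 : IsOp F dg D x (ql Q1 m1) M1 κ1) (hm : m ∈ Nl x y) :
    dt m (nabv F D (ql Q1 m1) M1 κ1 y) = 0 := by
  by_contra hne
  have hN : Nm F D x ms mt m dg ≤ Zo F D x y ms mt dg ⊔ Submodule.span K {rhoA x y Q1} := by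
    intro q hq
    rw [mem_Nm] at hq
    obtain ⟨hqd, hq⟩ := hq
    have hsg : ∀ a, (sgA ms mt (fun a => dg a - 1) q a).IsHomogeneous (dg a - 1) := fun a =>
      sg_hom ms mt (dg a - 1) _
    obtain ⟨M2, κ2, h2⟩ := exists_op (ql_hom hL.pos hsg m) hq
    have hbr := bracket hL.pos hL.hom hL.dual hL.comm h1 h2
    obtain ⟨a, ha⟩ : ∃ a, a = dt m (nabv F D (ql Q1 m1) M1 κ1 y) := ⟨_, rfl⟩
    obtain ⟨b, hb⟩ : ∃ b, b = dt m1 (nabv F D (ql (sgA ms mt (fun a => dg a - 1) q) m) M2 κ2 y) :=
      ⟨_, rfl⟩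
    rw [← ha] at hne
    have h4 : rhoA x y (nab F D (ql Q1 m1) M1 κ1 (ql (sgA ms mt (fun a => dg a - 1) q) m) -
        nab F D (ql (sgA ms mt (fun a => dg a - 1) q) m) M2 κ2 (ql Q1 m1)) =
        (-a) • q - (-b) • rhoA x y Q1 := by
      rw [map_sub, rho_nab h1 hm, rho_nab h2 hm1, ← ha, ← hb, hL.rhoA_sgA hqd]
    have h3 := hL.rho_mem_Zo hbr.1 (Submodule.mem_sup_left hbr.2) (by
      rw [h4]
      exact sub_mem (Submodule.smul_mem _ _ hqd) (Submodule.smul_mem _ _ (hL.rhoA_mem hQ1)))
    rw [h4] at h3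
    have h5 : q = (-a⁻¹) • ((-a) • q - (-b) • rhoA x y Q1) + (a⁻¹ * b) • rhoA x y Q1 := by
      rw [smul_sub, smul_smul, smul_smul, neg_mul_neg, neg_mul_neg, inv_mul_cancel₀ hne, one_smul]
      abel
    rw [h5]
    exact add_mem (Submodule.mem_sup_left (Submodule.smul_mem _ _ h3))
      (Submodule.mem_sup_right (Submodule.smul_mem _ _ (Submodule.mem_span_singleton_self _)))
  have h2 := Submodule.finrank_mono hN
  have h3 : Module.finrank K (Zo F D x y ms mt dg ⊔ Submodule.span K {rhoA x y Q1} :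
      Submodule K (A → Polynomial K)) ≤ Module.finrank K (Zo F D x y ms mt dg) + 1 := by
    refine (Submodule.finrank_add_le_finrank_add_finrank _ _).trans ?_
    have h6 : Module.finrank K (Submodule.span K {rhoA x y Q1}) ≤ 1 := by
      have := finrank_span_le_card (R := K) ({rhoA x y Q1} : Set (A → Polynomial K))
      simpa using this
    omega
  have h4 := hL.finrank_Zo
  have h5 := finrank_Nm (F := F) (dg := dg) (D := D) (ms := ms) (mt := mt) hm
  omega

/-- The second step. -/
theorem LineData.step2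
    (hr : 2 * Module.finrank K (Vl F dg D x y) + 2 + C.card ≤
      Module.finrank K (Wsp F D x) + (n + 1))
    {G1 : Fam K n A} {M1 : Matrix (Fin (n + 1)) (Fin (n + 1)) K} {κ1 : A → K}
    {m : Fin (n + 1) → K} (hG1 : ∀ a, rho x y (G1 a) = 0)
    (h1 : IsOp F dg D x G1 M1 κ1) (hm : m ∈ Nl x y) : dt m (nabv F D G1 M1 κ1 y) = 0 := by
  by_contra hne
  have hN : Nm F D x ms mt m dg ≤ Zo F D x y ms mt dg := by
    intro q hq
    rw [mem_Nm] at hq
    obtain ⟨hqd, hq⟩ := hq
    have hsg : ∀ a, (sgA ms mt (fun a => dg a - 1) q a).IsHomogeneous (dg a - 1) := fun a =>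
      sg_hom ms mt (dg a - 1) _
    obtain ⟨M2, κ2, h2⟩ := exists_op (ql_hom hL.pos hsg m) hq
    have hbr := bracket hL.pos hL.hom hL.dual hL.comm h1 h2
    have h5 := rho_nab_Js h2 (fun m' hm' => hL.step1 hr hsg hm h2 hm')
      (fun a => mem_Js_line hL.sx hL.sy hL.tx hL.ty (h1.1 a) (hG1 a))
    have h4 : rhoA x y (nab F D G1 M1 κ1 (ql (sgA ms mt (fun a => dg a - 1) q) m) -
        nab F D (ql (sgA ms mt (fun a => dg a - 1) q) m) M2 κ2 G1) =
        (-(dt m (nabv F D G1 M1 κ1 y))) • q := by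
      rw [map_sub, rho_nab h1 hm, h5, sub_zero, hL.rhoA_sgA hqd]
    have h3 := hL.rho_mem_Zo hbr.1 (Submodule.mem_sup_left hbr.2) (by
      rw [h4]
      exact Submodule.smul_mem _ _ hqd)
    rw [h4] at h3
    have h6 := Submodule.smul_mem _ (-(dt m (nabv F D G1 M1 κ1 y))⁻¹) h3
    rwa [smul_smul, neg_mul_neg, inv_mul_cancel₀ hne, one_smul] at h6
  have h2 := Submodule.finrank_mono hN
  have h4 := hL.finrank_Zo
  have h5 := finrank_Nm (F := F) (dg := dg) (D := D) (ms := ms) (mt := mt) hm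
  omega

end

end line

/-- The parameters of the restrictions. -/
abbrev Pr (K : Type) (n : ℕ) (A : Type) := (Fin (n + 1) → K) × K × (A → K)

/-- The family of restrictions. -/
noncomputable def gam (F : Fam K n A) (x y : Fin (n + 1) → K) :
    Pr K n A →ₗ[K] (A → Polynomial K) :=
  LinearMap.pi fun a =>
    LinearMap.coprod ((rho x y).toLinearMap ∘ₗ pdz (F a))
      (LinearMap.coprod
        (LinearMap.toSpanSingleton K (Polynomial K) (Polynomial.X * rho x y (pdz (F a) x)))
        (LinearMap.toSpanSingleton K (Polynomial K) (rho x y (F a)) ∘ₗ LinearMap.proj a))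

theorem gam_apply (F : Fam K n A) (x y z : Fin (n + 1) → K) (c : K) (κ : A → K) (a : A) :
    gam F x y (z, c, κ) a = rho x y (pdz (F a) z) +
      (c • (Polynomial.X * rho x y (pdz (F a) x)) + κ a • rho x y (F a)) := rfl

section

variable [Fintype A] [DecidableEq A] {F : Fam K n A} {dg : A → ℕ}
  {D : A → (Fin (n + 1) →₀ ℕ) → Derivation ℤ K K}
  {C : Finset A} {x y ms mt : Fin (n + 1) → K} [CharZero K] (hL : LineData F dg D C x y ms mt)
include hL

omit [CharZero K] in
theorem LineData.op_gam (z : Fin (n + 1) → K) (c : K) (κ : A → K) :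
    ∃ (M : Matrix (Fin (n + 1)) (Fin (n + 1)) K) (G : Fam K n A),
      IsOp F dg D x (fun a => -G a) M κ ∧ (∀ a, (G a).IsHomogeneous (dg a)) ∧
      vA D x G ∈ Wsp F D x ∧ rhoA x y G = gam F x y (z, c, κ) ∧
      nabv F D (fun a => -G a) M κ y = z := by
  have hx : (vm z mt + vm (c • x) ms).mulVec x = c • x := by
    rw [Matrix.add_mulVec, vm_mulVec, vm_mulVec, hL.tx, hL.sx, zero_smul, zero_add, one_smul]
  obtain ⟨M, hM⟩ : ∃ M, M = vm z mt + vm (c • x) ms := ⟨_, rfl⟩
  rw [← hM] at hx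
  refine ⟨M, fun a => κ a • F a + LM M (F a), op_matrix hL.pos hL.hom hx κ,
    fun a => (smul_hom (hL.hom a) _).add (LM_hom M (hL.pos a) (hL.hom a)), vec_matrix hx κ, ?_, ?_⟩
  · funext a
    rw [rhoA_apply, map_add, map_smul, hM, LM_add, LM_vm, LM_vm, map_add, map_mul, map_mul, rho_lf,
      rho_lf, hL.tx, hL.ty, hL.sx, hL.sy, gam_apply, map_smul, map_smul, map_zero, map_one,
      zero_mul, zero_add, one_mul, one_mul, add_zero, mul_smul_comm]
    abel
  · have h1 : tot F (fun a => -(κ a • F a + LM M (F a))) M κ = 0 := by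
      funext a
      rw [tot, Pi.zero_apply]
      abel
    unfold nabv
    rw [h1, map_zero, zero_add, hM, Matrix.add_mulVec, vm_mulVec, vm_mulVec, hL.ty, hL.sy,
      zero_smul, add_zero, one_smul]

theorem LineData.gam_mem (p : Pr K n A) : gam F x y p ∈ Zs F D x y ms mt dg := by
  obtain ⟨M, G, -, h1, h2, h3, -⟩ := hL.op_gam p.1 p.2.1 p.2.2
  have h4 : gam F x y p = rhoA x y G := h3.symm
  rw [h4]
  exact hL.rho_mem_Zs h1 (Submodule.mem_sup_left h2)

/-- The kernel. -/
theorem LineData.gam_ker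
    (hr : 2 * Module.finrank K (Vl F dg D x y) + 2 + C.card ≤
      Module.finrank K (Wsp F D x) + (n + 1))
    {z : Fin (n + 1) → K} {c : K} {κ : A → K} (h : gam F x y (z, c, κ) = 0) :
    z = dt ms z • x + dt mt z • y := by
  obtain ⟨M, G, h1, h2, h3, h4, h5⟩ := hL.op_gam z c κ
  refine mem_line hL.sx hL.sy hL.tx hL.ty fun m hm => ?_
  rw [← h5]
  refine hL.step2 hr (fun a => ?_) h1 hm
  have h6 := congrFun h4 a
  rw [h, rhoA_apply, Pi.zero_apply] at h6
  rw [map_neg, h6, neg_zero]

omit [CharZero K] [Fintype A] [DecidableEq A] in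
theorem LineData.rho_pdz_y (a : A) : (dg a : Polynomial K) * rho x y (F a) =
    Polynomial.X * rho x y (pdz (F a) x) + rho x y (pdz (F a) y) := by
  have h1 := congrArg (rho x y) (hL.hom a).sum_X_mul_pderiv
  rw [map_nsmul, nsmul_eq_mul, map_sum] at h1
  rw [← h1]
  change _ = Polynomial.X * rho x y (∑ i, x i • pderiv i (F a)) +
    rho x y (∑ i, y i • pderiv i (F a))
  rw [map_sum, map_sum, Finset.mul_sum, ← Finset.sum_add_distrib]
  refine Finset.sum_congr rfl fun i _ => ?_
  rw [map_mul, rho_X, map_smul, map_smul, Polynomial.smul_eq_C_mul, Polynomial.smul_eq_C_mul]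
  ring

/-- An element of the kernel that satisfies linear conditions. -/
theorem LineData.exists_ker {ι : Type} [Fintype ι] (l : Pr K n A →ₗ[K] (ι → K))
    (hd : ∑ a, dg a + Module.finrank K (Vl F dg D x y) + Fintype.card ι ≤ 2 * n + 2) :
    ∃ p : Pr K n A, p ≠ 0 ∧ gam F x y p = 0 ∧ l p = 0 := by
  have hZ := hL.finrank_Zs
  rw [Finset.sum_add_distrib, Finset.sum_const, Finset.card_univ, smul_eq_mul, mul_one] at hZ
  obtain ⟨f, hf⟩ : ∃ f : Pr K n A →ₗ[K] (Zs F D x y ms mt dg × (ι → K)),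
      ∀ p, f p = (⟨gam F x y p, hL.gam_mem p⟩, l p) :=
    ⟨LinearMap.prod (LinearMap.codRestrict _ (gam F x y) fun p => hL.gam_mem p) l, fun _ => rfl⟩
  have hker : LinearMap.ker f ≠ ⊥ := by
    apply LinearMap.ker_ne_bot_of_finrank_lt
    rw [Module.finrank_prod, Module.finrank_prod, Module.finrank_prod, Module.finrank_fin_fun,
      Module.finrank_self, Module.finrank_fintype_fun_eq_card,
      Module.finrank_fintype_fun_eq_card]
    omega
  obtain ⟨p, hp, hne⟩ := Submodule.exists_mem_ne_zero_of_ne_bot hker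
  rw [LinearMap.mem_ker, hf, Prod.mk_eq_zero] at hp
  exact ⟨p, hne, congrArg Subtype.val hp.1, hp.2⟩

/-- The forms of the variety vanish on the line. -/
theorem LineData.line_zero
    (hr : 2 * Module.finrank K (Vl F dg D x y) + 2 + C.card ≤
      Module.finrank K (Wsp F D x) + (n + 1))
    (hd : ∑ a, dg a + C.card + Module.finrank K (Vl F dg D x y) ≤ 2 * n + 1)
    (hb : ∃ b, b ∉ C) {c0 : A} (hc0 : c0 ∈ C) : rho x y (F c0) = 0 := by
  have hcard : (C.erase c0).card + 1 = C.card := Finset.card_erase_add_one hc0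
  -- the conditions
  obtain ⟨l, hl⟩ : ∃ l : Pr K n A →ₗ[K] (Option (Option (C.erase c0)) → K),
      ∀ p, l p = fun o => match o with
        | none => dt mt p.1
        | some none => p.2.1
        | some (some c) => p.2.2 c.1 := by
    refine ⟨LinearMap.pi fun o => match o with
      | none => (∑ i, mt i • LinearMap.proj (R := K) (φ := fun _ : Fin (n + 1) => K) i) ∘ₗ
          LinearMap.fst K _ _
      | some none => LinearMap.fst K _ _ ∘ₗ LinearMap.snd K _ _
      | some (some c) => LinearMap.proj c.1 ∘ₗ LinearMap.snd K _ _ ∘ₗ LinearMap.snd K _ _,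
      fun p => ?_⟩
    funext o
    rcases o with _ | _ | c
    · simp only [LinearMap.pi_apply, LinearMap.comp_apply, LinearMap.fst_apply,
        LinearMap.coe_sum, Finset.sum_apply, LinearMap.smul_apply, LinearMap.proj_apply,
        smul_eq_mul]
      rfl
    · rfl
    · rfl
  obtain ⟨⟨z, c, κ⟩, hne, hg, hlp⟩ := hL.exists_ker l (by
    rw [Fintype.card_option, Fintype.card_option, Fintype.card_coe]
    omega)
  rw [hl] at hlp
  have hβ : dt mt z = 0 := congrFun hlp none
  have hc : c = 0 := congrFun hlp (some none)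
  have hκ : ∀ a ∈ C, a ≠ c0 → κ a = 0 := fun a ha hac =>
    congrFun hlp (some (some ⟨a, Finset.mem_erase.2 ⟨hac, ha⟩⟩))
  have hz := hL.gam_ker hr hg
  rw [hβ, zero_smul, add_zero] at hz
  obtain ⟨α, hα⟩ : ∃ α, α = dt ms z := ⟨_, rfl⟩
  rw [← hα] at hz
  have hga : ∀ a, α • Polynomial.derivative (rho x y (F a)) + κ a • rho x y (F a) = 0 := by
    intro a
    have h1 := congrFun hg a
    rw [hz, hc, gam_apply, map_smul, map_smul, rho_pdz_x, zero_smul, zero_add] at h1
    exact h1
  have hκb : ∀ b, b ∉ C → κ b = 0 := by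
    intro b hb
    have h1 := congrArg (fun q => Polynomial.coeff q (dg b)) (hga b)
    simp only [Polynomial.coeff_add, Polynomial.coeff_smul, smul_eq_mul,
      Polynomial.coeff_zero] at h1
    rw [rho_coeff hL.x_ne hL.sx hL.sy (hL.hom b), Polynomial.coeff_derivative] at h1
    have h2 : (rho x y (F b)).coeff (dg b + 1) = 0 := by
      refine Polynomial.coeff_eq_zero_of_natDegree_lt ?_
      exact (rho_deg x y (hL.hom b)).trans_lt (Nat.lt_succ_self _)
    rw [h2, zero_mul, mul_zero, zero_add] at h1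
    exact (mul_eq_zero.1 h1).resolve_right (hL.ne b hb)
  have hα0 : α = 0 := by
    obtain ⟨b, hb⟩ := hb
    have h1 := congrArg (fun q => Polynomial.coeff q (dg b - 1)) (hga b)
    rw [hκb b hb] at h1
    simp only [Polynomial.coeff_add, Polynomial.coeff_smul, smul_eq_mul,
      Polynomial.coeff_zero, zero_mul, add_zero] at h1
    have h3 : dg b - 1 + 1 = dg b := by have := hL.pos b; omega
    rw [Polynomial.coeff_derivative, h3, rho_coeff hL.x_ne hL.sx hL.sy (hL.hom b)] at h1
    have h4 : ((dg b - 1 : ℕ) : K) + 1 = dg b := by exact_mod_cast h3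
    rw [h4] at h1
    have h5 : (dg b : K) ≠ 0 := by
      have := hL.pos b
      exact_mod_cast this.ne'
    exact (mul_eq_zero.1 h1).resolve_right (mul_ne_zero (hL.ne b hb) h5)
  have hκ0 : κ c0 ≠ 0 := by
    intro h0
    apply hne
    have h1 : κ = 0 := by
      funext a
      by_cases ha : a ∈ C
      · by_cases hac : a = c0
        · rw [hac, h0]; rfl
        · exact hκ a ha hac
      · exact hκb a ha
    rw [hz, hα0, zero_smul, hc, h1]
    rfl
  have h1 := hga c0
  rw [hα0, zero_smul, zero_add] at h1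
  exact (smul_eq_zero.1 h1).resolve_left hκ0

/-- The forms of the boundary on the line. -/
theorem LineData.line_one
    (hr : 2 * Module.finrank K (Vl F dg D x y) + 2 + C.card ≤
      Module.finrank K (Wsp F D x) + (n + 1))
    (hd : ∑ a, dg a + C.card + Module.finrank K (Vl F dg D x y) ≤ 2 * n + 1)
    (hb : ∃ b, b ∉ C) : ∃ t0 : K, ∀ b, b ∉ C →
      (Polynomial.X - Polynomial.C t0) * Polynomial.derivative (rho x y (F b)) =
        (dg b : Polynomial K) * rho x y (F b) := by
  -- the conditions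
  obtain ⟨l, hl⟩ : ∃ l : Pr K n A →ₗ[K] (Option C → K),
      ∀ p, l p = fun o => match o with
        | none => dt mt p.1
        | some c => p.2.2 c.1 := by
    refine ⟨LinearMap.pi fun o => match o with
      | none => (∑ i, mt i • LinearMap.proj (R := K) (φ := fun _ : Fin (n + 1) => K) i) ∘ₗ
          LinearMap.fst K _ _
      | some c => LinearMap.proj c.1 ∘ₗ LinearMap.snd K _ _ ∘ₗ LinearMap.snd K _ _,
      fun p => ?_⟩
    funext o
    rcases o with _ | c
    · simp only [LinearMap.pi_apply, LinearMap.comp_apply, LinearMap.fst_apply,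
        LinearMap.coe_sum, Finset.sum_apply, LinearMap.smul_apply, LinearMap.proj_apply,
        smul_eq_mul]
      rfl
    · rfl
  obtain ⟨⟨z, c, κ⟩, hne, hg, hlp⟩ := hL.exists_ker l (by
    rw [Fintype.card_option, Fintype.card_coe]
    omega)
  rw [hl] at hlp
  have hβ : dt mt z = 0 := congrFun hlp none
  have hκ : ∀ a ∈ C, κ a = 0 := fun a ha => congrFun hlp (some ⟨a, ha⟩)
  have hz := hL.gam_ker hr hg
  rw [hβ, zero_smul, add_zero] at hz
  obtain ⟨α, hα⟩ : ∃ α, α = dt ms z := ⟨_, rfl⟩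
  rw [← hα] at hz
  have hga : ∀ a, α • Polynomial.derivative (rho x y (F a)) +
      (c • (Polynomial.X * Polynomial.derivative (rho x y (F a))) + κ a • rho x y (F a)) = 0 := by
    intro a
    have h1 := congrFun hg a
    rw [hz, gam_apply, map_smul, map_smul, rho_pdz_x] at h1
    exact h1
  have hlead : ∀ b, b ∉ C → c * dg b + κ b = 0 := by
    intro b hb
    have h1 := congrArg (fun q => Polynomial.coeff q (dg b)) (hga b)
    have h3 : dg b - 1 + 1 = dg b := by have := hL.pos b; omega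
    have h2 : (rho x y (F b)).coeff (dg b + 1) = 0 := by
      refine Polynomial.coeff_eq_zero_of_natDegree_lt ?_
      exact (rho_deg x y (hL.hom b)).trans_lt (Nat.lt_succ_self _)
    have h6 : (Polynomial.X * Polynomial.derivative (rho x y (F b))).coeff (dg b) =
        eval x (F b) * dg b := by
      have h4 : ((dg b - 1 : ℕ) : K) + 1 = dg b := by exact_mod_cast h3
      have h5 : (Polynomial.X * Polynomial.derivative (rho x y (F b))).coeff (dg b - 1 + 1) =
          eval x (F b) * dg b := by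
        rw [Polynomial.coeff_X_mul, Polynomial.coeff_derivative, h4, h3,
          rho_coeff hL.x_ne hL.sx hL.sy (hL.hom b)]
      rwa [h3] at h5
    simp only [Polynomial.coeff_add, Polynomial.coeff_smul, smul_eq_mul,
      Polynomial.coeff_zero] at h1
    rw [h6, rho_coeff hL.x_ne hL.sx hL.sy (hL.hom b), Polynomial.coeff_derivative, h2] at h1
    have h7 : eval x (F b) * (c * dg b + κ b) = 0 := by linear_combination h1
    exact (mul_eq_zero.1 h7).resolve_left (hL.ne b hb)
  have hc0 : c ≠ 0 := by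
    intro h0
    have hκ0 : κ = 0 := by
      funext a
      by_cases ha : a ∈ C
      · exact hκ a ha
      · have h1 := hlead a ha
        rw [h0, zero_mul, zero_add] at h1
        exact h1
    have hα0 : α = 0 := by
      obtain ⟨b, hb⟩ := hb
      have h1 := congrArg (fun q => Polynomial.coeff q (dg b - 1)) (hga b)
      rw [hκ0, h0] at h1
      simp only [Polynomial.coeff_add, Polynomial.coeff_smul, smul_eq_mul,
        Polynomial.coeff_zero, zero_mul, add_zero, Pi.zero_apply] at h1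
      have h3 : dg b - 1 + 1 = dg b := by have := hL.pos b; omega
      rw [Polynomial.coeff_derivative, h3, rho_coeff hL.x_ne hL.sx hL.sy (hL.hom b)] at h1
      have h4 : ((dg b - 1 : ℕ) : K) + 1 = dg b := by exact_mod_cast h3
      rw [h4] at h1
      have h5 : (dg b : K) ≠ 0 := by
        have := hL.pos b
        exact_mod_cast this.ne'
      exact (mul_eq_zero.1 h1).resolve_right (mul_ne_zero (hL.ne b hb) h5)
    apply hne
    rw [hz, hα0, zero_smul, h0, hκ0]
    rfl
  refine ⟨-(α / c), fun b hb => ?_⟩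
  have h1 := hga b
  have h2 : κ b = -(c * dg b) := by linear_combination hlead b hb
  rw [h2, Polynomial.smul_eq_C_mul, Polynomial.smul_eq_C_mul, Polynomial.smul_eq_C_mul] at h1
  have h3 : (Polynomial.C c) ≠ 0 := Polynomial.C_ne_zero.2 hc0
  apply mul_left_cancel₀ h3
  have h4 : Polynomial.C α = Polynomial.C c * Polynomial.C (α / c) := by
    rw [← map_mul, mul_div_cancel₀ _ hc0]
  rw [h4] at h1
  simp only [map_neg, map_mul, Polynomial.C_eq_natCast] at h1 ⊢
  linear_combination h1

end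

end Pool.Agent.Y741
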