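import Pool.Agent.Y741.Comb

/-!
The combination of the cases for complete intersections without boundary.
-/

set_option autoImplicit false

open MvPolynomial FF Pool.Agent.W603.LV Pool.Agent.W603.PV Pool.Agent.TH145.GH
open Pool.Agent.Y735 (lf dt pl rho eval_rho mem_Mx exists_ms_mt po exists_scaled' zp zp_pl
  exists_xi ge_eval_sub line_basis fht sum_two fht_nonneg fht_fin Good exists_pl zp_smul rho_deg
  rho_pdz_x)

namespace Pool.Agent.Y741

section

variable {K : Type} [Field K] {n : ℕ} {A : Type}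
variable [Fintype A] [DecidableEq A] {F : Fam K n A} {dg : A → ℕ}
  {D : A → (Fin (n + 1) →₀ ℕ) → Derivation ℤ K K}
  {C : Finset A} {x y ms mt : Fin (n + 1) → K} [CharZero K] (hL : LineData F dg D C x y ms mt)
include hL

/-- The restrictions of the forms to the line are constant. -/
theorem LineData.line_der
    (hr : 2 * Module.finrank K (Vl F dg D x y) + 2 + C.card ≤
      Module.finrank K (Wsp F D x) + (n + 1))
    (hd : ∑ a, dg a + C.card + Module.finrank K (Vl F dg D x y) ≤ 2 * n + 1)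
    (hC : ∀ a, a ∈ C) (a0 : A) : Polynomial.derivative (rho x y (F a0)) = 0 := by
  have hcard : (C.erase a0).card + 1 = C.card := Finset.card_erase_add_one (hC a0)
  -- the conditions
  obtain ⟨l, hl⟩ : ∃ l : Pr K n A →ₗ[K] (Option (Option (C.erase a0)) → K),
      ∀ p, l p = fun o => match o with
        | none => dt mt p.1
        | some none => p.2.2 a0
        | some (some c) => p.2.2 c.1 := by
    refine ⟨LinearMap.pi fun o => match o with
      | none => (∑ i, mt i • LinearMap.proj (R := K) (φ := fun _ : Fin (n + 1) => K) i) ∘ₗ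
          LinearMap.fst K _ _
      | some none => LinearMap.proj a0 ∘ₗ LinearMap.snd K _ _ ∘ₗ LinearMap.snd K _ _
      | some (some c) => LinearMap.proj c.1 ∘ₗ LinearMap.snd K _ _ ∘ₗ LinearMap.snd K _ _,
      fun p => ?_⟩
    funext o
    rcases o with _ | _ | c
    · simp only [LinearMap.pi_apply, LinearMap.comp_apply, LinearMap.fst_apply,
        LinearMap.coe_sum, Finset.sum_apply, LinearMap.smul_apply, LinearMap.proj_apply,
        smul_eq_mul]
      rfl
    · rfl
    · rfl
  obtain ⟨⟨z, c, κ⟩, hne, hg, hlp⟩ := hL.exists_ker l (by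
    rw [Fintype.card_option, Fintype.card_option, Fintype.card_coe]
    omega)
  rw [hl] at hlp
  have hβ : dt mt z = 0 := congrFun hlp none
  have hκ0 : κ a0 = 0 := congrFun hlp (some none)
  have hκ : κ = 0 := by
    funext a
    by_cases ha : a = a0
    · rw [ha, hκ0]; rfl
    · exact congrFun hlp (some (some ⟨a, Finset.mem_erase.2 ⟨ha, hC a⟩⟩))
  have hz := hL.gam_ker hr hg
  rw [hβ, zero_smul, add_zero] at hz
  obtain ⟨α, hα⟩ : ∃ α, α = dt ms z := ⟨_, rfl⟩
  rw [← hα] at hz
  have h1 := congrFun hg a0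
  rw [hz, gam_apply, map_smul, map_smul, rho_pdz_x, hκ, Pi.zero_apply, zero_smul, add_zero,
    Pi.zero_apply, Polynomial.smul_eq_C_mul, Polynomial.smul_eq_C_mul, ← mul_assoc, ← add_mul]
    at h1
  refine (mul_eq_zero.1 h1).resolve_left fun h2 => hne ?_
  have h3 := congrArg (fun q => Polynomial.coeff q 0) h2
  have h4 := congrArg (fun q => Polynomial.coeff q 1) h2
  simp only [Polynomial.coeff_add, Polynomial.coeff_C_zero, Polynomial.mul_coeff_zero,
    Polynomial.coeff_X_zero, mul_zero, add_zero, Polynomial.coeff_zero] at h3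
  simp only [Polynomial.coeff_add, Polynomial.coeff_C_succ, Polynomial.coeff_C_mul,
    Polynomial.coeff_X_one, mul_one, zero_add, Polynomial.coeff_zero] at h4
  rw [hz, hκ, h3, h4, zero_smul]
  rfl

/-- At most one of the forms does not vanish on the line. -/
theorem LineData.line_two
    (hr : 2 * Module.finrank K (Vl F dg D x y) + 2 + C.card ≤
      Module.finrank K (Wsp F D x) + (n + 1))
    (hd : ∑ a, dg a + C.card + Module.finrank K (Vl F dg D x y) ≤ 2 * n + 1)
    (hC : ∀ a, a ∈ C) {a0 a1 : A} (h01 : a0 ≠ a1) :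
    rho x y (F a0) = 0 ∨ rho x y (F a1) = 0 := by
  have hcard : ((C.erase a0).erase a1).card + 2 = C.card := by
    have h1 := Finset.card_erase_add_one (hC a0)
    have h2 := Finset.card_erase_add_one (Finset.mem_erase.2 ⟨h01.symm, hC a1⟩ : a1 ∈ C.erase a0)
    omega
  -- the conditions
  obtain ⟨l, hl⟩ : ∃ l : Pr K n A →ₗ[K] (Option (Option (Option ((C.erase a0).erase a1))) → K),
      ∀ p, l p = fun o => match o with
        | none => dt mt p.1
        | some none => dt ms p.1
        | some (some none) => p.2.1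
        | some (some (some c)) => p.2.2 c.1 := by
    refine ⟨LinearMap.pi fun o => match o with
      | none => (∑ i, mt i • LinearMap.proj (R := K) (φ := fun _ : Fin (n + 1) => K) i) ∘ₗ
          LinearMap.fst K _ _
      | some none => (∑ i, ms i • LinearMap.proj (R := K) (φ := fun _ : Fin (n + 1) => K) i) ∘ₗ
          LinearMap.fst K _ _
      | some (some none) => LinearMap.fst K _ _ ∘ₗ LinearMap.snd K _ _
      | some (some (some c)) => LinearMap.proj c.1 ∘ₗ LinearMap.snd K _ _ ∘ₗ LinearMap.snd K _ _,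
      fun p => ?_⟩
    funext o
    rcases o with _ | _ | _ | c
    · simp only [LinearMap.pi_apply, LinearMap.comp_apply, LinearMap.fst_apply,
        LinearMap.coe_sum, Finset.sum_apply, LinearMap.smul_apply, LinearMap.proj_apply,
        smul_eq_mul]
      rfl
    · simp only [LinearMap.pi_apply, LinearMap.comp_apply, LinearMap.fst_apply,
        LinearMap.coe_sum, Finset.sum_apply, LinearMap.smul_apply, LinearMap.proj_apply,
        smul_eq_mul]
      rfl
    · rfl
    · rfl
  obtain ⟨⟨z, c, κ⟩, hne, hg, hlp⟩ := hL.exists_ker l (by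
    rw [Fintype.card_option, Fintype.card_option, Fintype.card_option, Fintype.card_coe]
    omega)
  rw [hl] at hlp
  have hβ : dt mt z = 0 := congrFun hlp none
  have hα : dt ms z = 0 := congrFun hlp (some none)
  have hc : c = 0 := congrFun hlp (some (some none))
  have hκ : ∀ a, a ≠ a0 → a ≠ a1 → κ a = 0 := fun a h0 h1 =>
    congrFun hlp (some (some (some ⟨a, Finset.mem_erase.2 ⟨h1, Finset.mem_erase.2 ⟨h0, hC a⟩⟩⟩)))
  have hz := hL.gam_ker hr hg
  rw [hβ, hα, zero_smul, zero_smul, add_zero] at hz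
  have hga : ∀ a, κ a • rho x y (F a) = 0 := by
    intro a
    have h1 := congrFun hg a
    rw [hz, hc, gam_apply, map_zero, map_zero, zero_smul, zero_add, zero_add] at h1
    exact h1
  by_contra hcon
  push Not at hcon
  apply hne
  have h1 : κ = 0 := by
    funext a
    by_cases ha0 : a = a0
    · rw [ha0]; exact (smul_eq_zero.1 (hga a0)).resolve_right hcon.1
    · by_cases ha1 : a = a1
      · rw [ha1]; exact (smul_eq_zero.1 (hga a1)).resolve_right hcon.2
      · exact hκ a ha0 ha1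
  rw [hz, hc, h1]
  rfl

end

variable {k K : Type} [Field k] [Field K] [Algebra k K] {n : ℕ} {A : Type}

/-- The local inequality for a point of maximal multiplicity. -/
theorem line_local_d {d : ℕ} (hd0 : 0 < d) {F : MvPolynomial (Fin (n + 1)) K}
    (hF : F.IsHomogeneous d) {x y : Fin (n + 1) → K}
    (hxF : ∀ a b : K, eval (a • x + b • y) F = b ^ d * eval y F)
    {ik : Fin (n + 1) × Fin (n + 1)} (hik : pl x y ik ≠ 0) {ξ : Fin (n + 1) → k}
    (hξ : eval (zp (pl x y) fun i => algebraMap k K (ξ i)) F ≠ 0) (P : Place k K) {g : ℤ}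
    (hc : ∀ u, Ge P (-g) (F.coeff u)) :
    (-d) * pord P x + d * po P (pl x y) + d * P.ord (∑ i, algebraMap k K (ξ i) * x i) - g ≤
      P.ord (eval (zp (pl x y) fun i => algebraMap k K (ξ i)) F) := by
  classical
  have hx0 : x ≠ 0 := by
    rintro rfl
    apply hik
    simp [pl]
  have hp0 : pl x y ≠ 0 := fun h0 => hik (by rw [h0]; rfl)
  obtain ⟨lam, x', hlam, hlamP, hxx, hx', a, ha⟩ := exists_scaled P hx0
  obtain ⟨mu, p', hmu, hmuP, hpp, hp', -⟩ := exists_scaled' P hp0
  obtain ⟨η, hη⟩ : ∃ η : Fin (n + 1) → K, η = fun i => algebraMap k K (ξ i) := ⟨_, rfl⟩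
  rw [← hη] at hξ ⊢
  have hηi : ∀ i, algebraMap k K (ξ i) = η i := fun i => by rw [hη]
  simp only [hηi]
  obtain ⟨y', hy'⟩ : ∃ y' : Fin (n + 1) → K, y' = fun i => p' (a, i) := ⟨_, rfl⟩
  have hpl := line_basis hlam hmu hxx hpp ha
  rw [← hy'] at hpl
  have hy'i : ∀ i, Ge P 0 (y' i) := fun i => by rw [hy']; exact hp' _
  obtain ⟨s, hs⟩ : ∃ s, s = ∑ i, η i * x' i := ⟨_, rfl⟩
  obtain ⟨t, ht⟩ : ∃ t, t = ∑ i, η i * y' i := ⟨_, rfl⟩
  have hz : zp (pl x y) η = mu • (s • y' + (-t) • x') := by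
    rw [hpp, zp_smul, hpl, zp_pl, hs, ht]
  have hsx : ∑ i, η i * x i = lam * s := by
    rw [hs, Finset.mul_sum]
    refine Finset.sum_congr rfl fun i _ => ?_
    rw [hxx, Pi.smul_apply, smul_eq_mul]; ring
  rw [hz, eval_smul_hom hF] at hξ ⊢
  -- `y'` in terms of `x` and `y`
  have hyy : y' = (-(y a / mu)) • x + (x a / mu) • y := by
    funext i
    have h2 := congrFun hpp (a, i)
    rw [Pi.smul_apply, smul_eq_mul] at h2
    rw [hy']
    simp only [Pi.add_apply, Pi.smul_apply, smul_eq_mul]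
    have h3 : p' (a, i) = pl x y (a, i) / mu := by rw [h2]; field_simp
    rw [h3, pl]
    field_simp
    ring
  have hx'x : x' = lam⁻¹ • x := by rw [hxx, smul_smul, inv_mul_cancel₀ hlam, one_smul]
  have hy'F : eval y' F = (x a / mu) ^ d * eval y F := by rw [hyy]; exact hxF _ _
  have hval : eval (s • y' + (-t) • x') F = s ^ d * eval y' F := by
    rw [hy'F]
    have h1 : s • y' + (-t) • x' = (s * (-(y a / mu)) + (-t) * lam⁻¹) • x +
        (s * (x a / mu)) • y := by
      rw [hx'x, hyy, smul_add, smul_smul, smul_smul, smul_smul, add_smul]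
      abel
    rw [h1, hxF, mul_pow]
    ring
  rw [hval] at hξ ⊢
  have hne : s ^ d * eval y' F ≠ 0 := right_ne_zero_of_mul hξ
  have hy0 : eval y' F ≠ 0 := right_ne_zero_of_mul hne
  have hs0 : s ≠ 0 := by
    rintro rfl
    apply left_ne_zero_of_mul hne
    exact zero_pow hd0.ne'
  have h3 := (ge_eval P hy'i hc).resolve_left hy0
  rw [P.ord_mul (pow_ne_zero _ hmu) hne, P.ord_pow, P.ord_mul (pow_ne_zero _ hs0) hy0, P.ord_pow,
    hsx, P.ord_mul hlam hs0, hlamP, hmuP]
  linarith

section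
variable [CharZero k] [IsFF k K] [IsAlgClosed k] [DecidableEq A] [Fintype A] {F : Fam K n A}
  {dg : A → ℕ} {D : A → (Fin (n + 1) →₀ ℕ) → Derivation ℤ K K} {e g : Place k K → ℤ}

omit [DecidableEq A] [Fintype A] in
/-- The height of a point of maximal multiplicity of a line. -/
theorem DataL.line_ht_d (hdat : DataL k F dg D e g) {c : A} {x y : Fin (n + 1) → K}
    (hxF : ∀ a b : K, eval (a • x + b • y) (F c) = b ^ dg c * eval y (F c))
    {ik : Fin (n + 1) × Fin (n + 1)} (hik : pl x y ik ≠ 0) {a b : K}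
    (hab : eval (a • x + b • y) (F c) ≠ 0) :
    dg c * pht k x ≤ dg c * fht k (pl x y) + ∑ᶠ P, g P := by
  have hx0 : x ≠ 0 := by
    rintro rfl
    apply hik
    simp [pl]
  have hp0 : pl x y ≠ 0 := fun h0 => hik (by rw [h0]; rfl)
  obtain ⟨ξ, hξ⟩ := exists_xi (k := k) hik hab
  have := sum_two (k := k) hx0 hp0 hdat.fin_g
    (fun P => line_local_d (hdat.pos c) (hdat.hom c) hxF hik hξ P (hdat.coef P c))
  linarith

/-- The integrability, without boundary. -/
theorem on_lineK [CharZero K] (hpos : ∀ a, 0 < dg a) (hF : ∀ a, (F a).IsHomogeneous (dg a))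
    (hD : TH145.GC.Dual F dg D) (hcm : Comm D)
    {x : Fin (n + 1) → K} (hxC : ∀ a, eval x (F a) = 0) {y : Fin (n + 1) → K}
    {ik : Fin (n + 1) × Fin (n + 1)} (hik : pl x y ik ≠ 0)
    (hr : 2 * Module.finrank K (Vl F dg D x y) + 2 + Fintype.card A ≤
      Module.finrank K (Wsp F D x) + (n + 1))
    (hd : ∑ a, dg a + Fintype.card A + Module.finrank K (Vl F dg D x y) ≤ 2 * n + 1) :
    OnL F Finset.univ x y ∨ ∃ c, (∀ a b : K, eval (a • x + b • y) (F c) =
      b ^ dg c * eval y (F c)) ∧ ∃ a b : K, eval (a • x + b • y) (F c) ≠ 0 := by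
  obtain ⟨ms, mt, h1, h2, h3, h4⟩ := exists_ms_mt hik
  have hL : LineData F dg D Finset.univ x y ms mt :=
    ⟨hpos, hF, hD, hcm, fun c _ => hxC c, fun b hb => absurd (Finset.mem_univ b) hb,
      h1, h2, h3, h4⟩
  have hder := fun a => hL.line_der (by rw [Finset.card_univ]; exact hr)
    (by rw [Finset.card_univ]; exact hd) (fun a => Finset.mem_univ a) a
  by_cases hz : OnL F Finset.univ x y
  · exact Or.inl hz
  · right
    unfold OnL at hz
    push Not at hz
    obtain ⟨c, -, a, b, hab⟩ := hz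
    refine ⟨c, fun a b => ?_, a, b, hab⟩
    obtain ⟨q, hq⟩ : ∃ q, q = rho x y (F c) := ⟨_, rfl⟩
    have h5 : rho x y (F c) = Polynomial.C (eval y (F c)) := by
      have h6 := Polynomial.derivative_eq_zero.1 (hder c)
      have h7 := Polynomial.eq_C_of_natDegree_eq_zero h6
      have h8 : (rho x y (F c)).coeff 0 = eval y (F c) := by
        have h9 : (rho x y (F c)).eval 0 = eval y (F c) := by
          rw [eval_rho, zero_smul, zero_add]
        rw [← h9]
        exact (Polynomial.coeff_zero_eq_eval_zero _)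
      rw [h8] at h7
      exact h7
    by_cases hb : b = 0
    · rw [hb, zero_smul, add_zero, eval_smul_hom (hF c), hxC c, mul_zero,
        zero_pow (hpos c).ne', zero_mul]
    · have h6 : a • x + b • y = b • ((a / b) • x + y) := by
        rw [smul_add, smul_smul, mul_div_cancel₀ _ hb]
      rw [h6, eval_smul_hom (hF c), ← eval_rho, h5, Polynomial.eval_C]

/-- The height of the points that are not on lines. -/
theorem combineK [CharZero K] (hdat : DataL k F dg D e g) (hcm : Comm D) (hn : 1 ≤ n)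
    (hd : 3 * n + 3 ≤ 2 * ∑ a, dg a + Fintype.card A)
    {x : Fin (n + 1) → K} (hxC : ∀ a, eval x (F a) = 0) (hx0 : x ≠ 0) :
    (∃ (y : Fin (n + 1) → K) (ik : Fin (n + 1) × Fin (n + 1)), pl x y ik ≠ 0 ∧
      OnL F Finset.univ x y) ∨
    pht k x ≤ ((∑ a, dg a : ℕ) + 1) * (CL n A e g + ∑ᶠ P, g P) := by
  classical
  have hxC' : ∀ c ∈ (Finset.univ : Finset A), eval x (F c) = 0 := fun c _ => hxC c
  have hxb : ∀ b, b ∉ (Finset.univ : Finset A) → eval x (F b) ≠ 0 := fun b hb =>
    absurd (Finset.mem_univ b) hb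
  have hP : PlOK dg D e F Finset.univ x := fun P => Or.inl fun b hb =>
    absurd (Finset.mem_univ b) hb
  have hCn := hdat.CL_nonneg
  have hg : 0 ≤ ∑ᶠ P, g P := finsum_nonneg fun P => hdat.g_nonneg P
  have hh := pht_nonneg (k := k) hx0
  have hker := TC_finrank hdat.hom hdat.dual hxC' hx0
  have hWle := Wsp_le hdat.pos hdat.hom hdat.dual hxC'
  have hwn := Submodule.finrank_mono hWle
  have hw1 : 1 ≤ Module.finrank K (Wsp F D x) :=
    (finrank_span_singleton (K := K) hx0).symm.le.trans (Submodule.finrank_mono le_sup_left)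
  have hcu : (Finset.univ : Finset A).card = Fintype.card A := Finset.card_univ
  obtain ⟨S, hS⟩ : ∃ S, S = ∑ a, dg a := ⟨_, rfl⟩
  obtain ⟨H, hH⟩ : ∃ H, H = CL n A e g := ⟨_, rfl⟩
  obtain ⟨G, hGG⟩ : ∃ G, G = ∑ᶠ P, g P := ⟨_, rfl⟩
  obtain ⟨h, hhh⟩ : ∃ h, h = pht k x := ⟨_, rfl⟩
  obtain ⟨N, hN⟩ : ∃ N, N = Module.finrank K (TC F Finset.univ x) := ⟨_, rfl⟩
  obtain ⟨w, hw⟩ : ∃ w, w = Module.finrank K (Wsp F D x) := ⟨_, rfl⟩
  rw [← hS, ← hH, ← hGG, ← hhh]
  rw [← hH] at hCn
  rw [← hGG] at hg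
  rw [← hhh] at hh
  rw [← hS] at hd
  rw [← hN, hcu] at hker
  rw [← hw, ← hN] at hwn
  rw [← hw] at hw1
  have hSC : 0 ≤ (S : ℤ) * H := mul_nonneg (by positivity) hCn
  have hSG : 0 ≤ (S : ℤ) * G := mul_nonneg (by positivity) hg
  have hfin : h ≤ S * H + H + G → h ≤ ((S : ℤ) + 1) * (H + G) := fun h1 => by nlinarith
  -- points on lines of bounded height
  have hline : ∀ (y : Fin (n + 1) → K) (ik : Fin (n + 1) × Fin (n + 1)), pl x y ik ≠ 0 →
      fht k (pl x y) ≤ H → ((∃ (y : Fin (n + 1) → K) (ik : Fin (n + 1) × Fin (n + 1)),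
        pl x y ik ≠ 0 ∧ OnL F Finset.univ x y) ∨ h ≤ ((S : ℤ) + 1) * (H + G)) := by
    intro y ik hik hl
    by_cases hz : OnL F Finset.univ x y
    · exact Or.inl ⟨y, ik, hik, hz⟩
    · unfold OnL at hz
      push Not at hz
      obtain ⟨c, hc, a, b, hab⟩ := hz
      have h1 := hdat.line_ht (hxC c) hik hab
      right
      apply hfin
      rw [← hhh, ← hGG] at h1
      have h2 : (dg c : ℤ) * fht k (pl x y) ≤ dg c * H :=
        mul_le_mul_of_nonneg_left hl (by positivity)
      have h3 : (dg c : ℤ) ≤ S := by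
        rw [hS]
        exact_mod_cast Finset.single_le_sum (f := dg) (fun _ _ => Nat.zero_le _)
          (Finset.mem_univ c)
      have h4 : (dg c : ℤ) * H ≤ S * H := mul_le_mul_of_nonneg_right h3 hCn
      linarith
  by_cases hG : Good (Bset D x dg) (TC F Finset.univ x) (Wsp F D x)
  · rcases Nat.even_or_odd' (N - w) with ⟨p, hp | hp⟩
    · right
      have h1 := case_even hdat hn hxC' hxb hx0 hP hG (p := p) (by rw [← hw, hcu]; omega)
      rw [← hH, ← hhh, ← hS] at h1
      have h2 : (1 : ℤ) ≤ (S : ℤ) - ((n + 1 + p : ℕ) : ℤ) := by omega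
      have h3 : h ≤ H := by nlinarith
      apply hfin
      linarith
    · obtain ⟨y, ik, hik, h1⟩ := case_odd hdat hxC' hxb hx0 hP hG (p := p) (by
        rw [← hw, hcu]; omega)
      rw [← hH, ← hhh, ← hS] at h1
      have h2 : (0 : ℤ) ≤ (S : ℤ) - ((n + 1 + p + 1 : ℕ) : ℤ) := by omega
      exact hline y ik hik (by nlinarith)
  · unfold Good at hG
    push Not at hG
    obtain ⟨φ, hφ0, hφ⟩ := hG
    obtain ⟨y, hy, ik, hik⟩ := exists_pl hx0 hφ0
    rw [← Vl_eq F dg D hy, ← hN, ← hw] at hφ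
    have hWV : w ≤ Module.finrank K (Vl F dg D x y) := by
      rw [hw]
      exact Submodule.finrank_mono le_sup_left
    have hL := fun h1 h2 => on_lineK hdat.pos hdat.hom hdat.dual hcm hxC hik h1 h2
    obtain ⟨v, hv⟩ : ∃ v, v = Module.finrank K (Vl F dg D x y) := ⟨_, rfl⟩
    have hcl := case_line hdat hxC' hxb hP hik (j := v - w) (r := N - v)
      (by rw [← hw, ← hv]; rw [← hv] at hWV; omega)
      (by rw [← hv, hcu]; rw [← hv] at hφ; omega)
    rw [← hv] at hφ hWV
    rw [← hv, ← hw] at hL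
    have hl0 : 0 ≤ fht k (pl x y) := fht_nonneg fun h0 => hik (by rw [h0]; rfl)
    rw [← hH, ← hhh, ← hS] at hcl
    rw [← hS] at hL
    obtain ⟨l, hll⟩ : ∃ l, l = fht k (pl x y) := ⟨_, rfl⟩
    rw [← hll] at hcl hl0
    by_cases h1 : S + Fintype.card A + v ≤ 2 * n + 1
    · rcases hL (by omega) h1 with h2 | ⟨c, h2, a, b, hab⟩
      · exact Or.inl ⟨y, ik, hik, h2⟩
      · right
        have h3 := hdat.line_ht_d h2 hik hab
        rw [← hhh, ← hGG, ← hll] at h3
        have hd1 : (1 : ℤ) ≤ dg c := by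
          have := hdat.pos c
          omega
        have h4 : h ≤ l + G := by
          by_contra hcon
          push Not at hcon
          have h7 : (dg c : ℤ) * (l + G + 1) ≤ dg c * h :=
            mul_le_mul_of_nonneg_left (by omega) (by omega)
          have h8 : G ≤ dg c * G := le_mul_of_one_le_left hg hd1
          have h9 : (dg c : ℤ) * (l + G + 1) = dg c * l + dg c * G + dg c := by ring
          linarith
        obtain ⟨c1, hc1⟩ : ∃ c1 : ℤ, c1 = ((n + 1 + (N - v) : ℕ) : ℤ) - S := ⟨_, rfl⟩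
        obtain ⟨s, hs⟩ : ∃ s : ℤ, s = ((N - v : ℕ) : ℤ) - ((v - w : ℕ) : ℤ) := ⟨_, rfl⟩
        have hc11 : 1 ≤ c1 := by omega
        have hsc : c1 + 1 ≤ s := by omega
        have hcS : c1 ≤ S := by omega
        rw [← hs] at hcl
        have h5 : (S : ℤ) - ((n + 1 + (N - v) : ℕ) : ℤ) = -c1 := by rw [hc1]; ring
        rw [h5] at hcl
        have h6 : c1 * h ≤ c1 * (l + G) := mul_le_mul_of_nonneg_left h4 (by omega)
        have h7 : (c1 + 1) * l ≤ s * l := mul_le_mul_of_nonneg_right hsc hl0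
        have h8 : c1 * G ≤ S * G := mul_le_mul_of_nonneg_right hcS hg
        nlinarith
    obtain ⟨s, hs⟩ : ∃ s : ℤ, s = ((N - v : ℕ) : ℤ) - ((v - w : ℕ) : ℤ) := ⟨_, rfl⟩
    have hs2 : 2 ≤ s := by omega
    rw [← hs] at hcl
    by_cases h2 : S + Fintype.card A + v = 2 * n + 2
    · have h5 : (S : ℤ) - ((n + 1 + (N - v) : ℕ) : ℤ) = 0 := by omega
      rw [h5] at hcl
      exact hline y ik hik (by rw [← hll]; nlinarith)
    · right
      have h5 : 1 ≤ (S : ℤ) - ((n + 1 + (N - v) : ℕ) : ℤ) := by omega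
      have h6 : h ≤ H := by nlinarith
      apply hfin
      linarith

end

end Pool.Agent.Y741
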