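import Pool.Agent.Y741.FinW
import Pool.Agent.TH145.GC.Setup

/-!
The finitely generated fields.
-/

set_option autoImplicit false

open MvPolynomial Pool.Agent.TH145.GH
open Pool.Agent.TH145.GC (Gen Cf finite_cf)
open Pool.Agent.Y735 (rho eval_rho rho_X pl fht rho_deg fht_nonneg)

namespace Pool.Agent.Y741

/-- Derivations that are constant on a transcendence basis commute. -/
theorem comm_of {k0 K ι : Type} [Field k0] [Field K] [Algebra k0 K] [CharZero K] {y : ι → K}
    (hy : IsTranscendenceBasis k0 y) {n : ℕ} {A : Type}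
    {D : A → (Fin (n + 1) →₀ ℕ) → Derivation ℤ K K}
    (hDk : ∀ a I (r : k0), D a I (algebraMap k0 K r) = 0)
    (hDy : ∀ a I j, ∃ r : k0, D a I (y j) = algebraMap k0 K r) : Comm D := by
  intro a b I J f
  have h1 : ⁅D a I, D b J⁆ f = 0 := by
    have h2 : ∀ z ∈ (IntermediateField.adjoin k0 (Set.range y)).toSubfield,
        z ∈ (⊤ : Subfield K) ∧ ⁅D a I, D b J⁆ z = 0 := by
      intro z hz
      rw [IntermediateField.adjoin_toSubfield] at hz
      refine ⟨trivial, ?_⟩
      induction hz using Subfield.closure_induction with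
      | mem x hx =>
        rcases hx with ⟨r, rfl⟩ | ⟨j, rfl⟩
        · rw [Derivation.commutator_apply, hDk, hDk, map_zero, map_zero, sub_zero]
        · obtain ⟨r, hr⟩ := hDy b J j
          obtain ⟨r', hr'⟩ := hDy a I j
          rw [Derivation.commutator_apply, hr, hr', hDk, hDk, sub_zero]
      | one => exact Derivation.map_one_eq_zero _
      | add x y _ _ hx hy => rw [map_add, hx, hy, add_zero]
      | neg x _ hx => rw [map_neg, hx, neg_zero]
      | inv x _ hx =>
        rw [Derivation.leibniz_inv, hx, smul_zero]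
      | mul x y _ _ hx hy => rw [Derivation.leibniz, hx, hy, smul_zero, smul_zero, add_zero]
    have h3 : Algebra.IsAlgebraic (IntermediateField.adjoin k0 (Set.range y)) K :=
      hy.isAlgebraic_field
    exact TH145.GC.der_zero_of_alg ⁅D a I, D b J⁆
      (IntermediateField.adjoin k0 (Set.range y)).toSubfield (fun z hz => (h2 z hz).2)
      (h3.isAlgebraic f)
  rw [Derivation.commutator_apply] at h1
  exact sub_eq_zero.1 h1

section few

variable {L Ω : Type} [Field L] [Field Ω] (ψ : L →+* Ω) {N : ℕ}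

theorem few_map {S : Set (Fin N → L)} (h : Few S) :
    Few ((fun (x : Fin N → L) j => ψ (x j)) '' S) := by
  obtain ⟨𝓦, h1, h2, h3⟩ := h
  have h4 : ∀ W ∈ 𝓦, Module.finrank Ω (Submodule.span Ω
      ((fun (x : Fin N → L) j => ψ (x j)) '' (W : Set (Fin N → L)))) ≤ 2 := by
    intro W hW
    obtain ⟨b⟩ : Nonempty (Module.Basis (Fin (Module.finrank L W)) L W) :=
      ⟨Module.finBasis L W⟩
    have h5 : Submodule.span Ω ((fun (x : Fin N → L) j => ψ (x j)) '' (W : Set (Fin N → L))) ≤
        Submodule.span Ω (Set.range fun i j => ψ ((b i : Fin N → L) j)) := by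
      rw [Submodule.span_le]
      rintro _ ⟨x, hx, rfl⟩
      have h6 : x ∈ Submodule.span L (Set.range fun i => (b i : Fin N → L)) := by
        have h7 := b.span_eq
        have h8 : (⟨x, hx⟩ : W) ∈ Submodule.span L (Set.range b) := by rw [h7]; trivial
        have h9 := Submodule.mem_map_of_mem (f := W.subtype) h8
        rw [Submodule.map_span, ← Set.range_comp] at h9
        exact h9
      have h7 := span_asc ψ h6
      rw [← Set.range_comp] at h7
      exact h7
    refine (Submodule.finrank_mono h5).trans ((finrank_range_le_card _).trans ?_)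
    rw [Fintype.card_fin]
    exact h2 W hW
  refine ⟨(fun W : Submodule L (Fin N → L) => Submodule.span Ω
    ((fun (x : Fin N → L) j => ψ (x j)) '' (W : Set (Fin N → L)))) '' 𝓦, h1.image _, ?_, ?_⟩
  · rintro _ ⟨W, hW, rfl⟩
    exact h4 W hW
  · rintro _ ⟨x, hx, rfl⟩
    obtain ⟨W, hW, hxW⟩ := h3 x hx
    exact ⟨_, ⟨W, hW, rfl⟩, Submodule.subset_span ⟨x, hxW, rfl⟩⟩

theorem few_mono {S S' : Set (Fin N → L)} (h : Few S) (hS : S' ⊆ S) : Few S' := by
  obtain ⟨𝓦, h1, h2, h3⟩ := h
  exact ⟨𝓦, h1, h2, fun x hx => h3 x (hS hx)⟩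

theorem few_comap {S : Set (Fin N → L)} (h : Few ((fun (x : Fin N → L) j => ψ (x j)) '' S)) :
    Few S := by
  obtain ⟨𝓦, h1, h2, h3⟩ := h
  obtain ⟨g, hg⟩ : ∃ g : Submodule Ω (Fin N → Ω) → Submodule L (Fin N → L),
      ∀ W x, x ∈ g W ↔ (fun j => ψ (x j)) ∈ W := by
    refine ⟨fun W =>
      { carrier := {x | (fun j => ψ (x j)) ∈ W}
        add_mem' := fun {x y} hx hy => by
          have h4 : (fun j => ψ ((x + y) j)) = (fun j => ψ (x j)) + fun j => ψ (y j) := by
            funext j
            rw [Pi.add_apply, map_add, Pi.add_apply]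
          rw [Set.mem_ofPred_eq, h4]
          exact add_mem hx hy
        zero_mem' := by
          have h4 : (fun j => ψ ((0 : Fin N → L) j)) = 0 := by
            funext j
            rw [Pi.zero_apply, map_zero, Pi.zero_apply]
          rw [Set.mem_ofPred_eq, h4]
          exact zero_mem _
        smul_mem' := fun r x hx => by
          have h4 : (fun j => ψ ((r • x) j)) = ψ r • fun j => ψ (x j) := by
            funext j
            rw [Pi.smul_apply, Pi.smul_apply, smul_eq_mul, smul_eq_mul, map_mul]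
          rw [Set.mem_ofPred_eq, h4]
          exact Submodule.smul_mem _ _ hx }, fun W x => Iff.rfl⟩
  refine ⟨g '' 𝓦, h1.image _, ?_, fun x hx => ?_⟩
  · rintro _ ⟨W, hW, rfl⟩
    have b := Module.finBasis L (g W)
    have h4 : LinearIndependent L fun i => ((b i : g W) : Fin N → L) := by
      have := b.linearIndependent.map' (g W).subtype (Submodule.ker_subtype _)
      exact this
    have h5 := li_asc ψ h4
    have h6 : LinearIndependent Ω (fun i => (⟨fun j => ψ ((b i : Fin N → L) j),
        (hg W _).1 (b i).2⟩ : W)) := by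
      refine LinearIndependent.of_comp W.subtype ?_
      exact h5
    have h7 := h6.fintype_card_le_finrank
    rw [Fintype.card_fin] at h7
    exact h7.trans (h2 W hW)
  · obtain ⟨W, hW, hxW⟩ := h3 _ ⟨x, hx, rfl⟩
    exact ⟨g W, ⟨W, hW, rfl⟩, (hg W x).2 hxW⟩

end few

/-- Finiteness of integral points over a ring generated by a finite set over `k0`. -/
theorem fin_points_V {k0 K : Type} [Field k0] [Field K] [Algebra k0 K] [IsAlgClosed K]
    [CharZero K] [IsAlgClosed k0] {n r : ℕ} {A : Type} [Fintype A] [DecidableEq A] {dg : A → ℕ}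
    {C : Finset A} (hpos : ∀ a, 0 < dg a)
    (hn : 1 ≤ n) (hr : 1 ≤ r)
    (hC : ∃ b, b ∉ C) (hd : 3 * n + 3 ≤ 2 * ∑ a, dg a + C.card) (hM : LineM n A dg C r)
    {F : A → MvPolynomial (Fin (n + 1)) K} (hF : ∀ a, (F a).IsHomogeneous (dg a))
    (hind : AlgebraicIndependent k0 fun p : Cf n dg => (F p.1).coeff p.2.1)
    (T : Finset K) (l0 : Fin (n + 1)) :
    Few {x : Fin (n + 1) → K | (∀ j, x j ∈ IntermediateField.adjoin k0 (T : Set K)) ∧ x l0 = 1 ∧
      (∀ a ∈ C, eval x (F a) = 0) ∧
      (∀ a, a ∉ C → eval x (F a) ≠ 0) ∧ (∀ a, a ∉ C → ∀ j, x j ^ dg a / eval x (F a) ∈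
        Subring.closure (Set.range (algebraMap k0 K) ∪ (T : Set K))) ∧ ¬ Exc r F C x} := by
  classical
  obtain ⟨B, hB, K1, y, E, F1, DE, D, hK1, hc, hy, h1, h2, h3, h4, h5, h6, h7, h8⟩ :=
    TH145.GC.exists_all hF hind T
  have : Finite B := hB
  obtain ⟨T1, hT1, hT1T⟩ : ∃ T1 : Finset K1, (∀ t ∈ T1, t ∈ E) ∧
      ∀ t ∈ T, ∃ t1 ∈ T1, (t1 : K) = t := by
    have h9 : ∀ t : {t // t ∈ T}, ∃ e : K1, e ∈ E ∧ (e : K) = t := fun t =>
      h8 t (IntermediateField.subset_adjoin _ _ t.2)
    choose e he het using h9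
    refine ⟨T.attach.image e, ?_, fun t ht => ?_⟩
    · intro t ht
      obtain ⟨s, -, rfl⟩ := Finset.mem_image.1 ht
      exact he s
    · exact ⟨_, Finset.mem_image_of_mem _ (Finset.mem_attach _ ⟨t, ht⟩), het _⟩
  have h9 := fin_V E hpos hy h3 D h4 h5 h6 (comm_of hy h5 h6) hn hr hC hd hM l0 T1 hT1
  refine few_mono (few_map (algebraMap K1 K) h9) ?_
  rintro x ⟨hx, hxl, hxC, hxF, hxs, hxX⟩
  choose e he hex using fun j => h8 (x j) (hx j)
  have hex' : (fun j => algebraMap K1 K (e j)) = x := funext hex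
  have hev : ∀ a, algebraMap K1 K (eval e (map E.toSubfield.subtype (F1 a))) =
      eval x (F a) := by
    intro a
    rw [← h7, eval_map, eval_map]
    have h10 := hom_eval₂ (F1 a) E.toSubfield.subtype (algebraMap K1 K) e
    rw [h10, hex']
  have heC : ∀ a ∈ C, eval e (map E.toSubfield.subtype (F1 a)) = 0 := fun a ha => by
    apply (algebraMap K1 K).injective
    rw [hev, hxC a ha, map_zero]
  refine ⟨e, ⟨he, ?_, heC, fun a ha => ?_, fun a ha j => ?_, fun hX => hxX ?_⟩,
    funext hex⟩
  · apply Subtype.ext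
    rw [hex, hxl]
    rfl
  · intro h0
    have h10 := hev a
    rw [h0, map_zero] at h10
    exact hxF a ha h10.symm
  · have h10 : Subring.closure (Set.range (algebraMap k0 K) ∪ (T : Set K)) ≤
        (Subring.closure (Set.range (algebraMap k0 K1) ∪ (T1 : Set K1))).map (algebraMap K1 K) := by
      rw [Subring.closure_le]
      rintro z (⟨r, rfl⟩ | hz)
      · exact ⟨algebraMap k0 K1 r, Subring.subset_closure (Or.inl ⟨r, rfl⟩), rfl⟩
      · obtain ⟨t1, ht1, htz⟩ := hT1T z hz
        exact ⟨t1, Subring.subset_closure (Or.inr ht1), htz⟩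
    obtain ⟨w, hw, hwx⟩ := h10 (hxs a ha j)
    have h11 : w = e j ^ dg a / eval e (map E.toSubfield.subtype (F1 a)) := by
      apply (algebraMap K1 K).injective
      rw [hwx, map_div₀, hev, map_pow]
      congr 2
      exact (hex j).symm
    rw [← h11]
    exact hw
  · have h10 := exc_map (algebraMap K1 K) (F := fun a => map E.toSubfield.subtype (F1 a))
      (fun a => (h3.hom a).map _) heC hX
    have h11 : mapF (algebraMap K1 K) (fun a => map E.toSubfield.subtype (F1 a)) = F := by
      funext a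
      unfold mapF
      rw [map_map, h7]
    rwa [h11, hex'] at h10

end Pool.Agent.Y741
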