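import Pool.Agent.Y741.KMain

/-!
Rational points on generic complete intersections: final form.
-/

set_option autoImplicit false

open MvPolynomial FF Pool.Agent.W603.PV Pool.Agent.W602.GT Pool.Agent.TH145.MG
open Pool.Agent.TH145.GH
open LinearAlgebra.Projectivization

namespace Pool.Agent.Y741

/-- The points with coordinates in `E`. -/
def EPts {K A : Type} [Field K] {n : ℕ} (F : A → MvPolynomial (Fin (n + 1)) K)
    (E : Subfield K) : Set (ℙ K (Fin (n + 1) → K)) :=
  {p | (∀ a, eval p.rep (F a) = 0) ∧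
    ∃ x : Fin (n + 1) → K, (∀ i, x i ∈ E) ∧ ∃ hx : x ≠ 0, p = Projectivization.mk K x hx}

/-- Infinitely many points of a line over a finitely generated field. -/
theorem line_inf {K A : Type} [Field K] [CharZero K] {n : ℕ} {F : A → MvPolynomial (Fin (n + 1)) K}
    {W : Submodule K (Fin (n + 1) → K)} (hW : LineIn F W) :
    ∃ T : Finset K, {p | p ∈ EPts F (Subfield.closure (T : Set K)) ∧ p.rep ∈ W}.Infinite := by
  classical
  obtain ⟨x, y, hx, hy, hli⟩ : ∃ x y : Fin (n + 1) → K, x ∈ W ∧ y ∈ W ∧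
      LinearIndependent K ![x, y] := by
    obtain ⟨b⟩ : Nonempty (Module.Basis (Fin 2) K W) := by
      have := Module.finite_of_finrank_pos (R := K) (M := W) (by rw [hW.1]; norm_num)
      exact ⟨Module.finBasisOfFinrankEq K W hW.1⟩
    refine ⟨b 0, b 1, (b 0).2, (b 1).2, ?_⟩
    have h1 := b.linearIndependent.map' W.subtype (Submodule.ker_subtype _)
    have h2 : (![((b 0 : W) : Fin (n + 1) → K), ((b 1 : W) : Fin (n + 1) → K)] :
        Fin 2 → Fin (n + 1) → K) = W.subtype ∘ b := by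
      funext i
      fin_cases i <;> rfl
    rw [h2]
    exact h1
  have hne : ∀ m : ℕ, x + (m : K) • y ≠ 0 := by
    intro m h0
    rw [LinearIndependent.pair_iff] at hli
    exact one_ne_zero (hli 1 m (by rw [one_smul]; exact h0)).1
  refine ⟨Finset.univ.image x ∪ Finset.univ.image y, ?_⟩
  refine Set.infinite_of_injective_forall_mem (f := fun m : ℕ =>
    Projectivization.mk K (x + (m : K) • y) (hne m)) ?_ ?_
  · intro m m' h
    dsimp only at h
    rw [Projectivization.mk_eq_mk_iff'] at h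
    obtain ⟨a, ha⟩ := h
    rw [LinearIndependent.pair_iff] at hli
    have h1 := hli (a - 1) (a * m' - m) (by
      have h2 : (a - 1) • x + (a * m' - m) • y = a • (x + (m' : K) • y) - (x + (m : K) • y) := by
        module
      rw [h2, ha, sub_self])
    have h2 : a = 1 := sub_eq_zero.1 h1.1
    have h3 := h1.2
    rw [h2, one_mul, sub_eq_zero] at h3
    exact_mod_cast h3.symm
  · intro m
    obtain ⟨u, hu⟩ := Projectivization.exists_smul_eq_mk_rep K (x + (m : K) • y) (hne m)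
    have hmem : (Projectivization.mk K (x + (m : K) • y) (hne m)).rep ∈ W := by
      rw [← hu]
      exact W.smul_mem _ (add_mem hx (W.smul_mem _ hy))
    refine ⟨⟨fun a => hW.2 a _ hmem, _, fun i => ?_, hne m, rfl⟩, hmem⟩
    rw [Pi.add_apply, Pi.smul_apply, smul_eq_mul]
    refine add_mem (Subfield.subset_closure ?_) (mul_mem (natCast_mem _ m)
      (Subfield.subset_closure ?_))
    · simp
    · simp

variable {k K : Type} [Field k] [Field K] [IsAlgClosed K] [CharZero K] [Algebra k K] {n : ℕ}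
  {A : Type} [Fintype A] {d : A → ℕ}

/-- Rational points on generic complete intersections. -/
theorem generic_intersections (hn : 1 ≤ n) (hd0 : ∀ a, 0 < d a)
    (hd : 3 * n + 3 ≤ 2 * ∑ a, d a + Fintype.card A)
    (F : A → MvPolynomial (Fin (n + 1)) K) (hF : ∀ a, (F a).IsHomogeneous (d a))
    (I0 : ∀ a, {I : Fin (n + 1) →₀ ℕ // I.degree = d a}) (h0 : ∀ a, (F a).coeff (I0 a).1 ≠ 0)
    (hgen : AlgebraicIndependent k
      fun p : (a : A) × {I : {I : Fin (n + 1) →₀ ℕ // I.degree = d a} // I ≠ I0 a} =>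
        (F p.1).coeff p.2.1.1 / (F p.1).coeff (I0 p.1).1) :
    (∀ T : Finset K, {p | p ∈ EPts F (IntermediateField.adjoin (algebraicClosure k K)
      (T : Set K)).toSubfield ∧ ¬ ∃ W, LineIn F W ∧ p.rep ∈ W}.Finite) ∧
    (∀ W, LineIn F W → ∃ T : Finset K,
      {p | p ∈ EPts F (Subfield.closure (T : Set K)) ∧ p.rep ∈ W}.Infinite) ∧
    (2 * n ≤ ∑ a, d a + Fintype.card A + 1 → (∀ W, ¬ LineIn F W) ∧
      ∀ T : Finset K, (EPts F (IntermediateField.adjoin (algebraicClosure k K)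
        (T : Set K)).toSubfield).Finite) ∧
    (Fintype.card A < n → ∃ (H : MvPolynomial (Fin (n + 1)) K) (e : ℕ), H.IsHomogeneous e ∧
      (∃ v, (∀ a, eval v (F a) = 0) ∧ eval v H ≠ 0) ∧
      ∀ W, LineIn F W → ∀ v ∈ W, v ≠ 0 → eval v H = 0) ∧
    (2 ≤ n → ∀ a, (∀ b, b = a) → Irreducible (F a)) ∧
    ∀ (L : Type) [Field L] [Algebra K L] (w : ℕ) (x : Fin (n + 1) → L), 0 < w →
      2 * n + 2 ≤ ∑ a, d a + Fintype.card A + w → Algebra.trdeg K L = w → x ≠ 0 →
      Algebra.IsAlgebraic (coords K x) L → (∀ a, aeval x (F a) = 0) → GeneralType K L w := by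
  classical
  obtain ⟨h1, h2, h3, h4, h5⟩ := generic_proper hn hd0 hd F hF I0 h0 hgen
  have h6 : ∀ T : Finset K, {p | p ∈ EPts F (IntermediateField.adjoin (algebraicClosure k K)
      (T : Set K)).toSubfield ∧ ¬ ∃ W, LineIn F W ∧ p.rep ∈ W}.Finite := by
    intro T
    refine (h1 T).subset ?_
    rintro p ⟨⟨hp, x, hx, hx0, hpx⟩, hpW⟩
    obtain ⟨u, hu⟩ := Projectivization.exists_smul_eq_mk_rep K x hx0
    rw [← hpx] at hu
    have hu' : x = (u⁻¹ : Kˣ) • p.rep := by rw [← hu, smul_smul, inv_mul_cancel, one_smul]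
    have hu'' : x = ((u⁻¹ : Kˣ) : K) • p.rep := hu'
    refine ⟨x, ⟨fun a => ?_, fun ⟨W, hW, hxW⟩ => hpW ⟨W, hW, ?_⟩⟩, hx, hx0, hpx⟩
    · rw [hu'', eval_smul_hom (hF a), hp a, mul_zero]
    · have h7 : p.rep = (u : K) • x := hu.symm
      rw [h7]
      exact W.smul_mem _ hxW
  refine ⟨h6, fun W hW => line_inf hW, fun hd' => ⟨h2 hd', fun T => ?_⟩, h3, h4, h5⟩
  refine (h6 T).subset fun p hp => ⟨hp, fun ⟨W, hW, _⟩ => h2 hd' W hW⟩

end Pool.Agent.Y741
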