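import Pool.Agent.Y741.LPhi

/-!
Transcendence bases for a fibration with fibres of dimension one.
-/

set_option autoImplicit false

open Pool.Agent.W602.GT

namespace Pool.Agent.Y741

/-- A transcendence basis that is adapted to a fibration. -/
theorem exists_fib_basis {k L ι : Type} [Field k] [Field L] [Algebra k L] {w : ℕ}
    (htr : Algebra.trdeg k L = w) [Finite ι] (p : ι → L) (s : L)
    (hgen : Algebra.IsAlgebraic (IntermediateField.adjoin k (insert s (Set.range p))) L) :
    (∃ l : Fin w → ι, AlgebraicIndependent k fun i => p (l i)) ∨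
    ∃ (t : Fin w → L) (i1 : Fin w), IsTranscendenceBasis k t ∧ t i1 = s ∧
      (∀ i, i ≠ i1 → ∃ q, t i = p q) ∧
      ∀ q, IsAlgebraic (IntermediateField.adjoin k (t '' {i1}ᶜ)) (p q) := by
  classical
  have h3 : Algebra.IsAlgebraic (Algebra.adjoin k (insert s (Set.range p))) L :=
    ⟨fun f => IntermediateField.isAlgebraic_adjoin_iff.1 (hgen.isAlgebraic f)⟩
  obtain ⟨u, hu, hub⟩ := exists_isTranscendenceBasis_subset (R := k) (A := L)
    (insert s (Set.range p))
  have hfin : Finite u := Set.Finite.to_subtype (((Set.finite_range p).insert s).subset hu)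
  have := Fintype.ofFinite u
  have hcard : Fintype.card u = w := by
    have h4 := hub.lift_cardinalMk_eq_trdeg
    rw [htr] at h4
    simpa using h4
  obtain ⟨e⟩ : Nonempty (Fin w ≃ u) := ⟨(Fintype.equivFinOfCardEq hcard).symm⟩
  obtain ⟨t, ht⟩ : ∃ t : Fin w → L, ∀ i, t i = e i := ⟨_, fun _ => rfl⟩
  have htb : IsTranscendenceBasis k t := by
    have h5 : t = (fun z : u => (z : L)) ∘ e := by
      funext i
      exact ht i
    rw [h5]
    exact (isTranscendenceBasis_equiv e).2 hub
  by_cases hs : s ∈ u
  · obtain ⟨i1, hi1⟩ : ∃ i1, e i1 = ⟨s, hs⟩ := e.surjective _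
    have hts : t i1 = s := by rw [ht, hi1]
    have hne : ∀ i, i ≠ i1 → ∃ q, t i = p q := by
      intro i hi
      rcases hu (e i).2 with h1 | ⟨q, hq⟩
      · exfalso
        apply hi
        apply e.injective
        rw [hi1]
        exact Subtype.ext h1
      · exact ⟨q, by rw [ht]; exact hq.symm⟩
    by_cases hq : ∀ q, IsAlgebraic (IntermediateField.adjoin k (t '' {i1}ᶜ)) (p q)
    · exact Or.inr ⟨t, i1, htb, hts, hne, hq⟩
    · left
      push Not at hq
      obtain ⟨q, hq⟩ := hq
      have : Nonempty ι := ⟨q⟩
      choose! l hl using hne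
      refine ⟨fun i => if i = i1 then q else l i, ?_⟩
      rw [AlgebraicIndependent.iff_transcendental_adjoin_image i1]
      constructor
      · have h1 : (fun j : {j // j ≠ i1} => p (if (j : Fin w) = i1 then q else l j)) =
            fun j : {j // j ≠ i1} => t j := by
          funext j
          rw [if_neg j.2, hl j j.2]
        rw [h1]
        exact htb.1.comp _ Subtype.val_injective
      · dsimp only
        rw [if_pos rfl]
        have h1 : (fun i => p (if i = i1 then q else l i)) '' {i1}ᶜ = t '' {i1}ᶜ := by
          refine Set.image_congr fun j hj => ?_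
          have hj' : j ≠ i1 := hj
          rw [if_neg hj', hl j hj']
        rw [h1]
        exact fun h => hq (IntermediateField.isAlgebraic_adjoin_iff.2 h)
  · left
    have hne : ∀ i, ∃ q, p q = t i := by
      intro i
      rcases hu (e i).2 with h1 | ⟨q, hq⟩
      · exfalso
        apply hs
        rw [← h1]
        exact (e i).2
      · exact ⟨q, by rw [ht]; exact hq⟩
    choose l hl using hne
    exact ⟨l, by simp only [hl]; exact htb.1⟩

/-- The last element of a transcendence basis is transcendental over the algebraic closure of the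
field of the others. -/
theorem transc_last {k L : Type} [Field k] [Field L] [Algebra k L] {w : ℕ} {t : Fin w → L}
    {i1 : Fin w} (ht : AlgebraicIndependent k t) :
    Transcendental (algebraicClosure (IntermediateField.adjoin k (t '' {i1}ᶜ)) L) (t i1) := by
  have h1 := ((AlgebraicIndependent.iff_transcendental_adjoin_image i1).1 ht).2
  intro h2
  apply h1
  rw [← IntermediateField.isAlgebraic_adjoin_iff]
  exact IsAlgebraic.restrictScalars _ h2

/-- Derivations kill the algebraic closure of the field of the other elements. -/
theorem der_last {k L : Type} [Field k] [Field L] [Algebra k L] [CharZero k] {w : ℕ}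
    {t : Fin w → L} {i1 : Fin w} {δ : Derivation k L L} (hδ : ∀ j, j ≠ i1 → δ (t j) = 0) {z : L}
    (hz : IsAlgebraic (IntermediateField.adjoin k (t '' {i1}ᶜ)) z) : δ z = 0 := by
  have hL : CharZero L := charZero_of_injective_algebraMap (algebraMap k L).injective
  refine Pool.Agent.TH145.GC.der_zero_of_alg (δ.restrictScalars ℤ)
    (IntermediateField.adjoin k (t '' {i1}ᶜ)).toSubfield ?_ hz
  intro y hy
  have h1 : IntermediateField.adjoin k (t '' {i1}ᶜ) ≤
      consts δ := by
    rw [IntermediateField.adjoin_le_iff]
    rintro _ ⟨j, hj, rfl⟩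
    exact hδ j hj
  exact h1 hy

end Pool.Agent.Y741
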