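import Pool.Agent.Y741.LFinal2

/-!
Entire curves and punctured discs in exceptional lines.
-/

set_option autoImplicit false

open MvPolynomial Filter Topology Metric Set

namespace Pool.Agent.Y741

variable {n : ℕ}

/-- A holomorphic map from the punctured disc, in homogeneous coordinates, that extends to the
disc. -/
def ExtD (f : ℂ → Fin (n + 1) → ℂ) : Prop :=
  ∃ g : ℂ → Fin (n + 1) → ℂ, DifferentiableOn ℂ g (ball 0 1) ∧ (∀ z ∈ ball (0 : ℂ) 1, g z ≠ 0) ∧
    ∀ z ∈ ball (0 : ℂ) 1 \ {0}, ∃ c : ℂ, f z = c • g z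

theorem exists_exp {t : ℂ} (ht : t ≠ 0) {ε : ℝ} (hε : 0 < ε) :
    ∃ w : ℂ, w ≠ 0 ∧ ‖w‖ < ε ∧ Complex.exp w⁻¹ = t := by
  obtain ⟨N, hN⟩ := exists_nat_gt (ε⁻¹ + ‖Complex.log t‖)
  have hpi : (1 : ℝ) ≤ 2 * Real.pi := by linarith [Real.pi_gt_three]
  obtain ⟨s, hs⟩ : ∃ s : ℂ, s = Complex.log t + N * (2 * Real.pi * Complex.I) := ⟨_, rfl⟩
  have hsn : ε⁻¹ < ‖s‖ := by
    have h1 : ‖(N : ℂ) * (2 * Real.pi * Complex.I)‖ = N * (2 * Real.pi) := by
      rw [norm_mul, Complex.norm_natCast]
      congr 1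
      rw [norm_mul, Complex.norm_I, mul_one, norm_mul, Complex.norm_real, Complex.norm_ofNat,
        Real.norm_of_nonneg Real.pi_pos.le]
    have h2 : ‖(N : ℂ) * (2 * Real.pi * Complex.I)‖ ≤ ‖s‖ + ‖Complex.log t‖ := by
      have : (N : ℂ) * (2 * Real.pi * Complex.I) = s - Complex.log t := by rw [hs]; ring
      rw [this]
      exact norm_sub_le _ _
    rw [h1] at h2
    have h3 : (N : ℝ) ≤ N * (2 * Real.pi) := le_mul_of_one_le_right (Nat.cast_nonneg N) hpi
    linarith
  have hs0 : s ≠ 0 := by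
    intro h0
    rw [h0, norm_zero] at hsn
    have := inv_pos.mpr hε
    linarith
  refine ⟨s⁻¹, inv_ne_zero hs0, ?_, ?_⟩
  · rw [norm_inv]
    exact inv_lt_of_inv_lt₀ hε hsn
  · rw [inv_inv, hs, Complex.exp_add, Complex.exp_log ht]
    have : Complex.exp (N * (2 * Real.pi * Complex.I)) = 1 :=
      Complex.exp_nat_mul_two_pi_mul_I N
    rw [this, mul_one]

/-- The essential singularity. -/
theorem not_extD {u v : Fin (n + 1) → ℂ} (hli : LinearIndependent ℂ ![u, v]) :
    ¬ ExtD fun z => Complex.exp z⁻¹ • u + v := by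
  rintro ⟨g, hg, hg0, hfg⟩
  have h0mem : (0 : ℂ) ∈ ball (0 : ℂ) 1 := mem_ball_self one_pos
  have hgc : ContinuousAt g 0 := (hg.differentiableAt (isOpen_ball.mem_nhds h0mem)).continuousAt
  have key : ∀ t : ℂ, t ≠ 0 → ∀ j k, (t • u + v) j * g 0 k = (t • u + v) k * g 0 j := by
    intro t ht j k
    have h1 : ∀ N : ℕ, ∃ w : ℂ, w ≠ 0 ∧ ‖w‖ < 1 / ((N : ℝ) + 1) ∧ Complex.exp w⁻¹ = t := fun N =>
      exists_exp ht (by positivity)
    choose w hw0 hwn hwt using h1
    have hw1 : ∀ N, w N ∈ ball (0 : ℂ) 1 \ {0} := by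
      intro N
      refine ⟨?_, hw0 N⟩
      rw [mem_ball, dist_zero_right]
      refine (hwn N).trans_le ?_
      rw [div_le_one (by positivity)]
      have : (0 : ℝ) ≤ N := Nat.cast_nonneg N
      linarith
    have hwlim : Tendsto w atTop (𝓝 0) := by
      rw [tendsto_zero_iff_norm_tendsto_zero]
      exact squeeze_zero (fun N => norm_nonneg _) (fun N => (hwn N).le)
        tendsto_one_div_add_atTop_nhds_zero_nat
    have h2 : ∀ N, (t • u + v) j * g (w N) k = (t • u + v) k * g (w N) j := by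
      intro N
      obtain ⟨c, hc⟩ := hfg (w N) (hw1 N)
      dsimp only at hc
      rw [hwt N] at hc
      rw [hc]
      simp only [Pi.smul_apply, smul_eq_mul]
      ring
    have h3 : Tendsto (fun N => (t • u + v) j * g (w N) k) atTop (𝓝 ((t • u + v) j * g 0 k)) :=
      ((continuousAt_pi.mp hgc k).tendsto.comp hwlim).const_mul _
    have h4 : Tendsto (fun N => (t • u + v) k * g (w N) j) atTop (𝓝 ((t • u + v) k * g 0 j)) :=
      ((continuousAt_pi.mp hgc j).tendsto.comp hwlim).const_mul _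
    rw [show (fun N => (t • u + v) j * g (w N) k) = fun N => (t • u + v) k * g (w N) j from
      funext h2] at h3
    exact tendsto_nhds_unique h3 h4
  obtain ⟨l, hl⟩ := Function.ne_iff.mp (hg0 0 h0mem)
  have hl' : g 0 l ≠ 0 := hl
  have e1 := key 1 one_ne_zero
  have e2 := key 2 two_ne_zero
  have hu : ∀ j, u j * g 0 l = u l * g 0 j := by
    intro j
    have h1 := e1 j l
    have h2 := e2 j l
    simp only [Pi.add_apply, Pi.smul_apply, smul_eq_mul] at h1 h2
    linear_combination h2 - h1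
  have hv : ∀ j, v j * g 0 l = v l * g 0 j := by
    intro j
    have h1 := e1 j l
    simp only [Pi.add_apply, Pi.smul_apply, smul_eq_mul] at h1
    linear_combination h1 - hu j
  rw [LinearIndependent.pair_iff] at hli
  have h5 : v l • u + (-(u l)) • v = 0 := by
    funext j
    have h6 : (v l * u j - u l * v j) * g 0 l = 0 := by
      linear_combination v l * hu j - u l * hv j
    have h7 := (mul_eq_zero.1 h6).resolve_right hl'
    simp only [Pi.add_apply, Pi.smul_apply, smul_eq_mul, Pi.zero_apply]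
    linear_combination h7
  obtain ⟨h6, h7⟩ := hli _ _ h5
  have h8 : u l = 0 := neg_eq_zero.1 h7
  have h9 : u = 0 := by
    funext j
    have := hu j
    rw [h8, zero_mul] at this
    exact (mul_eq_zero.1 this).resolve_right hl'
  have h10 := hli 1 0 (by rw [h9, smul_zero, zero_smul, add_zero])
  exact one_ne_zero h10.1

end Pool.Agent.Y741
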