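import Pool.Agent.Y741.LLine
import Pool.Agent.Y741.LAna

/-!
The algebraic special set of generic pairs and the special sets given by holomorphic maps.
-/

set_option autoImplicit false

open MvPolynomial FF Pool.Agent.W603.LV Pool.Agent.W603.PV Pool.Agent.TH145.GH
open Pool.Agent.TH145.GC (Cf)
open Pool.Agent.W602.GT Pool.Agent.TH145.MG Pool.Agent.TH145.GF
open LinearAlgebra.Projectivization Metric

namespace Pool.Agent.Y741

section

variable {k0 k : Type} [Field k0] [Field k] [Algebra k0 k] [IsAlgClosed k] [CharZero k] {n : ℕ}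
  {A : Type} [Fintype A] [DecidableEq A] {d : A → ℕ} {G : A → MvPolynomial (Fin (n + 1)) k}
  {C : Finset A}

/-- Outside of `H = 0`, all subvarieties of positive dimension are of log general type. -/
def StrL {k A : Type} [Field k] {n : ℕ} (G : A → MvPolynomial (Fin (n + 1)) k) (d : A → ℕ)
    (C : Finset A) (H : MvPolynomial (Fin (n + 1)) k) : Prop :=
  ∀ (K : Type) [Field K] [Algebra k K] (w : ℕ) (y : Fin (n + 1) → K), 0 < w →
    SubV G C w y → aeval y H ≠ 0 → LGT G d C w y

theorem strL_iff (hn : 1 ≤ n) (hd0 : ∀ a, 0 < d a) (hG : ∀ a, (G a).IsHomogeneous (d a))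
    (hind : AlgebraicIndependent k0 fun p : Cf n d => (G p.1).coeff p.2.1) (hC : ∃ b, b ∉ C)
    (hd : 3 * n + 3 ≤ 2 * ∑ a, d a + C.card) {H : MvPolynomial (Fin (n + 1)) k} {e : ℕ}
    (hH : H.IsHomogeneous e) :
    StrL G d C H ↔ ∀ W, ExL G C W → ∀ v ∈ W, eval v H = 0 := by
  rw [lf_forms (k0 := k0) hn hd0 hG hind hC hd hH]
  constructor
  · intro h K _ _ w y hw hy hy'
    by_contra hne
    exact hy' (h K w y hw hy hne)
  · intro h K _ _ w y hw hy hne
    by_contra hcon
    exact hne (h K w y hw hy hcon)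

theorem strL_sub (hn : 1 ≤ n) (hd0 : ∀ a, 0 < d a) (hG : ∀ a, (G a).IsHomogeneous (d a))
    (hind : AlgebraicIndependent k0 fun p : Cf n d => (G p.1).coeff p.2.1) (hC : ∃ b, b ∉ C)
    (hd : 3 * n + 3 ≤ 2 * ∑ a, d a + C.card) {K : Type} [Field K] [Algebra k K] {w : ℕ}
    {y : Fin (n + 1) → K} (hw : 2 * n + 2 ≤ ∑ a, d a + C.card + w) (hy : SubV G C w y) :
    ∃ (H : MvPolynomial (Fin (n + 1)) k) (e : ℕ), H.IsHomogeneous e ∧ aeval y H ≠ 0 ∧
      StrL G d C H := by
  obtain ⟨H, e, h1, h2, h3⟩ := lf_strong (k0 := k0) hn hd0 hG hind hC hd hw hy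
  exact ⟨H, e, h1, h2, h3⟩

/-- All subvarieties are of log general type. -/
theorem strL_one : StrL G d C 1 ↔ ∀ (K : Type) [Field K] [Algebra k K] (w : ℕ)
    (y : Fin (n + 1) → K), 0 < w → SubV G C w y → LGT G d C w y := by
  refine forall_congr' fun K => forall_congr' fun _ => forall_congr' fun _ =>
    forall_congr' fun w => forall_congr' fun y => forall_congr' fun _ => forall_congr' fun _ => ?_
  rw [map_one]
  simp

end

section ana

variable {n : ℕ} {A : Type} [Fintype A] [DecidableEq A] {d : A → ℕ}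
  {G : A → MvPolynomial (Fin (n + 1)) ℂ} {C : Finset A}

/-- A point of the pair over the complex numbers. -/
def Pt {A : Type} {n : ℕ} (G : A → MvPolynomial (Fin (n + 1)) ℂ) (C : Finset A)
    (x : Fin (n + 1) → ℂ) : Prop :=
  x ≠ 0 ∧ (∀ c ∈ C, aeval x (G c) = 0) ∧ ∀ b, b ∉ C → aeval x (G b) ≠ 0

/-- Entire curves. -/
theorem ent_line (hG : ∀ a, (G a).IsHomogeneous (d a)) {H : MvPolynomial (Fin (n + 1)) ℂ} {e : ℕ}
    (hH : H.IsHomogeneous e)
    (h : ∀ f : ℂ → Fin (n + 1) → ℂ, (∀ j, Differentiable ℂ fun z => f z j) →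
      (∀ z, Pt G C (f z)) → (∃ z w i j, f z i * f w j ≠ f z j * f w i) → ∀ z, eval (f z) H = 0)
    {W : Submodule ℂ (Fin (n + 1) → ℂ)} (hW : ExL G C W) : ∀ v ∈ W, eval v H = 0 := by
  obtain ⟨u, v, hu, hv, hli, hpar⟩ := lf_par hG hW
  obtain ⟨i, j, hij⟩ := pl_of_li hli
  have h1 := h (fun z => Complex.exp z • u + v) (fun j => by
    simp only [Pi.add_apply, Pi.smul_apply, smul_eq_mul]
    exact (Complex.differentiable_exp.mul_const _).add_const _) (fun z => by
    have := hpar (Complex.exp z) 1 (Complex.exp_ne_zero z) one_ne_zero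
    rw [one_smul] at this
    exact this) ⟨0, Complex.log 2, i, j, by
      rw [Complex.exp_zero, Complex.exp_log two_ne_zero]
      intro h2
      apply hij
      simp only [Pi.add_apply, Pi.smul_apply, smul_eq_mul] at h2
      change u i * v j - u j * v i = 0
      linear_combination -h2⟩
  have h2 : aeval (gp (lp u v)) H = 0 := by
    rw [aeval_gp]
    have h3 : (aeval (lp u v) H : Polynomial ℂ) * Polynomial.X = 0 := by
      apply Polynomial.funext
      intro t
      rw [Polynomial.eval_mul, eval_aevalP, lp_eval, Polynomial.eval_X, Polynomial.eval_zero]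
      by_cases ht : t = 0
      · rw [ht, mul_zero]
      · have := h1 (Complex.log t)
        rw [Complex.exp_log ht] at this
        rw [this, zero_mul]
    rw [(mul_eq_zero.1 h3).resolve_right Polynomial.X_ne_zero, map_zero]
  intro x hx
  obtain ⟨a, b, rfl⟩ := span_of_line hW.1.1 hu hv hli hx
  exact lp_zero hH h2 a b

/-- Punctured discs. -/
theorem disc_line (hG : ∀ a, (G a).IsHomogeneous (d a)) {H : MvPolynomial (Fin (n + 1)) ℂ} {e : ℕ}
    (hH : H.IsHomogeneous e)
    (h : ∀ f : ℂ → Fin (n + 1) → ℂ, DifferentiableOn ℂ f (ball 0 1 \ {0}) →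
      (∀ z ∈ ball (0 : ℂ) 1 \ {0}, Pt G C (f z)) → ¬ ExtD f →
        ∀ z ∈ ball (0 : ℂ) 1 \ {0}, eval (f z) H = 0)
    {W : Submodule ℂ (Fin (n + 1) → ℂ)} (hW : ExL G C W) : ∀ v ∈ W, eval v H = 0 := by
  obtain ⟨u, v, hu, hv, hli, hpar⟩ := lf_par hG hW
  have h1 := h (fun z => Complex.exp z⁻¹ • u + v) (by
    intro z hz
    have hz0 : z ≠ 0 := hz.2
    refine DifferentiableAt.differentiableWithinAt ?_
    exact ((differentiableAt_inv hz0).cexp.smul_const u).add_const v) (fun z _ => by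
    have := hpar (Complex.exp z⁻¹) 1 (Complex.exp_ne_zero _) one_ne_zero
    rw [one_smul] at this
    exact this) (not_extD hli)
  have h2 : aeval (gp (lp u v)) H = 0 := by
    rw [aeval_gp]
    have h3 : (aeval (lp u v) H : Polynomial ℂ) * Polynomial.X = 0 := by
      apply Polynomial.funext
      intro t
      rw [Polynomial.eval_mul, eval_aevalP, lp_eval, Polynomial.eval_X, Polynomial.eval_zero]
      by_cases ht : t = 0
      · rw [ht, mul_zero]
      · obtain ⟨w, hw0, hw1, hwt⟩ := exists_exp ht one_pos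
        have := h1 w ⟨by rwa [mem_ball, dist_zero_right], hw0⟩
        rw [hwt] at this
        rw [this, zero_mul]
    rw [(mul_eq_zero.1 h3).resolve_right Polynomial.X_ne_zero, map_zero]
  intro x hx
  obtain ⟨a, b, rfl⟩ := span_of_line hW.1.1 hu hv hli hx
  exact lp_zero hH h2 a b

end ana

end Pool.Agent.Y741
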