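import Pool.Agent.Y741.PolyH

/-!
Functions that are bounded by a height.
-/

set_option autoImplicit false

open FF Pool.Agent.W603.LV Polynomial

namespace Pool.Agent.Y741

variable {k L : Type} [Field k] [Field L] [Algebra k L]

/-- The function has poles bounded by a multiple of the height. -/
def Bdd (a : Place k L → ℤ) (z : L) : Prop := ∃ N : ℕ, ∀ Q, Ge Q (N * a Q) z

section

variable {a : Place k L → ℤ} (ha : ∀ Q, a Q ≤ 0)

include ha

theorem Bdd.mono' {z : L} {N : ℕ} (h : ∀ Q, Ge Q (N * a Q) z) {M : ℕ} (hNM : N ≤ M) :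
    ∀ Q, Ge Q (M * a Q) z := fun Q =>
  (h Q).mono (mul_le_mul_of_nonpos_right (by exact_mod_cast hNM) (ha Q))

theorem Bdd.add {y z : L} (hy : Bdd a y) (hz : Bdd a z) : Bdd a (y + z) := by
  obtain ⟨N, hN⟩ := hy
  obtain ⟨M, hM⟩ := hz
  exact ⟨max N M, fun Q => (Bdd.mono' ha hN (le_max_left _ _) Q).add
    (Bdd.mono' ha hM (le_max_right _ _) Q)⟩

omit ha in
theorem Bdd.mul {y z : L} (hy : Bdd a y) (hz : Bdd a z) : Bdd a (y * z) := by
  obtain ⟨N, hN⟩ := hy
  obtain ⟨M, hM⟩ := hz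
  refine ⟨N + M, fun Q => ((hN Q).mul (hM Q)).mono ?_⟩
  push_cast
  linarith

omit ha in
theorem Bdd.const (c : k) : Bdd a (algebraMap k L c) := ⟨0, fun Q => by
  rw [Nat.cast_zero, zero_mul]
  exact Ge.const _⟩

omit ha in
theorem Bdd.prod {ι : Type*} (s : Finset ι) (f : ι → L) (h : ∀ i ∈ s, Bdd a (f i)) :
    Bdd a (∏ i ∈ s, f i) := by
  classical
  induction s using Finset.induction_on with
  | empty =>
    rw [Finset.prod_empty]
    exact ⟨0, fun Q => by rw [Nat.cast_zero, zero_mul]; exact Ge.one⟩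
  | insert i s hi ih =>
    rw [Finset.prod_insert hi]
    exact (h i (Finset.mem_insert_self _ _)).mul
      (ih fun j hj => h j (Finset.mem_insert_of_mem hj))

/-- The elements of the ring generated by bounded functions. -/
theorem Bdd.adjoin {S : Set L} (hS : ∀ s ∈ S, Bdd a s) {z : L}
    (hz : z ∈ Algebra.adjoin k S) : Bdd a z := by
  induction hz using Algebra.adjoin_induction with
  | mem x hx => exact hS x hx
  | algebraMap c => exact Bdd.const c
  | add x y _ _ hx hy => exact hx.add ha hy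
  | mul x y _ _ hx hy => exact hx.mul hy

/-- Integral elements. -/
theorem Bdd.integral {R : Subalgebra k L} (hR : ∀ r ∈ R, Bdd a r) {z : L}
    (hz : IsIntegral R z) : Bdd a z := by
  obtain ⟨p, hp, hpz⟩ := hz
  choose N hN using fun i : ℕ => hR (p.coeff i : L) (p.coeff i).2
  obtain ⟨M, hM⟩ : ∃ M, M = ∑ i ∈ Finset.range p.natDegree, N i := ⟨_, rfl⟩
  refine ⟨M, fun Q => ?_⟩
  by_contra hcon
  have hz0 : z ≠ 0 := fun h => hcon (by rw [h]; exact Ge.zero)
  have hlt : Q.ord z < M * a Q := by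
    by_contra h
    exact hcon (Or.inr (not_lt.1 h))
  have hMa : (M : ℤ) * a Q ≤ 0 := mul_nonpos_of_nonneg_of_nonpos (by positivity) (ha Q)
  have h1 : z ^ p.natDegree = -∑ i ∈ Finset.range p.natDegree, (p.coeff i : L) * z ^ i := by
    have h2 : Polynomial.eval₂ (algebraMap R L) z p = 0 := hpz
    rw [Polynomial.eval₂_eq_sum_range, Finset.sum_range_succ, hp.coeff_natDegree, map_one,
      one_mul] at h2
    rw [eq_neg_iff_add_eq_zero, add_comm]
    exact h2
  have h2 : Ge Q (p.natDegree * Q.ord z + 1) (z ^ p.natDegree) := by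
    rw [h1]
    refine (Ge.sum _ _ fun i hi => ?_).neg
    have hi' := Finset.mem_range.1 hi
    have h3 : Ge Q (M * a Q) (p.coeff i : L) :=
      Bdd.mono' ha (hN i) (by rw [hM]; exact Finset.single_le_sum (fun _ _ => Nat.zero_le _) hi) Q
    have h4 : Ge Q (Q.ord z) z := Or.inr le_rfl
    refine (h3.mul (h4.pow i)).mono ?_
    have h5 : ((i : ℤ) + 1) ≤ p.natDegree := by exact_mod_cast hi'
    nlinarith
  have h3 := h2.resolve_left (pow_ne_zero _ hz0)
  rw [Q.ord_pow] at h3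
  omega

/-- Algebraic elements, with a denominator. -/
theorem bdd_of_alg {S : Set L} (hS : ∀ s ∈ S, Bdd a s) {z : L}
    (hz : IsAlgebraic (IntermediateField.adjoin k S) z) :
    ∃ g : L, g ≠ 0 ∧ Bdd a g ∧ Bdd a (g * z) := by
  have h1 : IsAlgebraic (Algebra.adjoin k S) z := IntermediateField.isAlgebraic_adjoin_iff.1 hz
  obtain ⟨y, hy0, hy⟩ := h1.exists_integral_multiple
  have hR : ∀ r ∈ Algebra.adjoin k S, Bdd a r := fun r hr => Bdd.adjoin ha hS hr
  refine ⟨(y : L), fun h => hy0 (Subtype.ext h), hR _ y.2, ?_⟩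
  have h2 := Bdd.integral ha hR hy
  exact h2

/-- A common denominator. -/
theorem exists_den {S : Set L} (hS : ∀ s ∈ S, Bdd a s) (Z : Finset L)
    (hZ : ∀ z ∈ Z, IsAlgebraic (IntermediateField.adjoin k S) z) :
    ∃ (g : L) (N : ℕ), g ≠ 0 ∧ (∀ Q, N * a Q ≤ Q.ord g) ∧
      ∀ Q, ∀ z ∈ Z, Ge Q (-(Q.ord g - N * a Q)) z := by
  classical
  choose! g hg0 hg1 hg2 using fun z (hz : z ∈ Z) => bdd_of_alg ha hS (hZ z hz)
  obtain ⟨G, hG⟩ : ∃ G, G = ∏ z ∈ Z, g z := ⟨_, rfl⟩
  have hG0 : G ≠ 0 := by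
    rw [hG]
    exact Finset.prod_ne_zero_iff.2 hg0
  have hGb : Bdd a G := by
    rw [hG]
    exact Bdd.prod _ _ hg1
  have hGz : ∀ z ∈ Z, Bdd a (G * z) := by
    intro z hz
    have h1 : G * z = (g z * z) * ∏ y ∈ Z.erase z, g y := by
      rw [hG, ← Finset.mul_prod_erase Z g hz]
      ring
    rw [h1]
    exact (hg2 z hz).mul (Bdd.prod _ _ fun y hy => hg1 y (Finset.mem_of_mem_erase hy))
  obtain ⟨N0, hN0⟩ := hGb
  choose! N1 hN1 using hGz
  obtain ⟨N, hN⟩ : ∃ N, N = N0 + ∑ z ∈ Z, N1 z := ⟨_, rfl⟩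
  refine ⟨G, N, hG0, fun Q => ?_, fun Q z hz => ?_⟩
  · exact (Bdd.mono' ha hN0 (by omega) Q).resolve_left hG0
  · have h1 := Bdd.mono' ha (hN1 z hz) (M := N) (by
      have := Finset.single_le_sum (f := N1) (fun _ _ => Nat.zero_le _) hz
      omega) Q
    rcases h1 with h1 | h1
    · exact Or.inl ((mul_eq_zero.1 h1).resolve_left hG0)
    · by_cases hz0 : z = 0
      · exact Or.inl hz0
      · right
        rw [Q.ord_mul hG0 hz0] at h1
        omega

end

end Pool.Agent.Y741
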