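import Pool.Agent.Y741.LFib

/-!
The boundary on a family of lines.
-/

set_option autoImplicit false

open MvPolynomial FF Pool.Agent.W603.LV Pool.Agent.W603.PV Pool.Agent.TH145.GH
open Pool.Agent.Y735 (lf pm tm pl vol vol_apply po po_le exists_po zp zp_pl zp_smul exists_xi rho
  eval_rho)
open Pool.Agent.W602.GT Pool.Agent.TH145.GF

namespace Pool.Agent.Y741

/-- The squarefree part of the boundary. -/
theorem exists_chi {M : Type} [Field M] [CharZero M] {n : ℕ} {A : Type} [Fintype A]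
    [DecidableEq A] {F : Fam M n A} {dg : A → ℕ} (hF : ∀ a, (F a).IsHomogeneous (dg a))
    {C : Finset A} {x : Fin (n + 1) → M} (y : Fin (n + 1) → M)
    (hx : ∀ b, b ∉ C → eval x (F b) ≠ 0) :
    ∃ (χ γ U V : Polynomial M) (c : M) (m : ℕ), c ≠ 0 ∧ χ.Monic ∧ γ.Monic ∧
      U * χ + V * Polynomial.derivative χ = 1 ∧ bdy F C x y = Polynomial.C c * (χ * γ) ∧
      bdy F C x y ∣ Polynomial.C c * χ ^ m := by
  obtain ⟨-, -, h0⟩ := bdy_lc hF y hx
  obtain ⟨φ, hφ⟩ : ∃ φ, φ = bdy F C x y * Polynomial.C (bdy F C x y).leadingCoeff⁻¹ := ⟨_, rfl⟩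
  have hm : φ.Monic := by
    rw [hφ]
    exact Polynomial.monic_mul_leadingCoeff_inv h0
  have hc : (bdy F C x y).leadingCoeff ≠ 0 := Polynomial.leadingCoeff_ne_zero.2 h0
  have hb : bdy F C x y = Polynomial.C (bdy F C x y).leadingCoeff * φ := by
    rw [hφ, mul_comm, mul_assoc, ← Polynomial.C_mul, inv_mul_cancel₀ hc, Polynomial.C_1, mul_one]
  obtain ⟨χ, γ, m, h1, h2, ⟨U, V, h3⟩, h4, h5⟩ := exists_sqf hm
  refine ⟨χ, γ, U, V, (bdy F C x y).leadingCoeff, m, hc, h1, h2, h3, ?_, ?_⟩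
  · rw [← h4]; exact hb
  · have h6 : Polynomial.C (bdy F C x y).leadingCoeff * φ ∣
        Polynomial.C (bdy F C x y).leadingCoeff * χ ^ m := mul_dvd_mul_left _ h5
    rwa [← hb] at h6

/-- A line on the variety. -/
theorem onL_basis {L : Type} [Field L] {n : ℕ} {A : Type} {F : Fam L n A} {dg : A → ℕ}
    (hF : ∀ a, (F a).IsHomogeneous (dg a)) {C : Finset A} {x y y0 y1 : Fin (n + 1) → L}
    {a b a' b' : L} (hx : x = a • y0 + b • y1) (hy : y = a' • y0 + b' • y1)
    (h : ∀ c ∈ C, rho y0 y1 (F c) = 0) : OnL F C x y := by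
  intro c hc u v
  have h1 : u • x + v • y = (u * a + v * a') • y0 + (u * b + v * b') • y1 := by
    rw [hx, hy]
    module
  rw [h1]
  by_cases hB : u * b + v * b' = 0
  · rw [hB, zero_smul, add_zero, eval_smul_hom (hF c), ← rho_top y0 y1 (hF c), h c hc,
      Polynomial.coeff_zero, mul_zero]
  · have h2 : (u * a + v * a') • y0 + (u * b + v * b') • y1 =
        (u * b + v * b') • (((u * a + v * a') / (u * b + v * b')) • y0 + y1) := by
      rw [smul_add, smul_smul, mul_div_cancel₀ _ hB]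
    rw [h2, eval_smul_hom (hF c), ← eval_rho, h c hc, Polynomial.eval_zero, mul_zero]

section

variable {k L : Type} [Field k] [Field L] [Algebra k L] {n : ℕ}

/-- A point that is normalised by a constant linear form. -/
theorem pord_nonpos {Q : Place k L} {v : Fin (n + 1) → L} {ξ : Fin (n + 1) → k}
    (h : ∑ i, algebraMap k L (ξ i) * v i = -1) : pord Q v ≤ 0 := by
  have hv : ∃ j, v j ≠ 0 := by
    by_contra hcon
    push Not at hcon
    simp [hcon] at h
  by_contra hcon
  push Not at hcon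
  have h1 : Ge Q 1 (∑ i, algebraMap k L (ξ i) * v i) := by
    refine Ge.sum _ _ fun i _ => ?_
    rcases eq_or_ne (v i) 0 with h0 | h0
    · rw [h0, mul_zero]; exact Ge.zero
    · have h2 : Ge Q 1 (v i) := Or.inr (by have := pord_le Q h0; omega)
      have := (Ge.const (P := Q) (ξ i)).mul h2
      rwa [zero_add] at this
  rw [h] at h1
  have h2 := h1.resolve_left (neg_ne_zero.2 one_ne_zero)
  rw [Q.ord_neg, Q.ord_one] at h2
  omega

/-- The coefficients. -/
theorem pge_of {Q : Place k L} {c : ℤ} {Z : Finset L} (hZ : ∀ z ∈ Z, Ge Q c z)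
    {f : Polynomial L} (hf : f.coeffs ⊆ Z) : PGe Q c f := by
  intro i
  by_cases h0 : f.coeff i = 0
  · rw [h0]; exact Ge.zero
  · exact hZ _ (hf (Polynomial.coeff_mem_coeffs h0))

/-- The field of the coordinates. -/
theorem coords_le {x v : Fin (n + 1) → L} {κ : L} (hx : x = κ • v) (K : IntermediateField k L)
    (hv : ∀ i, v i ∈ K) : coords k x ≤ K := by
  unfold coords
  rw [IntermediateField.adjoin_le_iff]
  rintro z ⟨i, j, hj, rfl⟩
  have h1 : x i / x j = v i / v j := by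
    have hκ : κ ≠ 0 := by
      rintro rfl
      apply hj
      rw [hx, zero_smul]
      rfl
    rw [hx, Pi.smul_apply, Pi.smul_apply, smul_eq_mul, smul_eq_mul, mul_div_mul_left _ _ hκ]
  rw [h1]
  exact div_mem (hv i) (hv j)

theorem alg_of_coords {x : Fin (n + 1) → L} (hgen : Algebra.IsAlgebraic (coords k x) L)
    {K : IntermediateField k L} (h : coords k x ≤ K) : Algebra.IsAlgebraic K L := by
  refine ⟨fun f => ?_⟩
  exact Pool.Agent.TH145.MF.alg_mono (F1 := (coords k x).toSubfield)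
      (F2 := K.toSubfield) (fun z hz => h hz) (hgen.isAlgebraic f)

/-- The forms in the case of a big family of lines. -/
theorem lgt_big [CharZero k] {w : ℕ} (htr : Algebra.trdeg k L = w) (Bd : Place k L → Prop)
    {E : Fin w → Derivation k L L} (Φ : (Fin w → Derivation k L L) → L)
    (hlin : ∀ (M : Matrix (Fin w) (Fin w) L) (D1 D2 : Fin w → Derivation k L L),
      (∀ i f, D1 i f = ∑ j, M i j * D2 j f) → Φ D1 = M.det * Φ D2)
    (hΦE : Φ E ≠ 0) {a : Place k L → ℤ} (ha : ∀ Q, a Q ≤ 0)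
    (hΦ : ∀ Q : Place k L, Divisorial w Q → ∀ Dd : Fin w → Derivation k L L,
      (((∀ i, DerReg Q (Dd i)) ∧ ¬ Bd Q) ∨ ∀ i, DerLog Q (Dd i)) → Ge Q (-(a Q)) (Φ Dd))
    (f : Fin w → L) (hf : AlgebraicIndependent k f) (hfa : ∀ Q i, Ge Q (a Q) (f i)) :
    LogGeneralType k L w Bd := by
  refine lgt_mk htr (N := 1) one_pos Bd Φ (fun M D1 D2 h => ?_) hΦE f hf fun Q hQ Dd hDd => ?_
  · rw [hlin M D1 D2 h, pow_one]
  · have h1 := hΦ Q hQ Dd hDd
    refine ⟨h1.mono (by have := ha Q; omega), fun i => ?_⟩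
    have h2 := h1.mul (hfa Q i)
    exact h2.mono (by omega)

end

theorem transc_last' {k L : Type} [Field k] [Field L] [Algebra k L] {w : ℕ} {t : Fin w → L}
    {i1 : Fin w} (ht : AlgebraicIndependent k t) (f : Polynomial
      ((algebraicClosure (IntermediateField.adjoin k (t '' {i1}ᶜ)) L).restrictScalars k))
    (hf : f ≠ 0) : Polynomial.eval (t i1) (f.map (algebraMap _ L)) ≠ 0 := by
  intro h0
  refine transc_last ht (i1 := i1) ⟨f, hf, ?_⟩
  rw [Polynomial.aeval_def, ← Polynomial.eval_map]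
  exact h0

end Pool.Agent.Y741
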