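import Pool.Agent.Y741.LFinal2
import Pool.Agent.Y735.LE.AsgF
import Pool.Agent.Y735.LE.CountF

/-!
The existence of exceptional lines (with the lemma of helper735).
-/

set_option autoImplicit false

open MvPolynomial FF Pool.Agent.W603.LV Pool.Agent.W603.PV Pool.Agent.TH145.GH
open Pool.Agent.TH145.GC (Cf)
open LinearAlgebra.Projectivization Pool.Agent.Y735.LE

namespace Pool.Agent.Y741

section

variable {k0 k : Type} [Field k0] [Field k] [Algebra k0 k] [IsAlgClosed k] [CharZero k] {n : ℕ}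
  {A : Type} [Fintype A] [DecidableEq A] {d : A → ℕ} {G : A → MvPolynomial (Fin (n + 1)) k}
  {C : Finset A}

/-- Exceptional lines exist in small degree. -/
theorem lf_exists (hn : 1 ≤ n) (hd0 : ∀ a, 0 < d a) (hG : ∀ a, (G a).IsHomogeneous (d a))
    (hind : AlgebraicIndependent k0 fun p : Cf n d => (G p.1).coeff p.2.1)
    (hC : ∑ c ∈ C, (d c + 1) ≤ 2 * (n - 1)) (hd : ∑ a, d a + C.card ≤ 2 * n) :
    ∃ W, ExL G C W := by
  classical
  obtain ⟨I0, hI0⟩ : ∃ I0 : A → Fin (n + 1) →₀ ℕ, ∀ a, (I0 a).degree = d a :=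
    ⟨fun a => Finsupp.single 0 (d a), fun a => Finsupp.degree_single _ _⟩
  have h0 : ∀ a, (G a).coeff (I0 a) ≠ 0 := fun a => hind.ne_zero ⟨a, ⟨I0 a, hI0 a⟩⟩
  have hr := ratio_indep_fam hind I0 hI0
  have hck : CharZero k0 := (algebraMap k0 k).charZero
  obtain ⟨m, hm1, hm2, hm3, hm4, hm5, hm6⟩ := exists_m C (fun c _ => hd0 c) hC
  obtain ⟨κ, hκ⟩ := exists_asg hn C hm1 hm2 hm3 hm4 hm5
  obtain ⟨P, Q, hPQ, h1⟩ := exists_lineF hn hκ hG I0 h0 hr
  obtain ⟨W, hW1, hW2, hW3⟩ := count hPQ hG (fun a => (h1 a).1) (fun a => (h1 a).2) hm2 hm3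
  refine ⟨W, ⟨hW1, hW2⟩, ?_⟩
  have h2 : 2 + ∑ b, (d b - (m false b + m true b)) ≤ 2 := by omega
  have h3 : (((2 + ∑ b, (d b - (m false b + m true b)) : ℕ)) : ℕ∞) ≤ 2 := by exact_mod_cast h2
  exact hW3.trans h3

/-- The exact bound for the total degree. -/
theorem lf_exact (hn : 1 ≤ n) (hd0 : ∀ a, 0 < d a) (hG : ∀ a, (G a).IsHomogeneous (d a))
    (hind : AlgebraicIndependent k0 fun p : Cf n d => (G p.1).coeff p.2.1)
    (hC : ∑ c ∈ C, (d c + 1) ≤ 2 * (n - 1)) :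
    (∀ W, ¬ ExL G C W) ↔ 2 * n + 1 ≤ ∑ a, d a + C.card := by
  constructor
  · intro h
    by_contra hcon
    obtain ⟨W, hW⟩ := lf_exists (k0 := k0) hn hd0 hG hind hC (by omega)
    exact h W hW
  · exact fun h => lf_none (k0 := k0) hG hind h

end

end Pool.Agent.Y741
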