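import Pool.Agent.Y741.UExc
import Pool.Agent.TH145.MG.Cnt

/-!
The exceptional locus over extensions of the base field: conclusion.
-/

set_option autoImplicit false

open MvPolynomial FF Pool.Agent.W603.LV Pool.Agent.W603.PV Pool.Agent.W602.RG Pool.Agent.TH145.GH
open Pool.Agent.TH145.GC (Gen Rt Cf finite_cf exists_big indep_scale)
open Pool.Agent.W602.GT Pool.Agent.TH145.MG

namespace Pool.Agent.Y741

/-- The ratios of independent coefficients are independent. -/
theorem ratio_indep_fam {k K : Type} [Field k] [Field K] [Algebra k K] {n : ℕ} {A : Type}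
    [Finite A] {dg : A → ℕ} {F : A → MvPolynomial (Fin (n + 1)) K}
    (hind : AlgebraicIndependent k fun p : Cf n dg => (F p.1).coeff p.2.1)
    (I0 : A → Fin (n + 1) →₀ ℕ) (hI0 : ∀ a, (I0 a).degree = dg a) :
    AlgebraicIndependent k fun p : Rt dg I0 =>
      (F p.1).coeff p.2.1 / (F p.1).coeff (I0 p.1) := by
  classical
  have hcf := finite_cf n dg
  have h0 : ∀ a, (F a).coeff (I0 a) ≠ 0 := fun a => hind.ne_zero ⟨a, ⟨I0 a, hI0 a⟩⟩
  obtain ⟨y, hy⟩ : ∃ y : Cf n dg → K, ∀ p, y p =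
    if p.2.1 = I0 p.1 then (F p.1).coeff p.2.1 else
      (F p.1).coeff p.2.1 / (F p.1).coeff (I0 p.1) := ⟨_, fun _ => rfl⟩
  have h1 : AlgebraicIndependent k y := by
    refine indep_of_mem _ y hind fun p => ?_
    have h2 : (F p.1).coeff (I0 p.1) ∈ cl k (Set.range y) := by
      refine subset_cl ⟨⟨p.1, ⟨I0 p.1, hI0 p.1⟩⟩, ?_⟩
      rw [hy, if_pos rfl]
    by_cases hp : p.2.1 = I0 p.1
    · rw [hp]; exact h2
    · have h3 : (F p.1).coeff p.2.1 / (F p.1).coeff (I0 p.1) ∈ cl k (Set.range y) := by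
        refine subset_cl ⟨p, ?_⟩
        rw [hy, if_neg hp]
      have h4 := mul_mem h3 h2
      rwa [div_mul_cancel₀ _ (h0 p.1)] at h4
  have h2 := h1.comp (fun p : Rt dg I0 => (⟨p.1, ⟨p.2.1, p.2.2.1⟩⟩ : Cf n dg)) (by
    rintro ⟨a, ⟨I, hI⟩⟩ ⟨a', ⟨I', hI'⟩⟩ h
    have e1 : a = a' := congrArg Sigma.fst h
    subst e1
    have e2 := eq_of_heq (Sigma.mk.inj_iff.1 h).2
    have e3 : I = I' := congrArg Subtype.val e2
    subst e3
    rfl)
  have h3 : (y ∘ fun p : Rt dg I0 => (⟨p.1, ⟨p.2.1, p.2.2.1⟩⟩ : Cf n dg)) =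
      fun p => (F p.1).coeff p.2.1 / (F p.1).coeff (I0 p.1) := by
    funext p
    rw [Function.comp_apply, hy, if_neg p.2.2.2]
  rwa [h3] at h2

/-- The homogeneous components of a polynomial that vanishes on a line through the origin. -/
theorem comp_zero {K Ω : Type} [Field K] [Field Ω] [Algebra K Ω] [Infinite Ω] {m : ℕ}
    {G : MvPolynomial (Fin m) K} {v : Fin m → Ω} (h : ∀ t : Ω, t ≠ 0 → aeval (t • v) G = 0)
    (e : ℕ) : aeval v (homogeneousComponent e G) = 0 := by
  classical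
  obtain ⟨R, hR⟩ : ∃ R : Polynomial Ω, R = ∑ i ∈ Finset.range (G.totalDegree + 1),
    Polynomial.monomial i (aeval v (homogeneousComponent i G)) := ⟨_, rfl⟩
  have hR0 : Polynomial.X * R = 0 := by
    apply Polynomial.funext
    intro t
    rw [Polynomial.eval_mul, Polynomial.eval_X, Polynomial.eval_zero]
    by_cases ht : t = 0
    · rw [ht, zero_mul]
    · have h1 := h t ht
      rw [← sum_homogeneousComponent G, map_sum] at h1
      have h3 : Polynomial.eval t R = 0 := by
        rw [← h1, hR, Polynomial.eval_finsetSum]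
        refine Finset.sum_congr rfl fun i _ => ?_
        rw [Polynomial.eval_monomial]
        have h4 : ∀ (p : MvPolynomial (Fin m) K) (e : ℕ), p.IsHomogeneous e →
            aeval (t • v) p = t ^ e * aeval v p := by
          intro p e hp
          rw [aeval_def, aeval_def, eval₂_eq', eval₂_eq', Finset.mul_sum]
          refine Finset.sum_congr rfl fun u hu => ?_
          have h5 : ∏ i, (t • v) i ^ u i = t ^ e * ∏ i, v i ^ u i := by
            have h6 : ∑ i, u i = e := by
              have := hp (mem_support_iff.1 hu)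
              rwa [Finsupp.weight_apply, Finsupp.sum_fintype _ _ (by simp)] at this
                |> fun h => by simpa using h
            rw [← h6, ← Finset.prod_pow_eq_pow_sum, ← Finset.prod_mul_distrib]
            exact Finset.prod_congr rfl fun i _ => by rw [Pi.smul_apply, smul_eq_mul, mul_pow]
          rw [h5]; ring
        rw [h4 _ i (homogeneousComponent_isHomogeneous i G), mul_comm]
      rw [h3, mul_zero]
  have hR1 : R = 0 := (mul_eq_zero.1 hR0).resolve_left Polynomial.X_ne_zero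
  by_cases hee : e < G.totalDegree + 1
  · have h1 := congrArg (fun q => Polynomial.coeff q e) hR1
    simp only [hR, Polynomial.finsetSum_coeff, Polynomial.coeff_monomial, Polynomial.coeff_zero]
      at h1
    rw [Finset.sum_ite_eq', if_pos (Finset.mem_range.2 hee)] at h1
    exact h1
  · rw [homogeneousComponent_eq_zero e G (by omega), map_zero]

/-- The exceptional lines lie in a proper closed subset. -/
theorem exists_H_ext {k K : Type} [Field k] [Field K] [IsAlgClosed K] [CharZero K] [Algebra k K]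
    {n : ℕ} {A : Type} [Fintype A] [DecidableEq A] {d : A → ℕ} (hpos : ∀ a, 0 < d a)
    (C : Finset A) (hCn : C.card ≤ n) (hd : n + 2 ≤ ∑ a, d a)
    (F : A → MvPolynomial (Fin (n + 1)) K) (hF : ∀ a, (F a).IsHomogeneous (d a))
    (hind : AlgebraicIndependent k fun p : Cf n d => (F p.1).coeff p.2.1) :
    ∃ (H : MvPolynomial (Fin (n + 1)) K) (e : ℕ), H.IsHomogeneous e ∧
      (∃ v, (∀ c ∈ C, eval v (F c) = 0) ∧ (∀ b, b ∉ C → eval v (F b) ≠ 0) ∧ eval v H ≠ 0) ∧
      ∀ (Ω : Type) [Field Ω] [Algebra K Ω] [IsAlgClosed Ω] (x : Fin (n + 1) → Ω), x ≠ 0 →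
        (∀ b, b ∉ C → eval x (mapF (algebraMap K Ω) F b) ≠ 0) →
        Exc 2 (mapF (algebraMap K Ω) F) C x → aeval x H = 0 := by
  classical
  have hinf : Infinite K := IsAlgClosed.instInfinite
  choose H hH hHx using fun (ij : Fin (n + 1) × Fin (n + 1))
    (m : (A → Fin (∑ a, d a + 1)) × (A → Fin (∑ a, d a + 1))) =>
    exists_H_typeE (k := k) (N := n + 1 - C.card) hF (C := C) (Nat.sub_le _ _) (by omega) hind
      ij.1 ij.2 (fun a => m.1 a) (fun a => m.2 a)
  obtain ⟨H1, hH1⟩ : ∃ H1, H1 = ∏ ij, ∏ m, H ij m := ⟨_, rfl⟩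
  have hH10 : H1 ≠ 0 := by
    rw [hH1]
    exact Finset.prod_ne_zero_iff.2 fun ij _ => Finset.prod_ne_zero_iff.2 fun m _ => hH ij m
  obtain ⟨e, he⟩ : ∃ e, homogeneousComponent e H1 ≠ 0 := by
    by_contra hcon
    push Not at hcon
    apply hH10
    rw [← sum_homogeneousComponent H1]
    exact Finset.sum_eq_zero fun e _ => hcon e
  obtain ⟨I0, hI0⟩ : ∃ I0 : A → Fin (n + 1) →₀ ℕ, ∀ a, (I0 a).degree = d a :=
    ⟨fun a => Finsupp.single 0 (d a), fun a => Finsupp.degree_single _ _⟩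
  have h0 : ∀ a, (F a).coeff (I0 a) ≠ 0 := fun a => hind.ne_zero ⟨a, ⟨I0 a, hI0 a⟩⟩
  obtain ⟨v, hv1, hv2, hv3⟩ := exists_good hpos C hCn F hF I0 h0 (ratio_indep_fam hind I0 hI0) he
  refine ⟨rename (Fin.castLE (Nat.sub_le _ _)) (homogeneousComponent e H1), e,
    (homogeneousComponent_isHomogeneous e H1).rename_isHomogeneous,
    ⟨v, hv1, hv2, by rw [eval_rename]; exact hv3⟩, ?_⟩
  intro Ω _ _ _ x hx0 hxb hE
  have hinfΩ : Infinite Ω := IsAlgClosed.instInfinite
  have hFΩ : ∀ a, (mapF (algebraMap K Ω) F a).IsHomogeneous (d a) := fun a => (hF a).map _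
  obtain ⟨W, hW, hB, hxW⟩ := exc_line hFΩ hxb hE
  rw [aeval_rename]
  refine comp_zero (fun t ht => ?_) e
  obtain ⟨y, i, j, e', m0, m1, t0, t1, hij, hR⟩ := exists_rhoD hFΩ hW hB (W.smul_mem t hxW)
    (smul_ne_zero ht hx0) (fun b hb => by
      rw [eval_smul_hom (hFΩ b)]
      exact mul_ne_zero (pow_ne_zero _ ht) (hxb b hb))
  rw [hH1, map_prod]
  refine Finset.prod_eq_zero (Finset.mem_univ (i, j)) ?_
  rw [map_prod]
  refine Finset.prod_eq_zero (Finset.mem_univ (m0, m1)) ?_
  exact hHx (i, j) (m0, m1) Ω (t • x) y _ _ _ hij (hR.excD hFΩ)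

end Pool.Agent.Y741
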