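import Pool.Agent.Y741.UExc3
import Pool.Agent.Y741.UExc2

/-!
The exceptional locus and the subvarieties of large dimension.
-/

set_option autoImplicit false

open MvPolynomial FF Pool.Agent.W603.LV Pool.Agent.W603.PV Pool.Agent.W602.RG Pool.Agent.TH145.GH
open Pool.Agent.TH145.GC (Gen Rt Cf finite_cf exists_big indep_scale)
open Pool.Agent.W602.GT Pool.Agent.TH145.MG

namespace Pool.Agent.Y741

theorem aeval_smul_hom' {K Ω : Type} [Field K] [Field Ω] [Algebra K Ω] {m e : ℕ}
    {p : MvPolynomial (Fin m) K} (hp : p.IsHomogeneous e) (t : Ω) (v : Fin m → Ω) :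
    aeval (t • v) p = t ^ e * aeval v p := by
  rw [aeval_def, aeval_def, eval₂_eq', eval₂_eq', Finset.mul_sum]
  refine Finset.sum_congr rfl fun u hu => ?_
  have h5 : ∏ i, (t • v) i ^ u i = t ^ e * ∏ i, v i ^ u i := by
    have h6 : ∑ i, u i = e := by
      have := hp (mem_support_iff.1 hu)
      rwa [Finsupp.weight_apply, Finsupp.sum_fintype _ _ (by simp)] at this
        |> fun h => by simpa using h
    rw [← h6, ← Finset.prod_pow_eq_pow_sum, ← Finset.prod_mul_distrib]
    exact Finset.prod_congr rfl fun i _ => by rw [Pi.smul_apply, smul_eq_mul, mul_pow]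
  rw [h5]; ring

/-- Independent homogeneous coordinates. -/
theorem exists_coords {k K : Type} [Field k] [Field K] [Algebra k K] {n w : ℕ}
    {y : Fin (n + 1) → K} (hy : y ≠ 0) (halg : Algebra.IsAlgebraic (coords k y) K)
    (htr : Algebra.trdeg k K = w) : ∃ σ : Fin (w + 1) → Fin (n + 1), Function.Injective σ ∧
      ∀ (H : MvPolynomial (Fin (w + 1)) k) (e : ℕ), H.IsHomogeneous e → H ≠ 0 →
        aeval (fun j => y (σ j)) H ≠ 0 := by
  classical
  obtain ⟨l0, hl0⟩ := Function.ne_iff.1 hy
  have hl0' : y l0 ≠ 0 := hl0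
  obtain ⟨z, hz⟩ : ∃ z : Fin (n + 1) → K, ∀ i, z i = y i / y l0 := ⟨_, fun _ => rfl⟩
  have hsp : (AlgebraicIndependent.matroid k K).Spanning (Set.range z) := by
    rw [Matroid.spanning_iff_closure_eq (by
      rw [AlgebraicIndependent.matroid_e]; exact Set.subset_univ _),
      AlgebraicIndependent.matroid_e]
    refine Set.eq_univ_of_forall fun x => ?_
    rw [← mem_cl_iff, mem_cl]
    have h1 : coords k y ≤ IntermediateField.adjoin k (Set.range z) := by
      unfold coords
      rw [IntermediateField.adjoin_le_iff]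
      rintro _ ⟨i, j, hj, rfl⟩
      have h2 : y i / y j = z i / z j := by
        rw [hz, hz]; field_simp
      rw [h2]
      exact div_mem (IntermediateField.subset_adjoin _ _ ⟨i, rfl⟩)
        (IntermediateField.subset_adjoin _ _ ⟨j, rfl⟩)
    let _ : Algebra (coords k y) (IntermediateField.adjoin k (Set.range z)) :=
      (IntermediateField.inclusion h1).toRingHom.toAlgebra
    have hst : IsScalarTower (coords k y) (IntermediateField.adjoin k (Set.range z)) K :=
      IsScalarTower.of_algebraMap_eq fun _ => rfl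
    have h3 : Algebra.IsAlgebraic (IntermediateField.adjoin k (Set.range z)) K :=
      Algebra.IsAlgebraic.extendScalars (R := coords k y)
        (IntermediateField.inclusion h1).toRingHom.injective
    exact h3.isAlgebraic x
  obtain ⟨I, hI⟩ := (AlgebraicIndependent.matroid k K).exists_isBasis (Set.range z) (by
    rw [AlgebraicIndependent.matroid_e]; exact Set.subset_univ _)
  have hIb := hI.isBase_of_spanning hsp
  rw [AlgebraicIndependent.matroid_isBase_iff] at hIb
  have hcard := hIb.cardinalMk_eq_trdeg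
  rw [htr] at hcard
  have hIfin : Fintype I := by
    have : Finite I := by
      rw [← Cardinal.mk_lt_aleph0_iff, hcard]
      exact Cardinal.natCast_lt_aleph0
    exact Fintype.ofFinite I
  have hIc : Fintype.card I = w := by
    have h1 := Cardinal.mk_fintype I
    rw [hcard] at h1
    exact_mod_cast h1.symm
  obtain ⟨φ⟩ : Nonempty (Fin w ≃ I) := ⟨(Fintype.equivFinOfCardEq hIc).symm⟩
  have hex : ∀ j : Fin w, ∃ i, z i = (φ j : K) := fun j => hI.subset (φ j).2
  choose σ' hσ' using hex
  have hzi : AlgebraicIndependent k fun j : Fin w => z (σ' j) := by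
    have h1 : (fun j : Fin w => z (σ' j)) = (fun u : I => (u : K)) ∘ φ := by
      funext j
      exact hσ' j
    rw [h1]
    exact hIb.1.comp _ φ.injective
  have hne : ∀ j, σ' j ≠ l0 := by
    intro j h
    have h1 := hzi.transcendental j
    rw [h, hz, div_self hl0'] at h1
    exact h1 isAlgebraic_one
  refine ⟨Fin.cons l0 σ', ?_, ?_⟩
  · rw [Fin.cons_injective_iff]
    refine ⟨fun ⟨j, hj⟩ => hne j hj, ?_⟩
    intro a b hab
    exact hzi.injective (by rw [hab])
  · intro H e hH hH0 h0
    -- scaling by a new variable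
    have hT : AlgebraicIndependent K fun _ : Unit => (RatFunc.X : RatFunc K) := by
      rw [algebraicIndependent_unique_type_iff]
      exact RatFunc.transcendental_X
    have h1 := hzi.sumElim_comp hT
    obtain ⟨g, hg⟩ : ∃ g : Unit ⊕ Fin w → RatFunc K, g = Sum.elim (fun _ => RatFunc.X)
      (fun j => RatFunc.X * algebraMap K (RatFunc K) (z (σ' j))) := ⟨_, rfl⟩
    have h2 : AlgebraicIndependent k g := by
      refine indep_of_mem _ g h1 fun i => ?_
      have hX : (RatFunc.X : RatFunc K) ∈ cl k (Set.range g) := subset_cl ⟨Sum.inl (), by rw [hg]; rfl⟩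
      rcases i with u | j
      · exact hX
      · change algebraMap K (RatFunc K) (z (σ' j)) ∈ _
        have h3 : RatFunc.X * algebraMap K (RatFunc K) (z (σ' j)) ∈ cl k (Set.range g) :=
          subset_cl ⟨Sum.inr j, by rw [hg]; rfl⟩
        have h4 := div_mem h3 hX
        rwa [mul_div_cancel_left₀ _ (RatFunc.X_ne_zero)] at h4
    obtain ⟨ψ, hψ⟩ : ∃ ψ : Fin (w + 1) → Unit ⊕ Fin w, ψ = Fin.cons (Sum.inl ()) Sum.inr :=
      ⟨_, rfl⟩
    have hψi : Function.Injective ψ := by
      rw [hψ, Fin.cons_injective_iff]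
      refine ⟨?_, Sum.inr_injective⟩
      rintro ⟨j, hj⟩
      cases hj
    have h3 := h2.comp ψ hψi
    have h4 : (RatFunc.X * algebraMap K (RatFunc K) (y l0)⁻¹) • (fun j => algebraMap K (RatFunc K)
        (y ((Fin.cons l0 σ' : Fin (w + 1) → Fin (n + 1)) j))) = g ∘ ψ := by
      funext j
      rw [Pi.smul_apply, smul_eq_mul, mul_assoc, ← map_mul, Function.comp_apply, hψ, hg]
      refine Fin.cases ?_ (fun j => ?_) j
      · rw [Fin.cons_zero, Fin.cons_zero, Sum.elim_inl, inv_mul_cancel₀ hl0', map_one, mul_one]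
      · rw [Fin.cons_succ, Fin.cons_succ, Sum.elim_inr, hz, div_eq_inv_mul]
    have h5 : aeval (g ∘ ψ) H = 0 := by
      rw [← h4, aeval_smul_hom' hH]
      have h6 : aeval (fun j => algebraMap K (RatFunc K)
          (y ((Fin.cons l0 σ' : Fin (w + 1) → Fin (n + 1)) j))) H = algebraMap K (RatFunc K)
            (aeval (fun j => y ((Fin.cons l0 σ' : Fin (w + 1) → Fin (n + 1)) j)) H) := by
        have h7 := aeval_algebraMap_apply (A := K) (B := RatFunc K) (fun j => y
          ((Fin.cons l0 σ' : Fin (w + 1) → Fin (n + 1)) j)) H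
        exact h7
      rw [h6, h0, map_zero, mul_zero]
    exact hH0 (h3.eq_zero_of_aeval_eq_zero _ h5)

/-- The exceptional lines do not cover the subvarieties of large dimension. -/
theorem exists_H_sub {k0 k K : Type} [Field k0] [Field k] [IsAlgClosed k] [CharZero k]
    [Algebra k0 k] [Field K] [Algebra k K]
    {n w : ℕ} {A : Type} [Fintype A] [DecidableEq A] {d : A → ℕ}
    (C : Finset A) (hd : 2 * n + 2 ≤ ∑ a, d a + C.card + w)
    (F : A → MvPolynomial (Fin (n + 1)) k) (hF : ∀ a, (F a).IsHomogeneous (d a))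
    (hind : AlgebraicIndependent k0 fun p : Cf n d => (F p.1).coeff p.2.1)
    {y : Fin (n + 1) → K} (hy : y ≠ 0) (halg : Algebra.IsAlgebraic (coords k y) K)
    (htr : Algebra.trdeg k K = w) :
    ∃ (G : MvPolynomial (Fin (n + 1)) k) (e : ℕ), G.IsHomogeneous e ∧ aeval y G ≠ 0 ∧
      ∀ (Ω : Type) [Field Ω] [Algebra k Ω] [IsAlgClosed Ω] (x : Fin (n + 1) → Ω), x ≠ 0 →
        (∀ b, b ∉ C → eval x (mapF (algebraMap k Ω) F b) ≠ 0) →
        Exc 2 (mapF (algebraMap k Ω) F) C x → aeval x G = 0 := by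
  classical
  have hinf : Infinite k := IsAlgClosed.instInfinite
  obtain ⟨σ, hσ, hσy⟩ := exists_coords hy halg htr
  choose H hH hHx using fun (ij : Fin (n + 1) × Fin (n + 1))
    (m : (A → Fin (∑ a, d a + 1)) × (A → Fin (∑ a, d a + 1))) =>
    exists_H_typeS (k := k0) (N := w + 1) hF (C := C) σ hσ (by omega) hind
      ij.1 ij.2 (fun a => m.1 a) (fun a => m.2 a)
  obtain ⟨H1, hH1⟩ : ∃ H1, H1 = ∏ ij, ∏ m, H ij m := ⟨_, rfl⟩
  have hH10 : H1 ≠ 0 := by
    rw [hH1]
    exact Finset.prod_ne_zero_iff.2 fun ij _ => Finset.prod_ne_zero_iff.2 fun m _ => hH ij m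
  obtain ⟨e, he⟩ : ∃ e, homogeneousComponent e H1 ≠ 0 := by
    by_contra hcon
    push Not at hcon
    apply hH10
    rw [← sum_homogeneousComponent H1]
    exact Finset.sum_eq_zero fun e _ => hcon e
  refine ⟨rename σ (homogeneousComponent e H1), e,
    (homogeneousComponent_isHomogeneous e H1).rename_isHomogeneous, ?_, ?_⟩
  · rw [aeval_rename]
    exact hσy _ e (homogeneousComponent_isHomogeneous e H1) he
  intro Ω _ _ _ x hx0 hxb hE
  have hinfΩ : Infinite Ω := IsAlgClosed.instInfinite
  have hFΩ : ∀ a, (mapF (algebraMap k Ω) F a).IsHomogeneous (d a) := fun a => (hF a).map _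
  obtain ⟨W, hW, hB, hxW⟩ := exc_line hFΩ hxb hE
  rw [aeval_rename]
  refine comp_zero (fun t ht => ?_) e
  obtain ⟨y', i, j, e', m0, m1, t0, t1, hij, hR⟩ := exists_rhoD hFΩ hW hB (W.smul_mem t hxW)
    (smul_ne_zero ht hx0) (fun b hb => by
      rw [eval_smul_hom (hFΩ b)]
      exact mul_ne_zero (pow_ne_zero _ ht) (hxb b hb))
  rw [hH1, map_prod]
  refine Finset.prod_eq_zero (Finset.mem_univ (i, j)) ?_
  rw [map_prod]
  refine Finset.prod_eq_zero (Finset.mem_univ (m0, m1)) ?_
  exact hHx (i, j) (m0, m1) Ω (t • x) y' _ _ _ hij (hR.excD hFΩ)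

end Pool.Agent.Y741
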