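import Pool.Agent.Y741.FinV

/-!
The unit equation over finitely generated rings: the induction on the transcendence degree.
-/

set_option autoImplicit false

open FF Pool.Agent.W603.LV Pool.Agent.W603.PV
open Pool.Agent.TH145.MW (hgt_mul_le hgt_neg hgt_add_le)

namespace Pool.Agent.Y741

/-- `x` and `1 - x` are units of the ring. -/
def UnitPair {K : Type} [Field K] (R : Subring K) (x : K) : Prop :=
  x ≠ 0 ∧ 1 - x ≠ 0 ∧ x ∈ R ∧ x⁻¹ ∈ R ∧ 1 - x ∈ R ∧ (1 - x)⁻¹ ∈ R

section ff

variable {κ L : Type} [Field κ] [Field L] [Algebra κ L] [CharZero κ] [IsFF κ L] [IsAlgClosed κ]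

omit [IsAlgClosed κ] in
theorem neg_ord_le_hgt (P : Place κ L) (f : L) : -P.ord f ≤ hgt κ f := by
  classical
  obtain ⟨T, hT⟩ := exists_supp (k := κ) (Finset.univ : Finset (Fin 1)) ![f]
  have h1 : ∀ P : Place κ L, P.ord f ≠ 0 → P ∈ T := fun P => hT 0 (Finset.mem_univ _) P
  by_cases hP : P.ord f = 0
  · rw [hP, neg_zero]
    exact hgt_nonneg f
  · rw [hgt_finset _ T h1]
    exact (le_max_left _ _).trans (Finset.single_le_sum
      (f := fun P : Place κ L => max (-P.ord f) 0) (fun P _ => le_max_right _ _) (h1 P hP))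

theorem abs_ord_le_hgt (P : Place κ L) (f : L) : P.ord f ∈ Set.Icc (-hgt κ f) (hgt κ f) := by
  refine ⟨by have := neg_ord_le_hgt P f; omega, ?_⟩
  have h1 := neg_ord_le_hgt (κ := κ) P f⁻¹
  rw [P.ord_inv, neg_neg, hgt_inv] at h1
  exact h1

/-- Functions with the same divisor. -/
theorem const_ratio {x y : L} (hy : y ≠ 0) (h : ∀ P : Place κ L, P.ord x = P.ord y)
    (hx : x ≠ 0) : ∃ c : κ, x = algebraMap κ L c * y := by
  have h1 : ∀ P : Place κ L, P.ord (x / y) = 0 := by
    intro P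
    rw [div_eq_mul_inv, P.ord_mul hx (inv_ne_zero hy), P.ord_inv, h P]
    ring
  have h2 : hgt κ (x / y) ≤ 0 := by
    rw [hgt_finset (x / y) ∅ fun P hP => absurd (h1 P) hP, Finset.sum_empty]
  obtain ⟨c, hc⟩ := const_of_hgt h2
  exact ⟨c, by rw [← hc, div_mul_cancel₀ _ hy]⟩

/-- The nonconstant solutions of the unit equation. -/
theorem finite_nonconst (T : Finset L) :
    {x : L | x ∉ Set.range (algebraMap κ L) ∧
      UnitPair (Subring.closure (Set.range (algebraMap κ L) ∪ (T : Set L))) x}.Finite := by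
  classical
  obtain ⟨g, hg0, hgf, hg⟩ := Pool.Agent.TH145.GH.exists_poles (κ := κ) T
  obtain ⟨S, hS⟩ : ∃ S : Finset (Place κ L), ∀ P, P ∉ S → g P = 0 := by
    refine ⟨hgf.toFinset, fun P hP => ?_⟩
    by_contra h
    exact hP (hgf.mem_toFinset.2 h)
  have hcl : ∀ P, P ∉ S → ∀ z ∈ Subring.closure (Set.range (algebraMap κ L) ∪ (T : Set L)),
      Ge P 0 z := by
    intro P hP z hz
    induction hz using Subring.closure_induction with
    | mem z hz =>
      rcases hz with ⟨c, rfl⟩ | hz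
      · exact Ge.const c
      · have := hg P z hz
        rwa [hS P hP, neg_zero] at this
    | zero => exact Ge.zero
    | one => exact Ge.one
    | add a b _ _ ha hb => exact ha.add hb
    | neg a _ ha => exact ha.neg
    | mul a b _ _ ha hb => simpa using ha.mul hb
  have hun : ∀ P, P ∉ S → ∀ z : L, z ≠ 0 →
      z ∈ Subring.closure (Set.range (algebraMap κ L) ∪ (T : Set L)) →
      z⁻¹ ∈ Subring.closure (Set.range (algebraMap κ L) ∪ (T : Set L)) → P.ord z = 0 := by
    intro P hP z hz0 h1 h2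
    have h3 := (hcl P hP z h1).resolve_left hz0
    have h4 := (hcl P hP _ h2).resolve_left (inv_ne_zero hz0)
    rw [P.ord_inv] at h4
    omega
  obtain ⟨B, hB⟩ : ∃ B : ℤ, B = (4 : ℕ) * tri 2 * (canDeg κ L + S.card) := ⟨_, rfl⟩
  refine Set.Finite.of_injOn (f := fun x : L => fun P : S => (P.1.ord x, P.1.ord (1 - x)))
    (t := Set.pi Set.univ fun _ => (Set.Icc (-B) B) ×ˢ (Set.Icc (-B) B)) ?_ ?_
    (Set.Finite.pi fun _ => (Set.finite_Icc _ _).prod (Set.finite_Icc _ _))
  · rintro x ⟨hxc, hx0, hx1, hx2, hx3, hx4, hx5⟩ P _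
    have hsum : ∑ i, (![x, 1 - x, -1] : Fin 3 → L) i = 0 := by
      simp [Fin.sum_univ_three]
    have hlin : LinearIndependent κ
        (fun l => (![x, 1 - x, -1] : Fin 3 → L) ((Fin.last 2).succAbove l)) := by
      have h1 : (fun l => (![x, 1 - x, -1] : Fin 3 → L) ((Fin.last 2).succAbove l)) =
          ![x, 1 - x] := by
        funext l
        fin_cases l <;> rfl
      rw [h1, LinearIndependent.pair_iff]
      intro a b hab
      rw [Algebra.smul_def, Algebra.smul_def] at hab
      by_cases hab' : a = b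
      · subst hab'
        have h2 : algebraMap κ L a = 0 := by linear_combination hab
        rw [map_eq_zero] at h2
        exact ⟨h2, h2⟩
      · exfalso
        apply hxc
        refine ⟨-b / (a - b), ?_⟩
        have h3 : algebraMap κ L (a - b) ≠ 0 := by
          rw [Ne, map_eq_zero, sub_eq_zero]
          exact hab'
        rw [map_div₀, map_neg, div_eq_iff h3, map_sub]
        linear_combination -hab
    have hf0 : ∀ i, (![x, 1 - x, -1] : Fin 3 → L) i ≠ 0 := by
      intro i
      fin_cases i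
      · exact hx0
      · exact hx1
      · exact neg_ne_zero.2 one_ne_zero
    have hord : ∀ P : Place κ L, P ∉ S → ∀ i, P.ord ((![x, 1 - x, -1] : Fin 3 → L) i) = 0 := by
      intro P hP i
      fin_cases i
      · exact hun P hP x hx0 hx2 hx3
      · exact hun P hP (1 - x) hx1 hx4 hx5
      · change P.ord (-1) = 0
        rw [P.ord_neg, P.ord_one]
    have h1 := fun i j => height_ineq (k := κ) (K := L) S (m := 2) (N := 4) (by norm_num)
      (by norm_num) ![x, 1 - x, -1] hf0 hsum hlin (fun P hP i j => by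
        rw [hord P hP i, hord P hP j, sub_zero]
        exact dvd_zero _) i j
    have hx : hgt κ x ≤ B := by
      have := h1 0 2
      change hgt κ (x / -1) ≤ _ at this
      rw [div_neg, div_one, hgt_neg] at this
      rw [hB]
      exact_mod_cast this
    have hy : hgt κ (1 - x) ≤ B := by
      have := h1 1 2
      change hgt κ ((1 - x) / -1) ≤ _ at this
      rw [div_neg, div_one, hgt_neg] at this
      rw [hB]
      exact_mod_cast this
    have h2 := abs_ord_le_hgt P.1 x
    have h3 := abs_ord_le_hgt P.1 (1 - x)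
    have h4 : P.1.ord x ∈ Set.Icc (-B) B := ⟨by have := h2.1; omega, by have := h2.2; omega⟩
    have h5 : P.1.ord (1 - x) ∈ Set.Icc (-B) B :=
      ⟨by have := h3.1; omega, by have := h3.2; omega⟩
    exact Set.mk_mem_prod h4 h5
  · rintro x ⟨hxc, hx0, hx1, hx2, hx3, hx4, hx5⟩ y ⟨hyc, hy0, hy1, hy2, hy3, hy4, hy5⟩ hxy
    have h1 : ∀ P : Place κ L, P.ord x = P.ord y ∧ P.ord (1 - x) = P.ord (1 - y) := by
      intro P
      by_cases hP : P ∈ S
      · have := congrFun hxy ⟨P, hP⟩
        exact Prod.ext_iff.1 this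
      · exact ⟨by rw [hun P hP x hx0 hx2 hx3, hun P hP y hy0 hy2 hy3],
          by rw [hun P hP _ hx1 hx4 hx5, hun P hP _ hy1 hy4 hy5]⟩
    obtain ⟨a, ha⟩ := const_ratio hy0 (fun P => (h1 P).1) hx0
    obtain ⟨b, hb⟩ := const_ratio hy1 (fun P => (h1 P).2) hx1
    by_cases hab : a = b
    · subst hab
      have h2 : algebraMap κ L a = 1 := by linear_combination -hb - ha
      rw [ha, h2, one_mul]
    · exfalso
      apply hyc
      refine ⟨(1 - b) / (a - b), ?_⟩
      have h3 : algebraMap κ L (a - b) ≠ 0 := by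
        rw [Ne, map_eq_zero, sub_eq_zero]
        exact hab
      rw [map_div₀, div_eq_iff h3, map_sub, map_sub, map_one]
      linear_combination ha + hb

end ff

/-- A homomorphism to the constants. -/
theorem exists_spec_const (κ : Type) {L : Type} [Field κ] [IsAlgClosed κ] [Field L] [Algebra κ L]
    (T : Finset L) : Nonempty (Algebra.adjoin κ (T : Set L) →ₐ[κ] κ) := by
  obtain ⟨A, hA⟩ : ∃ A, A = Algebra.adjoin κ (T : Set L) := ⟨_, rfl⟩
  rw [← hA]
  have hfg : A.FG := ⟨T, hA.symm⟩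
  have hft : Algebra.FiniteType κ A := (Subalgebra.fg_iff_finiteType _).1 hfg
  obtain ⟨m, hm⟩ := Ideal.exists_maximal A
  let _ : Field (A ⧸ m) := Ideal.Quotient.field m
  have hft2 : Algebra.FiniteType κ (A ⧸ m) :=
    Algebra.FiniteType.of_surjective (Ideal.Quotient.mkₐ κ m) (Ideal.Quotient.mkₐ_surjective κ m)
  have hfin : Module.Finite κ (A ⧸ m) := finite_of_finite_type_of_isJacobsonRing κ (A ⧸ m)
  have hbij : Function.Bijective (algebraMap κ (A ⧸ m)) :=
    IsAlgClosed.algebraMap_bijective_of_isIntegral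
  exact ⟨((AlgEquiv.ofBijective (Algebra.ofId κ (A ⧸ m)) hbij).symm : (A ⧸ m) →ₐ[κ] κ).comp
    (Ideal.Quotient.mkₐ κ m)⟩

/-- The unit equation has finitely many solutions in the finitely generated subrings. -/
def UF (K : Type) [Field K] : Prop :=
  ∀ T : Finset K, {x : K | UnitPair (Subring.closure (T : Set K)) x}.Finite

/-- Descent of the solutions that are constant. -/
theorem finite_const {κ L : Type} [Field κ] [IsAlgClosed κ] [Field L] [Algebra κ L] (h : UF κ)
    (T : Finset L) : {x : κ | UnitPair (Subring.closure (T : Set L)) (algebraMap κ L x)}.Finite := by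
  classical
  obtain ⟨φ⟩ := exists_spec_const κ T
  obtain ⟨A, hA⟩ : ∃ A, A = Algebra.adjoin κ (T : Set L) := ⟨_, rfl⟩
  obtain ⟨T', hT'⟩ : ∃ T' : Finset κ, ∀ t (ht : t ∈ T),
      φ ⟨t, Algebra.subset_adjoin ht⟩ ∈ T' :=
    ⟨T.attach.image fun t => φ ⟨t.1, Algebra.subset_adjoin t.2⟩, fun t ht =>
      Finset.mem_image.2 ⟨⟨t, ht⟩, Finset.mem_attach _ _, rfl⟩⟩
  have hsub : ∀ z ∈ Subring.closure (T : Set L), ∃ hz : z ∈ Algebra.adjoin κ (T : Set L),
      φ ⟨z, hz⟩ ∈ Subring.closure (T' : Set κ) := by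
    intro z hz
    induction hz using Subring.closure_induction with
    | mem z hz => exact ⟨Algebra.subset_adjoin hz, Subring.subset_closure (hT' z hz)⟩
    | zero =>
      refine ⟨zero_mem _, ?_⟩
      have : (⟨0, zero_mem _⟩ : Algebra.adjoin κ (T : Set L)) = 0 := rfl
      rw [this, map_zero]
      exact zero_mem _
    | one =>
      refine ⟨one_mem _, ?_⟩
      have : (⟨1, one_mem _⟩ : Algebra.adjoin κ (T : Set L)) = 1 := rfl
      rw [this, map_one]
      exact one_mem _
    | add a b _ _ ha hb =>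
      obtain ⟨ha1, ha2⟩ := ha
      obtain ⟨hb1, hb2⟩ := hb
      refine ⟨add_mem ha1 hb1, ?_⟩
      have : (⟨a + b, add_mem ha1 hb1⟩ : Algebra.adjoin κ (T : Set L)) =
        ⟨a, ha1⟩ + ⟨b, hb1⟩ := rfl
      rw [this, map_add]
      exact add_mem ha2 hb2
    | neg a _ ha =>
      obtain ⟨ha1, ha2⟩ := ha
      refine ⟨neg_mem ha1, ?_⟩
      have : (⟨-a, neg_mem ha1⟩ : Algebra.adjoin κ (T : Set L)) = -⟨a, ha1⟩ := rfl
      rw [this, map_neg]
      exact neg_mem ha2
    | mul a b _ _ ha hb =>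
      obtain ⟨ha1, ha2⟩ := ha
      obtain ⟨hb1, hb2⟩ := hb
      refine ⟨mul_mem ha1 hb1, ?_⟩
      have : (⟨a * b, mul_mem ha1 hb1⟩ : Algebra.adjoin κ (T : Set L)) =
        ⟨a, ha1⟩ * ⟨b, hb1⟩ := rfl
      rw [this, map_mul]
      exact mul_mem ha2 hb2
  have hc : ∀ c : κ, algebraMap κ L c ∈ Subring.closure (T : Set L) →
      c ∈ Subring.closure (T' : Set κ) := by
    intro c hc
    obtain ⟨h1, h2⟩ := hsub _ hc
    have h3 : (⟨algebraMap κ L c, h1⟩ : Algebra.adjoin κ (T : Set L)) =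
      algebraMap κ (Algebra.adjoin κ (T : Set L)) c := rfl
    rw [h3, φ.commutes] at h2
    exact h2
  refine (h T').subset ?_
  rintro x ⟨h0, h1, h2, h3, h4, h5⟩
  rw [Ne, map_eq_zero] at h0
  rw [← map_one (algebraMap κ L), ← map_sub] at h1 h4 h5
  rw [Ne, map_eq_zero] at h1
  rw [← map_inv₀] at h3 h5
  exact ⟨h0, h1, hc _ h2, hc _ h3, hc _ h4, hc _ h5⟩

end Pool.Agent.Y741
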