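import Pool.Agent.Y741.LMain
import Pool.Agent.Y741.UCoord
import Pool.Agent.Y741.UnitFF
import Pool.Agent.W602.GT.NG

/-!
Exceptional lines: specialisation, and the multiplicative group.
-/

set_option autoImplicit false

open MvPolynomial FF Pool.Agent.W603.LV Pool.Agent.W603.PV Pool.Agent.TH145.GH
open Pool.Agent.Y735 (pl rho eval_rho)
open Pool.Agent.W602.GT Pool.Agent.TH145.GF

namespace Pool.Agent.Y741

section spec

variable {k S : Type} [Field k] [CommRing S] [Algebra k S] {n : ℕ}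

/-- A form on a line, over a ring. -/
noncomputable def rhoS (x y : Fin (n + 1) → S) (G : MvPolynomial (Fin (n + 1)) k) :
    Polynomial S := aeval (fun i => Polynomial.C (x i) * Polynomial.X + Polynomial.C (y i)) G

theorem rhoS_map {S' : Type} [CommRing S'] [Algebra k S'] (φ : S →ₐ[k] S')
    (x y : Fin (n + 1) → S) (G : MvPolynomial (Fin (n + 1)) k) :
    (rhoS x y G).map (φ : S →+* S') = rhoS (fun i => φ (x i)) (fun i => φ (y i)) G := by
  have h1 : (rhoS x y G).map (φ : S →+* S') = Polynomial.mapAlgHom φ (rhoS x y G) := rfl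
  rw [h1]
  unfold rhoS
  rw [MvPolynomial.comp_aeval_apply]
  congr 2
  funext i
  simp

theorem rhoS_eq {Ω : Type} [Field Ω] [Algebra k Ω] (x y : Fin (n + 1) → Ω)
    (G : MvPolynomial (Fin (n + 1)) k) : rho x y (map (algebraMap k Ω) G) = rhoS x y G := by
  unfold rho rhoS
  exact aeval_map_algebraMap _ _ _

end spec

section transfer

variable {k : Type} [Field k] [IsAlgClosed k] {n : ℕ} {A : Type} [Fintype A] [DecidableEq A]

/-- Specialisation of exceptional lines. -/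
theorem exc_transfer {Ω : Type} [Field Ω] [Algebra k Ω] {dg : A → ℕ}
    {G : A → MvPolynomial (Fin (n + 1)) k} (hG : ∀ a, (G a).IsHomogeneous (dg a)) {C : Finset A}
    {x : Fin (n + 1) → Ω} (hxb : ∀ b, b ∉ C → aeval x (G b) ≠ 0)
    (hE : Exc 2 (fun a => map (algebraMap k Ω) (G a)) C x)
    {H : MvPolynomial (Fin (n + 1)) k} (hH : aeval x H ≠ 0) :
    ∃ z : Fin (n + 1) → k, (∀ b, b ∉ C → eval z (G b) ≠ 0) ∧ Exc 2 G C z ∧ eval z H ≠ 0 := by
  classical
  have hinfk : Infinite k := IsAlgClosed.instInfinite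
  have hinf : Infinite Ω := Infinite.of_injective _ (algebraMap k Ω).injective
  obtain ⟨y, ik, hik, hOn, t, m, hbd⟩ := hE
  have hev : ∀ (p : MvPolynomial (Fin (n + 1)) k), eval x (map (algebraMap k Ω) p) = aeval x p :=
    fun p => by
      rw [eval_map]
      rfl
  have hOn' : ∀ c ∈ C, rhoS x y (G c) = 0 := by
    intro c hc
    rw [← rhoS_eq]
    apply Polynomial.funext
    intro s
    rw [eval_rho, Polynomial.eval_zero]
    have := hOn c hc s 1
    rwa [one_smul] at this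
  have hbd' : ∏ b ∈ Cᶜ, rhoS x y (G b) = Polynomial.C (∏ b ∈ Cᶜ, aeval x (G b)) *
      ∏ i, (Polynomial.X - Polynomial.C (t i)) ^ m i := by
    have h1 := hbd
    unfold bdy at h1
    simp only [rhoS_eq, hev] at h1
    exact h1
  obtain ⟨N, hN⟩ : ∃ N, N = pl x y ik * (∏ b ∈ Cᶜ, aeval x (G b)) * aeval x H := ⟨_, rfl⟩
  have hN0 : N ≠ 0 := by
    rw [hN]
    exact mul_ne_zero (mul_ne_zero hik (Finset.prod_ne_zero_iff.2 fun b hb =>
      hxb b (Finset.mem_compl.1 hb))) hH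
  obtain ⟨T, hT⟩ : ∃ T : Finset Ω, T = Finset.univ.image x ∪ Finset.univ.image y ∪
    Finset.univ.image t ∪ {N⁻¹} := ⟨_, rfl⟩
  obtain ⟨φ⟩ := exists_spec_const k T
  have hTm : ∀ z ∈ T, z ∈ Algebra.adjoin k (T : Set Ω) := fun z hz => Algebra.subset_adjoin hz
  have hx : ∀ i, x i ∈ T := fun i => by
    rw [hT]
    simp
  have hy : ∀ i, y i ∈ T := fun i => by
    rw [hT]
    simp
  have ht : ∀ i, t i ∈ T := fun i => by
    rw [hT, Finset.mem_union, Finset.mem_union]
    exact Or.inl (Or.inr (Finset.mem_image_of_mem t (Finset.mem_univ i)))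
  have hNT : N⁻¹ ∈ T := by
    rw [hT, Finset.mem_union]
    exact Or.inr (Finset.mem_singleton_self _)
  obtain ⟨R, hR⟩ : ∃ R, R = Algebra.adjoin k (T : Set Ω) := ⟨_, rfl⟩
  rw [← hR] at φ hTm
  obtain ⟨ι, hι⟩ : ∃ ι : R →ₐ[k] Ω, ι = R.val := ⟨_, rfl⟩
  have hιi : Function.Injective ι := by rw [hι]; exact Subtype.val_injective
  obtain ⟨xS, hxS⟩ : ∃ xS : Fin (n + 1) → R, ∀ i, ι (xS i) = x i :=
    ⟨fun i => ⟨x i, hTm _ (hx i)⟩, fun _ => by rw [hι]; rfl⟩
  obtain ⟨yS, hyS⟩ : ∃ yS : Fin (n + 1) → R, ∀ i, ι (yS i) = y i :=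
    ⟨fun i => ⟨y i, hTm _ (hy i)⟩, fun _ => by rw [hι]; rfl⟩
  obtain ⟨tS, htS⟩ : ∃ tS : Fin 2 → R, ∀ i, ι (tS i) = t i :=
    ⟨fun i => ⟨t i, hTm _ (ht i)⟩, fun _ => by rw [hι]; rfl⟩
  obtain ⟨q, hq⟩ : ∃ q : R, ι q = N⁻¹ := ⟨⟨N⁻¹, hTm _ hNT⟩, by rw [hι]; rfl⟩
  have hxf : (fun i => ι (xS i)) = x := funext hxS
  have hyf : (fun i => ι (yS i)) = y := funext hyS
  have hae : ∀ p : MvPolynomial (Fin (n + 1)) k, ι (aeval xS p) = aeval x p := fun p => by
    rw [comp_aeval_apply, hxf]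
  have hmi : Function.Injective (Polynomial.map (ι : R →+* Ω)) :=
    Polynomial.map_injective _ hιi
  have e1 : ∀ c ∈ C, rhoS xS yS (G c) = 0 := fun c hc => hmi (by
    rw [rhoS_map, hxf, hyf, hOn' c hc, Polynomial.map_zero])
  have e2 : ∏ b ∈ Cᶜ, rhoS xS yS (G b) = Polynomial.C (∏ b ∈ Cᶜ, aeval xS (G b)) *
      ∏ i, (Polynomial.X - Polynomial.C (tS i)) ^ m i := hmi (by
    rw [Polynomial.map_prod, Polynomial.map_mul, Polynomial.map_C, Polynomial.map_prod]
    simp only [rhoS_map, Polynomial.map_pow, Polynomial.map_sub, Polynomial.map_X,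
      Polynomial.map_C, RingHom.coe_coe, htS, map_prod, hae]
    rw [hxf, hyf, hbd', map_prod])
  have e3 : q * ((xS ik.1 * yS ik.2 - xS ik.2 * yS ik.1) * (∏ b ∈ Cᶜ, aeval xS (G b)) *
      aeval xS H) = 1 := hιi (by
    rw [map_mul, map_mul, map_mul, map_sub, map_mul, map_mul, map_prod, map_one, hq]
    simp only [hae, hxS, hyS]
    rw [hN]
    exact inv_mul_cancel₀ (by rw [← hN]; exact hN0))
  have hφe : ∀ p : MvPolynomial (Fin (n + 1)) k, φ (aeval xS p) = eval (fun i => φ (xS i)) p :=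
    fun p => by
      rw [comp_aeval_apply]
      rfl
  have hrk : ∀ (p : MvPolynomial (Fin (n + 1)) k), rho (fun i => φ (xS i)) (fun i => φ (yS i)) p =
      (rhoS xS yS p).map (φ : R →+* k) := fun p => by
    rw [rhoS_map, ← rhoS_eq, Algebra.algebraMap_self, map_id]
  have e4 := congrArg φ e3
  rw [map_mul, map_mul, map_mul, map_sub, map_mul, map_mul, map_prod, map_one] at e4
  simp only [hφe] at e4
  have e5 := right_ne_zero_of_mul (e4 ▸ one_ne_zero : _ ≠ (0 : k))
  have e6 := left_ne_zero_of_mul e5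
  have e7 := Finset.prod_ne_zero_iff.1 (right_ne_zero_of_mul e6)
  have e8 : ∀ c ∈ C, rho (fun i => φ (xS i)) (fun i => φ (yS i)) (G c) = 0 := fun c hc => by
    rw [hrk, e1 c hc, Polynomial.map_zero]
  refine ⟨fun i => φ (xS i), fun b hb => e7 b (Finset.mem_compl.2 hb),
    ⟨fun i => φ (yS i), ik, left_ne_zero_of_mul e6, ?_, fun i => φ (tS i), m, ?_⟩,
    right_ne_zero_of_mul e5⟩
  · exact onL_basis hG (a := 1) (b := 0) (a' := 0) (b' := 1) (by rw [one_smul, zero_smul, add_zero])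
      (by rw [one_smul, zero_smul, zero_add]) e8
  · unfold bdy
    simp only [hrk]
    rw [← Polynomial.map_prod, e2, Polynomial.map_mul, Polynomial.map_C, Polynomial.map_prod]
    simp only [Polynomial.map_pow, Polynomial.map_sub, Polynomial.map_X,
      Polynomial.map_C, RingHom.coe_coe, map_prod, hφe]

end transfer

end Pool.Agent.Y741
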