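import Pool.Agent.Y741.LPt

/-!
Forms of log general type on a family of lines.
-/

set_option autoImplicit false

open FF Pool.Agent.W603.LV Pool.Agent.W603.PV Pool.Agent.TH145.GH
open Pool.Agent.W602.GT Pool.Agent.TH145.GF

namespace Pool.Agent.Y741

variable {k L : Type} [Field k] [Field L] [Algebra k L] {w : ℕ}

theorem eta_lin (t : Fin w → L) (M : Matrix (Fin w) (Fin w) L) (D1 D2 : Fin w → Derivation k L L)
    (h : ∀ i f, D1 i f = ∑ j, M i j * D2 j f) : eta t D1 = M.det * eta t D2 := by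
  unfold eta
  rw [← Matrix.det_mul]
  congr 1
  ext i j
  rw [Matrix.of_apply, Matrix.mul_apply, h]
  rfl

/-- A form of log general type on a family of lines. -/
theorem lgt_fib_form [CharZero k] (htr : Algebra.trdeg k L = w) (Bd : Place k L → Prop)
    {tt : Fin w → L} (htb : IsTranscendenceBasis k tt) {E : Fin w → Derivation k L L}
    (hEt : ∀ i j, E i (tt j) = if i = j then 1 else 0)
    (Φ : (Fin w → Derivation k L L) → L)
    (hlin : ∀ (M : Matrix (Fin w) (Fin w) L) (D1 D2 : Fin w → Derivation k L L),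
      (∀ i f, D1 i f = ∑ j, M i j * D2 j f) → Φ D1 = M.det * Φ D2)
    (hΦE : Φ E ≠ 0) {a : Place k L → ℤ} (ha : ∀ Q, a Q ≤ 0)
    (hΦ : ∀ Q : Place k L, Divisorial w Q → ∀ Dd : Fin w → Derivation k L L,
      (((∀ i, DerReg Q (Dd i)) ∧ ¬ Bd Q) ∨ ∀ i, DerLog Q (Dd i)) → Ge Q (-(a Q)) (Φ Dd))
    {t : Fin w → L} {i1 : Fin w} (ht : IsTranscendenceBasis k t)
    (hta : ∀ j, j ≠ i1 → ∀ Q, Ge Q (a Q) (t j))
    {χ U V : Polynomial L} {m : ℕ} {g : L} {N : ℕ} (hg : g ≠ 0)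
    (hχ1 : χ.eval (t i1) ≠ 0)
    (hloc : ∀ Q : Place k L, LocD Q t i1 χ U V (Q.ord g - N * a Q) m)
    (hχ0 : ∀ δ : Derivation k L L, (∀ j, j ≠ i1 → δ (t j) = 0) → ∀ i, δ (χ.coeff i) = 0)
    (hreg : ∀ Q : Place k L, ¬ Bd Q → -(Q.ord g - N * a Q) ≤ Q.ord (t i1) →
      Q.ord (χ.eval (t i1)) ≤ (m + 2) * (Q.ord g - N * a Q)) :
    LogGeneralType k L w Bd := by
  classical
  choose E' hE' using fun i : Fin w => exists_der t ht fun j => if i = j then (1 : L) else 0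
  obtain ⟨κ, hκ⟩ : ∃ κ : ℕ, κ = 2 * w + m + 3 := ⟨_, rfl⟩
  obtain ⟨N1, hN1⟩ : ∃ N1 : ℕ, N1 = κ * N + 1 := ⟨_, rfl⟩
  refine lgt_mk htr (N := N1 + 1) (Nat.succ_pos _) Bd
    (fun Dd => Φ Dd ^ N1 * g ^ κ * (eta t Dd / χ.eval (t i1))) ?_ (E := E) ?_ t ht.1 ?_
  · intro M D1 D2 h
    rw [hlin M D1 D2 h, eta_lin t M D1 D2 h]
    ring
  · have he : eta t E ≠ 0 := by
      have h1 : eta t E' = 1 := by
        unfold eta
        have h2 : (Matrix.of fun i j => E' i (t j)) = (1 : Matrix (Fin w) (Fin w) L) := by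
          ext i j
          rw [Matrix.of_apply, hE', Matrix.one_apply]
        rw [h2, Matrix.det_one]
      have h2 := eta_lin t (Matrix.of fun i j => E' i (tt j)) E' E fun i f => by
        rw [der_comb htb hEt (E' i) f]
        rfl
      rw [h1] at h2
      intro h3
      rw [h3, mul_zero] at h2
      exact one_ne_zero h2
    exact mul_ne_zero (mul_ne_zero (pow_ne_zero _ hΦE) (pow_ne_zero _ hg)) (div_ne_zero he hχ1)
  · intro Q hQ Dd hDd
    have h := hloc Q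
    obtain ⟨H, hH⟩ : ∃ H, H = Q.ord g - N * a Q := ⟨_, rfl⟩
    have hreg' := hreg Q
    rw [← hH] at h hreg'
    have hH0 := h.H0
    have haQ := ha Q
    have h12 : Ge Q (-(κ * H)) (eta t Dd / χ.eval (t i1)) ∧
        Ge Q (-(κ * H)) (eta t Dd / χ.eval (t i1) * t i1) := by
      have hm0 : (0 : ℤ) ≤ m := by positivity
      have hw0 : (0 : ℤ) ≤ w := by positivity
      have hκ' : (κ : ℤ) = 2 * w + m + 3 := by rw [hκ]; push_cast; ring
      rcases hDd with ⟨hDd, hB⟩ | hDd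
      · obtain ⟨h1, h2⟩ := h.reg hDd (hreg' hB)
        refine ⟨h1.mono ?_, h2.mono ?_⟩
        · rw [hκ']; nlinarith
        · rw [hκ']
      · obtain ⟨h1, h2⟩ := h.log ht (E := E') hE' (hχ0 (E' i1) fun j hj => by
          rw [hE', if_neg hj.symm]) hDd
        refine ⟨h1.mono ?_, h2.mono ?_⟩
        · rw [hκ']; nlinarith
        · rw [hκ']; nlinarith
    have hgκ : Ge Q (κ * Q.ord g) (g ^ κ) := Ge.pow (P := Q) (N := Q.ord g) (Or.inr le_rfl) κ
    have hp := ((hΦ Q hQ Dd hDd).pow N1).mul hgκ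
    have e1 : (N1 : ℤ) * -(a Q) + κ * Q.ord g + -(κ * H) = -(a Q) := by
      rw [hN1, hH]
      push_cast
      ring
    have h3 := hp.mul h12.1
    have h4 := hp.mul h12.2
    rw [e1] at h3 h4
    refine ⟨h3.mono (by omega), fun i => ?_⟩
    by_cases hi : i = i1
    · rw [hi, mul_assoc]
      exact h4.mono (by omega)
    · exact (h3.mul (hta i hi Q)).mono (by omega)

end Pool.Agent.Y741
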