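import Pool.Agent.Y741.LChi

/-!
The case of a family of lines.
-/

set_option autoImplicit false

open MvPolynomial FF Pool.Agent.W603.LV Pool.Agent.W603.PV Pool.Agent.TH145.GH
open Pool.Agent.Y735 (lf pm tm pl vol vol_apply po po_le exists_po zp zp_pl zp_smul exists_xi rho
  eval_rho)
open Pool.Agent.W602.GT Pool.Agent.TH145.GF

namespace Pool.Agent.Y741

/-- The case of a family of lines. -/
theorem lgt_fib {k L : Type} [Field k] [Field L] [Algebra k L] [IsAlgClosed k] [CharZero k]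
    {n w : ℕ} {A : Type} [Fintype A] [DecidableEq A] {G : A → MvPolynomial (Fin (n + 1)) k}
    {dg : A → ℕ} (hG : ∀ a, (G a).IsHomogeneous (dg a)) (htr : Algebra.trdeg k L = w)
    {F : Fam L n A} (hFG : ∀ a, F a = map (algebraMap k L) (G a))
    {C : Finset A} {x y : Fin (n + 1) → L} (hxC : ∀ c ∈ C, eval x (F c) = 0)
    (hxb : ∀ b, b ∉ C → eval x (F b) ≠ 0) {ik : Fin (n + 1) × Fin (n + 1)} (hik : pl x y ik ≠ 0)
    (hgen : Algebra.IsAlgebraic (coords k x) L)
    {tt : Fin w → L} (htb : IsTranscendenceBasis k tt) {E : Fin w → Derivation k L L}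
    (hEt : ∀ i j, E i (tt j) = if i = j then 1 else 0)
    (Φ : (Fin w → Derivation k L L) → L)
    (hlin : ∀ (M : Matrix (Fin w) (Fin w) L) (D1 D2 : Fin w → Derivation k L L),
      (∀ i f, D1 i f = ∑ j, M i j * D2 j f) → Φ D1 = M.det * Φ D2)
    (hΦE : Φ E ≠ 0)
    (hΦ : ∀ Q : Place k L, Divisorial w Q → ∀ Dd : Fin w → Derivation k L L,
      (((∀ i, DerReg Q (Dd i)) ∧ ¬ ∃ b, b ∉ C ∧ dg b * pord Q x < Q.ord (eval x (F b))) ∨
        ∀ i, DerLog Q (Dd i)) → Ge Q (-(po Q (np x y ik))) (Φ Dd))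
    {Λ : Type} [Field Λ] [IsAlgClosed Λ] (ψ : L →+* Λ) :
    LogGeneralType k L w (fun Q => ∃ b, b ∉ C ∧ dg b * pord Q x < Q.ord (eval x (F b))) ∨
      Exc 2 (mapF ψ F) C (fun j => ψ (x j)) := by
  classical
  have hLz : CharZero L := charZero_of_injective_algebraMap (algebraMap k L).injective
  have hΛz : CharZero Λ := charZero_of_injective_ringHom ψ.injective
  have hF : ∀ a, (F a).IsHomogeneous (dg a) := fun a => by
    rw [hFG]
    exact (hG a).map _
  obtain ⟨p, hp⟩ : ∃ p, p = np x y ik := ⟨_, rfl⟩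
  obtain ⟨a, ha⟩ : ∃ a : Place k L → ℤ, ∀ Q, a Q = po Q p := ⟨_, fun _ => rfl⟩
  have hpik : p ik = 1 := by rw [hp, np, div_self hik]
  have hpa : ∀ Q q, Ge Q (a Q) (p q) := by
    intro Q q
    by_cases h0 : p q = 0
    · exact Or.inl h0
    · rw [ha]
      exact Or.inr (po_le Q h0)
  have ha0 : ∀ Q, a Q ≤ 0 := by
    intro Q
    have h1 := (hpa Q ik).resolve_left (by rw [hpik]; exact one_ne_zero)
    rwa [hpik, Q.ord_one] at h1
  have hΦ' : ∀ Q : Place k L, Divisorial w Q → ∀ Dd : Fin w → Derivation k L L,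
      (((∀ i, DerReg Q (Dd i)) ∧ ¬ ∃ b, b ∉ C ∧ dg b * pord Q x < Q.ord (eval x (F b))) ∨
        ∀ i, DerLog Q (Dd i)) → Ge Q (-(a Q)) (Φ Dd) := by
    intro Q hQ Dd hDd
    rw [ha, hp]
    exact hΦ Q hQ Dd hDd
  -- the constant linear form
  have hx0 : ∃ j, x j ≠ 0 := by
    by_contra hcon
    push Not at hcon
    apply hik
    rw [pl, hcon, hcon, zero_mul, zero_mul, sub_zero]
  obtain ⟨j, hxj⟩ := hx0
  obtain ⟨P, hP⟩ : ∃ P : MvPolynomial (Fin (n + 1)) L, P = (∏ b ∈ Cᶜ, F b) * X j := ⟨_, rfl⟩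
  have hevP : ∀ v : Fin (n + 1) → L, eval v P = (∏ b ∈ Cᶜ, eval v (F b)) * v j := fun v => by
    rw [hP, map_mul, map_prod, eval_X]
  have hPx : eval ((1 : L) • x + (0 : L) • y) P ≠ 0 := by
    rw [one_smul, zero_smul, add_zero, hevP]
    exact mul_ne_zero (Finset.prod_ne_zero_iff.2 fun b hb => hxb b (Finset.mem_compl.1 hb)) hxj
  obtain ⟨ξ, hξ⟩ := exists_xi (k := k) hik hPx
  rw [hevP] at hξ
  have hξj := right_ne_zero_of_mul hξ
  have hξb := Finset.prod_ne_zero_iff.1 (left_ne_zero_of_mul hξ)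
  have hpc : p = (pl x y ik)⁻¹ • pl x y := by
    funext q
    rw [hp, np, Pi.smul_apply, smul_eq_mul, div_eq_mul_inv, mul_comm]
  obtain ⟨Δ, hΔ⟩ : ∃ Δ, Δ = zp p (fun i => algebraMap k L (ξ i)) j := ⟨_, rfl⟩
  have hzp : zp p (fun i => algebraMap k L (ξ i)) =
      (pl x y ik)⁻¹ • zp (pl x y) fun i => algebraMap k L (ξ i) := by
    rw [hpc, zp_smul]
  have hΔ0 : Δ ≠ 0 := by
    rw [hΔ, hzp]
    exact mul_ne_zero (inv_ne_zero hik) hξj
  obtain ⟨y0, y1, hy0, hy1, hx, hy, hdet⟩ := line_basis2 (ξ := fun i => algebraMap k L (ξ i)) hik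
    (j := j) (by rw [← hp, ← hΔ]; exact hΔ0)
  rw [← hp, ← hΔ] at hy0 hy1
  obtain ⟨α, hα⟩ : ∃ α, α = ∑ l, algebraMap k L (ξ l) * x l := ⟨_, rfl⟩
  obtain ⟨β, hβ⟩ : ∃ β, β = ∑ l, algebraMap k L (ξ l) * y l := ⟨_, rfl⟩
  rw [← hα] at hx hdet
  rw [← hβ] at hy hdet
  have hy0b : ∀ b, b ∉ C → eval y0 (F b) ≠ 0 := by
    intro b hb
    have h1 : y0 = (Δ⁻¹ * (pl x y ik)⁻¹) • zp (pl x y) fun i => algebraMap k L (ξ i) := by
      funext i
      rw [hy0, hzp, Pi.smul_apply, Pi.smul_apply, smul_eq_mul, smul_eq_mul]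
      ring
    rw [h1, eval_smul_hom (hF b)]
    exact mul_ne_zero (pow_ne_zero _ (mul_ne_zero (inv_ne_zero hΔ0) (inv_ne_zero hik)))
      (hξb b (Finset.mem_compl.2 hb))
  obtain ⟨s, hs⟩ : ∃ s, s = x j / (-α) := ⟨_, rfl⟩
  -- the field of the line and of the parameter
  have hK : ∀ (K : IntermediateField k L), (∀ q, p q ∈ K) → (∀ i, y0 i ∈ K) ∧ ∀ i, y1 i ∈ K := by
    intro K hK
    have h1 : ∀ i, zp p (fun i => algebraMap k L (ξ i)) i ∈ K := fun i =>
      sum_mem fun l _ => mul_mem (K.algebraMap_mem _) (hK _)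
    have h2 : Δ ∈ K := by rw [hΔ]; exact h1 j
    refine ⟨fun i => ?_, fun i => ?_⟩
    · rw [hy0]
      exact mul_mem (inv_mem h2) (h1 i)
    · rw [hy1]
      exact mul_mem (inv_mem h2) (hK _)
  have hgen' : Algebra.IsAlgebraic (IntermediateField.adjoin k (insert s (Set.range p))) L := by
    refine alg_of_coords hgen ?_
    obtain ⟨K, hKd⟩ : ∃ K, K = IntermediateField.adjoin k (insert s (Set.range p)) := ⟨_, rfl⟩
    rw [← hKd]
    have hpK : ∀ q, p q ∈ K := fun q => by
      rw [hKd]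
      exact IntermediateField.subset_adjoin _ _ (Or.inr ⟨q, rfl⟩)
    have hsK : s ∈ K := by
      rw [hKd]
      exact IntermediateField.subset_adjoin _ _ (Or.inl rfl)
    obtain ⟨h1, h2⟩ := hK K hpK
    by_cases hα0 : α = 0
    · refine coords_le (κ := x j) (v := y0) ?_ K h1
      rw [hα0, neg_zero, zero_smul, add_zero] at hx
      exact hx
    · refine coords_le (κ := -α) (v := s • y0 + y1) ?_ K fun i => ?_
      · rw [smul_add, smul_smul, hs, mul_div_cancel₀ _ (neg_ne_zero.2 hα0)]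
        exact hx
      · exact add_mem (mul_mem hsK (h1 i)) (h2 i)
  rcases exists_fib_basis htr p s hgen' with ⟨l, hl⟩ | ⟨t, i1, ht, hts, htp, hpalg⟩
  · exact Or.inl (lgt_big htr _ (E := E) Φ hlin hΦE ha0 hΦ' _ hl fun Q i => hpa Q _)
  have htn : ∀ i, t i ≠ 0 := fun i => ht.1.ne_zero i
  have hα0 : α ≠ 0 := by
    rintro hα0
    apply htn i1
    rw [hts, hs, hα0, neg_zero, div_zero]
  have hxv : x = (-α) • (s • y0 + y1) := by
    rw [smul_add, smul_smul, hs, mul_div_cancel₀ _ (neg_ne_zero.2 hα0)]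
    exact hx
  obtain ⟨v, hv⟩ : ∃ v, v = s • y0 + y1 := ⟨_, rfl⟩
  rw [← hv] at hxv
  -- the field of the lines
  obtain ⟨M, hM⟩ : ∃ M : IntermediateField k L, M =
    (algebraicClosure (IntermediateField.adjoin k (t '' {i1}ᶜ)) L).restrictScalars k := ⟨_, rfl⟩
  have hMmem : ∀ z, z ∈ M ↔ IsAlgebraic (IntermediateField.adjoin k (t '' {i1}ᶜ)) z := by
    intro z
    rw [hM, IntermediateField.mem_restrictScalars, mem_algebraicClosure_iff]
  have hMt : ∀ f : Polynomial M, f ≠ 0 → Polynomial.eval s (f.map (algebraMap M L)) ≠ 0 := by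
    subst hM
    intro f hf
    rw [← hts]
    exact transc_last' ht.1 f hf
  obtain ⟨hy0M, hy1M⟩ := hK M fun q => (hMmem _).2 (hpalg q)
  obtain ⟨z0, hz0⟩ : ∃ z0 : Fin (n + 1) → M, ∀ i, algebraMap M L (z0 i) = y0 i :=
    ⟨fun i => ⟨y0 i, hy0M i⟩, fun _ => rfl⟩
  obtain ⟨z1, hz1⟩ : ∃ z1 : Fin (n + 1) → M, ∀ i, algebraMap M L (z1 i) = y1 i :=
    ⟨fun i => ⟨y1 i, hy1M i⟩, fun _ => rfl⟩
  obtain ⟨FM, hFM⟩ : ∃ FM : Fam M n A, ∀ a, FM a = map (algebraMap k M) (G a) :=
    ⟨_, fun _ => rfl⟩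
  have hFMh : ∀ a, (FM a).IsHomogeneous (dg a) := fun a => by
    rw [hFM]
    exact (hG a).map _
  have hFMF : mapF (algebraMap M L) FM = F := by
    funext a
    unfold mapF
    rw [hFM, hFG, map_map, ← IsScalarTower.algebraMap_eq]
  have hz0f : (fun i => algebraMap M L (z0 i)) = y0 := funext hz0
  have hz1f : (fun i => algebraMap M L (z1 i)) = y1 := funext hz1
  have hbM : (bdy FM C z0 z1).map (algebraMap M L) = bdy F C y0 y1 := by
    rw [← bdy_map, hFMF, hz0f, hz1f]
  have hzb : ∀ b, b ∉ C → eval z0 (FM b) ≠ 0 := by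
    intro b hb h0
    apply hy0b b hb
    have h1 := congrArg (algebraMap M L) h0
    rw [← eval_mapF, hz0f, map_zero] at h1
    have h2 : map (algebraMap M L) (FM b) = F b := congrFun hFMF b
    rwa [h2] at h1
  have hMz : CharZero M := charZero_of_injective_algebraMap (algebraMap k M).injective
  obtain ⟨χ0, γ0, U0, V0, c0, m0, hc0, hχm, hγm, hUV, hfac, hdvd⟩ := exists_chi hFMh z1 hzb
  obtain ⟨χ, hχ⟩ : ∃ χ, χ = χ0.map (algebraMap M L) := ⟨_, rfl⟩
  obtain ⟨γ, hγ⟩ : ∃ γ, γ = γ0.map (algebraMap M L) := ⟨_, rfl⟩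
  obtain ⟨U, hU⟩ : ∃ U, U = U0.map (algebraMap M L) := ⟨_, rfl⟩
  obtain ⟨V, hV⟩ : ∃ V, V = V0.map (algebraMap M L) := ⟨_, rfl⟩
  obtain ⟨c, hc⟩ : ∃ c, c = algebraMap M L c0 := ⟨_, rfl⟩
  have hbL : bdy F C y0 y1 = Polynomial.C c * (χ * γ) := by
    rw [← hbM, hfac, Polynomial.map_mul, Polynomial.map_C, Polynomial.map_mul, hχ, hγ, hc]
  have hχmon : χ.Monic := by rw [hχ]; exact hχm.map _
  have hχdeg : χ.natDegree = χ0.natDegree := by rw [hχ, hχm.natDegree_map]
  have hc00 : c ≠ 0 := by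
    rw [hc]
    exact (map_ne_zero _).2 hc0
  by_cases hdeg : χ.natDegree ≤ 2
  · right
    have hon : ∀ c ∈ C, rho y0 y1 (F c) = 0 := by
      intro e he
      have h1 : (rho z0 z1 (FM e)).map (algebraMap M L) = rho y0 y1 (F e) := by
        rw [← rho_map, hz0f, hz1f]
        congr 1
        exact congrFun hFMF e
      by_contra hcon
      have h2 : rho z0 z1 (FM e) ≠ 0 := by
        intro h2
        apply hcon
        rw [← h1, h2, Polynomial.map_zero]
      have h3 := hMt _ h2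
      apply h3
      rw [h1, eval_rho, ← hv]
      have h4 := hxC e he
      rw [hxv, eval_smul_hom (hF e)] at h4
      exact (mul_eq_zero.1 h4).resolve_left (pow_ne_zero _ (neg_ne_zero.2 hα0))
    have hOn : OnL F C x y := onL_basis hF hx hy hon
    refine ⟨fun j => ψ (y j), ik, ?_, (onL_mapF ψ hF hxC).2 hOn, ?_⟩
    · rw [pl_map]
      dsimp only
      rwa [Ne, map_eq_zero]
    · refine pun_of_basis (F := mapF ψ F) (dg := dg) (fun b => (hF b).map ψ)
        (y0 := fun i => ψ (y0 i)) (y1 := fun i => ψ (y1 i)) (a := ψ (x j)) (b := ψ (-α))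
        (a' := ψ (y j)) (b' := ψ (-β)) ?_ ?_ ?_ ?_ ?_ (χ := χ.map ψ) ?_ ?_ ?_
      · funext i
        have h1 := congrArg ψ (congrFun hx i)
        rw [Pi.add_apply, Pi.smul_apply, Pi.smul_apply, smul_eq_mul, smul_eq_mul, map_add, map_mul,
          map_mul] at h1
        exact h1
      · funext i
        have h1 := congrArg ψ (congrFun hy i)
        rw [Pi.add_apply, Pi.smul_apply, Pi.smul_apply, smul_eq_mul, smul_eq_mul, map_add, map_mul,
          map_mul] at h1
        exact h1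
      · rw [← map_mul, ← map_mul, ← map_sub, Ne, map_eq_zero]
        exact hdet
      · intro b hb
        unfold mapF
        rw [eval_mapF, Ne, map_eq_zero]
        exact hxb b hb
      · intro b hb
        unfold mapF
        rw [eval_mapF, Ne, map_eq_zero]
        exact hy0b b hb
      · intro u hu
        rw [bdy_map] at hu
        obtain ⟨q, hq⟩ := hdvd
        have h1 := congrArg (fun f => (f.map (algebraMap M L)).map ψ) hq
        simp only [Polynomial.map_mul, Polynomial.map_pow, Polynomial.map_C] at h1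
        rw [hbM, ← hc, ← hχ] at h1
        have h2 := congrArg (fun f => f.eval u) h1
        simp only [Polynomial.eval_mul, Polynomial.eval_pow, Polynomial.eval_C] at h2
        rw [hu, zero_mul] at h2
        exact eq_zero_of_pow_eq_zero ((mul_eq_zero.1 h2).resolve_left ((map_ne_zero ψ).2 hc00))
      · exact (Polynomial.map_ne_zero_iff ψ.injective).2 hχmon.ne_zero
      · rw [Polynomial.natDegree_map]
        exact hdeg
  · left
    obtain ⟨Z, hZ⟩ : ∃ Z : Finset L, Z = χ.coeffs ∪ γ.coeffs ∪ U.coeffs ∪ V.coeffs ∪ {c} ∪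
      (Finset.univ.erase i1).image t := ⟨_, rfl⟩
    have hco : ∀ (f : Polynomial M), ∀ z ∈ (f.map (algebraMap M L)).coeffs, z ∈ M := by
      intro f z hz
      obtain ⟨i, -, hi⟩ := Polynomial.mem_coeffs_iff.1 hz
      rw [hi, Polynomial.coeff_map]
      exact (f.coeff i).2
    have hZM : ∀ z ∈ Z, z ∈ M := by
      intro z hz
      rw [hZ, Finset.mem_union, Finset.mem_union, Finset.mem_union, Finset.mem_union,
        Finset.mem_union] at hz
      rcases hz with ((((hz | hz) | hz) | hz) | hz) | hz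
      · rw [hχ] at hz; exact hco _ z hz
      · rw [hγ] at hz; exact hco _ z hz
      · rw [hU] at hz; exact hco _ z hz
      · rw [hV] at hz; exact hco _ z hz
      · rw [Finset.mem_singleton.1 hz, hc]
        exact c0.2
      · obtain ⟨i, hi, rfl⟩ := Finset.mem_image.1 hz
        obtain ⟨q, hq⟩ := htp i (Finset.ne_of_mem_erase hi)
        rw [hq]
        exact (hMmem _).2 (hpalg q)
    have hSb : ∀ z ∈ t '' {i1}ᶜ, Bdd a z := by
      rintro _ ⟨i, hi, rfl⟩
      obtain ⟨q, hq⟩ := htp i hi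
      rw [hq]
      exact ⟨1, fun Q => (hpa Q q).mono (by rw [Nat.cast_one, one_mul])⟩
    obtain ⟨g, N, hg0, hgN, hgZ⟩ := exists_den ha0 hSb Z fun z hz => (hMmem z).1 (hZM z hz)
    obtain ⟨m, hm⟩ : ∃ m, m = max γ.natDegree (max U.natDegree V.natDegree) := ⟨_, rfl⟩
    have hsub : χ.coeffs ⊆ Z ∧ γ.coeffs ⊆ Z ∧ U.coeffs ⊆ Z ∧ V.coeffs ⊆ Z ∧ c ∈ Z ∧
        ∀ i, i ≠ i1 → t i ∈ Z := by
      rw [hZ]
      refine ⟨fun z hz => ?_, fun z hz => ?_, fun z hz => ?_, fun z hz => ?_, ?_, fun i hi => ?_⟩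
      all_goals
        rw [Finset.mem_union, Finset.mem_union, Finset.mem_union, Finset.mem_union,
          Finset.mem_union]
      · exact Or.inl (Or.inl (Or.inl (Or.inl (Or.inl hz))))
      · exact Or.inl (Or.inl (Or.inl (Or.inl (Or.inr hz))))
      · exact Or.inl (Or.inl (Or.inl (Or.inr hz)))
      · exact Or.inl (Or.inl (Or.inr hz))
      · exact Or.inl (Or.inr (Finset.mem_singleton_self c))
      · exact Or.inr (Finset.mem_image_of_mem t (Finset.mem_erase.2 ⟨hi, Finset.mem_univ i⟩))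
    obtain ⟨s1, s2, s3, s4, s5, s6⟩ := hsub
    have hχs : χ.eval (t i1) ≠ 0 := by
      rw [hts, hχ]
      exact hMt _ hχm.ne_zero
    have hγs : γ.eval (t i1) ≠ 0 := by
      rw [hts, hγ]
      exact hMt _ hγm.ne_zero
    refine lgt_fib_form htr _ htb hEt Φ hlin hΦE ha0 hΦ' ht (fun i hi Q => ?_) (χ := χ) (U := U)
      (V := V) (m := m) (g := g) (N := N) hg0 hχs (fun Q => ?_) (fun δ hδ i => ?_) fun Q hB hsH => ?_
    · obtain ⟨q, hq⟩ := htp i hi
      rw [hq]
      exact hpa Q q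
    · have hQZ := hgZ Q
      refine ⟨by have := hgN Q; omega, hχmon, by omega, pge_of hQZ s1, pge_of hQZ s3,
        pge_of hQZ s4, ?_, ?_, ?_, fun i hi => hQZ _ (s6 i hi), hχs⟩
      · rw [hm]; exact (le_max_left _ _).trans (le_max_right _ _)
      · rw [hm]; exact (le_max_right _ _).trans (le_max_right _ _)
      · have h1 := congrArg (Polynomial.map (algebraMap M L)) hUV
        rw [Polynomial.map_add, Polynomial.map_mul, Polynomial.map_mul, Polynomial.map_one,
          ← Polynomial.derivative_map, ← hU, ← hV, ← hχ] at h1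
        exact h1
    · refine der_last hδ ((hMmem _).1 ?_)
      rw [hχ, Polynomial.coeff_map]
      exact (χ0.coeff i).2
    · have hQZ := hgZ Q
      obtain ⟨H, hH⟩ : ∃ H, H = Q.ord g - N * a Q := ⟨_, rfl⟩
      rw [← hH] at hsH hQZ ⊢
      have hH0 : 0 ≤ H := by have := hgN Q; omega
      have h1 : (bdy F C y0 y1).eval (t i1) = c * (χ.eval (t i1) * γ.eval (t i1)) := by
        rw [hbL, Polynomial.eval_mul, Polynomial.eval_mul, Polynomial.eval_C]
      have h2 := congrArg Q.ord h1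
      rw [Q.ord_mul hc00 (mul_ne_zero hχs hγs), Q.ord_mul hχs hγs] at h2
      have hco := (hQZ c s5).resolve_left hc00
      have h3 : Ge Q (-H + γ.natDegree * (-H)) (γ.eval (t i1)) :=
        (pge_of hQZ s2).eval le_rfl (by omega) (Or.inr hsH)
      replace h3 := h3.resolve_left hγs
      have hmγ : (γ.natDegree : ℤ) ≤ m := by
        rw [hm]
        exact_mod_cast le_max_left _ _
      have h4 : Q.ord ((bdy F C y0 y1).eval (t i1)) ≤ 0 := by
        rw [eval_bdy, hts, ← hv]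
        have hvb : ∀ b ∈ Cᶜ, eval v (F b) ≠ 0 := by
          intro b hb h0
          apply hxb b (Finset.mem_compl.1 hb)
          rw [hxv, eval_smul_hom (hF b), h0, mul_zero]
        rw [Pool.Agent.TH145.GC.ord_prod Q _ _ hvb]
        refine Finset.sum_nonpos fun b hb => ?_
        have hbC := Finset.mem_compl.1 hb
        push Not at hB
        have h5 := hB b hbC
        have hα1 : (-α) ≠ 0 := neg_ne_zero.2 hα0
        have hv0 : ∃ j, v j ≠ 0 := by
          by_contra hcon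
          push Not at hcon
          apply hxj
          rw [hxv, Pi.smul_apply, hcon, smul_zero]
        have h6 : pord Q x = Q.ord (-α) + pord Q v := by
          rw [hxv]
          exact pord_scale Q hv0 hα1
        have h7 : Q.ord (eval x (F b)) = dg b * Q.ord (-α) + Q.ord (eval v (F b)) := by
          rw [hxv, eval_smul_hom (hF b), Q.ord_mul (pow_ne_zero _ hα1) (hvb b hb), Q.ord_pow]
        rw [h6, h7] at h5
        have h8 : pord Q v ≤ 0 := by
          refine pord_nonpos (ξ := ξ) ?_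
          have h9 : α = -α * ∑ i, algebraMap k L (ξ i) * v i := by
            rw [Finset.mul_sum]
            conv_lhs => rw [hα]
            refine Finset.sum_congr rfl fun i _ => ?_
            conv_lhs => rw [hxv]
            rw [Pi.smul_apply, smul_eq_mul]
            ring
          have h10 : α * (∑ i, algebraMap k L (ξ i) * v i + 1) = 0 := by
            linear_combination h9
          have h11 := (mul_eq_zero.1 h10).resolve_left hα0
          linear_combination h11
        have h9 : (dg b : ℤ) * pord Q v ≤ 0 :=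
          mul_nonpos_of_nonneg_of_nonpos (by positivity) h8
        nlinarith
      nlinarith

end Pool.Agent.Y741
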