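import Pool.Agent.Y741.LLin

/-!
The subvarieties of generic pairs that are not of log general type.
-/

set_option autoImplicit false

open MvPolynomial FF Pool.Agent.W603.LV Pool.Agent.W603.PV Pool.Agent.TH145.GH
open Pool.Agent.Y735 (pl rho eval_rho)
open Pool.Agent.TH145.GC (Cf)
open Pool.Agent.W602.GT Pool.Agent.TH145.MG Pool.Agent.TH145.GF
open LinearAlgebra.Projectivization

namespace Pool.Agent.Y741

/-- The closed subvarieties of the pair. -/
def SubV {k A K : Type} [Field k] [Field K] [Algebra k K] {n : ℕ}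
    (G : A → MvPolynomial (Fin (n + 1)) k) (C : Finset A) (w : ℕ) (y : Fin (n + 1) → K) : Prop :=
  (y ≠ 0 ∧ (∀ c ∈ C, aeval y (G c) = 0) ∧ ∀ b, b ∉ C → aeval y (G b) ≠ 0) ∧
    Algebra.trdeg k K = w ∧ Algebra.IsAlgebraic (coords k y) K

/-- The subvariety is of log general type. -/
def LGT {k A K : Type} [Field k] [Field K] [Algebra k K] {n : ℕ}
    (G : A → MvPolynomial (Fin (n + 1)) k) (d : A → ℕ) (C : Finset A) (w : ℕ)
    (y : Fin (n + 1) → K) : Prop :=
  LogGeneralType k K w fun Q : Place k K =>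
    ∃ b, b ∉ C ∧ d b * pord Q y < Q.ord (aeval y (G b))

/-- An exceptional line. -/
def ExL {K A : Type} [Field K] {n : ℕ} (G : A → MvPolynomial (Fin (n + 1)) K)
    (C : Finset A) (W : Submodule K (Fin (n + 1) → K)) : Prop :=
  IsLine G C W ∧ (Pts W ∩ Bd G C).encard ≤ 2

section

variable {k0 k : Type} [Field k0] [Field k] [Algebra k0 k] [IsAlgClosed k] [CharZero k] {n : ℕ}
  {A : Type} [Fintype A] [DecidableEq A] {d : A → ℕ} {G : A → MvPolynomial (Fin (n + 1)) k}
  {C : Finset A}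

/-- The subvarieties that are not of log general type are covered by exceptional lines. -/
theorem lf_dich (hn : 1 ≤ n) (hd0 : ∀ a, 0 < d a) (hG : ∀ a, (G a).IsHomogeneous (d a))
    (hind : AlgebraicIndependent k0 fun p : Cf n d => (G p.1).coeff p.2.1) (hC : ∃ b, b ∉ C)
    (hd : 3 * n + 3 ≤ 2 * ∑ a, d a + C.card) {K : Type} [Field K] [Algebra k K] {w : ℕ}
    {y : Fin (n + 1) → K} (hw : 0 < w) (hy : SubV G C w y) (hy' : ¬ LGT G d C w y)
    (Ω : Type) [Field Ω] [Algebra k Ω] [IsAlgClosed Ω] (ψ : K →ₐ[k] Ω) :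
    Exc 2 (fun a => map (algebraMap k Ω) (G a)) C (fun j => ψ (y j)) := by
  obtain ⟨⟨hy0, hyC, hyb⟩, htr, hgen⟩ := hy
  have h1 := (lgt_or_exc (k0 := k0) hn hd0 hG hind hC hd hw htr hy0 hgen hyC hyb
    (ψ : K →+* Ω)).resolve_left hy'
  have h2 : mapF (ψ : K →+* Ω) (fun a => map (algebraMap k K) (G a)) =
      fun a => map (algebraMap k Ω) (G a) := by
    funext a
    unfold mapF
    rw [map_map, ψ.comp_algebraMap]
  rw [h2] at h1
  exact h1

theorem lf_line (hG : ∀ a, (G a).IsHomogeneous (d a)) {Ω : Type} [Field Ω] [Algebra k Ω]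
    {x : Fin (n + 1) → Ω} (hxb : ∀ b, b ∉ C → aeval x (G b) ≠ 0)
    (hE : Exc 2 (fun a => map (algebraMap k Ω) (G a)) C x) :
    ∃ W, ExL (fun a => map (algebraMap k Ω) (G a)) C W ∧ x ∈ W := by
  obtain ⟨W, h1, h2, h3⟩ := exc_line (F := fun a => map (algebraMap k Ω) (G a))
    (fun a => (hG a).map _) (fun b hb => by
      rw [eval_map]
      exact hxb b hb) hE
  exact ⟨W, ⟨h1, h2⟩, h3⟩

/-- The forms that vanish on the exceptional lines. -/
theorem lf_forms (hn : 1 ≤ n) (hd0 : ∀ a, 0 < d a) (hG : ∀ a, (G a).IsHomogeneous (d a))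
    (hind : AlgebraicIndependent k0 fun p : Cf n d => (G p.1).coeff p.2.1) (hC : ∃ b, b ∉ C)
    (hd : 3 * n + 3 ≤ 2 * ∑ a, d a + C.card) {H : MvPolynomial (Fin (n + 1)) k} {e : ℕ}
    (hH : H.IsHomogeneous e) :
    (∀ W, ExL G C W → ∀ v ∈ W, eval v H = 0) ↔
      ∀ (K : Type) [Field K] [Algebra k K] (w : ℕ) (y : Fin (n + 1) → K), 0 < w →
        SubV G C w y → ¬ LGT G d C w y → aeval y H = 0 := by
  classical
  constructor
  · intro h K _ _ w y hw hy hy'
    by_contra hne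
    have h1 := lf_dich (k0 := k0) hn hd0 hG hind hC hd hw hy hy' (AlgebraicClosure K)
      (IsScalarTower.toAlgHom k K (AlgebraicClosure K))
    have hmap : ∀ p : MvPolynomial (Fin (n + 1)) k,
        aeval (fun j => (IsScalarTower.toAlgHom k K (AlgebraicClosure K)) (y j)) p =
          (IsScalarTower.toAlgHom k K (AlgebraicClosure K)) (aeval y p) := fun p => by
      rw [comp_aeval_apply]
    have hinj : ∀ z : K, z ≠ 0 → (IsScalarTower.toAlgHom k K (AlgebraicClosure K)) z ≠ 0 :=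
      fun z hz => (map_ne_zero _).2 hz
    obtain ⟨z, hzb, hz1, hz2⟩ := exc_transfer hG (fun b hb => by
      rw [hmap]
      exact hinj _ (hy.1.2.2 b hb)) h1 (H := H) (by
      rw [hmap]
      exact hinj _ hne)
    obtain ⟨W, h2, h3, h4⟩ := exc_line hG hzb hz1
    exact hz2 (h W ⟨h2, h3⟩ z h4)
  · intro h W hW v hv
    obtain ⟨u0, v0, hu, hv0, hli, hb⟩ := line_gm hG hW.1 hW.2
    obtain ⟨i, j, hij⟩ := pl_of_li hli
    have hb' : ∀ t : k, t ≠ 0 → ∀ b, b ∉ C → eval (fun j => (lp u0 v0 j).eval t) (G b) ≠ 0 := by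
      intro t ht b hbC
      rw [lp_eval]
      have := hb t 1 ht one_ne_zero b hbC
      rwa [one_smul] at this
    obtain ⟨h1, h2, h3, h4⟩ := gm_on (P := lp u0 v0) (G := G) (C := C) (fun t ht c hc => by
      rw [lp_eval]
      exact hW.1.2 c hc _ (W.add_mem (W.smul_mem _ hu) hv0)) hb' (lp_nc hij)
    have h5 := gm_not_lgt (P := lp u0 v0) (G := G) (C := C) (dg := d) (fun t ht => by
      by_contra hcon
      push Not at hcon
      apply comb_ne hli t
      rw [← lp_eval]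
      exact funext hcon) hb'
    have h6 := h (RatFunc k) 1 (gp (lp u0 v0)) one_pos
      ⟨⟨h1, h2, h3⟩, by rw [trdeg_rat, Nat.cast_one], h4⟩ h5
    obtain ⟨a, b, rfl⟩ := span_of_line hW.1.1 hu hv0 hli hv
    exact lp_zero hH h6 a b

end

end Pool.Agent.Y741
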