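import Pool.Agent.Y741.LFinal
import Pool.Agent.Y741.UFin2

/-!
Generic pairs are strongly of log general type.
-/

set_option autoImplicit false

open MvPolynomial FF Pool.Agent.W603.LV Pool.Agent.W603.PV Pool.Agent.TH145.GH
open Pool.Agent.Y735 (pl rho eval_rho)
open Pool.Agent.TH145.GC (Cf)
open Pool.Agent.W602.GT Pool.Agent.TH145.MG Pool.Agent.TH145.GF
open LinearAlgebra.Projectivization

namespace Pool.Agent.Y741

section

variable {k0 k : Type} [Field k0] [Field k] [Algebra k0 k] [IsAlgClosed k] [CharZero k] {n : ℕ}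
  {A : Type} [Fintype A] [DecidableEq A] {d : A → ℕ} {G : A → MvPolynomial (Fin (n + 1)) k}
  {C : Finset A}

/-- Subvarieties of large dimension are strongly of log general type. -/
theorem lf_strong (hn : 1 ≤ n) (hd0 : ∀ a, 0 < d a) (hG : ∀ a, (G a).IsHomogeneous (d a))
    (hind : AlgebraicIndependent k0 fun p : Cf n d => (G p.1).coeff p.2.1) (hC : ∃ b, b ∉ C)
    (hd : 3 * n + 3 ≤ 2 * ∑ a, d a + C.card) {K : Type} [Field K] [Algebra k K] {w : ℕ}
    {y : Fin (n + 1) → K} (hw : 2 * n + 2 ≤ ∑ a, d a + C.card + w) (hy : SubV G C w y) :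
    ∃ (H : MvPolynomial (Fin (n + 1)) k) (e : ℕ), H.IsHomogeneous e ∧ aeval y H ≠ 0 ∧
      ∀ (K' : Type) [Field K'] [Algebra k K'] (w' : ℕ) (y' : Fin (n + 1) → K'), 0 < w' →
        SubV G C w' y' → aeval y' H ≠ 0 → LGT G d C w' y' := by
  classical
  obtain ⟨H, e, hH, hyH, h⟩ := exists_H_sub (k0 := k0) C hw G hG hind hy.1.1 hy.2.2 hy.2.1
  refine ⟨H, e, hH, hyH, fun K' _ _ w' y' hw' hy' hne => ?_⟩
  by_contra hcon
  have h1 := lf_dich (k0 := k0) hn hd0 hG hind hC hd hw' hy' hcon (AlgebraicClosure K')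
    (IsScalarTower.toAlgHom k K' (AlgebraicClosure K'))
  have hmap : ∀ p : MvPolynomial (Fin (n + 1)) k,
      aeval (fun j => (IsScalarTower.toAlgHom k K' (AlgebraicClosure K')) (y' j)) p =
        (IsScalarTower.toAlgHom k K' (AlgebraicClosure K')) (aeval y' p) := fun p => by
    rw [comp_aeval_apply]
  have hinj : ∀ z : K', z ≠ 0 → (IsScalarTower.toAlgHom k K' (AlgebraicClosure K')) z ≠ 0 :=
    fun z hz => (map_ne_zero _).2 hz
  have h2 := h (AlgebraicClosure K')
    (fun j => (IsScalarTower.toAlgHom k K' (AlgebraicClosure K')) (y' j)) (fun h0 => by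
      apply hy'.1.1
      funext j
      by_contra hj
      exact hinj _ hj (congrFun h0 j)) (fun b hb => by
      unfold mapF
      rw [eval_map]
      have h3 := hinj _ (hy'.1.2.2 b hb)
      rw [← hmap] at h3
      exact h3) h1
  rw [hmap] at h2
  exact hinj _ hne h2

/-- There are no exceptional lines if and only if all subvarieties are of log general type. -/
theorem lf_iff (hn : 1 ≤ n) (hd0 : ∀ a, 0 < d a) (hG : ∀ a, (G a).IsHomogeneous (d a))
    (hind : AlgebraicIndependent k0 fun p : Cf n d => (G p.1).coeff p.2.1) (hC : ∃ b, b ∉ C)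
    (hd : 3 * n + 3 ≤ 2 * ∑ a, d a + C.card) :
    (∀ W, ¬ ExL G C W) ↔ ∀ (K : Type) [Field K] [Algebra k K] (w : ℕ) (y : Fin (n + 1) → K),
      0 < w → SubV G C w y → LGT G d C w y := by
  have h := lf_forms (k0 := k0) hn hd0 hG hind hC hd (H := 1) (e := 0) (isHomogeneous_one _ _)
  constructor
  · intro h1 K _ _ w y hw hy
    by_contra hcon
    have h2 := h.1 (fun W hW => absurd hW (h1 W)) K w y hw hy hcon
    rw [map_one] at h2
    exact one_ne_zero h2
  · intro h1 W hW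
    have h2 := h.2 (fun K _ _ w y hw hy hcon => absurd (h1 K w y hw hy) hcon) W hW 0 W.zero_mem
    rw [map_one] at h2
    exact one_ne_zero h2

/-- A nonconstant morphism from the multiplicative group. -/
def GmM {k A : Type} [Field k] {n : ℕ} (G : A → MvPolynomial (Fin (n + 1)) k) (C : Finset A)
    (P : Fin (n + 1) → Polynomial k) : Prop :=
  (∀ t, t ≠ 0 → (∃ j, (P j).eval t ≠ 0) ∧
    (∀ c ∈ C, eval (fun j => (P j).eval t) (G c) = 0) ∧
    ∀ b, b ∉ C → eval (fun j => (P j).eval t) (G b) ≠ 0) ∧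
  ∃ s t, s ≠ 0 ∧ t ≠ 0 ∧ ∃ i j, (P i).eval s * (P j).eval t ≠ (P j).eval s * (P i).eval t

/-- There are no exceptional lines if and only if there are no nonconstant morphisms from the
multiplicative group. -/
theorem lf_gm (hn : 1 ≤ n) (hd0 : ∀ a, 0 < d a) (hG : ∀ a, (G a).IsHomogeneous (d a))
    (hind : AlgebraicIndependent k0 fun p : Cf n d => (G p.1).coeff p.2.1) (hC : ∃ b, b ∉ C)
    (hd : 3 * n + 3 ≤ 2 * ∑ a, d a + C.card) :
    (∀ W, ¬ ExL G C W) ↔ ∀ P, ¬ GmM G C P := by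
  constructor
  · intro h P hP
    rw [lf_iff (k0 := k0) hn hd0 hG hind hC hd] at h
    obtain ⟨hP1, hP2⟩ := hP
    obtain ⟨h1, h2, h3, h4⟩ := gm_on (P := P) (G := G) (C := C) (fun t ht => (hP1 t ht).2.1)
      (fun t ht => (hP1 t ht).2.2) hP2
    exact gm_not_lgt (P := P) (G := G) (C := C) (dg := d) (fun t ht => (hP1 t ht).1)
      (fun t ht => (hP1 t ht).2.2) (h (RatFunc k) 1 (gp P) one_pos
        ⟨⟨h1, h2, h3⟩, by rw [trdeg_rat, Nat.cast_one], h4⟩)
  · intro h W hW
    obtain ⟨u0, v0, hu, hv0, hli, hb⟩ := line_gm hG hW.1 hW.2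
    obtain ⟨i, j, hij⟩ := pl_of_li hli
    refine h (lp u0 v0) ⟨fun t ht => ⟨?_, fun c hc => ?_, fun b hbC => ?_⟩, lp_nc hij⟩
    · by_contra hcon
      push Not at hcon
      apply comb_ne hli t
      rw [← lp_eval]
      exact funext hcon
    · rw [lp_eval]
      exact hW.1.2 c hc _ (W.add_mem (W.smul_mem _ hu) hv0)
    · rw [lp_eval]
      have := hb t 1 ht one_ne_zero b hbC
      rwa [one_smul] at this

/-- The multiplicative group in an exceptional line. -/
theorem lf_par (hG : ∀ a, (G a).IsHomogeneous (d a)) {W : Submodule k (Fin (n + 1) → k)}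
    (hW : ExL G C W) : ∃ u v, u ∈ W ∧ v ∈ W ∧ LinearIndependent k ![u, v] ∧
      ∀ s t : k, s ≠ 0 → t ≠ 0 → s • u + t • v ≠ 0 ∧ (∀ c ∈ C, eval (s • u + t • v) (G c) = 0) ∧
        ∀ b, b ∉ C → eval (s • u + t • v) (G b) ≠ 0 := by
  obtain ⟨u, v, hu, hv, hli, h⟩ := line_gm hG hW.1 hW.2
  refine ⟨u, v, hu, hv, hli, fun s t hs ht => ⟨fun h0 => ?_, fun c hc => ?_, h s t hs ht⟩⟩
  · rw [LinearIndependent.pair_iff] at hli
    exact hs (hli s t h0).1
  · exact hW.1.2 c hc _ (W.add_mem (W.smul_mem _ hu) (W.smul_mem _ hv))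

/-- There are no exceptional lines in large degree. -/
theorem lf_none (hG : ∀ a, (G a).IsHomogeneous (d a))
    (hind : AlgebraicIndependent k0 fun p : Cf n d => (G p.1).coeff p.2.1)
    (hd : 2 * n + 1 ≤ ∑ a, d a + C.card) (W : Submodule k (Fin (n + 1) → k)) : ¬ ExL G C W := by
  intro hW
  have h1 : (fun a => map (algebraMap k k) (G a)) = G := by
    funext a
    rw [Algebra.algebraMap_self, map_id]
  have h2 := no_exc_ext' (Ω := k) C (Or.inl hd) hG hind W (by rw [h1]; exact hW.1)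
  rw [h1] at h2
  exact h2 hW.2

end

end Pool.Agent.Y741
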