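import Pool.Agent.Y741.LLocal
import Pool.Agent.Y741.Global
import Pool.Agent.TH145.GF.Form

/-!
The order of the form given by the rows at a divisorial place.
-/

set_option autoImplicit false

open MvPolynomial FF Pool.Agent.W603.LV Pool.Agent.W603.PV Pool.Agent.TH145.GH
open Pool.Agent.Y735 (lf pm tm pl vol vol_apply alt_tri po DD_apply)
open Pool.Agent.W602.GT Pool.Agent.TH145.GF

namespace Pool.Agent.Y741

/-- Substitution in some of the rows of a determinant. -/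
theorem det_subst {K N X0 : Type} [Field K] [Fintype N] [DecidableEq N] [Fintype X0]
    [DecidableEq X0] (v : X0 → N) (hvi : Function.Injective v) (M : Matrix X0 X0 K)
    (R1 R2 : Matrix N N K) (h1 : ∀ ξ j, R1 (v ξ) j = ∑ η, M ξ η * R2 (v η) j)
    (h2 : ∀ i, (∀ ξ, i ≠ v ξ) → ∀ j, R1 i j = R2 i j) : R1.det = M.det * R2.det := by
  classical
  obtain ⟨p, hp⟩ : ∃ p : N → Prop, ∀ i, p i ↔ ∃ ξ, i = v ξ := ⟨_, fun _ => Iff.rfl⟩
  obtain ⟨B, hB1, hB2⟩ : ∃ B : Matrix N N K,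
      (∀ ξ j, B (v ξ) j = ∑ η, if j = v η then M ξ η else 0) ∧
      ∀ i j, ¬ p i → B i j = if i = j then 1 else 0 := by
    refine ⟨Matrix.of fun i j => if h : ∃ ξ, i = v ξ then
      ∑ η, (if j = v η then M h.choose η else 0) else if i = j then 1 else 0, fun ξ j => ?_,
      fun i j hi => ?_⟩
    · have h : ∃ η, v ξ = v η := ⟨ξ, rfl⟩
      rw [Matrix.of_apply, dif_pos h]
      have h1 : h.choose = ξ := (hvi h.choose_spec).symm
      rw [h1]
    · rw [Matrix.of_apply, dif_neg ((hp i).not.1 hi)]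
  have h3 : R1 = B * R2 := by
    ext i j
    rw [Matrix.mul_apply]
    by_cases hi : p i
    · obtain ⟨ξ, rfl⟩ := (hp i).1 hi
      simp only [hB1, Finset.sum_mul]
      rw [Finset.sum_comm, h1]
      refine Finset.sum_congr rfl fun η _ => ?_
      rw [Finset.sum_eq_single (v η)]
      · rw [if_pos rfl]
      · intro k _ hk
        rw [if_neg hk, zero_mul]
      · intro h; exact absurd (Finset.mem_univ _) h
    · rw [Finset.sum_eq_single i]
      · rw [hB2 i i hi, if_pos rfl, one_mul]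
        exact h2 i (fun ξ h => hi ((hp i).2 ⟨ξ, h⟩)) j
      · intro k _ hk
        rw [hB2 i k hi, if_neg (Ne.symm hk), zero_mul]
      · intro h; exact absurd (Finset.mem_univ _) h
  rw [h3, Matrix.det_mul]
  congr 1
  rw [Matrix.twoBlockTriangular_det B p (fun i hi j hj => by
    rw [hB2 i j hi, if_neg]
    rintro rfl
    exact hi hj)]
  have h4 : (B.toSquareBlockProp fun i => ¬ p i) = 1 := by
    ext i j
    rw [Matrix.toSquareBlockProp, Matrix.toBlock_apply, hB2 _ _ i.2, Matrix.one_apply]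
    by_cases h : i = j
    · rw [if_pos h, if_pos (by rw [h])]
    · rw [if_neg h, if_neg fun h' => h (Subtype.ext h')]
  rw [h4, Matrix.det_one, mul_one]
  obtain ⟨e, he⟩ : ∃ e : X0 ≃ {i // p i}, ∀ ξ, (e ξ : N) = v ξ :=
    ⟨Equiv.ofBijective (fun ξ => ⟨v ξ, (hp _).2 ⟨ξ, rfl⟩⟩) ⟨fun ξ η h =>
      hvi (congrArg Subtype.val h), fun ⟨i, hi⟩ => by
        obtain ⟨ξ, rfl⟩ := (hp i).1 hi
        exact ⟨ξ, rfl⟩⟩, fun _ => rfl⟩
  rw [← Matrix.det_submatrix_equiv_self e]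
  congr 1
  ext ξ η
  rw [Matrix.submatrix_apply, Matrix.toSquareBlockProp, Matrix.toBlock_apply, he, he, hB1,
    Finset.sum_eq_single η]
  · rw [if_pos rfl]
  · intro k _ hk
    rw [if_neg fun h => hk (hvi h).symm]
  · intro h; exact absurd (Finset.mem_univ _) h

section

variable {K : Type} [Field K] {n : ℕ} {A X0 W B U T : Type} [DecidableEq A] [Fintype A]

/-- The volume is linear in the vertical derivations. -/
theorem vol_lin [Fintype X0] [DecidableEq X0] [Fintype W] [Fintype B] [Fintype U] [Fintype T]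
    {F : Fam K n A} {dg : A → ℕ} {D : A → (Fin (n + 1) →₀ ℕ) → Derivation ℤ K K}
    {E1 E2 : X0 → Derivation ℤ K K} {C : Finset A} {x y : Fin (n + 1) → K}
    {i0 : Fin (n + 1)} {ik : Fin (n + 1) × Fin (n + 1)} (rd : RD K n A W B U T)
    (V : Ri C (X0 ⊕ W) B U T ≃ Fin (n + 1)) (M : Matrix X0 X0 K)
    (h : ∀ ξ f, E1 ξ f = ∑ η, M ξ η * E2 η f) :
    vol V (rowE F dg D E1 C x y i0 ik rd) = M.det * vol V (rowE F dg D E2 C x y i0 ik rd) := by
  classical
  have h1 : ∀ E : X0 → Derivation ℤ K K, vol V (rowE F dg D E C x y i0 ik rd) =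
      (Matrix.of fun i j => rowE F dg D E C x y i0 ik rd i (V j)).det := by
    intro E
    rw [vol_apply, ← Matrix.det_submatrix_equiv_self V]
    congr 1
    ext i j
    rw [Matrix.submatrix_apply, Matrix.of_apply, Matrix.of_apply, V.symm_apply_apply]
  rw [h1, h1]
  refine det_subst (fun ξ : X0 => (Sum.inr (some (Sum.inl (Sum.inl ξ))) : Ri C (X0 ⊕ W) B U T))
    (fun a b hab => by simpa using hab) M _ _ (fun ξ j => ?_) (fun i hi j => ?_)
  · exact h ξ _
  · rcases i with c | _ | (ξ | a) | (b | b) | u | t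
    · rfl
    · rfl
    · exact absurd rfl (hi ξ)
    · rfl
    · rfl
    · rfl
    · rfl
    · rfl

/-- The change of the derivations by vertical derivations. -/
theorem DA_mod [Fintype X0] {D D' : A → (Fin (n + 1) →₀ ℕ) → Derivation ℤ K K}
    {E : X0 → Derivation ℤ K K} {κ : A → (Fin (n + 1) →₀ ℕ) → X0 → K}
    (h : ∀ a I f, D' a I f = D a I f + ∑ ξ, κ a I ξ * E ξ f) (G : Fam K n A) :
    ∃ c : X0 → K, ∀ x : Fin (n + 1) → K, vA D' x G = vA D x G + ∑ ξ, c ξ • fun l => E ξ (x l) := by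
  refine ⟨fun ξ => ∑ a, ∑ J ∈ (G a).support, (G a).coeff J * κ a J ξ, fun x => ?_⟩
  funext l
  rw [vA_apply, Pi.add_apply, vA_apply, DA_apply, DA_apply, Finset.sum_apply]
  simp only [Pi.smul_apply, smul_eq_mul, Finset.sum_mul]
  rw [Finset.sum_comm, ← Finset.sum_add_distrib]
  refine Finset.sum_congr rfl fun a _ => ?_
  rw [DD_apply, DD_apply, Finset.sum_comm, ← Finset.sum_add_distrib]
  refine Finset.sum_congr rfl fun J _ => ?_
  rw [h, mul_add, Finset.mul_sum]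
  congr 1
  exact Finset.sum_congr rfl fun ξ _ => by ring

/-- The rows that are not vertical. -/
def NV {C W B U T X0 : Type} (κ : Ri C (X0 ⊕ W) B U T) : Prop :=
  ∀ ξ : X0, κ ≠ Sum.inr (some (Sum.inl (Sum.inl ξ)))

theorem rowE_mod [Fintype X0] {F : Fam K n A} {dg : A → ℕ}
    {D D' : A → (Fin (n + 1) →₀ ℕ) → Derivation ℤ K K}
    {E E' : X0 → Derivation ℤ K K} {κ : A → (Fin (n + 1) →₀ ℕ) → X0 → K}
    (h : ∀ a I f, D' a I f = D a I f + ∑ ξ, κ a I ξ * E ξ f) {C : Finset A}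
    {x y : Fin (n + 1) → K} {i0 : Fin (n + 1)} {ik : Fin (n + 1) × Fin (n + 1)}
    (rd : RD K n A W B U T) {j : Ri C (X0 ⊕ W) B U T} (hj : NV j) :
    ∃ c : X0 → K, rowE F dg D' E' C x y i0 ik rd j = rowE F dg D E C x y i0 ik rd j +
      ∑ ξ, c ξ • fun l => E ξ (x l) := by
  rcases j with c | _ | (ξ | a) | (b | b) | u | t
  · obtain ⟨c', hc'⟩ := DA_mod h (Pi.single c.1 (X i0 ^ dg c.1))
    exact ⟨c', hc' x⟩
  · refine ⟨0, ?_⟩
    simp only [Pi.zero_apply, zero_smul, Finset.sum_const_zero, add_zero]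
    rfl
  · exact absurd rfl (hj ξ)
  · obtain ⟨c', hc'⟩ := DA_mod h (gf F (rd.wa a))
    refine ⟨c', ?_⟩
    change ww F D' x (rd.wa a) = ww F D x (rd.wa a) + _
    rcases hw : rd.wa a with pq | b
    · rw [hw] at hc'
      simp only [ww]
      rw [hc' x, add_assoc]
    · rw [hw] at hc'
      simp only [ww]
      rw [hc' x]
  · obtain ⟨c', hc'⟩ := DA_mod h (ql (rd.PB b) (pm x i0 (rd.jb b)))
    exact ⟨c', hc' x⟩
  · obtain ⟨c', hc'⟩ := DA_mod h (ql (rd.PB b) (pm x i0 (rd.lb b)))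
    exact ⟨c', hc' x⟩
  · obtain ⟨c', hc'⟩ := DA_mod h (ql (rd.PU u) (tm (pl x y) (rd.tu u)))
    exact ⟨c', hc' x⟩
  · obtain ⟨c', hc'⟩ := DA_mod h (ql (rd.PT t) ((pl x y ik)⁻¹ • pm x ik.1 ik.2))
    exact ⟨c', hc' x⟩

/-- The volume does not depend on the vertical parts. -/
theorem vol_mod [Fintype X0] [Fintype W] [Fintype B] [Fintype U] [Fintype T]
    {F : Fam K n A} {dg : A → ℕ}
    {D D' : A → (Fin (n + 1) →₀ ℕ) → Derivation ℤ K K}
    {E : X0 → Derivation ℤ K K} {κ : A → (Fin (n + 1) →₀ ℕ) → X0 → K}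
    (h : ∀ a I f, D' a I f = D a I f + ∑ ξ, κ a I ξ * E ξ f) {C : Finset A}
    {x y : Fin (n + 1) → K} {i0 : Fin (n + 1)} {ik : Fin (n + 1) × Fin (n + 1)}
    (rd : RD K n A W B U T) (V : Ri C (X0 ⊕ W) B U T ≃ Fin (n + 1)) :
    vol V (rowE F dg D' E C x y i0 ik rd) = vol V (rowE F dg D E C x y i0 ik rd) := by
  classical
  obtain ⟨ρ, hρ⟩ : ∃ ρ : Ri C (X0 ⊕ W) B U T → ℕ, ∀ j, ρ j = if NV j then 1 else 0 :=
    ⟨_, fun _ => rfl⟩
  have h1 := alt_tri (vol V) (rowE F dg D' E C x y i0 ik rd) (rowE F dg D E C x y i0 ik rd)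
    (fun _ => 1) ρ fun j => ?_
  · rw [h1, Finset.prod_const_one, one_mul]
  · by_cases hj : NV j
    · obtain ⟨c, hc⟩ := rowE_mod (F := F) (dg := dg) (E' := E) h (x := x) (y := y) (i0 := i0)
        (ik := ik) rd hj
      rw [hc, one_smul, add_sub_cancel_left]
      refine sum_mem fun ξ _ => Submodule.smul_mem _ _ (Submodule.subset_span
        ⟨Sum.inr (some (Sum.inl (Sum.inl ξ))), ?_, rfl⟩)
      rw [Set.mem_ofPred_eq, hρ, hρ, if_pos hj, if_neg fun h => h ξ rfl]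
      exact Nat.zero_lt_one
    · have hv : ∃ ξ, j = Sum.inr (some (Sum.inl (Sum.inl ξ))) := by
        unfold NV at hj
        push Not at hj
        exact hj
      obtain ⟨ξ, rfl⟩ := hv
      rw [one_smul]
      change (fun l => E ξ (x l)) - (fun l => E ξ (x l)) ∈ _
      rw [sub_self]
      exact zero_mem _

/-- The spans of the rows. -/
theorem span_mod [Fintype X0] {F : Fam K n A} {dg : A → ℕ}
    {D D' : A → (Fin (n + 1) →₀ ℕ) → Derivation ℤ K K}
    {E E' : X0 → Derivation ℤ K K} {κ : A → (Fin (n + 1) →₀ ℕ) → X0 → K}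
    (h : ∀ a I f, D' a I f = D a I f + ∑ ξ, κ a I ξ * E ξ f) {C : Finset A}
    {x y : Fin (n + 1) → K} {i0 : Fin (n + 1)} {ik : Fin (n + 1) × Fin (n + 1)}
    (rd : RD K n A W B U T) (hE : ∀ ξ, (fun l => E ξ (x l)) ∈
      Submodule.span K (Set.range fun ξ => fun l => E' ξ (x l))) {m : ℕ} (hm : 2 ≤ m) :
    Submodule.span K (rowE F dg D E C x y i0 ik rd '' {l | rk l < m}) ≤
      Submodule.span K (rowE F dg D' E' C x y i0 ik rd '' {l | rk l < m}) := by
  have hv : ∀ ξ, (fun l => E ξ (x l)) ∈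
      Submodule.span K (rowE F dg D' E' C x y i0 ik rd '' {l | rk l < m}) := by
    intro ξ
    refine Submodule.span_mono ?_ (hE ξ)
    rintro _ ⟨η, rfl⟩
    refine ⟨Sum.inr (some (Sum.inl (Sum.inl η))), ?_, rfl⟩
    change 1 < m
    omega
  rw [Submodule.span_le]
  rintro _ ⟨j, hj, rfl⟩
  by_cases hjv : NV j
  · obtain ⟨c, hc⟩ := rowE_mod (F := F) (dg := dg) (E' := E') h (x := x) (y := y) (i0 := i0)
      (ik := ik) rd hjv
    have h1 : rowE F dg D E C x y i0 ik rd j = rowE F dg D' E' C x y i0 ik rd j -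
        ∑ ξ, c ξ • fun l => E ξ (x l) := by rw [hc, add_sub_cancel_right]
    rw [h1]
    exact sub_mem (Submodule.subset_span ⟨j, hj, rfl⟩) (sum_mem fun ξ _ =>
      Submodule.smul_mem _ _ (hv ξ))
  · have hv' : ∃ ξ, j = Sum.inr (some (Sum.inl (Sum.inl ξ))) := by
      unfold NV at hjv
      push Not at hjv
      exact hjv
    obtain ⟨ξ, rfl⟩ := hv'
    exact hv ξ

end

section

variable {k K : Type} [Field k] [Field K] [Algebra k K] [CharZero k] {n w : ℕ}
  {A W B U T : Type} [DecidableEq A] [Fintype A] {F : Fam K n A} {dg : A → ℕ}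
  {D : A → (Fin (n + 1) →₀ ℕ) → Derivation ℤ K K}

/-- The order of the form at a divisorial place. -/
theorem ord_phi [Fintype W] [Fintype B] [Fintype U] [Fintype T]
    (hpos : ∀ a, 0 < dg a) (hF : ∀ a, (F a).IsHomogeneous (dg a)) (hD : TH145.GC.Dual F dg D)
    (hw : 0 < w) (htr : Algebra.trdeg k K = w) {P : Place k K} (hP : Divisorial w P)
    (hS : ∀ a I, Sem k (D a I)) {t : Fin w → K} (ht : IsTranscendenceBasis k t)
    {E : Fin w → Derivation k K K} (hEt : ∀ i j, E i (t j) = if i = j then 1 else 0)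
    (hFk : ∀ a u, ∃ c : k, (F a).coeff u = algebraMap k K c) {Dd : Fin w → Derivation k K K}
    (hM : (Matrix.of fun i j => Dd i (t j)).det ≠ 0)
    {C : Finset A} {x y : Fin (n + 1) → K}
    (hxC : ∀ c ∈ C, eval x (F c) = 0) (hxb : ∀ b, b ∉ C → eval x (F b) ≠ 0)
    {i0 : Fin (n + 1)} (hi0 : x i0 ≠ 0) {ik : Fin (n + 1) × Fin (n + 1)} (hik : pl x y ik ≠ 0)
    (rd : RD K n A W B U T)
    (hPB : ∀ b a, (rd.PB b a).IsHomogeneous (dg a - 1))
    (hPU : ∀ b a, (rd.PU b a).IsHomogeneous (dg a - 1))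
    (hPT : ∀ b a, (rd.PT b a).IsHomogeneous (dg a - 1))
    (hcB : ∀ b a, Nc (rd.PB b a)) (hcU : ∀ b a, Nc (rd.PU b a)) (hcT : ∀ b a, Nc (rd.PT b a))
    (hT : ∀ t m, ∑ l, m l * x l = 0 → ∑ l, m l * y l = 0 → vq D x (rd.PT t) m ∈
      Submodule.span K (rowE F dg D (vE E) C x y i0 ik rd '' {l | rk l < 2}))
    (hTC : TC F C x ≤ Submodule.span K (rowE F dg D (vE E) C x y i0 ik rd '' {l | rk l < 3}))
    (hcard : C.card + 1 + (w + Fintype.card W) + 2 * Fintype.card B + Fintype.card U +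
      Fintype.card T = n + 1)
    (V : Ri C (Fin w ⊕ W) B U T ≃ Fin (n + 1))
    (hdet : vol V (rowE F dg D (vE E) C x y i0 ik rd) ≠ 0)
    (hDd : ((∀ i, DerReg P (Dd i)) ∧
      ∀ b, b ∉ C → P.ord (eval x (F b)) ≤ dg b * pord P x) ∨ ∀ i, DerLog P (Dd i)) :
    (((n + 1 + Fintype.card B + Fintype.card T : ℕ) : ℤ) - ((∑ a, dg a : ℕ) : ℤ)) * pord P x +
      ((Fintype.card U : ℤ) - Fintype.card T) * po P (pl x y) +
      Fintype.card B * P.ord (x i0) ≤
      P.ord (vol V (rowE F dg D (vE Dd) C x y i0 ik rd) /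
        ((∏ c ∈ C, x i0 ^ dg c) * ∏ b ∈ Cᶜ, eval x (F b))) := by
  classical
  obtain ⟨M, hMd⟩ : ∃ M : Matrix (Fin w) (Fin w) K, M = Matrix.of fun i j => Dd i (t j) :=
    ⟨_, rfl⟩
  rw [← hMd] at hM
  have hDdE : ∀ i f, Dd i f = ∑ j, M i j * E j f := fun i f => by
    rw [der_comb ht hEt (Dd i) f, hMd]
    rfl
  have hMu : IsUnit M.det := isUnit_iff_ne_zero.2 hM
  have hEDd : ∀ i f, E i f = ∑ j, M⁻¹ i j * Dd j f := fun i f => by
    have h1 : (fun j => Dd j f) = M.mulVec fun j => E j f := by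
      funext j
      rw [hDdE]
      rfl
    have h3 : ∑ j, M⁻¹ i j * Dd j f = M⁻¹.mulVec (fun j => Dd j f) i := rfl
    rw [h3, h1, Matrix.mulVec_mulVec, Matrix.nonsing_inv_mul _ hMu, Matrix.one_mulVec]
  choose ξ hξ using fun a I => exists_lift hw htr hP (hS a I)
  obtain ⟨D', hD'⟩ : ∃ D' : A → (Fin (n + 1) →₀ ℕ) → Derivation ℤ K K, ∀ a I f,
    D' a I f = D a I f - ξ a I f :=
    ⟨fun a I => D a I - (ξ a I).restrictScalars ℤ, fun a I f => by simp⟩
  have hξD : ∀ a I f, ξ a I f = ∑ j, (∑ i, ξ a I (t i) * M⁻¹ i j) * Dd j f := fun a I f => by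
    rw [der_comb ht hEt (ξ a I) f]
    simp only [Finset.sum_mul]
    rw [Finset.sum_comm]
    refine Finset.sum_congr rfl fun i _ => ?_
    rw [hEDd, Finset.mul_sum]
    exact Finset.sum_congr rfl fun j _ => by ring
  have hD'E : ∀ a I f, D' a I f = D a I f +
      ∑ j, (-(∑ i, ξ a I (t i) * M⁻¹ i j)) * vE Dd j f := fun a I f => by
    rw [hD', hξD, sub_eq_add_neg, ← Finset.sum_neg_distrib]
    congr 1
    exact Finset.sum_congr rfl fun j _ => (neg_mul _ _).symm
  have hD'E2 : ∀ a I f, D' a I f = D a I f + ∑ j, (-(ξ a I (t j))) * vE E j f := fun a I f => by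
    rw [hD', der_comb ht hEt (ξ a I) f, sub_eq_add_neg, ← Finset.sum_neg_distrib]
    congr 1
    exact Finset.sum_congr rfl fun j _ => (neg_mul _ _).symm
  have hkill : ∀ (δ : Derivation k K K) a u, δ ((F a).coeff u) = 0 := fun δ a u => by
    obtain ⟨c, hc⟩ := hFk a u
    rw [hc, δ.map_algebraMap]
  have hdat : DataP P F dg D' := by
    refine ⟨hpos, hF, fun a b I J hI hJ => ?_, fun f hf a I _ => ?_, fun a u => ?_⟩
    · rw [hD', hkill, sub_zero]
      exact hD a b I J hI hJ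
    · rw [hD']
      exact hξ a I f hf
    · obtain ⟨c, hc⟩ := hFk a u
      rw [hc]
      exact Ge.const _
  have hNc : ∀ {p : MvPolynomial (Fin (n + 1)) K}, Nc p → ∀ u, Ge P 0 (p.coeff u) := fun h u =>
    h.ge P u
  have hreg : ∀ i f, Ge P 0 f → Ge P 0 (vE Dd i f) := by
    intro i f hf
    rcases hDd with ⟨h, -⟩ | h
    · exact h i f hf
    · rcases eq_or_ne f 0 with rfl | hf0
      · rw [map_zero]; exact Ge.zero
      · exact (ge_log (h i) f).mono (hf.resolve_left hf0)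
  have hEspan : ∀ i, (fun l => vE E i (x l)) ∈
      Submodule.span K (Set.range fun i => fun l => vE Dd i (x l)) := by
    intro i
    have h1 : (fun l => vE E i (x l)) = ∑ j, M⁻¹ i j • fun l => vE Dd j (x l) := by
      funext l
      rw [Finset.sum_apply]
      exact hEDd i (x l)
    rw [h1]
    exact sum_mem fun j _ => Submodule.smul_mem _ _ (Submodule.subset_span ⟨j, rfl⟩)
  have hsp : ∀ m, 2 ≤ m → Submodule.span K (rowE F dg D (vE E) C x y i0 ik rd '' {l | rk l < m}) ≤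
      Submodule.span K (rowE F dg D' (vE Dd) C x y i0 ik rd '' {l | rk l < m}) := fun m hm =>
    span_mod hD'E2 rd hEspan hm
  have hvv : ∀ m, 2 ≤ m → ∀ i, (fun l => vE Dd i (x l)) ∈
      Submodule.span K (rowE F dg D' (vE Dd) C x y i0 ik rd '' {l | rk l < m}) := fun m hm i =>
    Submodule.subset_span ⟨Sum.inr (some (Sum.inl (Sum.inl i))), (by
      change 1 < m
      omega), rfl⟩
  have h1 := vol_mod (F := F) (dg := dg) hD'E (x := x) (y := y) (i0 := i0) (ik := ik) rd V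
  have h2 := vol_lin (F := F) (dg := dg) (D := D) (E1 := vE Dd) (E2 := vE E) (x := x) (y := y)
    (i0 := i0) (ik := ik) rd V M (fun i f => hDdE i f)
  rw [← h1]
  refine local_form hdat (E := vE Dd) hreg (fun i a u => hkill (Dd i) a u) hxC hxb hi0 hik rd
    hPB hPU hPT (fun b a => hNc (hcB b a)) (fun b a => hNc (hcU b a)) (fun b a => hNc (hcT b a))
    ?_ ?_ ?_ ?_ V ?_
  · rcases hDd with ⟨-, h⟩ | h
    · exact Or.inl h
    · exact Or.inr fun i f => ge_log (h i) f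
  · intro t' m hm1 hm2
    obtain ⟨c, hc⟩ := DA_mod hD'E (ql (rd.PT t') m)
    have h3 : vq D' x (rd.PT t') m = vq D x (rd.PT t') m + ∑ i, c i • fun l => vE Dd i (x l) :=
      hc x
    rw [h3]
    exact add_mem (hsp 2 le_rfl (hT t' m hm1 hm2)) (sum_mem fun i _ =>
      Submodule.smul_mem _ _ (hvv 2 le_rfl i))
  · exact hTC.trans (hsp 3 (by norm_num))
  · rw [Fintype.card_fin]
    exact hcard
  · rw [h1, h2]
    exact mul_ne_zero hM hdet

end

end Pool.Agent.Y741
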