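import Pool.Agent.Y741.LExc

/-!
Images of the multiplicative group are not of log general type.
-/

set_option autoImplicit false

open MvPolynomial FF Pool.Agent.W603.LV Pool.Agent.W603.PV Pool.Agent.TH145.GH
open Pool.Agent.Y735 (pl rho eval_rho)
open Pool.Agent.W602.GT Pool.Agent.TH145.GF

namespace Pool.Agent.Y741

section gm

variable {k : Type} [Field k] {n : ℕ}

/-- The generic point of a parametrised curve. -/
noncomputable def gp (P : Fin (n + 1) → Polynomial k) (j : Fin (n + 1)) : RatFunc k :=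
  algebraMap (Polynomial k) (RatFunc k) (P j)

theorem eval_aevalP (P : Fin (n + 1) → Polynomial k) (G : MvPolynomial (Fin (n + 1)) k) (t : k) :
    (aeval P G : Polynomial k).eval t = eval (fun j => (P j).eval t) G := by
  have h1 := MvPolynomial.comp_aeval_apply (f := P) (Polynomial.aeval t) G
  rw [← Polynomial.coe_aeval_eq_eval]
  exact h1

theorem aeval_gp (P : Fin (n + 1) → Polynomial k) (G : MvPolynomial (Fin (n + 1)) k) :
    aeval (gp P) G = algebraMap (Polynomial k) (RatFunc k) (aeval P G) := by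
  have h1 := MvPolynomial.aeval_algebraMap_apply (A := Polynomial k) (B := RatFunc k) P G
  exact h1

theorem basis_X : IsTranscendenceBasis k (fun _ : Unit => (RatFunc.X : RatFunc k)) := by
  have h1 : AlgebraicIndependent k (fun _ : Unit => (RatFunc.X : RatFunc k)) :=
    (algebraicIndependent_unique_type_iff).2 RatFunc.transcendental_X
  rw [h1.isTranscendenceBasis_iff_isAlgebraic]
  apply alg_adjoin
  have h2 : Set.range (fun _ : Unit => (RatFunc.X : RatFunc k)) = {RatFunc.X} := by simp
  rw [h2, RatFunc.adjoin_X]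
  infer_instance

theorem trdeg_rat : Algebra.trdeg k (RatFunc k) = 1 := by
  have := (basis_X (k := k)).lift_cardinalMk_eq_trdeg
  simpa using this.symm

variable [IsAlgClosed k] {A : Type} {dg : A → ℕ} {G : A → MvPolynomial (Fin (n + 1)) k}
  {C : Finset A} {P : Fin (n + 1) → Polynomial k}

theorem gm_on (hC : ∀ t, t ≠ 0 → ∀ c ∈ C, eval (fun j => (P j).eval t) (G c) = 0)
    (hb : ∀ t, t ≠ 0 → ∀ b, b ∉ C → eval (fun j => (P j).eval t) (G b) ≠ 0)
    (hnc : ∃ s t, s ≠ 0 ∧ t ≠ 0 ∧ ∃ i j, (P i).eval s * (P j).eval t ≠ (P j).eval s * (P i).eval t) :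
    gp P ≠ 0 ∧ (∀ c ∈ C, aeval (gp P) (G c) = 0) ∧ (∀ b, b ∉ C → aeval (gp P) (G b) ≠ 0) ∧
      Algebra.IsAlgebraic (coords k (gp P)) (RatFunc k) := by
  classical
  have hinf : Infinite k := IsAlgClosed.instInfinite
  have hinj : Function.Injective (algebraMap (Polynomial k) (RatFunc k)) :=
    RatFunc.algebraMap_injective k
  obtain ⟨s, t, hs, ht, i, j, hij⟩ := hnc
  have hPj : P i ≠ 0 ∨ P j ≠ 0 := by
    by_contra hcon
    push Not at hcon
    rw [hcon.1, hcon.2] at hij
    exact hij rfl
  refine ⟨?_, fun c hc => ?_, fun b hbC => ?_, ?_⟩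
  · intro h0
    rcases hPj with h | h
    · exact h (hinj (by rw [map_zero]; exact congrFun h0 i))
    · exact h (hinj (by rw [map_zero]; exact congrFun h0 j))
  · rw [aeval_gp]
    have h1 : (aeval P (G c) : Polynomial k) * Polynomial.X = 0 := by
      apply Polynomial.funext
      intro u
      rw [Polynomial.eval_mul, eval_aevalP, Polynomial.eval_X, Polynomial.eval_zero]
      by_cases hu : u = 0
      · rw [hu, mul_zero]
      · rw [hC u hu c hc, zero_mul]
    rw [(mul_eq_zero.1 h1).resolve_right Polynomial.X_ne_zero, map_zero]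
  · rw [aeval_gp]
    intro h0
    rw [← map_zero (algebraMap (Polynomial k) (RatFunc k))] at h0
    have h1 := congrArg (Polynomial.eval 1) (hinj h0)
    rw [eval_aevalP, Polynomial.eval_zero] at h1
    exact hb 1 one_ne_zero b hbC h1
  · -- a nonconstant ratio
    obtain ⟨a, b, hPb, hab⟩ : ∃ a b, P b ≠ 0 ∧ ∀ c : k, P a ≠ Polynomial.C c * P b := by
      by_contra hcon
      push Not at hcon
      rcases hPj with h | h
      · obtain ⟨c, hc⟩ := hcon j i h
        apply hij
        rw [hc]
        simp only [Polynomial.eval_mul, Polynomial.eval_C]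
        ring
      · obtain ⟨c, hc⟩ := hcon i j h
        apply hij
        rw [hc]
        simp only [Polynomial.eval_mul, Polynomial.eval_C]
        ring
    have hb0 : gp P b ≠ 0 := fun h0 => hPb (hinj (by rw [map_zero]; exact h0))
    have hf : gp P a / gp P b ∈ coords k (gp P) :=
      IntermediateField.subset_adjoin _ _ ⟨a, b, hb0, rfl⟩
    have htr : Transcendental k (gp P a / gp P b) := by
      intro halg
      obtain ⟨c, hc⟩ := const_of_algebraic halg
      rw [div_eq_iff hb0] at hc
      apply hab c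
      apply hinj
      rw [map_mul]
      rw [show algebraMap (Polynomial k) (RatFunc k) (Polynomial.C c) = algebraMap k (RatFunc k) c
        from rfl]
      exact hc
    have h1 : AlgebraicIndependent k (fun _ : Unit => gp P a / gp P b) :=
      (algebraicIndependent_unique_type_iff).2 htr
    have h2 := h1.isTranscendenceBasis_of_trdeg_le_of_finite (by rw [trdeg_rat]; simp)
    refine ⟨fun f => ?_⟩
    have h3 : IntermediateField.adjoin k (Set.range fun _ : Unit => gp P a / gp P b) ≤
        coords k (gp P) := by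
      rw [IntermediateField.adjoin_le_iff]
      rintro _ ⟨-, rfl⟩
      exact hf
    exact Pool.Agent.TH145.MF.alg_mono
      (F1 := (IntermediateField.adjoin k (Set.range fun _ : Unit => gp P a / gp P b)).toSubfield)
      (F2 := (coords k (gp P)).toSubfield) (fun z hz => h3 hz) (h2.isAlgebraic_field.isAlgebraic f)

variable [CharZero k]

/-- Images of the multiplicative group are not of log general type. -/
theorem gm_not_lgt (hn0 : ∀ t, t ≠ 0 → ∃ j, (P j).eval t ≠ 0)
    (hb : ∀ t, t ≠ 0 → ∀ b, b ∉ C → eval (fun j => (P j).eval t) (G b) ≠ 0) :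
    ¬ LogGeneralType k (RatFunc k) 1 (fun Q => ∃ b, b ∉ C ∧
      dg b * pord Q (gp P) < Q.ord (aeval (gp P) (G b))) := by
  classical
  obtain ⟨δ, hδ⟩ := Pool.Agent.W602.GT.exists_der (fun _ : Unit => (RatFunc.X : RatFunc k)) basis_X
    (fun _ => RatFunc.X)
  replace hδ : δ RatFunc.X = RatFunc.X := hδ ()
  have htop : IntermediateField.adjoin (consts δ) {(RatFunc.X : RatFunc k)} = ⊤ := by
    rw [eq_top_iff]
    rintro z -
    have hz : z ∈ IntermediateField.adjoin k {(RatFunc.X : RatFunc k)} := by
      rw [RatFunc.adjoin_X]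
      exact IntermediateField.mem_top
    rw [IntermediateField.mem_adjoin_simple_iff] at hz ⊢
    obtain ⟨r, s, hz⟩ := hz
    refine ⟨r.map (algebraMap k (consts δ)), s.map (algebraMap k (consts δ)), ?_⟩
    rw [Polynomial.aeval_map_algebraMap, Polynomial.aeval_map_algebraMap]
    exact hz
  refine not_log_gt δ RatFunc.X_ne_zero hδ htop fun Q _ hQ => ?_
  rintro ⟨b, hbC, hlt⟩
  have hX : Ge Q 0 (RatFunc.X : RatFunc k) := Or.inr hQ.ge
  obtain ⟨c, hc⟩ := exists_const Q hX
  have hc0 : c ≠ 0 := by
    rintro rfl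
    rw [map_zero, sub_zero] at hc
    have := hc.resolve_left RatFunc.X_ne_zero
    omega
  have hP0 : ∀ p : Polynomial k, Ge Q 0 (algebraMap (Polynomial k) (RatFunc k) p) := fun p => by
    rw [← RatFunc.aeval_X_left_eq_algebraMap]
    exact ge_aeval Q hX p
  have hP1 : ∀ j, Ge Q 1 (gp P j - algebraMap k (RatFunc k) ((P j).eval c)) := by
    intro j
    have h1 : Polynomial.X - Polynomial.C c ∣ P j - Polynomial.C ((P j).eval c) :=
      Polynomial.X_sub_C_dvd_sub_C_eval
    obtain ⟨q, hq⟩ := h1
    have h2 := congrArg (algebraMap (Polynomial k) (RatFunc k)) hq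
    rw [map_mul, map_sub, map_sub, RatFunc.algebraMap_X] at h2
    have h3 : gp P j - algebraMap k (RatFunc k) ((P j).eval c) =
        (RatFunc.X - algebraMap k (RatFunc k) c) * algebraMap (Polynomial k) (RatFunc k) q := h2
    rw [h3]
    have := hc.mul (hP0 q)
    rwa [add_zero] at this
  have h0 : ∀ (z : k) (f : RatFunc k), z ≠ 0 → Ge Q 1 (f - algebraMap k (RatFunc k) z) →
      f ≠ 0 ∧ Q.ord f = 0 := by
    intro z f hz hf
    have hfz : Ge Q 0 f := by
      have h1 := (hf.mono (by omega : (0 : ℤ) ≤ 1)).add (Ge.const (P := Q) z)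
      rwa [sub_add_cancel] at h1
    have h2 : f ≠ 0 ∧ ¬ 1 ≤ Q.ord f := by
      constructor
      · rintro rfl
        rw [zero_sub] at hf
        have h3 := hf.neg
        rw [neg_neg] at h3
        exact hz (const_zero Q h3)
      · intro h4
        have h3 : Ge Q 1 (algebraMap k (RatFunc k) z) := by
          have h6 : Ge Q 1 f := Or.inr h4
          have h5 := h6.sub hf
          rwa [sub_sub_cancel] at h5
        exact hz (const_zero Q h3)
    refine ⟨h2.1, ?_⟩
    have := hfz.resolve_left h2.1
    omega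
  obtain ⟨j, hj⟩ := hn0 c hc0
  have h1 := h0 _ _ hj (hP1 j)
  have h2 : pord Q (gp P) ≤ 0 := by
    have := pord_le Q h1.1
    omega
  have h2' : 0 ≤ pord Q (gp P) := by
    obtain ⟨i, hi, h3⟩ := exists_pord Q ⟨j, h1.1⟩
    rw [← h3]
    exact (hP0 (P i)).resolve_left hi
  have h3 := red_mvaeval Q (f := gp P) (fun i => hP0 (P i)) hP1 (G b)
  have h4 := (h0 _ _ (hb c hc0 b hbC) h3).2
  rw [h4] at hlt
  have h5 : pord Q (gp P) = 0 := le_antisymm h2 h2'
  rw [h5, mul_zero] at hlt
  exact lt_irrefl _ hlt

end gm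

end Pool.Agent.Y741
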