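import Pool.Agent.Y741.LGmN
import Pool.Agent.Y741.ExcF

/-!
Exceptional lines are images of the multiplicative group.
-/

set_option autoImplicit false

open MvPolynomial FF Pool.Agent.W603.LV Pool.Agent.W603.PV Pool.Agent.TH145.GH
open Pool.Agent.Y735 (pl rho eval_rho)
open Pool.Agent.W602.GT Pool.Agent.TH145.GF
open LinearAlgebra.Projectivization

namespace Pool.Agent.Y741

variable {k : Type} [Field k] [IsAlgClosed k] {n : ℕ} {A : Type} [Fintype A] [DecidableEq A]
  {dg : A → ℕ} {G : A → MvPolynomial (Fin (n + 1)) k} {C : Finset A}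

/-- A parametrisation of an exceptional line. -/
theorem line_gm (hG : ∀ a, (G a).IsHomogeneous (dg a)) {W : Submodule k (Fin (n + 1) → k)}
    (hW : IsLine G C W) (hB : (Pts W ∩ Bd G C).encard ≤ 2) :
    ∃ u v, u ∈ W ∧ v ∈ W ∧ LinearIndependent k ![u, v] ∧
      ∀ s t : k, s ≠ 0 → t ≠ 0 → ∀ b, b ∉ C → eval (s • u + t • v) (G b) ≠ 0 := by
  classical
  have hinf : Infinite k := IsAlgClosed.instInfinite
  obtain ⟨p, hpW, hpB⟩ : ∃ p ∈ Pts W, p ∉ Bd G C := by
    by_contra hcon
    push Not at hcon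
    have h1 : Pts W ⊆ Pts W ∩ Bd G C := fun p hp => ⟨hp, hcon p hp⟩
    have h2 := (Set.encard_le_encard h1).trans hB
    exact pts_infinite hW.1 (Set.finite_of_encard_le_coe h2)
  have hxb : ∀ b, b ∉ C → eval p.rep (G b) ≠ 0 := fun b hb h0 => hpB ⟨b, hb, h0⟩
  obtain ⟨y, i, j, e, m0, m1, t0, t1, hy, hij, hR⟩ := exists_rhoD' hG hW hB hpW p.rep_nonzero hxb
  obtain ⟨x, hx⟩ : ∃ x, x = p.rep := ⟨_, rfl⟩
  have hxW : x ∈ W := by rw [hx]; exact hpW
  rw [← hx] at hxb hij hR
  have hli := li_of_pl hij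
  obtain ⟨t2, h20, h21⟩ : ∃ t2, t2 ≠ t0 ∧ (t1 = t0 ∨ t1 = t2) := by
    by_cases h : t1 = t0
    · exact ⟨t0 + 1, by simp, Or.inl h⟩
    · exact ⟨t1, h, Or.inr rfl⟩
  refine ⟨t0 • x + y, t2 • x + y, W.add_mem (W.smul_mem _ hxW) hy,
    W.add_mem (W.smul_mem _ hxW) hy, ?_, ?_⟩
  · rw [LinearIndependent.pair_iff] at hli ⊢
    intro a b hab
    have h1 : (a * t0 + b * t2) • x + (a + b) • y = 0 := by
      rw [← hab]
      module
    obtain ⟨h2, h3⟩ := hli _ _ h1
    have h4 : a * (t0 - t2) = 0 := by linear_combination h2 - t2 * h3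
    have h5 := (mul_eq_zero.1 h4).resolve_right (sub_ne_zero.2 h20.symm)
    rw [h5, zero_add] at h3
    exact ⟨h5, h3⟩
  · intro s t hs ht b hb
    have h1 : s • (t0 • x + y) + t • (t2 • x + y) = (s * t0 + t * t2) • x + (s + t) • y := by
      module
    rw [h1]
    by_cases hst : s + t = 0
    · rw [hst, zero_smul, add_zero, eval_smul_hom (hG b)]
      refine mul_ne_zero (pow_ne_zero _ ?_) (hxb b hb)
      have h2 : s * t0 + t * t2 = s * (t0 - t2) := by linear_combination t2 * hst
      rw [h2]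
      exact mul_ne_zero hs (sub_ne_zero.2 h20.symm)
    · have h2 : (s * t0 + t * t2) • x + (s + t) • y =
          (s + t) • (((s * t0 + t * t2) / (s + t)) • x + y) := by
        rw [smul_add, smul_smul, mul_div_cancel₀ _ hst]
      rw [h2, eval_smul_hom (hG b)]
      refine mul_ne_zero (pow_ne_zero _ hst) ?_
      obtain ⟨-, he, hrho⟩ := hR.2 b hb
      rw [← eval_rho, hrho]
      simp only [Polynomial.eval_mul, Polynomial.eval_C, Polynomial.eval_pow, Polynomial.eval_sub,
        Polynomial.eval_X]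
      have h3 : (s * t0 + t * t2) / (s + t) - t0 = t * (t2 - t0) / (s + t) := by
        field_simp
        ring
      have h4 : (s * t0 + t * t2) / (s + t) - t2 = s * (t0 - t2) / (s + t) := by
        field_simp
        ring
      have h5 : (s * t0 + t * t2) / (s + t) - t0 ≠ 0 := by
        rw [h3]
        exact div_ne_zero (mul_ne_zero ht (sub_ne_zero.2 h20)) hst
      have h6 : (s * t0 + t * t2) / (s + t) - t2 ≠ 0 := by
        rw [h4]
        exact div_ne_zero (mul_ne_zero hs (sub_ne_zero.2 h20.symm)) hst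
      have h7 : (s * t0 + t * t2) / (s + t) - t1 ≠ 0 := by
        rcases h21 with h | h
        · rw [h]; exact h5
        · rw [h]; exact h6
      rw [he]
      exact mul_ne_zero (hxb b hb) (mul_ne_zero (pow_ne_zero _ h5) (pow_ne_zero _ h7))

/-- The parametrised line. -/
noncomputable def lp (u v : Fin (n + 1) → k) (j : Fin (n + 1)) : Polynomial k :=
  Polynomial.C (u j) * Polynomial.X + Polynomial.C (v j)

omit [IsAlgClosed k] in
theorem lp_eval (u v : Fin (n + 1) → k) (t : k) :
    (fun j => (lp u v j).eval t) = t • u + v := by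
  funext j
  simp only [lp, Polynomial.eval_add, Polynomial.eval_mul, Polynomial.eval_C, Polynomial.eval_X,
    Pi.add_apply, Pi.smul_apply, smul_eq_mul]
  ring

omit [IsAlgClosed k] in
theorem span_of_line {W : Submodule k (Fin (n + 1) → k)} (hW : Module.finrank k W = 2)
    {u v : Fin (n + 1) → k} (hu : u ∈ W) (hv : v ∈ W) (hli : LinearIndependent k ![u, v])
    {w : Fin (n + 1) → k} (hw : w ∈ W) : ∃ a b : k, w = a • u + b • v := by
  have h1 : Submodule.span k {u, v} = W := by
    refine Submodule.eq_of_le_of_finrank_eq ?_ (by rw [finrank_span_of_li hli, hW])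
    rw [Submodule.span_le]
    rintro z (rfl | rfl)
    · exact hu
    · exact hv
  rw [← h1] at hw
  obtain ⟨a, b, h⟩ := Submodule.mem_span_pair.1 hw
  exact ⟨a, b, h.symm⟩

/-- Forms that vanish at the generic point of the line. -/
theorem lp_zero {u v : Fin (n + 1) → k} {H : MvPolynomial (Fin (n + 1)) k} {e : ℕ}
    (hH : H.IsHomogeneous e) (h0 : aeval (gp (lp u v)) H = 0) (a b : k) :
    eval (a • u + b • v) H = 0 := by
  have hinf : Infinite k := IsAlgClosed.instInfinite
  rw [aeval_gp, ← map_zero (algebraMap (Polynomial k) (RatFunc k))] at h0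
  have h1 := RatFunc.algebraMap_injective k h0
  have h2 : rho u v H = 0 := by
    apply Polynomial.funext
    intro t
    rw [eval_rho, ← lp_eval, ← eval_aevalP, h1]
  exact onL_basis (A := Unit) (F := fun _ => H) (dg := fun _ => e) (C := {()}) (fun _ => hH)
    (a := 1) (b := 0) (a' := 0) (b' := 1) (by rw [one_smul, zero_smul, add_zero])
    (by rw [one_smul, zero_smul, zero_add]) (fun _ _ => h2) () (Finset.mem_singleton_self _) a b

variable [CharZero k]

omit [IsAlgClosed k] in
theorem lp_nc {u v : Fin (n + 1) → k} {i j : Fin (n + 1)} (hij : pl u v (i, j) ≠ 0) :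
    ∃ s t : k, s ≠ 0 ∧ t ≠ 0 ∧ ∃ i j, (lp u v i).eval s * (lp u v j).eval t ≠
      (lp u v j).eval s * (lp u v i).eval t := by
  refine ⟨1, 2, one_ne_zero, two_ne_zero, i, j, fun h => hij ?_⟩
  have h1 : ∀ (l : Fin (n + 1)) (t : k), (lp u v l).eval t = t * u l + v l := fun l t => by
    have := congrFun (lp_eval u v t) l
    simpa using this
  rw [h1, h1, h1, h1] at h
  have h2 : pl u v (i, j) = u i * v j - u j * v i := rfl
  rw [h2]
  linear_combination -h

end Pool.Agent.Y741
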