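import Pool.Agent.Y741.Solve
import Mathlib.FieldTheory.Differential.Basic
import Mathlib.FieldTheory.SplittingField.Construction

/-!
Solutions of a Riccati equation that is solved by the roots of a polynomial.
-/

set_option autoImplicit false

open Polynomial FF Pool.Agent.W603.LV Pool.Agent.W603.PV
open Pool.Agent.TH145.MW (hgt_mul_le hgt_neg hgt_add_le)

namespace Pool.Agent.Y741

/-- The derivative of the value of a polynomial. -/
theorem der_aeval {κ L M : Type} [Field κ] [Field L] [Field M] [Algebra κ L] [Algebra κ M]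
    [Algebra L M] (D : Derivation κ L L) (δ : Derivation κ M M)
    (hδ : ∀ f, δ (algebraMap L M f) = algebraMap L M (D f)) {χ χD : L[X]}
    (hχD : ∀ i, χD.coeff i = D (χ.coeff i)) (z : M) :
    δ (aeval z χ) = aeval z χD + aeval z (derivative χ) * δ z := by
  let _ : Differential L := ⟨D.restrictScalars ℤ⟩
  let _ : Differential M := ⟨δ.restrictScalars ℤ⟩
  have hDA : DifferentialAlgebra L M := ⟨hδ⟩
  have h1 : χD = Differential.mapCoeffs χ := by
    ext i
    rw [hχD, Differential.coeff_mapCoeffs]
    rfl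
  rw [h1]
  exact Differential.deriv_aeval_eq z χ

theorem der_eval {κ L : Type} [Field κ] [Field L] [Algebra κ L] (D : Derivation κ L L)
    {χ χD : L[X]} (hχD : ∀ i, χD.coeff i = D (χ.coeff i)) (z : L) :
    D (χ.eval z) = χD.eval z + (derivative χ).eval z * D z := by
  have := der_aeval D D (fun _ => rfl) hχD z
  simpa only [coe_aeval_eq_eval] using this

/-- The extension of a derivation. -/
theorem exists_ext_der {κ L M : Type} [Field κ] [Field L] [Field M] [Algebra κ L] [Algebra κ M]
    [Algebra L M] [IsScalarTower κ L M] [FiniteDimensional L M] [CharZero L]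
    (D : Derivation κ L L) :
    ∃ δ : Derivation κ M M, ∀ f, δ (algebraMap L M f) = algebraMap L M (D f) := by
  let _ : Differential L := ⟨D.restrictScalars ℤ⟩
  let _ : Differential M := Differential.differentialFiniteDimensional L M
  have hDA : DifferentialAlgebra L M := Differential.differentialAlgebraFiniteDimensional
  obtain ⟨d, hd⟩ : ∃ d : Derivation ℤ M M, d = Differential.deriv := ⟨_, rfl⟩
  have h1 : ∀ f : L, d (algebraMap L M f) = algebraMap L M (D f) := fun f => by
    rw [hd]
    exact DifferentialAlgebra.deriv_algebraMap f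
  have h2 : ∀ c : κ, d (algebraMap κ M c) = 0 := by
    intro c
    rw [IsScalarTower.algebraMap_apply κ L M, h1, D.map_algebraMap, map_zero]
  refine ⟨{ toFun := fun m => d m
            map_add' := fun a b => map_add _ a b
            map_smul' := fun c m => ?_
            map_one_eq_zero' := ?_
            leibniz' := fun a b => ?_ }, fun f => h1 f⟩
  · rw [RingHom.id_apply, Algebra.smul_def c m, d.leibniz, h2, smul_zero, add_zero, smul_eq_mul,
      Algebra.smul_def]
  · exact d.map_one_eq_zero
  · exact d.leibniz a b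

/-- The cross-ratio of four solutions of a Riccati equation is constant. -/
theorem cross_const {κ M : Type} [Field κ] [Field M] [Algebra κ M] (δ : Derivation κ M M)
    {b0 b1 b2 z p q s : M} (hz : δ z = -(b2 * z ^ 2 + b1 * z + b0))
    (hp : δ p = -(b2 * p ^ 2 + b1 * p + b0)) (hq : δ q = -(b2 * q ^ 2 + b1 * q + b0))
    (hs : δ s = -(b2 * s ^ 2 + b1 * s + b0)) (hzs : z ≠ s) (hqp : q ≠ p) {l : M}
    (hl : l * ((z - s) * (q - p)) = (z - p) * (q - s)) : δ l = 0 := by
  have h1 := congrArg δ hl
  have hd : ∀ x y : M, δ x = -(b2 * x ^ 2 + b1 * x + b0) → δ y = -(b2 * y ^ 2 + b1 * y + b0) →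
      δ (x - y) = -((x - y) * (b2 * (x + y) + b1)) := by
    intro x y hx hy
    rw [map_sub, hx, hy]; ring
  rw [δ.leibniz, δ.leibniz (z - s), δ.leibniz (z - p)] at h1
  simp only [smul_eq_mul, hd z s hz hs, hd q p hq hp, hd z p hz hp, hd q s hq hs] at h1
  have h2 : (z - s) * (q - p) * δ l = 0 := by
    linear_combination h1 + (b2 * (z + s + q + p) + 2 * b1) * hl
  exact (mul_eq_zero.1 h2).resolve_left (mul_ne_zero (sub_ne_zero.2 hzs) (sub_ne_zero.2 hqp))

/-- The height of a solution. -/
theorem ric_ext {κ M : Type} [Field κ] [Field M] [Algebra κ M] [CharZero κ] [IsFF κ M]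
    [IsAlgClosed κ] (δ : Derivation κ M M) (hδ : δ ≠ 0)
    {b0 b1 b2 z p q s : M} (hz : δ z = -(b2 * z ^ 2 + b1 * z + b0))
    (hp : δ p = -(b2 * p ^ 2 + b1 * p + b0)) (hq : δ q = -(b2 * q ^ 2 + b1 * q + b0))
    (hs : δ s = -(b2 * s ^ 2 + b1 * s + b0)) (hzs : z ≠ s) (hqp : q ≠ p) (hqs : q ≠ s)
    (hps : p ≠ s) {H : ℤ} (hpH : hgt κ p ≤ H) (hqH : hgt κ q ≤ H) (hsH : hgt κ s ≤ H) :
    hgt κ z ≤ 10 * H := by
  have hne : (z - s) * (q - p) ≠ 0 := mul_ne_zero (sub_ne_zero.2 hzs) (sub_ne_zero.2 hqp)
  obtain ⟨l, hl⟩ : ∃ l, l * ((z - s) * (q - p)) = (z - p) * (q - s) :=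
    ⟨_, div_mul_cancel₀ _ hne⟩
  obtain ⟨c, hc⟩ := const_of_der hδ (cross_const δ hz hp hq hs hzs hqp hl)
  have hlH : hgt κ l = 0 := by
    rw [hc]
    exact Pool.Agent.TH145.MG.hgt_const c
  have h1 : z * ((q - s) - l * (q - p)) = p * (q - s) - l * (s * (q - p)) := by
    linear_combination -hl
  have hU : (q - s) - l * (q - p) ≠ 0 := by
    intro h0
    rw [h0, mul_zero] at h1
    have h2 : l * (q - p) * (p - s) = 0 := by
      linear_combination -h1 - p * h0
    rcases mul_eq_zero.1 h2 with h3 | h3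
    · rw [h3, sub_zero] at h0
      exact hqs (sub_eq_zero.1 h0)
    · exact hps (sub_eq_zero.1 h3)
  have hsub : ∀ u v : M, hgt κ (u - v) ≤ hgt κ u + hgt κ v := by
    intro u v
    rw [sub_eq_add_neg, ← hgt_neg v]
    exact hgt_add_le _ _
  have hUH : hgt κ ((q - s) - l * (q - p)) ≤ 4 * H := by
    have h2 := hsub (q - s) (l * (q - p))
    have h3 := hsub q s
    have h4 := hgt_mul_le (k := κ) l (q - p)
    have h5 := hsub q p
    linarith
  have hNH : hgt κ (p * (q - s) - l * (s * (q - p))) ≤ 6 * H := by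
    have h2 := hsub (p * (q - s)) (l * (s * (q - p)))
    have h3 := hgt_mul_le (k := κ) p (q - s)
    have h4 := hsub q s
    have h5 := hgt_mul_le (k := κ) l (s * (q - p))
    have h6 := hgt_mul_le (k := κ) s (q - p)
    have h7 := hsub q p
    linarith
  have h2 : z = (p * (q - s) - l * (s * (q - p))) * ((q - s) - l * (q - p))⁻¹ := by
    rw [← h1, mul_assoc, mul_inv_cancel₀ hU, mul_one]
  rw [h2]
  refine (hgt_mul_le _ _).trans ?_
  rw [hgt_inv]
  linarith

/-- The height of a solution of the Riccati equation. -/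
theorem riccati {κ L : Type} [Field κ] [Field L] [Algebra κ L] [CharZero κ] [IsFF κ L]
    [IsAlgClosed κ] {D : Derivation κ L L} (hD : D ≠ 0) {r : ℕ} (hr : 3 ≤ r)
    {χ b a χD : L[X]} {ζ : L} {H : ℤ} (hm : χ.Monic) (hdeg : χ.natDegree = r)
    (hcop : IsCoprime χ (derivative χ)) (hχD : ∀ i, χD.coeff i = D (χ.coeff i))
    (hab : a * χ + b * derivative χ = χD) (hb : b.natDegree ≤ 2)
    (hζ : D ζ + b.eval ζ = 0) (hne : χ.eval ζ ≠ 0) (hH : ∀ i, hgt κ (χ.coeff i) ≤ H) :
    hgt κ ζ ≤ 10 * ((r + 1) * H) := by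
  classical
  have hczL : CharZero L := charZero_of_injective_algebraMap (algebraMap κ L).injective
  have hFF : IsFF κ χ.SplittingField := isFF_of_finite (F := L)
  obtain ⟨δ, hδ⟩ := exists_ext_der (M := χ.SplittingField) D
  have hδ0 : δ ≠ 0 := by
    intro h0
    apply hD
    ext f
    have h1 := hδ f
    rw [h0, Derivation.coe_zero, Pi.zero_apply] at h1
    exact ((map_eq_zero _).1 h1.symm)
  -- the roots
  have hcard : Fintype.card (χ.rootSet χ.SplittingField) = r := by
    rw [card_rootSet_eq_natDegree hcop (SplittingField.splits χ), hdeg]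
  obtain ⟨α, hα, hαi⟩ : ∃ α : Fin 3 → χ.SplittingField, (∀ i, aeval (α i) χ = 0) ∧
      Function.Injective α := by
    have h1 : 3 ≤ Fintype.card (χ.rootSet χ.SplittingField) := by rw [hcard]; exact hr
    obtain ⟨e⟩ : Nonempty (Fin 3 ↪ χ.rootSet χ.SplittingField) :=
      Function.Embedding.nonempty_of_card_le (by rw [Fintype.card_fin]; exact h1)
    refine ⟨fun i => (e i : χ.SplittingField), fun i => ?_, fun i j hij => ?_⟩
    · exact (mem_rootSet.1 (e i).2).2
    · exact e.injective (Subtype.ext hij)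
  have hbq : b = Polynomial.C (b.coeff 2) * X ^ 2 + Polynomial.C (b.coeff 1) * X +
      Polynomial.C (b.coeff 0) := eq_quadratic_of_degree_le_two (natDegree_le_iff_degree_le.1 hb)
  have hbe : ∀ z : χ.SplittingField, aeval z b = algebraMap L _ (b.coeff 2) * z ^ 2 +
      algebraMap L _ (b.coeff 1) * z + algebraMap L _ (b.coeff 0) := by
    intro z
    conv_lhs => rw [hbq]
    simp only [map_add, map_mul, aeval_C, map_pow, aeval_X]
  have hδα : ∀ i, δ (α i) = -(algebraMap L _ (b.coeff 2) * (α i) ^ 2 +
      algebraMap L _ (b.coeff 1) * (α i) + algebraMap L _ (b.coeff 0)) := by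
    intro i
    have h1 := der_aeval D δ hδ hχD (α i)
    rw [hα i, map_zero, ← hab, map_add, map_mul, map_mul, hα i, mul_zero, zero_add] at h1
    have h2 : aeval (α i) (derivative χ) ≠ 0 := by
      intro h2
      obtain ⟨u, v, huv⟩ := hcop
      have h3 := congrArg (aeval (α i)) huv
      rw [map_add, map_mul, map_mul, hα i, h2, mul_zero, mul_zero, add_zero, map_one] at h3
      exact zero_ne_one h3
    have h3 : aeval (α i) (derivative χ) * (aeval (α i) b + δ (α i)) = 0 := by
      linear_combination -h1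
    have h4 := (mul_eq_zero.1 h3).resolve_left h2
    rw [hbe] at h4
    linear_combination h4
  have hδζ : δ (algebraMap L _ ζ) = -(algebraMap L _ (b.coeff 2) * (algebraMap L _ ζ) ^ 2 +
      algebraMap L _ (b.coeff 1) * (algebraMap L _ ζ) + algebraMap L _ (b.coeff 0)) := by
    rw [hδ, ← hbe, aeval_algebraMap_apply, coe_aeval_eq_eval, eq_neg_of_add_eq_zero_left hζ,
      map_neg]
  have hζα : ∀ i, algebraMap L χ.SplittingField ζ ≠ α i := by
    intro i h
    have h1 := hα i
    rw [← h, aeval_algebraMap_apply, coe_aeval_eq_eval] at h1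
    exact hne ((map_eq_zero _).1 h1)
  -- the heights
  have hroot : ∀ i, hgt κ (α i) ≤ (r + 1) * (Module.finrank L χ.SplittingField * H) := by
    intro i
    have h1 := hgt_root (k := κ) (D := r) (fun d => algebraMap L χ.SplittingField (χ.coeff d))
      (by
        have h2 : χ.coeff r = 1 := by rw [← hdeg]; exact hm
        rw [h2, map_one]
        exact one_ne_zero) (α i) (by
        have h2 := hα i
        rw [aeval_eq_sum_range, hdeg] at h2
        rw [← h2]
        exact Finset.sum_congr rfl fun d _ => by rw [Algebra.smul_def])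
    refine h1.trans ?_
    have h2 : ∀ d, hgt κ (algebraMap L χ.SplittingField (χ.coeff d)) ≤
        Module.finrank L χ.SplittingField * H := by
      intro d
      rw [hgt_algebraMap]
      exact mul_le_mul_of_nonneg_left (hH d) (by positivity)
    have h3 : ∑ d ∈ Finset.range r, hgt κ (algebraMap L χ.SplittingField (χ.coeff d)) ≤
        r * (Module.finrank L χ.SplittingField * H) := by
      refine (Finset.sum_le_card_nsmul _ _ _ fun d _ => h2 d).trans ?_
      rw [Finset.card_range, nsmul_eq_mul]
    have h4 := h2 r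
    linarith
  have hmain := ric_ext δ hδ0 hδζ (hδα 0) (hδα 1) (hδα 2) (hζα 2)
    (fun h => absurd (hαi h) (by decide)) (fun h => absurd (hαi h) (by decide))
    (fun h => absurd (hαi h) (by decide)) (hroot 0) (hroot 1) (hroot 2)
  rw [hgt_algebraMap] at hmain
  have hpos : (0 : ℤ) < Module.finrank L χ.SplittingField := by
    exact_mod_cast Module.finrank_pos
  have h5 : (Module.finrank L χ.SplittingField : ℤ) * hgt κ ζ ≤
      Module.finrank L χ.SplittingField * (10 * ((r + 1) * H)) := by
    refine hmain.trans (le_of_eq ?_)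
    ring
  exact le_of_mul_le_mul_left h5 hpos

end Pool.Agent.Y741
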