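import Pool.Agent.Y741.LBdd
import Pool.Agent.Y741.Ric
import Pool.Agent.TH145.GL.Loss

/-!
Local estimates for the forms on a family of punctured lines.
-/

set_option autoImplicit false

open FF Pool.Agent.W603.LV Pool.Agent.W602.GT Pool.Agent.TH145.GF Polynomial

namespace Pool.Agent.Y741

variable {k L : Type} [Field k] [Field L] [Algebra k L] {w : ℕ}

/-- The form of a transcendence basis. -/
noncomputable def eta (t : Fin w → L) (Dd : Fin w → Derivation k L L) : L :=
  (Matrix.of fun i j => Dd i (t j)).det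

/-- Bounds for the columns. -/
theorem ge_det_col {Q : Place k L} (M : Matrix (Fin w) (Fin w) L) (c : Fin w → ℤ)
    (h : ∀ i j, Ge Q (c j) (M i j)) : Ge Q (∑ j, c j) M.det := by
  rw [Matrix.det_apply]
  refine Ge.sum _ _ fun σ _ => ?_
  have h1 : Ge Q (∑ j, c j) (∏ i, M (σ i) i) :=
    Ge.prod Finset.univ (fun i => M (σ i) i) c fun i _ => h _ _
  rcases Int.units_eq_one_or (Equiv.Perm.sign σ) with h2 | h2
  · rw [h2, one_smul]
    exact h1
  · rw [h2, Units.neg_smul, one_smul]
    exact h1.neg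

/-- The sum of the bounds of the columns. -/
theorem sum_col (i1 : Fin w) (a b : ℤ) :
    ∑ j, (if j = i1 then b else a) = (w - 1) * a + b := by
  rw [← Finset.add_sum_erase _ _ (Finset.mem_univ i1), if_pos rfl,
    Finset.sum_congr rfl fun j hj => if_neg (Finset.ne_of_mem_erase hj), Finset.sum_const,
    Finset.card_erase_of_mem (Finset.mem_univ i1), Finset.card_univ, Fintype.card_fin,
    nsmul_eq_mul]
  have : 1 ≤ w := i1.pos
  push_cast [Nat.cast_sub this]
  ring

variable [CharZero k]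

/-- The substitution in a column. -/
theorem eta_col {t : Fin w → L} (ht : IsTranscendenceBasis k t) {E : Fin w → Derivation k L L}
    (hE : ∀ i j, E i (t j) = if i = j then 1 else 0) (i1 : Fin w) {χ : L[X]}
    (hχ : ∀ i, E i1 (χ.coeff i) = 0) (Dd : Fin w → Derivation k L L) :
    (Matrix.of fun i j => if j = i1 then Dd i (χ.eval (t i1)) else Dd i (t j)).det =
      (derivative χ).eval (t i1) * eta t Dd := by
  classical
  obtain ⟨v, hv⟩ : ∃ v : Fin w → L, ∀ l, v l = E l (χ.eval (t i1)) := ⟨_, fun _ => rfl⟩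
  have hv1 : v i1 = (derivative χ).eval (t i1) := by
    rw [hv, der_eval (E i1) (χD := 0) (fun i => by rw [coeff_zero, hχ]), hE, if_pos rfl,
      eval_zero, zero_add, mul_one]
  have h1 : (Matrix.of fun i j => if j = i1 then Dd i (χ.eval (t i1)) else Dd i (t j)) =
      (Matrix.of fun i j => Dd i (t j)) * ((1 : Matrix (Fin w) (Fin w) L).updateCol i1 v) := by
    ext i j
    rw [Matrix.mul_apply, Matrix.of_apply]
    by_cases hj : j = i1
    · subst hj
      rw [if_pos rfl, der_comb ht hE (Dd i)]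
      refine Finset.sum_congr rfl fun l _ => ?_
      rw [Matrix.updateCol_self, hv, Matrix.of_apply]
    · rw [if_neg hj, Finset.sum_eq_single j]
      · rw [Matrix.updateCol_ne hj, Matrix.one_apply_eq, mul_one, Matrix.of_apply]
      · intro l _ hl
        rw [Matrix.updateCol_ne hj, Matrix.one_apply_ne hl, mul_zero]
      · intro h; exact absurd (Finset.mem_univ _) h
  rw [h1, Matrix.det_mul]
  have h2 : ((1 : Matrix (Fin w) (Fin w) L).updateCol i1 v).det = v i1 := by
    rw [← Matrix.cramer_apply, Matrix.cramer_one]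
    rfl
  rw [h2, hv1, eta, mul_comm]

omit [CharZero k] in
/-- Regular derivations at functions with poles. -/
theorem ge_reg2 {Q : Place k L} {δ : Derivation k L L} (h : DerReg Q δ) {f : L} {m : ℤ}
    (hm : m ≤ 0) (hf : Ge Q m f) : Ge Q (2 * m) (δ f) := by
  rcases eq_or_ne f 0 with rfl | hf0
  · rw [map_zero]; exact Ge.zero
  have hfo := hf.resolve_left hf0
  rcases le_or_gt 0 (Q.ord f) with h0 | h0
  · exact (show Ge Q 0 (δ f) from h f (Or.inr h0)).mono (by omega)
  · have h1 : Ge Q 0 (δ f⁻¹) := h f⁻¹ (Or.inr (by rw [Q.ord_inv]; omega))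
    have h2 : δ f = -(f * (f * δ f⁻¹)) := by
      rw [Derivation.leibniz_inv, smul_eq_mul]
      field_simp
    rw [h2]
    have h3 : Ge Q (Q.ord f) f := Or.inr le_rfl
    exact ((h3.mul (h3.mul h1)).mono (by omega)).neg

/-- The data of the estimates. -/
structure LocD (Q : Place k L) (t : Fin w → L) (i1 : Fin w) (χ U V : L[X]) (H : ℤ) (m : ℕ) :
    Prop where
  H0 : 0 ≤ H
  mon : χ.Monic
  deg : 3 ≤ χ.natDegree
  pχ : PGe Q (-H) χ
  pU : PGe Q (-H) U
  pV : PGe Q (-H) V
  dU : U.natDegree ≤ m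
  dV : V.natDegree ≤ m
  bez : U * χ + V * derivative χ = 1
  ht : ∀ j, j ≠ i1 → Ge Q (-H) (t j)
  ne : χ.eval (t i1) ≠ 0

variable {Q : Place k L} {t : Fin w → L} {i1 : Fin w} {χ U V : L[X]} {H : ℤ} {m : ℕ}

omit [CharZero k] in
/-- The first case: a large pole of the coordinate. -/
theorem LocD.dom (h : LocD Q t i1 χ U V H m) (hs : Q.ord (t i1) < -H) :
    Q.ord (χ.eval (t i1)) = χ.natDegree * Q.ord (t i1) := by
  have h1 := (Pool.Agent.Y741.dom h.mon.ne_zero h.pχ (z := t i1) (by
    rw [h.mon.leadingCoeff, Q.ord_one]; omega)).2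
  rw [h1, h.mon.leadingCoeff, Q.ord_one, zero_add]

/-- The estimate for logarithmic derivations. -/
theorem LocD.log (h : LocD Q t i1 χ U V H m) (ht : IsTranscendenceBasis k t)
    {E : Fin w → Derivation k L L} (hE : ∀ i j, E i (t j) = if i = j then 1 else 0)
    (hχE : ∀ i, E i1 (χ.coeff i) = 0) {Dd : Fin w → Derivation k L L}
    (hDd : ∀ i, DerLog Q (Dd i)) :
    Ge Q (-((w + m + 1) * H)) (eta t Dd / χ.eval (t i1)) ∧
      Ge Q (-((w + m + 2) * H)) (eta t Dd / χ.eval (t i1) * t i1) := by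
  have hH0 := h.H0
  have hw1 : (1 : ℤ) ≤ w := by exact_mod_cast (show 1 ≤ w from i1.pos)
  have hd3 : (3 : ℤ) ≤ χ.natDegree := by exact_mod_cast h.deg
  have hm0 : (0 : ℤ) ≤ m := by positivity
  have hinv : Ge Q (-Q.ord (χ.eval (t i1))) (χ.eval (t i1))⁻¹ := Or.inr (by rw [Q.ord_inv])
  have hcol : ∀ c : ℤ, Ge Q c (t i1) → Ge Q ((w - 1) * (-H) + c) (eta t Dd) ∨ c < Q.ord (t i1) ∨
      True := fun _ _ => Or.inr (Or.inr trivial)
  have heta : Ge Q ((w - 1) * (-H) + Q.ord (t i1)) (eta t Dd) := by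
    rw [← sum_col i1 (-H) (Q.ord (t i1))]
    refine ge_det_col _ _ fun i j => ?_
    rw [Matrix.of_apply]
    split_ifs with hj
    · rw [hj]
      exact ge_log (hDd i) _
    · rcases eq_or_ne (t j) 0 with h0 | h0
      · rw [h0, map_zero]; exact Ge.zero
      · exact (ge_log (hDd i) _).mono ((h.ht j hj).resolve_left h0)
  rcases lt_or_ge (Q.ord (t i1)) (-H) with hs | hs
  · have hdm := h.dom hs
    rw [hdm] at hinv
    have h1 := heta.mul hinv
    have h2 : Ge Q (Q.ord (t i1)) (t i1) := Or.inr le_rfl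
    rw [← div_eq_mul_inv] at h1
    refine ⟨h1.mono ?_, (h1.mul h2).mono ?_⟩
    · nlinarith
    · nlinarith
  · have hsH : Ge Q (-H) (t i1) := Or.inr hs
    have hUe := h.pU.eval h.dU (by omega : -H ≤ 0) hsH
    have hVe := h.pV.eval h.dV (by omega : -H ≤ 0) hsH
    have hχd : Ge Q (-((w - 1) * H)) ((derivative χ).eval (t i1) * eta t Dd / χ.eval (t i1)) := by
      rw [← eta_col ht hE i1 hχE, div_eq_mul_inv]
      have h1 : Ge Q ((w - 1) * (-H) + Q.ord (χ.eval (t i1)))
          (Matrix.of fun i j => if j = i1 then Dd i (χ.eval (t i1)) else Dd i (t j)).det := by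
        rw [← sum_col i1 (-H) (Q.ord (χ.eval (t i1)))]
        refine ge_det_col _ _ fun i j => ?_
        rw [Matrix.of_apply]
        split_ifs with hj
        · exact ge_log (hDd i) _
        · rcases eq_or_ne (t j) 0 with h0 | h0
          · rw [h0, map_zero]; exact Ge.zero
          · exact (ge_log (hDd i) _).mono ((h.ht j hj).resolve_left h0)
      exact (h1.mul hinv).mono (by linarith)
    have hid : eta t Dd / χ.eval (t i1) = U.eval (t i1) * eta t Dd +
        V.eval (t i1) * ((derivative χ).eval (t i1) * eta t Dd / χ.eval (t i1)) := by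
      have h3 := congrArg (fun f => f.eval (t i1)) h.bez
      simp only [eval_add, eval_mul, eval_one] at h3
      have hne := h.ne
      field_simp
      linear_combination (- (eta t Dd)) * h3
    have h5 : Ge Q (-((w + m + 1) * H)) (eta t Dd / χ.eval (t i1)) := by
      rw [hid]
      refine Ge.add ((hUe.mul heta).mono ?_) ((hVe.mul hχd).mono ?_)
      · nlinarith
      · nlinarith
    exact ⟨h5, (h5.mul hsH).mono (by linarith)⟩

omit [CharZero k] in
/-- The estimate for regular derivations. -/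
theorem LocD.reg (h : LocD Q t i1 χ U V H m) {Dd : Fin w → Derivation k L L}
    (hDd : ∀ i, DerReg Q (Dd i))
    (hχ : -H ≤ Q.ord (t i1) → Q.ord (χ.eval (t i1)) ≤ (m + 2) * H) :
    Ge Q (-((2 * w + m + 2) * H)) (eta t Dd / χ.eval (t i1)) ∧
      Ge Q (-((2 * w + m + 3) * H)) (eta t Dd / χ.eval (t i1) * t i1) := by
  have hH0 := h.H0
  have hw1 : (1 : ℤ) ≤ w := by exact_mod_cast (show 1 ≤ w from i1.pos)
  have hd3 : (3 : ℤ) ≤ χ.natDegree := by exact_mod_cast h.deg
  have hm0 : (0 : ℤ) ≤ m := by positivity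
  have hinv : Ge Q (-Q.ord (χ.eval (t i1))) (χ.eval (t i1))⁻¹ := Or.inr (by rw [Q.ord_inv])
  have heta : ∀ c : ℤ, c ≤ 0 → Ge Q c (t i1) →
      Ge Q ((w - 1) * (-(2 * H)) + 2 * c) (eta t Dd) := by
    intro c hc hcs
    rw [← sum_col i1 (-(2 * H)) (2 * c)]
    refine ge_det_col _ _ fun i j => ?_
    rw [Matrix.of_apply]
    split_ifs with hj
    · rw [hj]
      exact ge_reg2 (hDd i) hc hcs
    · exact (ge_reg2 (hDd i) (by omega) (h.ht j hj)).mono (by linarith)
  rcases lt_or_ge (Q.ord (t i1)) (-H) with hs | hs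
  · have hdm := h.dom hs
    rw [hdm] at hinv
    have h2 : Ge Q (Q.ord (t i1)) (t i1) := Or.inr le_rfl
    have h1 := (heta _ (by omega) h2).mul hinv
    rw [← div_eq_mul_inv] at h1
    refine ⟨h1.mono ?_, (h1.mul h2).mono ?_⟩
    · nlinarith
    · nlinarith
  · have hsH : Ge Q (-H) (t i1) := Or.inr hs
    have h1 := (heta (-H) (by omega) hsH).mul hinv
    rw [← div_eq_mul_inv] at h1
    have h3 := hχ hs
    have h4 : Ge Q (-((2 * w + m + 2) * H)) (eta t Dd / χ.eval (t i1)) := h1.mono (by linarith)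
    exact ⟨h4, (h4.mul hsH).mono (by linarith)⟩

end Pool.Agent.Y741
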