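import Pool.Agent.Y741.Rows
import Pool.Agent.Y735.Local
import Pool.Agent.TH145.GC.Ineq

/-!
The local inequality.
-/

set_option autoImplicit false

open MvPolynomial FF Pool.Agent.W603.LV Pool.Agent.W603.PV Pool.Agent.TH145.GH
open Pool.Agent.Y735 (lf pm tm pl lf_single lf_pm lf_tm eval_lf eval_pm tm_smul sum_tm sum_pm vol
  vol_apply alt_tri lf_hom po exists_scaled' ge_lf ge_coeff_mul ge_X ge_vol)

namespace Pool.Agent.Y741

variable {k K : Type} [Field k] [Field K] [Algebra k K] {n : ℕ} {A W B U T : Type}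

theorem ord_fac [Fintype W] [Fintype B] [Fintype U] [Fintype T] (P : Place k K) (dg : A → ℕ)
    (C : Finset A) {x0 lam mu : K} (hx0 : x0 ≠ 0) (hlam : lam ≠ 0) (hmu : mu ≠ 0) :
    (∏ k : Ri C W B U T, fac dg C x0 lam mu k) ≠ 0 ∧
      P.ord (∏ k : Ri C W B U T, fac dg C x0 lam mu k) =
        ((∑ c ∈ C, dg c : ℕ) : ℤ) * (P.ord x0 - P.ord lam) +
        ((C.card + 1 + Fintype.card W + 2 * Fintype.card B + Fintype.card U +
          2 * Fintype.card T : ℕ) : ℤ) * P.ord lam +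
          ((Fintype.card U : ℤ) - Fintype.card T) * P.ord mu := by
  classical
  have h1 : (∏ k : Ri C W B U T, fac dg C x0 lam mu k) =
      ((x0 / lam) ^ (∑ c ∈ C, dg c) * lam ^ C.card) * (lam * (lam ^ Fintype.card W *
      ((lam ^ Fintype.card B * lam ^ Fintype.card B) *
        ((mu * lam) ^ Fintype.card U * (lam / mu * lam) ^ Fintype.card T)))) := by
    rw [Fintype.prod_sum_type, Fintype.prod_option, Fintype.prod_sum_type, Fintype.prod_sum_type,
      Fintype.prod_sum_type, Fintype.prod_sum_type]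
    simp only [fac, Finset.prod_const, Finset.card_univ]
    congr 1
    rw [Finset.prod_mul_distrib, Finset.prod_const, Finset.card_univ, Fintype.card_coe,
      Finset.prod_coe_sort C (fun c => (x0 / lam) ^ dg c), Finset.prod_pow_eq_pow_sum]
  have hr := pow_ne_zero (∑ c ∈ C, dg c) (div_ne_zero hx0 hlam)
  have hc := pow_ne_zero C.card hlam
  have ha := pow_ne_zero (Fintype.card W) hlam
  have hb := pow_ne_zero (Fintype.card B) hlam
  have hu := pow_ne_zero (Fintype.card U) (mul_ne_zero hmu hlam)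
  have ht := pow_ne_zero (Fintype.card T) (mul_ne_zero (div_ne_zero hlam hmu) hlam)
  have h2 := mul_ne_zero hlam (mul_ne_zero ha (mul_ne_zero (mul_ne_zero hb hb)
    (mul_ne_zero hu ht)))
  refine ⟨?_, ?_⟩
  · rw [h1]
    exact mul_ne_zero (mul_ne_zero hr hc) h2
  · rw [h1, P.ord_mul (mul_ne_zero hr hc) h2, P.ord_mul hr hc,
      P.ord_mul hlam (mul_ne_zero ha (mul_ne_zero (mul_ne_zero hb hb) (mul_ne_zero hu ht))),
      P.ord_mul ha (mul_ne_zero (mul_ne_zero hb hb) (mul_ne_zero hu ht)),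
      P.ord_mul (mul_ne_zero hb hb) (mul_ne_zero hu ht), P.ord_mul hb hb, P.ord_mul hu ht,
      P.ord_pow, P.ord_pow, P.ord_pow, P.ord_pow, P.ord_pow, P.ord_pow, P.ord_mul hmu hlam,
      P.ord_mul (div_ne_zero hlam hmu) hlam, P.ord_div hlam hmu, P.ord_div hx0 hlam]
    push_cast
    ring

section

variable [DecidableEq A] [Fintype A] {F : Fam K n A} {dg : A → ℕ}
  {D : A → (Fin (n + 1) →₀ ℕ) → Derivation ℤ K K} {e g : Place k K → ℤ}

/-- The condition on the rows. -/
def RowOK (P : Place k K) (F : Fam K n A) (x' : Fin (n + 1) → K) (c0 : ℤ) (B' : Finset A)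
    (v : Fin (n + 1) → K) : Prop :=
  (∀ l, Ge P (-c0) (v l)) ∧ ∀ b ∈ B', Ge P (P.ord (eval x' (F b)) - c0) (dF (F b) x' v)

omit [Fintype A] in
theorem ge_single (P : Place k K) (i1 : Fin (n + 1)) (c a : A) (u : Fin (n + 1) →₀ ℕ) :
    Ge P 0 (((Pi.single c (X i1 ^ dg c) : Fam K n A) a).coeff u) := by
  by_cases h : a = c
  · subst h
    rw [Pi.single_eq_same, coeff_X_pow]
    split_ifs
    · exact Ge.one
    · exact Ge.zero
  · rw [Pi.single_eq_of_ne h, coeff_zero]
    exact Ge.zero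

omit [DecidableEq A] [Fintype A] in
theorem DataL.ge_ql (P : Place k K) {Q : Fam K n A} (hQ : ∀ a u, Ge P 0 ((Q a).coeff u))
    {m : Fin (n + 1) → K} (hm : ∀ l, Ge P 0 (m l)) (a : A) (u : Fin (n + 1) →₀ ℕ) :
    Ge P 0 ((ql Q m a).coeff u) := by
  rw [ql_apply]
  have := ge_coeff_mul P (hQ a) (ge_lf P hm) u
  rwa [zero_add] at this

/-- The rows given by families of forms. -/
theorem DataL.ok_vA (hdat : DataL k F dg D e g) (P : Place k K) {x' : Fin (n + 1) → K}
    (hx' : ∀ l, Ge P 0 (x' l)) {B' : Finset A}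
    (hlog : ∀ b ∈ B', ∀ a, ∀ I : Fin (n + 1) →₀ ℕ, I.degree = dg a →
      Ge P (P.ord (eval x' (F b)) - e P) (D a I (eval x' (F b))))
    {G : Fam K n A} (hG : ∀ a, (G a).IsHomogeneous (dg a)) (hGc : ∀ a u, Ge P 0 ((G a).coeff u))
    (hG0 : ∀ b ∈ B', eval x' (G b) = 0) : RowOK P F x' (e P + g P) B' (vA D x' G) := by
  have he := hdat.e_nonneg P
  have hg := hdat.g_nonneg P
  refine ⟨fun l => ?_, fun b hb => ?_⟩
  · rw [vA_apply]
    exact (ge_DA P (hdat.loss P _ (hx' l)) hG hGc).mono (by omega)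
  · rw [dF_vA hdat.hom hdat.dual x' hG, hG0 b hb, sub_zero]
    exact (ge_DA P (hlog b hb) hG hGc).mono (by omega)

theorem DataL.ok_vq (hdat : DataL k F dg D e g) (P : Place k K) {x' : Fin (n + 1) → K}
    (hx' : ∀ l, Ge P 0 (x' l)) {B' : Finset A}
    (hlog : ∀ b ∈ B', ∀ a, ∀ I : Fin (n + 1) →₀ ℕ, I.degree = dg a →
      Ge P (P.ord (eval x' (F b)) - e P) (D a I (eval x' (F b))))
    {Q : Fam K n A} (hQ : ∀ a, (Q a).IsHomogeneous (dg a - 1))
    (hQc : ∀ a u, Ge P 0 ((Q a).coeff u)) {m : Fin (n + 1) → K} (hm : ∀ l, Ge P 0 (m l))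
    (hm0 : ∑ l, m l * x' l = 0) : RowOK P F x' (e P + g P) B' (vq D x' Q m) :=
  hdat.ok_vA P hx' hlog (ql_hom hdat.pos hQ m) (DataL.ge_ql P hQc hm) fun b _ => by
    rw [eval_ql, hm0, mul_zero]

theorem DataL.ok_ww (hdat : DataL k F dg D e g) (P : Place k K) {x' : Fin (n + 1) → K}
    (hx' : ∀ l, Ge P 0 (x' l)) {B' : Finset A}
    (hlog : ∀ b ∈ B', ∀ a, ∀ I : Fin (n + 1) →₀ ℕ, I.degree = dg a →
      Ge P (P.ord (eval x' (F b)) - e P) (D a I (eval x' (F b))))
    (w : (Fin (n + 1) × Fin (n + 1)) ⊕ A) : RowOK P F x' (e P + g P) B' (ww F D x' w) := by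
  have he := hdat.e_nonneg P
  have hg := hdat.g_nonneg P
  have hgf : ∀ a u, Ge P (-g P) ((gf F w a).coeff u) := by
    intro a u
    rcases w with pq | b
    · have := ge_coeff_mul P (ge_X P pq.2) (ge_pderiv P (hdat.coef P a) pq.1) u
      rwa [zero_add] at this
    · simp only [gf]
      by_cases h : a = b
      · subst h
        rw [Pi.single_eq_same]; exact hdat.coef P a u
      · rw [Pi.single_eq_of_ne h, coeff_zero]; exact Ge.zero
  have h1 : ∀ l, Ge P (-(e P + g P)) (vA D x' (gf F w) l) := by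
    intro l
    rw [vA_apply]
    exact (ge_DA P (hdat.loss P _ (hx' l)) (gf_hom hdat.pos hdat.hom w) hgf).mono (by omega)
  refine ⟨fun l => ?_, fun b hb => ?_⟩
  · rcases w with pq | b
    · simp only [ww, Pi.add_apply, Pi.smul_apply, smul_eq_mul]
      refine Ge.add ?_ (h1 l)
      by_cases hli : l = pq.1
      · rw [hli, Pi.single_eq_same, mul_one]; exact (hx' _).mono (by omega)
      · rw [Pi.single_eq_of_ne hli, mul_zero]; exact Ge.zero
    · exact h1 l
  · rw [dF_ww hdat.pos hdat.hom hdat.dual]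
    refine Ge.sub ?_ ?_
    · exact (ge_DA P (hlog b hb) (gf_hom hdat.pos hdat.hom w) hgf).mono (by omega)
    · split_ifs
      · exact Or.inr (by omega)
      · exact Ge.zero

omit [DecidableEq A] [Fintype A] in
theorem DataL.ok_x (hdat : DataL k F dg D e g) (P : Place k K) {x' : Fin (n + 1) → K}
    (hx' : ∀ l, Ge P 0 (x' l)) {B' : Finset A} : RowOK P F x' (e P + g P) B' x' := by
  have he := hdat.e_nonneg P
  have hg := hdat.g_nonneg P
  refine ⟨fun l => (hx' l).mono (by omega), fun b _ => ?_⟩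
  rw [TH145.GC.dF_self (hdat.hom b)]
  have h1 : Ge P (P.ord (eval x' (F b))) (eval x' (F b)) := Or.inr le_rfl
  have := (Ge.natCast (P := P) (dg b)).mul h1
  exact this.mono (by omega)

/-- The order of the volume at good rows. -/
theorem DataL.ge_vol (hdat : DataL k F dg D e g) (P : Place k K) {x' : Fin (n + 1) → K}
    (hx' : ∀ l, Ge P 0 (x' l)) {i1 : Fin (n + 1)} (hi1 : x' i1 = 1) {B' : Finset A}
    (hlog : ∀ b ∈ B', ∀ a, ∀ I : Fin (n + 1) →₀ ℕ, I.degree = dg a →
      Ge P (P.ord (eval x' (F b)) - e P) (D a I (eval x' (F b))))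
    (hB' : ∀ b ∈ B', e P + g P + 1 ≤ P.ord (eval x' (F b)))
    {ι : Type} (E : ι ≃ Fin (n + 1)) (R : ι → Fin (n + 1) → K)
    (hR : ∀ k, RowOK P F x' (e P + g P) B' (R k)) :
    Ge P (∑ b ∈ B', (P.ord (eval x' (F b)) - (e P + g P)) - (n + 1) * (e P + g P))
      (vol E R) := by
  have he := hdat.e_nonneg P
  have hg := hdat.g_nonneg P
  have h1 := TH145.GC.det_est P (fun b j => eval x' (pderiv j (F b)))
    (fun b => vA D x' (Pi.single b (X i1 ^ dg b)))
    (fun b => P.ord (eval x' (F b)) - (e P + g P)) (e P + g P) B'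
    (fun b _ j => ?_) (fun b hb => ?_) (fun b hb b' hb' hbb' => ?_)
    (fun i => R (E.symm i)) (fun i j => (hR _).1 j) (fun b hb i => (hR _).2 b hb)
  · rw [vol_apply]
    rw [Fintype.card_fin] at h1
    push_cast at h1
    exact h1
  · rw [vA_apply]
    exact (ge_DA P (hdat.loss P _ (hx' j)) (fun a => single_hom (isHomogeneous_X_pow i1 (dg b)) a)
      (fun a u => ge_single P i1 b a u)).mono (by omega)
  · have h2 : ∑ j, eval x' (pderiv j (F b)) * vA D x' (Pi.single b (X i1 ^ dg b)) j =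
        DA D (Pi.single b (X i1 ^ dg b)) (eval x' (F b)) - 1 := by
      have h3 := dF_vA hdat.hom hdat.dual x'
        (fun a => single_hom (dg := dg) (isHomogeneous_X_pow (R := K) i1 (dg b)) a) b
      rw [Pi.single_eq_same, map_pow, eval_X, hi1, one_pow] at h3
      exact h3
    rw [h2]
    refine TH145.GC.sub_one_ord P ?_
    exact (ge_DA P (hlog b hb) (fun a => single_hom (isHomogeneous_X_pow i1 (dg b)) a)
      (fun a u => ge_single P i1 b a u)).mono (by have := hB' b hb; omega)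
  · have h3 := dF_vA hdat.hom hdat.dual x'
      (fun a => single_hom (dg := dg) (isHomogeneous_X_pow (R := K) i1 (dg b)) a) b'
    rw [Pi.single_eq_of_ne hbb'.symm, map_zero, sub_zero] at h3
    change Ge P _ (dF (F b') x' (vA D x' (Pi.single b (X i1 ^ dg b))))
    rw [h3]
    exact (ge_DA P (hlog b' hb') (fun a => single_hom (isHomogeneous_X_pow i1 (dg b)) a)
      (fun a u => ge_single P i1 b a u)).mono (by omega)

/-- The set of the divisors that are close to the point. -/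
theorem exists_close {P : Place k K} {c0 eP : ℤ} (hc0 : 0 ≤ c0) {C : Finset A} {u : A → K}
    (hu : ∀ b, b ∉ C → u b ≠ 0)
    (hP : (∀ b, b ∉ C → P.ord (u b) ≤ 0) ∨
      ∀ f, f ≠ 0 → ∀ a, ∀ I : Fin (n + 1) →₀ ℕ, I.degree = dg a →
        Ge P (P.ord f - eP) (D a I f)) :
    ∃ B' : Finset A, (∀ b ∈ B', b ∉ C ∧ c0 + 1 ≤ P.ord (u b) ∧
      ∀ a, ∀ I : Fin (n + 1) →₀ ℕ, I.degree = dg a → Ge P (P.ord (u b) - eP) (D a I (u b))) ∧
      ∑ b ∈ Cᶜ, P.ord (u b) ≤ ∑ b ∈ B', (P.ord (u b) - c0) + Fintype.card A * c0 := by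
  have hA0 : 0 ≤ (Fintype.card A : ℤ) * c0 := by positivity
  rcases hP with hP | hP
  · refine ⟨∅, fun b hb => absurd hb (Finset.notMem_empty b), ?_⟩
    rw [Finset.sum_empty, zero_add]
    refine (Finset.sum_nonpos fun b hb => hP b (Finset.mem_compl.1 hb)).trans hA0
  · refine ⟨Cᶜ.filter fun b => c0 + 1 ≤ P.ord (u b), fun b hb => ?_, ?_⟩
    · rw [Finset.mem_filter, Finset.mem_compl] at hb
      exact ⟨hb.1, hb.2, hP _ (hu b hb.1)⟩
    · rw [← Finset.sum_filter_add_sum_filter_not Cᶜ (fun b => c0 + 1 ≤ P.ord (u b)),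
        Finset.sum_sub_distrib, Finset.sum_const, nsmul_eq_mul]
      have h4 : ∑ b ∈ Cᶜ.filter (fun b => ¬ c0 + 1 ≤ P.ord (u b)), P.ord (u b) ≤
          (Cᶜ.filter (fun b => ¬ c0 + 1 ≤ P.ord (u b))).card * c0 := by
        rw [← nsmul_eq_mul, ← Finset.sum_const]
        refine Finset.sum_le_sum fun a ha => ?_
        have := (Finset.mem_filter.1 ha).2
        omega
      have h5 : (Cᶜ.filter (fun b => c0 + 1 ≤ P.ord (u b))).card +
          (Cᶜ.filter (fun b => ¬ c0 + 1 ≤ P.ord (u b))).card ≤ Fintype.card A := by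
        rw [Finset.card_filter_add_card_filter_not]
        exact Finset.card_le_univ _
      have h6 : (((Cᶜ.filter (fun b => c0 + 1 ≤ P.ord (u b))).card : ℤ) +
          (Cᶜ.filter (fun b => ¬ c0 + 1 ≤ P.ord (u b))).card) * c0 ≤ Fintype.card A * c0 :=
        mul_le_mul_of_nonneg_right (by exact_mod_cast h5) hc0
      linarith

/-- The local inequality. -/
theorem local_ineq [Fintype W] [Fintype B] [Fintype U] [Fintype T]
    (hdat : DataL k F dg D e g) {C : Finset A} {x y : Fin (n + 1) → K}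
    (hxC : ∀ c ∈ C, eval x (F c) = 0) (hxb : ∀ b, b ∉ C → eval x (F b) ≠ 0)
    {i0 : Fin (n + 1)} (hi0 : x i0 ≠ 0) {ik : Fin (n + 1) × Fin (n + 1)} (hik : pl x y ik ≠ 0)
    (rd : RD K n A W B U T)
    (hPB : ∀ b a, (rd.PB b a).IsHomogeneous (dg a - 1))
    (hPU : ∀ b a, (rd.PU b a).IsHomogeneous (dg a - 1))
    (hPT : ∀ b a, (rd.PT b a).IsHomogeneous (dg a - 1)) (P : Place k K)
    (hcB : ∀ b a u, Ge P 0 ((rd.PB b a).coeff u)) (hcU : ∀ b a u, Ge P 0 ((rd.PU b a).coeff u))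
    (hcT : ∀ b a u, Ge P 0 ((rd.PT b a).coeff u))
    (hP : (∀ b, b ∉ C → P.ord (eval x (F b)) ≤ dg b * pord P x) ∨
      ∀ f, f ≠ 0 → ∀ a, ∀ I : Fin (n + 1) →₀ ℕ, I.degree = dg a →
        Ge P (P.ord f - e P) (D a I f))
    (hT : ∀ t m, ∑ l, m l * x l = 0 → ∑ l, m l * y l = 0 → vq D x (rd.PT t) m ∈
      Submodule.span K (row F dg D C x y i0 ik rd '' {l | rk l < 2}))
    (hTC : TC F C x ≤ Submodule.span K (row F dg D C x y i0 ik rd '' {l | rk l < 3}))
    (hcard : C.card + 1 + Fintype.card W + 2 * Fintype.card B + Fintype.card U +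
      Fintype.card T = n + 1)
    (E : Ri C W B U T ≃ Fin (n + 1)) (hdet : vol E (row F dg D C x y i0 ik rd) ≠ 0) :
    (((n + 1 + Fintype.card B + Fintype.card T : ℕ) : ℤ) - ((∑ a, dg a : ℕ) : ℤ)) * pord P x +
      ((Fintype.card U : ℤ) - Fintype.card T) * po P (pl x y) +
      Fintype.card B * P.ord (x i0) - (n + 1 + Fintype.card A) * (e P + g P) ≤
      P.ord (vol E (row F dg D C x y i0 ik rd) /
        ((∏ c ∈ C, x i0 ^ dg c) * ∏ b ∈ Cᶜ, eval x (F b))) := by
  classical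
  have hx0 : x ≠ 0 := by
    rintro rfl
    exact hi0 rfl
  have hp0 : pl x y ≠ 0 := fun h0 => hik (by rw [h0]; rfl)
  obtain ⟨lam, x', hlam, hlamP, hxx, hx', i1, hi1⟩ := exists_scaled P hx0
  obtain ⟨mu, p', hmu, hmuP, hpp, hp', bc, hbc⟩ := exists_scaled' P hp0
  have he := hdat.e_nonneg P
  have hg := hdat.g_nonneg P
  have h1 := row_repl hdat.hom hdat.dual hxC ik hik rd hT hTC hlam hxx hi1 hmu hpp bc hbc (vol E)
  obtain ⟨hf0, hford⟩ := ord_fac (W := W) (B := B) (U := U) (T := T) P dg C hi0 hlam hmu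
  -- the values at the scaled point
  have hG1 : ∀ a, eval x (F a) = lam ^ dg a * eval x' (F a) := fun a => by
    rw [hxx, eval_smul_hom (hdat.hom a)]
  have hG' : ∀ b, b ∉ C → eval x' (F b) ≠ 0 := fun a ha h0 => by
    apply hxb a ha
    rw [hG1, h0, mul_zero]
  obtain ⟨B', hB', hsum⟩ := exists_close (P := P) (c0 := e P + g P) (eP := e P) (D := D)
    (dg := dg) (by omega) hG' (by
    rcases hP with hP | hP
    · left
      intro b hb
      have h8 := hP b hb
      rw [hG1, P.ord_mul (pow_ne_zero _ hlam) (hG' b hb), P.ord_pow, hlamP] at h8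
      linarith
    · exact Or.inr hP)
  have hlog : ∀ b ∈ B', ∀ a, ∀ I : Fin (n + 1) →₀ ℕ, I.degree = dg a →
      Ge P (P.ord (eval x' (F b)) - e P) (D a I (eval x' (F b))) := fun b hb => (hB' b hb).2.2
  have hpm1 : ∀ j, (∀ l, Ge P 0 (pm x' i1 j l)) ∧ ∑ l, pm x' i1 j l * x' l = 0 := by
    intro j
    refine ⟨fun l => ?_, by rw [← eval_lf]; exact eval_pm x' i1 j⟩
    unfold pm
    refine Ge.sub ?_ ?_
    · split_ifs
      · exact hx' _
      · exact Ge.zero
    · split_ifs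
      · exact hx' _
      · exact Ge.zero
  -- the order of the determinant of the rows at the place
  have h3 : Ge P ((Finset.univ : Finset B).card * (P.ord (x i0) + P.ord lam) +
      (∑ b ∈ B', (P.ord (eval x' (F b)) - (e P + g P)) - (n + 1) * (e P + g P)))
      (vol E (lrow F dg D C x x' i1 p' i0 bc rd)) := by
    have hm : ∀ j, Ge P (P.ord lam) (x j) := by
      intro j
      rw [hlamP]
      exact ge_pord P x j
    refine ge_pairs' P (RowOK P F x' (e P + g P) B') (vol E)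
      (fun R hR => hdat.ge_vol P hx' hi1 hlog (fun b hb => (hB' b hb).2.1) E R hR)
      (fun b : B => Sum.inr (some (Sum.inr (Sum.inl (Sum.inl b)))))
      (fun b : B => Sum.inr (some (Sum.inr (Sum.inl (Sum.inr b)))))
      (fun a b hab => by simpa using hab) (fun a b hab => by simpa using hab)
      (fun a b hab => by simp at hab)
      (x0 := x i0) (fun b => x (rd.jb b)) (fun b => x (rd.lb b)) (hm i0)
      (fun b => hm _) (fun b => hm _) (fun b => vq D x' (rd.PB b) (pm x' i1 i0))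
      (fun b => vq D x' (rd.PB b) (pm x' i1 (rd.jb b)))
      (fun b => vq D x' (rd.PB b) (pm x' i1 (rd.lb b)))
      (fun b => hdat.ok_vq P hx' hlog (hPB b) (hcB b) (hpm1 _).1 (hpm1 _).2)
      (fun b => hdat.ok_vq P hx' hlog (hPB b) (hcB b) (hpm1 _).1 (hpm1 _).2)
      (fun b => hdat.ok_vq P hx' hlog (hPB b) (hcB b) (hpm1 _).1 (hpm1 _).2)
      Finset.univ _ (fun b _ => ⟨rfl, rfl⟩) ?_
    intro κ hκ
    rcases κ with c | _ | a | (b | b) | u | t
    · refine hdat.ok_vA P hx' hlog (fun a => single_hom (isHomogeneous_X_pow i1 (dg c.1)) a)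
        (fun a u => ge_single P i1 c.1 a u) fun b hb => ?_
      have hbc : b ≠ c.1 := fun h => (hB' b hb).1 (h ▸ c.2)
      rw [Pi.single_eq_of_ne hbc, map_zero]
    · exact hdat.ok_x P hx'
    · exact hdat.ok_ww P hx' hlog _
    · exact absurd rfl (hκ b (Finset.mem_univ b)).1
    · exact absurd rfl (hκ b (Finset.mem_univ b)).2
    · refine hdat.ok_vq P hx' hlog (hPU u) (hcU u) (fun l => ?_) ?_
      · unfold tm
        refine Ge.add (Ge.sub ?_ ?_) ?_
        · split_ifs
          · exact hp' _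
          · exact Ge.zero
        · split_ifs
          · exact hp' _
          · exact Ge.zero
        · split_ifs
          · exact hp' _
          · exact Ge.zero
      · have h4 := (sum_tm x y (rd.tu u)).1
        rw [hpp, tm_smul, hxx] at h4
        simp only [Pi.smul_apply, smul_eq_mul] at h4
        have h5 : ∑ l, mu * tm p' (rd.tu u) l * (lam * x' l) =
            (mu * lam) * ∑ l, tm p' (rd.tu u) l * x' l := by
          rw [Finset.mul_sum]
          exact Finset.sum_congr rfl fun l _ => by ring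
        rw [h5] at h4
        exact (mul_eq_zero.1 h4).resolve_left (mul_ne_zero hmu hlam)
    · refine hdat.ok_vq P hx' hlog (hPT t) (hcT t) (fun l => ?_) (by
        rw [← eval_lf]; exact eval_pm x' _ _)
      unfold pm
      refine Ge.sub ?_ ?_
      · split_ifs
        · exact hx' _
        · exact Ge.zero
      · split_ifs
        · exact hx' _
        · exact Ge.zero
  -- the orders
  have hm0 : vol E (lrow F dg D C x x' i1 p' i0 bc rd) ≠ 0 := by
    intro h0
    rw [h0, mul_zero] at h1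
    exact hdet h1
  have hC0 : (∏ c ∈ C, x i0 ^ dg c) ≠ 0 := Finset.prod_ne_zero_iff.2 fun c _ => pow_ne_zero _ hi0
  have hB0 : (∏ b ∈ Cᶜ, eval x (F b)) ≠ 0 :=
    Finset.prod_ne_zero_iff.2 fun b hb => hxb b (Finset.mem_compl.1 hb)
  rw [P.ord_div hdet (mul_ne_zero hC0 hB0), P.ord_mul hC0 hB0, h1, P.ord_mul hf0 hm0, hford,
    TH145.GC.ord_prod P C _ (fun c _ => pow_ne_zero _ hi0),
    TH145.GC.ord_prod P Cᶜ _ (fun b hb => hxb b (Finset.mem_compl.1 hb))]
  have h5 := h3.resolve_left hm0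
  rw [Finset.card_univ] at h5
  have h6 : ∑ c ∈ C, P.ord (x i0 ^ dg c) = ((∑ c ∈ C, dg c : ℕ) : ℤ) * P.ord (x i0) := by
    rw [Nat.cast_sum, Finset.sum_mul]
    exact Finset.sum_congr rfl fun c _ => P.ord_pow _ _
  have h7 : ∑ b ∈ Cᶜ, P.ord (eval x (F b)) =
      ((∑ b ∈ Cᶜ, dg b : ℕ) : ℤ) * P.ord lam + ∑ b ∈ Cᶜ, P.ord (eval x' (F b)) := by
    rw [Nat.cast_sum, Finset.sum_mul, ← Finset.sum_add_distrib]
    refine Finset.sum_congr rfl fun b hb => ?_
    rw [hG1, P.ord_mul (pow_ne_zero _ hlam) (hG' b (Finset.mem_compl.1 hb)), P.ord_pow]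
  have h8 : ((∑ a, dg a : ℕ) : ℤ) = ((∑ c ∈ C, dg c : ℕ) : ℤ) + ((∑ b ∈ Cᶜ, dg b : ℕ) : ℤ) := by
    rw [← Finset.sum_add_sum_compl C]
    push_cast
    rfl
  have h9 : (C.card : ℤ) + 1 + Fintype.card W + 2 * Fintype.card B + Fintype.card U +
      Fintype.card T = n + 1 := by exact_mod_cast hcard
  rw [h6, h7, h8]
  rw [hlamP] at h5 ⊢
  rw [hmuP]
  push_cast
  have h10 : ((C.card : ℤ) + 1 + Fintype.card W + 2 * Fintype.card B + Fintype.card U +
      2 * Fintype.card T) = n + 1 + Fintype.card T := by linarith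
  rw [h10]
  have h11 : ((C.card : ℤ) + 1) = n + 1 - Fintype.card W - 2 * Fintype.card B - Fintype.card U -
      Fintype.card T := by linarith
  nlinarith [h5, hsum]

end

end Pool.Agent.Y741
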