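import Pool.Agent.Y741.LRows
import Pool.Agent.Y741.Local
import Pool.Agent.TH145.GE.Vec

/-!
The local inequality, with vertical derivations, for derivations that preserve the orders.
-/

set_option autoImplicit false

open MvPolynomial FF Pool.Agent.W603.LV Pool.Agent.W603.PV Pool.Agent.TH145.GH
open Pool.Agent.Y735 (lf pm tm pl lf_single lf_pm lf_tm eval_lf eval_pm tm_smul sum_tm sum_pm vol
  vol_apply alt_tri lf_hom po exists_scaled' ge_lf ge_coeff_mul ge_X ge_vol)

namespace Pool.Agent.Y741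

variable {k K : Type} [Field k] [Field K] [Algebra k K] {n : ℕ} {A X0 W B U T : Type}

section

variable [DecidableEq A] [Fintype A] {F : Fam K n A} {dg : A → ℕ}
  {D : A → (Fin (n + 1) →₀ ℕ) → Derivation ℤ K K}

/-- The data at a place. -/
structure DataP (P : Place k K) (F : Fam K n A) (dg : A → ℕ)
    (D : A → (Fin (n + 1) →₀ ℕ) → Derivation ℤ K K) : Prop where
  pos : ∀ a, 0 < dg a
  hom : ∀ a, (F a).IsHomogeneous (dg a)
  dual : TH145.GC.Dual F dg D
  pres : ∀ f, f ≠ 0 → ∀ a, ∀ I : Fin (n + 1) →₀ ℕ, I.degree = dg a →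
    Ge P (P.ord f) (D a I f)
  coef : ∀ a u, Ge P 0 ((F a).coeff u)

omit [DecidableEq A] [Fintype A] in
theorem DataP.loss {P : Place k K} (hdat : DataP P F dg D) (f : K) (hf : Ge P 0 f) (a : A)
    (I : Fin (n + 1) →₀ ℕ) (hI : I.degree = dg a) : Ge P 0 (D a I f) := by
  rcases eq_or_ne f 0 with rfl | h
  · rw [map_zero]; exact Ge.zero
  · exact (hdat.pres f h a I hI).mono (hf.resolve_left h)

/-- The rows given by families of forms. -/
theorem DataP.ok_vA {P : Place k K} (hdat : DataP P F dg D) {x' : Fin (n + 1) → K}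
    (hx' : ∀ l, Ge P 0 (x' l)) {B' : Finset A} (hne : ∀ b ∈ B', eval x' (F b) ≠ 0)
    {G : Fam K n A} (hG : ∀ a, (G a).IsHomogeneous (dg a)) (hGc : ∀ a u, Ge P 0 ((G a).coeff u))
    (hG0 : ∀ b ∈ B', eval x' (G b) = 0) : RowOK P F x' 0 B' (vA D x' G) := by
  refine ⟨fun l => ?_, fun b hb => ?_⟩
  · rw [vA_apply]
    exact (ge_DA P (hdat.loss _ (hx' l)) hG hGc).mono (by omega)
  · rw [dF_vA hdat.hom hdat.dual x' hG, hG0 b hb, sub_zero, sub_zero]
    have h : Ge P (0 + P.ord (eval x' (F b))) (DA D G (eval x' (F b))) :=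
      ge_DA P (hdat.pres _ (hne b hb)) hG hGc
    exact h.mono (by omega)

theorem DataP.ok_vq {P : Place k K} (hdat : DataP P F dg D) {x' : Fin (n + 1) → K}
    (hx' : ∀ l, Ge P 0 (x' l)) {B' : Finset A} (hne : ∀ b ∈ B', eval x' (F b) ≠ 0)
    {Q : Fam K n A} (hQ : ∀ a, (Q a).IsHomogeneous (dg a - 1))
    (hQc : ∀ a u, Ge P 0 ((Q a).coeff u)) {m : Fin (n + 1) → K} (hm : ∀ l, Ge P 0 (m l))
    (hm0 : ∑ l, m l * x' l = 0) : RowOK P F x' 0 B' (vq D x' Q m) :=
  hdat.ok_vA hx' hne (ql_hom hdat.pos hQ m) (DataL.ge_ql P hQc hm) fun b _ => by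
    rw [eval_ql, hm0, mul_zero]

theorem DataP.ok_ww {P : Place k K} (hdat : DataP P F dg D) {x' : Fin (n + 1) → K}
    (hx' : ∀ l, Ge P 0 (x' l)) {B' : Finset A} (hne : ∀ b ∈ B', eval x' (F b) ≠ 0)
    (w : (Fin (n + 1) × Fin (n + 1)) ⊕ A) : RowOK P F x' 0 B' (ww F D x' w) := by
  have hgf : ∀ a u, Ge P 0 ((gf F w a).coeff u) := by
    intro a u
    rcases w with pq | b
    · have := ge_coeff_mul P (ge_X P pq.2) (ge_pderiv P (hdat.coef a) pq.1) u
      rwa [add_zero] at this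
    · simp only [gf]
      by_cases h : a = b
      · subst h
        rw [Pi.single_eq_same]; exact hdat.coef a u
      · rw [Pi.single_eq_of_ne h, coeff_zero]; exact Ge.zero
  have h1 : ∀ l, Ge P 0 (vA D x' (gf F w) l) := by
    intro l
    rw [vA_apply]
    exact (ge_DA P (hdat.loss _ (hx' l)) (gf_hom hdat.pos hdat.hom w) hgf).mono (by omega)
  refine ⟨fun l => ?_, fun b hb => ?_⟩
  · rw [neg_zero]
    rcases w with pq | b
    · simp only [ww, Pi.add_apply, Pi.smul_apply, smul_eq_mul]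
      refine Ge.add ?_ (h1 l)
      by_cases hli : l = pq.1
      · rw [hli, Pi.single_eq_same, mul_one]; exact (hx' _).mono (by omega)
      · rw [Pi.single_eq_of_ne hli, mul_zero]; exact Ge.zero
    · exact h1 l
  · rw [dF_ww hdat.pos hdat.hom hdat.dual]
    refine Ge.sub ?_ ?_
    · exact (ge_DA P (hdat.pres _ (hne b hb)) (gf_hom hdat.pos hdat.hom w) hgf).mono (by omega)
    · split_ifs
      · exact Or.inr (by omega)
      · exact Ge.zero

omit [DecidableEq A] [Fintype A] in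
theorem DataP.ok_x {P : Place k K} (hdat : DataP P F dg D) {x' : Fin (n + 1) → K}
    (hx' : ∀ l, Ge P 0 (x' l)) {B' : Finset A} : RowOK P F x' 0 B' x' := by
  refine ⟨fun l => (hx' l).mono (by omega), fun b _ => ?_⟩
  rw [TH145.GC.dF_self (hdat.hom b)]
  have h1 : Ge P (P.ord (eval x' (F b))) (eval x' (F b)) := Or.inr le_rfl
  have := (Ge.natCast (P := P) (dg b)).mul h1
  exact this.mono (by omega)

omit [DecidableEq A] [Fintype A] in
/-- The vertical rows. -/
theorem ok_vert {P : Place k K} {x' : Fin (n + 1) → K}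
    (hx' : ∀ l, Ge P 0 (x' l)) {B' : Finset A} {E : Derivation ℤ K K}
    (hreg : ∀ f, Ge P 0 f → Ge P 0 (E f)) (hFK : ∀ a u, E ((F a).coeff u) = 0)
    (hlog : ∀ b ∈ B', Ge P (P.ord (eval x' (F b))) (E (eval x' (F b)))) :
    RowOK P F x' 0 B' (fun l => E (x' l)) := by
  refine ⟨fun l => (hreg _ (hx' l)).mono (by omega), fun b hb => ?_⟩
  have h1 := Pool.Agent.TH145.GE.dF_ev (E := E) (G := F b) (hFK b) x'
  change Ge P _ (dF (F b) x' (Pool.Agent.TH145.GE.ev E x'))
  rw [h1]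
  exact (hlog b hb).mono (by omega)

/-- The order of the volume at good rows. -/
theorem DataP.ge_vol {P : Place k K} (hdat : DataP P F dg D) {x' : Fin (n + 1) → K}
    (hx' : ∀ l, Ge P 0 (x' l)) {i1 : Fin (n + 1)} (hi1 : x' i1 = 1) {B' : Finset A}
    (hne : ∀ b ∈ B', eval x' (F b) ≠ 0) (hB' : ∀ b ∈ B', 1 ≤ P.ord (eval x' (F b)))
    {ι : Type} (E : ι ≃ Fin (n + 1)) (R : ι → Fin (n + 1) → K)
    (hR : ∀ k, RowOK P F x' 0 B' (R k)) :
    Ge P (∑ b ∈ B', P.ord (eval x' (F b))) (vol E R) := by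
  have h1 := TH145.GC.det_est P (fun b j => eval x' (pderiv j (F b)))
    (fun b => vA D x' (Pi.single b (X i1 ^ dg b)))
    (fun b => P.ord (eval x' (F b))) 0 B'
    (fun b _ j => ?_) (fun b hb => ?_) (fun b hb b' hb' hbb' => ?_)
    (fun i => R (E.symm i)) (fun i j => (hR _).1 j) (fun b hb i => by
      have := (hR (E.symm i)).2 b hb
      rwa [sub_zero] at this)
  · rw [vol_apply]
    rw [mul_zero, sub_zero] at h1
    exact h1
  · rw [vA_apply]
    exact (ge_DA P (hdat.loss _ (hx' j)) (fun a => single_hom (isHomogeneous_X_pow i1 (dg b)) a)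
      (fun a u => ge_single P i1 b a u)).mono (by omega)
  · have h2 : ∑ j, eval x' (pderiv j (F b)) * vA D x' (Pi.single b (X i1 ^ dg b)) j =
        DA D (Pi.single b (X i1 ^ dg b)) (eval x' (F b)) - 1 := by
      have h3 := dF_vA hdat.hom hdat.dual x'
        (fun a => single_hom (dg := dg) (isHomogeneous_X_pow (R := K) i1 (dg b)) a) b
      rw [Pi.single_eq_same, map_pow, eval_X, hi1, one_pow] at h3
      exact h3
    rw [h2]
    refine TH145.GC.sub_one_ord P ?_
    exact (ge_DA P (hdat.pres _ (hne b hb)) (fun a => single_hom (isHomogeneous_X_pow i1 (dg b)) a)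
      (fun a u => ge_single P i1 b a u)).mono (by have := hB' b hb; omega)
  · have h3 := dF_vA hdat.hom hdat.dual x'
      (fun a => single_hom (dg := dg) (isHomogeneous_X_pow (R := K) i1 (dg b)) a) b'
    rw [Pi.single_eq_of_ne hbb'.symm, map_zero, sub_zero] at h3
    change Ge P _ (dF (F b') x' (vA D x' (Pi.single b (X i1 ^ dg b))))
    rw [h3]
    exact (ge_DA P (hdat.pres _ (hne b' hb')) (fun a => single_hom (isHomogeneous_X_pow i1 (dg b)) a)
      (fun a u => ge_single P i1 b a u)).mono (by omega)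

/-- The local inequality. -/
theorem local_form [Fintype X0] [Fintype W] [Fintype B] [Fintype U] [Fintype T] {P : Place k K}
    (hdat : DataP P F dg D) {E : X0 → Derivation ℤ K K}
    (hreg : ∀ ξ f, Ge P 0 f → Ge P 0 (E ξ f)) (hFK : ∀ ξ a u, E ξ ((F a).coeff u) = 0)
    {C : Finset A} {x y : Fin (n + 1) → K}
    (hxC : ∀ c ∈ C, eval x (F c) = 0) (hxb : ∀ b, b ∉ C → eval x (F b) ≠ 0)
    {i0 : Fin (n + 1)} (hi0 : x i0 ≠ 0) {ik : Fin (n + 1) × Fin (n + 1)} (hik : pl x y ik ≠ 0)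
    (rd : RD K n A W B U T)
    (hPB : ∀ b a, (rd.PB b a).IsHomogeneous (dg a - 1))
    (hPU : ∀ b a, (rd.PU b a).IsHomogeneous (dg a - 1))
    (hPT : ∀ b a, (rd.PT b a).IsHomogeneous (dg a - 1))
    (hcB : ∀ b a u, Ge P 0 ((rd.PB b a).coeff u)) (hcU : ∀ b a u, Ge P 0 ((rd.PU b a).coeff u))
    (hcT : ∀ b a u, Ge P 0 ((rd.PT b a).coeff u))
    (hP : (∀ b, b ∉ C → P.ord (eval x (F b)) ≤ dg b * pord P x) ∨
      ∀ ξ f, Ge P (P.ord f) (E ξ f))
    (hT : ∀ t m, ∑ l, m l * x l = 0 → ∑ l, m l * y l = 0 → vq D x (rd.PT t) m ∈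
      Submodule.span K (rowE F dg D E C x y i0 ik rd '' {l | rk l < 2}))
    (hTC : TC F C x ≤ Submodule.span K (rowE F dg D E C x y i0 ik rd '' {l | rk l < 3}))
    (hcard : C.card + 1 + (Fintype.card X0 + Fintype.card W) + 2 * Fintype.card B + Fintype.card U +
      Fintype.card T = n + 1)
    (V : Ri C (X0 ⊕ W) B U T ≃ Fin (n + 1)) (hdet : vol V (rowE F dg D E C x y i0 ik rd) ≠ 0) :
    (((n + 1 + Fintype.card B + Fintype.card T : ℕ) : ℤ) - ((∑ a, dg a : ℕ) : ℤ)) * pord P x +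
      ((Fintype.card U : ℤ) - Fintype.card T) * po P (pl x y) +
      Fintype.card B * P.ord (x i0) ≤
      P.ord (vol V (rowE F dg D E C x y i0 ik rd) /
        ((∏ c ∈ C, x i0 ^ dg c) * ∏ b ∈ Cᶜ, eval x (F b))) := by
  classical
  have hx0 : x ≠ 0 := by
    rintro rfl
    exact hi0 rfl
  have hp0 : pl x y ≠ 0 := fun h0 => hik (by rw [h0]; rfl)
  obtain ⟨lam, x', hlam, hlamP, hxx, hx', i1, hi1⟩ := exists_scaled P hx0
  obtain ⟨mu, p', hmu, hmuP, hpp, hp', bc, hbc⟩ := exists_scaled' P hp0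
  have h1 := row_replE hdat.hom hdat.dual hxC ik hik rd hT hTC hlam hxx hi1 hmu hpp bc hbc (vol V)
  obtain ⟨hf0, hford⟩ := ord_fac (W := X0 ⊕ W) (B := B) (U := U) (T := T) P dg C hi0 hlam hmu
  -- the values at the scaled point
  have hG1 : ∀ a, eval x (F a) = lam ^ dg a * eval x' (F a) := fun a => by
    rw [hxx, eval_smul_hom (hdat.hom a)]
  have hG' : ∀ b, b ∉ C → eval x' (F b) ≠ 0 := fun a ha h0 => by
    apply hxb a ha
    rw [hG1, h0, mul_zero]
  obtain ⟨B', hB', hsum⟩ : ∃ B' : Finset A, (∀ b ∈ B', b ∉ C ∧ 1 ≤ P.ord (eval x' (F b)) ∧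
      ∀ ξ, Ge P (P.ord (eval x' (F b))) (E ξ (eval x' (F b)))) ∧
      ∑ b ∈ Cᶜ, P.ord (eval x' (F b)) ≤ ∑ b ∈ B', P.ord (eval x' (F b)) := by
    rcases hP with hP | hP
    · refine ⟨∅, fun b hb => absurd hb (Finset.notMem_empty b), ?_⟩
      rw [Finset.sum_empty]
      refine Finset.sum_nonpos fun b hb => ?_
      have h8 := hP b (Finset.mem_compl.1 hb)
      rw [hG1, P.ord_mul (pow_ne_zero _ hlam) (hG' b (Finset.mem_compl.1 hb)), P.ord_pow,
        hlamP] at h8
      linarith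
    · refine ⟨Cᶜ.filter fun b => 1 ≤ P.ord (eval x' (F b)), fun b hb => ?_, ?_⟩
      · rw [Finset.mem_filter, Finset.mem_compl] at hb
        exact ⟨hb.1, hb.2, fun ξ => hP ξ _⟩
      · rw [← Finset.sum_filter_add_sum_filter_not Cᶜ (fun b => 1 ≤ P.ord (eval x' (F b)))]
        have h4 : ∑ b ∈ Cᶜ.filter (fun b => ¬ 1 ≤ P.ord (eval x' (F b))),
            P.ord (eval x' (F b)) ≤ 0 := by
          refine Finset.sum_nonpos fun a ha => ?_
          have := (Finset.mem_filter.1 ha).2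
          omega
        linarith
  have hne : ∀ b ∈ B', eval x' (F b) ≠ 0 := fun b hb => hG' b (hB' b hb).1
  have hpm1 : ∀ j, (∀ l, Ge P 0 (pm x' i1 j l)) ∧ ∑ l, pm x' i1 j l * x' l = 0 := by
    intro j
    refine ⟨fun l => ?_, by rw [← eval_lf]; exact eval_pm x' i1 j⟩
    unfold pm
    refine Ge.sub ?_ ?_
    · split_ifs
      · exact hx' _
      · exact Ge.zero
    · split_ifs
      · exact hx' _
      · exact Ge.zero
  -- the order of the determinant of the rows at the place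
  have h3 : Ge P ((Finset.univ : Finset B).card * (P.ord (x i0) + P.ord lam) +
      (∑ b ∈ B', P.ord (eval x' (F b))))
      (vol V (lrowE F dg D E C x x' i1 p' i0 bc rd)) := by
    have hm : ∀ j, Ge P (P.ord lam) (x j) := by
      intro j
      rw [hlamP]
      exact ge_pord P x j
    refine ge_pairs' P (RowOK P F x' 0 B') (vol V)
      (fun R hR => hdat.ge_vol hx' hi1 hne (fun b hb => (hB' b hb).2.1) V R hR)
      (fun b : B => Sum.inr (some (Sum.inr (Sum.inl (Sum.inl b)))))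
      (fun b : B => Sum.inr (some (Sum.inr (Sum.inl (Sum.inr b)))))
      (fun a b hab => by simpa using hab) (fun a b hab => by simpa using hab)
      (fun a b hab => by simp at hab)
      (x0 := x i0) (fun b => x (rd.jb b)) (fun b => x (rd.lb b)) (hm i0)
      (fun b => hm _) (fun b => hm _) (fun b => vq D x' (rd.PB b) (pm x' i1 i0))
      (fun b => vq D x' (rd.PB b) (pm x' i1 (rd.jb b)))
      (fun b => vq D x' (rd.PB b) (pm x' i1 (rd.lb b)))
      (fun b => hdat.ok_vq hx' hne (hPB b) (hcB b) (hpm1 _).1 (hpm1 _).2)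
      (fun b => hdat.ok_vq hx' hne (hPB b) (hcB b) (hpm1 _).1 (hpm1 _).2)
      (fun b => hdat.ok_vq hx' hne (hPB b) (hcB b) (hpm1 _).1 (hpm1 _).2)
      Finset.univ _ (fun b _ => ⟨rfl, rfl⟩) ?_
    intro κ hκ
    rcases κ with c | _ | (ξ | a) | (b | b) | u | t
    · refine hdat.ok_vA hx' hne (fun a => single_hom (isHomogeneous_X_pow i1 (dg c.1)) a)
        (fun a u => ge_single P i1 c.1 a u) fun b hb => ?_
      have hbc : b ≠ c.1 := fun h => (hB' b hb).1 (h ▸ c.2)
      rw [Pi.single_eq_of_ne hbc, map_zero]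
    · exact hdat.ok_x hx'
    · exact ok_vert hx' (hreg ξ) (hFK ξ) fun b hb => (hB' b hb).2.2 ξ
    · exact hdat.ok_ww hx' hne _
    · exact absurd rfl (hκ b (Finset.mem_univ b)).1
    · exact absurd rfl (hκ b (Finset.mem_univ b)).2
    · refine hdat.ok_vq hx' hne (hPU u) (hcU u) (fun l => ?_) ?_
      · unfold tm
        refine Ge.add (Ge.sub ?_ ?_) ?_
        · split_ifs
          · exact hp' _
          · exact Ge.zero
        · split_ifs
          · exact hp' _
          · exact Ge.zero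
        · split_ifs
          · exact hp' _
          · exact Ge.zero
      · have h4 := (sum_tm x y (rd.tu u)).1
        rw [hpp, tm_smul, hxx] at h4
        simp only [Pi.smul_apply, smul_eq_mul] at h4
        have h5 : ∑ l, mu * tm p' (rd.tu u) l * (lam * x' l) =
            (mu * lam) * ∑ l, tm p' (rd.tu u) l * x' l := by
          rw [Finset.mul_sum]
          exact Finset.sum_congr rfl fun l _ => by ring
        rw [h5] at h4
        exact (mul_eq_zero.1 h4).resolve_left (mul_ne_zero hmu hlam)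
    · refine hdat.ok_vq hx' hne (hPT t) (hcT t) (fun l => ?_) (by
        rw [← eval_lf]; exact eval_pm x' _ _)
      unfold pm
      refine Ge.sub ?_ ?_
      · split_ifs
        · exact hx' _
        · exact Ge.zero
      · split_ifs
        · exact hx' _
        · exact Ge.zero
  -- the orders
  have hm0 : vol V (lrowE F dg D E C x x' i1 p' i0 bc rd) ≠ 0 := by
    intro h0
    rw [h0, mul_zero] at h1
    exact hdet h1
  have hC0 : (∏ c ∈ C, x i0 ^ dg c) ≠ 0 := Finset.prod_ne_zero_iff.2 fun c _ => pow_ne_zero _ hi0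
  have hB0 : (∏ b ∈ Cᶜ, eval x (F b)) ≠ 0 :=
    Finset.prod_ne_zero_iff.2 fun b hb => hxb b (Finset.mem_compl.1 hb)
  rw [P.ord_div hdet (mul_ne_zero hC0 hB0), P.ord_mul hC0 hB0, h1, P.ord_mul hf0 hm0, hford,
    TH145.GC.ord_prod P C _ (fun c _ => pow_ne_zero _ hi0),
    TH145.GC.ord_prod P Cᶜ _ (fun b hb => hxb b (Finset.mem_compl.1 hb))]
  have h5 := h3.resolve_left hm0
  rw [Finset.card_univ] at h5
  have h6 : ∑ c ∈ C, P.ord (x i0 ^ dg c) = ((∑ c ∈ C, dg c : ℕ) : ℤ) * P.ord (x i0) := by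
    rw [Nat.cast_sum, Finset.sum_mul]
    exact Finset.sum_congr rfl fun c _ => P.ord_pow _ _
  have h7 : ∑ b ∈ Cᶜ, P.ord (eval x (F b)) =
      ((∑ b ∈ Cᶜ, dg b : ℕ) : ℤ) * P.ord lam + ∑ b ∈ Cᶜ, P.ord (eval x' (F b)) := by
    rw [Nat.cast_sum, Finset.sum_mul, ← Finset.sum_add_distrib]
    refine Finset.sum_congr rfl fun b hb => ?_
    rw [hG1, P.ord_mul (pow_ne_zero _ hlam) (hG' b (Finset.mem_compl.1 hb)), P.ord_pow]
  have h8 : ((∑ a, dg a : ℕ) : ℤ) = ((∑ c ∈ C, dg c : ℕ) : ℤ) + ((∑ b ∈ Cᶜ, dg b : ℕ) : ℤ) := by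
    rw [← Finset.sum_add_sum_compl C]
    push_cast
    rfl
  have h9 : (C.card : ℤ) + 1 + (Fintype.card X0 + Fintype.card W) + 2 * Fintype.card B +
      Fintype.card U + Fintype.card T = n + 1 := by exact_mod_cast hcard
  rw [h6, h7, h8]
  rw [hlamP] at h5 ⊢
  rw [hmuP]
  push_cast
  have h10 : ((C.card : ℤ) + 1 + ((Fintype.card X0 : ℤ) + Fintype.card W) +
      2 * Fintype.card B + Fintype.card U +
      2 * Fintype.card T) = n + 1 + Fintype.card T := by linarith
  rw [Fintype.card_sum]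
  push_cast
  rw [h10]
  nlinarith [h5, hsum]

end

end Pool.Agent.Y741
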