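import Pool.Agent.Y741.LSetup
import Pool.Agent.TH145.GL.Main

/-!
The form given by a valid choice of the rows.
-/

set_option autoImplicit false

open MvPolynomial FF Pool.Agent.W603.LV Pool.Agent.W603.PV Pool.Agent.TH145.GH
open Pool.Agent.Y735 (lf pm tm pl vol vol_apply po po_le exists_po)
open Pool.Agent.W602.GT Pool.Agent.TH145.GF

namespace Pool.Agent.Y741

section

variable {k L : Type} [Field k] [Field L] [Algebra k L] {n w : ℕ}

/-- A form of log general type. -/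
theorem lgt_mk (htr : Algebra.trdeg k L = w) {N : ℕ} (hN : 0 < N) (Bd : Place k L → Prop)
    (Ψ : (Fin w → Derivation k L L) → L)
    (hlin : ∀ (M : Matrix (Fin w) (Fin w) L) (D1 D2 : Fin w → Derivation k L L),
      (∀ i f, D1 i f = ∑ j, M i j * D2 j f) → Ψ D1 = M.det ^ N * Ψ D2)
    {E : Fin w → Derivation k L L} (hE : Ψ E ≠ 0) (f : Fin w → L)
    (hf : AlgebraicIndependent k f)
    (hreg : ∀ Q : Place k L, Divisorial w Q → ∀ Dd : Fin w → Derivation k L L,
      (((∀ i, DerReg Q (Dd i)) ∧ ¬ Bd Q) ∨ ∀ i, DerLog Q (Dd i)) →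
      Q.Reg (Ψ Dd) ∧ ∀ i, Q.Reg (Ψ Dd * f i)) : LogGeneralType k L w Bd := by
  obtain ⟨ω, h0, h1⟩ : ∃ ω : Fin (w + 1) → (Fin w → Derivation k L L) → L,
      (∀ Dd, ω 0 Dd = Ψ Dd) ∧ ∀ i Dd, ω (Fin.succ i) Dd = Ψ Dd * f i :=
    ⟨Fin.cons Ψ fun i Dd => Ψ Dd * f i, fun _ => rfl, fun _ _ => rfl⟩
  have hr : ∀ Q : Place k L, Divisorial w Q → ∀ Dd : Fin w → Derivation k L L,
      (((∀ i, DerReg Q (Dd i)) ∧ ¬ Bd Q) ∨ ∀ i, DerLog Q (Dd i)) → ∀ j, Q.Reg (ω j Dd) := by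
    intro Q hQ Dd hDd j
    obtain ⟨h2, h3⟩ := hreg Q hQ Dd hDd
    refine Fin.cases ?_ (fun i => ?_) j
    · rw [h0]; exact h2
    · rw [h1]; exact h3 i
  refine ⟨htr, N, hN, ω, fun j M Dd => ?_, fun Q hQ j Dd hDd => hr Q hQ Dd (Or.inr hDd) j,
    fun Q hQ hB j Dd hDd => hr Q hQ Dd (Or.inl ⟨hDd, hB⟩) j, E, ?_, ?_⟩
  · have h2 := hlin M (fun i => ∑ j, M i j • Dd j) Dd (fun i f => by
      rw [← Derivation.coeFnAddMonoidHom_apply, map_sum, Finset.sum_apply]
      rfl)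
    refine Fin.cases ?_ (fun i => ?_) j
    · rw [h0, h0]; exact h2
    · rw [h1, h1, h2]; ring
  · rw [h0]; exact hE
  · have h2 : (fun i : Fin w => ω i.succ E / ω 0 E) = f := by
      funext i
      rw [h0, h1, mul_div_cancel_left₀ _ hE]
    rw [h2]
    exact hf

variable [CharZero k] {A : Type} [DecidableEq A] [Fintype A] {F : Fam L n A} {dg : A → ℕ}
  {D : A → (Fin (n + 1) →₀ ℕ) → Derivation ℤ L L}

omit [CharZero k] in
theorem po_scale (Q : Place k L) {ι : Type} [Finite ι] {f : ι → L} (hf : f ≠ 0) {c : L}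
    (hc : c ≠ 0) : po Q (fun j => c * f j) = Q.ord c + po Q f := by
  obtain ⟨j0, hj0⟩ := Function.ne_iff.1 hf
  have hj0' : f j0 ≠ 0 := hj0
  have hcf : (fun j => c * f j) ≠ 0 := by
    intro h
    exact mul_ne_zero hc hj0' (congrFun h j0)
  apply le_antisymm
  · obtain ⟨j, hj, h⟩ := exists_po Q hf
    rw [← h, ← Q.ord_mul hc hj]
    exact po_le Q (f := fun j => c * f j) (mul_ne_zero hc hj)
  · obtain ⟨j, hj, h⟩ := exists_po Q hcf
    rw [← h, Q.ord_mul hc (right_ne_zero_of_mul hj)]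
    have := po_le Q (right_ne_zero_of_mul hj)
    omega

/-- The normalised coordinates. -/
noncomputable def nx (x : Fin (n + 1) → L) (i0 : Fin (n + 1)) (j : Fin (n + 1)) : L := x j / x i0

/-- The normalised coordinates of the line. -/
noncomputable def np (x y : Fin (n + 1) → L) (ik q : Fin (n + 1) × Fin (n + 1)) : L :=
  pl x y q / pl x y ik

/-- The form given by a valid choice of the rows. -/
theorem exists_phi {W B U T : Type} [Fintype W] [Fintype B] [Fintype U] [Fintype T]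
    (hpos : ∀ a, 0 < dg a) (hF : ∀ a, (F a).IsHomogeneous (dg a)) (hD : TH145.GC.Dual F dg D)
    (hw : 0 < w) (htr : Algebra.trdeg k L = w)
    (hS : ∀ a I, Sem k (D a I)) {t : Fin w → L} (ht : IsTranscendenceBasis k t)
    {E : Fin w → Derivation k L L} (hEt : ∀ i j, E i (t j) = if i = j then 1 else 0)
    (hFk : ∀ a u, ∃ c : k, (F a).coeff u = algebraMap k L c)
    {C : Finset A} {x y : Fin (n + 1) → L}
    (hxC : ∀ c ∈ C, eval x (F c) = 0) (hxb : ∀ b, b ∉ C → eval x (F b) ≠ 0)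
    {i0 : Fin (n + 1)} (hi0 : x i0 ≠ 0) {ik : Fin (n + 1) × Fin (n + 1)} (hik : pl x y ik ≠ 0)
    (rn : RN n A W B U T) (hrn : VRE F dg D (vE E) C x y i0 ik rn) {h r : ℕ}
    (hh : n + 1 + Fintype.card B + Fintype.card T + h = ∑ a, dg a)
    (hr : Fintype.card U + r = Fintype.card T) :
    ∃ Φ : (Fin w → Derivation k L L) → L,
      (∀ (M : Matrix (Fin w) (Fin w) L) (D1 D2 : Fin w → Derivation k L L),
        (∀ i f, D1 i f = ∑ j, M i j * D2 j f) → Φ D1 = M.det * Φ D2) ∧ Φ E ≠ 0 ∧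
      ∀ Q : Place k L, Divisorial w Q → ∀ Dd : Fin w → Derivation k L L,
        (((∀ i, DerReg Q (Dd i)) ∧ ∀ b, b ∉ C → Q.ord (eval x (F b)) ≤ dg b * pord Q x) ∨
          ∀ i, DerLog Q (Dd i)) →
        Ge Q (-(h * pord Q (nx x i0)) - r * po Q (np x y ik)) (Φ Dd) := by
  classical
  have hPBh := fun b a => nf_hom (K := L) (hrn.PB b) a
  have hPUh := fun b a => nf_hom (K := L) (hrn.PU b) a
  have hPTh := fun b a => nf_hom (K := L) (hrn.PT b) a
  have hcard := hrn.card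
  rw [Fintype.card_fin] at hcard
  have hEc : Fintype.card (Ri C (Fin w ⊕ W) B U T) = Fintype.card (Fin (n + 1)) := by
    simp only [Fintype.card_option, Fintype.card_sum, Fintype.card_fin, Fintype.card_coe]
    omega
  obtain ⟨V⟩ : Nonempty (Ri C (Fin w ⊕ W) B U T ≃ Fin (n + 1)) := Fintype.card_eq.1 hEc
  obtain ⟨R, hR⟩ : ∃ R : (Fin w → Derivation k L L) → Ri C (Fin w ⊕ W) B U T → Fin (n + 1) → L,
      ∀ Dd, R Dd = rowE F dg D (vE Dd) C x y i0 ik (rn.rd L) := ⟨_, fun _ => rfl⟩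
  have htop : Submodule.span L (Set.range (R E)) = ⊤ := by
    rw [eq_top_iff]
    intro z _
    have h1 := exists_dec hF hD hxC hi0 z
    have h2 : Submodule.span L (rowE F dg D (vE E) C x y i0 ik (rn.rd L) '' {l | rk l < 3}) ≤
        Submodule.span L (Set.range (R E)) := by
      rw [hR]
      exact Submodule.span_mono (Set.image_subset_range _ _)
    have h3 := h2 (hrn.span h1)
    have h4 : ∑ c : C, (-(dF (F c) x z / x i0 ^ dg c.1)) •
        vA D x (Pi.single c.1 (X i0 ^ dg c.1)) ∈ Submodule.span L (Set.range (R E)) :=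
      sum_mem fun c _ => Submodule.smul_mem _ _ (Submodule.subset_span
        ⟨Sum.inl c, by rw [hR]; rfl⟩)
    have h5 := add_mem h3 h4
    rwa [sub_add_cancel] at h5
  have hind : LinearIndependent L (R E) :=
    linearIndependent_of_top_le_span_of_card_eq_finrank htop.ge (by
      rw [hEc, Fintype.card_fin, Module.finrank_fin_fun])
  have hdet : vol V (R E) ≠ 0 := by
    rw [vol_apply]
    have h4 := Matrix.linearIndependent_rows_iff_isUnit
      (A := Matrix.of fun i => R E (V.symm i))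
    rw [Matrix.isUnit_iff_isUnit_det, isUnit_iff_ne_zero] at h4
    refine h4.1 ?_
    exact (linearIndependent_equiv V.symm).2 hind
  obtain ⟨Z, hZ⟩ : ∃ Z, Z = (∏ c ∈ C, x i0 ^ dg c) * ∏ b ∈ Cᶜ, eval x (F b) := ⟨_, rfl⟩
  have hZ0 : Z ≠ 0 := by
    rw [hZ]
    exact mul_ne_zero (Finset.prod_ne_zero_iff.2 fun c _ => pow_ne_zero _ hi0)
      (Finset.prod_ne_zero_iff.2 fun b hb => hxb b (Finset.mem_compl.1 hb))
  obtain ⟨q, hq⟩ : ∃ q : L, q = x i0 ^ h * pl x y ik ^ r / x i0 ^ Fintype.card B := ⟨_, rfl⟩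
  have hq0 : q ≠ 0 := by
    rw [hq]
    exact div_ne_zero (mul_ne_zero (pow_ne_zero _ hi0) (pow_ne_zero _ hik)) (pow_ne_zero _ hi0)
  have hlin : ∀ (M : Matrix (Fin w) (Fin w) L) (D1 D2 : Fin w → Derivation k L L),
      (∀ i f, D1 i f = ∑ j, M i j * D2 j f) →
      vol V (R D1) / Z * q = M.det * (vol V (R D2) / Z * q) := by
    intro M D1 D2 h1
    have h2 := vol_lin (F := F) (dg := dg) (D := D) (E1 := vE D1) (E2 := vE D2) (C := C)
      (x := x) (y := y) (i0 := i0) (ik := ik) (rn.rd L) V M (fun i f => h1 i f)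
    rw [hR, hR, h2]
    ring
  refine ⟨fun Dd => vol V (R Dd) / Z * q, hlin, mul_ne_zero (div_ne_zero hdet hZ0) hq0, ?_⟩
  intro Q hQ Dd hDd
  obtain ⟨M, hM⟩ : ∃ M : Matrix (Fin w) (Fin w) L, M = Matrix.of fun i j => Dd i (t j) := ⟨_, rfl⟩
  have hωM := hlin M Dd E (fun i f => by
    rw [der_comb ht hEt (Dd i) f, hM]
    rfl)
  by_cases hM0 : M.det = 0
  · dsimp only
    rw [hωM, hM0, zero_mul]
    exact Ge.zero
  rw [hM] at hM0
  have h1 := ord_phi hpos hF hD hw htr hQ hS ht hEt hFk (Dd := Dd) hM0 hxC hxb hi0 hik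
    (rn.rd L) hPBh hPUh hPTh (fun b a => nf_nc _ a) (fun b a => nf_nc _ a)
    (fun b a => nf_nc _ a) hrn.hT hrn.span hcard V (by rw [← hR]; exact hdet) hDd
  rw [← hR, ← hZ] at h1
  have hv0 : vol V (R Dd) / Z ≠ 0 := by
    have h2 : vol V (R Dd) / Z * q ≠ 0 := by
      rw [hωM, hM]
      exact mul_ne_zero hM0 (mul_ne_zero (div_ne_zero hdet hZ0) hq0)
    exact left_ne_zero_of_mul h2
  right
  rw [Q.ord_mul hv0 hq0, hq, Q.ord_div (mul_ne_zero (pow_ne_zero _ hi0) (pow_ne_zero _ hik))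
    (pow_ne_zero _ hi0), Q.ord_mul (pow_ne_zero _ hi0) (pow_ne_zero _ hik), Q.ord_pow, Q.ord_pow,
    Q.ord_pow]
  have h3 : pord Q (nx x i0) = pord Q x - Q.ord (x i0) := by
    have h4 : nx x i0 = fun j => (x i0)⁻¹ * x j := by
      funext j
      rw [nx, div_eq_mul_inv, mul_comm]
    rw [h4, pord_scale Q ⟨i0, hi0⟩ (inv_ne_zero hi0), Q.ord_inv]
    ring
  have h5 : po Q (np x y ik) = po Q (pl x y) - Q.ord (pl x y ik) := by
    have h4 : np x y ik = fun j => (pl x y ik)⁻¹ * pl x y j := by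
      funext j
      rw [np, div_eq_mul_inv, mul_comm]
    rw [h4, po_scale Q (fun h => hik (congrFun h ik)) (inv_ne_zero hik), Q.ord_inv]
    ring
  rw [h3, h5]
  have h6 : ((∑ a, dg a : ℕ) : ℤ) = n + 1 + Fintype.card B + Fintype.card T + h := by
    exact_mod_cast hh.symm
  have h7 : (Fintype.card T : ℤ) = Fintype.card U + r := by exact_mod_cast hr.symm
  rw [h6] at h1
  push_cast at h1
  rw [h7] at h1
  nlinarith [h1]

end

end Pool.Agent.Y741
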