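import Pool.Agent.Y741.RhoC

/-!
The roots of the boundary on a line for two bases of the line.
-/

set_option autoImplicit false

open MvPolynomial FF Pool.Agent.W603.LV Pool.Agent.W603.PV Pool.Agent.W602.RG Pool.Agent.TH145.GH
open Pool.Agent.Y735 (rho eval_rho rho_X pl fht po po_le po_finite fht_nonneg rho_deg exists_po)

namespace Pool.Agent.Y741

section pun

variable {Ω : Type} [Field Ω] [IsAlgClosed Ω] {n : ℕ} {A : Type} [Fintype A] [DecidableEq A]

/-- The roots of the boundary on the line, in another basis. -/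
theorem pun_of_basis {r : ℕ} {F : Fam Ω n A} {dg : A → ℕ} (hF : ∀ a, (F a).IsHomogeneous (dg a))
    {C : Finset A} {x y y0 y1 : Fin (n + 1) → Ω} {a b a' b' : Ω} (hx : x = a • y0 + b • y1)
    (hy : y = a' • y0 + b' • y1) (hab : a * b' - a' * b ≠ 0)
    (hxF : ∀ c, c ∉ C → eval x (F c) ≠ 0) (hyF : ∀ c, c ∉ C → eval y0 (F c) ≠ 0)
    {χ : Polynomial Ω} (hχ : ∀ t, (bdy F C y0 y1).eval t = 0 → χ.eval t = 0) (hχ0 : χ ≠ 0)
    (hχr : χ.natDegree ≤ r) : Pun r F C x y := by
  classical
  obtain ⟨-, h1, h2⟩ := bdy_lc hF y hxF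
  refine pun_of_card h1 h2 (s0 := χ.roots.toFinset.image fun s => (a' - s * b') / (s * b - a))
    (fun t ht => ?_) ?_
  · rw [eval_bdy, Finset.prod_eq_zero_iff] at ht
    obtain ⟨c, hc, hct⟩ := ht
    have hcC := Finset.mem_compl.1 hc
    have hv : t • x + y = (t * a + a') • y0 + (t * b + b') • y1 := by
      rw [hx, hy]
      module
    rw [hv] at hct
    have hτ : t * b + b' ≠ 0 := by
      intro hτ
      rw [hτ, zero_smul, add_zero, eval_smul_hom (hF c)] at hct
      have h3 := (mul_eq_zero.1 hct).resolve_right (hyF c hcC)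
      have h4 : t * a + a' = 0 := by
        by_contra hcon
        exact pow_ne_zero _ hcon h3
      apply hab
      linear_combination a * hτ - b * h4
    obtain ⟨s, hs⟩ : ∃ s, s * (t * b + b') = t * a + a' := ⟨_, div_mul_cancel₀ _ hτ⟩
    have hv2 : (t * a + a') • y0 + (t * b + b') • y1 = (t * b + b') • (s • y0 + y1) := by
      rw [smul_add, smul_smul, mul_comm _ s, hs]
    rw [hv2, eval_smul_hom (hF c)] at hct
    have h3 := (mul_eq_zero.1 hct).resolve_left (pow_ne_zero _ hτ)
    have h4 : (bdy F C y0 y1).eval s = 0 := by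
      rw [eval_bdy]
      exact Finset.prod_eq_zero hc h3
    rw [Finset.mem_image]
    refine ⟨s, ?_, ?_⟩
    · rw [Multiset.mem_toFinset, Polynomial.mem_roots hχ0]
      exact hχ s h4
    · have h5 : (s * b - a) * (t * b + b') = -(a * b' - a' * b) := by
        linear_combination b * hs
      have h6 : s * b - a ≠ 0 := by
        intro h6
        rw [h6, zero_mul] at h5
        exact hab (neg_eq_zero.1 h5.symm)
      rw [div_eq_iff h6]
      have h7 : (a' - s * b' - t * (s * b - a)) * (t * b + b') = 0 := by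
        linear_combination (- (t * b + b')) * hs
      have h8 := (mul_eq_zero.1 h7).resolve_right hτ
      linear_combination h8
  · refine Finset.card_image_le.trans ?_
    exact (Multiset.toFinset_card_le _).trans ((Polynomial.card_roots' _).trans hχr)

end pun

end Pool.Agent.Y741
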