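import Pool.Agent.Y741.LAlg
import Pool.Agent.Y741.LLoc
import Pool.Agent.Y741.LineG

/-!
A family of lines: the basis of the line and the parameter.
-/

set_option autoImplicit false

open MvPolynomial FF Pool.Agent.W603.LV Pool.Agent.W603.PV Pool.Agent.TH145.GH
open Pool.Agent.Y735 (lf pm tm pl vol vol_apply po po_le exists_po zp zp_pl zp_smul exists_xi rho
  eval_rho)
open Pool.Agent.W602.GT Pool.Agent.TH145.GF

namespace Pool.Agent.Y741

section

variable {k L : Type} [Field k] [Field L] [Algebra k L] {n : ℕ}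

/-- The basis of the line. -/
theorem line_basis2 {x y : Fin (n + 1) → L} {ik : Fin (n + 1) × Fin (n + 1)}
    (hik : pl x y ik ≠ 0) {ξ : Fin (n + 1) → L} {j : Fin (n + 1)}
    (hj : zp (np x y ik) ξ j ≠ 0) :
    ∃ (y0 y1 : Fin (n + 1) → L),
      (∀ i, y0 i = (zp (np x y ik) ξ j)⁻¹ * zp (np x y ik) ξ i) ∧
      (∀ i, y1 i = (zp (np x y ik) ξ j)⁻¹ * np x y ik (j, i)) ∧
      x = x j • y0 + (-(∑ l, ξ l * x l)) • y1 ∧ y = y j • y0 + (-(∑ l, ξ l * y l)) • y1 ∧
      x j * (-(∑ l, ξ l * y l)) - y j * (-(∑ l, ξ l * x l)) ≠ 0 := by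
  obtain ⟨c, hc⟩ : ∃ c, c = (pl x y ik)⁻¹ := ⟨_, rfl⟩
  have hc0 : c ≠ 0 := by rw [hc]; exact inv_ne_zero hik
  have hnp : np x y ik = c • pl x y := by
    funext q
    rw [np, hc, Pi.smul_apply, smul_eq_mul, div_eq_mul_inv, mul_comm]
  obtain ⟨α, hα⟩ : ∃ α, α = ∑ l, ξ l * x l := ⟨_, rfl⟩
  obtain ⟨β, hβ⟩ : ∃ β, β = ∑ l, ξ l * y l := ⟨_, rfl⟩
  have hz : ∀ i, zp (np x y ik) ξ i = c * (α * y i - β * x i) := by
    intro i
    rw [hnp, zp_smul, zp_pl, ← hα, ← hβ]
    simp only [Pi.smul_apply, Pi.add_apply, smul_eq_mul]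
    ring
  rw [← hα, ← hβ]
  have hD := hz j
  have hne : α * y j - β * x j ≠ 0 := by
    intro h
    rw [h, mul_zero] at hD
    exact hj hD
  obtain ⟨e, he⟩ : ∃ e, e = α * y j - β * x j := ⟨_, rfl⟩
  rw [← he] at hD hne
  refine ⟨_, _, fun i => rfl, fun i => rfl, ?_, ?_, ?_⟩
  · funext i
    simp only [Pi.add_apply, Pi.smul_apply, smul_eq_mul]
    rw [hD, hz, hnp]
    simp only [Pi.smul_apply, smul_eq_mul, pl]
    field_simp
    linear_combination x i * he
  · funext i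
    simp only [Pi.add_apply, Pi.smul_apply, smul_eq_mul]
    rw [hD, hz, hnp]
    simp only [Pi.smul_apply, smul_eq_mul, pl]
    field_simp
    linear_combination y i * he
  · intro h
    apply hne
    linear_combination he + h

end

end Pool.Agent.Y741
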