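import Pool.Agent.Y741.LTri
import Pool.Agent.Y741.SetupV
import Pool.Agent.Y741.LogSub

/-!
The derivations of the function field of a subvariety.
-/

set_option autoImplicit false

open MvPolynomial FF Pool.Agent.W603.LV Pool.Agent.W603.PV Pool.Agent.TH145.GH
open Pool.Agent.TH145.GC (Ev dF_sub dF_self ord_prod exists_minor Rt Cf finite_cf Tan
  der_zero_of_alg)
open Pool.Agent.W602.GT Pool.Agent.TH145.MG Pool.Agent.TH145.GE Pool.Agent.TH145.GF

namespace Pool.Agent.Y741

open scoped Classical in
/-- Derivations of the function field, which preserve the constants, dual to independent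
constants. -/
theorem exists_dualsC {k0 k L ι : Type} [Field k0] [Field k] [Field L] [Algebra k0 k] [Algebra k L]
    [Algebra k0 L] [IsScalarTower k0 k L] [IsAlgClosed k] [CharZero k] {t : ι → L}
    (ht : IsTranscendenceBasis k t) {β : Type} (c : β → k) (hc : AlgebraicIndependent k0 c) :
    ∃ D : β → Derivation k0 L L, (∀ b, Sem k ((D b).restrictScalars ℤ)) ∧
      (∀ b b', D b (algebraMap k L (c b')) = if b = b' then 1 else 0) ∧
      ∃ (ι' : Type) (z : ι' → L), IsTranscendenceBasis k0 z ∧
        ∀ b i, ∃ r : k0, D b (z i) = algebraMap k0 L r := by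
  have hL : CharZero L := charZero_of_injective_algebraMap (algebraMap k L).injective
  have hk0 : CharZero k0 := by
    constructor
    intro a b hab
    have h1 := congrArg (algebraMap k0 k) hab
    rw [map_natCast, map_natCast] at h1
    exact Nat.cast_injective h1
  obtain ⟨s, hs, hy⟩ := exists_isTranscendenceBasis_superset (R := k0)
    (s := Set.range c) hc.coe_range
  have hz := hy.sumElim_comp ht
  obtain ⟨z, hzd⟩ : ∃ z : ι ⊕ s → L, z = Sum.elim t (algebraMap k L ∘ fun w : s =>
    (w : k)) := ⟨_, rfl⟩
  rw [← hzd] at hz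
  have hE : ∀ b : β, ∃ E : Derivation k0 L L, ∀ i, E (z i) =
      Sum.elim (fun _ => 0) (fun w : s => if (w : k) = c b then 1 else 0) i :=
    fun b => Pool.Agent.W602.GT.exists_der z hz _
  choose E hE using hE
  refine ⟨E, fun b => ?_, fun b b' => ?_, ι ⊕ s, z, hz, fun b i => ?_⟩
  · obtain ⟨S, hS⟩ : ∃ S : Set L, S = Set.range (algebraMap k0 L) ∪
      Set.range (algebraMap k L ∘ fun w : s => (w : k)) := ⟨_, rfl⟩
    have hkr : IsAlgClosed (algebraMap k L).fieldRange :=
      IsAlgClosed.of_ringEquiv k _ (RingHom.rangeRestrictFieldEquiv (algebraMap k L))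
    have hSk : acl S ≤ (algebraMap k L).fieldRange := by
      refine acl_of_isAlgClosed hkr ?_
      rw [hS]
      rintro _ (⟨r, rfl⟩ | ⟨i, rfl⟩)
      · exact ⟨algebraMap k0 k r, (IsScalarTower.algebraMap_apply k0 k L r).symm⟩
      · exact ⟨i, rfl⟩
    have hkS : ∀ r : k, algebraMap k L r ∈ acl S := by
      intro r
      rw [mem_acl]
      have h1 : IsAlgebraic (IntermediateField.adjoin k0 (Set.range fun w : s => (w : k))) r := by
        have := hy.isAlgebraic_field
        exact this.isAlgebraic r
      obtain ⟨p, hp0, hp⟩ := h1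
      have h2 : ∀ a : IntermediateField.adjoin k0 (Set.range fun w : s => (w : k)),
          algebraMap k L (a : k) ∈ Subfield.closure S := by
        intro a
        have h3 : (a : k) ∈ Subfield.closure (Set.range (algebraMap k0 k) ∪
            Set.range fun w : s => (w : k)) := by
          rw [← IntermediateField.adjoin_toSubfield]
          exact a.2
        have h4 : Subfield.closure (Set.range (algebraMap k0 k) ∪
            Set.range fun w : s => (w : k)) ≤
            (Subfield.closure S).comap (algebraMap k L) := by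
          rw [Subfield.closure_le]
          rintro _ (⟨r, rfl⟩ | ⟨i, rfl⟩)
          · refine Subfield.subset_closure ?_
            rw [hS]
            exact Or.inl ⟨r, IsScalarTower.algebraMap_apply k0 k L r⟩
          · refine Subfield.subset_closure ?_
            rw [hS]
            exact Or.inr ⟨i, rfl⟩
        exact h4 h3
      let φ : IntermediateField.adjoin k0 (Set.range fun w : s => (w : k)) →+*
          Subfield.closure S :=
        { toFun := fun a => ⟨algebraMap k L (a : k), h2 a⟩
          map_one' := Subtype.ext (map_one (algebraMap k L))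
          map_mul' := fun a b => Subtype.ext (map_mul (algebraMap k L) (a : k) b)
          map_zero' := Subtype.ext (map_zero (algebraMap k L))
          map_add' := fun a b => Subtype.ext (map_add (algebraMap k L) (a : k) b) }
      refine ⟨p.map φ, (Polynomial.map_ne_zero_iff φ.injective).2 hp0, ?_⟩
      have h5 := congrArg (algebraMap k L) hp
      rw [map_zero, Polynomial.aeval_def, Polynomial.hom_eval₂] at h5
      rw [Polynomial.aeval_def, Polynomial.eval₂_map]
      exact h5
    intro r
    have h1 : (E b).restrictScalars ℤ (algebraMap k L r) ∈ acl S := by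
      refine der_acl ((E b).restrictScalars ℤ) ?_ (hkS r)
      rw [hS]
      rintro s' (⟨r, rfl⟩ | ⟨i, rfl⟩)
      · change E b (algebraMap k0 L r) ∈ _
        rw [Derivation.map_algebraMap]
        exact zero_mem _
      · change E b ((algebraMap k L ∘ fun w : s => (w : k)) i) ∈ _
        have h2 : (algebraMap k L ∘ fun w : s => (w : k)) i = z (Sum.inr i) := by rw [hzd]; rfl
        rw [h2, hE]
        simp only [Sum.elim_inr]
        split_ifs
        · exact one_mem _
        · exact zero_mem _
    obtain ⟨r', hr'⟩ := hSk h1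
    exact ⟨r', hr'.symm⟩
  · have h2 : algebraMap k L (c b') = z (Sum.inr ⟨c b', hs ⟨b', rfl⟩⟩) := by rw [hzd]; rfl
    rw [h2, hE]
    simp only [Sum.elim_inr]
    by_cases h : b = b'
    · rw [h, if_pos rfl, if_pos rfl]
    · rw [if_neg h, if_neg fun h' => h (hc.injective h').symm]
  · rw [hE]
    rcases i with i | i
    · exact ⟨0, by rw [map_zero]; rfl⟩
    · simp only [Sum.elim_inr]
      split_ifs
      · exact ⟨1, (map_one _).symm⟩
      · exact ⟨0, (map_zero _).symm⟩

/-- The derivations that are dual to the coefficients of generic forms. -/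
theorem exists_duals_L {k0 k L ι : Type} [Field k0] [Field k] [Field L] [Algebra k0 k]
    [Algebra k L] [IsAlgClosed k] [CharZero k] {t : ι → L}
    (ht : IsTranscendenceBasis k t) {n : ℕ} {A : Type} {dg : A → ℕ}
    (G : A → MvPolynomial (Fin (n + 1)) k)
    (hind : AlgebraicIndependent k0 fun p : (a : A) × {I : Fin (n + 1) →₀ ℕ // I.degree = dg a} =>
      (G p.1).coeff p.2.1) :
    ∃ D : A → (Fin (n + 1) →₀ ℕ) → Derivation ℤ L L,
      TH145.GC.Dual (fun a => map (algebraMap k L) (G a)) dg D ∧ (∀ a I, Sem k (D a I)) ∧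
      Comm D := by
  classical
  let _ : Algebra k0 L := ((algebraMap k L).comp (algebraMap k0 k)).toAlgebra
  have hst : IsScalarTower k0 k L := IsScalarTower.of_algebraMap_eq fun _ => rfl
  have hL : CharZero L := charZero_of_injective_algebraMap (algebraMap k L).injective
  obtain ⟨D', hS, hdu, ι', z, hz, hzr⟩ := exists_dualsC ht _ hind
  obtain ⟨D, hD⟩ : ∃ D : A → (Fin (n + 1) →₀ ℕ) → Derivation ℤ L L, ∀ a I,
      D a I = if h : I.degree = dg a then (D' ⟨a, ⟨I, h⟩⟩).restrictScalars ℤ else 0 :=
    ⟨_, fun _ _ => rfl⟩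
  refine ⟨D, fun a b I J hI hJ => ?_, fun a I => ?_, ?_⟩
  · have h1 : D a I ((map (algebraMap k L) (G b)).coeff J) =
        if (⟨a, ⟨I, hI⟩⟩ : (a : A) × {I : Fin (n + 1) →₀ ℕ // I.degree = dg a}) =
          ⟨b, ⟨J, hJ⟩⟩ then 1 else 0 := by
      rw [hD, dif_pos hI, coeff_map]
      exact (hdu _ ⟨b, ⟨J, hJ⟩⟩).trans (by congr)
    dsimp only
    refine ⟨fun hab hIJ => ?_, fun h => ?_⟩
    · subst hab
      subst hIJ
      rw [h1, if_pos rfl]
    · rw [h1, if_neg]
      intro heq
      have e1 : a = b := congrArg Sigma.fst heq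
      subst e1
      have e2 := eq_of_heq (Sigma.mk.inj_iff.1 heq).2
      have e3 : I = J := congrArg Subtype.val e2
      rcases h with h | h
      · exact h rfl
      · exact h e3
  · rw [hD]
    split_ifs
    · exact hS _
    · exact fun r => ⟨0, by rw [map_zero]; rfl⟩
  · refine comm_of hz (fun a I r => ?_) fun a I j => ?_
    · rw [hD]
      split_ifs
      · exact (D' _).map_algebraMap r
      · rfl
    · rw [hD]
      split_ifs
      · exact hzr _ j
      · exact ⟨0, by rw [map_zero]; rfl⟩

/-- The vertical derivations and the position vector are independent. -/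
theorem rank_Ve {k L : Type} [Field k] [Field L] [Algebra k L] {n w : ℕ}
    {x : Fin (n + 1) → L} {c0 : Fin (n + 1)} (hx1 : x c0 = 1) {l : Fin w → Fin (n + 1)}
    {E : Fin w → Derivation k L L} (hE : ∀ i j, E i (x (l j)) = if i = j then 1 else 0) :
    Module.finrank L (Submodule.span L {x} ⊔ Ve (vE E) x : Submodule L (Fin (n + 1) → L)) =
      1 + Fintype.card (Fin w) := by
  have h1 : (Submodule.span L {x} ⊔ Ve (vE E) x : Submodule L (Fin (n + 1) → L)) =
      Submodule.span L (Set.range fun o : Option (Fin w) => o.elim x fun i l => E i (x l)) := by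
    unfold Ve
    rw [← Submodule.span_union]
    congr 1
    ext z
    constructor
    · rintro (h | ⟨i, rfl⟩)
      · rw [Set.mem_singleton_iff] at h
        exact ⟨none, h.symm⟩
      · exact ⟨some i, rfl⟩
    · rintro ⟨(_ | i), rfl⟩
      · exact Or.inl rfl
      · exact Or.inr ⟨i, rfl⟩
  rw [h1, finrank_span_eq_card, Fintype.card_option]
  · ring
  rw [Fintype.linearIndependent_iff]
  intro r hr
  have h2 : ∀ q, r none * x q + ∑ i, r (some i) * E i (x q) = 0 := by
    intro q
    have h3 := congrFun hr q
    rw [Fintype.sum_option, Pi.add_apply, Finset.sum_apply] at h3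
    simp only [Option.elim, Pi.smul_apply, smul_eq_mul, Pi.zero_apply] at h3
    exact h3
  have h3 : r none = 0 := by
    have h4 := h2 c0
    rw [hx1, mul_one, Finset.sum_eq_zero fun i _ => by
      rw [(E i).map_one_eq_zero, mul_zero], add_zero] at h4
    exact h4
  rintro (_ | j)
  · exact h3
  · have h4 := h2 (l j)
    rw [h3, zero_mul, zero_add, Finset.sum_eq_single j] at h4
    · rwa [hE, if_pos rfl, mul_one] at h4
    · intro i _ hi
      rw [hE, if_neg hi, mul_zero]
    · intro h; exact absurd (Finset.mem_univ _) h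

end Pool.Agent.Y741
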