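import Pool.Agent.Y741.LVrd

/-!
The trichotomy, with vertical derivations.
-/

set_option autoImplicit false

open MvPolynomial FF Pool.Agent.W603.LV Pool.Agent.W603.PV Pool.Agent.TH145.GH
open Pool.Agent.Y735 (lf dt pl rho rho_deg eval_rho mem_Mx exists_ms_mt Good exists_pl fht line_basis)

namespace Pool.Agent.Y741

variable {K : Type} [Field K] {n : ℕ} {A X0 : Type}

section
variable [DecidableEq A] [Fintype A] {F : Fam K n A} [Fintype X0]
  {dg : A → ℕ} {D : A → (Fin (n + 1) →₀ ℕ) → Derivation ℤ K K} {E : X0 → Derivation ℤ K K}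
  [CharZero K]
  (hpos : ∀ a, 0 < dg a) (hF : ∀ a, (F a).IsHomogeneous (dg a))
  (hD : TH145.GC.Dual F dg D) (hFK : ∀ ξ a u, E ξ ((F a).coeff u) = 0)

include hpos hF hD hFK

/-- The trichotomy. -/
theorem tricho_E (hcm : Comm D) (hn : 1 ≤ n) (hX : 0 < Fintype.card X0)
    {C : Finset A} (hC : ∃ b, b ∉ C) (hd : 3 * n + 3 ≤ 2 * ∑ a, dg a + C.card)
    {x : Fin (n + 1) → K} (hxC : ∀ c ∈ C, eval x (F c) = 0)
    (hxb : ∀ b, b ∉ C → eval x (F b) ≠ 0) (hx0 : x ≠ 0)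
    (hind : Module.finrank K (Submodule.span K {x} ⊔ Ve E x : Submodule K (Fin (n + 1) → K)) =
      1 + Fintype.card X0) :
    (∃ (y : Fin (n + 1) → K) (ik : Fin (n + 1) × Fin (n + 1)), pl x y ik ≠ 0 ∧
      OnL F C x y ∧ One F dg C x y) ∨
    (∃ (w b u t : ℕ) (rn : RN n A (Fin w) (Fin b) (Fin u) (Fin t)) (y : Fin (n + 1) → K)
      (i0 : Fin (n + 1)) (ik : Fin (n + 1) × Fin (n + 1)), x i0 ≠ 0 ∧ pl x y ik ≠ 0 ∧
      VRE F dg D E C x y i0 ik rn ∧
      ((n + 1 + b + t + 1 ≤ ∑ a, dg a ∧ u ≤ t) ∨ (n + 1 + b + t ≤ ∑ a, dg a ∧ u < t))) := by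
  classical
  have hker := TC_finrank hF hD hxC hx0
  have hWle : WspE F D E x ≤ TC F C x := sup_le (Wsp_le hpos hF hD hxC) (Ve_le hFK hxC)
  have hwn := Submodule.finrank_mono hWle
  have hw1 : 1 + Fintype.card X0 ≤ Module.finrank K (WspE F D E x) := by
    rw [← hind]
    exact Submodule.finrank_mono (sup_le_sup_right le_sup_left _)
  obtain ⟨S, hS⟩ : ∃ S, S = ∑ a, dg a := ⟨_, rfl⟩
  obtain ⟨N, hN⟩ : ∃ N, N = Module.finrank K (TC F C x) := ⟨_, rfl⟩
  obtain ⟨w, hw⟩ : ∃ w, w = Module.finrank K (WspE F D E x) := ⟨_, rfl⟩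
  rw [← hS]
  rw [← hS] at hd
  rw [← hN] at hker
  rw [← hw, ← hN] at hwn
  rw [← hw] at hw1
  by_cases hG : Good (Bset D x dg) (TC F C x) (WspE F D E x)
  · rcases Nat.even_or_odd' (N - w) with ⟨p, hp | hp⟩
    · right
      obtain ⟨a, rn, y, i0, ik, hi0, hik, h⟩ := vre_even hpos hF hD hFK hn hxC hxb hx0 hind hG
        (p := p) (by rw [← hw]; omega)
      exact ⟨a, p, 0, 0, rn, y, i0, ik, hi0, hik, h, Or.inl ⟨by omega, by omega⟩⟩
    · right
      obtain ⟨a, rn, y, i0, ik, hi0, hik, h⟩ := vre_odd hpos hF hD hFK hxC hxb hx0 hind hG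
        (p := p) (by rw [← hw]; omega)
      exact ⟨a, p, 0, 1, rn, y, i0, ik, hi0, hik, h, Or.inl ⟨by omega, by omega⟩⟩
  · unfold Good at hG
    push Not at hG
    obtain ⟨φ, hφ0, hφ⟩ := hG
    obtain ⟨y, hy, ik, hik⟩ := exists_pl hx0 hφ0
    rw [← VlE_eq F dg D E hy, ← hN, ← hw] at hφ
    have hWV : w ≤ Module.finrank K (VlE F dg D E x y) := by
      rw [hw]
      exact Submodule.finrank_mono (WspE_le_VlE F dg D E x y)
    have hVV : Module.finrank K (Vl F dg D x y) ≤ Module.finrank K (VlE F dg D E x y) :=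
      Submodule.finrank_mono le_sup_left
    have hL := fun h1 h2 => on_line' hpos hF hD hcm hxC hxb hC hik h1 h2
    obtain ⟨v, hv⟩ : ∃ v, v = Module.finrank K (VlE F dg D E x y) := ⟨_, rfl⟩
    rw [← hv] at hφ hWV hVV
    rw [← hS] at hL
    by_cases h1 : S + C.card + v ≤ 2 * n + 1
    · exact Or.inl ⟨y, ik, hik, hL (by omega) (by omega)⟩
    · right
      obtain ⟨a, rn, i0, hi0, h⟩ := vre_line hpos hF hD hFK hxC hxb hik (j := v - w) (r := N - v)
        hind (by rw [← hw, ← hv]; omega)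
        (by rw [← hv]; omega)
      exact ⟨a, 0, v - w, N - v, rn, y, i0, ik, hi0, hik, h, Or.inr ⟨by omega, by omega⟩⟩

end

end Pool.Agent.Y741
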