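import Pool.Agent.Y741.VRD

/-!
The trichotomy.
-/

set_option autoImplicit false

open MvPolynomial FF Pool.Agent.W603.LV Pool.Agent.W603.PV Pool.Agent.TH145.GH
open Pool.Agent.Y735 (lf dt pl rho rho_deg eval_rho mem_Mx exists_ms_mt Good exists_pl fht line_basis)

namespace Pool.Agent.Y741

/-- A polynomial with one root. -/
theorem one_root {K : Type} [Field K] [CharZero K] {f : Polynomial K} {d : ℕ} {t0 : K}
    (hd : f.natDegree ≤ d)
    (h : (Polynomial.X - Polynomial.C t0) * Polynomial.derivative f = (d : Polynomial K) * f) :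
    f = Polynomial.C (f.coeff d) * (Polynomial.X - Polynomial.C t0) ^ d := by
  obtain ⟨g, hg⟩ : ∃ g, g = f.comp (Polynomial.X + Polynomial.C t0) := ⟨_, rfl⟩
  have h1 : Polynomial.X * Polynomial.derivative g = (d : Polynomial K) * g := by
    have h2 := congrArg (fun p => p.comp (Polynomial.X + Polynomial.C t0)) h
    simp only [Polynomial.mul_comp, Polynomial.sub_comp, Polynomial.X_comp, Polynomial.C_comp,
      add_sub_cancel_right, Polynomial.natCast_comp] at h2
    rw [hg, Polynomial.derivative_comp]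
    simp only [Polynomial.derivative_add, Polynomial.derivative_X, Polynomial.derivative_C,
      add_zero, one_mul]
    exact h2
  have h2 : ∀ i, i ≠ d → g.coeff i = 0 := by
    intro i hi
    have h3 := congrArg (fun p => p.coeff i) h1
    have h4 : (Polynomial.X * Polynomial.derivative g).coeff i = i * g.coeff i := by
      rcases i with _ | i
      · rw [Polynomial.coeff_X_mul_zero]
        simp
      · rw [Polynomial.coeff_X_mul, Polynomial.coeff_derivative]
        push_cast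
        ring
    have h5 : ((d : Polynomial K) * g).coeff i = d * g.coeff i := by
      rw [← Polynomial.C_eq_natCast, Polynomial.coeff_C_mul]
    rw [h4, h5] at h3
    have h6 : ((i : K) - d) * g.coeff i = 0 := by linear_combination h3
    refine (mul_eq_zero.1 h6).resolve_left (sub_ne_zero.2 ?_)
    exact_mod_cast hi
  have h3 : g = Polynomial.C (g.coeff d) * Polynomial.X ^ d := by
    ext i
    rw [Polynomial.coeff_C_mul, Polynomial.coeff_X_pow]
    split_ifs with h
    · rw [h, mul_one]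
    · rw [mul_zero, h2 i h]
  have h4 : f = g.comp (Polynomial.X - Polynomial.C t0) := by
    rw [hg, Polynomial.comp_assoc]
    simp
  have h5 : f = Polynomial.C (g.coeff d) * (Polynomial.X - Polynomial.C t0) ^ d := by
    conv_lhs => rw [h4, h3]
    rw [Polynomial.mul_comp, Polynomial.C_comp, Polynomial.pow_comp, Polynomial.X_comp]
  have h6 : f.coeff d = g.coeff d := by
    conv_lhs => rw [h5]
    rw [Polynomial.coeff_C_mul]
    have h7 : ((Polynomial.X - Polynomial.C t0) ^ d).coeff d = 1 := by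
      have h8 := (Polynomial.monic_X_sub_C t0).pow d
      have h9 : ((Polynomial.X - Polynomial.C t0) ^ d).natDegree = d := by
        rw [Polynomial.natDegree_pow, Polynomial.natDegree_X_sub_C, mul_one]
      have := h8.coeff_natDegree
      rwa [h9] at this
    rw [h7, mul_one]
  rw [h6]
  exact h5

variable {K : Type} [Field K] {n : ℕ} {A : Type}

/-- The boundary meets the line in one point. -/
def One (F : Fam K n A) (dg : A → ℕ) (C : Finset A) (x y : Fin (n + 1) → K) : Prop :=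
  ∃ t0 : K, ∀ b, b ∉ C → ∀ t : K, eval (t • x + y) (F b) = eval x (F b) * (t - t0) ^ dg b

section
variable [DecidableEq A] [Fintype A] {F : Fam K n A}
  {dg : A → ℕ} {D : A → (Fin (n + 1) →₀ ℕ) → Derivation ℤ K K} [CharZero K]
  (hpos : ∀ a, 0 < dg a) (hF : ∀ a, (F a).IsHomogeneous (dg a))
  (hD : TH145.GC.Dual F dg D)

include hpos hF hD

/-- The integrability. -/
theorem on_line' (hcm : Comm D) {C : Finset A}
    {x : Fin (n + 1) → K} (hxC : ∀ c ∈ C, eval x (F c) = 0)
    (hxb : ∀ b, b ∉ C → eval x (F b) ≠ 0) (hC : ∃ b, b ∉ C) {y : Fin (n + 1) → K}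
    {ik : Fin (n + 1) × Fin (n + 1)} (hik : pl x y ik ≠ 0)
    (hr : 2 * Module.finrank K (Vl F dg D x y) + 2 + C.card ≤
      Module.finrank K (Wsp F D x) + (n + 1))
    (hd : ∑ a, dg a + C.card + Module.finrank K (Vl F dg D x y) ≤ 2 * n + 1) :
    OnL F C x y ∧ One F dg C x y := by
  obtain ⟨ms, mt, h1, h2, h3, h4⟩ := exists_ms_mt hik
  have hL : LineData F dg D C x y ms mt :=
    ⟨hpos, hF, hD, hcm, hxC, hxb, h1, h2, h3, h4⟩
  refine ⟨fun c hc a b => ?_, ?_⟩
  · by_cases hb : b = 0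
    · rw [hb, zero_smul, add_zero, eval_smul_hom (hF c), hxC c hc, mul_zero]
    · have h5 : a • x + b • y = b • ((a / b) • x + y) := by
        rw [smul_add, smul_smul, mul_div_cancel₀ _ hb]
      rw [h5, eval_smul_hom (hF c), ← eval_rho, hL.line_zero hr hd hC hc,
        Polynomial.eval_zero, mul_zero]
  · obtain ⟨t0, h5⟩ := hL.line_one hr hd hC
    refine ⟨t0, fun b hb t => ?_⟩
    have h6 := one_root (rho_deg x y (hF b)) (h5 b hb)
    rw [rho_coeff hL.x_ne hL.sx hL.sy (hF b)] at h6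
    rw [← eval_rho, h6, Polynomial.eval_mul, Polynomial.eval_C, Polynomial.eval_pow,
      Polynomial.eval_sub, Polynomial.eval_X, Polynomial.eval_C]

/-- The trichotomy. -/
theorem tricho (hcm : Comm D) (hn : 1 ≤ n)
    {C : Finset A} (hC : ∃ b, b ∉ C) (hd : 3 * n + 3 ≤ 2 * ∑ a, dg a + C.card)
    {x : Fin (n + 1) → K} (hxC : ∀ c ∈ C, eval x (F c) = 0)
    (hxb : ∀ b, b ∉ C → eval x (F b) ≠ 0) (hx0 : x ≠ 0) :
    (∃ (y : Fin (n + 1) → K) (ik : Fin (n + 1) × Fin (n + 1)), pl x y ik ≠ 0 ∧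
      OnL F C x y ∧ One F dg C x y) ∨
    (∃ (w b u t : ℕ) (rn : RN n A (Fin w) (Fin b) (Fin u) (Fin t)) (y : Fin (n + 1) → K)
      (i0 : Fin (n + 1)) (ik : Fin (n + 1) × Fin (n + 1)), x i0 ≠ 0 ∧ pl x y ik ≠ 0 ∧
      VRD F dg D C x y i0 ik rn ∧
      ((u = 0 ∧ t = 0 ∧ n + 1 + b + 1 ≤ ∑ a, dg a) ∨ (n + 1 + b + t ≤ ∑ a, dg a ∧ u < t))) := by
  classical
  have hker := TC_finrank hF hD hxC hx0
  have hWle := Wsp_le hpos hF hD hxC
  have hwn := Submodule.finrank_mono hWle
  have hw1 : 1 ≤ Module.finrank K (Wsp F D x) :=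
    (finrank_span_singleton (K := K) hx0).symm.le.trans (Submodule.finrank_mono le_sup_left)
  obtain ⟨S, hS⟩ : ∃ S, S = ∑ a, dg a := ⟨_, rfl⟩
  obtain ⟨N, hN⟩ : ∃ N, N = Module.finrank K (TC F C x) := ⟨_, rfl⟩
  obtain ⟨w, hw⟩ : ∃ w, w = Module.finrank K (Wsp F D x) := ⟨_, rfl⟩
  rw [← hS]
  rw [← hS] at hd
  rw [← hN] at hker
  rw [← hw, ← hN] at hwn
  rw [← hw] at hw1
  by_cases hG : Good (Bset D x dg) (TC F C x) (Wsp F D x)
  · rcases Nat.even_or_odd' (N - w) with ⟨p, hp | hp⟩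
    · right
      obtain ⟨a, rn, y, i0, ik, hi0, hik, h⟩ := vrd_even hpos hF hD hn hxC hxb hx0 hG (p := p)
        (by rw [← hw]; omega)
      exact ⟨a, p, 0, 0, rn, y, i0, ik, hi0, hik, h, Or.inl ⟨rfl, rfl, by omega⟩⟩
    · right
      obtain ⟨a, rn, y, i0, ik, hi0, hik, h⟩ := vrd_odd hpos hF hD hxC hxb hx0 hG (p := p)
        (by rw [← hw]; omega)
      exact ⟨a, p, 0, 1, rn, y, i0, ik, hi0, hik, h, Or.inr ⟨by omega, by omega⟩⟩
  · unfold Good at hG
    push Not at hG
    obtain ⟨φ, hφ0, hφ⟩ := hG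
    obtain ⟨y, hy, ik, hik⟩ := exists_pl hx0 hφ0
    rw [← Vl_eq F dg D hy, ← hN, ← hw] at hφ
    have hWV : w ≤ Module.finrank K (Vl F dg D x y) := by
      rw [hw]
      exact Submodule.finrank_mono le_sup_left
    have hL := fun h1 h2 => on_line' hpos hF hD hcm hxC hxb hC hik h1 h2
    obtain ⟨v, hv⟩ : ∃ v, v = Module.finrank K (Vl F dg D x y) := ⟨_, rfl⟩
    rw [← hv] at hφ hWV
    rw [← hv, ← hw, ← hS] at hL
    by_cases h1 : S + C.card + v ≤ 2 * n + 1
    · exact Or.inl ⟨y, ik, hik, hL (by omega) h1⟩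
    · right
      obtain ⟨a, rn, i0, hi0, h⟩ := vrd_line hpos hF hD hxC hxb hik (j := v - w) (r := N - v)
        (by rw [← hw, ← hv]; omega)
        (by rw [← hv]; omega)
      exact ⟨a, 0, v - w, N - v, rn, y, i0, ik, hi0, hik, h, Or.inr ⟨by omega, by omega⟩⟩

end

end Pool.Agent.Y741
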