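import Pool.Agent.Y741.LForm
import Pool.Agent.Y741.Tri

/-!
The choice of the rows, with vertical derivations.
-/

set_option autoImplicit false

open MvPolynomial FF Pool.Agent.W603.LV Pool.Agent.W603.PV Pool.Agent.TH145.GH
open Pool.Agent.Y735 (lf pm tm pl Good exists_pl fht Mx mem_Mx exists_pairs pmx span_pmx imB imB_le
  compl_one pm_x pm_y sel span_tm sum_tm)

namespace Pool.Agent.Y741

variable {K : Type} [Field K] {n : ℕ} {A X0 W B U T : Type} [DecidableEq A] [Fintype A]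

/-- A valid choice of the rows. -/
structure VRE [Fintype X0] [Fintype W] [Fintype B] [Fintype U] [Fintype T] (F : Fam K n A)
    (dg : A → ℕ) (D : A → (Fin (n + 1) →₀ ℕ) → Derivation ℤ K K) (E : X0 → Derivation ℤ K K)
    (C : Finset A) (x y : Fin (n + 1) → K)
    (i0 : Fin (n + 1)) (ik : Fin (n + 1) × Fin (n + 1)) (rn : RN n A W B U T) : Prop where
  PB : ∀ b a, (rn.PB b a).IsHomogeneous (dg a - 1)
  PU : ∀ b a, (rn.PU b a).IsHomogeneous (dg a - 1)
  PT : ∀ b a, (rn.PT b a).IsHomogeneous (dg a - 1)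
  hT : ∀ t m, ∑ l, m l * x l = 0 → ∑ l, m l * y l = 0 → vq D x (nf K (rn.PT t)) m ∈
      Submodule.span K (rowE F dg D E C x y i0 ik (rn.rd K) '' {l | rk l < 2})
  card : C.card + 1 + (Fintype.card X0 + Fintype.card W) + 2 * Fintype.card B + Fintype.card U +
      Fintype.card T = n + 1
  span : TC F C x ≤ Submodule.span K (rowE F dg D E C x y i0 ik (rn.rd K) '' {l | rk l < 3})

/-- The vertical vectors. -/
noncomputable def Ve (E : X0 → Derivation ℤ K K) (x : Fin (n + 1) → K) :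
    Submodule K (Fin (n + 1) → K) := Submodule.span K (Set.range fun ξ l => E ξ (x l))

/-- The space of the vectors of the linear group and of the vertical vectors. -/
noncomputable def WspE (F : Fam K n A) (D : A → (Fin (n + 1) →₀ ℕ) → Derivation ℤ K K)
    (E : X0 → Derivation ℤ K K) (x : Fin (n + 1) → K) : Submodule K (Fin (n + 1) → K) :=
  Wsp F D x ⊔ Ve E x

/-- The space of the forms that vanish on the line and of the vertical vectors. -/
noncomputable def VlE (F : Fam K n A) (dg : A → ℕ)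
    (D : A → (Fin (n + 1) →₀ ℕ) → Derivation ℤ K K) (E : X0 → Derivation ℤ K K)
    (x y : Fin (n + 1) → K) : Submodule K (Fin (n + 1) → K) :=
  Vl F dg D x y ⊔ Ve E x

theorem VlE_eq (F : Fam K n A) (dg : A → ℕ) (D : A → (Fin (n + 1) →₀ ℕ) → Derivation ℤ K K)
    (E : X0 → Derivation ℤ K K) {x y : Fin (n + 1) → K}
    {φ : Mx x →ₗ[K] K} (hφ : ∀ m : Mx x, φ m = ∑ l, (m : Fin (n + 1) → K) l * y l) :
    VlE F dg D E x y = imB (Bset D x dg) (LinearMap.ker φ) ⊔ WspE F D E x := by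
  unfold VlE WspE
  rw [Vl_eq F dg D hφ, sup_assoc]

theorem WspE_le_VlE (F : Fam K n A) (dg : A → ℕ) (D : A → (Fin (n + 1) →₀ ℕ) → Derivation ℤ K K)
    (E : X0 → Derivation ℤ K K) (x y : Fin (n + 1) → K) : WspE F D E x ≤ VlE F dg D E x y :=
  sup_le_sup_right le_sup_left _

section

variable {F : Fam K n A} {dg : A → ℕ} {D : A → (Fin (n + 1) →₀ ℕ) → Derivation ℤ K K}
  {E : X0 → Derivation ℤ K K}

omit [DecidableEq A] [Fintype A] in
theorem Ve_le (hFK : ∀ ξ a u, E ξ ((F a).coeff u) = 0) {C : Finset A} {x : Fin (n + 1) → K}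
    (hx : ∀ c ∈ C, eval x (F c) = 0) : Ve E x ≤ TC F C x := by
  unfold Ve
  rw [Submodule.span_le]
  rintro _ ⟨ξ, rfl⟩ c hc
  have h1 := Pool.Agent.TH145.GE.dF_ev (E := E ξ) (G := F c) (hFK ξ c) x
  change dF (F c) x (Pool.Agent.TH145.GE.ev (E ξ) x) = 0
  rw [h1, hx c hc, map_zero]

/-- The choice of the vectors of the linear group. -/
theorem exists_waE [Fintype X0] (F : Fam K n A) (D : A → (Fin (n + 1) →₀ ℕ) → Derivation ℤ K K)
    (E : X0 → Derivation ℤ K K) {x : Fin (n + 1) → K}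
    (hind : Module.finrank K (Submodule.span K {x} ⊔ Ve E x : Submodule K (Fin (n + 1) → K)) =
      1 + Fintype.card X0) :
    ∃ (a : ℕ) (v : Fin a → (Fin (n + 1) × Fin (n + 1)) ⊕ A),
      1 + Fintype.card X0 + a = Module.finrank K (WspE F D E x) ∧
      WspE F D E x = Submodule.span K {x} ⊔ Ve E x ⊔
        Submodule.span K (Set.range (ww F D x ∘ v)) := by
  have h0 : WspE F D E x = Submodule.span K {x} ⊔ Ve E x ⊔
      Submodule.span K (Set.range (ww F D x)) := by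
    unfold WspE Wsp
    rw [sup_assoc, sup_comm (Submodule.span K (Set.range (ww F D x))), ← sup_assoc]
  have h2 : Module.finrank K (Submodule.span K {x} ⊔ Ve E x : Submodule K (Fin (n + 1) → K)) ≤
      Module.finrank K (WspE F D E x) := by
    rw [h0]
    exact Submodule.finrank_mono le_sup_left
  obtain ⟨v, hv⟩ := sel (ww F D x) (Module.finrank K (WspE F D E x) - (1 + Fintype.card X0))
    (Submodule.span K {x} ⊔ Ve E x) (by
    rw [← h0]
    omega)
  exact ⟨_, v, by omega, h0.trans hv.symm⟩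

/-- The rows of the first two types. -/
theorem WspE_le_rows (F : Fam K n A) (dg : A → ℕ)
    (D : A → (Fin (n + 1) →₀ ℕ) → Derivation ℤ K K) (E : X0 → Derivation ℤ K K) (C : Finset A)
    (x y : Fin (n + 1) → K)
    (i0 : Fin (n + 1)) (ik : Fin (n + 1) × Fin (n + 1)) (rd : RD K n A W B U T)
    (h : WspE F D E x = Submodule.span K {x} ⊔ Ve E x ⊔
      Submodule.span K (Set.range (ww F D x ∘ rd.wa))) :
    WspE F D E x ≤ Submodule.span K (rowE F dg D E C x y i0 ik rd '' {l | rk l < 2}) := by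
  rw [h]
  refine sup_le (sup_le ?_ ?_) ?_
  · rw [Submodule.span_le, Set.singleton_subset_iff]
    exact Submodule.subset_span ⟨Sum.inr none, by simp [rk], rfl⟩
  · unfold Ve
    rw [Submodule.span_le]
    rintro _ ⟨ξ, rfl⟩
    exact Submodule.subset_span ⟨Sum.inr (some (Sum.inl (Sum.inl ξ))), by simp [rk], rfl⟩
  · rw [Submodule.span_le]
    rintro _ ⟨a, rfl⟩
    exact Submodule.subset_span ⟨Sum.inr (some (Sum.inl (Sum.inr a))), by simp [rk], rfl⟩

end

section cases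

variable {F : Fam K n A} {dg : A → ℕ} {D : A → (Fin (n + 1) →₀ ℕ) → Derivation ℤ K K}
  {E : X0 → Derivation ℤ K K} [Fintype X0]
  [Infinite K] (hpos : ∀ a, 0 < dg a) (hF : ∀ a, (F a).IsHomogeneous (dg a))
  (hD : TH145.GC.Dual F dg D) (hFK : ∀ ξ a u, E ξ ((F a).coeff u) = 0)

include hpos hF hD hFK

/-- The first case, even. -/
theorem vre_even (hn : 1 ≤ n) {C : Finset A} {x : Fin (n + 1) → K}
    (hxC : ∀ c ∈ C, eval x (F c) = 0) (hxb : ∀ b, b ∉ C → eval x (F b) ≠ 0) (hx0 : x ≠ 0)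
    (hind : Module.finrank K (Submodule.span K {x} ⊔ Ve E x : Submodule K (Fin (n + 1) → K)) =
      1 + Fintype.card X0)
    (hG : Good (Bset D x dg) (TC F C x) (WspE F D E x)) {p : ℕ}
    (hp : C.card + Module.finrank K (WspE F D E x) + 2 * p = n + 1) :
    ∃ (w : ℕ) (rn : RN n A (Fin w) (Fin p) (Fin 0) (Fin 0)) (y : Fin (n + 1) → K)
      (i0 : Fin (n + 1)) (ik : Fin (n + 1) × Fin (n + 1)), x i0 ≠ 0 ∧ pl x y ik ≠ 0 ∧
      VRE F dg D E C x y i0 ik rn := by
  classical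
  obtain ⟨i0, hi0⟩ := Function.ne_iff.1 hx0
  have hi0' : x i0 ≠ 0 := hi0
  have hker := TC_finrank hF hD hxC hx0
  have him := im_top hpos hF hD hxC hxb hx0
  have hWE : WspE F D E x ≤ TC F C x := sup_le (Wsp_le hpos hF hD hxC) (Ve_le hFK hxC)
  have himE : imB (Bset D x dg) ⊤ ⊔ WspE F D E x = TC F C x := by
    unfold WspE
    rw [← sup_assoc, him, sup_eq_left]
    exact Ve_le hFK hxC
  obtain ⟨a, v, ha, hv⟩ := exists_waE F D E hind
  obtain ⟨b, i, j, hb, hfin⟩ := exists_pairs (pmx x i0) (span_pmx hi0') (Bset D x dg)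
    (TC F C x) p (WspE F D E x) himE hG
    (by omega)
  choose Q hQ hbQ using fun a => mem_Bset.1 (hb a)
  choose Q0 hQ0 hQQ using fun a => exists_nf (hQ a)
  -- a second point
  obtain ⟨y, ik, hik⟩ : ∃ (y : Fin (n + 1) → K) (ik : Fin (n + 1) × Fin (n + 1)),
      pl x y ik ≠ 0 := by
    obtain ⟨l, hl⟩ : ∃ l, l ≠ i0 := by
      have : Nontrivial (Fin (n + 1)) := Fin.nontrivial_iff_two_le.2 (by omega)
      exact exists_ne i0
    refine ⟨Pi.single l 1, (i0, l), ?_⟩
    simp only [pl, Pi.single_eq_same, mul_one]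
    rw [Pi.single_eq_of_ne hl.symm, mul_zero, sub_zero]
    exact hi0'
  obtain ⟨rn, hrn⟩ : ∃ rn : RN n A (Fin a) (Fin p) (Fin 0) (Fin 0),
      rn = ⟨v, Q0, i, j, fun e => e.elim0, fun e => e.elim0, fun e => e.elim0⟩ := ⟨_, rfl⟩
  have hwa : (rn.rd K).wa = v := by rw [hrn]; rfl
  have hPB : (rn.rd K).PB = Q := by rw [hrn]; exact funext hQQ
  have hjb : (rn.rd K).jb = i := by rw [hrn]; rfl
  have hlb : (rn.rd K).lb = j := by rw [hrn]; rfl
  have h23 : Submodule.span K (rowE F dg D E C x y i0 ik (rn.rd K) '' {l | rk l < 2}) ≤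
      Submodule.span K (rowE F dg D E C x y i0 ik (rn.rd K) '' {l | rk l < 3}) :=
    Submodule.span_mono (Set.image_mono fun l (hl : rk l < 2) => (by omega : rk l < 3))
  have hW := WspE_le_rows F dg D E C x y i0 ik (rn.rd K) (by rw [hwa]; exact hv)
  refine ⟨a, rn, y, i0, ik, hi0', hik, fun b => ?_, fun b => b.elim0, fun b => b.elim0,
    fun b => b.elim0, ?_, ?_⟩
  · rw [hrn]
    exact hQ0 b
  · rw [Fintype.card_fin, Fintype.card_fin, Fintype.card_fin]
    omega
  · have h2 : WspE F D E x ⊔ Submodule.span K (Set.range (fun a => b a (pmx x i0 (i a))) ∪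
        Set.range (fun a => b a (pmx x i0 (j a)))) = TC F C x := by
      refine Submodule.eq_of_le_of_finrank_eq ?_ (by rw [hfin]; omega)
      refine sup_le hWE ?_
      rw [Submodule.span_le]
      rintro _ (⟨a, rfl⟩ | ⟨a, rfl⟩)
      · dsimp only
        rw [hbQ a]
        exact vq_mem_TC hpos hF hD hxC (hQ a).1 (mem_Mx.1 (pmx x i0 (i a)).2)
      · dsimp only
        rw [hbQ a]
        exact vq_mem_TC hpos hF hD hxC (hQ a).1 (mem_Mx.1 (pmx x i0 (j a)).2)
    rw [← h2]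
    refine sup_le (hW.trans h23) ?_
    rw [Submodule.span_le]
    rintro _ (⟨a, rfl⟩ | ⟨a, rfl⟩)
    · dsimp only
      rw [hbQ a]
      refine Submodule.subset_span ⟨Sum.inr (some (Sum.inr (Sum.inl (Sum.inl a)))), by simp [rk], ?_⟩
      change vq D x ((rn.rd K).PB a) (pm x i0 ((rn.rd K).jb a)) = _
      rw [hPB, hjb]
      rfl
    · dsimp only
      rw [hbQ a]
      refine Submodule.subset_span ⟨Sum.inr (some (Sum.inr (Sum.inl (Sum.inr a)))), by simp [rk], ?_⟩
      change vq D x ((rn.rd K).PB a) (pm x i0 ((rn.rd K).lb a)) = _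
      rw [hPB, hlb]
      rfl

/-- The first case, odd. -/
theorem vre_odd {C : Finset A} {x : Fin (n + 1) → K}
    (hxC : ∀ c ∈ C, eval x (F c) = 0) (hxb : ∀ b, b ∉ C → eval x (F b) ≠ 0) (hx0 : x ≠ 0)
    (hind : Module.finrank K (Submodule.span K {x} ⊔ Ve E x : Submodule K (Fin (n + 1) → K)) =
      1 + Fintype.card X0)
    (hG : Good (Bset D x dg) (TC F C x) (WspE F D E x)) {p : ℕ}
    (hp : C.card + Module.finrank K (WspE F D E x) + 2 * p + 1 = n + 1) :
    ∃ (w : ℕ) (rn : RN n A (Fin w) (Fin p) (Fin 0) (Fin 1)) (y : Fin (n + 1) → K)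
      (i0 : Fin (n + 1)) (ik : Fin (n + 1) × Fin (n + 1)), x i0 ≠ 0 ∧ pl x y ik ≠ 0 ∧
      VRE F dg D E C x y i0 ik rn := by
  classical
  obtain ⟨i0, hi0⟩ := Function.ne_iff.1 hx0
  have hi0' : x i0 ≠ 0 := hi0
  have hker := TC_finrank hF hD hxC hx0
  obtain ⟨a, v, ha, hv⟩ := exists_waE F D E hind
  have him := im_top hpos hF hD hxC hxb hx0
  have hWE : WspE F D E x ≤ TC F C x := sup_le (Wsp_le hpos hF hD hxC) (Ve_le hFK hxC)
  have himE : imB (Bset D x dg) ⊤ ⊔ WspE F D E x = TC F C x := by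
    unfold WspE
    rw [← sup_assoc, him, sup_eq_left]
    exact Ve_le hFK hxC
  obtain ⟨b, i, j, hb, hfin⟩ := exists_pairs (pmx x i0) (span_pmx hi0') (Bset D x dg)
    (TC F C x) p (WspE F D E x) himE hG (by omega)
  choose Q hQ hbQ using fun a => mem_Bset.1 (hb a)
  choose Q0 hQ0 hQQ using fun a => exists_nf (hQ a)
  obtain ⟨D', hD'⟩ : ∃ D', D' = WspE F D E x ⊔ Submodule.span K
    (Set.range (fun a => b a (pmx x i0 (i a))) ∪
          Set.range (fun a => b a (pmx x i0 (j a)))) := ⟨_, rfl⟩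
  rw [← hD'] at hfin
  have hD'T : D' ≤ TC F C x := by
    rw [hD']
    refine sup_le hWE ?_
    rw [Submodule.span_le]
    rintro _ (⟨a, rfl⟩ | ⟨a, rfl⟩)
    · dsimp only
      rw [hbQ a]
      exact vq_mem_TC hpos hF hD hxC (hQ a).1 (mem_Mx.1 (pmx x i0 (i a)).2)
    · dsimp only
      rw [hbQ a]
      exact vq_mem_TC hpos hF hD hxC (hQ a).1 (mem_Mx.1 (pmx x i0 (j a)).2)
  -- the last vector
  obtain ⟨Q1, hQ1, m0, hm0⟩ : ∃ Q0 ∈ CS K n dg, ∃ m : Mx x, bmap D x Q0 m ∉ D' := by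
    by_contra hcon
    push Not at hcon
    have h1 : TC F C x ≤ D' := by
      rw [← himE]
      refine sup_le (imB_le ?_) (by rw [hD']; exact le_sup_left)
      rintro b ⟨Q, hQ, rfl⟩ m -
      exact hcon Q hQ m
    have := Submodule.finrank_mono h1
    omega
  have hmemT : ∀ m : Mx x, bmap D x Q1 m ∈ TC F C x := fun m =>
    vq_mem_TC hpos hF hD hxC hQ1.1 (mem_Mx.1 m.2)
  obtain ⟨ψ, hψ0, hψ⟩ := Submodule.exists_dual_map_eq_bot_of_notMem hm0 inferInstance
  have hψD : ∀ z ∈ D', ψ z = 0 := by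
    intro z hz
    have h1 : ψ z ∈ D'.map ψ := Submodule.mem_map_of_mem hz
    rw [hψ] at h1
    exact (Submodule.mem_bot K).1 h1
  obtain ⟨φ, hφ⟩ : ∃ φ : Mx x →ₗ[K] K, ∀ m, φ m = ψ (bmap D x Q1 m) :=
    ⟨ψ ∘ₗ bmap D x Q1, fun _ => rfl⟩
  have hφ0 : φ ≠ 0 := by
    intro h0
    apply hψ0
    rw [← hφ, h0, LinearMap.zero_apply]
  have hφker : ∀ m, φ m = 0 → bmap D x Q1 m ∈ D' := by
    intro m hm
    have h1 := compl_one hD'T (by omega) (hmemT m0) hm0
    have h2 := hmemT m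
    rw [← h1] at h2
    obtain ⟨z, hz, w, hw, hzw⟩ := Submodule.mem_sup.1 h2
    obtain ⟨c, rfl⟩ := Submodule.mem_span_singleton.1 hw
    rw [hφ, ← hzw, map_add, hψD z hz, zero_add, map_smul, smul_eq_mul] at hm
    rcases mul_eq_zero.1 hm with h3 | h3
    · rw [← hzw, h3, zero_smul, add_zero]; exact hz
    · exact absurd h3 hψ0
  obtain ⟨y, hy, ik, hik⟩ := exists_pl hx0 hφ0
  obtain ⟨Q2, hQ2, hQ21⟩ := exists_nf hQ1
  obtain ⟨rn, hrn⟩ : ∃ rn : RN n A (Fin a) (Fin p) (Fin 0) (Fin 1),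
      rn = ⟨v, Q0, i, j, fun e => e.elim0, fun e => e.elim0, fun _ => Q2⟩ := ⟨_, rfl⟩
  have hwa : (rn.rd K).wa = v := by rw [hrn]; rfl
  have hPB : (rn.rd K).PB = Q := by rw [hrn]; exact funext hQQ
  have hjb : (rn.rd K).jb = i := by rw [hrn]; rfl
  have hlb : (rn.rd K).lb = j := by rw [hrn]; rfl
  have hPT : ∀ t, nf K (rn.PT t) = Q1 := fun t => by rw [hrn]; exact hQ21
  have h23 : Submodule.span K (rowE F dg D E C x y i0 ik (rn.rd K) '' {l | rk l < 2}) ≤
      Submodule.span K (rowE F dg D E C x y i0 ik (rn.rd K) '' {l | rk l < 3}) :=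
    Submodule.span_mono (Set.image_mono fun l (hl : rk l < 2) => (by omega : rk l < 3))
  have hW := WspE_le_rows F dg D E C x y i0 ik (rn.rd K) (by rw [hwa]; exact hv)
  have hD'row : D' ≤ Submodule.span K
      (rowE F dg D E C x y i0 ik (rn.rd K) '' {l | rk l < 2}) := by
    rw [hD']
    refine sup_le hW ?_
    rw [Submodule.span_le]
    rintro _ (⟨a, rfl⟩ | ⟨a, rfl⟩)
    · dsimp only
      rw [hbQ a]
      refine Submodule.subset_span ⟨Sum.inr (some (Sum.inr (Sum.inl (Sum.inl a)))), by simp [rk], ?_⟩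
      change vq D x ((rn.rd K).PB a) (pm x i0 ((rn.rd K).jb a)) = _
      rw [hPB, hjb]
      rfl
    · dsimp only
      rw [hbQ a]
      refine Submodule.subset_span ⟨Sum.inr (some (Sum.inr (Sum.inl (Sum.inr a)))), by simp [rk], ?_⟩
      change vq D x ((rn.rd K).PB a) (pm x i0 ((rn.rd K).lb a)) = _
      rw [hPB, hlb]
      rfl
  refine ⟨a, rn, y, i0, ik, hi0', hik, fun b => ?_, fun b => b.elim0, fun b => ?_,
    fun t m hmx hmy => ?_, ?_, ?_⟩
  · rw [hrn]; exact hQ0 b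
  · rw [hrn]; exact hQ2
  · refine hD'row ?_
    rw [hPT]
    exact hφker ⟨m, mem_Mx.2 hmx⟩ (by rw [hy]; exact hmy)
  · rw [Fintype.card_fin, Fintype.card_fin, Fintype.card_fin, Fintype.card_fin]
    omega
  · obtain ⟨m1, hm1⟩ : ∃ m1 : Mx x, (m1 : Fin (n + 1) → K) =
      (pl x y ik)⁻¹ • pm x ik.1 ik.2 := ⟨⟨_, mem_Mx.2 (pm_x x y ik)⟩, rfl⟩
    have hφ1 : φ m1 = 1 := by rw [hy, hm1, pm_y x y hik]
    have h2 : bmap D x Q1 m1 ∉ D' := by
      intro h2
      have h3 := hψD _ h2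
      rw [← hφ, hφ1] at h3
      exact one_ne_zero h3
    rw [← compl_one hD'T (by omega) (hmemT m1) h2]
    refine sup_le (hD'row.trans h23) ?_
    rw [Submodule.span_le, Set.singleton_subset_iff]
    refine Submodule.subset_span ⟨Sum.inr (some (Sum.inr (Sum.inr (Sum.inr 0)))), by simp [rk], ?_⟩
    change vq D x (nf K (rn.PT 0)) ((pl x y ik)⁻¹ • pm x ik.1 ik.2) = _
    rw [bmap_apply, hm1, hPT]

/-- The second case. -/
theorem vre_line {C : Finset A} {x : Fin (n + 1) → K}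
    (hxC : ∀ c ∈ C, eval x (F c) = 0) (hxb : ∀ b, b ∉ C → eval x (F b) ≠ 0)
    {y : Fin (n + 1) → K} {ik : Fin (n + 1) × Fin (n + 1)} (hik : pl x y ik ≠ 0) {j r : ℕ}
    (hind : Module.finrank K (Submodule.span K {x} ⊔ Ve E x : Submodule K (Fin (n + 1) → K)) =
      1 + Fintype.card X0)
    (hj : Module.finrank K (WspE F D E x) + j = Module.finrank K (VlE F dg D E x y))
    (hr : C.card + Module.finrank K (VlE F dg D E x y) + r = n + 1) :
    ∃ (w : ℕ) (rn : RN n A (Fin w) (Fin 0) (Fin j) (Fin r)) (i0 : Fin (n + 1)), x i0 ≠ 0 ∧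
      VRE F dg D E C x y i0 ik rn := by
  classical
  have hx0 : x ≠ 0 := by
    rintro rfl
    apply hik
    simp [pl]
  obtain ⟨i0, hi0⟩ := Function.ne_iff.1 hx0
  have hi0' : x i0 ≠ 0 := hi0
  have hker := TC_finrank hF hD hxC hx0
  obtain ⟨a, v, ha, hv⟩ := exists_waE F D E hind
  have him := im_top hpos hF hD hxC hxb hx0
  have hWE : WspE F D E x ≤ TC F C x := sup_le (Wsp_le hpos hF hD hxC) (Ve_le hFK hxC)
  have himE : imB (Bset D x dg) ⊤ ⊔ WspE F D E x = TC F C x := by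
    unfold WspE
    rw [← sup_assoc, him, sup_eq_left]
    exact Ve_le hFK hxC
  -- the forms that vanish on the line
  obtain ⟨w1, hw1⟩ : ∃ w1 : CS K n dg × Fin (n + 1) × Fin (n + 1) × Fin (n + 1) →
      Fin (n + 1) → K, ∀ q, w1 q = vq D x (q.1 : Fam K n A) (tm (pl x y) q.2) := ⟨_, fun _ => rfl⟩
  have hV1 : WspE F D E x ⊔ Submodule.span K (Set.range w1) = VlE F dg D E x y := by
    have h0 : VlE F dg D E x y = WspE F D E x ⊔ Submodule.span K
        {v | ∃ (Q : Fam K n A) (m : Fin (n + 1) → K),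
          (∀ a, (Q a).IsHomogeneous (dg a - 1)) ∧ ∑ l, m l * x l = 0 ∧ ∑ l, m l * y l = 0 ∧
            v = vq D x Q m} := by
      unfold VlE WspE Vl
      rw [sup_assoc, sup_comm (Submodule.span K {v | _}), ← sup_assoc]
    rw [h0]
    refine le_antisymm (sup_le le_sup_left ?_) (sup_le le_sup_left ?_)
    · rw [Submodule.span_le]
      rintro _ ⟨q, rfl⟩
      rw [hw1]
      exact Submodule.mem_sup_right (Submodule.subset_span
        ⟨_, _, q.1.2.1, (sum_tm x y _).1, (sum_tm x y _).2, rfl⟩)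
    · rw [Submodule.span_le]
      rintro _ ⟨Q, m, hQ, hmx, hmy, rfl⟩
      refine vq_mem_of_nat D x _ (fun Q' hQ' => Submodule.mem_sup_right ?_) hQ
      rw [span_tm hik hmx hmy, map_sum]
      refine sum_mem fun c _ => ?_
      rw [map_smul]
      refine Submodule.smul_mem _ _ (Submodule.subset_span ⟨(⟨Q', hQ'⟩, (ik.1, ik.2, c)), ?_⟩)
      rw [hw1]
  obtain ⟨v1, hv1⟩ := sel w1 j (WspE F D E x) (by rw [hV1, hj])
  rw [hV1] at hv1
  -- the other forms
  obtain ⟨w2, hw2⟩ : ∃ w2 : CS K n dg → Fin (n + 1) → K,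
      ∀ q, w2 q = vq D x (q : Fam K n A) ((pl x y ik)⁻¹ • pm x ik.1 ik.2) := ⟨_, fun _ => rfl⟩
  have hV2 : VlE F dg D E x y ⊔ Submodule.span K (Set.range w2) = TC F C x := by
    refine le_antisymm (sup_le (sup_le (sup_le (Wsp_le hpos hF hD hxC) ?_) (Ve_le hFK hxC)) ?_) ?_
    · rw [Submodule.span_le]
      rintro _ ⟨Q, m, hQ, hmx, hmy, rfl⟩
      exact vq_mem_TC hpos hF hD hxC hQ hmx
    · rw [Submodule.span_le]
      rintro _ ⟨q, rfl⟩
      rw [hw2]
      exact vq_mem_TC hpos hF hD hxC q.2.1 (pm_x x y ik)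
    · rw [← him]
      refine sup_le (imB_le ?_) (le_sup_left.trans (le_sup_left.trans le_sup_left))
      rintro b ⟨Q, hQ, rfl⟩ m -
      have hmx := mem_Mx.1 m.2
      obtain ⟨s, hs⟩ : ∃ s, s = ∑ l, (m : Fin (n + 1) → K) l * y l := ⟨_, rfl⟩
      have h1 : (m : Fin (n + 1) → K) = s • ((pl x y ik)⁻¹ • pm x ik.1 ik.2) +
          ((m : Fin (n + 1) → K) - s • ((pl x y ik)⁻¹ • pm x ik.1 ik.2)) := by abel
      rw [bmap_apply, h1, map_add, map_smul]
      refine add_mem (Submodule.mem_sup_right (Submodule.smul_mem _ _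
        (Submodule.subset_span ⟨⟨Q, hQ⟩, hw2 _⟩))) (Submodule.mem_sup_left
        (Submodule.mem_sup_left (Submodule.mem_sup_right
          (Submodule.subset_span ⟨Q, _, hQ.1, ?_, ?_, rfl⟩))))
      · simp only [Pi.sub_apply, sub_mul, Finset.sum_sub_distrib]
        rw [hmx, zero_sub, neg_eq_zero]
        have h2 := pm_x x y ik
        simp only [Pi.smul_apply s, smul_eq_mul, mul_assoc] at h2 ⊢
        rw [← Finset.mul_sum]
        simp only [Pi.smul_apply, smul_eq_mul, mul_assoc] at h2 ⊢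
        rw [h2, mul_zero]
      · simp only [Pi.sub_apply, sub_mul, Finset.sum_sub_distrib]
        rw [← hs, sub_eq_zero]
        have h2 := pm_y x y hik
        simp only [Pi.smul_apply s, smul_eq_mul, mul_assoc] at h2 ⊢
        rw [← Finset.mul_sum]
        simp only [Pi.smul_apply, smul_eq_mul, mul_assoc] at h2 ⊢
        rw [h2, mul_one]
  obtain ⟨v2, hv2⟩ := sel w2 r (VlE F dg D E x y) (by rw [hV2]; omega)
  rw [hV2] at hv2
  choose Q1 hQ1 hQ11 using fun u => exists_nf (v1 u).1.2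
  choose Q2 hQ2 hQ22 using fun t => exists_nf (v2 t).2
  obtain ⟨rn, hrn⟩ : ∃ rn : RN n A (Fin a) (Fin 0) (Fin j) (Fin r),
      rn = ⟨v, fun e => e.elim0, fun e => e.elim0, fun e => e.elim0, Q1,
        fun u => (v1 u).2, Q2⟩ := ⟨_, rfl⟩
  have hwa : (rn.rd K).wa = v := by rw [hrn]; rfl
  have hPU : ∀ u, (rn.rd K).PU u = (v1 u).1 := fun u => by rw [hrn]; exact hQ11 u
  have htu : ∀ u, (rn.rd K).tu u = (v1 u).2 := fun u => by rw [hrn]; rfl
  have hPT : ∀ t, nf K (rn.PT t) = v2 t := fun t => by rw [hrn]; exact hQ22 t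
  have h23 : Submodule.span K (rowE F dg D E C x y i0 ik (rn.rd K) '' {l | rk l < 2}) ≤
      Submodule.span K (rowE F dg D E C x y i0 ik (rn.rd K) '' {l | rk l < 3}) :=
    Submodule.span_mono (Set.image_mono fun l (hl : rk l < 2) => (by omega : rk l < 3))
  have hW := WspE_le_rows F dg D E C x y i0 ik (rn.rd K) (by rw [hwa]; exact hv)
  have hVrow : VlE F dg D E x y ≤ Submodule.span K
      (rowE F dg D E C x y i0 ik (rn.rd K) '' {l | rk l < 2}) := by
    rw [← hv1]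
    refine sup_le hW ?_
    rw [Submodule.span_le]
    rintro _ ⟨u, rfl⟩
    rw [Function.comp_apply, hw1]
    refine Submodule.subset_span ⟨Sum.inr (some (Sum.inr (Sum.inr (Sum.inl u)))), by simp [rk], ?_⟩
    change vq D x ((rn.rd K).PU u) (tm (pl x y) ((rn.rd K).tu u)) = _
    rw [hPU, htu]
  refine ⟨a, rn, i0, hi0', fun b => b.elim0, fun u => ?_, fun t => ?_, fun t m hmx hmy => ?_,
    ?_, ?_⟩
  · rw [hrn]; exact hQ1 u
  · rw [hrn]; exact hQ2 t
  · rw [hPT]
    exact hVrow (Submodule.mem_sup_left (Submodule.mem_sup_right (Submodule.subset_span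
      ⟨_, m, (v2 t).2.1, hmx, hmy, rfl⟩)))
  · rw [Fintype.card_fin, Fintype.card_fin, Fintype.card_fin, Fintype.card_fin]
    omega
  · rw [← hv2]
    refine sup_le (hVrow.trans h23) ?_
    rw [Submodule.span_le]
    rintro _ ⟨t, rfl⟩
    rw [Function.comp_apply, hw2]
    refine Submodule.subset_span ⟨Sum.inr (some (Sum.inr (Sum.inr (Sum.inr t)))), by simp [rk], ?_⟩
    change vq D x (nf K (rn.PT t)) ((pl x y ik)⁻¹ • pm x ik.1 ik.2) = _
    rw [hPT]

end cases

end Pool.Agent.Y741
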