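import Pool.Agent.Y741.BC
import Pool.Agent.Y735.LimL
import Pool.Agent.TH145.GC.Fin

/-!
Limits of integral points.
-/

set_option autoImplicit false

open MvPolynomial FF Pool.Agent.W603.LV Pool.Agent.W603.PV Pool.Agent.W602.RG Pool.Agent.TH145.GH
open Pool.Agent.TH145.GC (Gen)
open Pool.Agent.Y735 (rho eval_rho rho_X pl fht po po_le po_finite fht_nonneg hat_comm)

namespace Pool.Agent.Y741

section hgt

variable {k K : Type} [Field k] [Field K] [Algebra k K] [CharZero k] [IsFF k K] [IsAlgClosed k]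

theorem hgt_le_fht {ι : Type} [Finite ι] (f : ι → K) {i j : ι} (hi : f i ≠ 0) (hj : f j ≠ 0) :
    hgt k (f i / f j) ≤ fht k f := by
  classical
  have : Fintype ι := Fintype.ofFinite ι
  have hf : f ≠ 0 := fun h => hj (by rw [h]; rfl)
  have hq := po_finite (k := k) hf
  obtain ⟨S, hS⟩ := exists_supp (k := k) (Finset.univ : Finset ι) f
  obtain ⟨V, hV⟩ : ∃ V : Finset (Place k K), V = S ∪ hq.toFinset := ⟨_, rfl⟩
  have h1 : ∑ P ∈ V, P.ord (f j) = 0 := sum_ord_finset _ _ fun P hP => by
    rw [hV]; exact Finset.mem_union_left _ (hS j (Finset.mem_univ _) P hP)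
  have h1' : ∀ P : Place k K, P.ord (f i / f j) ≠ 0 → P ∈ V := by
    intro P hP
    rw [hV]
    refine Finset.mem_union_left _ ?_
    by_contra hcon
    apply hP
    have h2 : P.ord (f i) = 0 := by
      by_contra h; exact hcon (hS i (Finset.mem_univ _) P h)
    have h3 : P.ord (f j) = 0 := by
      by_contra h; exact hcon (hS j (Finset.mem_univ _) P h)
    rw [P.ord_div hi hj, h2, h3]; rfl
  have h2 : fht k f = ∑ P ∈ V, (- po P f) := by
    unfold fht
    rw [finsum_eq_sum_of_support_subset (s := V), Finset.sum_neg_distrib]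
    intro P hP
    rw [hV]
    exact Finset.mem_union_right _ (hq.mem_toFinset.2 hP)
  have h4 : ∑ P ∈ V, (- po P f) = ∑ P ∈ V, (- po P f + P.ord (f j)) := by
    rw [Finset.sum_add_distrib, h1, add_zero]
  rw [h2, h4, hgt_finset _ V h1']
  refine Finset.sum_le_sum fun P _ => ?_
  have h5 := po_le P hi
  have h6 := po_le P hj
  rw [P.ord_div hi hj]
  refine max_le ?_ ?_ <;> omega

theorem const_of_fht {ι : Type} [Finite ι] {f : ι → K} {j : ι} (hj : f j ≠ 0)
    (h : fht k f ≤ 0) (i : ι) : ∃ c : k, f i / f j = algebraMap k K c := by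
  by_cases hi : f i = 0
  · exact ⟨0, by rw [hi, zero_div, map_zero]⟩
  · exact const_of_hgt ((hgt_le_fht f hi hj).trans h)

end hgt

section lines

variable {K : Type} [Field K] {n : ℕ} {A : Type}

theorem onL_iff_rho [Infinite K] {F : Fam K n A} {dg : A → ℕ}
    (hF : ∀ a, (F a).IsHomogeneous (dg a)) {C : Finset A}
    {x y : Fin (n + 1) → K} (hxC : ∀ c ∈ C, eval x (F c) = 0) :
    OnL F C x y ↔ ∀ c ∈ C, rho x y (F c) = 0 := by
  constructor
  · intro h c hc
    apply Polynomial.funext
    intro t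
    rw [eval_rho, Polynomial.eval_zero]
    have := h c hc t 1
    rwa [one_smul] at this
  · intro h c hc a b
    by_cases hb : b = 0
    · rw [hb, zero_smul, add_zero, eval_smul_hom (hF c), hxC c hc, mul_zero]
    · have h5 : a • x + b • y = b • ((a / b) • x + y) := by
        rw [smul_add, smul_smul, mul_div_cancel₀ _ hb]
      rw [h5, eval_smul_hom (hF c), ← eval_rho, h c hc, Polynomial.eval_zero, mul_zero]

theorem one_iff_rho [Infinite K] {F : Fam K n A} {dg : A → ℕ} {C : Finset A}
    {x y : Fin (n + 1) → K} :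
    One F dg C x y ↔ ∃ t0 : K, ∀ b, b ∉ C → rho x y (F b) =
      Polynomial.C (eval x (F b)) * (Polynomial.X - Polynomial.C t0) ^ dg b := by
  refine exists_congr fun t0 => forall_congr' fun b => forall_congr' fun _ => ?_
  constructor
  · intro h
    apply Polynomial.funext
    intro t
    rw [eval_rho, h t]
    simp
  · intro h t
    rw [← eval_rho, h]
    simp

theorem rho_map {L Ω : Type} [Field L] [Field Ω] (ψ : L →+* Ω) (x y : Fin (n + 1) → L)
    (p : MvPolynomial (Fin (n + 1)) L) :
    rho (fun j => ψ (x j)) (fun j => ψ (y j)) (map ψ p) = (rho x y p).map ψ := by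
  induction p using MvPolynomial.induction_on with
  | C a =>
    rw [map_C, rho, aeval_C, rho, aeval_C]
    simp
  | add p q hp hq => rw [map_add, map_add, hp, hq, map_add, Polynomial.map_add]
  | mul_X p i hp =>
    rw [map_mul, map_mul, hp, map_X, rho_X, map_mul, rho_X, Polynomial.map_mul]
    simp

theorem onL_mapF {L Ω : Type} [Field L] [Infinite L] [Field Ω] [Infinite Ω] (ψ : L →+* Ω)
    {F : Fam L n A} {dg : A → ℕ}
    (hF : ∀ a, (F a).IsHomogeneous (dg a)) {C : Finset A}
    {x y : Fin (n + 1) → L} (hxC : ∀ c ∈ C, eval x (F c) = 0) :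
    OnL (mapF ψ F) C (fun j => ψ (x j)) (fun j => ψ (y j)) ↔ OnL F C x y := by
  rw [onL_iff_rho hF hxC, onL_iff_rho (F := mapF ψ F) (fun a => (hF a).map ψ)]
  · refine forall_congr' fun c => forall_congr' fun _ => ?_
    unfold mapF
    rw [rho_map, Polynomial.map_eq_zero_iff ψ.injective]
  · intro c hc
    unfold mapF
    rw [eval_mapF, hxC c hc, map_zero]

theorem one_mapF {L Ω : Type} [Field L] [Infinite L] [Field Ω] [Infinite Ω] (ψ : L →+* Ω)
    {F : Fam L n A} {dg : A → ℕ} {C : Finset A}
    {x y : Fin (n + 1) → L} (h : One F dg C x y) :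
    One (mapF ψ F) dg C (fun j => ψ (x j)) (fun j => ψ (y j)) := by
  rw [one_iff_rho] at h ⊢
  obtain ⟨t0, h⟩ := h
  refine ⟨ψ t0, fun b hb => ?_⟩
  unfold mapF
  rw [rho_map, eval_mapF, h b hb]
  simp

end lines

/-- The restriction of a derivation to a subfield. -/
noncomputable def resS {K : Type} [Field K] (L : Subfield K) (D : Derivation ℤ K K)
    (h : ∀ x ∈ L, D x ∈ L) : Derivation ℤ L L where
  toFun x := ⟨D x, h x x.2⟩
  map_add' x y := by
    apply Subtype.ext
    exact map_add D (x : K) y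
  map_smul' n x := by
    apply Subtype.ext
    change D ((n • x : L) : K) = ((RingHom.id ℤ n) • (⟨D x, h x x.2⟩ : L) : L)
    push_cast
    rw [map_zsmul]
    rfl
  map_one_eq_zero' := by
    apply Subtype.ext
    exact D.map_one_eq_zero
  leibniz' x y := by
    apply Subtype.ext
    exact D.leibniz (x : K) y

theorem resS_coe {K : Type} [Field K] (L : Subfield K) (D : Derivation ℤ K K)
    (h : ∀ x ∈ L, D x ∈ L) (x : L) : ((resS L D h x : L) : K) = D x := rfl

end Pool.Agent.Y741
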