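import Pool.Agent.Y741.LimV

/-!
The data in the ultrapower.
-/

set_option autoImplicit false

open MvPolynomial FF Pool.Agent.W603.LV Pool.Agent.W603.PV Pool.Agent.W602.RG Pool.Agent.TH145.GH
open Pool.Agent.TH145.GC (Gen)
open Pool.Agent.Y735 (rho eval_rho rho_X pl fht po po_le po_finite fht_nonneg hat_comm)

namespace Pool.Agent.Y741

variable {k0 K : Type} [Field k0] [Field K] [Algebra k0 K] [IsAlgClosed k0] [IsAlgClosed K]
  [CharZero K]

theorem exists_rig_V {n : ℕ} {A : Type} {dg : A → ℕ} (E : Subfield K)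
    (hE : ∀ r : k0, algebraMap k0 K r ∈ E)
    {F : A → MvPolynomial (Fin (n + 1)) E} {DE : A → (Fin (n + 1) →₀ ℕ) → E → E}
    (hG : Gen F dg DE) (hpos : ∀ a, 0 < dg a)
    (D : A → (Fin (n + 1) →₀ ℕ) → Derivation ℤ K K)
    (hDE : ∀ a I (x : E), D a I x = (DE a I x : K))
    (hDk : ∀ a I (r : k0), D a I (algebraMap k0 K r) = 0) {J : Type} [Finite J]
    (z : J → Om K) (hz : ∀ j, z j ∈ OE k0 (E : Set K)) (X : Finset (Om K))
    (hX : (X : Set (Om K)) ⊆ CC k0 K) (j1 : J) (hj1 : z j1 ∉ acl (cst K '' (E : Set K))) :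
    ∃ (κ : Subfield (Om K)) (Λ : IntermediateField κ (Om K)) (M : Subfield Λ) (φ : E →+* Λ)
      (D' : A → (Fin (n + 1) →₀ ℕ) → Derivation ℤ Λ Λ),
      IsAlgClosed κ ∧ IsFF κ Λ ∧ (∀ j, z j ∈ Λ) ∧ z j1 ∉ κ ∧
      (∀ x ∈ X, ∃ m ∈ M, ((m : Λ) : Om K) = x) ∧ (∀ x ∈ E, cst K x ∈ κ) ∧
      (∀ x : E, ((φ x : Λ) : Om K) = cst K x) ∧
      (∀ a I (x : Λ), ((D' a I x : Λ) : Om K) = hat (D a I) x) ∧
      DataL κ (fun a => map φ (F a)) dg D' (fun _ => 0) (fun _ => 0) ∧
      ∀ P : Place κ Λ, (∀ m ∈ M, P.ord m = 0) ∨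
        ∀ a I f, f ≠ 0 → Ge P (P.ord f) (D' a I f) := by
  classical
  obtain ⟨κ, Λ, M, hac, hFF, hEκ, hzΛ, hzκ, hXM, hMC, hder, hplace⟩ :=
    exists_rig E hE z hz X hX j1 hj1
  have hczOm : CharZero (Om K) :=
    charZero_of_injective_algebraMap (algebraMap K (Om K)).injective
  have hcz : CharZero κ := charZero_of_injective_algebraMap (algebraMap ℚ κ).injective
  let φ : E →+* Λ :=
    { toFun := fun x => ⟨cst K x, Λ.algebraMap_mem ⟨cst K x, hEκ x x.2⟩⟩
      map_one' := Subtype.ext (map_one (cst K))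
      map_mul' := fun a b => Subtype.ext (map_mul (cst K) (a : K) b)
      map_zero' := Subtype.ext (map_zero (cst K))
      map_add' := fun a b => Subtype.ext (map_add (cst K) (a : K) b) }
  have hd := fun a I => hder (hat (D a I)) (fun w hw => hat_CC (D a I) (hDk a I) hw)
    (fun x hx => ⟨(DE a I ⟨x, hx⟩ : K), (DE a I ⟨x, hx⟩).2, by
      rw [hat_cst, ← hDE a I ⟨x, hx⟩]⟩)
  let D' : A → (Fin (n + 1) →₀ ℕ) → Derivation ℤ Λ Λ := fun a I =>
    resDer Λ (hat (D a I)) (hd a I).2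
  have hD' : ∀ a I (x : Λ), ((D' a I x : Λ) : Om K) = hat (D a I) x := fun a I x => rfl
  have hS : ∀ a I, Sem κ (D' a I) := fun a I c => ⟨⟨hat (D a I) c, (hd a I).1 c c.2⟩, rfl⟩
  have hM0 : ∀ a I, ∀ m ∈ M, D' a I m = 0 := by
    intro a I m hm
    apply Subtype.ext
    rw [hD']
    exact hat_CC (D a I) (hDk a I) (hMC m hm)
  have hdat : TH145.GC.Data κ (fun a => map φ (F a)) dg D' (fun _ => 0) := by
    refine hG.data φ D' (fun a I x => ?_) (fun _ => le_rfl) ?_ ?_
    · apply Subtype.ext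
      rw [hD']
      change hat (D a I) (cst K x) = cst K (DE a I x)
      rw [hat_cst, hDE]
    · intro P f hf a I _
      rw [neg_zero]
      rcases hplace P with ⟨-, θ, hθM, c, hu⟩ | ⟨π, hπM, hπ⟩
      · refine reg_of_unif P hu (hS a I) le_rfl ?_ hf
        obtain ⟨c', hc'⟩ := hS a I c
        rw [map_sub, hM0 a I θ hθM, hc', zero_sub]
        exact (Ge.const c').neg
      · refine reg_of_unif P hπ (hS a I) le_rfl ?_ hf
        rw [hM0 a I π hπM]
        exact Ge.zero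
    · simp
  refine ⟨κ, Λ, M, φ, D', hac, hFF, hzΛ, hzκ, hXM, hEκ, fun x => rfl, hD', ?_, fun P => ?_⟩
  · refine ⟨hpos, hdat.hom, hdat.dual, fun _ => le_rfl, fun _ => le_rfl, hdat.loss,
      fun P a u => ?_, by simp⟩
    rw [neg_zero, coeff_map]
    exact Ge.const (⟨cst K (((F a).coeff u : E) : K), hEκ _ ((F a).coeff u).2⟩ : κ)
  · rcases hplace P with ⟨h1, -⟩ | ⟨π, hπM, hπ⟩
    · exact Or.inl h1
    · right
      intro a I f hf
      have hπ0 : π ≠ 0 := by
        rintro rfl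
        rw [P.ord_zero] at hπ
        exact absurd hπ (by norm_num)
      obtain ⟨g, hg⟩ : ∃ g, g = f / π ^ P.ord f := ⟨_, rfl⟩
      have hπz : π ^ P.ord f ≠ 0 := zpow_ne_zero _ hπ0
      have h1 : f = π ^ P.ord f * g := by
        rw [hg, mul_div_cancel₀ _ hπz]
      have h2 : Ge P 0 g := by
        right
        rw [hg, P.ord_div hf hπz, P.ord_zpow, hπ]
        linarith
      have h3 : Ge P 0 (D' a I g) := by
        refine reg_of_unif P hπ (hS a I) le_rfl ?_ h2
        rw [hM0 a I π hπM]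
        exact Ge.zero
      have h4 : D' a I f = π ^ P.ord f * D' a I g := by
        conv_lhs => rw [h1]
        rw [(D' a I).leibniz, hM0 a I _ (zpow_mem hπM _)]
        simp
      rw [h4]
      have h5 : Ge P (P.ord f) (π ^ P.ord f) := by
        right
        rw [P.ord_zpow, hπ, mul_one]
      have := h5.mul h3
      rwa [add_zero] at this

/-- The derivations preserve the field of the limits. -/
theorem hat_OE {E : Subfield K} {D : Derivation ℤ K K} (hDE : ∀ x ∈ E, D x ∈ E)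
    (hDk : ∀ r : k0, D (algebraMap k0 K r) = 0) :
    ∀ w ∈ OE k0 (E : Set K), hat D w ∈ OE k0 (E : Set K) := by
  intro w hw
  refine der_closure (hat D) (H := OE k0 (E : Set K)) ?_ hw
  rintro s (⟨u, rfl⟩ | ⟨x, hx, rfl⟩)
  · refine ⟨Subfield.subset_closure (Or.inl ⟨u, rfl⟩), ?_⟩
    rw [hat_CC D hDk (mem_CC u)]
    exact zero_mem _
  · refine ⟨cst_mem_OE hx, ?_⟩
    rw [hat_cst]
    exact cst_mem_OE (hDE x hx)

/-- The conditions at a place of the structure. -/
theorem rig_PlOK {n : ℕ} {A : Type} [Fintype A] {dg : A → ℕ} {E : Subfield K}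
    {F : A → MvPolynomial (Fin (n + 1)) E} {C : Finset A} {z : Fin (n + 1) → Om K}
    (X : Finset (Om K))
    (hint : ∀ a, a ∉ C → ∀ j, z j ^ dg a / eval z (map ((cst K).comp E.subtype) (F a)) ∈
      Subring.closure ((X : Set (Om K)) ∪ cst K '' (E : Set K)))
    {κ : Subfield (Om K)} {Λ : IntermediateField κ (Om K)} {M : Subfield Λ} {φ : E →+* Λ}
    {D' : A → (Fin (n + 1) →₀ ℕ) → Derivation ℤ Λ Λ} (hac : IsAlgClosed κ) (hFF : IsFF κ Λ)
    (hXM : ∀ x ∈ X, ∃ m ∈ M, ((m : Λ) : Om K) = x) (hEκ : ∀ x ∈ E, cst K x ∈ κ)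
    (hφ : ∀ x : E, ((φ x : Λ) : Om K) = cst K x)
    (hdich : ∀ P : Place κ Λ, (∀ m ∈ M, P.ord m = 0) ∨
        ∀ a I f, f ≠ 0 → Ge P (P.ord f) (D' a I f))
    {x : Fin (n + 1) → Λ} (hxz : (fun j => ((x j : Λ) : Om K)) = z) (hx0 : x ≠ 0)
    (hxF : ∀ a, a ∉ C → eval x (map φ (F a)) ≠ 0) :
    PlOK dg D' (fun _ : Place κ Λ => 0) (fun a => map φ (F a)) C x := by
  classical
  have hev : ∀ a, ((eval x (map φ (F a)) : Λ) : Om K) =
      eval z (map ((cst K).comp E.subtype) (F a)) := fun a => by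
    rw [eval_lift φ hφ (F a) x, hxz]
  intro P
  rcases hdich P with hP | hP
  · left
    intro a ha
    -- integrality at the moving places
    have hreg : ∀ w ∈ Subring.closure ((X : Set (Om K)) ∪ cst K '' (E : Set K)),
        ∃ a : Λ, (a : Om K) = w ∧ Ge P 0 a := by
      intro w hw
      induction hw using Subring.closure_induction with
      | mem w hw =>
        rcases hw with hw | ⟨y, hy, rfl⟩
        · obtain ⟨m, hm, hmw⟩ := hXM w hw
          exact ⟨m, hmw, Or.inr (hP m hm).ge⟩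
        · exact ⟨algebraMap κ Λ ⟨cst K y, hEκ y hy⟩, rfl, Ge.const _⟩
      | zero => exact ⟨0, rfl, Ge.zero⟩
      | one => exact ⟨1, rfl, Ge.one⟩
      | add a b _ _ ha hb =>
        obtain ⟨a', rfl, ha⟩ := ha
        obtain ⟨b', rfl, hb⟩ := hb
        exact ⟨a' + b', rfl, ha.add hb⟩
      | neg a _ ha =>
        obtain ⟨a', rfl, ha⟩ := ha
        exact ⟨-a', rfl, ha.neg⟩
      | mul a b _ _ ha hb =>
        obtain ⟨a', rfl, ha⟩ := ha
        obtain ⟨b', rfl, hb⟩ := hb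
        refine ⟨a' * b', rfl, ?_⟩
        have := ha.mul hb
        rwa [add_zero] at this
    have hreg' : ∀ j, Ge P 0 (x j ^ dg a / eval x (map φ (F a))) := by
      intro j
      obtain ⟨b, hb, hbP⟩ := hreg _ (hint a ha j)
      have h2 : x j ^ dg a / eval x (map φ (F a)) = b := by
        apply Subtype.ext
        rw [hb, ← hev a, ← show ((x j : Λ) : Om K) = z j from congrFun hxz j]
        rfl
      rw [h2]
      exact hbP
    obtain ⟨j2, hj2, hj2P⟩ := exists_pord P (Function.ne_iff.1 hx0)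
    have h2 := (hreg' j2).resolve_left (div_ne_zero (pow_ne_zero _ hj2) (hxF a ha))
    rw [P.ord_div (pow_ne_zero _ hj2) (hxF a ha), P.ord_pow, hj2P] at h2
    linarith
  · right
    intro f hf a I _
    rw [sub_zero]
    exact hP a I f hf

end Pool.Agent.Y741
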