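import Pool.Agent.Y741.LineG

/-!
The heights of the integral points on the lines of bounded height that meet the boundary in more
than two points.
-/

set_option autoImplicit false

open MvPolynomial FF Pool.Agent.W603.LV Pool.Agent.W603.PV Pool.Agent.W602.RG Pool.Agent.TH145.GH
open Pool.Agent.Y735 (rho eval_rho rho_X pl fht po po_le po_finite fht_nonneg rho_deg exists_po
  zp zp_pl exists_xi)

namespace Pool.Agent.Y741

section loc

variable {κ L : Type} [Field κ] [Field L] [Algebra κ L] [CharZero κ] [IsFF κ L]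

theorem exists_coef_loc {n : ℕ} {A : Type} [Fintype A] (F : Fam L n A) :
    ∃ (g : Place κ L → ℤ) (G : ℤ), Loc g G ∧ ∀ P b u, Ge P (-g P) ((F b).coeff u) := by
  classical
  obtain ⟨Z, hZ⟩ : ∃ Z : Finset L, ∀ b, ∀ u ∈ (F b).support, (F b).coeff u ∈ Z :=
    ⟨Finset.univ.biUnion fun b => (F b).support.image (F b).coeff, fun b u hu =>
      Finset.mem_biUnion.2 ⟨b, Finset.mem_univ _, Finset.mem_image_of_mem _ hu⟩⟩
  obtain ⟨g, hg, h⟩ := exists_loc (κ := κ) Z id (H := ∑ z ∈ Z, hgt κ z) fun z hz =>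
    Finset.single_le_sum (f := fun z => hgt κ z) (fun z _ => hgt_nonneg z) hz
  refine ⟨g, _, hg, fun P b u => ?_⟩
  by_cases hu : u ∈ (F b).support
  · exact h P _ (hZ b u hu)
  · rw [notMem_support_iff.1 hu]
    exact Ge.zero

omit [CharZero κ] [IsFF κ L] in
theorem exists_ind {S : Set (Place κ L)} (hS : S.Finite) :
    ∃ (s : Place κ L → ℤ) (B : ℤ), Loc s B ∧ ∀ P ∈ S, s P = 1 := by
  classical
  refine ⟨fun P => if P ∈ S then 1 else 0, _, ⟨fun P => ?_, hS.subset fun P hP => ?_, le_rfl⟩,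
    fun P hP => if_pos hP⟩
  · split_ifs <;> omega
  · by_contra hcon
    exact hP (if_neg hcon)

theorem pht_le_of [IsAlgClosed κ] {n : ℕ} {x : Fin (n + 1) → L} (hx : x ≠ 0)
    {c : Place κ L → ℤ} {B : ℤ} (h : Loc c B) (u : L) (hle : ∀ P, -pord P x ≤ P.ord u + c P) :
    pht κ x ≤ B := by
  have h1 : {P : Place κ L | P.ord u ≠ 0}.Finite := finite_support u
  have h2 : {P : Place κ L | P.ord u + c P ≠ 0}.Finite := by
    refine (h1.union h.fin).subset fun P hP => ?_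
    by_contra hcon
    rw [Set.mem_union, not_or] at hcon
    apply hP
    have h1 : ¬ (P.ord u ≠ 0) := hcon.1
    have h2 : ¬ (c P ≠ 0) := hcon.2
    push Not at h1 h2
    rw [h1, h2]; rfl
  have h4 : {P : Place κ L | -pord P x ≠ 0}.Finite := by
    refine (po_finite (k := κ) hx).subset fun P hP h0 => hP ?_
    have h5 : pord P x = 0 := h0
    rw [h5]; rfl
  have h3 : ∑ᶠ P : Place κ L, (-pord P x) ≤ ∑ᶠ P : Place κ L, (P.ord u + c P) :=
    finsum_le_finsum' h4 h2 hle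
  rw [finsum_add_distrib h1 h.fin, sum_ord, zero_add] at h3
  have h5 : pht κ x = ∑ᶠ P : Place κ L, (-pord P x) := by
    unfold pht
    rw [finsum_neg_distrib]
  rw [h5]
  exact h3.trans h.le

theorem loc_line [IsAlgClosed κ] {ι : Type} [Finite ι] {f : ι → L} (hf : f ≠ 0) (u : L)
    (h : ∀ P : Place κ L, po P f ≤ P.ord u) :
    Loc (fun P : Place κ L => P.ord u - po P f) (fht κ f) := by
  have h1 : {P : Place κ L | P.ord u ≠ 0}.Finite := finite_support u
  have h2 := po_finite (k := κ) hf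
  refine ⟨fun P => by have := h P; omega, ?_, ?_⟩
  · refine (h1.union h2).subset fun P hP => ?_
    by_contra hcon
    rw [Set.mem_union, not_or] at hcon
    apply hP
    have h1 : ¬ (P.ord u ≠ 0) := hcon.1
    have h2 : ¬ (po P f ≠ 0) := hcon.2
    push Not at h1 h2
    rw [h1, h2]; rfl
  · rw [finsum_sub_distrib h1 h2, sum_ord, zero_sub]
    exact le_rfl

end loc

/-- The integral points on the lines of bounded height. -/
theorem lineM (n : ℕ) (A : Type) [Fintype A] [DecidableEq A] (dg : A → ℕ) (C : Finset A) :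
    LineM n A dg C 2 := by
  intro κ L Ω _ _ _ _ _ _ _ _ _ F hF Sg hSg H
  classical
  obtain ⟨g, G, hLg, hg⟩ := exists_coef_loc (κ := κ) F
  obtain ⟨s, S, hLs, hs⟩ := exists_ind hSg
  choose Cr hCr0 hCr using fun r : {r : ℕ // 3 ≤ r} => mason (κ := κ) (L := L) r.2
  obtain ⟨N, hN⟩ : ∃ N : ℕ, N = ∑ b ∈ Cᶜ, dg b := ⟨_, rfl⟩
  obtain ⟨M, hM⟩ : ∃ M : ℕ, M = Cᶜ.card := ⟨_, rfl⟩
  obtain ⟨Cm, hCm0, hCm⟩ : ∃ Cm : ℤ, 0 ≤ Cm ∧ ∀ r (hr : 3 ≤ r), r ≤ N → Cr ⟨r, hr⟩ ≤ Cm := by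
    obtain ⟨B, hB⟩ := (Set.finite_range fun i : Fin (N + 1) =>
      if h : 3 ≤ i.1 then Cr ⟨i.1, h⟩ else 0).bddAbove
    refine ⟨max B 0, le_max_right _ _, fun r hr hrN => le_trans ?_ (le_max_left _ _)⟩
    have := hB ⟨⟨r, by omega⟩, rfl⟩
    dsimp only at this
    rwa [dif_pos hr] at this
  refine ⟨Cm * ((M * G + N * H) + (M * G + N * H) + S + 1) + H,
    fun x y ik hik hH hxF hint hpun => ?_⟩
  -- the basis of the line
  have hx0 : x ≠ 0 := by
    rintro rfl
    apply hik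
    unfold pl
    simp
  obtain ⟨j, hj⟩ := Function.ne_iff.1 hx0
  rw [Pi.zero_apply] at hj
  obtain ⟨ξ, hξ⟩ : ∃ ξ : Fin (n + 1) → κ, eval (zp (pl x y) fun i => algebraMap κ L (ξ i))
      ((∏ b ∈ Cᶜ, F b) * X j) ≠ 0 := by
    refine exists_xi (k := κ) hik (a := 1) (b := 0) ?_
    rw [one_smul, zero_smul, add_zero, map_mul, map_prod, eval_X]
    exact mul_ne_zero (Finset.prod_ne_zero_iff.2 fun b hb => hxF b (Finset.mem_compl.1 hb)) hj
  rw [map_mul, map_prod, eval_X] at hξ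
  obtain ⟨y0u, hy0u⟩ : ∃ v, v = zp (pl x y) fun i => algebraMap κ L (ξ i) := ⟨_, rfl⟩
  rw [← hy0u] at hξ
  obtain ⟨Δ, hΔ⟩ : ∃ Δ, Δ = y0u j := ⟨_, rfl⟩
  have hΔ0 : Δ ≠ 0 := by rw [hΔ]; exact right_ne_zero_of_mul hξ
  have hy0F' : ∀ b, b ∉ C → eval y0u (F b) ≠ 0 := fun b hb =>
    Finset.prod_ne_zero_iff.1 (left_ne_zero_of_mul hξ) b (Finset.mem_compl.2 hb)
  obtain ⟨α, hα⟩ : ∃ α, α = ∑ l, algebraMap κ L (ξ l) * x l := ⟨_, rfl⟩
  obtain ⟨β, hβ⟩ : ∃ β, β = ∑ l, algebraMap κ L (ξ l) * y l := ⟨_, rfl⟩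
  have hy0xy : y0u = α • y + (-β) • x := by
    rw [hy0u, zp_pl, hα, hβ]
  have hΔxy : Δ = α * y j - β * x j := by
    rw [hΔ, hy0xy]
    simp only [Pi.add_apply, Pi.smul_apply, smul_eq_mul]
    ring
  obtain ⟨y0, hy0⟩ : ∃ y0, y0 = Δ⁻¹ • y0u := ⟨_, rfl⟩
  obtain ⟨y1, hy1⟩ : ∃ y1, y1 = Δ⁻¹ • (x j • y - y j • x) := ⟨_, rfl⟩
  have hxb : x = x j • y0 + (-α) • y1 := by
    funext i
    rw [hy0, hy1, hy0xy]
    simp only [Pi.add_apply, Pi.smul_apply, Pi.sub_apply, smul_eq_mul]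
    field_simp
    rw [hΔxy]
    ring
  have hyb : y = y j • y0 + (-β) • y1 := by
    funext i
    rw [hy0, hy1, hy0xy]
    simp only [Pi.add_apply, Pi.smul_apply, Pi.sub_apply, smul_eq_mul]
    field_simp
    rw [hΔxy]
    ring
  have hdet : x j * (-β) - y j * (-α) ≠ 0 := by
    have : x j * (-β) - y j * (-α) = Δ := by rw [hΔxy]; ring
    rw [this]
    exact hΔ0
  have hy0F : ∀ b, b ∉ C → eval y0 (F b) ≠ 0 := by
    intro b hb
    rw [hy0, eval_smul_hom (hF b)]
    exact mul_ne_zero (pow_ne_zero _ (inv_ne_zero hΔ0)) (hy0F' b hb)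
  -- the local bounds
  have hp0 : pl x y ≠ 0 := fun h0 => hik (by rw [h0]; rfl)
  have hpo : ∀ (P : Place κ L) q, Ge P (po P (pl x y)) (pl x y q) := by
    intro P q
    by_cases hq : pl x y q = 0
    · exact Or.inl hq
    · exact Or.inr (po_le P hq)
  have hzo : ∀ (P : Place κ L) i, Ge P (po P (pl x y)) (y0u i) := by
    intro P i
    rw [hy0u]
    unfold zp
    refine Ge.sum _ _ fun l _ => ?_
    have := (Ge.const (P := P) (ξ l)).mul (hpo P (l, i))
    rwa [zero_add] at this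
  have hpoΔ : ∀ P : Place κ L, po P (pl x y) ≤ P.ord Δ := by
    intro P
    have := hzo P j
    rw [← hΔ] at this
    exact this.resolve_left hΔ0
  have hLlam := (loc_line (κ := κ) hp0 Δ hpoΔ).mono hH
  obtain ⟨lam, hlam⟩ : ∃ lam : Place κ L → ℤ, lam = fun P => P.ord Δ - po P (pl x y) := ⟨_, rfl⟩
  rw [← hlam] at hLlam
  have hH0 : 0 ≤ H := hLlam.B_nonneg
  have hΔi : ∀ (P : Place κ L) (w : L), Ge P (po P (pl x y)) w → Ge P (-lam P) (Δ⁻¹ * w) := by
    intro P w hw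
    have h1 : Ge P (-P.ord Δ) Δ⁻¹ := Or.inr (by rw [P.ord_inv])
    refine (h1.mul hw).mono ?_
    rw [hlam]
    dsimp only
    omega
  have hy0P : ∀ (P : Place κ L) i, Ge P (-lam P) (y0 i) := by
    intro P i
    rw [hy0, Pi.smul_apply, smul_eq_mul]
    exact hΔi P _ (hzo P i)
  have hy1P : ∀ (P : Place κ L) i, Ge P (-lam P) (y1 i) := by
    intro P i
    rw [hy1, Pi.smul_apply, smul_eq_mul]
    refine hΔi P _ ?_
    have := hpo P (j, i)
    unfold pl at this
    rw [Pi.sub_apply, Pi.smul_apply, Pi.smul_apply, smul_eq_mul, smul_eq_mul, mul_comm (y j)]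
    exact this
  -- the boundary on the line
  obtain ⟨φ, hφ⟩ : ∃ φ, φ = bdy F C y0 y1 := ⟨_, rfl⟩
  obtain ⟨hφ1, hφ2, hφ3⟩ := bdy_lc hF y1 hy0F
  rw [← hφ, ← hN] at hφ1
  rw [← hφ] at hφ2 hφ3
  obtain ⟨lc, hlc⟩ : ∃ lc, lc = φ.leadingCoeff := ⟨_, rfl⟩
  have hlc0 : lc ≠ 0 := by rw [hlc]; exact Polynomial.leadingCoeff_ne_zero.2 hφ3
  obtain ⟨c0, hc0⟩ : ∃ c0 : Place κ L → ℤ, c0 = fun P => M * g P + N * lam P := ⟨_, rfl⟩
  have hLc0 : Loc c0 (M * G + N * H) := by
    rw [hc0]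
    exact (hLg.mul (by positivity)).add (hLlam.mul (by positivity))
  have hφP : ∀ P, PGe P (-c0 P) φ := by
    intro P
    rw [hφ]
    refine (pge_bdy hF C (hy0P P) (hy1P P) fun b u => hg P b u).mono ?_
    rw [hc0, ← hN, ← hM]
    dsimp only
    linarith
  have hlcP : ∀ P, Ge P (-c0 P) lc := fun P => by
    rw [hlc]
    exact hφP P _
  have hlcH : hgt κ lc⁻¹ ≤ M * G + N * H := by
    rw [hgt_inv]
    exact hgt_le_of_loc hLc0 hlcP
  have hLlc := (loc_hgt (κ := κ) lc⁻¹).mono hlcH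
  obtain ⟨c3, hc3⟩ : ∃ c3 : Place κ L → ℤ, c3 = fun P => c0 P + max (-P.ord lc⁻¹) 0 + s P :=
    ⟨_, rfl⟩
  have hLc3 : Loc c3 ((M * G + N * H) + (M * G + N * H) + S) := by
    rw [hc3]
    exact (hLc0.add hLlc).add hLs
  have hB3 := hLc3.B_nonneg
  have hc3' : ∀ P, c0 P + max (-P.ord lc⁻¹) 0 ≤ c3 P := by
    intro P
    rw [hc3]
    have := hLs.nonneg P
    dsimp only
    omega
  obtain ⟨φ1, hφ1'⟩ : ∃ φ1, φ1 = φ * Polynomial.C lc⁻¹ := ⟨_, rfl⟩
  have hm1 : φ1.Monic := by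
    rw [hφ1', hlc]
    exact Polynomial.monic_mul_leadingCoeff_inv hφ3
  have hφ1P : ∀ P, PGe P (-c3 P) φ1 := by
    intro P
    rw [hφ1']
    refine ((hφP P).mul (PGe.C (ge_hgt lc⁻¹ P))).mono ?_
    have := hc3' P
    omega
  have hczL : CharZero L := charZero_of_injective_algebraMap (algebraMap κ L).injective
  obtain ⟨χ, γ, m, hχm, hγm, hcop, hχγ, hdvd⟩ := exists_sqf hm1
  have hχP : ∀ P, PGe P (-c3 P) χ := fun P =>
    PGe.of_mul hχm hγm (by rw [← hχγ]; exact hφ1P P)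
  have hγP : ∀ P, PGe P (-c3 P) γ := fun P =>
    PGe.of_mul hγm hχm (by rw [mul_comm, ← hχγ]; exact hφ1P P)
  have hdegs : χ.natDegree + γ.natDegree = N := by
    rw [← hχm.natDegree_mul hγm, ← hχγ, hφ1', Polynomial.natDegree_mul_C (inv_ne_zero hlc0), hφ1]
  -- the number of the punctures
  have hr : 3 ≤ χ.natDegree := by
    by_contra hcon
    apply hpun
    obtain ⟨ψ, hψ⟩ : ∃ ψ, ψ = algebraMap L Ω := ⟨_, rfl⟩
    rw [← hψ]
    refine pun_of_basis (F := mapF ψ F) (dg := dg) (fun a => (hF a).map ψ)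
      (y0 := fun i => ψ (y0 i)) (y1 := fun i => ψ (y1 i)) (a := ψ (x j)) (b := ψ (-α))
      (a' := ψ (y j)) (b' := ψ (-β)) ?_ ?_ ?_ (fun c hc => ?_) (fun c hc => ?_)
      (χ := χ.map ψ) (fun t ht => ?_) ?_ ?_
    · funext i
      conv_lhs => rw [hxb]
      simp only [Pi.add_apply, Pi.smul_apply, smul_eq_mul, map_add, map_mul]
    · funext i
      conv_lhs => rw [hyb]
      simp only [Pi.add_apply, Pi.smul_apply, smul_eq_mul, map_add, map_mul]
    · rw [← map_mul, ← map_mul, ← map_sub]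
      exact (map_ne_zero ψ).2 hdet
    · unfold mapF
      rw [eval_mapF]
      exact (map_ne_zero ψ).2 (hxF c hc)
    · unfold mapF
      rw [eval_mapF]
      exact (map_ne_zero ψ).2 (hy0F c hc)
    · rw [bdy_map, ← hφ] at ht
      have h1 : (φ1.map ψ).eval t = 0 := by
        rw [hφ1', Polynomial.map_mul, Polynomial.eval_mul, ht, zero_mul]
      obtain ⟨q, hq⟩ := hdvd
      have h2 : ((χ ^ m).map ψ).eval t = 0 := by
        rw [hq, Polynomial.map_mul, Polynomial.eval_mul, h1, zero_mul]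
      rw [Polynomial.map_pow, Polynomial.eval_pow] at h2
      by_contra hcon
      exact pow_ne_zero _ hcon h2
    · exact (Polynomial.map_ne_zero_iff ψ.injective).2 hχm.ne_zero
    · rw [Polynomial.natDegree_map]
      omega
  -- the point
  have hcase0 : ∀ (u : L) (c : Place κ L → ℤ) (B : ℤ), u ≠ 0 → Loc c B →
      (∀ P i, Ge P (-c P) (u⁻¹ * x i)) → pht κ x ≤ B := by
    intro u c B hu hL hge
    refine pht_le_of hx0 hL u⁻¹ fun P => ?_
    obtain ⟨i, hi, hiP⟩ := exists_po P hx0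
    have h1 := (hge P i).resolve_left (mul_ne_zero (inv_ne_zero hu) hi)
    rw [P.ord_mul (inv_ne_zero hu) hi, hiP] at h1
    change -po P x ≤ _
    omega
  have hxi : ∀ i, x i = x j * y0 i + (-α) * y1 i := by
    intro i
    have h1 := congrFun hxb i
    simp only [Pi.add_apply, Pi.smul_apply, smul_eq_mul] at h1
    exact h1
  by_cases hα0 : α = 0
  · have h1 : pht κ x ≤ H := by
      refine hcase0 (x j) lam H hj hLlam fun P i => ?_
      have h2 : (x j)⁻¹ * x i = y0 i := by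
        have h3 := hxi i
        rw [hα0, neg_zero, zero_mul, add_zero] at h3
        rw [h3, ← mul_assoc, inv_mul_cancel₀ hj, one_mul]
      rw [h2]
      exact hy0P P i
    have h2 := mul_nonneg hCm0 (by linarith : 0 ≤ (M * G + N * H) + (M * G + N * H) + S + 1)
    linarith
  · obtain ⟨Y, hY⟩ : ∃ Y, Y = -α := ⟨_, rfl⟩
    have hY0 : Y ≠ 0 := by rw [hY]; exact neg_ne_zero.2 hα0
    obtain ⟨ζ, hζ⟩ : ∃ ζ, ζ = x j / Y := ⟨_, rfl⟩
    have hζ0 : ζ ≠ 0 := by rw [hζ]; exact div_ne_zero hj hY0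
    have hv : x = Y • (ζ • y0 + y1) := by
      funext i
      rw [Pi.smul_apply, Pi.add_apply, Pi.smul_apply, smul_eq_mul, smul_eq_mul, hxi i, ← hY, hζ]
      field_simp
    have hvF : ∀ b, eval x (F b) = Y ^ dg b * eval (ζ • y0 + y1) (F b) := by
      intro b
      conv_lhs => rw [hv]
      rw [eval_smul_hom (hF b)]
    have hvF0 : ∀ b, b ∉ C → eval (ζ • y0 + y1) (F b) ≠ 0 := by
      intro b hb h0
      apply hxF b hb
      rw [hvF, h0, mul_zero]
    have hφζ : φ.eval ζ = ∏ b ∈ Cᶜ, eval (ζ • y0 + y1) (F b) := by rw [hφ, eval_bdy]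
    have hφζ0 : φ.eval ζ ≠ 0 := by
      rw [hφζ]
      exact Finset.prod_ne_zero_iff.2 fun b hb => hvF0 b (Finset.mem_compl.1 hb)
    have hφ1ζ : φ1.eval ζ = φ.eval ζ * lc⁻¹ := by
      rw [hφ1', Polynomial.eval_mul, Polynomial.eval_C]
    have hφ1ζ0 : φ1.eval ζ ≠ 0 := by
      rw [hφ1ζ]
      exact mul_ne_zero hφζ0 (inv_ne_zero hlc0)
    have hχγζ : χ.eval ζ * γ.eval ζ = φ1.eval ζ := by
      rw [hχγ, Polynomial.eval_mul]
    have hχζ0 : χ.eval ζ ≠ 0 := fun h0 => hφ1ζ0 (by rw [← hχγζ, h0, zero_mul])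
    have hγζ0 : γ.eval ζ ≠ 0 := fun h0 => hφ1ζ0 (by rw [← hχγζ, h0, mul_zero])
    have hζH : hgt κ ζ ≤ Cm * ((M * G + N * H) + (M * G + N * H) + S + 1) := by
      refine (hCr ⟨χ.natDegree, hr⟩ χ ζ c3 _ hχm rfl hcop hLc3 hχP hχζ0 fun P hP => ?_).trans
        (mul_le_mul_of_nonneg_right (hCm _ hr (by omega)) (by linarith))
      obtain ⟨mm, hmm⟩ : ∃ mm, mm = min (P.ord ζ) 0 := ⟨_, rfl⟩
      rw [← hmm]
      have hmm0 : mm ≤ 0 := by rw [hmm]; exact min_le_right _ _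
      have hζm : Ge P mm ζ := Or.inr (by rw [hmm]; exact min_le_left _ _)
      have hc0P := hLc0.nonneg P
      have hsP := hLs.nonneg P
      have hmax := le_max_right (-P.ord lc⁻¹) 0
      have hmax' := le_max_left (-P.ord lc⁻¹) 0
      have hc3P : c0 P + max (-P.ord lc⁻¹) 0 + s P = 0 := by
        rw [hc3] at hP
        exact hP
      have hPS : P ∉ Sg := by
        intro hPS
        have := hs P hPS
        omega
      have hlcP0 : P.ord lc = 0 := by
        have h1 := (hlcP P).resolve_left hlc0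
        have h2 := P.ord_inv lc
        omega
      -- the order of the point
      have hpY : pord P x ≤ P.ord Y := by
        have h1 : Ge P (pord P x) Y := by
          rw [hY, hα]
          refine Ge.neg (Ge.sum _ _ fun l _ => ?_)
          have h2 : Ge P (pord P x) (x l) := by
            by_cases hl : x l = 0
            · exact Or.inl hl
            · exact Or.inr (pord_le P hl)
          have := (Ge.const (P := P) (ξ l)).mul h2
          rwa [zero_add] at this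
        exact h1.resolve_left hY0
      have hpX : pord P x ≤ P.ord ζ + P.ord Y := by
        have h1 := pord_le P hj
        have h2 : x j = ζ * Y := by rw [hζ, div_mul_cancel₀ _ hY0]
        rw [h2, P.ord_mul hζ0 hY0] at h1
        exact h1
      have hpm : pord P x ≤ mm + P.ord Y := by
        rcases min_choice (P.ord ζ) 0 with h | h
        · rw [hmm, h]; exact hpX
        · rw [hmm, h, zero_add]; exact hpY
      have hFb : ∀ b, b ∉ C → P.ord (eval (ζ • y0 + y1) (F b)) ≤ dg b * mm := by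
        intro b hb
        have h1 := hint P hPS b hb
        rw [hvF, P.ord_mul (pow_ne_zero _ hY0) (hvF0 b hb), P.ord_pow] at h1
        have h2 : (dg b : ℤ) * pord P x ≤ dg b * (mm + P.ord Y) :=
          mul_le_mul_of_nonneg_left hpm (by positivity)
        linarith
      have hφm : P.ord (φ.eval ζ) ≤ N * mm := by
        rw [hφζ, Pool.Agent.TH145.GC.ord_prod P _ _ fun b hb => hvF0 b (Finset.mem_compl.1 hb), hN]
        push_cast
        rw [Finset.sum_mul]
        exact Finset.sum_le_sum fun b hb => hFb b (Finset.mem_compl.1 hb)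
      have hφ1m : P.ord (φ1.eval ζ) ≤ N * mm := by
        rw [hφ1ζ, P.ord_mul hφζ0 (inv_ne_zero hlc0), P.ord_inv, hlcP0]
        omega
      have hγm' : (γ.natDegree : ℤ) * mm ≤ P.ord (γ.eval ζ) := by
        have h1 := ((hγP P).eval le_rfl hmm0 hζm).resolve_left hγζ0
        rw [hP] at h1
        omega
      rw [← hχγζ, P.ord_mul hχζ0 hγζ0] at hφ1m
      have h1 : (N : ℤ) = χ.natDegree + γ.natDegree := by exact_mod_cast hdegs.symm
      rw [h1] at hφ1m
      linarith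
    have hL := ((loc_hgt (κ := κ) ζ).mono hζH).add hLlam
    refine hcase0 Y _ _ hY0 hL fun P i => ?_
    have h1 : Y⁻¹ * x i = ζ * y0 i + y1 i := by
      have h2 := congrFun hv i
      rw [Pi.smul_apply, Pi.add_apply, Pi.smul_apply, smul_eq_mul, smul_eq_mul] at h2
      rw [h2, ← mul_assoc, inv_mul_cancel₀ hY0, one_mul]
    rw [h1]
    refine Ge.add (((ge_hgt ζ P).mul (hy0P P i)).mono (by omega)) ((hy1P P i).mono ?_)
    have := le_max_right (-P.ord ζ) 0
    omega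

end Pool.Agent.Y741
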