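import Pool.Agent.Y741.MMain

/-!
Curves of general type.
-/

set_option autoImplicit false

open FF Pool.Agent.W603.LV Pool.Agent.W603.PV Pool.Agent.TH145.GH
open Pool.Agent.W602.GT Pool.Agent.TH145.GF

namespace Pool.Agent.Y741

variable {k L : Type} [Field k] [Field L] [Algebra k L] [CharZero k] [IsFF k L] [IsAlgClosed k]

omit [CharZero k] [IsFF k L] [IsAlgClosed k] in
theorem div_one (P : Place k L) : Divisorial 1 P := by
  refine ⟨Fin.elim0, fun F hF => ?_⟩
  have he : IsEmpty (Fin (1 - 1)) := inferInstanceAs (IsEmpty (Fin 0))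
  obtain ⟨c, rfl⟩ := MvPolynomial.C_surjective (Fin (1 - 1)) F
  have hc : c ≠ 0 := by
    rintro rfl
    apply hF
    rw [map_zero]
  rw [MvPolynomial.aeval_C]
  exact ⟨(map_ne_zero _).2 hc, P.ord_const hc⟩

/-- The canonical degree of a curve of general type. -/
theorem gt_canDeg (h : GeneralType k L 1) : 1 ≤ canDeg k L := by
  classical
  obtain ⟨-, N, hN, ω, hpl, hreg, D, h0, hai⟩ := h
  obtain ⟨δ, hδ⟩ : ∃ δ, δ = D 0 := ⟨_, rfl⟩
  have hsc : ∀ (j : Fin 2) (c : L), ω j (fun _ => c • δ) = c ^ N * ω j D := by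
    intro j c
    have h1 := hpl j (Matrix.of fun _ _ => c) D
    rw [Matrix.det_unique, Matrix.of_apply] at h1
    rw [← h1]
    congr 1
    funext i
    rw [Fin.sum_univ_one, Matrix.of_apply, hδ]
  have hδ0 : δ ≠ 0 := by
    intro h1
    apply h0
    have h2 := hsc 0 0
    have h3 : (fun _ : Fin 1 => (0 : L) • δ) = D := by
      funext i
      rw [zero_smul, Subsingleton.elim i 0, ← hδ, h1]
    rw [h3, zero_pow hN.ne', zero_mul] at h2
    exact h2
  have hloc : ∀ (P : Place k L) (j : Fin 2), ω j D ≠ 0 → N * vo P δ ≤ P.ord (ω j D) := by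
    intro P j hj
    have hπ := ord_unif P
    have hδπ := der_pi_ne_zero hδ0 P hπ
    have h1 := hreg P (div_one P) j (fun _ => (δ (unif P))⁻¹ • δ) fun i f hf =>
      (der_reg P hπ ((δ (unif P))⁻¹ • δ) (by simp [hδπ]) hf)
    rw [hsc] at h1
    have h2 : (δ (unif P))⁻¹ ^ N * ω j D ≠ 0 := mul_ne_zero (pow_ne_zero _ (inv_ne_zero hδπ)) hj
    have h3 : 0 ≤ P.ord ((δ (unif P))⁻¹ ^ N * ω j D) := by
      rcases h1 with h1 | h1
      · exact absurd h1 h2
      · exact h1
    rw [P.ord_mul (pow_ne_zero _ (inv_ne_zero hδπ)) hj, P.ord_pow, P.ord_inv] at h3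
    unfold vo
    linarith
  obtain ⟨u, hu⟩ : ∃ u, u = ω 1 D / ω 0 D := ⟨_, rfl⟩
  have htr : Transcendental k u := by
    rw [hu]
    exact hai.transcendental 0
  have hu0 : u ≠ 0 := by
    rintro h1
    apply htr
    rw [h1]
    exact isAlgebraic_zero
  have h10 : ω 1 D ≠ 0 := by
    intro h1
    apply hu0
    rw [hu, h1, zero_div]
  obtain ⟨P0, hP0⟩ : ∃ P : Place k L, P.ord u < 0 := by
    by_contra hcon
    push Not at hcon
    have h1 := one_le_hgt htr
    have h2 : hgt k u = 0 := by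
      unfold hgt
      refine finsum_eq_zero_of_forall_eq_zero fun P => ?_
      have := hcon P
      omega
    omega
  have hT1 := finite_support (k := k) (ω 0 D)
  have hT2 := vo_finite (k := k) hδ0
  obtain ⟨T, hT⟩ : ∃ T, T = hT1.toFinset ∪ hT2.toFinset ∪ {P0} := ⟨_, rfl⟩
  have e1 := sum_ord_finset (k := k) (ω 0 D) T fun P hP => by
    rw [hT, Finset.mem_union, Finset.mem_union]
    exact Or.inl (Or.inl (hT1.mem_toFinset.2 hP))
  have e2 := canDeg_finset (k := k) hδ0 T fun P hP => by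
    rw [hT, Finset.mem_union, Finset.mem_union]
    exact Or.inl (Or.inr (hT2.mem_toFinset.2 hP))
  have e3 : ∑ P ∈ T, (N : ℤ) * vo P δ < ∑ P ∈ T, P.ord (ω 0 D) := by
    refine Finset.sum_lt_sum (fun P _ => hloc P 0 h0) ⟨P0, ?_, ?_⟩
    · rw [hT, Finset.mem_union]
      exact Or.inr (Finset.mem_singleton_self _)
    · have h1 := hloc P0 1 h10
      have h2 : P0.ord u = P0.ord (ω 1 D) - P0.ord (ω 0 D) := by
        rw [hu, P0.ord_div h10 h0]
      omega
  rw [← Finset.mul_sum, e1, e2] at e3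
  by_contra hcon
  push Not at hcon
  have h1 : (0 : ℤ) ≤ N * -canDeg k L := mul_nonneg (by positivity) (by omega)
  linarith

end Pool.Agent.Y741
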