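import Pool.Agent.Y741.UGm
import Pool.Agent.Y741.UCoord
import Pool.Agent.W603.PV.Disc

/-!
The degrees of the maps from affine curves to generic pairs.
-/

set_option autoImplicit false

open MvPolynomial FF Pool.Agent.W603.LV Pool.Agent.W603.PV Pool.Agent.TH145.GH
open Pool.Agent.TH145.GC (Cf finite_cf)
open Pool.Agent.W602.GT Pool.Agent.TH145.MG
open Pool.Agent.Y735 (po po_finite)

namespace Pool.Agent.Y741

theorem pord_ext {k L E : Type} [Field k] [Field L] [Field E] [Algebra k L] [Algebra k E]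
    [Algebra L E] [IsScalarTower k L E] [FiniteDimensional L E] [IsAlgClosed k] [CharZero k]
    [IsFF k L] [IsFF k E] (P : Place k E) {n : ℕ} {f : Fin (n + 1) → L} (hf : f ≠ 0) :
    pord P (fun j => algebraMap L E (f j)) = ram L P * pord (under L P) f := by
  obtain ⟨i, hi⟩ := Function.ne_iff.1 hf
  have hi' : f i ≠ 0 := hi
  have h0 : (0 : ℤ) ≤ ram L P := by positivity
  obtain ⟨j, hj, hjo⟩ := exists_pord (under L P) ⟨i, hi'⟩
  obtain ⟨l, hl, hlo⟩ := exists_pord P (f := fun j => algebraMap L E (f j))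
    ⟨i, (_root_.map_ne_zero _).2 hi'⟩
  have hl' : f l ≠ 0 := (_root_.map_ne_zero _).1 hl
  apply le_antisymm
  · rw [← hjo, ← ord_under]
    exact pord_le P (f := fun j => algebraMap L E (f j)) ((_root_.map_ne_zero _).2 hj)
  · rw [← hlo, ord_under]
    exact mul_le_mul_of_nonneg_left (pord_le (under L P) hl') h0

/-- A curve of positive degree meets the boundary. -/
theorem exists_meet {k L : Type} [Field k] [Field L] [Algebra k L] [IsAlgClosed k] [CharZero k]
    [IsFF k L] {n d : ℕ} (hd : 0 < d) {x : Fin (n + 1) → L} (hx : x ≠ 0) {z : L}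
    (h : 0 < pht k x) : ∃ P : Place k L, d * pord P x < P.ord z := by
  classical
  by_contra hcon
  push Not at hcon
  obtain ⟨i, hi⟩ := Function.ne_iff.1 hx
  obtain ⟨T, hT⟩ := exists_supp (k := k) (Finset.univ : Finset (Fin (n + 1) ⊕ Unit))
    (Sum.elim x fun _ => z)
  have h1 : ∀ j, ∀ P : Place k L, P.ord (x j) ≠ 0 → P ∈ T := fun j P =>
    hT (Sum.inl j) (Finset.mem_univ _) P
  have h2 : ∀ P : Place k L, P.ord z ≠ 0 → P ∈ T := fun P =>
    hT (Sum.inr ()) (Finset.mem_univ _) P
  have h3 : pht k x = ∑ P ∈ T, (- pord P x) := by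
    unfold pht
    rw [finsum_eq_sum_of_support_subset (s := T), Finset.sum_neg_distrib]
    intro P hP
    by_contra hc
    apply hP
    obtain ⟨j, hj, h⟩ := exists_pord P ⟨i, hi⟩
    simp only
    rw [← h]
    by_contra h'
    exact hc (h1 j P h')
  have h4 : ∑ P ∈ T, P.ord z = 0 := sum_ord_finset _ T h2
  have h5 : ∑ P ∈ T, P.ord z ≤ ∑ P ∈ T, (d : ℤ) * pord P x :=
    Finset.sum_le_sum fun P _ => hcon P
  rw [h4, ← Finset.mul_sum] at h5
  rw [h3, Finset.sum_neg_distrib] at h
  have h6 : (0 : ℤ) < d := by exact_mod_cast hd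
  nlinarith

/-- The degrees of the maps from affine curves to generic pairs. -/
theorem deg_pairs (n : ℕ) (A : Type) [Fintype A] [DecidableEq A] (dg : A → ℕ) (hn : 1 ≤ n)
    (hpos : ∀ a, 0 < dg a) (C : Finset A) (hCb : ∃ b, b ∉ C)
    (hd : 3 * n + 3 ≤ 2 * ∑ a, dg a + C.card) :
    ∃ B : ℕ, ∀ (k0 k L Ω : Type) [Field k0] [Field k] [Field L] [Field Ω] [Algebra k0 k]
      [Algebra k L] [Algebra L Ω] [IsAlgClosed k] [CharZero k] [IsFF k L] [IsAlgClosed Ω]
      (F : A → MvPolynomial (Fin (n + 1)) k), (∀ a, (F a).IsHomogeneous (dg a)) →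
      (AlgebraicIndependent k0 fun p : Cf n dg => (F p.1).coeff p.2.1) →
      ∀ (S : Finset (Place k L)) (x : Fin (n + 1) → L), x ≠ 0 →
      (∀ c ∈ C, aeval x (F c) = 0) → (∀ b, b ∉ C → aeval x (F b) ≠ 0) →
      (∀ b, b ∉ C → ∀ P ∉ S, P.ord (aeval x (F b)) = dg b * pord P x) →
      ¬ Exc 2 (mapF (algebraMap L Ω) fun a => map (algebraMap k L) (F a)) C
        (fun j => algebraMap L Ω (x j)) →
      pht k x ≤ B * max (canDeg k L + S.card) 0 := by
  classical
  obtain ⟨c, hc0, hc⟩ := curve_pairs n A dg hn hpos C hd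
  obtain ⟨b0, hb0⟩ := hCb
  refine ⟨(5 * c).toNat, ?_⟩
  intro k0 k L Ω _ _ _ _ _ _ _ _ _ _ _ F hF hgen S x hx0 hxC hxb hS hexc
  have hczL : CharZero L := charZero_of_injective_algebraMap (algebraMap k L).injective
  have e5 : (((5 * c).toNat : ℕ) : ℤ) = 5 * c := Int.toNat_of_nonneg (by positivity)
  rw [e5]
  rcases le_or_gt (pht k x) 0 with hp | hp
  · refine hp.trans ?_
    have := le_max_right (canDeg k L + (S.card : ℤ)) 0
    positivity
  obtain ⟨M, hM⟩ : ∃ M : Set (Place k L), M =
    {P : Place k L | ∃ b, b ∉ C ∧ dg b * pord P x < P.ord (aeval x (F b))} := ⟨_, rfl⟩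
  have hMS : M ⊆ S := by
    rw [hM]
    rintro P ⟨b, hb, hlt⟩
    by_contra hPS
    rw [hS b hb P hPS] at hlt
    exact lt_irrefl _ hlt
  have hMc : (M.ncard : ℤ) ≤ S.card := by
    have h1 := Set.ncard_le_ncard hMS S.finite_toSet
    rw [Set.ncard_coe_finset] at h1
    exact_mod_cast h1
  have hS1 : (1 : ℤ) ≤ S.card := by
    obtain ⟨P, hP⟩ := exists_meet (k := k) (hpos b0) hx0 (z := aeval x (F b0)) hp
    have h1 : P ∈ S := hMS (by rw [hM]; exact ⟨b0, hb0, hP⟩)
    have h2 : 0 < S.card := Finset.card_pos.2 ⟨P, h1⟩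
    exact_mod_cast h2
  obtain ⟨t, ht, ht1⟩ := exists_small k L
  rcases lt_or_ge 0 (canDeg k L + (S.card : ℤ)) with hχ | hχ
  · rw [max_eq_left hχ.le]
    have h1 := hc k0 k L Ω F hF hgen x hx0 t ht hxC hxb hexc
    rw [← hM] at h1
    refine h1.trans ?_
    have h2 : canDeg k L + 2 * hgt k t + M.ncard ≤ 5 * (canDeg k L + S.card) := by
      rcases le_or_gt (-1) (canDeg k L) with h3 | h3
      · rw [max_eq_left (by omega)] at ht1
        omega
      · rw [max_eq_right (by omega)] at ht1
        omega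
    calc c * (canDeg k L + 2 * hgt k t + M.ncard) ≤ c * (5 * (canDeg k L + S.card)) :=
          mul_le_mul_of_nonneg_left h2 hc0
      _ = 5 * c * (canDeg k L + S.card) := by ring
  · -- the projective line with at most two points removed
    exfalso
    rw [max_eq_right (by omega)] at ht1
    have hcd := canDeg_ge (k := k) ht
    have hS2 : S.card ≤ 2 := by omega
    obtain ⟨u, hu, hu1, huS⟩ := exists_u ht (by omega) S hS2
    obtain ⟨l, hl⟩ := Function.ne_iff.1 hx0
    have hl' : x l ≠ 0 := hl
    obtain ⟨j, hj⟩ : ∃ j, 1 ≤ hgt k (x j / x l) := by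
      by_contra hcon
      push Not at hcon
      have h1 := pht_le (k := k) x hl'
      have h2 : ∑ j, hgt k (x j / x l) ≤ ∑ _j : Fin (n + 1), (0 : ℤ) :=
        Finset.sum_le_sum fun j _ => by have := hcon j; omega
      rw [Finset.sum_const_zero] at h2
      omega
    have hj0 : x j ≠ 0 := by
      intro h0
      rw [h0, zero_div] at hj
      have h1 : hgt k (0 : L) = 0 := by
        have := hgt_algebraic (k := k) (K := L) (f := 0) isAlgebraic_zero
        exact this
      omega
    let _ : Algebra k Ω := ((algebraMap L Ω).comp (algebraMap k L)).toAlgebra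
    have hstΩ : IsScalarTower k L Ω := IsScalarTower.of_algebraMap_eq fun _ => rfl
    obtain ⟨E, hfd, hFFE, v, hvm, hv1, hvt, hmE⟩ := exists_root (k := k) Ω
      (m := (4 * c).toNat + 1) (by omega) hu hu1
    have hcdE := canDeg_le_zero (k := k) hvt hv1
    obtain ⟨x', hx'⟩ : ∃ x' : Fin (n + 1) → E, x' = fun j => algebraMap L E (x j) := ⟨_, rfl⟩
    have hx'0 : x' ≠ 0 := by
      intro h0
      have h1 := congrFun h0 l
      rw [hx'] at h1
      exact hl' ((map_eq_zero _).1 h1)
    have hev : ∀ a, aeval x' (F a) = algebraMap L E (aeval x (F a)) := by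
      intro a
      rw [hx']
      exact aeval_algebraMap_apply E x (F a)
    have h1 := hc k0 k E Ω F hF hgen x' hx'0 v hvt (fun c hc => by rw [hev, hxC c hc, map_zero])
      (fun b hb => by rw [hev]; exact (_root_.map_ne_zero _).2 (hxb b hb)) (by
        intro h
        apply hexc
        have e1 : (mapF (algebraMap E Ω) fun a => map (algebraMap k E) (F a)) =
            (mapF (algebraMap L Ω) fun a => map (algebraMap k L) (F a)) := by
          unfold mapF
          funext a
          rw [map_map, map_map]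
          rfl
        have e2 : (fun j => algebraMap E Ω (x' j)) = fun j => algebraMap L Ω (x j) := by
          rw [hx']
          funext j
          rw [← IsScalarTower.algebraMap_apply L E Ω]
        rw [e1, e2] at h
        exact h)
    have h2 : {P : Place k E | ∃ b, b ∉ C ∧ dg b * pord P x' < P.ord (aeval x' (F b))} ⊆
        {P : Place k E | P.ord v ≠ 0} := by
      rintro P ⟨b, hb, hlt⟩ hPv
      have hram : (0 : ℤ) < ram L P := by exact_mod_cast (ram_spec (F := L) P).1
      rw [hx', pord_ext P hx0, ← hx', hev, ord_under] at hlt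
      have h3 : dg b * pord (under L P) x < (under L P).ord (aeval x (F b)) := by
        by_contra hcon
        push Not at hcon
        have h4 := mul_le_mul_of_nonneg_left hcon hram.le
        have h5 : (ram L P : ℤ) * (dg b * pord (under L P) x) =
            dg b * (ram L P * pord (under L P) x) := by ring
        rw [h5] at h4
        exact absurd hlt (not_lt.2 h4)
      have h4 : under L P ∈ S := hMS (by rw [hM]; exact ⟨b, hb, h3⟩)
      have h5 := huS _ h4
      have h6 : P.ord (v ^ ((4 * c).toNat + 1)) = ram L P * (under L P).ord u := by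
        rw [hvm, ord_under]
      have hPv' : P.ord v = 0 := hPv
      rw [P.ord_pow, hPv', mul_zero] at h6
      rcases mul_eq_zero.1 h6.symm with h7 | h7
      · exact hram.ne' h7
      · exact h5 h7
    have h3 := Set.ncard_le_ncard h2 (finite_support (k := k) v)
    have h4 := card_supp_le (k := k) v
    have h5 : pht k x' ≤ c * 4 := by
      refine h1.trans (mul_le_mul_of_nonneg_left ?_ hc0)
      have h3' : (({P : Place k E | ∃ b, b ∉ C ∧ dg b * pord P x' <
        P.ord (aeval x' (F b))}.ncard : ℕ) : ℤ) ≤ ({P : Place k E | P.ord v ≠ 0}.ncard : ℕ) := by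
        exact_mod_cast h3
      omega
    have h6 := Pool.Agent.W603.CX.hgt_le_pht (k := k) x' (j := j) (l := l)
      (by rw [hx']; exact (_root_.map_ne_zero _).2 hj0)
      (by rw [hx']; exact (_root_.map_ne_zero _).2 hl')
    have h7 : x' j / x' l = algebraMap L E (x j / x l) := by
      rw [hx', map_div₀]
    rw [h7, hgt_algebraMap] at h6
    have h8 : ((4 * c).toNat : ℤ) = 4 * c := Int.toNat_of_nonneg (by positivity)
    have h9 : (((4 * c).toNat + 1 : ℕ) : ℤ) ≤ Module.finrank L E := by exact_mod_cast hmE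
    push_cast at h9
    rw [h8] at h9
    have h10 : (Module.finrank L E : ℤ) ≤ Module.finrank L E * hgt k (x j / x l) := by
      nlinarith
    linarith

end Pool.Agent.Y741
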