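import Pool.Agent.Y741.MCurve
import Pool.Agent.Y741.LLine
import Pool.Agent.Y741.UDeg

/-!
Generic complete intersections: lines, subvarieties, curves.
-/

set_option autoImplicit false

open MvPolynomial FF Pool.Agent.W603.LV Pool.Agent.W603.PV Pool.Agent.TH145.GH
open Pool.Agent.Y735 (pl rho eval_rho)
open Pool.Agent.TH145.GC (Cf)
open Pool.Agent.W602.GT Pool.Agent.TH145.MG Pool.Agent.TH145.GF
open LinearAlgebra.Projectivization

namespace Pool.Agent.Y741

theorem exc_of_lineK {K : Type} [Field K] {n : ℕ} {A : Type} [Fintype A] [DecidableEq A]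
    {F : Fam K n A} {x : Fin (n + 1) → K} (h : LineK F x) : Exc 2 F Finset.univ x := by
  obtain ⟨y, ik, hik, hOn⟩ := h
  refine ⟨y, ik, hik, hOn, fun _ => 0, fun _ => 0, ?_⟩
  simp [bdy]

theorem log_of_gt {k K : Type} [Field k] [Field K] [Algebra k K] {w : ℕ}
    (h : GeneralType k K w) (Bd : Place k K → Prop) : LogGeneralType k K w Bd := by
  obtain ⟨h1, N, hN, ω, h2, h3, h4⟩ := h
  refine ⟨h1, N, hN, ω, h2, fun P hP j Dd hDd => h3 P hP j Dd fun i f hf => ?_,
    fun P hP _ j => h3 P hP j, h4⟩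
  by_cases hf0 : f = 0
  · rw [hf0, map_zero]
    exact Or.inl rfl
  · have h5 := hDd i f
    have h6 : Ge P 0 (Dd i f / f * f) := by
      have := Ge.mul (P := P) (M := 0) (N := 0) h5 hf
      rwa [add_zero] at this
    rw [div_mul_cancel₀ _ hf0] at h6
    exact h6

section

variable {k0 k : Type} [Field k0] [Field k] [Algebra k0 k] [IsAlgClosed k] [CharZero k] {n : ℕ}
  {A : Type} [Fintype A] [DecidableEq A] {d : A → ℕ} {G : A → MvPolynomial (Fin (n + 1)) k}

/-- The closed subvarieties. -/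
def SubX {k A K : Type} [Field k] [Field K] [Algebra k K] {n : ℕ}
    (G : A → MvPolynomial (Fin (n + 1)) k) (w : ℕ) (y : Fin (n + 1) → K) : Prop :=
  (y ≠ 0 ∧ ∀ c, aeval y (G c) = 0) ∧
    Algebra.trdeg k K = w ∧ Algebra.IsAlgebraic (coords k y) K

/-- The subvarieties that are not of general type are covered by lines. -/
theorem mf_dich (hn : 1 ≤ n) (hd0 : ∀ a, 0 < d a) (hG : ∀ a, (G a).IsHomogeneous (d a))
    (hind : AlgebraicIndependent k0 fun p : Cf n d => (G p.1).coeff p.2.1)
    (hd : 3 * n + 3 ≤ 2 * ∑ a, d a + Fintype.card A) {K : Type} [Field K] [Algebra k K] {w : ℕ}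
    {y : Fin (n + 1) → K} (hw : 0 < w) (hy : SubX G w y) (hy' : ¬ GeneralType k K w)
    (Ω : Type) [Field Ω] [Algebra k Ω] [IsAlgClosed Ω] (ψ : K →ₐ[k] Ω) :
    Exc 2 (fun a => map (algebraMap k Ω) (G a)) Finset.univ (fun j => ψ (y j)) := by
  obtain ⟨⟨hy0, hyC⟩, htr, hgen⟩ := hy
  have h1 := (gt_or_line (k0 := k0) hn hd0 hG hind hd hw htr hy0 hgen hyC
    (ψ : K →+* Ω)).resolve_left hy'
  have h2 : mapF (ψ : K →+* Ω) (fun a => map (algebraMap k K) (G a)) =
      fun a => map (algebraMap k Ω) (G a) := by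
    funext a
    unfold mapF
    rw [map_map, ψ.comp_algebraMap]
  rw [h2] at h1
  exact exc_of_lineK h1

omit [IsAlgClosed k] [CharZero k] in
theorem mf_line (hG : ∀ a, (G a).IsHomogeneous (d a)) {Ω : Type} [Field Ω] [Algebra k Ω]
    [CharZero Ω]
    {x : Fin (n + 1) → Ω} (hE : Exc 2 (fun a => map (algebraMap k Ω) (G a)) Finset.univ x) :
    ∃ W : Submodule Ω (Fin (n + 1) → Ω), (Module.finrank Ω W = 2 ∧ ∀ a, ∀ v ∈ W, eval v (map (algebraMap k Ω) (G a)) = 0) ∧
      x ∈ W := by
  obtain ⟨W, h1, h2, h3⟩ := exc_line (F := fun a => map (algebraMap k Ω) (G a))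
    (fun a => (hG a).map _) (fun b hb => absurd (Finset.mem_univ b) hb) hE
  exact ⟨W, ⟨h1.1, fun a v hv => h1.2 a (Finset.mem_univ a) v hv⟩, h3⟩

omit [IsAlgClosed k] [CharZero k] in
/-- There are no lines in large degree. -/
theorem mf_none (hG : ∀ a, (G a).IsHomogeneous (d a))
    (hind : AlgebraicIndependent k0 fun p : Cf n d => (G p.1).coeff p.2.1)
    (hd : 2 * n ≤ ∑ a, d a + Fintype.card A + 1) (Ω : Type) [Field Ω] [Algebra k Ω] [IsAlgClosed Ω]
    [CharZero Ω] {x : Fin (n + 1) → Ω}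
    (hE : Exc 2 (fun a => map (algebraMap k Ω) (G a)) Finset.univ x) : False := by
  obtain ⟨W, h1, h2, h3⟩ := exc_line (F := fun a => map (algebraMap k Ω) (G a))
    (fun a => (hG a).map _) (fun b hb => absurd (Finset.mem_univ b) hb) hE
  exact no_exc_ext' (Ω := Ω) Finset.univ (Or.inr ⟨rfl, by rw [Finset.card_univ]; exact hd⟩) hG hind
    W h1 h2

/-- All subvarieties are of general type in large degree. -/
theorem mf_gt (hn : 1 ≤ n) (hd0 : ∀ a, 0 < d a) (hG : ∀ a, (G a).IsHomogeneous (d a))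
    (hind : AlgebraicIndependent k0 fun p : Cf n d => (G p.1).coeff p.2.1)
    (hd : 3 * n + 3 ≤ 2 * ∑ a, d a + Fintype.card A)
    (hd2 : 2 * n ≤ ∑ a, d a + Fintype.card A + 1) {K : Type} [Field K] [Algebra k K] {w : ℕ}
    {y : Fin (n + 1) → K} (hw : 0 < w) (hy : SubX G w y) : GeneralType k K w := by
  by_contra hcon
  have hK : CharZero K := charZero_of_injective_algebraMap (algebraMap k K).injective
  have hO : CharZero (AlgebraicClosure K) :=
    charZero_of_injective_algebraMap (algebraMap K (AlgebraicClosure K)).injective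
  exact mf_none (k0 := k0) hG hind hd2 (AlgebraicClosure K) (mf_dich (k0 := k0) hn hd0 hG hind hd hw
    hy hcon (AlgebraicClosure K) (IsScalarTower.toAlgHom k K (AlgebraicClosure K)))

/-- The points that are not constant generate the function field. -/
theorem alg_of_pht {k L : Type} [Field k] [Field L] [Algebra k L] [IsAlgClosed k] [CharZero k]
    [IsFF k L] {x : Fin (n + 1) → L} (hx0 : x ≠ 0) (hp : 0 < pht k x) :
    Algebra.IsAlgebraic (coords k x) L := by
  obtain ⟨l, hl⟩ := Function.ne_iff.1 hx0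
  have hl' : x l ≠ 0 := hl
  obtain ⟨j, hj⟩ : ∃ j, 1 ≤ hgt k (x j / x l) := by
    by_contra hcon
    push Not at hcon
    have h1 := pht_le (k := k) x hl'
    have h2 : ∑ j, hgt k (x j / x l) ≤ ∑ _j : Fin (n + 1), (0 : ℤ) :=
      Finset.sum_le_sum fun j _ => by have := hcon j; omega
    rw [Finset.sum_const_zero] at h2
    omega
  have htr : Transcendental k (x j / x l) := by
    intro halg
    obtain ⟨c, hc⟩ := const_of_algebraic halg
    rw [hc] at hj
    have h1 : hgt k (algebraMap k L c) = 0 := by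
      unfold hgt
      refine finsum_eq_zero_of_forall_eq_zero fun P => ?_
      by_cases h0 : c = 0
      · rw [h0, map_zero, P.ord_zero]
        simp
      · rw [P.ord_const h0]
        simp
    omega
  have h1 := IsFF.isAlgebraic htr
  refine ⟨fun f => ?_⟩
  have h3 : IntermediateField.adjoin k {x j / x l} ≤ coords k x := by
    rw [IntermediateField.adjoin_le_iff]
    rintro _ rfl
    exact IntermediateField.subset_adjoin _ _ ⟨j, l, hl', rfl⟩
  exact Pool.Agent.TH145.MF.alg_mono
    (F1 := (IntermediateField.adjoin k {x j / x l}).toSubfield)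
    (F2 := (coords k x).toSubfield) (fun z hz => h3 hz) (h1.isAlgebraic f)

end

/-- The degrees of the curves that are not in lines. -/
theorem mf_deg (n : ℕ) (A : Type) [Fintype A] [DecidableEq A] (d : A → ℕ) (hn : 1 ≤ n)
    (hd0 : ∀ a, 0 < d a) (hd : 3 * n + 3 ≤ 2 * ∑ a, d a + Fintype.card A) :
    ∃ B : ℕ, ∀ (k0 k L : Type) [Field k0] [Field k] [Field L] [Algebra k0 k]
      [Algebra k L] [IsAlgClosed k] [CharZero k] [IsFF k L]
      (G : A → MvPolynomial (Fin (n + 1)) k), (∀ a, (G a).IsHomogeneous (d a)) →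
      (AlgebraicIndependent k0 fun p : Cf n d => (G p.1).coeff p.2.1) →
      ∀ (x : Fin (n + 1) → L), x ≠ 0 → (∀ a, aeval x (G a) = 0) →
      pht k x ≤ B * max (canDeg k L) 0 ∨
        Exc 2 (fun a => map (algebraMap k (AlgebraicClosure L)) (G a)) Finset.univ
          (fun j => algebraMap L (AlgebraicClosure L) (x j)) := by
  classical
  obtain ⟨c, hc0, hc⟩ := curve_pairs n A d hn hd0 Finset.univ (by rw [Finset.card_univ]; exact hd)
  refine ⟨(7 * c).toNat, ?_⟩
  intro k0 k L _ _ _ _ _ _ _ _ G hG hind x hx0 hxC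
  have e7 : (((7 * c).toNat : ℕ) : ℤ) = 7 * c := Int.toNat_of_nonneg (by positivity)
  rw [e7]
  by_cases hE : Exc 2 (fun a => map (algebraMap k (AlgebraicClosure L)) (G a)) Finset.univ
      (fun j => algebraMap L (AlgebraicClosure L) (x j))
  · exact Or.inr hE
  left
  rcases le_or_gt (pht k x) 0 with hp | hp
  · refine hp.trans ?_
    have := le_max_right (canDeg k L) 0
    positivity
  have hFF : IsFF k L := inferInstance
  have hgt : GeneralType k L 1 := by
    by_contra hcon
    exact hE (mf_dich (k0 := k0) hn hd0 hG hind hd one_pos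
      ⟨⟨hx0, hxC⟩, by rw [hFF.trdeg, Nat.cast_one], alg_of_pht hx0 hp⟩ hcon (AlgebraicClosure L)
      (IsScalarTower.toAlgHom k L (AlgebraicClosure L)))
  have h1 := gt_canDeg hgt
  obtain ⟨t, ht, ht1⟩ := exists_small k L
  rw [max_eq_left (by omega)] at ht1
  have hmapF : (mapF (algebraMap L (AlgebraicClosure L)) fun a => map (algebraMap k L) (G a)) =
      fun a => map (algebraMap k (AlgebraicClosure L)) (G a) := by
    unfold mapF
    funext a
    rw [map_map, ← IsScalarTower.algebraMap_eq]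
  have h2 := hc k0 k L (AlgebraicClosure L) G hG hind x hx0 t ht (fun c _ => hxC c)
    (fun b hb => absurd (Finset.mem_univ b) hb) (by rw [hmapF]; exact hE)
  have h3 : {P : Place k L | ∃ b, b ∉ (Finset.univ : Finset A) ∧
      d b * pord P x < P.ord (aeval x (G b))} = ∅ := by
    rw [Set.eq_empty_iff_forall_notMem]
    rintro P ⟨b, hb, -⟩
    exact hb (Finset.mem_univ b)
  rw [h3, Set.ncard_empty, Nat.cast_zero, add_zero] at h2
  rw [max_eq_left (by omega)]
  nlinarith

end Pool.Agent.Y741
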