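import Pool.Agent.Y741.LVrd
import Pool.Agent.Y741.KComb

/-!
The trichotomy without boundary, with vertical derivations.
-/

set_option autoImplicit false

open MvPolynomial FF Pool.Agent.W603.LV Pool.Agent.W603.PV Pool.Agent.TH145.GH
open Pool.Agent.Y735 (lf dt pl rho rho_deg eval_rho mem_Mx exists_ms_mt Good exists_pl fht line_basis)

namespace Pool.Agent.Y741

variable {K : Type} [Field K] {n : ℕ} {A X0 : Type}

/-- The hypersurface `F c = 0` meets the line in the point `x` only. -/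
def Tot (F : Fam K n A) (dg : A → ℕ) (x y : Fin (n + 1) → K) (c : A) : Prop :=
  (∀ a b : K, eval (a • x + b • y) (F c) = b ^ dg c * eval y (F c)) ∧
    ∃ a b : K, eval (a • x + b • y) (F c) ≠ 0

section
variable [DecidableEq A] [Fintype A] {F : Fam K n A} [Fintype X0]
  {dg : A → ℕ} {D : A → (Fin (n + 1) →₀ ℕ) → Derivation ℤ K K} {E : X0 → Derivation ℤ K K}
  [CharZero K]
  (hpos : ∀ a, 0 < dg a) (hF : ∀ a, (F a).IsHomogeneous (dg a))
  (hD : TH145.GC.Dual F dg D) (hFK : ∀ ξ a u, E ξ ((F a).coeff u) = 0)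

include hpos hF hD hFK

/-- The trichotomy. -/
theorem tricho_EK (hcm : Comm D) (hn : 1 ≤ n) (hX : 0 < Fintype.card X0)
    (hd : 3 * n + 3 ≤ 2 * ∑ a, dg a + Fintype.card A)
    {x : Fin (n + 1) → K} (hxC : ∀ c, eval x (F c) = 0) (hx0 : x ≠ 0)
    (hind : Module.finrank K (Submodule.span K {x} ⊔ Ve E x : Submodule K (Fin (n + 1) → K)) =
      1 + Fintype.card X0) :
    (∃ (y : Fin (n + 1) → K) (ik : Fin (n + 1) × Fin (n + 1)), pl x y ik ≠ 0 ∧
      OnL F Finset.univ x y) ∨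
    (∃ (w b u t : ℕ) (rn : RN n A (Fin w) (Fin b) (Fin u) (Fin t)) (y : Fin (n + 1) → K)
      (i0 : Fin (n + 1)) (ik : Fin (n + 1) × Fin (n + 1)), x i0 ≠ 0 ∧ pl x y ik ≠ 0 ∧
      VRE F dg D E Finset.univ x y i0 ik rn ∧
      ((n + 1 + b + t + 1 ≤ ∑ a, dg a ∧ u ≤ t) ∨ (n + 1 + b + t ≤ ∑ a, dg a ∧ u < t) ∨
        ∃ c1 c, n + 1 + b + t = ∑ a, dg a + c1 ∧ u + c1 + 1 ≤ t ∧ Tot F dg x y c)) := by
  classical
  have hxC' : ∀ c ∈ (Finset.univ : Finset A), eval x (F c) = 0 := fun c _ => hxC c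
  have hxb : ∀ b, b ∉ (Finset.univ : Finset A) → eval x (F b) ≠ 0 := fun b hb =>
    absurd (Finset.mem_univ b) hb
  have hker := TC_finrank hF hD hxC' hx0
  have hWle : WspE F D E x ≤ TC F Finset.univ x := sup_le (Wsp_le hpos hF hD hxC') (Ve_le hFK hxC')
  have hwn := Submodule.finrank_mono hWle
  have hw1 : 1 + Fintype.card X0 ≤ Module.finrank K (WspE F D E x) := by
    rw [← hind]
    exact Submodule.finrank_mono (sup_le_sup_right le_sup_left _)
  rw [Finset.card_univ] at hker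
  have hcu : (Finset.univ : Finset A).card = Fintype.card A := Finset.card_univ
  obtain ⟨S, hS⟩ : ∃ S, S = ∑ a, dg a := ⟨_, rfl⟩
  obtain ⟨N, hN⟩ : ∃ N, N = Module.finrank K (TC F Finset.univ x) := ⟨_, rfl⟩
  obtain ⟨w, hw⟩ : ∃ w, w = Module.finrank K (WspE F D E x) := ⟨_, rfl⟩
  rw [← hS]
  rw [← hS] at hd
  rw [← hN] at hker
  rw [← hw, ← hN] at hwn
  rw [← hw] at hw1
  by_cases hG : Good (Bset D x dg) (TC F Finset.univ x) (WspE F D E x)
  · rcases Nat.even_or_odd' (N - w) with ⟨p, hp | hp⟩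
    · right
      obtain ⟨a, rn, y, i0, ik, hi0, hik, h⟩ := vre_even hpos hF hD hFK hn hxC' hxb hx0 hind hG
        (p := p) (by rw [← hw, hcu]; omega)
      exact ⟨a, p, 0, 0, rn, y, i0, ik, hi0, hik, h, Or.inl ⟨by omega, by omega⟩⟩
    · right
      obtain ⟨a, rn, y, i0, ik, hi0, hik, h⟩ := vre_odd hpos hF hD hFK hxC' hxb hx0 hind hG
        (p := p) (by rw [← hw, hcu]; omega)
      exact ⟨a, p, 0, 1, rn, y, i0, ik, hi0, hik, h, Or.inl ⟨by omega, by omega⟩⟩
  · unfold Good at hG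
    push Not at hG
    obtain ⟨φ, hφ0, hφ⟩ := hG
    obtain ⟨y, hy, ik, hik⟩ := exists_pl hx0 hφ0
    rw [← VlE_eq F dg D E hy, ← hN, ← hw] at hφ
    have hWV : w ≤ Module.finrank K (VlE F dg D E x y) := by
      rw [hw]
      exact Submodule.finrank_mono (WspE_le_VlE F dg D E x y)
    have hVV : Module.finrank K (Vl F dg D x y) ≤ Module.finrank K (VlE F dg D E x y) :=
      Submodule.finrank_mono le_sup_left
    have hL := fun h1 h2 => on_lineK hpos hF hD hcm hxC hik h1 h2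
    obtain ⟨v, hv⟩ : ∃ v, v = Module.finrank K (VlE F dg D E x y) := ⟨_, rfl⟩
    rw [← hv] at hφ hWV hVV
    rw [← hS] at hL
    obtain ⟨a, rn, i0, hi0, h⟩ := vre_line hpos hF hD hFK hxC' hxb hik (j := v - w) (r := N - v)
      hind (by rw [← hw, ← hv]; omega)
      (by rw [← hv, hcu]; omega)
    by_cases h1 : S + Fintype.card A + v ≤ 2 * n + 1
    · rcases hL (by omega) (by omega) with h2 | ⟨c, h2⟩
      · exact Or.inl ⟨y, ik, hik, h2⟩
      · right
        exact ⟨a, 0, v - w, N - v, rn, y, i0, ik, hi0, hik, h, Or.inr (Or.inr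
          ⟨n + 1 + (N - v) - S, c, by omega, by omega, h2⟩)⟩
    · right
      exact ⟨a, 0, v - w, N - v, rn, y, i0, ik, hi0, hik, h, Or.inr (Or.inl ⟨by omega, by omega⟩)⟩

end

end Pool.Agent.Y741
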