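import Pool.Agent.Y741.LPhi
import Pool.Agent.Y741.LMain
import Pool.Agent.Y741.MTri

/-!
The form given by a valid choice of the rows, without boundary.
-/

set_option autoImplicit false

open MvPolynomial FF Pool.Agent.W603.LV Pool.Agent.W603.PV Pool.Agent.TH145.GH
open Pool.Agent.Y735 (lf pm tm pl vol vol_apply po po_le exists_po)
open Pool.Agent.W602.GT Pool.Agent.TH145.GF

namespace Pool.Agent.Y741

section

variable {k L : Type} [Field k] [Field L] [Algebra k L] {n w : ℕ}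
  [CharZero k] {A : Type} [DecidableEq A] [Fintype A] {F : Fam L n A} {dg : A → ℕ}
  {D : A → (Fin (n + 1) →₀ ℕ) → Derivation ℤ L L}

/-- The form given by a valid choice of the rows, for small degrees. -/
theorem exists_phi_neg {W B U T : Type} [Fintype W] [Fintype B] [Fintype U] [Fintype T]
    (hpos : ∀ a, 0 < dg a) (hF : ∀ a, (F a).IsHomogeneous (dg a)) (hD : TH145.GC.Dual F dg D)
    (hw : 0 < w) (htr : Algebra.trdeg k L = w)
    (hS : ∀ a I, Sem k (D a I)) {t : Fin w → L} (ht : IsTranscendenceBasis k t)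
    {E : Fin w → Derivation k L L} (hEt : ∀ i j, E i (t j) = if i = j then 1 else 0)
    (hFk : ∀ a u, ∃ c : k, (F a).coeff u = algebraMap k L c)
    {C : Finset A} {x y : Fin (n + 1) → L}
    (hxC : ∀ c ∈ C, eval x (F c) = 0) (hxb : ∀ b, b ∉ C → eval x (F b) ≠ 0)
    {i0 : Fin (n + 1)} (hi0 : x i0 ≠ 0) {ik : Fin (n + 1) × Fin (n + 1)} (hik : pl x y ik ≠ 0)
    (rn : RN n A W B U T) (hrn : VRE F dg D (vE E) C x y i0 ik rn) {h r : ℕ}
    (hh : n + 1 + Fintype.card B + Fintype.card T = ∑ a, dg a + h)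
    (hr : Fintype.card U + r = Fintype.card T) :
    ∃ Φ : (Fin w → Derivation k L L) → L,
      (∀ (M : Matrix (Fin w) (Fin w) L) (D1 D2 : Fin w → Derivation k L L),
        (∀ i f, D1 i f = ∑ j, M i j * D2 j f) → Φ D1 = M.det * Φ D2) ∧ Φ E ≠ 0 ∧
      ∀ Q : Place k L, Divisorial w Q → ∀ Dd : Fin w → Derivation k L L,
        (((∀ i, DerReg Q (Dd i)) ∧ ∀ b, b ∉ C → Q.ord (eval x (F b)) ≤ dg b * pord Q x) ∨
          ∀ i, DerLog Q (Dd i)) →
        Ge Q (h * pord Q (nx x i0) - r * po Q (np x y ik)) (Φ Dd) := by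
  classical
  have hPBh := fun b a => nf_hom (K := L) (hrn.PB b) a
  have hPUh := fun b a => nf_hom (K := L) (hrn.PU b) a
  have hPTh := fun b a => nf_hom (K := L) (hrn.PT b) a
  have hcard := hrn.card
  rw [Fintype.card_fin] at hcard
  have hEc : Fintype.card (Ri C (Fin w ⊕ W) B U T) = Fintype.card (Fin (n + 1)) := by
    simp only [Fintype.card_option, Fintype.card_sum, Fintype.card_fin, Fintype.card_coe]
    omega
  obtain ⟨V⟩ : Nonempty (Ri C (Fin w ⊕ W) B U T ≃ Fin (n + 1)) := Fintype.card_eq.1 hEc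
  obtain ⟨R, hR⟩ : ∃ R : (Fin w → Derivation k L L) → Ri C (Fin w ⊕ W) B U T → Fin (n + 1) → L,
      ∀ Dd, R Dd = rowE F dg D (vE Dd) C x y i0 ik (rn.rd L) := ⟨_, fun _ => rfl⟩
  have htop : Submodule.span L (Set.range (R E)) = ⊤ := by
    rw [eq_top_iff]
    intro z _
    have h1 := exists_dec hF hD hxC hi0 z
    have h2 : Submodule.span L (rowE F dg D (vE E) C x y i0 ik (rn.rd L) '' {l | rk l < 3}) ≤
        Submodule.span L (Set.range (R E)) := by
      rw [hR]
      exact Submodule.span_mono (Set.image_subset_range _ _)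
    have h3 := h2 (hrn.span h1)
    have h4 : ∑ c : C, (-(dF (F c) x z / x i0 ^ dg c.1)) •
        vA D x (Pi.single c.1 (X i0 ^ dg c.1)) ∈ Submodule.span L (Set.range (R E)) :=
      sum_mem fun c _ => Submodule.smul_mem _ _ (Submodule.subset_span
        ⟨Sum.inl c, by rw [hR]; rfl⟩)
    have h5 := add_mem h3 h4
    rwa [sub_add_cancel] at h5
  have hind : LinearIndependent L (R E) :=
    linearIndependent_of_top_le_span_of_card_eq_finrank htop.ge (by
      rw [hEc, Fintype.card_fin, Module.finrank_fin_fun])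
  have hdet : vol V (R E) ≠ 0 := by
    rw [vol_apply]
    have h4 := Matrix.linearIndependent_rows_iff_isUnit
      (A := Matrix.of fun i => R E (V.symm i))
    rw [Matrix.isUnit_iff_isUnit_det, isUnit_iff_ne_zero] at h4
    refine h4.1 ?_
    exact (linearIndependent_equiv V.symm).2 hind
  obtain ⟨Z, hZ⟩ : ∃ Z, Z = (∏ c ∈ C, x i0 ^ dg c) * ∏ b ∈ Cᶜ, eval x (F b) := ⟨_, rfl⟩
  have hZ0 : Z ≠ 0 := by
    rw [hZ]
    exact mul_ne_zero (Finset.prod_ne_zero_iff.2 fun c _ => pow_ne_zero _ hi0)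
      (Finset.prod_ne_zero_iff.2 fun b hb => hxb b (Finset.mem_compl.1 hb))
  obtain ⟨q, hq⟩ : ∃ q : L, q = pl x y ik ^ r / x i0 ^ (Fintype.card B + h) := ⟨_, rfl⟩
  have hq0 : q ≠ 0 := by
    rw [hq]
    exact div_ne_zero (pow_ne_zero _ hik) (pow_ne_zero _ hi0)
  have hlin : ∀ (M : Matrix (Fin w) (Fin w) L) (D1 D2 : Fin w → Derivation k L L),
      (∀ i f, D1 i f = ∑ j, M i j * D2 j f) →
      vol V (R D1) / Z * q = M.det * (vol V (R D2) / Z * q) := by
    intro M D1 D2 h1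
    have h2 := vol_lin (F := F) (dg := dg) (D := D) (E1 := vE D1) (E2 := vE D2) (C := C)
      (x := x) (y := y) (i0 := i0) (ik := ik) (rn.rd L) V M (fun i f => h1 i f)
    rw [hR, hR, h2]
    ring
  refine ⟨fun Dd => vol V (R Dd) / Z * q, hlin, mul_ne_zero (div_ne_zero hdet hZ0) hq0, ?_⟩
  intro Q hQ Dd hDd
  obtain ⟨M, hM⟩ : ∃ M : Matrix (Fin w) (Fin w) L, M = Matrix.of fun i j => Dd i (t j) := ⟨_, rfl⟩
  have hωM := hlin M Dd E (fun i f => by
    rw [der_comb ht hEt (Dd i) f, hM]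
    rfl)
  by_cases hM0 : M.det = 0
  · dsimp only
    rw [hωM, hM0, zero_mul]
    exact Ge.zero
  rw [hM] at hM0
  have h1 := ord_phi hpos hF hD hw htr hQ hS ht hEt hFk (Dd := Dd) hM0 hxC hxb hi0 hik
    (rn.rd L) hPBh hPUh hPTh (fun b a => nf_nc _ a) (fun b a => nf_nc _ a)
    (fun b a => nf_nc _ a) hrn.hT hrn.span hcard V (by rw [← hR]; exact hdet) hDd
  rw [← hR, ← hZ] at h1
  have hv0 : vol V (R Dd) / Z ≠ 0 := by
    have h2 : vol V (R Dd) / Z * q ≠ 0 := by
      rw [hωM, hM]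
      exact mul_ne_zero hM0 (mul_ne_zero (div_ne_zero hdet hZ0) hq0)
    exact left_ne_zero_of_mul h2
  right
  rw [Q.ord_mul hv0 hq0, hq, Q.ord_div (pow_ne_zero _ hik) (pow_ne_zero _ hi0), Q.ord_pow,
    Q.ord_pow]
  have h3 : pord Q (nx x i0) = pord Q x - Q.ord (x i0) := by
    have h4 : nx x i0 = fun j => (x i0)⁻¹ * x j := by
      funext j
      rw [nx, div_eq_mul_inv, mul_comm]
    rw [h4, pord_scale Q ⟨i0, hi0⟩ (inv_ne_zero hi0), Q.ord_inv]
    ring
  have h5 : po Q (np x y ik) = po Q (pl x y) - Q.ord (pl x y ik) := by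
    have h4 : np x y ik = fun j => (pl x y ik)⁻¹ * pl x y j := by
      funext j
      rw [np, div_eq_mul_inv, mul_comm]
    rw [h4, po_scale Q (fun h => hik (congrFun h ik)) (inv_ne_zero hik), Q.ord_inv]
    ring
  rw [h3, h5]
  have h6 : ((∑ a, dg a : ℕ) : ℤ) = n + 1 + Fintype.card B + Fintype.card T - h := by
    have h8 : ((n + 1 + Fintype.card B + Fintype.card T : ℕ) : ℤ) = ((∑ a, dg a + h : ℕ) : ℤ) := by
      exact_mod_cast hh
    push_cast at h8 ⊢
    linarith
  have h7 : (Fintype.card T : ℤ) = Fintype.card U + r := by exact_mod_cast hr.symm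
  rw [h6] at h1
  push_cast at h1
  rw [h7] at h1
  push_cast
  nlinarith [h1]


omit [CharZero k] [DecidableEq A] [Fintype A] in
/-- The orders on a line that meets a hypersurface in one point only. -/
theorem tot_ord {G : A → MvPolynomial (Fin (n + 1)) k} (hG : ∀ a, (G a).IsHomogeneous (dg a))
    (hFG : ∀ a, F a = map (algebraMap k L) (G a))
    {x y : Fin (n + 1) → L} {ik : Fin (n + 1) × Fin (n + 1)} (hik : pl x y ik ≠ 0) {c : A}
    (ht : Tot F dg x y c) : eval y (F c) ≠ 0 ∧ ∀ Q : Place k L,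
      dg c * po Q (pl x y) ≤ dg c * pord Q x + Q.ord (eval y (F c)) := by
  obtain ⟨h1, a, b, hab⟩ := ht
  have hy : eval y (F c) ≠ 0 := by
    intro h0
    apply hab
    rw [h1, h0, mul_zero]
  refine ⟨hy, fun Q => ?_⟩
  have hx0 : ∃ j, x j ≠ 0 := by
    by_contra hcon
    push Not at hcon
    apply hik
    rw [pl, hcon, hcon, zero_mul, zero_mul, sub_zero]
  obtain ⟨j, hj, hjo⟩ := exists_pord Q hx0
  obtain ⟨z, hz⟩ : ∃ z, z = (-(y j)) • x + (x j) • y := ⟨_, rfl⟩
  have h2 : eval z (F c) = x j ^ dg c * eval y (F c) := by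
    rw [hz]
    exact h1 _ _
  have h3 : x j ^ dg c * eval y (F c) ≠ 0 := mul_ne_zero (pow_ne_zero _ hj) hy
  have h6 : eval z (F c) = aeval z (G c) := by
    rw [hFG, eval_map]
    rfl
  have h4 : Ge Q (dg c * pord Q z) (aeval z (G c)) := ge_form Q z (hG c) fun α hα =>
    Or.inr (Q.ord_const (mem_support_iff.1 hα)).ge
  rw [← h6, h2] at h4
  have h5 := h4.resolve_left h3
  rw [Q.ord_mul (pow_ne_zero _ hj) hy, Q.ord_pow, hjo] at h5
  have hz0 : ∃ i, z i ≠ 0 := by
    by_contra hcon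
    push Not at hcon
    apply hik
    have h7 : ∀ i, pl x y (j, i) = 0 := fun i => by
      have h8 := hcon i
      rw [hz, Pi.add_apply, Pi.smul_apply, Pi.smul_apply, smul_eq_mul, smul_eq_mul] at h8
      rw [pl]
      linear_combination h8
    have h8 : ∀ i, y i = y j / x j * x i := fun i => by
      have h9 := h7 i
      rw [pl] at h9
      field_simp
      linear_combination h9
    rw [pl, h8 ik.1, h8 ik.2]
    ring
  obtain ⟨i, hi, hio⟩ := exists_pord Q hz0
  have h8 : z i = pl x y (j, i) := by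
    rw [hz, Pi.add_apply, Pi.smul_apply, Pi.smul_apply, smul_eq_mul, smul_eq_mul, pl]
    ring
  have h9 : po Q (pl x y) ≤ pord Q z := by
    rw [← hio, h8]
    exact po_le Q (by rw [← h8]; exact hi)
  have h10 : (dg c : ℤ) * po Q (pl x y) ≤ dg c * pord Q z :=
    mul_le_mul_of_nonneg_left h9 (by positivity)
  linarith

end

end Pool.Agent.Y741
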