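import Pool.Agent.Y741.MSub
import Pool.Agent.Y221.PB.Ptd

/-!
Generic complete intersections: pointed maps.
-/

set_option autoImplicit false

open MvPolynomial FF Pool.Agent.W603.LV Pool.Agent.W603.PV Pool.Agent.TH145.GH
open Pool.Agent.Y735 (pl rho eval_rho)
open Pool.Agent.TH145.GC (Cf)
open Pool.Agent.W602.GT Pool.Agent.TH145.MG Pool.Agent.TH145.GF
open Pool.Agent.W602.RG (HasValue)
open Pool.Agent.Y221.PB (PtdMaps ptd_of_bound)
open scoped LinearAlgebra.Projectivization

namespace Pool.Agent.Y741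

section

variable {k A : Type} [Field k] [IsAlgClosed k] [CharZero k] {n : ℕ} {d : A → ℕ}
  {G : A → MvPolynomial (Fin (n + 1)) k}

theorem exists_neg_place {L : Type} [Field L] [Algebra k L] [IsFF k L] {u : L}
    (htr : Transcendental k u) : ∃ P : Place k L, P.ord u < 0 := by
  by_contra hcon
  push Not at hcon
  have h1 := one_le_hgt htr
  have h2 : hgt k u = 0 := by
    unfold hgt
    refine finsum_eq_zero_of_forall_eq_zero fun P => ?_
    have := hcon P
    omega
  omega

/-- Infinitely many pointed maps to a line. -/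
theorem ptd_line {H : MvPolynomial (Fin (n + 1)) k} {e : ℕ} (hH : H.IsHomogeneous e)
    (h : ∀ (L : Type) [Field L] [Algebra k L] [IsFF k L] (c : Place k L) (x : Fin (n + 1) → k),
      x ≠ 0 → (∀ a, eval x (G a) = 0) → eval x H ≠ 0 → (PtdMaps G c x).Finite)
    {W : Submodule k (Fin (n + 1) → k)} (hW : LineX G W) : ∀ v ∈ W, eval v H = 0 := by
  classical
  have hinf : Infinite k := IsAlgClosed.instInfinite
  refine vanish_zero hW.1 hH fun v hv hv0 => ?_
  by_contra hvH
  obtain ⟨u, hu, hli⟩ := exists_second hW.1 hv0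
  obtain ⟨i, j, hij⟩ := pl_of_li hli
  have hX : Transcendental k (RatFunc.X : RatFunc k) :=
    (algebraicIndependent_unique_type_iff (ι := Unit)).1 (basis_X (k := k)).1
  have hX' : Transcendental k (RatFunc.X : RatFunc k)⁻¹ := fun h1 => by
    apply hX
    have h2 := h1.inv
    rwa [inv_inv] at h2
  obtain ⟨c, hc⟩ := exists_neg_place hX'
  rw [c.ord_inv] at hc
  have hX0 : (RatFunc.X : RatFunc k) ≠ 0 := RatFunc.X_ne_zero
  have hfin := h (RatFunc k) c v hv0 (fun a => hW.2 a v hv) hvH
  obtain ⟨P, hP⟩ : ∃ P : ℕ → Fin (n + 1) → Polynomial k, ∀ m l, P m l =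
      Polynomial.C (u l) * Polynomial.X ^ (m + 1) + Polynomial.C (v l) := ⟨_, fun _ _ => rfl⟩
  have hf : ∀ m l, gp (P m) l = algebraMap k (RatFunc k) (u l) * RatFunc.X ^ (m + 1) +
      algebraMap k (RatFunc k) (v l) := by
    intro m l
    unfold gp
    rw [hP, map_add, map_mul, map_pow, RatFunc.algebraMap_X]
    rfl
  obtain ⟨l0, hl0⟩ := Function.ne_iff.1 hv0
  have hl0' : v l0 ≠ 0 := hl0
  have hpow : ∀ m : ℕ, 0 < c.ord ((RatFunc.X : RatFunc k) ^ (m + 1)) := by
    intro m
    rw [c.ord_pow]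
    have h1 : (0 : ℤ) < ((m + 1 : ℕ) : ℤ) := by positivity
    exact mul_pos h1 (by omega)
  have hord : ∀ m, gp (P m) l0 ≠ 0 ∧ c.ord (gp (P m) l0) = 0 := by
    intro m
    rw [hf]
    have hvl : algebraMap k (RatFunc k) (v l0) ≠ 0 := (map_ne_zero _).2 hl0'
    by_cases hul : u l0 = 0
    · rw [hul, map_zero, zero_mul, zero_add]
      exact ⟨hvl, c.ord_const hl0'⟩
    · have hul' : algebraMap k (RatFunc k) (u l0) * RatFunc.X ^ (m + 1) ≠ 0 :=
        mul_ne_zero ((map_ne_zero _).2 hul) (pow_ne_zero _ hX0)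
      have h1 := c.ord_add_eq hvl hul' (by
        rw [c.ord_const hl0', c.ord_mul ((map_ne_zero _).2 hul) (pow_ne_zero _ hX0),
          c.ord_const hul, zero_add]
        exact hpow m)
      rw [add_comm, c.ord_const hl0'] at h1
      exact h1
  have hne : ∀ m, gp (P m) ≠ 0 := fun m h0 => (hord m).1 (congrFun h0 l0)
  have hpo : ∀ m, pord c (gp (P m)) ≤ 0 := fun m => by
    have h1 := pord_le c (hord m).1
    rw [(hord m).2] at h1
    exact h1
  refine (Set.infinite_of_injective_forall_mem (f := fun m : ℕ =>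
    Projectivization.mk (RatFunc k) (gp (P m)) (hne m)) ?_ fun m => ?_) hfin
  · intro m m' hmm
    dsimp only at hmm
    rw [Projectivization.mk_eq_mk_iff'] at hmm
    obtain ⟨a, ha⟩ := hmm
    have h1 : gp (P m) i * gp (P m') j = gp (P m) j * gp (P m') i := by
      rw [← ha, Pi.smul_apply, Pi.smul_apply, smul_eq_mul, smul_eq_mul]
      ring
    rw [hf, hf, hf, hf] at h1
    have h2 : algebraMap k (RatFunc k) (pl u v (i, j)) *
        ((RatFunc.X : RatFunc k) ^ (m + 1) - RatFunc.X ^ (m' + 1)) = 0 := by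
      have h3 : pl u v (i, j) = u i * v j - u j * v i := rfl
      rw [h3, map_sub, map_mul, map_mul]
      linear_combination h1
    have h3 := (mul_eq_zero.1 h2).resolve_left ((map_ne_zero _).2 hij)
    have h4 := congrArg c.ord (sub_eq_zero.1 h3)
    rw [c.ord_pow, c.ord_pow] at h4
    have h5 : ((m + 1 : ℕ) : ℤ) = ((m' + 1 : ℕ) : ℤ) :=
      mul_right_cancel₀ (by omega : c.ord (RatFunc.X : RatFunc k) ≠ 0) h4
    have h6 : m + 1 = m' + 1 := by exact_mod_cast h5
    omega
  · refine ⟨gp (P m), hne m, fun a => ?_, fun i' j' => ?_, rfl⟩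
    · change aeval (gp (P m)) (G a) = 0
      rw [aeval_gp]
      have h1 : (aeval (P m) (G a) : Polynomial k) = 0 := by
        apply Polynomial.funext
        intro t
        rw [eval_aevalP, Polynomial.eval_zero]
        have h2 : (fun l => (P m l).eval t) = t ^ (m + 1) • u + v := by
          funext l
          rw [hP]
          simp only [Polynomial.eval_add, Polynomial.eval_mul, Polynomial.eval_C,
            Polynomial.eval_pow, Polynomial.eval_X, Pi.add_apply, Pi.smul_apply, smul_eq_mul]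
          ring
        rw [h2]
        exact hW.2 a _ (W.add_mem (W.smul_mem _ hu) hv)
      rw [h1, map_zero]
    · have h1 : algebraMap k (RatFunc k) (v i') * gp (P m) j' -
          algebraMap k (RatFunc k) (v j') * gp (P m) i' =
          algebraMap k (RatFunc k) (v i' * u j' - v j' * u i') * RatFunc.X ^ (m + 1) := by
        rw [hf, hf, map_sub, map_mul, map_mul]
        ring
      rw [h1]
      by_cases h2 : v i' * u j' - v j' * u i' = 0
      · left
        rw [h2, map_zero, zero_mul]
      · right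
        rw [c.ord_mul ((map_ne_zero _).2 h2) (pow_ne_zero _ hX0), c.ord_const h2, zero_add]
        exact (hpo m).trans_lt (hpow m)

end

section

variable {k0 k : Type} [Field k0] [Field k] [Algebra k0 k] [IsAlgClosed k] [CharZero k] {n : ℕ}
  {A : Type} [Fintype A] [DecidableEq A] {d : A → ℕ} {G : A → MvPolynomial (Fin (n + 1)) k}

/-- Pointed maps to generic complete intersections. -/
theorem m_ptd (hn : 1 ≤ n) (hd0 : ∀ a, 0 < d a) (hG : ∀ a, (G a).IsHomogeneous (d a))
    (hind : AlgebraicIndependent k0 fun p : Cf n d => (G p.1).coeff p.2.1)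
    (hd : 3 * n + 3 ≤ 2 * ∑ a, d a + Fintype.card A) {H : MvPolynomial (Fin (n + 1)) k} {e : ℕ}
    (hH : H.IsHomogeneous e) (hl : ∀ W, LineX G W → ∀ v ∈ W, eval v H = 0)
    {L : Type} [Field L] [Algebra k L] [IsFF k L] (c : Place k L) {x : Fin (n + 1) → k}
    (hx : x ≠ 0) (hxH : eval x H ≠ 0) : (PtdMaps G c x).Finite := by
  obtain ⟨B, hB⟩ := mf_deg n A d hn hd0 hd
  refine ptd_of_bound (fun a => ⟨d a, hG a⟩) ⟨e, hH⟩ (B := B) ?_ c hx hxH
  intro L' _ _ _ f hf hfG hfH
  have hL : CharZero L' := charZero_of_injective_algebraMap (algebraMap k L').injective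
  rcases hB k0 k L' G hG hind f (fun h0 => by
    obtain ⟨j, hj⟩ := hf
    exact hj (congrFun h0 j)) hfG with h1 | h1
  · exact h1
  · exfalso
    have hmap : ∀ p : MvPolynomial (Fin (n + 1)) k,
        aeval (fun j => algebraMap L' (AlgebraicClosure L') (f j)) p =
          algebraMap L' (AlgebraicClosure L') (aeval f p) := fun p => by
      have := comp_aeval_apply (f := f) (IsScalarTower.toAlgHom k L' (AlgebraicClosure L')) p
      exact this.symm
    obtain ⟨z, hzb, hz1, hz2⟩ := exc_transfer hG (fun b hb => absurd (Finset.mem_univ b) hb) h1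
      (H := H) (by
      rw [hmap]
      exact (map_ne_zero _).2 hfH)
    obtain ⟨W, h2, h3, h4⟩ := exc_line hG hzb hz1
    exact hz2 (hl W ⟨h2.1, fun a v hv => h2.2 a (Finset.mem_univ a) v hv⟩ z h4)

end

end Pool.Agent.Y741
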