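import Pool.Agent.Y741.MTop

/-!
The lines in generic complete intersections are in a proper closed subset.
-/

set_option autoImplicit false

open MvPolynomial FF Pool.Agent.W603.LV Pool.Agent.W603.PV Pool.Agent.TH145.GH
open Pool.Agent.Y735 (pl rho eval_rho)
open Pool.Agent.TH145.GC (Cf)
open Pool.Agent.W602.GT Pool.Agent.TH145.MG Pool.Agent.TH145.GF

namespace Pool.Agent.Y741

section

variable {k A : Type} [Field k] [IsAlgClosed k] [CharZero k] {n : ℕ} {d : A → ℕ}
  {G : A → MvPolynomial (Fin (n + 1)) k}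

omit [IsAlgClosed k] [CharZero k] in
theorem vanish_zero {W : Submodule k (Fin (n + 1) → k)} (hW : Module.finrank k W = 2)
    {H : MvPolynomial (Fin (n + 1)) k} {e : ℕ} (hH : H.IsHomogeneous e)
    (h : ∀ v ∈ W, v ≠ 0 → eval v H = 0) : ∀ v ∈ W, eval v H = 0 := by
  intro v hv
  by_cases hv0 : v = 0
  · have hne : W ≠ ⊥ := by
      rintro rfl
      rw [finrank_bot] at hW
      omega
    obtain ⟨u, hu, hu0⟩ := (Submodule.ne_bot_iff W).1 hne
    have h1 := h u hu hu0
    by_cases he : e = 0
    · rw [he] at hH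
      have h2 := (totalDegree_zero_iff_isHomogeneous _).2 hH
      rw [totalDegree_eq_zero_iff_eq_C.1 h2, eval_C] at h1 ⊢
      exact h1
    · have h2 := eval_smul_hom hH v (0 : k)
      rw [zero_smul, zero_pow he, zero_mul] at h2
      rw [hv0]
      exact h2
  · exact h v hv hv0

omit [CharZero k] in
/-- A second point of a line. -/
theorem exists_second {W : Submodule k (Fin (n + 1) → k)} (hW : Module.finrank k W = 2)
    {v : Fin (n + 1) → k} (hv0 : v ≠ 0) : ∃ u ∈ W, LinearIndependent k ![u, v] := by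
  obtain ⟨u, hu, huv⟩ : ∃ u ∈ W, u ∉ Submodule.span k {v} := by
    by_contra hcon
    push Not at hcon
    have h1 : W ≤ Submodule.span k {v} := hcon
    have h2 := Submodule.finrank_mono h1
    rw [finrank_span_singleton hv0, hW] at h2
    omega
  refine ⟨u, hu, ?_⟩
  rw [LinearIndependent.pair_iff]
  intro s t hst
  have hs : s = 0 := by
    by_contra hs
    apply huv
    rw [Submodule.mem_span_singleton]
    refine ⟨-(s⁻¹ * t), ?_⟩
    have h1 : u = -(s⁻¹ * t) • v := by
      have h2 : s⁻¹ • (s • u + t • v) = 0 := by rw [hst, smul_zero]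
      rw [smul_add, smul_smul, smul_smul, inv_mul_cancel₀ hs, one_smul] at h2
      rw [neg_smul]
      exact eq_neg_of_add_eq_zero_left h2
    exact h1.symm
  refine ⟨hs, ?_⟩
  rw [hs, zero_smul, zero_add] at hst
  exact (smul_eq_zero.1 hst).resolve_right hv0

end

section

variable {k0 k : Type} [Field k0] [Field k] [Algebra k0 k] [IsAlgClosed k] [CharZero k] {n : ℕ}
  {A : Type} [Fintype A] [DecidableEq A] {d : A → ℕ} {G : A → MvPolynomial (Fin (n + 1)) k}

/-- The lines are in a proper closed subset. -/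
theorem m_sub {K : Type} [Field K] [Algebra k K]
    {w : ℕ} {y : Fin (n + 1) → K} (hG : ∀ a, (G a).IsHomogeneous (d a))
    (hind : AlgebraicIndependent k0 fun p : Cf n d => (G p.1).coeff p.2.1)
    (hw : 2 * n + 2 ≤ ∑ a, (d a + 1) + w) (hy : SubX G w y) :
    ∃ (H : MvPolynomial (Fin (n + 1)) k) (e : ℕ), H.IsHomogeneous e ∧ aeval y H ≠ 0 ∧
      ∀ W, LineX G W → ∀ v ∈ W, eval v H = 0 := by
  classical
  have hsum : ∑ a, (d a + 1) = ∑ a, d a + Fintype.card A := by
    rw [Finset.sum_add_distrib, Finset.sum_const, Finset.card_univ, smul_eq_mul, mul_one]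
  obtain ⟨H, e, h1, h2, h3⟩ := exists_H_sub (k0 := k0) (C := Finset.univ)
    (by rw [Finset.card_univ, ← hsum]; exact hw) G hG hind hy.1.1 hy.2.2 hy.2.1
  refine ⟨H, e, h1, h2, fun W hW => vanish_zero hW.1 h1 fun v hv hv0 => ?_⟩
  obtain ⟨u, hu, hli⟩ := exists_second hW.1 hv0
  obtain ⟨i, j, hij⟩ := pl_of_li hli
  have h4 := h3 k v hv0 (fun b hb => absurd (Finset.mem_univ b) hb) (exc_of_lineK
    ⟨u, (i, j), fun h0 => hij ?_, fun c _ a b => ?_⟩)
  · exact h4
  · have h5 : pl v u (i, j) = v i * u j - v j * u i := rfl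
    have h6 : pl u v (i, j) = u i * v j - u j * v i := rfl
    rw [h5] at h0
    rw [h6]
    linear_combination -h0
  · unfold mapF
    rw [Algebra.algebraMap_self, map_id]
    exact hW.2 c _ (W.add_mem (W.smul_mem _ hv) (W.smul_mem _ hu))

end

end Pool.Agent.Y741
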