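import Pool.Agent.Y741.MFin

/-!
Generic complete intersections: the equivalence of the notions of hyperbolicity.
-/

set_option autoImplicit false

open MvPolynomial FF Pool.Agent.W603.LV Pool.Agent.W603.PV Pool.Agent.TH145.GH
open Pool.Agent.Y735 (pl rho eval_rho)
open Pool.Agent.TH145.GC (Cf)
open Pool.Agent.W602.GT Pool.Agent.TH145.MG Pool.Agent.TH145.GF
open LinearAlgebra.Projectivization

namespace Pool.Agent.Y741

section

variable {k A : Type} [Field k] {n : ℕ}

/-- A point. -/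
def PtX (G : A → MvPolynomial (Fin (n + 1)) k) {K : Type} [Field K] [Algebra k K]
    (x : Fin (n + 1) → K) : Prop :=
  x ≠ 0 ∧ ∀ a, aeval x (G a) = 0

/-- A line. -/
def LineX (G : A → MvPolynomial (Fin (n + 1)) k) (W : Submodule k (Fin (n + 1) → k)) : Prop :=
  Module.finrank k W = 2 ∧ ∀ a, ∀ v ∈ W, eval v (G a) = 0

/-- Algebraically hyperbolic. -/
def AlgHypX (G : A → MvPolynomial (Fin (n + 1)) k) : Prop :=
  ∃ α : ℕ, ∀ (L : Type) [Field L] [Algebra k L] [IsFF k L] (x : Fin (n + 1) → L), PtX G x →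
    pht k x ≤ α * (canDeg k L + 2)

/-- The degrees of the morphisms from each curve are bounded. -/
def BddX (G : A → MvPolynomial (Fin (n + 1)) k) : Prop :=
  ∀ (L : Type) [Field L] [Algebra k L] [IsFF k L], ∃ B : ℤ, ∀ x : Fin (n + 1) → L, PtX G x →
    pht k x ≤ B

/-- A nonconstant morphism from the multiplicative group. -/
def GmX (G : A → MvPolynomial (Fin (n + 1)) k) (P : Fin (n + 1) → Polynomial k) : Prop :=
  (∀ t, t ≠ 0 → (∃ j, (P j).eval t ≠ 0) ∧ ∀ a, eval (fun j => (P j).eval t) (G a) = 0) ∧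
  ∃ s t, s ≠ 0 ∧ t ≠ 0 ∧ ∃ i j, (P i).eval s * (P j).eval t ≠ (P j).eval s * (P i).eval t

/-- All closed subvarieties of positive dimension are of general type. -/
def AllX (G : A → MvPolynomial (Fin (n + 1)) k) : Prop :=
  ∀ (K : Type) [Field K] [Algebra k K] (w : ℕ) (y : Fin (n + 1) → K), 0 < w →
    SubX G w y → GeneralType k K w

variable [IsAlgClosed k] [CharZero k] {d : A → ℕ} {G : A → MvPolynomial (Fin (n + 1)) k}

/-- The degrees of the maps to a line. -/
theorem bdd_noline (h : BddX G) (W : Submodule k (Fin (n + 1) → k)) : ¬ LineX G W := by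
  classical
  rintro ⟨hW2, hW⟩
  have hinf : Infinite k := IsAlgClosed.instInfinite
  obtain ⟨u, v, hu, hv, hli⟩ : ∃ u v, u ∈ W ∧ v ∈ W ∧ LinearIndependent k ![u, v] := by
    have hfd : Module.Finite k W := Module.finite_of_finrank_pos (by omega)
    obtain ⟨b⟩ : Nonempty (Module.Basis (Fin 2) k W) :=
      ⟨(Module.finBasis k W).reindex (finCongr hW2)⟩
    refine ⟨b 0, b 1, (b 0).2, (b 1).2, ?_⟩
    have h1 := b.linearIndependent.map' W.subtype (Submodule.ker_subtype W)
    have h2 : ![((b 0 : W) : Fin (n + 1) → k), (b 1 : W)] = W.subtype ∘ b := by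
      funext i
      fin_cases i <;> rfl
    rw [h2]
    exact h1
  obtain ⟨i, j, hij⟩ := pl_of_li hli
  obtain ⟨Δ, hΔ⟩ : ∃ Δ, Δ = pl u v (i, j) := ⟨_, rfl⟩
  have hΔ' : Δ = u i * v j - u j * v i := hΔ
  rw [← hΔ] at hij
  obtain ⟨u', hu'⟩ : ∃ u', u' = Δ⁻¹ • (v j • u - u j • v) := ⟨_, rfl⟩
  obtain ⟨v', hv'⟩ : ∃ v', v' = Δ⁻¹ • (u i • v - v i • u) := ⟨_, rfl⟩
  have hu'W : u' ∈ W := by
    rw [hu']
    exact W.smul_mem _ (W.sub_mem (W.smul_mem _ hu) (W.smul_mem _ hv))
  have hv'W : v' ∈ W := by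
    rw [hv']
    exact W.smul_mem _ (W.sub_mem (W.smul_mem _ hv) (W.smul_mem _ hu))
  have hui : u' i = 1 := by
    have h1 : u' i = Δ⁻¹ * (v j * u i - u j * v i) := by rw [hu']; rfl
    rw [h1]
    have h2 : v j * u i - u j * v i = Δ := by rw [hΔ']; ring
    rw [h2, inv_mul_cancel₀ hij]
  have hvi : v' i = 0 := by
    have h1 : v' i = Δ⁻¹ * (u i * v i - v i * u i) := by rw [hv']; rfl
    rw [h1]
    ring
  have huj : u' j = 0 := by
    have h1 : u' j = Δ⁻¹ * (v j * u j - u j * v j) := by rw [hu']; rfl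
    rw [h1]
    ring
  have hvj : v' j = 1 := by
    have h1 : v' j = Δ⁻¹ * (u i * v j - v i * u j) := by rw [hv']; rfl
    rw [h1]
    have h2 : u i * v j - v i * u j = Δ := by rw [hΔ']; ring
    rw [h2, inv_mul_cancel₀ hij]
  obtain ⟨B, hB⟩ := h (RatFunc k)
  obtain ⟨m, hm⟩ : ∃ m : ℕ, B < m := ⟨B.toNat + 1, by omega⟩
  obtain ⟨P, hP⟩ : ∃ P : Fin (n + 1) → Polynomial k, ∀ l, P l =
      Polynomial.C (u' l) * Polynomial.X ^ m + Polynomial.C (v' l) := ⟨_, fun _ => rfl⟩
  have hPi : gp P i = RatFunc.X ^ m := by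
    unfold gp
    rw [hP, hui, hvi, map_one, one_mul, map_zero, add_zero, map_pow, RatFunc.algebraMap_X]
  have hPj : gp P j = 1 := by
    unfold gp
    rw [hP, huj, hvj, map_zero, zero_mul, zero_add, map_one, map_one]
  have hx : PtX G (gp P) := by
    refine ⟨fun h0 => ?_, fun a => ?_⟩
    · have := congrFun h0 j
      rw [hPj] at this
      exact one_ne_zero this
    · rw [aeval_gp]
      have h1 : (aeval P (G a) : Polynomial k) = 0 := by
        apply Polynomial.funext
        intro t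
        rw [eval_aevalP, Polynomial.eval_zero]
        have h2 : (fun l => (P l).eval t) = t ^ m • u' + v' := by
          funext l
          rw [hP]
          simp only [Polynomial.eval_add, Polynomial.eval_mul, Polynomial.eval_C,
            Polynomial.eval_pow, Polynomial.eval_X, Pi.add_apply, Pi.smul_apply, smul_eq_mul]
          ring
        rw [h2]
        exact hW a _ (W.add_mem (W.smul_mem _ hu'W) hv'W)
      rw [h1, map_zero]
  have h1 := hB (gp P) hx
  have hX0 : (RatFunc.X : RatFunc k) ≠ 0 := RatFunc.X_ne_zero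
  have h2 := Pool.Agent.W603.CX.hgt_le_pht (k := k) (gp P) (j := i) (l := j)
    (by rw [hPi]; exact pow_ne_zero _ hX0) (by rw [hPj]; exact one_ne_zero)
  rw [hPi, hPj, _root_.div_one, hgt_pow hX0] at h2
  have htr : Transcendental k (RatFunc.X : RatFunc k) :=
    (algebraicIndependent_unique_type_iff (ι := Unit)).1 (basis_X (k := k)).1
  have h3 := one_le_hgt htr
  nlinarith

/-- Images of the multiplicative group are not of general type. -/
theorem all_gm [Fintype A] [DecidableEq A] (h : AllX G) (P : Fin (n + 1) → Polynomial k) :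
    ¬ GmX G P := by
  rintro ⟨hP1, hP2⟩
  obtain ⟨h1, h2, h3, h4⟩ := gm_on (P := P) (G := G) (C := Finset.univ)
    (fun t ht c _ => (hP1 t ht).2 c) (fun t ht b hb => absurd (Finset.mem_univ b) hb) hP2
  exact gm_not_lgt (P := P) (G := G) (C := Finset.univ) (dg := fun _ => 0)
    (fun t ht => (hP1 t ht).1) (fun t ht b hb => absurd (Finset.mem_univ b) hb)
    (log_of_gt (h (RatFunc k) 1 (gp P) one_pos
      ⟨⟨h1, fun c => h2 c (Finset.mem_univ c)⟩, by rw [trdeg_rat, Nat.cast_one], h4⟩) _)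

/-- A line contains an image of the multiplicative group. -/
theorem gm_noline [Fintype A] [DecidableEq A] (hG : ∀ a, (G a).IsHomogeneous (d a))
    (h : ∀ P, ¬ GmX G P)
    (W : Submodule k (Fin (n + 1) → k)) : ¬ LineX G W := by
  classical
  rintro ⟨hW2, hW⟩
  obtain ⟨u, v, hu, hv, hli, -⟩ := line_gm (C := Finset.univ) hG (W := W)
    ⟨hW2, fun c _ v hv => hW c v hv⟩ (by
      have h1 : Pts W ∩ Bd G Finset.univ = ∅ := by
        rw [Set.eq_empty_iff_forall_notMem]
        rintro p ⟨-, b, hb, -⟩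
        exact hb (Finset.mem_univ b)
      rw [h1, Set.encard_empty]
      exact zero_le)
  obtain ⟨i, j, hij⟩ := pl_of_li hli
  refine h (lp u v) ⟨fun t ht => ⟨?_, fun c => ?_⟩, lp_nc hij⟩
  · by_contra hcon
    push Not at hcon
    apply comb_ne hli t
    rw [← lp_eval]
    exact funext hcon
  · rw [lp_eval]
    exact hW c _ (W.add_mem (W.smul_mem _ hu) hv)

end

section

variable {k0 k : Type} [Field k0] [Field k] [Algebra k0 k] [IsAlgClosed k] [CharZero k] {n : ℕ}
  {A : Type} [Fintype A] [DecidableEq A] {d : A → ℕ} {G : A → MvPolynomial (Fin (n + 1)) k}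

theorem noline_bound (hn : 1 ≤ n) (hd0 : ∀ a, 0 < d a) (hG : ∀ a, (G a).IsHomogeneous (d a))
    (hind : AlgebraicIndependent k0 fun p : Cf n d => (G p.1).coeff p.2.1)
    (h : ∀ W, ¬ LineX G W) : 2 * n - 1 ≤ ∑ a, (d a + 1) := by
  by_contra hcon
  have h1 : ∑ a, (d a + 1) = ∑ a, d a + Fintype.card A := by
    rw [Finset.sum_add_distrib, Finset.sum_const, Finset.card_univ, smul_eq_mul, mul_one]
  obtain ⟨W, hW⟩ := lf_exists (k0 := k0) (C := Finset.univ) hn hd0 hG hind (by omega)
    (by rw [Finset.card_univ]; omega)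
  exact h W ⟨hW.1.1, fun a v hv => hW.1.2 a (Finset.mem_univ a) v hv⟩

theorem canDeg_add_two (k L : Type) [Field k] [Field L] [Algebra k L] [IsAlgClosed k] [CharZero k]
    [IsFF k L] : 0 ≤ canDeg k L + 2 := by
  obtain ⟨t, ht, ht1⟩ := exists_small k L
  have h1 := canDeg_ge (k := k) ht
  rcases le_or_gt (-1) (canDeg k L) with h3 | h3
  · omega
  · rw [max_eq_right (by omega)] at ht1
    omega

/-- The equivalences. -/
theorem m_tfae (hn : 1 ≤ n) (hd0 : ∀ a, 0 < d a) (hG : ∀ a, (G a).IsHomogeneous (d a))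
    (hind : AlgebraicIndependent k0 fun p : Cf n d => (G p.1).coeff p.2.1)
    (hdim : Fintype.card A + 5 ≤ n ∨ ∑ a, (d a + 1) ≤ 2 * n - 2 ∨
      3 * n + 3 ≤ 2 * ∑ a, d a + Fintype.card A) :
    List.TFAE [AlgHypX G, BddX G, ∀ P, ¬ GmX G P, AllX G, ∀ W, ¬ LineX G W,
      2 * n - 1 ≤ ∑ a, (d a + 1)] := by
  have hsum : ∑ a, (d a + 1) = ∑ a, d a + Fintype.card A := by
    rw [Finset.sum_add_distrib, Finset.sum_const, Finset.card_univ, smul_eq_mul, mul_one]
  have hrange : 2 * n - 1 ≤ ∑ a, (d a + 1) → 3 * n + 3 ≤ 2 * ∑ a, d a + Fintype.card A := by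
    intro h
    rcases hdim with h1 | h1 | h1
    · omega
    · omega
    · exact h1
  tfae_have 1 → 2 := by
    rintro ⟨α, h⟩ L _ _ _
    exact ⟨α * (canDeg k L + 2), fun x hx => h L x hx⟩
  tfae_have 2 → 5 := fun h => bdd_noline h
  tfae_have 5 → 6 := fun h => noline_bound (k0 := k0) hn hd0 hG hind h
  tfae_have 6 → 4 := fun h K _ _ w y hw hy =>
    mf_gt (k0 := k0) hn hd0 hG hind (hrange h) (by omega) hw hy
  tfae_have 4 → 3 := fun h => all_gm h
  tfae_have 3 → 5 := fun h => gm_noline hG h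
  tfae_have 6 → 1 := by
    intro h
    obtain ⟨B, hB⟩ := mf_deg n A d hn hd0 (hrange h)
    refine ⟨B, fun L _ _ _ x hx => ?_⟩
    have hL : CharZero L := charZero_of_injective_algebraMap (algebraMap k L).injective
    have hO : CharZero (AlgebraicClosure L) :=
      charZero_of_injective_algebraMap (algebraMap L (AlgebraicClosure L)).injective
    rcases hB k0 k L G hG hind x hx.1 hx.2 with h1 | h1
    · refine h1.trans (mul_le_mul_of_nonneg_left ?_ (by positivity))
      have := canDeg_add_two k L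
      exact max_le (by omega) this
    · exact absurd h1 fun h2 => mf_none (k0 := k0) hG hind (by omega) _ h2
  tfae_finish

/-- The forms that vanish on the lines. -/
theorem m_forms (hn : 1 ≤ n) (hd0 : ∀ a, 0 < d a) (hG : ∀ a, (G a).IsHomogeneous (d a))
    (hind : AlgebraicIndependent k0 fun p : Cf n d => (G p.1).coeff p.2.1)
    (hd : 3 * n + 3 ≤ 2 * ∑ a, d a + Fintype.card A) {H : MvPolynomial (Fin (n + 1)) k} {e : ℕ}
    (hH : H.IsHomogeneous e) :
    (∀ W, LineX G W → ∀ v ∈ W, eval v H = 0) ↔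
      ∀ (K : Type) [Field K] [Algebra k K] (w : ℕ) (y : Fin (n + 1) → K), 0 < w →
        SubX G w y → aeval y H ≠ 0 → GeneralType k K w := by
  classical
  constructor
  · intro h K _ _ w y hw hy hne
    by_contra hy'
    have hK : CharZero K := charZero_of_injective_algebraMap (algebraMap k K).injective
    have h1 := mf_dich (k0 := k0) hn hd0 hG hind hd hw hy hy' (AlgebraicClosure K)
      (IsScalarTower.toAlgHom k K (AlgebraicClosure K))
    have hmap : ∀ p : MvPolynomial (Fin (n + 1)) k,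
        aeval (fun j => (IsScalarTower.toAlgHom k K (AlgebraicClosure K)) (y j)) p =
          (IsScalarTower.toAlgHom k K (AlgebraicClosure K)) (aeval y p) := fun p => by
      rw [comp_aeval_apply]
    have hinj : ∀ z : K, z ≠ 0 → (IsScalarTower.toAlgHom k K (AlgebraicClosure K)) z ≠ 0 :=
      fun z hz => (map_ne_zero _).2 hz
    obtain ⟨z, hzb, hz1, hz2⟩ := exc_transfer hG (fun b hb => absurd (Finset.mem_univ b) hb) h1
      (H := H) (by
      rw [hmap]
      exact hinj _ hne)
    obtain ⟨W, h2, h3, h4⟩ := exc_line hG hzb hz1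
    exact hz2 (h W ⟨h2.1, fun a v hv => h2.2 a (Finset.mem_univ a) v hv⟩ z h4)
  · rintro h W ⟨hW2, hW⟩ v hv
    obtain ⟨u0, v0, hu, hv0, hli, -⟩ := line_gm (C := Finset.univ) hG (W := W)
      ⟨hW2, fun c _ v hv => hW c v hv⟩ (by
        have h1 : Pts W ∩ Bd G Finset.univ = ∅ := by
          rw [Set.eq_empty_iff_forall_notMem]
          rintro p ⟨-, b, hb, -⟩
          exact hb (Finset.mem_univ b)
        rw [h1, Set.encard_empty]
        exact zero_le)
    obtain ⟨i, j, hij⟩ := pl_of_li hli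
    obtain ⟨h1, h2, h3, h4⟩ := gm_on (P := lp u0 v0) (G := G) (C := Finset.univ)
      (fun t ht c hc => by
        rw [lp_eval]
        exact hW c _ (W.add_mem (W.smul_mem _ hu) hv0))
      (fun t ht b hb => absurd (Finset.mem_univ b) hb) (lp_nc hij)
    have h5 := gm_not_lgt (P := lp u0 v0) (G := G) (C := Finset.univ) (dg := d) (fun t ht => by
      by_contra hcon
      push Not at hcon
      apply comb_ne hli t
      rw [← lp_eval]
      exact funext hcon) (fun t ht b hb => absurd (Finset.mem_univ b) hb)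
    have h6 : aeval (gp (lp u0 v0)) H = 0 := by
      by_contra hne
      exact h5 (log_of_gt (h (RatFunc k) 1 (gp (lp u0 v0)) one_pos
        ⟨⟨h1, fun c => h2 c (Finset.mem_univ c)⟩, by rw [trdeg_rat, Nat.cast_one], h4⟩ hne) _)
    obtain ⟨a, b, rfl⟩ := span_of_line hW2 hu hv0 hli hv
    exact lp_zero hH h6 a b

end

end Pool.Agent.Y741
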