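import Pool.Agent.Y741.UnitStep
import Pool.Agent.Y741.ExcG

/-!
Integral points over finitely generated rings, on a line that meets the boundary in at least three
points.
-/

set_option autoImplicit false

open MvPolynomial FF Pool.Agent.W603.LV Pool.Agent.W603.PV Pool.Agent.W602.RG Pool.Agent.TH145.GH
open Pool.Agent.TH145.GC (Gen Rt)
open Pool.Agent.Y735 (rho eval_rho rho_X pl fht rho_deg)
open LinearAlgebra.Projectivization

namespace Pool.Agent.Y741

variable {K : Type} [Field K] {n : ℕ} {A : Type}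

/-- The points of the complement of the hypersurfaces `F b = 0`, `b ∉ C`, in the variety `F c = 0`,
`c ∈ C`, with coordinates in the ring `R`. -/
def RPts (F : A → MvPolynomial (Fin (n + 1)) K) (d : A → ℕ) (C : Finset A) (R : Subring K) :
    Set (ℙ K (Fin (n + 1) → K)) :=
  {p | (∀ c ∈ C, eval p.rep (F c) = 0) ∧ ∀ b, b ∉ C → eval p.rep (F b) ≠ 0 ∧
    ∀ I : Fin (n + 1) →₀ ℕ, I.degree = d b → (∏ i, p.rep i ^ I i) / eval p.rep (F b) ∈ R}

/-- Products of linear forms. -/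
theorem wt {R : Subring K} {d : ℕ} {x : Fin (n + 1) → K} {f : K}
    (h : ∀ I : Fin (n + 1) →₀ ℕ, I.degree = d → (∏ i, x i ^ I i) / f ∈ R)
    {σ τ : Fin (n + 1) → K} (hσ : ∀ l, σ l ∈ R) (hτ : ∀ l, τ l ∈ R) (b : ℕ) :
    ∀ (a : ℕ) (J : Fin (n + 1) →₀ ℕ), a + b + J.degree = d →
      (∑ l, σ l * x l) ^ a * (∑ l, τ l * x l) ^ b * (∏ i, x i ^ J i) / f ∈ R := by
  classical
  have hJ : ∀ (J : Fin (n + 1) →₀ ℕ) (l : Fin (n + 1)),
      ∏ i, x i ^ (J + Finsupp.single l 1 : Fin (n + 1) →₀ ℕ) i = x l * ∏ i, x i ^ J i := by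
    intro J l
    have h1 : ∀ i, x i ^ (J + Finsupp.single l 1 : Fin (n + 1) →₀ ℕ) i = x i ^ J i * (if i = l then x l else 1) := by
      intro i
      rw [Finsupp.add_apply, pow_add, Finsupp.single_apply]
      split_ifs with h1 h2 h2
      · rw [pow_one, h1]
      · exact absurd h1.symm h2
      · exact absurd h2.symm h1
      · rw [pow_zero]
    rw [Finset.prod_congr rfl fun i _ => h1 i, Finset.prod_mul_distrib, Finset.prod_ite_eq',
      if_pos (Finset.mem_univ _), mul_comm]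
  have hdeg : ∀ (J : Fin (n + 1) →₀ ℕ) (l : Fin (n + 1)),
      (J + Finsupp.single l 1).degree = J.degree + 1 := by
    intro J l
    rw [map_add, Finsupp.degree_single]
  induction b with
  | zero =>
    intro a
    induction a with
    | zero =>
      intro J hJd
      rw [pow_zero, pow_zero, one_mul, one_mul]
      exact h J (by omega)
    | succ a ih =>
      intro J hJd
      have h1 : (∑ l, σ l * x l) ^ (a + 1) * (∑ l, τ l * x l) ^ 0 * (∏ i, x i ^ J i) / f =
          ∑ l, σ l * ((∑ l, σ l * x l) ^ a * (∑ l, τ l * x l) ^ 0 *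
            (∏ i, x i ^ (J + Finsupp.single l 1 : Fin (n + 1) →₀ ℕ) i) / f) := by
        have h2 : ∀ l, σ l * ((∑ l, σ l * x l) ^ a * (∑ l, τ l * x l) ^ 0 *
            (∏ i, x i ^ (J + Finsupp.single l 1 : Fin (n + 1) →₀ ℕ) i) / f) = (σ l * x l) *
            ((∑ l, σ l * x l) ^ a * (∑ l, τ l * x l) ^ 0 * (∏ i, x i ^ J i) / f) := by
          intro l
          rw [hJ]
          ring
        rw [Finset.sum_congr rfl fun l _ => h2 l, ← Finset.sum_mul]
        ring
      rw [h1]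
      exact sum_mem fun l _ => mul_mem (hσ l) (ih _ (by rw [hdeg]; omega))
  | succ b ih =>
    intro a J hJd
    have h1 : (∑ l, σ l * x l) ^ a * (∑ l, τ l * x l) ^ (b + 1) * (∏ i, x i ^ J i) / f =
        ∑ l, τ l * ((∑ l, σ l * x l) ^ a * (∑ l, τ l * x l) ^ b *
          (∏ i, x i ^ (J + Finsupp.single l 1 : Fin (n + 1) →₀ ℕ) i) / f) := by
      have h2 : ∀ l, τ l * ((∑ l, σ l * x l) ^ a * (∑ l, τ l * x l) ^ b *
          (∏ i, x i ^ (J + Finsupp.single l 1 : Fin (n + 1) →₀ ℕ) i) / f) = (τ l * x l) *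
          ((∑ l, σ l * x l) ^ a * (∑ l, τ l * x l) ^ b * (∏ i, x i ^ J i) / f) := by
        intro l
        rw [hJ]
        ring
      rw [Finset.sum_congr rfl fun l _ => h2 l, ← Finset.sum_mul]
      ring
    rw [h1]
    exact sum_mem fun l _ => mul_mem (hτ l) (ih a _ (by rw [hdeg]; omega))

/-- The Pluecker coordinate. -/
def om (l m : Fin (n + 1)) (a b : Fin (n + 1) → K) : K := a l * b m - a m * b l

/-- The quotient of the linear forms is integral. -/
theorem ratio_mem {d : ℕ} {F : MvPolynomial (Fin (n + 1)) K} (hF : F.IsHomogeneous d)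
    {R : Subring K} {x u u' : Fin (n + 1) → K} {l m : Fin (n + 1)} (hδ : om l m u u' ≠ 0)
    (hx : om l m u u' • x = om l m x u' • u - om l m x u • u') (hu : eval u F = 0)
    (hxF : eval x F ≠ 0)
    (hint : ∀ I : Fin (n + 1) →₀ ℕ, I.degree = d → (∏ i, x i ^ I i) / eval x F ∈ R)
    (hc : ∀ k, (rho u u' F).coeff k ∈ R) (hinv : (om l m u u')⁻¹ ∈ R) (hu1 : ∀ i, u i ∈ R)
    (hu2 : ∀ i, u' i ∈ R) : om l m x u ≠ 0 ∧ om l m x u' / om l m x u ∈ R := by
  classical
  obtain ⟨δ, hδe⟩ : ∃ δ, δ = om l m u u' := ⟨_, rfl⟩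
  rw [← hδe] at hδ hx hinv
  obtain ⟨s, hs⟩ : ∃ s, s = om l m x u' / δ := ⟨_, rfl⟩
  obtain ⟨t, ht⟩ : ∃ t, t = -(om l m x u / δ) := ⟨_, rfl⟩
  have hxs : x = s • u + t • u' := by
    have h1 : x = δ⁻¹ • (δ • x) := by rw [smul_smul, inv_mul_cancel₀ hδ, one_smul]
    rw [h1, hx, hs, ht, smul_sub, smul_smul, smul_smul, neg_smul, sub_eq_add_neg, ← div_eq_inv_mul,
      ← div_eq_inv_mul]
  have ht0 : t ≠ 0 := by
    intro h0
    apply hxF
    rw [hxs, h0, zero_smul, add_zero, eval_smul_hom hF, hu, mul_zero]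
  have hom : om l m x u ≠ 0 := by
    intro h0
    apply ht0
    rw [ht, h0, zero_div, neg_zero]
  refine ⟨hom, ?_⟩
  have hst : om l m x u' / om l m x u = -(s / t) := by
    rw [hs, ht]
    field_simp
  rw [hst]
  refine neg_mem ?_
  -- the linear forms
  obtain ⟨σ, hσ⟩ : ∃ σ : Fin (n + 1) → K, ∀ i, σ i =
    ((if i = l then u' m else 0) - (if i = m then u' l else 0)) * δ⁻¹ := ⟨_, fun _ => rfl⟩
  obtain ⟨τ, hτ⟩ : ∃ τ : Fin (n + 1) → K, ∀ i, τ i =
    -(((if i = l then u m else 0) - (if i = m then u l else 0)) * δ⁻¹) := ⟨_, fun _ => rfl⟩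
  have hσR : ∀ i, σ i ∈ R := by
    intro i
    rw [hσ]
    refine mul_mem (sub_mem ?_ ?_) hinv
    · split_ifs
      · exact hu2 m
      · exact zero_mem _
    · split_ifs
      · exact hu2 l
      · exact zero_mem _
  have hτR : ∀ i, τ i ∈ R := by
    intro i
    rw [hτ]
    refine neg_mem (mul_mem (sub_mem ?_ ?_) hinv)
    · split_ifs
      · exact hu1 m
      · exact zero_mem _
    · split_ifs
      · exact hu1 l
      · exact zero_mem _
  have hsum : ∀ (a b : K), ∑ i, ((if i = l then a else 0) - (if i = m then b else 0)) * δ⁻¹ * x i =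
      (x l * a - x m * b) / δ := by
    intro a b
    have h1 : ∀ i, ((if i = l then a else 0) - (if i = m then b else 0)) * δ⁻¹ * x i =
        (if i = l then a * δ⁻¹ * x i else 0) - (if i = m then b * δ⁻¹ * x i else 0) := by
      intro i
      split_ifs <;> ring
    rw [Finset.sum_congr rfl fun i _ => h1 i, Finset.sum_sub_distrib, Finset.sum_ite_eq',
      Finset.sum_ite_eq', if_pos (Finset.mem_univ _), if_pos (Finset.mem_univ _)]
    field_simp
  have hσs : ∑ i, σ i * x i = s := by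
    rw [Finset.sum_congr rfl fun i _ => by rw [hσ i], hsum, hs]
    rfl
  have hτt : ∑ i, τ i * x i = t := by
    have h1 : ∀ i, τ i * x i = -(((if i = l then u m else 0) - (if i = m then u l else 0)) *
        δ⁻¹ * x i) := by
      intro i
      rw [hτ i]
      ring
    rw [Finset.sum_congr rfl fun i _ => h1 i, Finset.sum_neg_distrib, hsum, ht]
    rfl
  -- the expansion
  have hFx : eval x F = ∑ k ∈ Finset.range d, (rho u u' F).coeff k * (s ^ k * t ^ (d - k)) := by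
    have h1 : x = t • ((s / t) • u + u') := by
      rw [smul_add, smul_smul, mul_div_cancel₀ _ ht0]
      exact hxs
    conv_lhs => rw [h1]
    rw [eval_smul_hom hF, ← eval_rho,
      Polynomial.eval_eq_sum_range' (Nat.lt_succ_of_le (rho_deg u u' hF)), Finset.sum_range_succ,
      rho_top u u' hF, hu, zero_mul, add_zero, Finset.mul_sum]
    refine Finset.sum_congr rfl fun k hk => ?_
    have h2 : t ^ d = t ^ (d - k) * t ^ k := by
      rw [← pow_add, Nat.sub_add_cancel (Finset.mem_range.1 hk).le]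
    rw [h2, div_pow]
    field_simp
  have hfin : s / t = ∑ k ∈ Finset.range d, (rho u u' F).coeff k *
      ((∑ i, σ i * x i) ^ (k + 1) * (∑ i, τ i * x i) ^ (d - (k + 1)) *
        (∏ i, x i ^ (0 : Fin (n + 1) →₀ ℕ) i) / eval x F) := by
    rw [hσs, hτt]
    have h1 : ∀ k ∈ Finset.range d, (rho u u' F).coeff k *
        (s ^ (k + 1) * t ^ (d - (k + 1)) * (∏ i, x i ^ (0 : Fin (n + 1) →₀ ℕ) i) / eval x F) =
        (s / t / eval x F) * ((rho u u' F).coeff k * (s ^ k * t ^ (d - k))) := by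
      intro k hk
      have h2 : d - k = d - (k + 1) + 1 := by
        have := Finset.mem_range.1 hk
        omega
      rw [h2, pow_succ, pow_succ]
      simp only [Finsupp.coe_zero, Pi.zero_apply, pow_zero, Finset.prod_const_one, mul_one]
      field_simp
    rw [Finset.sum_congr rfl h1, ← Finset.mul_sum, ← hFx, div_mul_cancel₀ _ hxF]
  rw [hfin]
  refine sum_mem fun k hk => mul_mem (hc k) (wt hint hσR hτR _ _ _ ?_)
  have := Finset.mem_range.1 hk
  rw [map_zero]
  omega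

/-- The relation between the linear forms on the plane. -/
theorem om_rel {W : Submodule K (Fin (n + 1) → K)} (hW : Module.finrank K W = 2)
    {l m : Fin (n + 1)} {x u u' : Fin (n + 1) → K} (hx : x ∈ W) (hu : u ∈ W) (hu' : u' ∈ W)
    (h : om l m u u' ≠ 0) : om l m u u' • x = om l m x u' • u - om l m x u • u' := by
  have hli : LinearIndependent K ![u, u'] := li_of_pl (ik := (l, m)) h
  have hspan : Submodule.span K {u, u'} = W := by
    refine Submodule.eq_of_le_of_finrank_le ?_ ?_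
    · rw [Submodule.span_le]
      rintro z (rfl | rfl)
      · exact hu
      · exact hu'
    · rw [finrank_span_of_li hli, hW]
  rw [← hspan] at hx
  obtain ⟨a, b, rfl⟩ := Submodule.mem_span_pair.1 hx
  funext i
  simp only [om, Pi.add_apply, Pi.smul_apply, Pi.sub_apply, smul_eq_mul]
  ring

/-- Nonproportional vectors. -/
theorem om_ne {W : Submodule K (Fin (n + 1) → K)} {l m : Fin (n + 1)}
    (hW : Module.finrank K W = 2) {v w : Fin (n + 1) → K} (hv : v ∈ W) (hw : w ∈ W)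
    (hvw : om l m v w ≠ 0) {p q : ℙ K (Fin (n + 1) → K)} (hp : p ∈ Pts W) (hq : q ∈ Pts W)
    (hpq : p ≠ q) : om l m p.rep q.rep ≠ 0 := by
  intro h0
  apply hpq
  have h1 := om_rel hW hp hv hw hvw
  have h2 := om_rel hW hq hv hw hvw
  -- `p = (a v - b w) / δ`, `q = (c v - d w) / δ`, with `a d = b c`
  obtain ⟨a, ha⟩ : ∃ a, a = om l m p.rep w := ⟨_, rfl⟩
  obtain ⟨b, hb⟩ : ∃ b, b = om l m p.rep v := ⟨_, rfl⟩
  obtain ⟨c, hc⟩ : ∃ c, c = om l m q.rep w := ⟨_, rfl⟩
  obtain ⟨e, he⟩ : ∃ e, e = om l m q.rep v := ⟨_, rfl⟩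
  have h3 : a * e = b * c := by
    have h4 : om l m v w * om l m p.rep q.rep = b * c - a * e := by
      rw [ha, hb, hc, he]
      simp only [om]
      ring
    rw [h0, mul_zero] at h4
    linear_combination h4
  rw [← ha, ← hb] at h1
  rw [← hc, ← he] at h2
  have h5 : e • p.rep = b • q.rep := by
    have h6 : om l m v w • (e • p.rep) = om l m v w • (b • q.rep) := by
      rw [smul_comm, h1, smul_comm (om l m v w) b, h2, smul_sub, smul_sub, smul_smul, smul_smul,
        smul_smul, smul_smul, mul_comm e a, h3, mul_comm e b]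
    exact smul_right_injective _ hvw h6
  have h7 : c • p.rep = a • q.rep := by
    have h6 : om l m v w • (c • p.rep) = om l m v w • (a • q.rep) := by
      rw [smul_comm, h1, smul_comm (om l m v w) a, h2, smul_sub, smul_sub, smul_smul, smul_smul,
        smul_smul, smul_smul, mul_comm c a, mul_comm c b, ← h3]
    exact smul_right_injective _ hvw h6
  have h8 : ∃ r : K, r ≠ 0 ∧ ∃ r' : K, r • p.rep = r' • q.rep := by
    by_cases he0 : e = 0
    · refine ⟨c, ?_, a, h7⟩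
      rintro rfl
      rw [he0, zero_smul, zero_smul, sub_zero] at h2
      exact q.rep_nonzero ((smul_eq_zero.1 h2).resolve_left hvw)
    · exact ⟨e, he0, b, h5⟩
  obtain ⟨r, hr, r', hrr⟩ := h8
  rw [← p.mk_rep, ← q.mk_rep, Projectivization.mk_eq_mk_iff']
  refine ⟨r⁻¹ * r', ?_⟩
  rw [← smul_smul, ← hrr, smul_smul, inv_mul_cancel₀ hr, one_smul]

/-- The quotients of the linear forms, for all large rings. -/
theorem exists_ratio {W : Submodule K (Fin (n + 1) → K)} (hW : Module.finrank K W = 2)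
    {l m : Fin (n + 1)} {d : ℕ} {F : MvPolynomial (Fin (n + 1)) K} (hF : F.IsHomogeneous d)
    {u u' : Fin (n + 1) → K} (hu : u ∈ W) (hu' : u' ∈ W) (h : om l m u u' ≠ 0)
    (hF0 : eval u F = 0) : ∃ Z : Finset K, ∀ R : Subring K, (∀ z ∈ Z, z ∈ R) →
      ∀ x ∈ W, eval x F ≠ 0 →
        (∀ I : Fin (n + 1) →₀ ℕ, I.degree = d → (∏ i, x i ^ I i) / eval x F ∈ R) →
          om l m x u ≠ 0 ∧ om l m x u' / om l m x u ∈ R := by
  classical
  refine ⟨{(om l m u u')⁻¹} ∪ (Finset.univ.image u ∪ Finset.univ.image u') ∪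
    (rho u u' F).coeffs, fun R hR x hx hxF hint => ratio_mem hF h (om_rel hW hx hu hu' h) hF0 hxF
      hint (fun k => ?_) ?_ (fun i => ?_) fun i => ?_⟩
  · by_cases hk : (rho u u' F).coeff k = 0
    · rw [hk]; exact zero_mem _
    · exact hR _ (Finset.mem_union_right _ (Polynomial.coeff_mem_coeffs hk))
  · exact hR _ (Finset.mem_union_left _ (Finset.mem_union_left _ (Finset.mem_singleton_self _)))
  · exact hR _ (Finset.mem_union_left _ (Finset.mem_union_right _ (Finset.mem_union_left _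
      (Finset.mem_image_of_mem _ (Finset.mem_univ _)))))
  · exact hR _ (Finset.mem_union_left _ (Finset.mem_union_right _ (Finset.mem_union_right _
      (Finset.mem_image_of_mem _ (Finset.mem_univ _)))))

/-- The unit equation. -/
theorem unit_rel {l m : Fin (n + 1)} {x u0 u1 u2 : Fin (n + 1) → K} {R : Subring K}
    (o01 : om l m u0 u1 ≠ 0) (o12 : om l m u1 u2 ≠ 0) (o20 : om l m u2 u0 ≠ 0)
    (n0 : om l m x u0 ≠ 0) (n1 : om l m x u1 ≠ 0) (n2 : om l m x u2 ≠ 0)
    (h01 : om l m x u1 / om l m x u0 ∈ R) (h10 : om l m x u0 / om l m x u1 ∈ R)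
    (h02 : om l m x u2 / om l m x u0 ∈ R) (h20 : om l m x u0 / om l m x u2 ∈ R)
    (c1 : om l m u2 u0 / om l m u1 u2 ∈ R) (c2 : om l m u1 u2 / om l m u2 u0 ∈ R)
    (c3 : om l m u0 u1 / om l m u1 u2 ∈ R) (c4 : om l m u1 u2 / om l m u0 u1 ∈ R) :
    UnitPair R (-(om l m u2 u0 / om l m u1 u2 * (om l m x u1 / om l m x u0))) := by
  obtain ⟨X, hX⟩ : ∃ X, X = -(om l m u2 u0 / om l m u1 u2 * (om l m x u1 / om l m x u0)) :=
    ⟨_, rfl⟩
  obtain ⟨Y, hY⟩ : ∃ Y, Y = -(om l m u0 u1 / om l m u1 u2 * (om l m x u2 / om l m x u0)) :=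
    ⟨_, rfl⟩
  rw [← hX]
  have hrel : om l m x u0 * om l m u1 u2 + om l m x u1 * om l m u2 u0 +
      om l m x u2 * om l m u0 u1 = 0 := by
    simp only [om]
    ring
  have hXY : 1 - X = Y := by
    rw [hX, hY]
    field_simp
    linear_combination hrel
  have hX0 : X ≠ 0 := by
    rw [hX]
    exact neg_ne_zero.2 (mul_ne_zero (div_ne_zero o20 o12) (div_ne_zero n1 n0))
  have hY0 : Y ≠ 0 := by
    rw [hY]
    exact neg_ne_zero.2 (mul_ne_zero (div_ne_zero o01 o12) (div_ne_zero n2 n0))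
  refine ⟨hX0, by rwa [hXY], ?_, ?_, ?_, ?_⟩
  · rw [hX]
    exact neg_mem (mul_mem c1 h01)
  · rw [hX, inv_neg, mul_inv, inv_div, inv_div]
    exact neg_mem (mul_mem c2 h10)
  · rw [hXY, hY]
    exact neg_mem (mul_mem c3 h02)
  · rw [hXY, hY, inv_neg, mul_inv, inv_div, inv_div]
    exact neg_mem (mul_mem c4 h20)

/-- Finiteness on the line. -/
theorem fin_line (hU : UF K) {d : A → ℕ} {F : A → MvPolynomial (Fin (n + 1)) K}
    (hF : ∀ a, (F a).IsHomogeneous (d a)) {C : Finset A} {W : Submodule K (Fin (n + 1) → K)}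
    (hW : Module.finrank K W = 2) (h3 : 3 ≤ (Pts W ∩ Bd F C).encard) (T : Finset K) :
    {p | p ∈ RPts F d C (Subring.closure (T : Set K)) ∧ p ∈ Pts W}.Finite := by
  classical
  obtain ⟨t, ht, ht3⟩ := Set.exists_subset_encard_eq h3
  obtain ⟨p0, p1, p2, h01, h02, h12, rfl⟩ := Set.encard_eq_three.1 ht3
  obtain ⟨hp0, b0, hb0, hF0⟩ := ht (Set.mem_insert _ _)
  obtain ⟨hp1, b1, hb1, hF1⟩ := ht (Set.mem_insert_of_mem _ (Set.mem_insert _ _))
  obtain ⟨hp2, b2, hb2, hF2⟩ := ht (Set.mem_insert_of_mem _ (Set.mem_insert_of_mem _ rfl))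
  obtain ⟨w, hw, hli⟩ := exists_pair_of_mem hW p0.rep_nonzero
  obtain ⟨l, m, hlm⟩ := pl_of_li hli
  have hlm' : om l m p0.rep w ≠ 0 := hlm
  have o01 := om_ne hW hp0 hw hlm' hp0 hp1 h01
  have o10 := om_ne hW hp0 hw hlm' hp1 hp0 h01.symm
  have o02 := om_ne hW hp0 hw hlm' hp0 hp2 h02
  have o20 := om_ne hW hp0 hw hlm' hp2 hp0 h02.symm
  have o12 := om_ne hW hp0 hw hlm' hp1 hp2 h12
  obtain ⟨Z1, hZ1⟩ := exists_ratio hW (hF b0) hp0 hp1 o01 hF0
  obtain ⟨Z2, hZ2⟩ := exists_ratio hW (hF b1) hp1 hp0 o10 hF1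
  obtain ⟨Z3, hZ3⟩ := exists_ratio hW (hF b0) hp0 hp2 o02 hF0
  obtain ⟨Z4, hZ4⟩ := exists_ratio hW (hF b2) hp2 hp0 o20 hF2
  obtain ⟨Z5, hZ5⟩ : ∃ Z5 : Finset K,
    om l m p2.rep p0.rep / om l m p1.rep p2.rep ∈ Z5 ∧
    om l m p1.rep p2.rep / om l m p2.rep p0.rep ∈ Z5 ∧
    om l m p0.rep p1.rep / om l m p1.rep p2.rep ∈ Z5 ∧
    om l m p1.rep p2.rep / om l m p0.rep p1.rep ∈ Z5 :=
    ⟨{om l m p2.rep p0.rep / om l m p1.rep p2.rep, om l m p1.rep p2.rep / om l m p2.rep p0.rep,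
      om l m p0.rep p1.rep / om l m p1.rep p2.rep, om l m p1.rep p2.rep / om l m p0.rep p1.rep},
      by simp, by simp, by simp, by simp⟩
  obtain ⟨Z, hZ⟩ : ∃ Z, Z = T ∪ (Z1 ∪ (Z2 ∪ (Z3 ∪ (Z4 ∪ Z5)))) := ⟨_, rfl⟩
  obtain ⟨R, hR⟩ : ∃ R : Subring K, R = Subring.closure (Z : Set K) := ⟨_, rfl⟩
  have hZR : ∀ z ∈ Z, z ∈ R := by
    intro z hz
    rw [hR]
    exact Subring.subset_closure (Finset.mem_coe.2 hz)
  have hTR : Subring.closure (T : Set K) ≤ R := by
    rw [Subring.closure_le]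
    intro z hz
    refine hZR z ?_
    rw [hZ]
    exact Finset.mem_union_left _ hz
  have m1 : ∀ z ∈ Z1, z ∈ R := fun z hz => hZR z (by
    rw [hZ]; simp only [Finset.mem_union]; tauto)
  have m2 : ∀ z ∈ Z2, z ∈ R := fun z hz => hZR z (by
    rw [hZ]; simp only [Finset.mem_union]; tauto)
  have m3 : ∀ z ∈ Z3, z ∈ R := fun z hz => hZR z (by
    rw [hZ]; simp only [Finset.mem_union]; tauto)
  have m4 : ∀ z ∈ Z4, z ∈ R := fun z hz => hZR z (by
    rw [hZ]; simp only [Finset.mem_union]; tauto)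
  have m5 : ∀ z ∈ Z5, z ∈ R := fun z hz => hZR z (by
    rw [hZ]; simp only [Finset.mem_union]; tauto)
  have hUR := hU Z
  rw [← hR] at hUR
  -- the points are determined by the solutions of the unit equation
  obtain ⟨c, hc⟩ : ∃ c : K, c = om l m p2.rep p0.rep / om l m p1.rep p2.rep := ⟨_, rfl⟩
  have hc0 : c ≠ 0 := by rw [hc]; exact div_ne_zero o20 o12
  have hli01 : LinearIndependent K ![p0.rep, p1.rep] := li_of_pl (ik := (l, m)) o01
  refine (hUR.image fun X => Projectivization.mk K ((X / c) • p0.rep + p1.rep)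
    (comb_ne hli01 _)).subset ?_
  rintro p ⟨⟨-, hp⟩, hpW⟩
  have hint : ∀ b, b ∉ C → ∀ I : Fin (n + 1) →₀ ℕ, I.degree = d b →
      (∏ i, p.rep i ^ I i) / eval p.rep (F b) ∈ R := fun b hb I hI => hTR ((hp b hb).2 I hI)
  have q1 := hZ1 R m1 p.rep hpW (hp b0 hb0).1 (hint b0 hb0)
  have q2 := hZ2 R m2 p.rep hpW (hp b1 hb1).1 (hint b1 hb1)
  have q3 := hZ3 R m3 p.rep hpW (hp b0 hb0).1 (hint b0 hb0)
  have q4 := hZ4 R m4 p.rep hpW (hp b2 hb2).1 (hint b2 hb2)
  have hX := unit_rel o01 o12 o20 q1.1 q2.1 q4.1 q1.2 q2.2 q3.2 q4.2 (m5 _ hZ5.1)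
    (m5 _ hZ5.2.1) (m5 _ hZ5.2.2.1) (m5 _ hZ5.2.2.2)
  rw [← hc] at hX
  refine ⟨_, hX, ?_⟩
  symm
  refine mk_of_rep (b := -(om l m p.rep p0.rep / om l m p0.rep p1.rep)) _ ?_
  have h5 : -(c * (om l m p.rep p1.rep / om l m p.rep p0.rep)) / c =
      -(om l m p.rep p1.rep / om l m p.rep p0.rep) := by
    field_simp
  rw [h5]
  have e01 := om_rel hW hpW hp0 hp1 o01
  have h6 : p.rep = (om l m p0.rep p1.rep)⁻¹ • (om l m p0.rep p1.rep • p.rep) := by
    rw [smul_smul, inv_mul_cancel₀ o01, one_smul]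
  rw [e01] at h6
  have hn0 := q1.1
  rw [smul_add, smul_smul]
  have h7 : -(om l m p.rep p0.rep / om l m p0.rep p1.rep) *
      -(om l m p.rep p1.rep / om l m p.rep p0.rep) = (om l m p0.rep p1.rep)⁻¹ *
        om l m p.rep p1.rep := by
    field_simp
  have h8 : -(om l m p.rep p0.rep / om l m p0.rep p1.rep) =
      -((om l m p0.rep p1.rep)⁻¹ * om l m p.rep p0.rep) := by
    rw [div_eq_inv_mul]
  rw [h7, h8, neg_smul, ← sub_eq_add_neg, ← smul_smul, ← smul_smul, ← smul_sub]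
  exact h6

end Pool.Agent.Y741
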