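import Pool.Agent.Y741.UnitNF
import Pool.Agent.Y741.UnitLine

/-!
Points over finitely generated rings on generic pairs.
-/

set_option autoImplicit false

open MvPolynomial FF Pool.Agent.W603.LV Pool.Agent.W603.PV Pool.Agent.W602.RG Pool.Agent.TH145.GH
open Pool.Agent.TH145.GC (Gen Rt)
open Pool.Agent.Y735 (rho eval_rho rho_X pl fht rho_deg)
open LinearAlgebra.Projectivization

namespace Pool.Agent.Y741

variable {K : Type} [Field K] {n : ℕ} {A : Type}

theorem rpts_mono {F : A → MvPolynomial (Fin (n + 1)) K} {d : A → ℕ} {C : Finset A}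
    {R R' : Subring K} (h : R ≤ R') : RPts F d C R ⊆ RPts F d C R' :=
  fun _ hp => ⟨hp.1, fun b hb => ⟨(hp.2 b hb).1, fun I hI => h ((hp.2 b hb).2 I hI)⟩⟩

theorem rpts_sub {F : A → MvPolynomial (Fin (n + 1)) K} {d : A → ℕ}
    (hF : ∀ a, (F a).IsHomogeneous (d a)) (hpos : ∀ a, 0 < d a) {C : Finset A} (hC : ∃ b, b ∉ C)
    (R : Subring K) : RPts F d C R ⊆ IntPts F d C R := by
  classical
  rintro p ⟨hp1, hp2⟩
  obtain ⟨b, hb⟩ := hC
  obtain ⟨l, hl⟩ := Function.ne_iff.1 p.rep_nonzero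
  have hl' : p.rep l ≠ 0 := hl
  have hx : (p.rep l)⁻¹ • p.rep ≠ 0 := smul_ne_zero (inv_ne_zero hl') p.rep_nonzero
  have hprod : ∀ I : Fin (n + 1) →₀ ℕ, ∀ i j, ∀ e : ℕ,
      I = Finsupp.single i 1 + Finsupp.single j e →
      ∏ m, p.rep m ^ I m = p.rep i * p.rep j ^ e := by
    intro I i j e hI
    have h1 : ∀ m, p.rep m ^ I m = (if m = i then p.rep i else 1) *
        (if m = j then p.rep j ^ e else 1) := by
      intro m
      rw [hI, Finsupp.add_apply, pow_add, Finsupp.single_apply, Finsupp.single_apply]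
      congr 1
      · split_ifs with h1 h2 h2
        · rw [pow_one, h1]
        · exact absurd h1.symm h2
        · exact absurd h2.symm h1
        · rw [pow_zero]
      · split_ifs with h1 h2 h2
        · rw [h1]
        · exact absurd h1.symm h2
        · exact absurd h2.symm h1
        · rw [pow_zero]
    rw [Finset.prod_congr rfl fun m _ => h1 m, Finset.prod_mul_distrib, Finset.prod_ite_eq',
      Finset.prod_ite_eq', if_pos (Finset.mem_univ _), if_pos (Finset.mem_univ _)]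
  have hmem : ∀ i, p.rep i * p.rep l ^ (d b - 1) / eval p.rep (F b) ∈ R := by
    intro i
    have h1 := (hp2 b hb).2 (Finsupp.single i 1 + Finsupp.single l (d b - 1)) (by
      rw [map_add, Finsupp.degree_single, Finsupp.degree_single]
      have := hpos b
      omega)
    rwa [hprod _ i l (d b - 1) rfl] at h1
  have hev : ∀ a, eval ((p.rep l)⁻¹ • p.rep) (F a) = (p.rep l)⁻¹ ^ d a * eval p.rep (F a) :=
    fun a => eval_smul_hom (hF a) _ _
  refine ⟨(p.rep l)⁻¹ • p.rep, hx, ?_, fun i => ?_, fun c hc => ?_, fun a ha => ⟨?_, fun i => ?_⟩⟩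
  · conv_lhs => rw [← p.mk_rep]
    rw [Projectivization.mk_eq_mk_iff']
    exact ⟨p.rep l, by rw [smul_smul, mul_inv_cancel₀ hl', one_smul]⟩
  · have h1 : ((p.rep l)⁻¹ • p.rep) i = (p.rep i * p.rep l ^ (d b - 1) / eval p.rep (F b)) /
        (p.rep l * p.rep l ^ (d b - 1) / eval p.rep (F b)) := by
      rw [Pi.smul_apply, smul_eq_mul]
      have h2 := (hp2 b hb).1
      have h3 := pow_ne_zero (d b - 1) hl'
      field_simp
    rw [h1]
    exact div_mem (Subfield.subset_closure (hmem i)) (Subfield.subset_closure (hmem l))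
  · rw [hev, hp1 c hc, mul_zero]
  · rw [hev]
    exact mul_ne_zero (pow_ne_zero _ (inv_ne_zero hl')) (hp2 a ha).1
  · have h1 : ((p.rep l)⁻¹ • p.rep) i ^ d a / eval ((p.rep l)⁻¹ • p.rep) (F a) =
        p.rep i ^ d a / eval p.rep (F a) := by
      rw [hev, Pi.smul_apply, smul_eq_mul, mul_pow,
        mul_div_mul_left _ _ (pow_ne_zero _ (inv_ne_zero hl'))]
    rw [h1]
    have h2 := (hp2 a ha).2 (Finsupp.single i (d a)) (Finsupp.degree_single _ _)
    have h3 : ∏ m, p.rep m ^ (Finsupp.single i (d a) : Fin (n + 1) →₀ ℕ) m = p.rep i ^ d a := by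
      rw [Finset.prod_eq_single i]
      · rw [Finsupp.single_eq_same]
      · intro m _ hm
        rw [Finsupp.single_apply, if_neg (fun h => hm h.symm), pow_zero]
      · intro h
        exact absurd (Finset.mem_univ i) h
    rwa [h3] at h2

section main

variable {k : Type} [Field k] [IsAlgClosed K] [CharZero K] [Algebra k K] [Fintype A]
  [DecidableEq A] {d : A → ℕ}

/-- The points over the subrings of finitely generated algebras over the closure of `k`. -/
theorem main_k (hn : 1 ≤ n) (hpos : ∀ a, 0 < d a) (C : Finset A) (hC : ∃ b, b ∉ C)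
    (hd : 3 * n + 3 ≤ 2 * ∑ a, d a + C.card)
    (F : A → MvPolynomial (Fin (n + 1)) K) (hF : ∀ a, (F a).IsHomogeneous (d a))
    (I0 : A → Fin (n + 1) →₀ ℕ) (h0 : ∀ a, (F a).coeff (I0 a) ≠ 0)
    (hind : AlgebraicIndependent k fun p : Rt d I0 =>
      (F p.1).coeff p.2.1 / (F p.1).coeff (I0 p.1)) (T : Finset K) (R : Subring K)
    (hR : R ≤ Subring.closure ((algebraicClosure k K : Set K) ∪ (T : Set K))) :
    ∃ L : Set (Submodule K (Fin (n + 1) → K)), L.Finite ∧
      (∀ W ∈ L, IsLine F C W ∧ 3 ≤ (Pts W ∩ Bd F C).encard) ∧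
      {p | p ∈ RPts F d C R ∧ ∀ W, IsLine F C W → p ∈ Pts W →
        W ∉ L ∧ 3 ≤ (Pts W ∩ Bd F C).encard}.Finite := by
  obtain ⟨L, h1, h2, h3⟩ := main_lines hn hpos C hC hd F hF I0 h0 hind T R hR
  exact ⟨L, h1, h2, h3.subset fun p hp => ⟨rpts_sub hF hpos hC R hp.1, hp.2⟩⟩

/-- The points over the finitely generated rings. -/
theorem main_fg (hn : 1 ≤ n) (hpos : ∀ a, 0 < d a) (C : Finset A) (hC : ∃ b, b ∉ C)
    (hd : 3 * n + 3 ≤ 2 * ∑ a, d a + C.card)
    (F : A → MvPolynomial (Fin (n + 1)) K) (hF : ∀ a, (F a).IsHomogeneous (d a))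
    (I0 : A → Fin (n + 1) →₀ ℕ) (h0 : ∀ a, (F a).coeff (I0 a) ≠ 0)
    (hind : AlgebraicIndependent k fun p : Rt d I0 =>
      (F p.1).coeff p.2.1 / (F p.1).coeff (I0 p.1)) (T : Finset K) (R : Subring K)
    (hR : R ≤ Subring.closure (T : Set K)) :
    {p | p ∈ RPts F d C R ∧ ∀ W, IsLine F C W → p ∈ Pts W →
      3 ≤ (Pts W ∩ Bd F C).encard}.Finite := by
  classical
  obtain ⟨L, h1, h2, h3⟩ := main_k hn hpos C hC hd F hF I0 h0 hind T (Subring.closure (T : Set K))
    (Subring.closure_mono Set.subset_union_right)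
  refine (h3.union (h1.biUnion fun W hW => fin_line uf hF (h2 W hW).1.1 (h2 W hW).2 T)).subset ?_
  rintro p ⟨hp, hpW⟩
  by_cases h4 : ∃ W ∈ L, p ∈ Pts W
  · obtain ⟨W, hW, hp2⟩ := h4
    exact Or.inr (Set.mem_biUnion hW ⟨rpts_mono hR hp, hp2⟩)
  · left
    push Not at h4
    exact ⟨rpts_mono hR hp, fun W hW hp2 => ⟨fun hWL => h4 W hWL hp2, hpW W hW hp2⟩⟩

/-- The points over the finitely generated rings, in large degree. -/
theorem main_fin (hn : 1 ≤ n) (hpos : ∀ a, 0 < d a) (C : Finset A) (hC : ∃ b, b ∉ C)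
    (hd : 3 * n + 3 ≤ 2 * ∑ a, d a + C.card) (hd' : 2 * n + 1 ≤ ∑ a, d a + C.card)
    (F : A → MvPolynomial (Fin (n + 1)) K) (hF : ∀ a, (F a).IsHomogeneous (d a))
    (I0 : A → Fin (n + 1) →₀ ℕ) (h0 : ∀ a, (F a).coeff (I0 a) ≠ 0)
    (hind : AlgebraicIndependent k fun p : Rt d I0 =>
      (F p.1).coeff p.2.1 / (F p.1).coeff (I0 p.1)) (T : Finset K) (R : Subring K)
    (hR : R ≤ Subring.closure (T : Set K)) : (RPts F d C R).Finite := by
  refine (main_fg hn hpos C hC hd F hF I0 h0 hind T R hR).subset fun p hp =>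
    ⟨hp, fun W hW _ => ?_⟩
  have h1 := no_exc_line C hd' F hF I0 h0 hind W hW
  rw [not_le] at h1
  exact Order.add_one_le_of_lt h1

end main

end Pool.Agent.Y741
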