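import Pool.Agent.Y741.ScaleV
import Pool.Agent.Y741.LineH
import Pool.Agent.TH145.GC.Main

/-!
Integral points on generic log complete intersections.
-/

set_option autoImplicit false

open MvPolynomial FF Pool.Agent.W603.LV Pool.Agent.W603.PV Pool.Agent.W602.RG Pool.Agent.TH145.GH
open Pool.Agent.TH145.GC (Gen Rt)
open Pool.Agent.Y735 (rho eval_rho rho_X pl fht rho_deg)
open LinearAlgebra.Projectivization

namespace Pool.Agent.Y741

variable {K : Type} [Field K] {n : ℕ} {A : Type}

/-- The points of the projective space of a subspace. -/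
def Pts (W : Submodule K (Fin (n + 1) → K)) : Set (ℙ K (Fin (n + 1) → K)) := {p | p.rep ∈ W}

/-- The union of the hypersurfaces `F b = 0`, for `b` not in `C`. -/
def Bd (F : A → MvPolynomial (Fin (n + 1)) K) (C : Finset A) :
    Set (ℙ K (Fin (n + 1) → K)) := {p | ∃ b, b ∉ C ∧ eval p.rep (F b) = 0}

/-- A line contained in `F c = 0` for all `c` in `C`. -/
def IsLine (F : A → MvPolynomial (Fin (n + 1)) K) (C : Finset A)
    (W : Submodule K (Fin (n + 1) → K)) : Prop :=
  Module.finrank K W = 2 ∧ ∀ c ∈ C, ∀ v ∈ W, eval v (F c) = 0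

/-- The integral points. -/
def IntPts (F : A → MvPolynomial (Fin (n + 1)) K) (d : A → ℕ) (C : Finset A) (R : Subring K) :
    Set (ℙ K (Fin (n + 1) → K)) :=
  {p | ∃ (x : Fin (n + 1) → K) (hx : x ≠ 0), p = Projectivization.mk K x hx ∧
    (∀ i, x i ∈ Subfield.closure (R : Set K)) ∧ (∀ c ∈ C, eval x (F c) = 0) ∧
    ∀ b, b ∉ C → eval x (F b) ≠ 0 ∧ ∀ i, x i ^ d b / eval x (F b) ∈ R}

theorem li_of_pl {x y : Fin (n + 1) → K} {ik : Fin (n + 1) × Fin (n + 1)} (h : pl x y ik ≠ 0) :
    LinearIndependent K ![x, y] := by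
  rw [LinearIndependent.pair_iff]
  intro a b hab
  have h1 : ∀ i, a * x i + b * y i = 0 := fun i => by
    have := congrFun hab i
    simpa using this
  have h2 : pl x y ik = x ik.1 * y ik.2 - x ik.2 * y ik.1 := rfl
  constructor
  · have h3 : a * pl x y ik = 0 := by
      rw [h2]
      linear_combination y ik.2 * h1 ik.1 - y ik.1 * h1 ik.2
    exact (mul_eq_zero.1 h3).resolve_right h
  · have h3 : b * pl x y ik = 0 := by
      rw [h2]
      linear_combination x ik.1 * h1 ik.2 - x ik.2 * h1 ik.1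
    exact (mul_eq_zero.1 h3).resolve_right h

theorem finrank_span_of_li {x y : Fin (n + 1) → K} (h : LinearIndependent K ![x, y]) :
    Module.finrank K (Submodule.span K {x, y}) = 2 := by
  have h1 := finrank_span_eq_card h
  rw [Fintype.card_fin] at h1
  have h2 : Set.range ![x, y] = {x, y} := by
    simp [Matrix.range_cons, Set.pair_comm]
  rwa [h2] at h1

theorem comb_ne {x y : Fin (n + 1) → K} (h : LinearIndependent K ![x, y]) (t : K) :
    t • x + y ≠ 0 := by
  intro h0
  rw [LinearIndependent.pair_iff] at h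
  exact one_ne_zero (h t 1 (by rw [one_smul]; exact h0)).2

theorem mk_of_rep {p : ℙ K (Fin (n + 1) → K)} {b : K} {v : Fin (n + 1) → K} (hv : v ≠ 0)
    (h : p.rep = b • v) : p = Projectivization.mk K v hv := by
  rw [← p.mk_rep, Projectivization.mk_eq_mk_iff']
  exact ⟨b, h.symm⟩

/-- The zeros of a form on a line. -/
theorem line_zeros {d : ℕ} {F : MvPolynomial (Fin (n + 1)) K} (hF : F.IsHomogeneous d)
    {x y : Fin (n + 1) → K} (hli : LinearIndependent K ![x, y]) (hx : eval x F ≠ 0)
    {p : ℙ K (Fin (n + 1) → K)} (hp : p.rep ∈ Submodule.span K {x, y})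
    (h0 : eval p.rep F = 0) :
    ∃ t : K, eval (t • x + y) F = 0 ∧ p = Projectivization.mk K (t • x + y) (comb_ne hli t) := by
  obtain ⟨a, b, hab⟩ := Submodule.mem_span_pair.1 hp
  have hb : b ≠ 0 := by
    rintro rfl
    rw [zero_smul, add_zero] at hab
    rw [← hab, eval_smul_hom hF] at h0
    have ha : a = 0 := by
      by_contra ha
      exact mul_ne_zero (pow_ne_zero _ ha) hx h0
    apply p.rep_nonzero
    rw [← hab, ha, zero_smul]
  have h1 : p.rep = b • ((a / b) • x + y) := by
    rw [← hab, smul_add, smul_smul, mul_div_cancel₀ _ hb]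
  refine ⟨a / b, ?_, mk_of_rep _ h1⟩
  rw [h1, eval_smul_hom hF] at h0
  exact (mul_eq_zero.1 h0).resolve_left (pow_ne_zero _ hb)

theorem exc_line [Fintype A] [DecidableEq A] {F : Fam K n A} {dg : A → ℕ}
    (hF : ∀ a, (F a).IsHomogeneous (dg a)) {C : Finset A}
    {x : Fin (n + 1) → K} (hx : ∀ b, b ∉ C → eval x (F b) ≠ 0) (h : Exc 2 F C x) :
    ∃ W, IsLine F C W ∧ (Pts W ∩ Bd F C).encard ≤ 2 ∧ x ∈ W := by
  obtain ⟨y, ik, hik, h1, t, m, h2⟩ := h
  have hli := li_of_pl hik
  refine ⟨Submodule.span K {x, y}, ⟨finrank_span_of_li hli, fun c hc v hv => ?_⟩, ?_,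
    Submodule.subset_span (Set.mem_insert _ _)⟩
  · obtain ⟨a, b, rfl⟩ := Submodule.mem_span_pair.1 hv
    exact h1 c hc a b
  · have hsub : Pts (Submodule.span K {x, y}) ∩ Bd F C ⊆
        {Projectivization.mk K (t 0 • x + y) (comb_ne hli _),
          Projectivization.mk K (t 1 • x + y) (comb_ne hli _)} := by
      rintro p ⟨hp, b, hb, hpb⟩
      obtain ⟨s, hs, hps⟩ := line_zeros (hF b) hli (hx b hb) hp hpb
      have h3 : (bdy F C x y).eval s = 0 := by
        rw [eval_bdy]
        exact Finset.prod_eq_zero (Finset.mem_compl.2 hb) hs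
      rw [h2, Polynomial.eval_mul, Polynomial.eval_C, Polynomial.eval_prod] at h3
      have h4 : ∏ b ∈ Cᶜ, eval x (F b) ≠ 0 :=
        Finset.prod_ne_zero_iff.2 fun b hb => hx b (Finset.mem_compl.1 hb)
      obtain ⟨i, -, hi⟩ := Finset.prod_eq_zero_iff.1 ((mul_eq_zero.1 h3).resolve_left h4)
      rw [Polynomial.eval_pow, Polynomial.eval_sub, Polynomial.eval_X, Polynomial.eval_C] at hi
      have h5 : s = t i := by
        by_contra hcon
        exact pow_ne_zero _ (sub_ne_zero.2 hcon) hi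
      subst h5
      fin_cases i
      · exact Or.inl hps
      · exact Or.inr hps
    refine (Set.encard_le_encard hsub).trans ((Set.encard_insert_le _ _).trans ?_)
    rw [Set.encard_singleton]
    norm_num

/-- A line that is not contained in the variety has finitely many points on it. -/
theorem finite_line [Infinite K] {d : ℕ} {F : MvPolynomial (Fin (n + 1)) K}
    (hF : F.IsHomogeneous d) (hd : 0 < d) {W : Submodule K (Fin (n + 1) → K)}
    (hW : Module.finrank K W ≤ 2) {v : Fin (n + 1) → K} (hv : v ∈ W) (hvF : eval v F ≠ 0) :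
    {p : ℙ K (Fin (n + 1) → K) | p.rep ∈ W ∧ eval p.rep F = 0}.Finite := by
  classical
  have hv0 : v ≠ 0 := by
    rintro rfl
    apply hvF
    have := eval_smul_hom hF (0 : Fin (n + 1) → K) 0
    rw [smul_zero, zero_pow hd.ne', zero_mul] at this
    exact this
  by_cases hex : ∃ w ∈ W, LinearIndependent K ![v, w]
  · obtain ⟨w, hw, hli⟩ := hex
    have hspan : Submodule.span K {v, w} = W := by
      refine Submodule.eq_of_le_of_finrank_le ?_ ?_
      · rw [Submodule.span_le]
        rintro u (rfl | rfl)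
        · exact hv
        · exact hw
      · rw [finrank_span_of_li hli]
        exact hW
    have hne : rho v w F ≠ 0 := by
      intro h0
      have h1 := rho_top v w hF
      rw [h0, Polynomial.coeff_zero] at h1
      exact hvF h1.symm
    refine (((rho v w F).roots.toFinset.finite_toSet).image fun t =>
      Projectivization.mk K (t • v + w) (comb_ne hli t)).subset ?_
    rintro p ⟨hp, hp0⟩
    rw [← hspan] at hp
    obtain ⟨t, ht, hpt⟩ := line_zeros hF hli hvF hp hp0
    refine ⟨t, ?_, hpt.symm⟩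
    rw [Finset.mem_coe, Multiset.mem_toFinset, Polynomial.mem_roots hne, Polynomial.IsRoot.def,
      eval_rho]
    exact ht
  · refine (Set.finite_singleton (Projectivization.mk K v hv0)).subset ?_
    rintro p ⟨hp, -⟩
    push Not at hex
    have h1 := hex p.rep hp
    rw [LinearIndependent.pair_iff] at h1
    push Not at h1
    obtain ⟨a, b, hab, hne⟩ := h1
    have hb : b ≠ 0 := by
      rintro rfl
      rw [zero_smul, add_zero] at hab
      exact hne ((smul_eq_zero.1 hab).resolve_right hv0) rfl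
    have h2 : p.rep = (-(a / b)) • v := by
      have h3 : b • p.rep = (-a) • v := by
        rw [neg_smul]
        exact eq_neg_of_add_eq_zero_right hab
      rw [← inv_smul_smul₀ hb p.rep, h3, smul_smul]
      congr 1
      field_simp
    exact mk_of_rep hv0 h2

theorem finite_small {W : Submodule K (Fin (n + 1) → K)} (hW : Module.finrank K W ≤ 1) :
    {p : ℙ K (Fin (n + 1) → K) | p.rep ∈ W}.Finite := by
  refine Set.Subsingleton.finite ?_
  intro p hp q hq
  rw [← p.mk_rep]
  have hfin : Module.finrank K (Submodule.span K {q.rep}) = 1 :=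
    finrank_span_singleton q.rep_nonzero
  have hspan : Submodule.span K {q.rep} = W :=
    Submodule.eq_of_le_of_finrank_le (by
      rw [Submodule.span_singleton_le_iff_mem]
      exact hq) (by rw [hfin]; exact hW)
  have h1 : p.rep ∈ Submodule.span K {q.rep} := by rw [hspan]; exact hp
  obtain ⟨a, ha⟩ := Submodule.mem_span_singleton.1 h1
  have h2 := mk_of_rep q.rep_nonzero ha.symm
  rw [p.mk_rep, h2, q.mk_rep]

/-- Finiteness of the integral points, up to lines. -/
theorem main_lines {k K : Type} [Field k] [Field K] [IsAlgClosed K] [CharZero K] [Algebra k K]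
    {n : ℕ} {A : Type} [Fintype A] [DecidableEq A] {d : A → ℕ} (hn : 1 ≤ n)
    (hpos : ∀ a, 0 < d a) (C : Finset A) (hC : ∃ b, b ∉ C)
    (hd : 3 * n + 3 ≤ 2 * ∑ a, d a + C.card)
    (F : A → MvPolynomial (Fin (n + 1)) K) (hF : ∀ a, (F a).IsHomogeneous (d a))
    (I0 : A → Fin (n + 1) →₀ ℕ) (h0 : ∀ a, (F a).coeff (I0 a) ≠ 0)
    (hind : AlgebraicIndependent k fun p : Rt d I0 =>
      (F p.1).coeff p.2.1 / (F p.1).coeff (I0 p.1)) (T : Finset K) (R : Subring K)
    (hR : R ≤ Subring.closure ((algebraicClosure k K : Set K) ∪ (T : Set K))) :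
    ∃ L : Set (Submodule K (Fin (n + 1) → K)), L.Finite ∧
      (∀ W ∈ L, IsLine F C W ∧ 3 ≤ (Pts W ∩ Bd F C).encard) ∧
      {p | p ∈ IntPts F d C R ∧ ∀ W, IsLine F C W → p ∈ Pts W →
        W ∉ L ∧ 3 ≤ (Pts W ∩ Bd F C).encard}.Finite := by
  classical
  have hac : IsAlgClosed (algebraicClosure k K) := (algebraicClosure.isAlgClosure k K).isAlgClosed
  have hR' : R ≤ Subring.closure
      (Set.range (algebraMap (algebraicClosure k K) K) ∪ (T : Set K)) := by
    refine hR.trans (Subring.closure_mono (Set.union_subset_union_left _ ?_))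
    intro x hx
    exact ⟨⟨x, hx⟩, rfl⟩
  have hRf : Subfield.closure (R : Set K) ≤
      (IntermediateField.adjoin (algebraicClosure k K) (T : Set K)).toSubfield := by
    rw [Subfield.closure_le]
    refine Set.Subset.trans hR' ?_
    have h1 : Subring.closure (Set.range (algebraMap (algebraicClosure k K) K) ∪ (T : Set K)) ≤
        (IntermediateField.adjoin (algebraicClosure k K) (T : Set K)).toSubfield.toSubring := by
      rw [Subring.closure_le]
      rintro x (⟨r, rfl⟩ | hx)
      · exact (IntermediateField.adjoin (algebraicClosure k K) (T : Set K)).algebraMap_mem r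
      · exact IntermediateField.subset_adjoin _ _ hx
    exact h1
  choose L hL1 hL2 hL3 using fun l0 => fin_points_W (k0 := algebraicClosure k K) (r := 2) hpos hn
    (by norm_num) hC hd (lineM n A d C) F hF I0 h0 hind.algebraicClosure T l0
  obtain ⟨Lu, hLu⟩ : ∃ Lu, Lu = ⋃ l0, L l0 := ⟨_, rfl⟩
  have hLuf : Lu.Finite := by rw [hLu]; exact Set.finite_iUnion hL1
  have hLu2 : ∀ W ∈ Lu, Module.finrank K W ≤ 2 := by
    intro W hW
    rw [hLu, Set.mem_iUnion] at hW
    obtain ⟨l0, hl0⟩ := hW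
    exact hL2 l0 W hl0
  refine ⟨{W | W ∈ Lu ∧ IsLine F C W ∧ 3 ≤ (Pts W ∩ Bd F C).encard},
    hLuf.subset fun W hW => hW.1, fun W hW => hW.2, ?_⟩
  refine (hLuf.biUnion (t := fun W => {p | p.rep ∈ W ∧ (∀ c ∈ C, eval p.rep (F c) = 0) ∧
    ∀ W', IsLine F C W' → p ∈ Pts W' → ¬ (W' ∈ Lu ∧ IsLine F C W' ∧
      3 ≤ (Pts W' ∩ Bd F C).encard) ∧ 3 ≤ (Pts W' ∩ Bd F C).encard}) fun W hW => ?_).subset ?_
  · have h2 := hLu2 W hW
    by_cases h1 : Module.finrank K W ≤ 1
    · exact (finite_small h1).subset fun p hp => hp.1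
    · by_cases h3 : ∀ c ∈ C, ∀ v ∈ W, eval v (F c) = 0
      · have h4 : IsLine F C W := ⟨by omega, h3⟩
        refine Set.finite_empty.subset ?_
        rintro p ⟨hp, -, hp2⟩
        obtain ⟨h5, h6⟩ := hp2 W h4 hp
        exact h5 ⟨hW, h4, h6⟩
      · push Not at h3
        obtain ⟨c, hc, v, hv, hvF⟩ := h3
        exact (finite_line (hF c) (hpos c) h2 hv hvF).subset fun p hp => ⟨hp.1, hp.2.1 c hc⟩
  · rintro p ⟨⟨x, hx, hp, hxR, hxC, hxs⟩, hpW⟩
    obtain ⟨l0, hl0⟩ : ∃ l, x l ≠ 0 := Function.ne_iff.1 hx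
    obtain ⟨x', hx'⟩ : ∃ x', x' = (x l0)⁻¹ • x := ⟨_, rfl⟩
    have hev : ∀ a, eval x' (F a) = (x l0)⁻¹ ^ d a * eval x (F a) := fun a => by
      rw [hx', eval_smul_hom (hF a)]
    have hi0 : (x l0)⁻¹ ≠ 0 := inv_ne_zero hl0
    have hx'b : ∀ b, b ∉ C → eval x' (F b) ≠ 0 := fun b hb => by
      rw [hev]
      exact mul_ne_zero (pow_ne_zero _ hi0) (hxs b hb).1
    obtain ⟨e, he, hpe⟩ : ∃ e : K, e ≠ 0 ∧ p.rep = e • x' := by
      have h1 : Projectivization.mk K p.rep p.rep_nonzero = Projectivization.mk K x hx := by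
        rw [p.mk_rep, hp]
      obtain ⟨a, ha⟩ := (Projectivization.mk_eq_mk_iff' K _ _ _ _).1 h1
      refine ⟨a * x l0, ?_, ?_⟩
      · refine mul_ne_zero ?_ hl0
        rintro rfl
        rw [zero_smul] at ha
        exact p.rep_nonzero ha.symm
      · rw [hx', smul_smul, mul_assoc, mul_inv_cancel₀ hl0, mul_one, ha]
    have hmemW : ∀ W : Submodule K (Fin (n + 1) → K), x' ∈ W → p.rep ∈ W := fun W hW => by
      rw [hpe]
      exact W.smul_mem _ hW
    have hexc : ¬ Exc 2 F C x' := by
      intro hexc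
      obtain ⟨W, hW1, hW2, hW3⟩ := exc_line hF hx'b hexc
      have h4 := (hpW W hW1 (hmemW W hW3)).2
      have h5 := h4.trans hW2
      exact absurd h5 (by norm_num)
    have hxl : x' l0 = 1 := by
      rw [hx', Pi.smul_apply, smul_eq_mul, inv_mul_cancel₀ hl0]
    have hR1 : ∀ j, x' j ∈ IntermediateField.adjoin (algebraicClosure k K) (T : Set K) := by
      intro j
      rw [hx', Pi.smul_apply, smul_eq_mul]
      exact mul_mem (inv_mem (hRf (hxR l0))) (hRf (hxR j))
    have hC1 : ∀ c ∈ C, eval x' (F c) = 0 := by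
      intro c hc
      rw [hev, hxC c hc, mul_zero]
    have hs1 : ∀ b, b ∉ C → ∀ j, x' j ^ d b / eval x' (F b) ∈ Subring.closure
        (Set.range (algebraMap (algebraicClosure k K) K) ∪ (T : Set K)) := by
      intro b hb j
      have h3 : x' j ^ d b / eval x' (F b) = x j ^ d b / eval x (F b) := by
        rw [hev, hx', Pi.smul_apply, smul_eq_mul, mul_pow,
          mul_div_mul_left _ _ (pow_ne_zero _ hi0)]
      rw [h3]
      exact hR' ((hxs b hb).2 j)
    obtain ⟨W, hW, hxW⟩ := hL3 l0 x' ⟨hR1, hxl, hC1, hx'b, hs1, hexc⟩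
    refine Set.mem_biUnion (x := W) (by rw [hLu]; exact Set.mem_iUnion.2 ⟨l0, hW⟩)
      ⟨hmemW W hxW, fun c hc => ?_, fun W' h1 h2 => hpW W' h1 h2⟩
    rw [hpe, eval_smul_hom (hF c), hC1 c hc, mul_zero]

end Pool.Agent.Y741
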