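import Pool.Agent.Y741.Ric
import Pool.Agent.TH145.GH.Cost
import Pool.Agent.TH145.GH.LossB

/-!
The theorem of Mason with slowly moving targets.
-/

set_option autoImplicit false

open Polynomial FF Pool.Agent.W603.LV Pool.Agent.W603.PV
open Pool.Agent.TH145.MW (hgt_mul_le hgt_neg hgt_add_le)
open Pool.Agent.TH145.GH (Sem exists_loss loss_all)

namespace Pool.Agent.Y741

variable {κ L : Type} [Field κ] [Field L] [Algebra κ L]

theorem hgt_le_of_ord [CharZero κ] [IsFF κ L] [IsAlgClosed κ] {c : Place κ L → ℤ} {B : ℤ}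
    (h : Loc c B) (u : L) {ζ : L}
    (hle : ∀ P, max (-P.ord ζ) 0 ≤ P.ord u + c P) : hgt κ ζ ≤ B := by
  have h1 : {P : Place κ L | P.ord u ≠ 0}.Finite := finite_support u
  have h2 : {P : Place κ L | P.ord u + c P ≠ 0}.Finite := by
    refine (h1.union h.fin).subset fun P hP => ?_
    by_contra hcon
    rw [Set.mem_union, not_or] at hcon
    apply hP
    have h1 : ¬ (P.ord u ≠ 0) := hcon.1
    have h2 : ¬ (c P ≠ 0) := hcon.2
    push Not at h1 h2
    rw [h1, h2]; rfl
  have h3 : hgt κ ζ ≤ ∑ᶠ P : Place κ L, (P.ord u + c P) :=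
    finsum_le_finsum' (loc_hgt (κ := κ) ζ).fin h2 hle
  rw [finsum_add_distrib h1 h.fin, sum_ord, zero_add] at h3
  exact h3.trans h.le

theorem ge_der_zeta {P : Place κ L} {D : Derivation κ L L} {e : ℤ}
    (hloss : ∀ f, f ≠ 0 → Ge P (P.ord f - (e + 1)) (D f))
    (hloss0 : ∀ f, Ge P 0 f → Ge P (-e) (D f)) (f : L) :
    Ge P (2 * min (P.ord f) 0 - e) (D f) := by
  by_cases hf : f = 0
  · rw [hf, map_zero]; exact Ge.zero
  · rcases le_or_gt 0 (P.ord f) with h | h
    · rw [min_eq_right h]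
      exact (hloss0 f (Or.inr h)).mono (by omega)
    · rw [min_eq_left h.le]
      exact (hloss f hf).mono (by omega)

theorem mason_local {P : Place κ L} {D : Derivation κ L L} {c e : ℤ} (he : 0 ≤ e) (hec : e ≤ c)
    {r : ℕ} (hr : 3 ≤ r) {χ u v a b χD : L[X]} {ζ : L}
    (hloss : ∀ f, f ≠ 0 → Ge P (P.ord f - (e + 1)) (D f))
    (hloss0 : ∀ f, Ge P 0 f → Ge P (-e) (D f))
    (hχ : PGe P (-c) χ) (hu : PGe P (-c) u) (hv : PGe P (-c) v) (ha : PGe P (-c) a)
    (hb : PGe P (-c) b) (hud : u.natDegree ≤ r) (hvd : v.natDegree ≤ r) (had : a.natDegree ≤ r)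
    (hbd : b.natDegree ≤ r - 1) (huv : u * χ + v * derivative χ = 1)
    (hχD : ∀ i, χD.coeff i = D (χ.coeff i)) (hab : a * χ + b * derivative χ = χD)
    (hm : χ.Monic) (hdeg : χ.natDegree = r) (hne : χ.eval ζ ≠ 0)
    (hint : c = 0 → P.ord (χ.eval ζ) ≤ r * min (P.ord ζ) 0) (hE : D ζ + b.eval ζ ≠ 0) :
    P.ord (χ.eval ζ) - min (P.ord ζ) 0 - (2 * r + 3) * c ≤ P.ord (D ζ + b.eval ζ) := by
  obtain ⟨m, hm'⟩ : ∃ m, m = min (P.ord ζ) 0 := ⟨_, rfl⟩
  have hm0 : m ≤ 0 := by rw [hm']; exact min_le_right _ _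
  have hζm : Ge P m ζ := Or.inr (by rw [hm']; exact min_le_left _ _)
  have hc0 : 0 ≤ c := he.trans hec
  have hr' : (3 : ℤ) ≤ r := by exact_mod_cast hr
  have hr1 : (((r - 1 : ℕ)) : ℤ) = r - 1 := by push_cast [Nat.cast_sub (by omega : 1 ≤ r)]; ring
  have h1 : Ge P ((r - 1) * m - c) (D ζ + b.eval ζ) := by
    refine Ge.add ((ge_der_zeta hloss hloss0 ζ).mono ?_) ((hb.eval hbd hm0 hζm).mono ?_)
    · rw [← hm']
      nlinarith
    · rw [hr1]
      linarith
  rw [← hm'] at hint ⊢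
  rcases le_or_gt (P.ord (χ.eval ζ)) (r * m) with h2 | h2
  · have h3 := h1.resolve_left hE
    nlinarith
  · have hc1 : 1 ≤ c := by
      by_contra hcon
      have := hint (by omega)
      omega
    have hmc : -c ≤ m := by
      by_contra hcon
      push Not at hcon
      have h3 : P.ord ζ < -c := by
        rw [hm'] at hcon
        rcases min_lt_iff.1 hcon with h | h
        · exact h
        · omega
      have h4 := (dom hm.ne_zero hχ (z := ζ) (by rw [hm.leadingCoeff, P.ord_one]; omega)).2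
      rw [hm.leadingCoeff, P.ord_one, hdeg, zero_add] at h4
      have h5 : m = P.ord ζ := by rw [hm']; exact min_eq_left (by omega)
      rw [h4, h5] at h2
      exact lt_irrefl _ h2
    have hrm : -(r * c) ≤ r * m := by nlinarith
    have hue : Ge P (-((r + 1) * c)) (u.eval ζ) := (hu.eval hud hm0 hζm).mono (by linarith)
    have hve : Ge P (-((r + 1) * c)) (v.eval ζ) := (hv.eval hvd hm0 hζm).mono (by linarith)
    have hae : Ge P (-((r + 1) * c)) (a.eval ζ) := (ha.eval had hm0 hζm).mono (by linarith)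
    have hEe : Ge P (-(r * c)) (D ζ + b.eval ζ) := h1.mono (by nlinarith)
    have hDe : Ge P (P.ord (χ.eval ζ) - 2 * c) (D (χ.eval ζ)) := (hloss _ hne).mono (by omega)
    have hid : D ζ + b.eval ζ = χ.eval ζ * (u.eval ζ * (D ζ + b.eval ζ) - v.eval ζ * a.eval ζ) +
        v.eval ζ * D (χ.eval ζ) := by
      have h3 := congrArg (fun f => f.eval ζ) huv
      have h4 := congrArg (fun f => f.eval ζ) hab
      simp only [eval_add, eval_mul, eval_one] at h3 h4
      rw [der_eval D hχD ζ, ← h4]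
      linear_combination (- (D ζ + b.eval ζ)) * h3
    have h3 : Ge P (P.ord (χ.eval ζ) - (2 * r + 2) * c) (D ζ + b.eval ζ) := by
      rw [hid]
      have hχe : Ge P (P.ord (χ.eval ζ)) (χ.eval ζ) := Or.inr le_rfl
      refine Ge.add ((hχe.mul (Ge.sub (N := -((2 * r + 2) * c)) ?_ ?_)).mono (by linarith)) ?_
      · exact (hue.mul hEe).mono (by nlinarith)
      · exact (hve.mul hae).mono (by nlinarith)
      · exact (hve.mul hDe).mono (by nlinarith)
    have h4 := h3.resolve_left hE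
    linarith

/-- The theorem of Mason. -/
theorem mason [CharZero κ] [IsFF κ L] [IsAlgClosed κ] {r : ℕ} (hr : 3 ≤ r) :
    ∃ C : ℤ, 0 ≤ C ∧ ∀ (χ : L[X]) (ζ : L) (c : Place κ L → ℤ) (H : ℤ), χ.Monic →
      χ.natDegree = r → IsCoprime χ (derivative χ) → Loc c H → (∀ P, PGe P (-c P) χ) →
      χ.eval ζ ≠ 0 → (∀ P, c P = 0 → P.ord (χ.eval ζ) ≤ r * min (P.ord ζ) 0) →
      hgt κ ζ ≤ C * (H + 1) := by
  classical
  obtain ⟨D, hD⟩ := Pool.Agent.W603.LV.exists_der (k := κ) (K := L)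
  have hSem : Sem κ (D.restrictScalars ℤ) := fun c => ⟨0, by
    change D (algebraMap κ L c) = _
    rw [D.map_algebraMap, map_zero]⟩
  obtain ⟨e, he0, hef, he⟩ := exists_loss hSem
  have hloss0 : ∀ P f, Ge P 0 f → Ge P (-e P) (D f) := he
  have hloss : ∀ P f, f ≠ 0 → Ge P (P.ord f - (e P + 1)) (D f) := fun P f hf =>
    loss_all P (D := D.restrictScalars ℤ) (he P) hf
  obtain ⟨E, hE⟩ : ∃ E, E = ∑ᶠ P, e P := ⟨_, rfl⟩
  have hLe : Loc e E := ⟨he0, hef, hE.ge⟩
  have hE0 : 0 ≤ E := hLe.B_nonneg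
  obtain ⟨Cs, hCs0, hCs⟩ := solve κ L r (by omega)
  have hK : 0 ≤ 1 + E + 4 * ((r + 1) * (Cs * (2 + E))) := by positivity
  refine ⟨(2 * r + 3) * (1 + E + 4 * ((r + 1) * (Cs * (2 + E)))) + 10 * (r + 1), by positivity,
    fun χ ζ c H hm hdeg hcop hLc hχc hne hint => ?_⟩
  have hH0 : 0 ≤ H := hLc.B_nonneg
  have hχH : ∀ i, hgt κ (χ.coeff i) ≤ H := fun i => hgt_le_of_loc hLc fun P => hχc P i
  obtain ⟨χD, hχD⟩ : ∃ χD : L[X], ∀ i, χD.coeff i = D (χ.coeff i) := by
    let _ : Differential L := ⟨D.restrictScalars ℤ⟩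
    exact ⟨Differential.mapCoeffs χ, fun i => Differential.coeff_mapCoeffs χ i⟩
  have hχDH : ∀ i, hgt κ (χD.coeff i) ≤ 2 * H + E := by
    intro i
    refine hgt_le_of_loc ((hLc.mul (m := 2) (by norm_num)).add hLe) fun P => ?_
    rw [hχD]
    refine (ge_der_zeta (hloss P) (hloss0 P) (χ.coeff i)).mono ?_
    have h1 : -c P ≤ min (P.ord (χ.coeff i)) 0 := by
      have h2 := hLc.nonneg P
      rcases hχc P i with h3 | h3
      · rw [h3, P.ord_zero, min_self]; omega
      · exact le_min h3 (by omega)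
    linarith
  have hdegree : χ.degree = r := by rw [degree_eq_natDegree hm.ne_zero, hdeg]
  have h1d : (1 : L[X]).degree < (2 * r : ℕ) := by
    rw [degree_one]
    exact_mod_cast (by omega : 0 < 2 * r)
  have hDd : χD.degree < (2 * r : ℕ) := by
    rw [degree_lt_iff_coeff_zero]
    intro m hm2
    rw [hχD, coeff_eq_zero_of_natDegree_lt (by omega), map_zero]
  have h1H : ∀ i, hgt κ ((1 : L[X]).coeff i) ≤ 2 * H + E := by
    intro i
    rw [coeff_one]
    split_ifs
    · rw [hgt_one]; omega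
    · rw [hgt_zero]; omega
  have hχH' : ∀ i, hgt κ (χ.coeff i) ≤ 2 * H + E := fun i => (hχH i).trans (by omega)
  obtain ⟨u, v, huv, hud, hvd, huH, hvH⟩ := hCs χ 1 (2 * H + E) (by omega) hdegree hcop h1d hχH' h1H
  obtain ⟨a, b, hab, had, hbd, haH, hbH⟩ :=
    hCs χ χD (2 * H + E) (by omega) hdegree hcop hDd hχH' hχDH
  have hnd : ∀ f : L[X], f.degree < r → f.natDegree ≤ r - 1 := by
    intro f hf
    rw [natDegree_le_iff_coeff_eq_zero]
    intro N hN
    exact (degree_lt_iff_coeff_zero _ _).1 hf N (by omega)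
  have hlp : ∀ f : L[X], f.degree < r → (∀ i, hgt κ (f.coeff i) ≤ Cs * (2 * H + E)) →
      ∃ c : Place κ L → ℤ, Loc c ((r + 1) * (Cs * (2 * H + E))) ∧ ∀ P, PGe P (-c P) f := by
    intro f hf hfH
    obtain ⟨c, hc, h⟩ := exists_loc_poly f hfH
    refine ⟨c, hc.mono ?_, h⟩
    refine mul_le_mul_of_nonneg_right ?_ (by positivity)
    have := hnd f hf
    push_cast
    have h2 : (f.natDegree : ℤ) ≤ r := by exact_mod_cast (by omega : f.natDegree ≤ r)
    linarith
  obtain ⟨cu, hLu, hcu⟩ := hlp u hud huH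
  obtain ⟨cv, hLv, hcv⟩ := hlp v hvd hvH
  obtain ⟨ca, hLa, hca⟩ := hlp a had haH
  obtain ⟨cb, hLb, hcb⟩ := hlp b hbd hbH
  obtain ⟨c1, hc1⟩ : ∃ c1 : Place κ L → ℤ, ∀ P, c1 P = c P + e P + (cu P + cv P + (ca P + cb P)) :=
    ⟨_, fun _ => rfl⟩
  obtain ⟨B1, hB1⟩ : ∃ B1, B1 = H + E + 4 * ((r + 1) * (Cs * (2 * H + E))) := ⟨_, rfl⟩
  have hL1 : Loc c1 B1 := by
    have h1 := ((hLc.add hLe).add ((hLu.add hLv).add (hLa.add hLb))).mono (B' := B1) (by
      rw [hB1]; linarith)
    have h2 : c1 = fun P => c P + e P + (cu P + cv P + (ca P + cb P)) := funext hc1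
    rw [h2]
    exact h1
  have hB1' : B1 ≤ (1 + E + 4 * ((r + 1) * (Cs * (2 + E)))) * (H + 1) := by
    rw [hB1]
    have h1 : 0 ≤ (r + 1 : ℤ) * Cs := by positivity
    have h2 : (2 * H + E) ≤ (2 + E) * (H + 1) := by nlinarith
    have h3 := mul_le_mul_of_nonneg_left h2 h1
    nlinarith
  have hle : ∀ P, c P ≤ c1 P ∧ e P ≤ c1 P ∧ cu P ≤ c1 P ∧ cv P ≤ c1 P ∧ ca P ≤ c1 P ∧
      cb P ≤ c1 P := by
    intro P
    have h1 := hLc.nonneg P
    have h2 := hLe.nonneg P
    have h3 := hLu.nonneg P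
    have h4 := hLv.nonneg P
    have h5 := hLa.nonneg P
    have h6 := hLb.nonneg P
    have h7 := hc1 P
    refine ⟨?_, ?_, ?_, ?_, ?_, ?_⟩ <;> omega
  have hB10 : 0 ≤ B1 := hL1.B_nonneg
  have hr0 : (0 : ℤ) ≤ r := by positivity
  by_cases hE' : D ζ + b.eval ζ = 0
  · rcases le_or_gt b.natDegree 2 with ht | ht
    · have h1 := riccati hD hr hm hdeg hcop hχD hab ht hE' hne hχH
      refine h1.trans ?_
      have h2 : 0 ≤ (2 * r + 3) * (1 + E + 4 * ((r + 1) * (Cs * (2 + E)))) * (H + 1) := by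
        positivity
      nlinarith
    · -- the degree is large
      have hb0 : b ≠ 0 := by
        rintro rfl
        rw [natDegree_zero] at ht
        omega
      have h1 : hgt κ ζ ≤ B1 := by
        refine hgt_le_of_ord hL1 b.leadingCoeff fun P => ?_
        have hbP : PGe P (-c1 P) b := (hcb P).mono (by have := hle P; omega)
        have hlcP := (hbP b.natDegree).resolve_left (leadingCoeff_ne_zero.2 hb0)
        have hlcP' : -c1 P ≤ P.ord b.leadingCoeff := hlcP
        refine max_le ?_ (by omega)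
        by_contra hcon
        push Not at hcon
        obtain ⟨h2, h3⟩ := dom hb0 hbP (z := ζ) (by omega)
        have hζ0 : ζ ≠ 0 := by
          rintro rfl
          rw [P.ord_zero] at hcon
          omega
        have h4 := hloss P ζ hζ0
        have h5 : D ζ = - b.eval ζ := eq_neg_of_add_eq_zero_left hE'
        rw [h5] at h4
        have h6 := h4.resolve_left (neg_ne_zero.2 h2)
        rw [P.ord_neg, h3] at h6
        have h7 := (hle P).2.1
        have h8 : (3 : ℤ) ≤ b.natDegree := by exact_mod_cast ht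
        have h9 : P.ord ζ < 0 := by omega
        nlinarith
      refine h1.trans (hB1'.trans ?_)
      have h2 : 0 ≤ (1 + E + 4 * ((r + 1) * (Cs * (2 + E)))) * (H + 1) := by positivity
      nlinarith
  · have h1 : hgt κ ζ ≤ (2 * r + 3) * B1 := by
      refine hgt_le_of_ord (hL1.mul (m := 2 * r + 3) (by positivity))
        ((D ζ + b.eval ζ) / χ.eval ζ) fun P => ?_
      have h2 := mason_local (P := P) (c := c1 P) (he0 P) (hle P).2.1 hr (hloss P) (hloss0 P)
        ((hχc P).mono (by have := hle P; omega)) ((hcu P).mono (by have := hle P; omega))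
        ((hcv P).mono (by have := hle P; omega)) ((hca P).mono (by have := hle P; omega))
        ((hcb P).mono (by have := hle P; omega)) ((hnd u hud).trans (by omega))
        ((hnd v hvd).trans (by omega)) ((hnd a had).trans (by omega)) (hnd b hbd) huv hχD hab hm
        hdeg hne (fun h => hint P (by have := hle P; have := hLc.nonneg P; omega)) hE'
      rw [P.ord_div hE' hne]
      have h3 : max (-P.ord ζ) 0 = - min (P.ord ζ) 0 := by
        rw [← max_neg_neg, neg_zero]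
      rw [h3]
      linarith
    refine h1.trans ?_
    have h2 : (2 * r + 3) * B1 ≤ (2 * r + 3) *
        ((1 + E + 4 * ((r + 1) * (Cs * (2 + E)))) * (H + 1)) :=
      mul_le_mul_of_nonneg_left hB1' (by positivity)
    have h3 : 0 ≤ 10 * ((r : ℤ) + 1) * (H + 1) := by positivity
    nlinarith

end Pool.Agent.Y741
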