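import Pool.Agent.Y741.MainV
import Pool.Agent.Y735.Lines

/-!
The lines in a generic complete intersection that meet a generic boundary in at most two points.
-/

set_option autoImplicit false

open MvPolynomial FF Pool.Agent.W603.LV Pool.Agent.W603.PV Pool.Agent.W602.RG Pool.Agent.TH145.GH
open Pool.Agent.TH145.GC (Gen Rt Cf finite_cf)
open Pool.Agent.Y735 (rho eval_rho rho_X pl fht rho_deg Two card_le_adjoin coeff_rho_mem)

namespace Pool.Agent.Y741

section split

variable {Ω : Type} [Field Ω] [IsAlgClosed Ω]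

/-- A polynomial with at most two roots. -/
theorem split_two (t0 t1 : Ω) : ∀ (N : ℕ) (f : Polynomial Ω), f.natDegree = N → f ≠ 0 →
    (∀ a, f.eval a = 0 → a = t0 ∨ a = t1) → ∃ m0 m1 : ℕ, m0 + m1 = N ∧
      f = Polynomial.C f.leadingCoeff * ((Polynomial.X - Polynomial.C t0) ^ m0 *
        (Polynomial.X - Polynomial.C t1) ^ m1) := by
  intro N
  induction N with
  | zero =>
    intro f hf _ _
    refine ⟨0, 0, rfl, ?_⟩
    rw [pow_zero, pow_zero, mul_one, mul_one]
    conv_lhs => rw [Polynomial.eq_C_of_natDegree_eq_zero hf]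
    congr 1
    rw [← Polynomial.coeff_natDegree, hf]
  | succ N ih =>
    intro f hf hf0 h
    obtain ⟨a, ha⟩ := IsAlgClosed.exists_root f (by
      rw [Polynomial.degree_eq_natDegree hf0, hf]
      exact_mod_cast Nat.succ_ne_zero N)
    obtain ⟨g, hg⟩ := Polynomial.dvd_iff_isRoot.2 ha
    have hg0 : g ≠ 0 := by
      rintro rfl
      rw [mul_zero] at hg
      exact hf0 hg
    have hX : (Polynomial.X - Polynomial.C a) ≠ 0 := Polynomial.X_sub_C_ne_zero a
    have hgd : g.natDegree = N := by
      have h1 : f.natDegree = (Polynomial.X - Polynomial.C a).natDegree + g.natDegree := by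
        rw [hg, Polynomial.natDegree_mul hX hg0]
      rw [hf, Polynomial.natDegree_X_sub_C] at h1
      omega
    have hlc : f.leadingCoeff = g.leadingCoeff := by
      rw [hg, Polynomial.leadingCoeff_mul, Polynomial.leadingCoeff_X_sub_C, one_mul]
    obtain ⟨m0, m1, hm, hgm⟩ := ih g hgd hg0 fun b hb => h b (by
      rw [hg, Polynomial.eval_mul, hb, mul_zero])
    rcases h a ha with h1 | h1
    · refine ⟨m0 + 1, m1, by omega, ?_⟩
      rw [hlc]
      conv_lhs => rw [hg, hgm, h1]
      ring
    · refine ⟨m0, m1 + 1, by omega, ?_⟩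
      rw [hlc]
      conv_lhs => rw [hg, hgm, h1]
      ring

end split

section count

variable {k Ω : Type} [Field k] [Field Ω] [Algebra k Ω]

/-- The coefficients of the polynomial are in the field. -/
def LC (L : IntermediateField k Ω) (f : Polynomial Ω) : Prop := ∀ a, f.coeff a ∈ L

variable {L : IntermediateField k Ω} {f g : Polynomial Ω}

theorem LC.mul (hf : LC L f) (hg : LC L g) : LC L (f * g) := fun a => by
  rw [Polynomial.coeff_mul]
  exact sum_mem fun x _ => mul_mem (hf _) (hg _)

theorem LC.C {c : Ω} (hc : c ∈ L) : LC L (Polynomial.C c) := fun a => by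
  rw [Polynomial.coeff_C]
  split_ifs
  · exact hc
  · exact zero_mem _

theorem LC.X : LC L (Polynomial.X) := fun a => by
  rw [Polynomial.coeff_X]
  split_ifs
  · exact one_mem _
  · exact zero_mem _

theorem LC.add (hf : LC L f) (hg : LC L g) : LC L (f + g) := fun a => by
  rw [Polynomial.coeff_add]
  exact add_mem (hf _) (hg _)

theorem LC.pow (hf : LC L f) (m : ℕ) : LC L (f ^ m) := by
  induction m with
  | zero =>
    rw [pow_zero, ← Polynomial.C_1]
    exact LC.C (one_mem _)
  | succ m ih =>
    rw [pow_succ]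
    exact ih.mul hf

/-- The coefficients of the form are determined by the restriction to the line and the other
coefficients. -/
theorem coeff_mem_line' (L : IntermediateField k Ω) {n d : ℕ} {u w : Fin (n + 1) → Ω}
    (hu : ∀ l, u l ∈ L)
    (hw : ∀ l, w l ∈ L) {i j : Fin (n + 1)} (hij : i ≠ j) (hui : u i = 1) (huj : u j = 0)
    (hwi : w i = 0) (hwj : w j = 1) {F : MvPolynomial (Fin (n + 1)) Ω} (hF : F.IsHomogeneous d)
    (h : LC L (rho u w F)) (hL : ∀ I : Fin (n + 1) →₀ ℕ, I.degree = d → ¬ Two i j I →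
      F.coeff I ∈ L) (I0 : Fin (n + 1) →₀ ℕ) (hI0 : I0.degree = d) : F.coeff I0 ∈ L := by
  classical
  by_cases hT : Two i j I0
  swap
  · exact hL I0 hI0 hT
  obtain ⟨G, hG⟩ : ∃ G, G = ∑ I ∈ F.support.filter fun I => ¬ Two i j I,
    monomial I (F.coeff I) := ⟨_, rfl⟩
  obtain ⟨H, hH⟩ : ∃ H, H = ∑ I ∈ F.support.filter fun I => Two i j I,
    monomial I (F.coeff I) := ⟨_, rfl⟩
  have hFGH : F = H + G := by
    rw [hG, hH, Finset.sum_filter_add_sum_filter_not]
    exact F.as_sum
  have hGc : ∀ I, G.coeff I ∈ L := by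
    intro I
    rw [hG, coeff_sum]
    refine sum_mem fun J hJ => ?_
    rw [coeff_monomial]
    split_ifs
    · rw [Finset.mem_filter] at hJ
      exact hL J (deg_of_mem hF hJ.1) hJ.2
    · exact zero_mem _
  have hmon : ∀ I : Fin (n + 1) →₀ ℕ, Two i j I → ∀ c : Ω, rho u w (monomial I c) =
      Polynomial.monomial (I i) c := by
    intro I hI c
    rw [rho, aeval_monomial, Polynomial.algebraMap_eq, Finsupp.prod_fintype _ _
      (fun i => pow_zero _), ← Finset.mul_prod_erase _ _ (Finset.mem_univ i),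
      ← Finset.mul_prod_erase _ _ (Finset.mem_erase.2 ⟨hij.symm, Finset.mem_univ j⟩),
      Finset.prod_eq_one, hui, hwi, huj, hwj]
    · rw [map_one, map_zero, one_mul, add_zero, zero_mul, zero_add, one_pow, mul_one, mul_one,
        Polynomial.C_mul_X_pow_eq_monomial]
    · intro l hl
      rw [Finset.mem_erase, Finset.mem_erase] at hl
      rw [hI l hl.2.1 hl.1, pow_zero]
  have hHc : (rho u w H).coeff (I0 i) = F.coeff I0 := by
    rw [hH, map_sum, Polynomial.finsetSum_coeff]
    have h1 : ∀ I ∈ F.support.filter fun I => Two i j I,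
        (rho u w (monomial I (F.coeff I))).coeff (I0 i) = if I = I0 then F.coeff I0 else 0 := by
      intro I hI
      rw [Finset.mem_filter] at hI
      rw [hmon I hI.2, Polynomial.coeff_monomial]
      by_cases hII : I = I0
      · rw [if_pos (by rw [hII]), if_pos hII, hII]
      · rw [if_neg hII, if_neg]
        intro hi
        apply hII
        have hd1 := deg_of_mem hF hI.1
        rw [← hI0, Finsupp.degree_eq_sum, Finsupp.degree_eq_sum,
          ← Finset.add_sum_erase _ _ (Finset.mem_univ i),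
          ← Finset.add_sum_erase _ _ (Finset.mem_erase.2 ⟨hij.symm, Finset.mem_univ j⟩),
          ← Finset.add_sum_erase _ (fun l => I0 l) (Finset.mem_univ i),
          ← Finset.add_sum_erase _ (fun l => I0 l)
            (Finset.mem_erase.2 ⟨hij.symm, Finset.mem_univ j⟩),
          Finset.sum_eq_zero, Finset.sum_eq_zero] at hd1
        · ext l
          by_cases hl : l = i
          · rw [hl, hi]
          · by_cases hl' : l = j
            · rw [hl']; omega
            · rw [hI.2 l hl hl', hT l hl hl']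
        · intro l hl
          rw [Finset.mem_erase, Finset.mem_erase] at hl
          exact hT l hl.2.1 hl.1
        · intro l hl
          rw [Finset.mem_erase, Finset.mem_erase] at hl
          exact hI.2 l hl.2.1 hl.1
    rw [Finset.sum_congr rfl h1, Finset.sum_ite_eq']
    split_ifs with h2
    · rfl
    · rw [Finset.mem_filter, not_and] at h2
      by_contra hne
      exact h2 (mem_support_iff.2 fun h0 => hne h0.symm) hT
  have h2 : (rho u w H).coeff (I0 i) = (rho u w F).coeff (I0 i) - (rho u w G).coeff (I0 i) := by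
    have h3 : rho u w F = rho u w H + rho u w G := by rw [hFGH, map_add]
    rw [h3, Polynomial.coeff_add]
    ring
  rw [← hHc, h2]
  exact sub_mem (h _) (coeff_rho_mem L hu hw hGc _)

/-- The normal form of a linear factor. -/
theorem normal_form (α β : Ω) : ∃ ε α' β' : Ω, α = ε * α' ∧ β = ε * β' ∧ (α' = 0 ∨ α' = 1) := by
  by_cases hα : α = 0
  · exact ⟨β, 0, 1, by rw [hα, mul_zero], by rw [mul_one], Or.inl rfl⟩
  · exact ⟨α, 1, β / α, by rw [mul_one], by rw [mul_div_cancel₀ _ hα], Or.inr rfl⟩

/-- The dimension of the space of the lines that meet the boundary in at most two points. -/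
theorem line_count' [Infinite Ω] {n : ℕ} {A : Type} [Fintype A] [DecidableEq A] {dg : A → ℕ}
    {F : Fam Ω n A} (hF : ∀ a, (F a).IsHomogeneous (dg a)) {C : Finset A}
    {x y : Fin (n + 1) → Ω} {i j : Fin (n + 1)} (hp : pl x y (i, j) ≠ 0)
    (e : A → Ω) (m0 m1 : A → ℕ) (t0 t1 : Ω)
    (hC : ∀ c ∈ C, ∀ a b : Ω, eval (a • x + b • y) (F c) = 0)
    (hB : ∀ b, b ∉ C → ∀ a a' : Ω, eval (a • x + a' • y) (F b) =
      e b * ((a - t0 * a') ^ m0 b * (a - t1 * a') ^ m1 b))
    {ι : Type} [Finite ι] (v : ι → Fin (n + 1))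
    (hind : AlgebraicIndependent k (Sum.elim (fun l : ι => x (v l))
      fun p : Cf n dg => (F p.1).coeff p.2.1)) :
    Nat.card ι + (∑ a, dg a + C.card) ≤ 2 * n + 2 ∧
      (IsEmpty ι → ∑ a, dg a + C.card ≤ 2 * n) := by
  classical
  have hpp : pl x y (i, j) = x i * y j - x j * y i := rfl
  have hij : i ≠ j := by
    rintro rfl
    rw [hpp, sub_self] at hp
    exact hp rfl
  have hcf := finite_cf n dg
  have : Fintype (Cf n dg) := Fintype.ofFinite _
  obtain ⟨pp, hpp1⟩ : ∃ pp, pp = y j / pl x y (i, j) := ⟨_, rfl⟩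
  obtain ⟨qq, hqq1⟩ : ∃ qq, qq = -(x j) / pl x y (i, j) := ⟨_, rfl⟩
  obtain ⟨rr, hrr1⟩ : ∃ rr, rr = -(y i) / pl x y (i, j) := ⟨_, rfl⟩
  obtain ⟨ss, hss1⟩ : ∃ ss, ss = x i / pl x y (i, j) := ⟨_, rfl⟩
  obtain ⟨u, hu⟩ : ∃ u : Fin (n + 1) → Ω, u = pp • x + qq • y := ⟨_, rfl⟩
  obtain ⟨w, hw⟩ : ∃ w : Fin (n + 1) → Ω, w = rr • x + ss • y := ⟨_, rfl⟩
  have hui : u i = 1 := by
    rw [hu, Pi.add_apply, Pi.smul_apply, Pi.smul_apply, smul_eq_mul, smul_eq_mul, hpp1, hqq1]
    field_simp
    rw [hpp]; ring
  have huj : u j = 0 := by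
    rw [hu, Pi.add_apply, Pi.smul_apply, Pi.smul_apply, smul_eq_mul, smul_eq_mul, hpp1, hqq1]
    field_simp
    ring
  have hwi : w i = 0 := by
    rw [hw, Pi.add_apply, Pi.smul_apply, Pi.smul_apply, smul_eq_mul, smul_eq_mul, hrr1, hss1]
    field_simp
    ring
  have hwj : w j = 1 := by
    rw [hw, Pi.add_apply, Pi.smul_apply, Pi.smul_apply, smul_eq_mul, smul_eq_mul, hrr1, hss1]
    field_simp
    rw [hpp]; ring
  have hxuw : x = x i • u + x j • w := by
    funext l
    rw [hu, hw, hpp1, hqq1, hrr1, hss1]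
    simp only [Pi.add_apply, Pi.smul_apply, smul_eq_mul]
    field_simp
    rw [hpp]; ring
  have hTuw : ∀ T : Ω, T • u + w = (T * pp + rr) • x + (T * qq + ss) • y := by
    intro T
    rw [hu, hw]
    module
  obtain ⟨ε0, α0, β0, hα0, hβ0, h010⟩ := normal_form (pp - t0 * qq) (rr - t0 * ss)
  obtain ⟨ε1, α1, β1, hα1, hβ1, h011⟩ := normal_form (pp - t1 * qq) (rr - t1 * ss)
  obtain ⟨e', he'⟩ : ∃ e' : A → Ω, ∀ b, e' b = e b * (ε0 ^ m0 b * ε1 ^ m1 b) := ⟨_, fun _ => rfl⟩
  have hrhoC : ∀ c ∈ C, rho u w (F c) = 0 := by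
    intro c hc
    apply Polynomial.funext
    intro T
    rw [eval_rho, Polynomial.eval_zero, hTuw]
    exact hC c hc _ _
  have hrhoB : ∀ b, b ∉ C → rho u w (F b) = Polynomial.C (e' b) *
      ((Polynomial.C α0 * Polynomial.X + Polynomial.C β0) ^ m0 b *
        (Polynomial.C α1 * Polynomial.X + Polynomial.C β1) ^ m1 b) := by
    intro b hb
    apply Polynomial.funext
    intro T
    rw [eval_rho, hTuw, hB b hb]
    simp only [Polynomial.eval_mul, Polynomial.eval_pow, Polynomial.eval_add, Polynomial.eval_C,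
      Polynomial.eval_X]
    have h1 : T * pp + rr - t0 * (T * qq + ss) = ε0 * (α0 * T + β0) := by
      linear_combination T * hα0 + hβ0
    have h2 : T * pp + rr - t1 * (T * qq + ss) = ε1 * (α1 * T + β1) := by
      linear_combination T * hα1 + hβ1
    rw [h1, h2, he', mul_pow, mul_pow]
    ring
  -- the generators
  obtain ⟨NT, hNT⟩ : ∃ NT : Finset (Cf n dg), NT = Finset.univ.filter
    fun p : Cf n dg => ¬ Two i j p.2.1 := ⟨_, rfl⟩
  obtain ⟨S0, hS0⟩ : ∃ S0 : Finset Ω, S0 = (((Finset.univ.erase i).erase j).image u ∪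
    ((Finset.univ.erase i).erase j).image w) ∪ (NT.image (fun p => (F p.1).coeff p.2.1) ∪
      (Cᶜ.image e' ∪ {β0, β1})) := ⟨_, rfl⟩
  have hNTc : NT.card + ∑ a, (dg a + 1) ≤ Fintype.card (Cf n dg) := by
    have h1 : ∑ a, (dg a + 1) ≤ (Finset.univ.filter fun p : Cf n dg => Two i j p.2.1).card := by
      obtain ⟨f, hf⟩ : ∃ f : (Σ a : A, Fin (dg a + 1)) → Cf n dg,
          ∀ a, (f a).1 = a.1 ∧ (f a).2.1 = Finsupp.single i (a.2 : ℕ) +
            Finsupp.single j (dg a.1 - a.2) :=
        ⟨fun a => ⟨a.1, Finsupp.single i (a.2 : ℕ) + Finsupp.single j (dg a.1 - a.2), by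
          rw [map_add, Finsupp.degree_single, Finsupp.degree_single]
          have := a.2.2
          omega⟩, fun _ => ⟨rfl, rfl⟩⟩
      have hinj : Function.Injective f := by
        intro a b hab
        have h1 : a.1 = b.1 := by rw [← (hf a).1, ← (hf b).1, hab]
        have h2 : (f a).2.1 i = (f b).2.1 i := by rw [hab]
        rw [(hf a).2, (hf b).2] at h2
        simp only [Finsupp.add_apply, Finsupp.single_eq_same,
          Finsupp.single_eq_of_ne hij, add_zero] at h2
        obtain ⟨a1, a2⟩ := a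
        obtain ⟨b1, b2⟩ := b
        dsimp only at h1 h2
        subst h1
        rw [Fin.ext h2]
      have h2 := Finset.card_le_card (s := Finset.univ.image f) (t := Finset.univ.filter
        fun p : Cf n dg => Two i j p.2.1) (by
          intro I hI
          rw [Finset.mem_image] at hI
          obtain ⟨a, -, rfl⟩ := hI
          rw [Finset.mem_filter]
          refine ⟨Finset.mem_univ _, fun l hli hlj => ?_⟩
          rw [(hf a).2, Finsupp.add_apply, Finsupp.single_eq_of_ne hli,
            Finsupp.single_eq_of_ne hlj, add_zero])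
      rw [Finset.card_image_of_injective _ hinj, Finset.card_univ, Fintype.card_sigma] at h2
      simpa using h2
    have h2 := Finset.card_filter_add_card_filter_not (s := (Finset.univ :
      Finset (Cf n dg))) (fun p => Two i j p.2.1)
    rw [Finset.card_univ] at h2
    rw [hNT]
    omega
  have hcard0 : S0.card + ∑ a, (dg a + 1) ≤ 2 * (n - 1) + 2 + Cᶜ.card +
      Fintype.card (Cf n dg) := by
    have h1 : ((Finset.univ.erase i).erase j).card = n - 1 := by
      rw [Finset.card_erase_of_mem (Finset.mem_erase.2 ⟨hij.symm, Finset.mem_univ j⟩),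
        Finset.card_erase_of_mem (Finset.mem_univ i), Finset.card_univ, Fintype.card_fin]
      omega
    have h3 : S0.card ≤ ((n - 1) + (n - 1)) + (NT.card + (Cᶜ.card + 2)) := by
      rw [hS0]
      refine (Finset.card_union_le _ _).trans (add_le_add ((Finset.card_union_le _ _).trans
        (add_le_add ?_ ?_)) ((Finset.card_union_le _ _).trans (add_le_add Finset.card_image_le
          ((Finset.card_union_le _ _).trans (add_le_add Finset.card_image_le
            Finset.card_le_two)))))
      · exact Finset.card_image_le.trans h1.le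
      · exact Finset.card_image_le.trans h1.le
    omega
  have hmem : ∀ (S : Finset Ω), S0 ⊆ S →
      (∀ l, u l ∈ IntermediateField.adjoin k (S : Set Ω)) ∧
      (∀ l, w l ∈ IntermediateField.adjoin k (S : Set Ω)) ∧
      ∀ p : Cf n dg, (F p.1).coeff p.2.1 ∈ IntermediateField.adjoin k (S : Set Ω) := by
    intro S hS
    have hS' : ∀ s ∈ S0, s ∈ IntermediateField.adjoin k (S : Set Ω) := fun s hs =>
      IntermediateField.subset_adjoin _ _ (hS hs)
    have hul : ∀ l, u l ∈ IntermediateField.adjoin k (S : Set Ω) := by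
      intro l
      by_cases hli : l = i
      · rw [hli, hui]; exact one_mem _
      · by_cases hlj : l = j
        · rw [hlj, huj]; exact zero_mem _
        · apply hS'
          rw [hS0]
          exact Finset.mem_union_left _ (Finset.mem_union_left _ (Finset.mem_image_of_mem _
            (Finset.mem_erase.2 ⟨hlj, Finset.mem_erase.2 ⟨hli, Finset.mem_univ l⟩⟩)))
    have hwl : ∀ l, w l ∈ IntermediateField.adjoin k (S : Set Ω) := by
      intro l
      by_cases hli : l = i
      · rw [hli, hwi]; exact zero_mem _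
      · by_cases hlj : l = j
        · rw [hlj, hwj]; exact one_mem _
        · apply hS'
          rw [hS0]
          exact Finset.mem_union_left _ (Finset.mem_union_right _ (Finset.mem_image_of_mem _
            (Finset.mem_erase.2 ⟨hlj, Finset.mem_erase.2 ⟨hli, Finset.mem_univ l⟩⟩)))
    have hβ0m : β0 ∈ IntermediateField.adjoin k (S : Set Ω) := hS' _ (by rw [hS0]; simp)
    have hβ1m : β1 ∈ IntermediateField.adjoin k (S : Set Ω) := hS' _ (by rw [hS0]; simp)
    have hαm : ∀ α : Ω, (α = 0 ∨ α = 1) → α ∈ IntermediateField.adjoin k (S : Set Ω) := by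
      rintro α (rfl | rfl)
      · exact zero_mem _
      · exact one_mem _
    have he'm : ∀ b, b ∉ C → e' b ∈ IntermediateField.adjoin k (S : Set Ω) := by
      intro b hb
      apply hS'
      rw [hS0]
      exact Finset.mem_union_right _ (Finset.mem_union_right _ (Finset.mem_union_left _
        (Finset.mem_image_of_mem _ (Finset.mem_compl.2 hb))))
    refine ⟨hul, hwl, fun p => ?_⟩
    refine coeff_mem_line' _ hul hwl hij hui huj hwi hwj (hF p.1) ?_ (fun I hI hT => ?_) p.2.1
      p.2.2
    · by_cases hpC : p.1 ∈ C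
      · rw [hrhoC p.1 hpC, ← Polynomial.C_0]
        exact LC.C (zero_mem _)
      · rw [hrhoB p.1 hpC]
        exact (LC.C (he'm _ hpC)).mul ((((LC.C (hαm _ h010)).mul LC.X).add (LC.C hβ0m)).pow _ |>.mul
          ((((LC.C (hαm _ h011)).mul LC.X).add (LC.C hβ1m)).pow _))
    · apply hS'
      rw [hS0]
      refine Finset.mem_union_right _ (Finset.mem_union_left _ (Finset.mem_image.2
        ⟨⟨p.1, ⟨I, hI⟩⟩, ?_, rfl⟩))
      rw [hNT, Finset.mem_filter]
      exact ⟨Finset.mem_univ _, hT⟩
  have hn1 : 1 ≤ n := by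
    by_contra hn0
    apply hij
    apply Fin.ext
    omega
  have hCc : Cᶜ.card + C.card = Fintype.card A := by
    rw [Finset.card_compl]
    have := Finset.card_le_univ C
    omega
  rw [Finset.sum_add_distrib, Finset.sum_const, smul_eq_mul, mul_one, Finset.card_univ] at hcard0
  refine ⟨?_, fun hι => ?_⟩
  · obtain ⟨S, hS⟩ : ∃ S : Finset Ω, S = S0 ∪ {x i, x j} := ⟨_, rfl⟩
    have hSS : S0 ⊆ S := by rw [hS]; exact Finset.subset_union_left
    obtain ⟨h1, h2, h3⟩ := hmem S hSS
    have h4 := card_le_adjoin hind S (by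
      rintro (l | I)
      · change x (v l) ∈ _
        rw [hxuw, Pi.add_apply, Pi.smul_apply, Pi.smul_apply, smul_eq_mul, smul_eq_mul]
        refine add_mem (mul_mem (IntermediateField.subset_adjoin _ _ ?_) (h1 _))
          (mul_mem (IntermediateField.subset_adjoin _ _ ?_) (h2 _))
        · rw [hS]; simp
        · rw [hS]; simp
      · exact h3 I)
    rw [Nat.card_sum, Nat.card_eq_fintype_card (α := Cf n dg)] at h4
    have h5 : S.card ≤ S0.card + 2 := by
      rw [hS]
      exact (Finset.card_union_le _ _).trans (add_le_add_right Finset.card_le_two _)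
    omega
  · obtain ⟨h1, h2, h3⟩ := hmem S0 (Finset.Subset.refl _)
    have h4 := card_le_adjoin hind S0 (by
      rintro (l | I)
      · exact (hι.false l).elim
      · exact h3 I)
    rw [Nat.card_sum, Nat.card_eq_fintype_card (α := Cf n dg)] at h4
    omega

end count

end Pool.Agent.Y741
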