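import Pool.Agent.Y741.Dich
import Pool.Agent.Y735.Integ

/-!
Operators on families of forms and their brackets.
-/

set_option autoImplicit false

open MvPolynomial FF Pool.Agent.W603.LV Pool.Agent.W603.PV Pool.Agent.TH145.GH
open Pool.Agent.Y735 (DD_apply lf lf_apply dt dt_smul dt_sub' dt_smul' dt_single cD coeff_cD cD_hom cD_smul
  cD_X cD_LM LM LM_apply LM_X LM_hom LM_sub LM_add LM_LM dv dv_add dv_sub dv_smul dv_mulVec)

namespace Pool.Agent.Y741

variable {K : Type} [Field K] {n : ℕ} {A : Type}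

/-- Commuting derivations. -/
def Comm (D : A → (Fin (n + 1) →₀ ℕ) → Derivation ℤ K K) : Prop :=
  ∀ a b I J f, D a I (D b J f) = D b J (D a I f)

section comm

variable [Fintype A]

theorem DA_apply' (D : A → (Fin (n + 1) →₀ ℕ) → Derivation ℤ K K) (G : Fam K n A) (f : K)
    {s : Finset (Fin (n + 1) →₀ ℕ)} (hs : ∀ a, (G a).support ⊆ s) :
    DA D G f = ∑ p ∈ (Finset.univ : Finset A) ×ˢ s, (G p.1).coeff p.2 * D p.1 p.2 f := by
  rw [DA_apply, Finset.sum_product]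
  refine Finset.sum_congr rfl fun a _ => ?_
  rw [DD_apply]
  refine Finset.sum_subset (hs a) fun J _ hJ => ?_
  rw [notMem_support_iff.1 hJ, zero_mul]

/-- The commutator. -/
theorem DA_comm {D : A → (Fin (n + 1) →₀ ℕ) → Derivation ℤ K K} (hc : Comm D)
    (G H : Fam K n A) (f : K) :
    DA D G (DA D H f) - DA D H (DA D G f) =
      DA D (fun a => cD (DA D G) (H a) - cD (DA D H) (G a)) f := by
  classical
  obtain ⟨s, hs⟩ : ∃ s, s = Finset.univ.biUnion fun a => (G a).support ∪ (H a).support :=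
    ⟨_, rfl⟩
  have hG : ∀ a, (G a).support ⊆ s := by
    intro a u hu
    rw [hs]
    exact Finset.mem_biUnion.2 ⟨a, Finset.mem_univ a, Finset.mem_union_left _ hu⟩
  have hH : ∀ a, (H a).support ⊆ s := by
    intro a u hu
    rw [hs]
    exact Finset.mem_biUnion.2 ⟨a, Finset.mem_univ a, Finset.mem_union_right _ hu⟩
  have hGH : ∀ a, (cD (DA D G) (H a) - cD (DA D H) (G a)).support ⊆ s := by
    intro a u hu
    by_contra h
    rw [mem_support_iff, coeff_sub, coeff_cD, coeff_cD,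
      notMem_support_iff.1 (fun h1 => h (hG a h1)),
      notMem_support_iff.1 (fun h1 => h (hH a h1)), map_zero, map_zero, sub_zero] at hu
    exact hu rfl
  obtain ⟨t, ht⟩ : ∃ t, t = (Finset.univ : Finset A) ×ˢ s := ⟨_, rfl⟩
  have key : ∀ P Q : Fam K n A, (∀ a, (P a).support ⊆ s) → (∀ a, (Q a).support ⊆ s) →
      DA D P (DA D Q f) = ∑ p ∈ t, (DA D P ((Q p.1).coeff p.2)) * D p.1 p.2 f +
        ∑ p ∈ t, ∑ q ∈ t, (Q p.1).coeff p.2 * ((P q.1).coeff q.2 * D q.1 q.2 (D p.1 p.2 f)) := by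
    intro P Q hP hQ
    rw [DA_apply' D Q f hQ, map_sum, ← ht, ← Finset.sum_add_distrib]
    refine Finset.sum_congr rfl fun p _ => ?_
    rw [(DA D P).leibniz, smul_eq_mul, smul_eq_mul, DA_apply' D P (D p.1 p.2 f) hP, ← ht,
      Finset.mul_sum]
    ring
  rw [key G H hG hH, key H G hH hG, DA_apply' D _ f hGH, ← ht]
  have h1 : ∑ p ∈ t, ∑ q ∈ t, (H p.1).coeff p.2 * ((G q.1).coeff q.2 *
        D q.1 q.2 (D p.1 p.2 f)) =
      ∑ p ∈ t, ∑ q ∈ t, (G p.1).coeff p.2 * ((H q.1).coeff q.2 * D q.1 q.2 (D p.1 p.2 f)) := by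
    rw [Finset.sum_comm]
    refine Finset.sum_congr rfl fun p _ => Finset.sum_congr rfl fun q _ => ?_
    rw [hc p.1 q.1 p.2 q.2 f]
    ring
  rw [h1, add_sub_add_right_eq_sub, ← Finset.sum_sub_distrib]
  refine Finset.sum_congr rfl fun p _ => ?_
  rw [coeff_sub, coeff_cD, coeff_cD]
  ring

theorem vA_dv (D : A → (Fin (n + 1) →₀ ℕ) → Derivation ℤ K K) (x : Fin (n + 1) → K)
    (G : Fam K n A) : vA D x G = dv (DA D G) x := rfl

end comm

/-- The operator on polynomials. -/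
noncomputable def nb (δ : Derivation ℤ K K) (M : Matrix (Fin (n + 1)) (Fin (n + 1)) K)
    (p : MvPolynomial (Fin (n + 1)) K) : MvPolynomial (Fin (n + 1)) K :=
  cD δ p - LM M p

theorem nb_mul (δ : Derivation ℤ K K) (M : Matrix (Fin (n + 1)) (Fin (n + 1)) K)
    (p q : MvPolynomial (Fin (n + 1)) K) : nb δ M (p * q) = nb δ M p * q + p * nb δ M q := by
  unfold nb
  rw [(cD _).leibniz, (LM M).leibniz]
  simp only [smul_eq_mul]
  ring

theorem nb_add (δ : Derivation ℤ K K) (M : Matrix (Fin (n + 1)) (Fin (n + 1)) K)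
    (p q : MvPolynomial (Fin (n + 1)) K) : nb δ M (p + q) = nb δ M p + nb δ M q := by
  unfold nb
  rw [(cD _).map_add, (LM M).map_add]
  ring

theorem nb_zero (δ : Derivation ℤ K K) (M : Matrix (Fin (n + 1)) (Fin (n + 1)) K) :
    nb δ M 0 = 0 := by
  unfold nb
  rw [(cD _).map_zero, (LM M).map_zero, sub_zero]

theorem nb_smul (δ : Derivation ℤ K K) (M : Matrix (Fin (n + 1)) (Fin (n + 1)) K) (c : K)
    (p : MvPolynomial (Fin (n + 1)) K) : nb δ M (c • p) = δ c • p + c • nb δ M p := by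
  unfold nb
  rw [cD_smul, (LM M).map_smul, smul_sub]
  abel

/-- The operator on linear forms. -/
theorem nb_lf (δ : Derivation ℤ K K) (M : Matrix (Fin (n + 1)) (Fin (n + 1)) K)
    (m : Fin (n + 1) → K) : ∃ m' : Fin (n + 1) → K, nb δ M (lf m) = lf m' ∧
      ∀ v, dt m' v = δ (dt m v) - dt m (dv δ v + M.mulVec v) := by
  refine ⟨fun b => δ (m b) - ∑ i, m i * M i b, ?_, fun v => ?_⟩
  · unfold nb
    rw [lf_apply, lf_apply, map_sum, map_sum]
    have h1 : ∀ i, LM M (m i • X i) =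
        ∑ b, (m i * M i b) • (X b : MvPolynomial (Fin (n + 1)) K) := by
      intro i
      rw [(LM M).map_smul, LM_X, Finset.smul_sum]
      exact Finset.sum_congr rfl fun c _ => smul_smul _ _ _
    rw [Finset.sum_congr rfl fun i _ => h1 i, Finset.sum_comm]
    simp only [cD_smul, cD_X, smul_zero, add_zero, sub_smul,
      Finset.sum_sub_distrib, Finset.sum_smul]
  · have h1 : ∀ l, (dv δ v + M.mulVec v) l = δ (v l) + ∑ b, M l b * v b := by
      intro l
      rfl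
    unfold dt
    simp only [h1]
    rw [map_sum, ← Finset.sum_sub_distrib]
    simp only [δ.leibniz, smul_eq_mul, sub_mul, Finset.sum_sub_distrib, mul_add,
      Finset.sum_add_distrib, Finset.mul_sum, Finset.sum_mul]
    rw [Finset.sum_comm (f := fun l i => m i * M i l * v l)]
    have h2 : ∑ l, v l * δ (m l) = ∑ l, δ (m l) * v l :=
      Finset.sum_congr rfl fun l _ => mul_comm _ _
    have h3 : ∑ i, ∑ l, m i * M i l * v l = ∑ i, ∑ l, m i * (M i l * v l) :=
      Finset.sum_congr rfl fun i _ => Finset.sum_congr rfl fun l _ => mul_assoc _ _ _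
    rw [h2, h3]
    ring

/-- The total family of an operator. -/
noncomputable def tot (F G : Fam K n A) (M : Matrix (Fin (n + 1)) (Fin (n + 1)) K) (κ : A → K) :
    Fam K n A := fun a => G a + κ a • F a + LM M (F a)

theorem smul_hom {p : MvPolynomial (Fin (n + 1)) K} {d : ℕ} (hp : p.IsHomogeneous d) (c : K) :
    (c • p).IsHomogeneous d := by
  rw [smul_eq_C_mul]
  have := (isHomogeneous_C (Fin (n + 1)) c).mul hp
  rwa [zero_add] at this

theorem tot_hom {F G : Fam K n A} {dg : A → ℕ} (hpos : ∀ a, 0 < dg a)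
    (hF : ∀ a, (F a).IsHomogeneous (dg a)) (hG : ∀ a, (G a).IsHomogeneous (dg a))
    (M : Matrix (Fin (n + 1)) (Fin (n + 1)) K) (κ : A → K) (a : A) :
    (tot F G M κ a).IsHomogeneous (dg a) :=
  ((hG a).add (smul_hom (hF a) _)).add (LM_hom M (hpos a) (hF a))

section ops

variable [Fintype A]

/-- An operator that preserves the line spanned by `x`, and maps `F` to `G`. -/
def IsOp (F : Fam K n A) (dg : A → ℕ) (D : A → (Fin (n + 1) →₀ ℕ) → Derivation ℤ K K)
    (x : Fin (n + 1) → K) (G : Fam K n A) (M : Matrix (Fin (n + 1)) (Fin (n + 1)) K)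
    (κ : A → K) : Prop :=
  (∀ a, (G a).IsHomogeneous (dg a)) ∧ ∃ c : K, vA D x (tot F G M κ) + M.mulVec x = c • x

/-- The operator on families. -/
noncomputable def nab (F : Fam K n A) (D : A → (Fin (n + 1) →₀ ℕ) → Derivation ℤ K K)
    (G : Fam K n A) (M : Matrix (Fin (n + 1)) (Fin (n + 1)) K) (κ : A → K) (P : Fam K n A) :
    Fam K n A :=
  fun a => nb (DA D (tot F G M κ)) M (P a) - κ a • P a

/-- The operator on vectors. -/
noncomputable def nabv (F : Fam K n A) (D : A → (Fin (n + 1) →₀ ℕ) → Derivation ℤ K K)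
    (G : Fam K n A) (M : Matrix (Fin (n + 1)) (Fin (n + 1)) K) (κ : A → K)
    (v : Fin (n + 1) → K) : Fin (n + 1) → K :=
  vA D v (tot F G M κ) + M.mulVec v

variable [DecidableEq A] {F : Fam K n A} {dg : A → ℕ}
  {D : A → (Fin (n + 1) →₀ ℕ) → Derivation ℤ K K}

/-- The derivation of a form. -/
theorem cD_F (hF : ∀ a, (F a).IsHomogeneous (dg a)) (hD : TH145.GC.Dual F dg D)
    {G : Fam K n A} (hG : ∀ a, (G a).IsHomogeneous (dg a)) (a : A) : cD (DA D G) (F a) = G a := by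
  ext J
  rw [coeff_cD]
  exact DA_coeff hF hD hG a J

/-- The vector of the family `L_M F`. -/
theorem vA_LM (F : Fam K n A) (D : A → (Fin (n + 1) →₀ ℕ) → Derivation ℤ K K)
    (x : Fin (n + 1) → K) (M : Matrix (Fin (n + 1)) (Fin (n + 1)) K) :
    vA D x (fun a => LM M (F a)) + M.mulVec x = ∑ a, ∑ b, M a b • ww F D x (Sum.inl (a, b)) := by
  have h1 : M.mulVec x = ∑ a, ∑ b, M a b • (x b • (Pi.single a 1 : Fin (n + 1) → K)) := by
    funext i
    simp only [Finset.sum_apply, Pi.smul_apply, smul_eq_mul, Pi.single_apply, mul_ite, mul_one,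
      mul_zero]
    rw [Finset.sum_comm]
    simp only [Finset.sum_ite_eq, Finset.mem_univ, if_true]
    rfl
  have h2 : (fun a => LM M (F a)) = ∑ a, ∑ b, M a b • gf F (Sum.inl (a, b)) := by
    funext c
    rw [LM_apply, Finset.sum_apply]
    refine Finset.sum_congr rfl fun a _ => ?_
    rw [Finset.sum_apply]
    rfl
  rw [h1, h2, map_sum, ← Finset.sum_add_distrib]
  refine Finset.sum_congr rfl fun a _ => ?_
  rw [map_sum, ← Finset.sum_add_distrib]
  refine Finset.sum_congr rfl fun b _ => ?_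
  rw [map_smul, ← smul_add, add_comm (vA D x _)]
  rfl

/-- The vector of the family `κ F`. -/
theorem vA_kF (F : Fam K n A) (D : A → (Fin (n + 1) →₀ ℕ) → Derivation ℤ K K)
    (x : Fin (n + 1) → K) (κ : A → K) :
    vA D x (fun a => κ a • F a) = ∑ a, κ a • ww F D x (Sum.inr a) := by
  have h2 : (fun a => κ a • F a) = ∑ a, κ a • gf F (Sum.inr a) := by
    funext b
    rw [Finset.sum_apply, Finset.sum_eq_single b]
    · rw [Pi.smul_apply]
      simp only [gf, Pi.single_eq_same]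
    · intro a _ hab
      rw [Pi.smul_apply]
      simp only [gf]
      rw [Pi.single_eq_of_ne hab.symm, smul_zero]
    · intro h; exact absurd (Finset.mem_univ b) h
  rw [h2, map_sum]
  exact Finset.sum_congr rfl fun a _ => by rw [map_smul]; rfl

theorem vA_LM_mem (F : Fam K n A) (D : A → (Fin (n + 1) →₀ ℕ) → Derivation ℤ K K)
    (x : Fin (n + 1) → K) (M : Matrix (Fin (n + 1)) (Fin (n + 1)) K) :
    vA D x (fun a => LM M (F a)) + M.mulVec x ∈ Wsp F D x := by
  rw [vA_LM]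
  exact sum_mem fun a _ => sum_mem fun b _ => Submodule.smul_mem _ _ (ww_mem_Wsp F D x _)

theorem vA_kF_mem (F : Fam K n A) (D : A → (Fin (n + 1) →₀ ℕ) → Derivation ℤ K K)
    (x : Fin (n + 1) → K) (κ : A → K) : vA D x (fun a => κ a • F a) ∈ Wsp F D x := by
  rw [vA_kF]
  exact sum_mem fun a _ => Submodule.smul_mem _ _ (ww_mem_Wsp F D x _)

/-- The bracket. -/
theorem bracket (hpos : ∀ a, 0 < dg a) (hF : ∀ a, (F a).IsHomogeneous (dg a))
    (hD : TH145.GC.Dual F dg D) (hc : Comm D) {x : Fin (n + 1) → K} {G1 G2 : Fam K n A}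
    {M1 M2 : Matrix (Fin (n + 1)) (Fin (n + 1)) K} {κ1 κ2 : A → K}
    (h1 : IsOp F dg D x G1 M1 κ1) (h2 : IsOp F dg D x G2 M2 κ2) :
    (∀ a, ((nab F D G1 M1 κ1 G2 - nab F D G2 M2 κ2 G1) a).IsHomogeneous (dg a)) ∧
      vA D x (nab F D G1 M1 κ1 G2 - nab F D G2 M2 κ2 G1) ∈ Wsp F D x := by
  obtain ⟨hG1, c1, hc1⟩ := h1
  obtain ⟨hG2, c2, hc2⟩ := h2
  obtain ⟨A1, hA1⟩ : ∃ A, A = tot F G1 M1 κ1 := ⟨_, rfl⟩
  obtain ⟨A2, hA2⟩ : ∃ A, A = tot F G2 M2 κ2 := ⟨_, rfl⟩
  have hA1h : ∀ a, (A1 a).IsHomogeneous (dg a) := by rw [hA1]; exact tot_hom hpos hF hG1 M1 κ1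
  have hA2h : ∀ a, (A2 a).IsHomogeneous (dg a) := by rw [hA2]; exact tot_hom hpos hF hG2 M2 κ2
  rw [← hA1] at hc1
  rw [← hA2] at hc2
  obtain ⟨δ1, hδ1⟩ : ∃ δ, δ = DA D A1 := ⟨_, rfl⟩
  obtain ⟨δ2, hδ2⟩ : ∃ δ, δ = DA D A2 := ⟨_, rfl⟩
  rw [vA_dv, ← hδ1] at hc1
  rw [vA_dv, ← hδ2] at hc2
  have e1 : ∀ a, cD δ1 (F a) = A1 a := fun a => by rw [hδ1]; exact cD_F hF hD hA1h a
  have e2 : ∀ a, cD δ2 (F a) = A2 a := fun a => by rw [hδ2]; exact cD_F hF hD hA2h a
  have hG1A : ∀ a, G1 a = A1 a - κ1 a • F a - LM M1 (F a) := fun a => by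
    rw [hA1, tot]; abel
  have hG2A : ∀ a, G2 a = A2 a - κ2 a • F a - LM M2 (F a) := fun a => by
    rw [hA2, tot]; abel
  have hn1 : nab F D G1 M1 κ1 G2 = fun a => cD δ1 (G2 a) - LM M1 (G2 a) - κ1 a • G2 a := by
    funext a
    rw [nab, nb, ← hA1, ← hδ1]
  have hn2 : nab F D G2 M2 κ2 G1 = fun a => cD δ2 (G1 a) - LM M2 (G1 a) - κ2 a • G1 a := by
    funext a
    rw [nab, nb, ← hA2, ← hδ2]
  rw [hn1, hn2]
  refine ⟨fun a => (((cD_hom δ1 (hG2 a)).sub (LM_hom M1 (hpos a) (hG2 a))).sub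
    (smul_hom (hG2 a) _)).sub (((cD_hom δ2 (hG1 a)).sub (LM_hom M2 (hpos a) (hG1 a))).sub
    (smul_hom (hG1 a) _)), ?_⟩
  obtain ⟨N, hN⟩ : ∃ N : Matrix (Fin (n + 1)) (Fin (n + 1)) K,
    N = M2.map δ1 - M1.map δ2 - (M2 * M1 - M1 * M2) := ⟨_, rfl⟩
  have hH : ((fun a => cD δ1 (G2 a) - LM M1 (G2 a) - κ1 a • G2 a) -
      fun a => cD δ2 (G1 a) - LM M2 (G1 a) - κ2 a • G1 a) =
      (fun a => cD δ1 (A2 a) - cD δ2 (A1 a)) - (fun a => (δ1 (κ2 a) - δ2 (κ1 a)) • F a) -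
        fun a => LM N (F a) := by
    funext a
    simp only [Pi.sub_apply]
    have l1 : LM N (F a) = LM (M2.map δ1) (F a) - LM (M1.map δ2) (F a) -
        (LM M1 (LM M2 (F a)) - LM M2 (LM M1 (F a))) := by
      rw [hN, LM_sub, LM_sub, LM_LM]
    have l2 : cD δ1 (G2 a) = cD δ1 (A2 a) - (δ1 (κ2 a) • F a + κ2 a • A1 a) -
        (LM (M2.map δ1) (F a) + LM M2 (A1 a)) := by
      rw [hG2A, map_sub, map_sub, cD_LM, cD_smul, e1]
    have l3 : cD δ2 (G1 a) = cD δ2 (A1 a) - (δ2 (κ1 a) • F a + κ1 a • A2 a) -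
        (LM (M1.map δ2) (F a) + LM M1 (A2 a)) := by
      rw [hG1A, map_sub, map_sub, cD_LM, cD_smul, e2]
    have l4 : LM M1 (G2 a) = LM M1 (A2 a) - κ2 a • LM M1 (F a) - LM M1 (LM M2 (F a)) := by
      rw [hG2A, map_sub, map_sub, (LM M1).map_smul]
    have l5 : LM M2 (G1 a) = LM M2 (A1 a) - κ1 a • LM M2 (F a) - LM M2 (LM M1 (F a)) := by
      rw [hG1A, map_sub, map_sub, (LM M2).map_smul]
    rw [l1, l2, l3, l4, l5, hG1A, hG2A]
    module
  rw [hH, map_sub, map_sub]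
  have hv : vA D x (fun a => cD δ1 (A2 a) - cD δ2 (A1 a)) =
      dv δ1 (dv δ2 x) - dv δ2 (dv δ1 x) := by
    funext l
    rw [vA_apply, Pi.sub_apply, dv, dv, dv, dv, hδ1, hδ2]
    exact (DA_comm hc A1 A2 (x l)).symm
  have hx1 : dv δ1 x = c1 • x - M1.mulVec x := by rw [← hc1]; abel
  have hx2 : dv δ2 x = c2 • x - M2.mulVec x := by rw [← hc2]; abel
  have hbr : dv δ1 (dv δ2 x) - dv δ2 (dv δ1 x) = (δ1 c2 - δ2 c1) • x - N.mulVec x := by
    rw [hx1, hx2, dv_sub, dv_sub, dv_smul, dv_smul, dv_mulVec, dv_mulVec, hx1, hx2, hN,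
      Matrix.sub_mulVec, Matrix.sub_mulVec, Matrix.sub_mulVec, Matrix.mulVec_sub,
      Matrix.mulVec_sub, Matrix.mulVec_smul, Matrix.mulVec_smul, Matrix.mulVec_mulVec,
      Matrix.mulVec_mulVec, sub_smul, smul_sub, smul_sub, smul_smul, smul_smul, mul_comm c1 c2]
    abel
  rw [hv, hbr]
  have h3 : (δ1 c2 - δ2 c1) • x - N.mulVec x - vA D x (fun a => (δ1 (κ2 a) - δ2 (κ1 a)) • F a) -
      vA D x (fun a => LM N (F a)) =
      (δ1 c2 - δ2 c1) • x - (vA D x (fun a => LM N (F a)) + N.mulVec x) -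
        vA D x (fun a => (δ1 (κ2 a) - δ2 (κ1 a)) • F a) := by abel
  rw [h3]
  exact sub_mem (sub_mem (Submodule.smul_mem _ _ (x_mem_Wsp F D x)) (vA_LM_mem F D x N))
    (vA_kF_mem F D x _)

/-- The operators for the elements of the space. -/
theorem exists_op {x : Fin (n + 1) → K} {G : Fam K n A} (hG : ∀ a, (G a).IsHomogeneous (dg a))
    (h : vA D x G ∈ Wsp F D x) : ∃ M κ, IsOp F dg D x G M κ := by
  unfold Wsp at h
  obtain ⟨u, hu, w, hw, huw⟩ := Submodule.mem_sup.1 h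
  obtain ⟨c, rfl⟩ := Submodule.mem_span_singleton.1 hu
  obtain ⟨f, hf⟩ := (Submodule.mem_span_range_iff_exists_fun K).1 hw
  refine ⟨Matrix.of fun a b => -f (Sum.inl (a, b)), fun a => -f (Sum.inr a), hG, c, ?_⟩
  have h1 : tot F G (Matrix.of fun a b => -f (Sum.inl (a, b))) (fun a => -f (Sum.inr a)) =
      G + (fun a => (-f (Sum.inr a)) • F a) +
        fun a => LM (Matrix.of fun a b => -f (Sum.inl (a, b))) (F a) := rfl
  rw [h1, map_add, map_add, add_assoc, vA_LM, vA_kF, ← huw, ← hf, Fintype.sum_sum_type,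
    Fintype.sum_prod_type]
  simp only [Matrix.of_apply, neg_smul, Finset.sum_neg_distrib]
  abel

omit [DecidableEq A] in
/-- The operators given by matrices. -/
theorem op_matrix (hpos : ∀ a, 0 < dg a) (hF : ∀ a, (F a).IsHomogeneous (dg a))
    {x : Fin (n + 1) → K} {M : Matrix (Fin (n + 1)) (Fin (n + 1)) K} {c : K}
    (h : M.mulVec x = c • x) (κ : A → K) :
    IsOp F dg D x (fun a => -(κ a • F a + LM M (F a))) M κ := by
  refine ⟨fun a => ((smul_hom (hF a) _).add (LM_hom M (hpos a) (hF a))).neg, c, ?_⟩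
  have h1 : tot F (fun a => -(κ a • F a + LM M (F a))) M κ = 0 := by
    funext a
    rw [tot, Pi.zero_apply]
    abel
  rw [h1, map_zero, zero_add, h]

theorem vec_matrix {x : Fin (n + 1) → K} {M : Matrix (Fin (n + 1)) (Fin (n + 1)) K} {c : K}
    (h : M.mulVec x = c • x) (κ : A → K) :
    vA D x (fun a => κ a • F a + LM M (F a)) ∈ Wsp F D x := by
  have h0 : (fun a => κ a • F a + LM M (F a)) = (fun a => κ a • F a) + fun a => LM M (F a) := rfl
  have h1 : vA D x (fun a => κ a • F a + LM M (F a)) = vA D x (fun a => κ a • F a) +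
      (vA D x (fun a => LM M (F a)) + M.mulVec x) - c • x := by rw [h, h0, map_add]; abel
  rw [h1]
  exact sub_mem (add_mem (vA_kF_mem F D x κ) (vA_LM_mem F D x M))
    (Submodule.smul_mem _ _ (x_mem_Wsp F D x))

end ops

end Pool.Agent.Y741
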