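import Pool.Agent.Y741.FinV

/-!
Polynomials in one variable over a function field: local bounds and heights.
-/

set_option autoImplicit false

open Polynomial FF Pool.Agent.W603.LV Pool.Agent.W603.PV

namespace Pool.Agent.Y741

section loc

variable {κ L : Type} [Field κ] [Field L] [Algebra κ L]

/-- The coefficients of the polynomial have order at least `c`. -/
def PGe (P : Place κ L) (c : ℤ) (f : L[X]) : Prop := ∀ i, Ge P c (f.coeff i)

variable {P : Place κ L} {c d m : ℤ} {f g : L[X]}

theorem PGe.mono (h : d ≤ c) (hf : PGe P c f) : PGe P d f := fun i => (hf i).mono h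

theorem PGe.add (hf : PGe P c f) (hg : PGe P c g) : PGe P c (f + g) := fun i => by
  rw [coeff_add]; exact (hf i).add (hg i)

theorem PGe.neg (hf : PGe P c f) : PGe P c (-f) := fun i => by
  rw [coeff_neg]; exact (hf i).neg

theorem PGe.sub (hf : PGe P c f) (hg : PGe P c g) : PGe P c (f - g) := fun i => by
  rw [coeff_sub]; exact (hf i).sub (hg i)

theorem PGe.mul (hf : PGe P c f) (hg : PGe P d g) : PGe P (c + d) (f * g) := fun i => by
  rw [coeff_mul]
  exact Ge.sum _ _ fun p _ => (hf p.1).mul (hg p.2)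

theorem PGe.sum {ι : Type*} (s : Finset ι) (F : ι → L[X]) (h : ∀ i ∈ s, PGe P c (F i)) :
    PGe P c (∑ i ∈ s, F i) := fun i => by
  rw [finsetSum_coeff]
  exact Ge.sum _ _ fun j hj => h j hj i

theorem PGe.C {a : L} (ha : Ge P c a) : PGe P c (C a) := fun i => by
  rw [coeff_C]
  split_ifs
  · exact ha
  · exact Ge.zero

theorem PGe.one : PGe P 0 (1 : L[X]) := by
  rw [← C_1]
  exact PGe.C Ge.one

theorem PGe.X : PGe P 0 (X : L[X]) := fun i => by
  rw [coeff_X]
  split_ifs
  · exact Ge.one
  · exact Ge.zero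

theorem PGe.prod {ι : Type*} (s : Finset ι) (F : ι → L[X]) (n : ι → ℤ)
    (h : ∀ i ∈ s, PGe P (n i) (F i)) : PGe P (∑ i ∈ s, n i) (∏ i ∈ s, F i) := by
  classical
  induction s using Finset.induction_on with
  | empty => simpa using PGe.one (P := P)
  | insert a s ha ih =>
    rw [Finset.prod_insert ha, Finset.sum_insert ha]
    exact (h a (Finset.mem_insert_self a s)).mul (ih fun i hi => h i (Finset.mem_insert_of_mem hi))

theorem PGe.pow (hf : PGe P c f) (n : ℕ) : PGe P (n * c) (f ^ n) := by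
  induction n with
  | zero => simpa using PGe.one (P := P)
  | succ n ih =>
    rw [pow_succ]
    have := ih.mul hf
    convert this using 1
    push_cast; ring

/-- The value of a polynomial. -/
theorem PGe.eval {N : ℕ} {z : L} (hf : PGe P c f) (hN : f.natDegree ≤ N) (hm : m ≤ 0)
    (hz : Ge P m z) : Ge P (c + N * m) (f.eval z) := by
  rw [eval_eq_sum_range' (Nat.lt_succ_of_le hN)]
  refine Ge.sum _ _ fun i hi => ?_
  have h1 : i ≤ N := Nat.lt_succ_iff.1 (Finset.mem_range.1 hi)
  refine ((hf i).mul (hz.pow i)).mono ?_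
  have h2 : (i : ℤ) ≤ N := by exact_mod_cast h1
  nlinarith

/-- The value at a point with a large pole. -/
theorem dom {z : L} (hf0 : f ≠ 0) (hf : PGe P c f)
    (hz : P.ord f.leadingCoeff - c < - P.ord z) :
    f.eval z ≠ 0 ∧ P.ord (f.eval z) = P.ord f.leadingCoeff + f.natDegree * P.ord z := by
  have hl0 : f.leadingCoeff ≠ 0 := leadingCoeff_ne_zero.2 hf0
  have hlc : c ≤ P.ord f.leadingCoeff := (hf f.natDegree).resolve_left hl0
  have hz1 : P.ord z < 0 := by omega
  have hz0 : z ≠ 0 := by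
    rintro rfl
    rw [P.ord_zero] at hz1
    exact lt_irrefl _ hz1
  have h1 : P.ord (f.leadingCoeff * z ^ f.natDegree) =
      P.ord f.leadingCoeff + f.natDegree * P.ord z := by
    rw [P.ord_mul hl0 (pow_ne_zero _ hz0), P.ord_pow]
  have h2 : f.eval z = f.leadingCoeff * z ^ f.natDegree +
      ∑ i ∈ Finset.range f.natDegree, f.coeff i * z ^ i := by
    rw [eval_eq_sum_range, Finset.sum_range_succ, add_comm]
    rfl
  have h3 : Ge P (P.ord f.leadingCoeff + f.natDegree * P.ord z + 1)
      (∑ i ∈ Finset.range f.natDegree, f.coeff i * z ^ i) := by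
    refine Ge.sum _ _ fun i hi => ?_
    have h4 := Finset.mem_range.1 hi
    refine ((hf i).mul (Ge.pow (P := P) (N := P.ord z) (Or.inr le_rfl) i)).mono ?_
    have h5 : (i : ℤ) + 1 ≤ f.natDegree := by exact_mod_cast h4
    nlinarith
  have h4 : f.leadingCoeff * z ^ f.natDegree ≠ 0 := mul_ne_zero hl0 (pow_ne_zero _ hz0)
  have h6 : f.leadingCoeff * z ^ f.natDegree = f.eval z -
      ∑ i ∈ Finset.range f.natDegree, f.coeff i * z ^ i := by
    rw [h2]; ring
  by_cases h5 : f.eval z = 0
  · exfalso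
    rw [h5] at h6
    have h7 : Ge P (P.ord f.leadingCoeff + f.natDegree * P.ord z + 1)
        (f.leadingCoeff * z ^ f.natDegree) := by
      rw [h6]
      exact Ge.zero.sub h3
    have := h7.resolve_left h4
    omega
  · refine ⟨h5, ?_⟩
    apply le_antisymm
    · by_contra hcon
      push Not at hcon
      have h7 : Ge P (P.ord f.leadingCoeff + f.natDegree * P.ord z + 1)
          (f.leadingCoeff * z ^ f.natDegree) := by
        rw [h6]
        exact Ge.sub (Or.inr hcon) h3
      have := h7.resolve_left h4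
      omega
    · have h7 : Ge P (P.ord f.leadingCoeff + f.natDegree * P.ord z) (f.eval z) := by
        rw [h2]
        exact Ge.add (Or.inr h1.ge) (h3.mono (by omega))
      exact h7.resolve_left h5

theorem exists_lead (hf0 : f ≠ 0) : ∃ (i : ℕ), f.coeff i ≠ 0 ∧ PGe P (P.ord (f.coeff i)) f ∧
    ∀ j, i < j → Ge P (P.ord (f.coeff i) + 1) (f.coeff j) := by
  classical
  obtain ⟨i0, hi0, hmin⟩ := Finset.exists_min_image f.support (fun i => P.ord (f.coeff i))
    (support_nonempty.2 hf0)
  obtain ⟨s, hs⟩ : ∃ s, s = f.support.filter fun i => P.ord (f.coeff i) = P.ord (f.coeff i0) :=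
    ⟨_, rfl⟩
  have hne : s.Nonempty := ⟨i0, by rw [hs, Finset.mem_filter]; exact ⟨hi0, rfl⟩⟩
  have hm := Finset.max'_mem s hne
  obtain ⟨i, hi⟩ : ∃ i, i = s.max' hne := ⟨_, rfl⟩
  rw [← hi, hs, Finset.mem_filter] at hm
  refine ⟨i, mem_support_iff.1 hm.1, fun j => ?_, fun j hij => ?_⟩
  · by_cases hj : f.coeff j = 0
    · exact Or.inl hj
    · right
      rw [hm.2]
      exact hmin j (mem_support_iff.2 hj)
  · by_cases hj : f.coeff j = 0
    · exact Or.inl hj
    · right
      rw [hm.2]
      have h1 := hmin j (mem_support_iff.2 hj)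
      rcases lt_or_eq_of_le h1 with h2 | h2
      · omega
      · exfalso
        have h3 : j ∈ s := by
          rw [hs, Finset.mem_filter]
          exact ⟨mem_support_iff.2 hj, h2.symm⟩
        have := s.le_max' j h3
        omega

/-- The lemma of Gauss. -/
theorem PGe.of_mul (hf : f.Monic) (hg : g.Monic) (h : PGe P c (f * g)) : PGe P c f := by
  classical
  obtain ⟨i, hi0, hi1, hi2⟩ := exists_lead (P := P) hf.ne_zero
  obtain ⟨j, hj0, hj1, hj2⟩ := exists_lead (P := P) hg.ne_zero
  have ha : P.ord (f.coeff i) ≤ 0 := by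
    have := hi1 f.natDegree
    rw [coeff_natDegree, hf.leadingCoeff] at this
    have := this.resolve_left one_ne_zero
    rwa [P.ord_one] at this
  have hb : P.ord (g.coeff j) ≤ 0 := by
    have := hj1 g.natDegree
    rw [coeff_natDegree, hg.leadingCoeff] at this
    have := this.resolve_left one_ne_zero
    rwa [P.ord_one] at this
  have h1 := h (i + j)
  have hij : (i, j) ∈ Finset.HasAntidiagonal.antidiagonal (i + j) :=
    Finset.HasAntidiagonal.mem_antidiagonal.2 rfl
  rw [coeff_mul, ← Finset.add_sum_erase _ _ hij] at h1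
  have h2 : Ge P (P.ord (f.coeff i) + P.ord (g.coeff j) + 1)
      (∑ x ∈ (Finset.HasAntidiagonal.antidiagonal (i + j)).erase (i, j),
        f.coeff x.1 * g.coeff x.2) := by
    refine Ge.sum _ _ fun x hx => ?_
    rw [Finset.mem_erase, Finset.HasAntidiagonal.mem_antidiagonal] at hx
    have h3 : i < x.1 ∨ j < x.2 := by
      by_contra hcon
      push Not at hcon
      apply hx.1
      ext <;> simp <;> omega
    rcases h3 with h3 | h3
    · exact ((hi2 _ h3).mul (hj1 _)).mono (by omega)
    · exact ((hi1 _).mul (hj2 _ h3)).mono (by omega)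
  have h3 : c ≤ P.ord (f.coeff i) + P.ord (g.coeff j) := by
    by_contra hcon
    push Not at hcon
    have h4 := (h1.mono (by omega :
      P.ord (f.coeff i) + P.ord (g.coeff j) + 1 ≤ c)).sub h2
    rw [add_sub_cancel_right] at h4
    have h5 := h4.resolve_left (mul_ne_zero hi0 hj0)
    rw [P.ord_mul hi0 hj0] at h5
    omega
  exact hi1.mono (by omega)

end loc

section heights

variable {κ L : Type} [Field κ] [Field L] [Algebra κ L]

/-- A system of local bounds. -/
structure Loc (c : Place κ L → ℤ) (B : ℤ) : Prop where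
  nonneg : ∀ P, 0 ≤ c P
  fin : {P | c P ≠ 0}.Finite
  le : ∑ᶠ P, c P ≤ B

variable {c c' : Place κ L → ℤ} {B B' : ℤ}

theorem Loc.zero : Loc (fun _ : Place κ L => 0) 0 :=
  ⟨fun _ => le_rfl, by simp, by simp⟩

theorem Loc.mono (h : Loc c B) (hB : B ≤ B') : Loc c B' := ⟨h.nonneg, h.fin, h.le.trans hB⟩

theorem Loc.add (h : Loc c B) (h' : Loc c' B') : Loc (fun P => c P + c' P) (B + B') := by
  refine ⟨fun P => add_nonneg (h.nonneg P) (h'.nonneg P), ?_, ?_⟩
  · refine (h.fin.union h'.fin).subset fun P hP => ?_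
    by_contra hcon
    rw [Set.mem_union, not_or] at hcon
    apply hP
    have h1 : ¬ (c P ≠ 0) := hcon.1
    have h2 : ¬ (c' P ≠ 0) := hcon.2
    push Not at h1 h2
    rw [h1, h2]; rfl
  · rw [finsum_add_distrib h.fin h'.fin]
    exact add_le_add h.le h'.le

theorem Loc.mul (h : Loc c B) {m : ℤ} (hm : 0 ≤ m) : Loc (fun P => m * c P) (m * B) := by
  refine ⟨fun P => mul_nonneg hm (h.nonneg P), ?_, ?_⟩
  · refine h.fin.subset fun P hP h0 => hP ?_
    rw [h0, mul_zero]
  · rw [← mul_finsum]
    exact mul_le_mul_of_nonneg_left h.le hm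

theorem Loc.sum {ι : Type*} (s : Finset ι) {c : ι → Place κ L → ℤ} {B : ι → ℤ}
    (h : ∀ i ∈ s, Loc (c i) (B i)) : Loc (fun P => ∑ i ∈ s, c i P) (∑ i ∈ s, B i) := by
  classical
  induction s using Finset.induction_on with
  | empty => simpa using Loc.zero (κ := κ) (L := L)
  | insert a s ha ih =>
    simp only [Finset.sum_insert ha]
    exact (h a (Finset.mem_insert_self a s)).add (ih fun i hi => h i (Finset.mem_insert_of_mem hi))

theorem Loc.B_nonneg (h : Loc c B) : 0 ≤ B :=
  (finsum_nonneg h.nonneg).trans h.le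

variable [CharZero κ] [IsFF κ L]

theorem loc_hgt (f : L) : Loc (κ := κ) (fun P => max (-P.ord f) 0) (hgt κ f) := by
  refine ⟨fun P => le_max_right _ _, ?_, le_rfl⟩
  classical
  obtain ⟨T, hT⟩ := exists_supp (k := κ) (Finset.univ : Finset (Fin 1)) ![f]
  refine T.finite_toSet.subset fun P hP => ?_
  refine hT 0 (Finset.mem_univ _) P fun h0 => hP ?_
  have h0' : P.ord f = 0 := h0
  rw [h0']; rfl

omit [CharZero κ] [IsFF κ L] in
theorem ge_hgt (f : L) (P : Place κ L) : Ge P (-max (-P.ord f) 0) f := by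
  right
  have := le_max_left (-P.ord f) 0
  omega

/-- Local bounds of a finite family. -/
theorem exists_loc {ι : Type*} (s : Finset ι) (w : ι → L) {H : ℤ}
    (hw : ∀ i ∈ s, hgt κ (w i) ≤ H) :
    ∃ c : Place κ L → ℤ, Loc c (s.card * H) ∧ ∀ P, ∀ i ∈ s, Ge P (-c P) (w i) := by
  refine ⟨_, (Loc.sum s fun i _ => loc_hgt (κ := κ) (w i)).mono ?_, fun P i hi => ?_⟩
  · rw [← nsmul_eq_mul]
    exact Finset.sum_le_card_nsmul _ _ _ hw
  · refine (ge_hgt (w i) P).mono ?_
    rw [neg_le_neg_iff]
    exact Finset.single_le_sum (f := fun i => max (-P.ord (w i)) 0)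
      (fun _ _ => le_max_right _ _) hi

/-- Local bounds of the coefficients of a polynomial. -/
theorem exists_loc_poly (f : L[X]) {H : ℤ} (hf : ∀ i, hgt κ (f.coeff i) ≤ H) :
    ∃ c : Place κ L → ℤ, Loc c ((f.natDegree + 1 : ℕ) * H) ∧ ∀ P, PGe P (-c P) f := by
  obtain ⟨c, hc, h⟩ := exists_loc (κ := κ) (Finset.range (f.natDegree + 1)) f.coeff
    (fun i _ => hf i)
  rw [Finset.card_range] at hc
  refine ⟨c, hc, fun P i => ?_⟩
  by_cases hi : i < f.natDegree + 1
  · exact h P i (Finset.mem_range.2 hi)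
  · rw [coeff_eq_zero_of_natDegree_lt (by omega)]
    exact Ge.zero

theorem hgt_le_of_loc (h : Loc c B) {f : L} (hf : ∀ P, Ge P (-c P) f) : hgt κ f ≤ B := by
  refine le_trans ?_ h.le
  refine finsum_le_finsum' (loc_hgt (κ := κ) f).fin h.fin fun P => ?_
  refine max_le ?_ (h.nonneg P)
  rcases hf P with h1 | h1
  · rw [h1, P.ord_zero]
    simpa using h.nonneg P
  · exact neg_le.1 h1

omit [CharZero κ] [IsFF κ L] in
theorem hgt_natCast (n : ℕ) : hgt κ (n : L) = 0 := by
  have := Pool.Agent.TH145.MG.hgt_const (k := κ) (L := L) (n : κ)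
  rwa [map_natCast] at this

end heights

end Pool.Agent.Y741
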