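import Pool.Agent.Y741.Mason

/-!
The boundary on a line: the leading coefficient and local bounds.
-/

set_option autoImplicit false

open MvPolynomial FF Pool.Agent.W603.LV Pool.Agent.W603.PV Pool.Agent.W602.RG Pool.Agent.TH145.GH
open Pool.Agent.Y735 (rho eval_rho rho_X pl fht po po_le po_finite fht_nonneg rho_deg exists_po)

namespace Pool.Agent.Y741

section coeff

variable {L : Type} [Field L] {n : ℕ}

theorem coeff_prod {ι : Type*} (s : Finset ι) (f : ι → Polynomial L) (m : ι → ℕ)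
    (h : ∀ i ∈ s, (f i).natDegree ≤ m i) :
    (∏ i ∈ s, f i).coeff (∑ i ∈ s, m i) = ∏ i ∈ s, (f i).coeff (m i) ∧
      (∏ i ∈ s, f i).natDegree ≤ ∑ i ∈ s, m i := by
  classical
  induction s using Finset.induction_on with
  | empty => simp
  | insert a s ha ih =>
    obtain ⟨ih1, ih2⟩ := ih fun i hi => h i (Finset.mem_insert_of_mem hi)
    have h1 := h a (Finset.mem_insert_self a s)
    rw [Finset.prod_insert ha, Finset.sum_insert ha, Finset.prod_insert ha]
    refine ⟨?_, Polynomial.natDegree_mul_le.trans (add_le_add h1 ih2)⟩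
    rw [Polynomial.coeff_mul_add_eq_of_natDegree_le h1 ih2, ih1]

/-- The leading coefficient of a form on a line. -/
theorem rho_top (x y : Fin (n + 1) → L) {d : ℕ} {F : MvPolynomial (Fin (n + 1)) L}
    (hF : F.IsHomogeneous d) : (rho x y F).coeff d = eval x F := by
  classical
  have h1 : rho x y F = ∑ u ∈ F.support, Polynomial.C (F.coeff u) *
      ∏ i, (Polynomial.C (x i) * Polynomial.X + Polynomial.C (y i)) ^ u i := by
    conv_lhs => rw [F.as_sum, map_sum]
    refine Finset.sum_congr rfl fun u _ => ?_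
    rw [rho, aeval_monomial, Finsupp.prod_fintype _ _ (fun i => pow_zero _)]
    rfl
  rw [h1, Polynomial.finsetSum_coeff, eval_eq']
  refine Finset.sum_congr rfl fun u hu => ?_
  rw [Polynomial.coeff_C_mul]
  congr 1
  have h2 : d = ∑ i, u i := by
    rw [← deg_of_mem hF hu, Finsupp.degree_eq_sum]
  have h3 : ∀ i, (Polynomial.C (x i) * Polynomial.X + Polynomial.C (y i)).natDegree ≤ 1 := by
    intro i
    refine Polynomial.natDegree_add_le_of_degree_le ?_ ?_
    · exact (Polynomial.natDegree_C_mul_le _ _).trans Polynomial.natDegree_X_le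
    · rw [Polynomial.natDegree_C]; exact Nat.zero_le _
  rw [h2, (coeff_prod Finset.univ _ (fun i => u i) fun i _ =>
    (Polynomial.natDegree_pow_le_of_le (u i) (h3 i)).trans (by rw [mul_one])).1]
  refine Finset.prod_congr rfl fun i _ => ?_
  have h4 := Polynomial.coeff_pow_of_natDegree_le (m := u i) (h3 i)
  rw [mul_one] at h4
  rw [h4]
  simp

variable {A : Type} [Fintype A] [DecidableEq A]

theorem bdy_deg {F : Fam L n A} {dg : A → ℕ} (hF : ∀ a, (F a).IsHomogeneous (dg a))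
    (C : Finset A) (x y : Fin (n + 1) → L) :
    (bdy F C x y).coeff (∑ b ∈ Cᶜ, dg b) = ∏ b ∈ Cᶜ, eval x (F b) ∧
      (bdy F C x y).natDegree ≤ ∑ b ∈ Cᶜ, dg b := by
  have h := coeff_prod Cᶜ (fun b => rho x y (F b)) dg fun b _ => rho_deg x y (hF b)
  refine ⟨?_, h.2⟩
  unfold bdy
  rw [h.1]
  exact Finset.prod_congr rfl fun b _ => rho_top x y (hF b)

theorem bdy_lc {F : Fam L n A} {dg : A → ℕ} (hF : ∀ a, (F a).IsHomogeneous (dg a))
    {C : Finset A} {x : Fin (n + 1) → L} (y : Fin (n + 1) → L)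
    (hx : ∀ b, b ∉ C → eval x (F b) ≠ 0) :
    (bdy F C x y).natDegree = ∑ b ∈ Cᶜ, dg b ∧
      (bdy F C x y).leadingCoeff = ∏ b ∈ Cᶜ, eval x (F b) ∧ bdy F C x y ≠ 0 := by
  obtain ⟨h1, h2⟩ := bdy_deg hF C x y
  have h3 : ∏ b ∈ Cᶜ, eval x (F b) ≠ 0 :=
    Finset.prod_ne_zero_iff.2 fun b hb => hx b (Finset.mem_compl.1 hb)
  have h4 : (bdy F C x y).natDegree = ∑ b ∈ Cᶜ, dg b := by
    refine le_antisymm h2 (Polynomial.le_natDegree_of_ne_zero ?_)
    rw [h1]
    exact h3
  refine ⟨h4, ?_, fun h0 => h3 ?_⟩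
  · rw [← Polynomial.coeff_natDegree, h4, h1]
  · rw [← h1, h0, Polynomial.coeff_zero]

theorem eval_bdy (F : Fam L n A) (C : Finset A) (x y : Fin (n + 1) → L) (t : L) :
    (bdy F C x y).eval t = ∏ b ∈ Cᶜ, eval (t • x + y) (F b) := by
  unfold bdy
  rw [Polynomial.eval_prod]
  exact Finset.prod_congr rfl fun b _ => eval_rho _ _ _ _

end coeff

section pge

variable {κ L : Type} [Field κ] [Field L] [Algebra κ L] {n : ℕ}

theorem pge_rho {P : Place κ L} {x y : Fin (n + 1) → L} {c g : ℤ} {d : ℕ}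
    {F : MvPolynomial (Fin (n + 1)) L} (hF : F.IsHomogeneous d)
    (hx : ∀ i, Ge P c (x i)) (hy : ∀ i, Ge P c (y i)) (hg : ∀ u, Ge P g (F.coeff u)) :
    PGe P (g + d * c) (rho x y F) := by
  classical
  have h1 : rho x y F = ∑ u ∈ F.support, Polynomial.C (F.coeff u) *
      ∏ i, (Polynomial.C (x i) * Polynomial.X + Polynomial.C (y i)) ^ u i := by
    conv_lhs => rw [F.as_sum, map_sum]
    refine Finset.sum_congr rfl fun u _ => ?_
    rw [rho, aeval_monomial, Finsupp.prod_fintype _ _ (fun i => pow_zero _)]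
    rfl
  rw [h1]
  refine PGe.sum _ _ fun u hu => ?_
  refine (PGe.C (hg u)).mul ?_
  have h2 : (d : ℤ) * c = ∑ i, (u i : ℤ) * c := by
    rw [← Finset.sum_mul, ← deg_of_mem hF hu, Finsupp.degree_eq_sum]
    push_cast
    rfl
  rw [h2]
  refine PGe.prod _ _ _ fun i _ => PGe.pow ?_ _
  refine PGe.add ?_ (PGe.C (hy i))
  have := (PGe.C (hx i)).mul (PGe.X (P := P))
  rwa [add_zero] at this

variable {A : Type} [Fintype A] [DecidableEq A]

theorem pge_bdy {P : Place κ L} {x y : Fin (n + 1) → L} {c g : ℤ} {dg : A → ℕ}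
    {F : Fam L n A} (hF : ∀ a, (F a).IsHomogeneous (dg a)) (C : Finset A)
    (hx : ∀ i, Ge P c (x i)) (hy : ∀ i, Ge P c (y i)) (hg : ∀ b u, Ge P g ((F b).coeff u)) :
    PGe P (Cᶜ.card * g + ((∑ b ∈ Cᶜ, dg b : ℕ) : ℤ) * c) (bdy F C x y) := by
  have h1 : (Cᶜ.card : ℤ) * g + ((∑ b ∈ Cᶜ, dg b : ℕ) : ℤ) * c =
      ∑ b ∈ Cᶜ, (g + dg b * c) := by
    rw [Finset.sum_add_distrib, Finset.sum_const, nsmul_eq_mul, ← Finset.sum_mul]
    push_cast
    rfl
  rw [h1]
  exact PGe.prod _ _ _ fun b _ => pge_rho (hF b) hx hy (hg b)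

end pge

section sqf

variable {L : Type} [Field L] [CharZero L]

open UniqueFactorizationMonoid in
/-- The squarefree part. -/
theorem exists_sqf {f : Polynomial L} (hf : f.Monic) : ∃ (χ γ : Polynomial L) (m : ℕ), χ.Monic ∧
    γ.Monic ∧ IsCoprime χ (Polynomial.derivative χ) ∧ f = χ * γ ∧ f ∣ χ ^ m := by
  classical
  have h0 : radical f ≠ 0 := radical_ne_zero
  obtain ⟨χ, hχ⟩ : ∃ χ, χ = radical f * Polynomial.C (radical f).leadingCoeff⁻¹ := ⟨_, rfl⟩
  have hm : χ.Monic := by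
    rw [hχ]
    exact Polynomial.monic_mul_leadingCoeff_inv h0
  have hu : IsUnit (Polynomial.C (radical f).leadingCoeff⁻¹) :=
    Polynomial.isUnit_C.2 (isUnit_iff_ne_zero.2 (inv_ne_zero (Polynomial.leadingCoeff_ne_zero.2 h0)))
  have hass : Associated (radical f) χ := by
    rw [hχ]
    exact (associated_mul_unit_right _ _ hu)
  obtain ⟨γ, hγ⟩ : χ ∣ f := hass.dvd_iff_dvd_left.1 radical_dvd_self
  obtain ⟨m, hmd⟩ := exists_dvd_radical_self_pow hf.ne_zero
  refine ⟨χ, γ, m, hm, ?_, ?_, hγ, ?_⟩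
  · rw [hγ] at hf
    exact hm.of_mul_monic_left hf
  · have h1 : Squarefree χ := (hass.squarefree_iff).1 squarefree_radical
    exact PerfectField.separable_iff_squarefree.2 h1
  · exact (hass.pow_pow (n := m)).dvd_iff_dvd_right.1 hmd

end sqf

end Pool.Agent.Y741
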