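import Pool.Agent.Y741.Vec
import Pool.Agent.Y741.Alt
import Pool.Agent.Y735.Rows

/-!
The rows of the determinant.
-/

set_option autoImplicit false

open MvPolynomial FF Pool.Agent.W603.LV Pool.Agent.W603.PV Pool.Agent.TH145.GH
open Pool.Agent.Y735 (lf pm tm pl lf_single lf_pm lf_tm eval_lf eval_pm tm_smul sum_tm sum_pm vol
  vol_apply alt_tri lf_hom)

namespace Pool.Agent.Y741

variable {K : Type} [Field K] {n : ℕ} {A : Type}

/-- The indices of the rows: the equations, the point, the linear group and the torus, pairs, the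
forms that vanish on the line, and the forms that do not vanish on the line. -/
abbrev Ri (C W B U T : Type) := C ⊕ Option (W ⊕ (B ⊕ B) ⊕ (U ⊕ T))

/-- The data of the rows. -/
structure RD (K : Type) [Field K] (n : ℕ) (A W B U T : Type) where
  /-- the elements of the linear group and of the torus -/
  wa : W → (Fin (n + 1) × Fin (n + 1)) ⊕ A
  /-- the forms of the pairs -/
  PB : B → Fam K n A
  /-- the first variables of the pairs -/
  jb : B → Fin (n + 1)
  /-- the second variables of the pairs -/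
  lb : B → Fin (n + 1)
  /-- the forms of the third type -/
  PU : U → Fam K n A
  /-- the triples -/
  tu : U → Fin (n + 1) × Fin (n + 1) × Fin (n + 1)
  /-- the forms of the fourth type -/
  PT : T → Fam K n A

variable [DecidableEq A] [Fintype A] {W B U T : Type}

/-- The rows. -/
noncomputable def row (F : Fam K n A) (dg : A → ℕ)
    (D : A → (Fin (n + 1) →₀ ℕ) → Derivation ℤ K K) (C : Finset A) (x y : Fin (n + 1) → K)
    (i0 : Fin (n + 1)) (ik : Fin (n + 1) × Fin (n + 1)) (rd : RD K n A W B U T) :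
    Ri C W B U T → Fin (n + 1) → K
  | Sum.inl c => vA D x (Pi.single c.1 (X i0 ^ dg c.1))
  | Sum.inr none => x
  | Sum.inr (some (Sum.inl a)) => ww F D x (rd.wa a)
  | Sum.inr (some (Sum.inr (Sum.inl (Sum.inl b)))) => vq D x (rd.PB b) (pm x i0 (rd.jb b))
  | Sum.inr (some (Sum.inr (Sum.inl (Sum.inr b)))) => vq D x (rd.PB b) (pm x i0 (rd.lb b))
  | Sum.inr (some (Sum.inr (Sum.inr (Sum.inl u)))) => vq D x (rd.PU u) (tm (pl x y) (rd.tu u))
  | Sum.inr (some (Sum.inr (Sum.inr (Sum.inr t)))) =>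
      vq D x (rd.PT t) ((pl x y ik)⁻¹ • pm x ik.1 ik.2)

/-- The rows at a place. -/
noncomputable def lrow (F : Fam K n A) (dg : A → ℕ)
    (D : A → (Fin (n + 1) →₀ ℕ) → Derivation ℤ K K) (C : Finset A) (x x' : Fin (n + 1) → K)
    (i1 : Fin (n + 1)) (p' : Fin (n + 1) × Fin (n + 1) → K) (i0 : Fin (n + 1))
    (bc : Fin (n + 1) × Fin (n + 1)) (rd : RD K n A W B U T) :
    Ri C W B U T → Fin (n + 1) → K
  | Sum.inl c => vA D x' (Pi.single c.1 (X i1 ^ dg c.1))
  | Sum.inr none => x'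
  | Sum.inr (some (Sum.inl a)) => ww F D x' (rd.wa a)
  | Sum.inr (some (Sum.inr (Sum.inl (Sum.inl b)))) => x i0 • vq D x' (rd.PB b) (pm x' i1 (rd.jb b))
      - x (rd.jb b) • vq D x' (rd.PB b) (pm x' i1 i0)
  | Sum.inr (some (Sum.inr (Sum.inl (Sum.inr b)))) => x i0 • vq D x' (rd.PB b) (pm x' i1 (rd.lb b))
      - x (rd.lb b) • vq D x' (rd.PB b) (pm x' i1 i0)
  | Sum.inr (some (Sum.inr (Sum.inr (Sum.inl u)))) => vq D x' (rd.PU u) (tm p' (rd.tu u))
  | Sum.inr (some (Sum.inr (Sum.inr (Sum.inr t)))) => vq D x' (rd.PT t) (pm x' bc.1 bc.2)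

/-- The factors. -/
def fac (dg : A → ℕ) (C : Finset A) (x0 lam mu : K) : Ri C W B U T → K
  | Sum.inl c => (x0 / lam) ^ dg c.1 * lam
  | Sum.inr none => lam
  | Sum.inr (some (Sum.inl _)) => lam
  | Sum.inr (some (Sum.inr (Sum.inl (Sum.inl _)))) => lam
  | Sum.inr (some (Sum.inr (Sum.inl (Sum.inr _)))) => lam
  | Sum.inr (some (Sum.inr (Sum.inr (Sum.inl _)))) => mu * lam
  | Sum.inr (some (Sum.inr (Sum.inr (Sum.inr _)))) => lam / mu * lam

/-- The order of the rows. -/
def rk {C W B U T : Type} : Ri C W B U T → ℕ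
  | Sum.inl _ => 3
  | Sum.inr none => 0
  | Sum.inr (some (Sum.inl _)) => 1
  | Sum.inr (some (Sum.inr (Sum.inl _))) => 1
  | Sum.inr (some (Sum.inr (Sum.inr (Sum.inl _)))) => 1
  | Sum.inr (some (Sum.inr (Sum.inr (Sum.inr _)))) => 2

theorem pm_scaled {x x' : Fin (n + 1) → K} {lam : K} (hx : x = lam • x') {i1 : Fin (n + 1)}
    (hi1 : x' i1 = 1) (i j : Fin (n + 1)) :
    pm x i j = x i • pm x' i1 j - x j • pm x' i1 i := by
  funext l
  have h1 : x i * x' j = x j * x' i := by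
    rw [hx]
    simp only [Pi.smul_apply, smul_eq_mul]
    ring
  simp only [pm, Pi.sub_apply, Pi.smul_apply, smul_eq_mul, hi1]
  by_cases h2 : l = i1
  · simp only [h2, if_true, mul_sub, mul_ite, mul_one, mul_zero]
    linear_combination h1
  · simp only [if_neg h2, mul_sub, mul_ite, mul_one, mul_zero]
    ring

/-- Replacement of the rows by the rows at the place. -/
theorem row_repl [Fintype W] [Fintype B] [Fintype U] [Fintype T]
    {F : Fam K n A} {dg : A → ℕ} {D : A → (Fin (n + 1) →₀ ℕ) → Derivation ℤ K K}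
    (hF : ∀ a, (F a).IsHomogeneous (dg a)) (hD : TH145.GC.Dual F dg D) {C : Finset A}
    {x y : Fin (n + 1) → K} (hxC : ∀ c ∈ C, eval x (F c) = 0) {i0 : Fin (n + 1)}
    (ik : Fin (n + 1) × Fin (n + 1)) (hik : pl x y ik ≠ 0) (rd : RD K n A W B U T)
    (hT : ∀ t m, ∑ l, m l * x l = 0 → ∑ l, m l * y l = 0 → vq D x (rd.PT t) m ∈
      Submodule.span K (row F dg D C x y i0 ik rd '' {l | rk l < 2}))
    (hTC : TC F C x ≤ Submodule.span K (row F dg D C x y i0 ik rd '' {l | rk l < 3}))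
    {x' : Fin (n + 1) → K} {lam : K} (hlam : lam ≠ 0) (hx : x = lam • x')
    {i1 : Fin (n + 1)} (hi1 : x' i1 = 1)
    {p' : Fin (n + 1) × Fin (n + 1) → K} {mu : K} (hmu : mu ≠ 0) (hp : pl x y = mu • p')
    (bc : Fin (n + 1) × Fin (n + 1)) (hbc : p' bc = 1)
    (f : (Fin (n + 1) → K) [⋀^Ri C W B U T]→ₗ[K] K) :
    f (row F dg D C x y i0 ik rd) = (∏ k : Ri C W B U T, fac dg C (x i0) lam mu k) *
      f (lrow F dg D C x x' i1 p' i0 bc rd) := by
  classical
  obtain ⟨R, hR⟩ : ∃ R, R = row F dg D C x y i0 ik rd := ⟨_, rfl⟩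
  rw [← hR] at hT hTC ⊢
  have hxR : R (Sum.inr none) = x := by rw [hR]; rfl
  have hx1 : x' ∈ Submodule.span K (R '' {l | rk l < 1}) := by
    have h1 : x' = lam⁻¹ • R (Sum.inr none) := by
      rw [hxR, hx, smul_smul, inv_mul_cancel₀ hlam, one_smul]
    rw [h1]
    exact Submodule.smul_mem _ _ (Submodule.subset_span ⟨Sum.inr none, by simp [rk], rfl⟩)
  have hx2 : ∀ m, 1 ≤ m → x' ∈ Submodule.span K (R '' {l | rk l < m}) := by
    intro m hm
    refine Submodule.span_mono ?_ hx1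
    exact Set.image_mono fun l (hl : rk l < 1) => (lt_of_lt_of_le hl hm : rk l < m)
  have hv : ∀ Q m, vq D x Q m - lam • vq D x' Q m = DA D (ql Q m) lam • x' := by
    intro Q m
    rw [hx, vq_scale, add_sub_cancel_left]
  refine alt_tri f R _ _ rk fun k => ?_
  rcases k with c | _ | a | (b | b) | u | t
  · -- the equations
    change R (Sum.inl c) - ((x i0 / lam) ^ dg c.1 * lam) •
      vA D x' (Pi.single c.1 (X i1 ^ dg c.1)) ∈ Submodule.span K (R '' {l | rk l < 3})
    have hxi : x i1 = lam := by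
      rw [hx, Pi.smul_apply, hi1, smul_eq_mul, mul_one]
    obtain ⟨G, hG⟩ : ∃ G : Fam K n A, G = (Pi.single c.1 (X i0 ^ dg c.1) : Fam K n A) -
        (x i0 / lam) ^ dg c.1 • (Pi.single c.1 (X i1 ^ dg c.1) : Fam K n A) := ⟨_, rfl⟩
    have hXh : ∀ i : Fin (n + 1), ∀ a, ((Pi.single c.1 (X i ^ dg c.1) : Fam K n A) a).IsHomogeneous
        (dg a) := fun i a => single_hom (isHomogeneous_X_pow i (dg c.1)) a
    have hGT : vA D x G ∈ TC F C x := by
      refine vA_mem_TC hF hD hxC (fun a => ?_) fun b _ => ?_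
      · rw [hG, Pi.sub_apply, Pi.smul_apply]
        refine (hXh i0 a).sub ?_
        rw [smul_eq_C_mul]
        have := (isHomogeneous_C (Fin (n + 1)) ((x i0 / lam) ^ dg c.1)).mul (hXh i1 a)
        rwa [zero_add] at this
      · rw [hG, Pi.sub_apply, Pi.smul_apply, map_sub, smul_eval]
        by_cases hb : b = c.1
        · subst hb
          rw [Pi.single_eq_same, Pi.single_eq_same, map_pow, map_pow, eval_X, eval_X, hxi,
            div_pow, div_mul_cancel₀ _ (pow_ne_zero _ hlam), sub_self]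
        · rw [Pi.single_eq_of_ne hb, Pi.single_eq_of_ne hb, map_zero, mul_zero, sub_self]
    have h1 : R (Sum.inl c) - ((x i0 / lam) ^ dg c.1 * lam) •
        vA D x' (Pi.single c.1 (X i1 ^ dg c.1)) = vA D x G +
          ((x i0 / lam) ^ dg c.1 * DA D (Pi.single c.1 (X i1 ^ dg c.1)) lam) • x' := by
      have h2 : R (Sum.inl c) = vA D x (Pi.single c.1 (X i0 ^ dg c.1)) := by rw [hR]; rfl
      have h3 : vA D x (Pi.single c.1 (X i1 ^ dg c.1)) =
          lam • vA D x' (Pi.single c.1 (X i1 ^ dg c.1)) +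
            DA D (Pi.single c.1 (X i1 ^ dg c.1)) lam • x' := by
        conv_lhs => rw [hx]
        exact vA_scale D x' lam _
      rw [h2, hG, map_sub, map_smul, h3, smul_add, smul_smul, smul_smul]
      abel
    rw [h1]
    exact add_mem (hTC hGT) (Submodule.smul_mem _ _ (hx2 3 (by norm_num)))
  · change R (Sum.inr none) - lam • x' ∈ _
    rw [hxR, ← hx, sub_self]
    exact zero_mem _
  · have h1 : R (Sum.inr (some (Sum.inl a))) - lam • ww F D x' (rd.wa a) =
        DA D (gf F (rd.wa a)) lam • x' := by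
      rw [hR]
      change ww F D x (rd.wa a) - _ = _
      rw [hx, ww_scale, add_sub_cancel_left]
    change R (Sum.inr (some (Sum.inl a))) - lam • ww F D x' (rd.wa a) ∈ _
    rw [h1]
    exact Submodule.smul_mem _ _ hx1
  · change R (Sum.inr (some (Sum.inr (Sum.inl (Sum.inl b))))) -
      lam • (x i0 • vq D x' (rd.PB b) (pm x' i1 (rd.jb b)) -
        x (rd.jb b) • vq D x' (rd.PB b) (pm x' i1 i0)) ∈ _
    have h1 : R (Sum.inr (some (Sum.inr (Sum.inl (Sum.inl b))))) =
        vq D x (rd.PB b) (pm x i0 (rd.jb b)) := by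
      rw [hR]; rfl
    rw [h1, ← map_smul (vq D x' (rd.PB b)), ← map_smul (vq D x' (rd.PB b)),
      ← map_sub (vq D x' (rd.PB b)), ← pm_scaled hx hi1, hv]
    exact Submodule.smul_mem _ _ hx1
  · change R (Sum.inr (some (Sum.inr (Sum.inl (Sum.inr b))))) -
      lam • (x i0 • vq D x' (rd.PB b) (pm x' i1 (rd.lb b)) -
        x (rd.lb b) • vq D x' (rd.PB b) (pm x' i1 i0)) ∈ _
    have h1 : R (Sum.inr (some (Sum.inr (Sum.inl (Sum.inr b))))) =
        vq D x (rd.PB b) (pm x i0 (rd.lb b)) := by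
      rw [hR]; rfl
    rw [h1, ← map_smul (vq D x' (rd.PB b)), ← map_smul (vq D x' (rd.PB b)),
      ← map_sub (vq D x' (rd.PB b)), ← pm_scaled hx hi1, hv]
    exact Submodule.smul_mem _ _ hx1
  · change R (Sum.inr (some (Sum.inr (Sum.inr (Sum.inl u))))) -
      (mu * lam) • vq D x' (rd.PU u) (tm p' (rd.tu u)) ∈ _
    have h1 : R (Sum.inr (some (Sum.inr (Sum.inr (Sum.inl u))))) =
        mu • vq D x (rd.PU u) (tm p' (rd.tu u)) := by
      rw [hR]
      change vq D x (rd.PU u) (tm (pl x y) (rd.tu u)) = _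
      rw [hp, tm_smul, map_smul]
    rw [h1, mul_smul, ← smul_sub, hv]
    exact Submodule.smul_mem _ _ (Submodule.smul_mem _ _ hx1)
  · change R (Sum.inr (some (Sum.inr (Sum.inr (Sum.inr t))))) -
      (lam / mu * lam) • vq D x' (rd.PT t) (pm x' bc.1 bc.2) ∈ _
    obtain ⟨m, hm⟩ : ∃ m : Fin (n + 1) → K, m = (pl x y ik)⁻¹ • pm x ik.1 ik.2 -
      (lam / mu) • pm x' bc.1 bc.2 := ⟨_, rfl⟩
    have h1 : R (Sum.inr (some (Sum.inr (Sum.inr (Sum.inr t))))) =
        (lam / mu) • vq D x (rd.PT t) (pm x' bc.1 bc.2) + vq D x (rd.PT t) m := by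
      rw [hR]
      change vq D x (rd.PT t) ((pl x y ik)⁻¹ • pm x ik.1 ik.2) = _
      rw [hm, map_sub, map_smul (vq D x (rd.PT t)) (lam / mu)]
      abel
    have h2 : ∀ w : Fin (n + 1) → K, ∑ l, m l * w l =
        (pl x y ik)⁻¹ * (x ik.1 * w ik.2 - x ik.2 * w ik.1) -
          lam / mu * (x' bc.1 * w bc.2 - x' bc.2 * w bc.1) := by
      intro w
      rw [← sum_pm, ← sum_pm, Finset.mul_sum, Finset.mul_sum, ← Finset.sum_sub_distrib]
      refine Finset.sum_congr rfl fun l _ => ?_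
      rw [hm]
      simp only [Pi.sub_apply, Pi.smul_apply, smul_eq_mul]
      ring
    have h3 := hT t m (by
      rw [h2, hx]
      simp only [Pi.smul_apply, smul_eq_mul]
      ring) (by
      rw [h2]
      have h4 : x ik.1 * y ik.2 - x ik.2 * y ik.1 = pl x y ik := rfl
      have h5 : lam * (x' bc.1 * y bc.2 - x' bc.2 * y bc.1) = mu := by
        have h6 := congrFun hp bc
        rw [Pi.smul_apply, hbc, smul_eq_mul, mul_one] at h6
        rw [← h6, pl, hx]
        simp only [Pi.smul_apply, smul_eq_mul]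
        ring
      rw [h4, inv_mul_cancel₀ hik, div_mul_eq_mul_div, h5, div_self hmu, sub_self])
    rw [h1, mul_smul, add_sub_right_comm, ← smul_sub, hv]
    exact add_mem (Submodule.smul_mem _ _ (Submodule.smul_mem _ _ (hx2 2 (by norm_num)))) h3

end Pool.Agent.Y741
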