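import Pool.Agent.Y741.Exc

/-!
Sequences of points, and lines in the ultrapower.
-/

set_option autoImplicit false

open MvPolynomial FF Pool.Agent.W603.LV Pool.Agent.W603.PV Pool.Agent.W602.RG Pool.Agent.TH145.GH
open Pool.Agent.TH145.GC (Gen)
open Pool.Agent.Y735 (rho eval_rho rho_X pl fht rho_deg)

namespace Pool.Agent.Y741

/-- The points lie on finitely many lines. -/
def Few {K : Type} [Field K] {N : ℕ} (S : Set (Fin N → K)) : Prop :=
  ∃ L : Set (Submodule K (Fin N → K)), L.Finite ∧ (∀ W ∈ L, Module.finrank K W ≤ 2) ∧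
    ∀ x ∈ S, ∃ W ∈ L, x ∈ W

theorem finrank_pair {K : Type} [Field K] {N : ℕ} (x y : Fin N → K) :
    Module.finrank K (Submodule.span K {x, y}) ≤ 2 := by
  classical
  have h1 := finrank_span_le_card (R := K) ({x, y} : Set (Fin N → K))
  refine h1.trans ?_
  rw [Set.toFinset_insert, Set.toFinset_singleton]
  exact Finset.card_le_two

/-- A sequence with no three points on a line. -/
theorem exists_seq {K : Type} [Field K] {N : ℕ} {S : Set (Fin N → K)} (hS : ¬ Few S) :
    ∃ x : ℕ → Fin N → K, (∀ m, x m ∈ S) ∧ ∀ a b c, a < c → b < c →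
      x c ∉ Submodule.span K {x a, x b} := by
  classical
  have key : ∀ s : Finset (Fin N → K), ∃ y ∈ S, ∀ a ∈ s, ∀ b ∈ s,
      y ∉ Submodule.span K {a, b} := by
    intro s
    by_contra hcon
    push Not at hcon
    apply hS
    refine ⟨(fun p : (Fin N → K) × (Fin N → K) => Submodule.span K {p.1, p.2}) ''
      ((s ×ˢ s : Finset _) : Set ((Fin N → K) × (Fin N → K))), ?_, ?_, ?_⟩
    · exact (Finset.finite_toSet _).image _
    · rintro _ ⟨p, -, rfl⟩
      exact finrank_pair _ _
    · intro x hx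
      obtain ⟨a, ha, b, hb, h⟩ := hcon x hx
      exact ⟨_, ⟨(a, b), Finset.mem_coe.2 (Finset.mem_product.2 ⟨ha, hb⟩), rfl⟩, h⟩
  obtain ⟨f, hf1, hf2⟩ := exists_seq_of_forall_finset_exists
    (fun p : Finset (Fin N → K) × (Fin N → K) => p.2 ∈ S ∧ ∀ a ∈ p.1, ∀ b ∈ p.1,
      p.2 ∉ Submodule.span K {a, b}) (fun p q => insert p.2 p.1 ⊆ q.1) (by
    intro s _
    obtain ⟨y, hy, h⟩ := key (s.biUnion fun p => insert p.2 p.1)
    exact ⟨(s.biUnion fun p => insert p.2 p.1, y), ⟨hy, h⟩, fun p hp =>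
      Finset.subset_biUnion_of_mem (fun p : Finset (Fin N → K) × (Fin N → K) =>
        insert p.2 p.1) hp⟩)
  refine ⟨fun m => (f m).2, fun m => (hf1 m).1, fun a b c hac hbc => ?_⟩
  exact (hf1 c).2 _ (hf2 a c hac (Finset.mem_insert_self _ _)) _
    (hf2 b c hbc (Finset.mem_insert_self _ _))

/-- No line contains infinitely many of the points. -/
theorem no_line {K : Type} [Field K] {N : ℕ} {x : ℕ → Fin N → K} {l0 : Fin N}
    (hl0 : ∀ m, x m l0 = 1) (hx : ∀ a b c, a < c → b < c → x c ∉ Submodule.span K {x a, x b})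
    {W : Submodule K (Fin N → K)} (hW : Module.finrank K W ≤ 2)
    (h : ∀ᶠ m in (Filter.hyperfilter ℕ : Filter ℕ), x m ∈ W) : False := by
  have hinf : {m | x m ∈ W}.Infinite := fun hfin =>
    (Filter.notMem_hyperfilter_of_finite hfin) h
  obtain ⟨a, ha, -⟩ := hinf.exists_gt 0
  obtain ⟨b, hb, hab⟩ := hinf.exists_gt a
  obtain ⟨c, hc, hbc⟩ := hinf.exists_gt b
  have h1 : LinearIndependent K ![x a, x b] := by
    rw [LinearIndependent.pair_iff]
    intro s t hst
    have h2 := congrFun hst l0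
    simp only [Pi.add_apply, Pi.smul_apply, smul_eq_mul, Pi.zero_apply, hl0, mul_one] at h2
    have ht : t = 0 := by
      by_contra ht
      apply hx a a b hab hab
      have h3 : x b = x a := by
        have h4 : s = -t := by linear_combination h2
        rw [h4, neg_smul, neg_add_eq_zero] at hst
        exact (smul_right_injective _ ht hst).symm
      rw [h3]
      exact Submodule.subset_span (Set.mem_insert _ _)
    refine ⟨?_, ht⟩
    rw [ht, add_zero] at h2
    exact h2
  have h2 : Submodule.span K {x a, x b} = W := by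
    refine Submodule.eq_of_le_of_finrank_le ?_ ?_
    · rw [Submodule.span_le]
      rintro _ (rfl | rfl)
      · exact ha
      · exact hb
    · have h3 := finrank_span_eq_card h1
      rw [Matrix.range_cons, Matrix.range_cons, Matrix.range_empty, Set.union_empty,
        Set.singleton_union, Fintype.card_fin] at h3
      rw [h3]
      exact hW
  apply hx a b c (hab.trans hbc) hbc
  rw [h2]
  exact hc

/-- The eventual behaviour. -/
theorem ev_of_eq {K : Type} [Field K] {u v : ℕ → K} (h : Om.mk u = Om.mk v) :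
    ∀ᶠ m in (Filter.hyperfilter ℕ : Filter ℕ), u m = v m := Om.mk_eq.1 h

theorem Om_sub {K : Type} [Field K] (u v : ℕ → K) : Om.mk u - Om.mk v = Om.mk fun m => u m - v m := by
  rw [← Pool.Agent.TH145.MF.mkHom_apply, ← Pool.Agent.TH145.MF.mkHom_apply,
    ← Pool.Agent.TH145.MF.mkHom_apply, ← map_sub]
  congr 1

theorem pl_mk {K : Type} [Field K] {n : ℕ} (x : ℕ → Fin (n + 1) → K) (y : Fin (n + 1) → ℕ → K)
    (q : Fin (n + 1) × Fin (n + 1)) :
    pl (fun j => Om.mk fun m => x m j) (fun j => Om.mk (y j)) q =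
      Om.mk fun m => pl (x m) (fun j => y j m) q := by
  simp only [pl]
  rw [← Om_sub, Om.mk_mul, Om.mk_mul]

theorem ev_pl {K : Type} [Field K] {n : ℕ} (x : ℕ → Fin (n + 1) → K) (y : Fin (n + 1) → ℕ → K)
    {q : Fin (n + 1) × Fin (n + 1)}
    (h : pl (fun j => Om.mk fun m => x m j) (fun j => Om.mk (y j)) q ≠ 0) :
    ∀ᶠ m in (Filter.hyperfilter ℕ : Filter ℕ), pl (x m) (fun j => y j m) q ≠ 0 := by
  rw [pl_mk] at h
  refine Ultrafilter.eventually_not.2 fun h1 => h ?_
  change _ = Om.mk fun _ => 0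
  rw [Om.mk_eq]
  exact h1

/-- A polynomial identity in the ultrapower. -/
theorem ev_poly {K : Type} [Field K] (P : ℕ → K → Prop)
    (h : ∀ t : ℕ → K, ∀ᶠ m in (Filter.hyperfilter ℕ : Filter ℕ), P m (t m)) :
    ∀ᶠ m in (Filter.hyperfilter ℕ : Filter ℕ), ∀ t, P m t := by
  classical
  obtain ⟨t, ht⟩ : ∃ t : ℕ → K, ∀ m, (∃ s, ¬ P m s) → ¬ P m (t m) := by
    refine ⟨fun m => if h : ∃ s, ¬ P m s then h.choose else 0, fun m hm => ?_⟩
    dsimp only
    rw [dif_pos hm]
    exact hm.choose_spec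
  refine (h t).mono fun m hm => ?_
  by_contra hcon
  push Not at hcon
  exact ht m hcon hm

/-- Lines in the ultrapower. -/
theorem exc_mk {K : Type} [Field K] [Infinite K] {E : Subfield K} {n r : ℕ} {A : Type}
    [Fintype A] [DecidableEq A] (hr : 1 ≤ r) {dg : A → ℕ} {C : Finset A}
    {F : A → MvPolynomial (Fin (n + 1)) E} (hF : ∀ a, (F a).IsHomogeneous (dg a))
    (x : ℕ → Fin (n + 1) → K)
    (hxC : ∀ m, ∀ c ∈ C, eval (x m) (map E.subtype (F c)) = 0)
    {y : Fin (n + 1) → Om K} {ik : Fin (n + 1) × Fin (n + 1)}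
    (hik : pl (fun j => Om.mk fun m => x m j) y ik ≠ 0)
    (h1 : OnL (FOm F) C (fun j => Om.mk fun m => x m j) y)
    (h2 : One (FOm F) dg C (fun j => Om.mk fun m => x m j) y) :
    ∃ m, Exc r (fun a => map E.subtype (F a)) C (x m) := by
  classical
  choose y' hy' using fun j => Om.mk_surj (y j)
  have hyy : y = fun j => Om.mk (y' j) := funext fun j => (hy' j).symm
  subst hyy
  obtain ⟨t0, h2⟩ := h2
  obtain ⟨t1, rfl⟩ := Om.mk_surj t0
  have e1 := ev_pl x y' hik
  have hev : ∀ (t : ℕ → K) (a : A), eval (Om.mk t • (fun j => Om.mk fun m => x m j) +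
      fun j => Om.mk (y' j)) (FOm F a) =
      Om.mk fun m => eval (t m • x m + fun j => y' j m) (map E.subtype (F a)) := by
    intro t a
    have h4 : (Om.mk t • fun j => Om.mk fun m => x m j) + (fun j => Om.mk (y' j)) =
        fun j => Om.mk fun m => (t m • x m + fun j => y' j m) j := by
      funext j
      rw [Pi.add_apply, Pi.smul_apply, smul_eq_mul, Om.mk_mul, Om.mk_add]
      rfl
    rw [h4]
    exact eval_mk (F a) (fun m => t m • x m + fun j => y' j m)
  have e2 : ∀ᶠ m in (Filter.hyperfilter ℕ : Filter ℕ), ∀ c, c ∈ C → ∀ t : K,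
      eval (t • x m + fun j => y' j m) (map E.subtype (F c)) = 0 := by
    rw [Filter.eventually_all]
    intro c
    by_cases hc : c ∈ C
    · refine (ev_poly (fun m (t : K) => eval (t • x m + fun j => y' j m) (map E.subtype (F c)) = 0)
        fun t => ?_).mono fun m hm _ => hm
      have h3 := h1 c hc (Om.mk t) 1
      rw [one_smul, hev] at h3
      exact ev_of_eq (v := fun _ => 0) h3
    · exact Filter.Eventually.of_forall fun m h => absurd h hc
  have e3 : ∀ᶠ m in (Filter.hyperfilter ℕ : Filter ℕ), ∀ b, b ∉ C → ∀ t : K,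
      eval (t • x m + fun j => y' j m) (map E.subtype (F b)) =
        eval (x m) (map E.subtype (F b)) * (t - t1 m) ^ dg b := by
    rw [Filter.eventually_all]
    intro b
    by_cases hb : b ∈ C
    · exact Filter.Eventually.of_forall fun m h => absurd hb h
    · refine (ev_poly (fun m (t : K) => eval (t • x m + fun j => y' j m) (map E.subtype (F b)) =
        eval (x m) (map E.subtype (F b)) * (t - t1 m) ^ dg b) fun t => ?_).mono fun m hm _ => hm
      have h3 := h2 b hb (Om.mk t)
      rw [hev] at h3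
      have h4 : eval (fun j => Om.mk fun m => x m j) (FOm F b) =
          Om.mk fun m => eval (x m) (map E.subtype (F b)) := eval_mk (F b) x
      rw [h4, Om_sub] at h3
      have h5 : (Om.mk fun m => t m - t1 m) ^ dg b = Om.mk fun m => (t m - t1 m) ^ dg b := rfl
      rw [h5, Om.mk_mul] at h3
      exact ev_of_eq h3
  obtain ⟨m, ⟨hm1, hm2⟩, hm3⟩ := ((e1.and e2).and e3).exists
  refine ⟨m, fun j => y' j m, ik, hm1, ?_, pun_of_one (dg := dg) hr ⟨t1 m, hm3⟩⟩
  intro c hc a b
  by_cases hb : b = 0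
  · rw [hb, zero_smul, add_zero, eval_smul_hom ((hF c).map E.subtype), hxC m c hc, mul_zero]
  · have h5 : a • x m + b • (fun j => y' j m) = b • ((a / b) • x m + fun j => y' j m) := by
      rw [smul_add, smul_smul, mul_div_cancel₀ _ hb]
    rw [h5, eval_smul_hom ((hF c).map E.subtype), hm2 c hc, mul_zero]

/-- The points lie on a fixed line. -/
theorem ev_line {K : Type} [Field K] {E : Subfield K} {n : ℕ} (x : ℕ → Fin (n + 1) → K)
    {y : Fin (n + 1) → Om K} {ik : Fin (n + 1) × Fin (n + 1)}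
    (hik : pl (fun j => Om.mk fun m => x m j) y ik ≠ 0)
    (h : ∀ q, pl (fun j => Om.mk fun m => x m j) y q / pl (fun j => Om.mk fun m => x m j) y ik ∈
      acl (cst K '' (E : Set K))) :
    ∃ W : Submodule K (Fin (n + 1) → K), Module.finrank K W ≤ 2 ∧
      ∀ᶠ m in (Filter.hyperfilter ℕ : Filter ℕ), x m ∈ W := by
  classical
  choose y' hy' using fun j => Om.mk_surj (y j)
  have hyy : y = fun j => Om.mk (y' j) := funext fun j => (hy' j).symm
  subst hyy
  have e1 := ev_pl x y' hik
  have h2 : ∀ q, ∃ a : K, ∀ᶠ m in (Filter.hyperfilter ℕ : Filter ℕ),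
      pl (x m) (fun j => y' j m) q / pl (x m) (fun j => y' j m) ik = a := by
    intro q
    have h3 := h q
    rw [pl_mk, pl_mk] at h3
    exact eventually_const (u := fun m => pl (x m) (fun j => y' j m) q /
      pl (x m) (fun j => y' j m) ik) h3
  choose a ha using h2
  have e2 := Filter.eventually_all.2 ha
  refine ⟨Submodule.span K {fun l => a (ik.1, l), fun l => a (ik.2, l)}, finrank_pair _ _, ?_⟩
  refine (e1.and e2).mono fun m hm => ?_
  obtain ⟨hm1, hm2⟩ := hm
  obtain ⟨p, hp⟩ : ∃ p, p = pl (x m) (fun j => y' j m) ik := ⟨_, rfl⟩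
  rw [← hp] at hm1 hm2
  have hm3 : ∀ q, pl (x m) (fun j => y' j m) q = a q * p := fun q => by
    rw [← hm2 q, div_mul_cancel₀ _ hm1]
  have h4 : x m = x m ik.2 • (fun l => a (ik.1, l)) + (-(x m ik.1)) • (fun l => a (ik.2, l)) := by
    funext l
    simp only [Pi.add_apply, Pi.smul_apply, smul_eq_mul]
    have h5 := hm3 (ik.1, l)
    have h6 := hm3 (ik.2, l)
    have h7 : p = x m ik.1 * y' ik.2 m - x m ik.2 * y' ik.1 m := hp
    simp only [pl] at h5 h6
    apply mul_right_cancel₀ hm1
    have h8 : (x m ik.2 * a (ik.1, l) + -(x m ik.1) * a (ik.2, l)) * p =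
        x m ik.2 * (a (ik.1, l) * p) - x m ik.1 * (a (ik.2, l) * p) := by ring
    rw [h8, ← h5, ← h6, h7]
    ring
  rw [h4]
  exact add_mem (Submodule.smul_mem _ _ (Submodule.subset_span (Set.mem_insert _ _)))
    (Submodule.smul_mem _ _ (Submodule.subset_span (Set.mem_insert_of_mem _ rfl)))

end Pool.Agent.Y741
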