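import Pool.Agent.Y741.PolyH
import Pool.Agent.TH145.MW.Cramer

/-!
The relation of Bezout for a polynomial and its derivative, with bounds for the heights.
-/

set_option autoImplicit false

open Polynomial FF Pool.Agent.W603.LV Pool.Agent.W603.PV
open Pool.Agent.TH145.MW (hgt_mul_le hgt_neg)

namespace Pool.Agent.Y741

/-- The coordinates of the vector that spans the kernel of a matrix. -/
theorem cramer' (κ L ι : Type) [Field κ] [Field L] [Algebra κ L] [CharZero κ] [IsFF κ L]
    [IsAlgClosed κ] [Fintype ι] [Nonempty ι] :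
    ∃ C : ℤ, 0 ≤ C ∧ ∀ (ρ : Type) (N : ρ → ι → L) (x : ι → L) (H : ℤ),
      0 ≤ H → (∀ r i, hgt κ (N r i) ≤ H) → (∀ r, ∑ i, N r i * x i = 0) →
      (∀ y : ι → L, (∀ r, ∑ i, N r i * y i = 0) → ∃ c : L, y = c • x) →
      ∀ i l, x i ≠ 0 → hgt κ (x l / x i) ≤ C * H := by
  obtain ⟨n, hn⟩ : ∃ n, Fintype.card ι = n + 1 :=
    ⟨Fintype.card ι - 1, by have := Fintype.card_pos (α := ι); omega⟩
  have e : ι ≃ Fin (n + 1) := Fintype.equivFinOfCardEq hn
  obtain ⟨C, hC0, hC⟩ := Pool.Agent.TH145.MW.cramer κ L n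
  refine ⟨C, hC0, fun ρ N x H hH hN hx hker i l hi => ?_⟩
  have h := hC ρ (fun r j => N r (e.symm j)) (fun j => x (e.symm j)) H hH (fun r j => hN r _)
    (fun r => ?_) (fun y hy => ?_) (e i) (e l) (by rwa [e.symm_apply_apply])
  · rwa [e.symm_apply_apply, e.symm_apply_apply] at h
  · rw [← hx r]
    exact Equiv.sum_comp e.symm fun i => N r i * x i
  · obtain ⟨c, hc⟩ := hker (fun i => y (e i)) fun r => by
      rw [← hy r, dotProduct, ← Equiv.sum_comp e.symm fun i => N r i * y (e i)]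
      exact Finset.sum_congr rfl fun j _ => by rw [e.apply_symm_apply]
    refine ⟨c, funext fun j => ?_⟩
    have := congrFun hc (e.symm j)
    rw [e.apply_symm_apply] at this
    exact this

section pol

variable {L : Type} [Field L]

/-- The polynomial with given coefficients. -/
noncomputable def pol {r : ℕ} (v : Fin r → L) : L[X] := ∑ i : Fin r, C (v i) * X ^ i.1

theorem coeff_pol {r : ℕ} (v : Fin r → L) (k : ℕ) :
    (pol v).coeff k = if h : k < r then v ⟨k, h⟩ else 0 := by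
  unfold pol
  rw [finsetSum_coeff]
  simp only [coeff_C_mul, coeff_X_pow, mul_ite, mul_one, mul_zero]
  split_ifs with h
  · rw [Finset.sum_eq_single ⟨k, h⟩]
    · rw [if_pos rfl]
    · intro j _ hj
      rw [if_neg fun h1 => hj (Fin.ext h1.symm)]
    · intro h1
      exact absurd (Finset.mem_univ _) h1
  · refine Finset.sum_eq_zero fun j _ => ?_
    rw [if_neg fun h1 : k = j.1 => h (by rw [h1]; exact j.2)]

theorem pol_deg {r : ℕ} (v : Fin r → L) : (pol v).degree < r := by
  rw [degree_lt_iff_coeff_zero]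
  intro m hm
  rw [coeff_pol, dif_neg (by omega)]

theorem pol_of {r : ℕ} {f : L[X]} (hf : f.degree < r) : pol (fun i : Fin r => f.coeff i) = f := by
  ext k
  rw [coeff_pol]
  split_ifs with h
  · rfl
  · exact ((degree_lt_iff_coeff_zero _ _).1 hf k (not_lt.1 h)).symm

theorem pol_mul_coeff {r : ℕ} (v : Fin r → L) (f : L[X]) (k : ℕ) :
    (pol v * f).coeff k = ∑ i : Fin r, (X ^ i.1 * f).coeff k * v i := by
  unfold pol
  rw [Finset.sum_mul, finsetSum_coeff]
  refine Finset.sum_congr rfl fun i _ => ?_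
  rw [mul_assoc, coeff_C_mul, mul_comm]

theorem degree_C_mul_le' (a : L) (f : L[X]) : (Polynomial.C a * f).degree ≤ f.degree := by
  by_cases ha : a = 0
  · rw [ha, C_0, zero_mul, degree_zero]
    exact bot_le
  · rw [degree_C_mul ha]

theorem bezout {r : ℕ} {χ w : L[X]} (hr : χ.degree = r) (hcop : IsCoprime χ (derivative χ))
    (hw : w.degree < (2 * r : ℕ)) (hr1 : 1 ≤ r) :
    ∃ a b : L[X], a * χ + b * derivative χ = w ∧ a.degree < r ∧ b.degree < r := by
  have h0 : χ ≠ 0 := by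
    rintro rfl
    rw [degree_zero] at hr
    exact absurd hr (by simp)
  obtain ⟨u, v, huv⟩ := hcop
  have hb : (w * v % χ).degree < r := by
    rw [← hr]
    exact EuclideanDomain.mod_lt _ h0
  have hab : (w * u + (w * v / χ) * derivative χ) * χ + (w * v % χ) * derivative χ = w := by
    have h1 := EuclideanDomain.div_add_mod (w * v) χ
    linear_combination w * huv + derivative χ * h1
  refine ⟨w * u + (w * v / χ) * derivative χ, w * v % χ, hab, ?_, hb⟩
  obtain ⟨a, ha⟩ : ∃ a, a = w * u + (w * v / χ) * derivative χ := ⟨_, rfl⟩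
  obtain ⟨b, hb'⟩ : ∃ b, b = w * v % χ := ⟨_, rfl⟩
  rw [← ha, ← hb'] at hab
  rw [← ha]
  rw [← hb'] at hb
  by_contra hcon
  push Not at hcon
  have h1 : (a * χ).degree < (2 * r : ℕ) := by
    have h2 : a * χ = w - b * derivative χ := by rw [← hab]; ring
    rw [h2]
    refine (degree_sub_le _ _).trans_lt (max_lt hw ?_)
    rw [degree_mul]
    have h3 : (derivative χ).degree ≤ r := hr ▸ degree_derivative_le
    have h4 : ((2 * r : ℕ) : WithBot ℕ) = (r : WithBot ℕ) + r := by
      rw [two_mul]; rfl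
    rw [h4]
    by_cases hb0 : b.degree = ⊥
    · rw [hb0, WithBot.bot_add]
      exact WithBot.bot_lt_coe _
    by_cases hd0 : (derivative χ).degree = ⊥
    · rw [hd0, WithBot.add_bot]
      exact WithBot.bot_lt_coe _
    obtain ⟨bn, hbn⟩ := WithBot.ne_bot_iff_exists.1 hb0
    obtain ⟨dn, hdn⟩ := WithBot.ne_bot_iff_exists.1 hd0
    rw [← hbn, Nat.cast_withBot] at hb
    rw [← hdn, Nat.cast_withBot] at h3
    rw [← hbn, ← hdn, Nat.cast_withBot, ← WithBot.coe_add, ← WithBot.coe_add, WithBot.coe_lt_coe]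
    have h5 : bn < r := WithBot.coe_lt_coe.1 hb
    have h6 : dn ≤ r := WithBot.coe_le_coe.1 h3
    omega
  rw [degree_mul, hr] at h1
  have h4 : ((2 * r : ℕ) : WithBot ℕ) = (r : WithBot ℕ) + r := by
    rw [two_mul]; rfl
  rw [h4] at h1
  have h5 : (r : WithBot ℕ) + r ≤ a.degree + r := by gcongr
  exact absurd h1 (not_lt.2 h5)

theorem bezout_unique {r : ℕ} {χ A B : L[X]} (hr : χ.degree = r)
    (hcop : IsCoprime χ (derivative χ)) (hB : B.degree < r)
    (h : A * χ + B * derivative χ = 0) : A = 0 ∧ B = 0 := by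
  have h0 : χ ≠ 0 := by
    rintro rfl
    rw [degree_zero] at hr
    exact absurd hr (by simp)
  have h1 : χ ∣ B * derivative χ := ⟨-A, by linear_combination h⟩
  have h2 : B = 0 := eq_zero_of_dvd_of_degree_lt (hcop.dvd_of_dvd_mul_right h1) (by rw [hr]; exact hB)
  rw [h2, zero_mul, add_zero] at h
  exact ⟨(mul_eq_zero.1 h).resolve_right h0, h2⟩

end pol

theorem hgt_deriv_coeff {κ L : Type} [Field κ] [Field L] [Algebra κ L] [CharZero κ] [IsFF κ L]
    {f : L[X]} {H : ℤ} (hf : ∀ i, hgt κ (f.coeff i) ≤ H) (i : ℕ) :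
    hgt κ ((derivative f).coeff i) ≤ H := by
  rw [coeff_derivative]
  refine (hgt_mul_le _ _).trans ?_
  have h1 : hgt κ ((i : L) + 1) = 0 := by
    have := hgt_natCast (κ := κ) (L := L) (i + 1)
    push_cast at this
    exact this
  rw [h1, add_zero]
  exact hf _

theorem hgt_X_pow_mul {κ L : Type} [Field κ] [Field L] [Algebra κ L] [CharZero κ] [IsFF κ L]
    {f : L[X]} {H : ℤ} (hH : 0 ≤ H) (hf : ∀ i, hgt κ (f.coeff i) ≤ H) (i k : ℕ) :
    hgt κ ((X ^ i * f).coeff k) ≤ H := by
  rw [coeff_X_pow_mul']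
  split_ifs
  · exact hf _
  · rw [hgt_zero]
    exact hH

/-- The relation of Bezout. -/
theorem solve (κ L : Type) [Field κ] [Field L] [Algebra κ L] [CharZero κ] [IsFF κ L]
    [IsAlgClosed κ] (r : ℕ) (hr1 : 1 ≤ r) :
    ∃ C : ℤ, 0 ≤ C ∧ ∀ (χ w : L[X]) (H : ℤ), 0 ≤ H → χ.degree = r →
      IsCoprime χ (derivative χ) → w.degree < (2 * r : ℕ) → (∀ i, hgt κ (χ.coeff i) ≤ H) →
      (∀ i, hgt κ (w.coeff i) ≤ H) →
      ∃ a b : L[X], a * χ + b * derivative χ = w ∧ a.degree < r ∧ b.degree < r ∧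
        (∀ i, hgt κ (a.coeff i) ≤ C * H) ∧ ∀ i, hgt κ (b.coeff i) ≤ C * H := by
  classical
  obtain ⟨C, hC0, hC⟩ := cramer' κ L (Option (Fin r ⊕ Fin r))
  refine ⟨C, hC0, fun χ w H hH hr hcop hw hχH hwH => ?_⟩
  obtain ⟨a, b, hab, ha, hb⟩ := bezout hr hcop hw hr1
  obtain ⟨N, hN⟩ : ∃ N : ℕ → Option (Fin r ⊕ Fin r) → L, ∀ k, N k none = - w.coeff k ∧
      (∀ i, N k (some (Sum.inl i)) = (X ^ i.1 * χ).coeff k) ∧
      ∀ i, N k (some (Sum.inr i)) = (X ^ i.1 * derivative χ).coeff k :=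
    ⟨fun k o => Option.elim o (- w.coeff k) fun s => Sum.elim
      (fun i : Fin r => (X ^ i.1 * χ).coeff k)
      (fun i : Fin r => (X ^ i.1 * derivative χ).coeff k) s,
      fun k => ⟨rfl, fun _ => rfl, fun _ => rfl⟩⟩
  have hsum : ∀ (y : Option (Fin r ⊕ Fin r) → L) k, ∑ i, N k i * y i =
      (pol (fun i => y (some (Sum.inl i))) * χ + pol (fun i => y (some (Sum.inr i))) *
        derivative χ - Polynomial.C (y none) * w).coeff k := by
    intro y k
    rw [Fintype.sum_option, Fintype.sum_sum_type, coeff_sub, coeff_add, pol_mul_coeff,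
      pol_mul_coeff, coeff_C_mul, (hN k).1]
    simp only [(hN k).2.1, (hN k).2.2]
    ring
  obtain ⟨x, hx⟩ : ∃ x : Option (Fin r ⊕ Fin r) → L, x none = 1 ∧
      (∀ i, x (some (Sum.inl i)) = a.coeff i.1) ∧ ∀ i, x (some (Sum.inr i)) = b.coeff i.1 :=
    ⟨fun o => Option.elim o 1 fun s => Sum.elim (fun i : Fin r => a.coeff i.1)
      (fun i : Fin r => b.coeff i.1) s, rfl, fun _ => rfl, fun _ => rfl⟩
  have hxa : pol (fun i => x (some (Sum.inl i))) = a := by
    simp only [hx.2.1]
    exact pol_of ha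
  have hxb : pol (fun i => x (some (Sum.inr i))) = b := by
    simp only [hx.2.2]
    exact pol_of hb
  have hkey := hC ℕ N x H hH (fun k i => ?_) (fun k => ?_) (fun y hy => ?_) none
  · refine ⟨a, b, hab, ha, hb, fun i => ?_, fun i => ?_⟩
    · by_cases hi : i < r
      · have := hkey (some (Sum.inl ⟨i, hi⟩)) (by rw [hx.1]; exact one_ne_zero)
        rwa [hx.1, hx.2.1, div_one] at this
      · rw [(degree_lt_iff_coeff_zero _ _).1 ha i (not_lt.1 hi), hgt_zero]
        positivity
    · by_cases hi : i < r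
      · have := hkey (some (Sum.inr ⟨i, hi⟩)) (by rw [hx.1]; exact one_ne_zero)
        rwa [hx.1, hx.2.2, div_one] at this
      · rw [(degree_lt_iff_coeff_zero _ _).1 hb i (not_lt.1 hi), hgt_zero]
        positivity
  · rcases i with _ | i | i
    · rw [(hN k).1, hgt_neg]
      exact hwH k
    · rw [(hN k).2.1]
      exact hgt_X_pow_mul hH hχH _ _
    · rw [(hN k).2.2]
      exact hgt_X_pow_mul hH (hgt_deriv_coeff hχH) _ _
  · rw [hsum, hxa, hxb, hx.1, C_1, one_mul, hab, sub_self, coeff_zero]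
  · have h1 : pol (fun i => y (some (Sum.inl i))) * χ + pol (fun i => y (some (Sum.inr i))) *
        derivative χ - Polynomial.C (y none) * w = 0 := by
      ext k
      rw [← hsum, hy k, coeff_zero]
    have h2 : (pol (fun i => y (some (Sum.inl i))) - Polynomial.C (y none) * a) * χ +
        (pol (fun i => y (some (Sum.inr i))) - Polynomial.C (y none) * b) * derivative χ = 0 := by
      rw [← hab] at h1
      linear_combination h1
    obtain ⟨h3, h4⟩ := bezout_unique hr hcop ((degree_sub_le _ _).trans_lt (max_lt (pol_deg _)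
      ((degree_C_mul_le' _ _).trans_lt hb))) h2
    refine ⟨y none, funext fun i => ?_⟩
    rw [Pi.smul_apply, smul_eq_mul]
    rcases i with _ | i | i
    · rw [hx.1, mul_one]
    · have h5 := congrArg (fun f => f.coeff i.1) h3
      simp only [coeff_sub, coeff_C_mul, coeff_zero, coeff_pol, i.2, dif_pos] at h5
      rw [hx.2.1]
      exact sub_eq_zero.1 h5
    · have h5 := congrArg (fun f => f.coeff i.1) h4
      simp only [coeff_sub, coeff_C_mul, coeff_zero, coeff_pol, i.2, dif_pos] at h5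
      rw [hx.2.2]
      exact sub_eq_zero.1 h5

end Pool.Agent.Y741
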