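import Pool.Agent.Y741.UPairs
import Pool.Agent.TH145.GE.Duals

/-!
Derivations of the function field of a curve, which preserve the constants and kill a given
function.
-/

set_option autoImplicit false

open MvPolynomial FF Pool.Agent.W603.LV Pool.Agent.W603.PV Pool.Agent.TH145.GH
open Pool.Agent.TH145.GC (Cf finite_cf)
open Pool.Agent.W602.GT Pool.Agent.TH145.MG

namespace Pool.Agent.Y741

open scoped Classical in
/-- Commuting derivations of the function field, which preserve the constants and kill a given
function, dual to independent constants. -/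
theorem exists_dualsT {k0 k L : Type} [Field k0] [Field k] [Field L] [Algebra k0 k] [Algebra k L]
    [Algebra k0 L] [IsScalarTower k0 k L] [IsAlgClosed k] [CharZero k] [IsFF k L] {t : L}
    (ht : Transcendental k t) {β : Type} (c : β → k) (hc : AlgebraicIndependent k0 c) :
    ∃ D : β → Derivation k0 L L, (∀ b, Sem k ((D b).restrictScalars ℤ)) ∧ (∀ b, D b t = 0) ∧
      (∀ b b', D b (algebraMap k L (c b')) = if b = b' then 1 else 0) ∧
      ∀ b b' a, D b (D b' a) = D b' (D b a) := by
  have hL : CharZero L := charZero_of_injective_algebraMap (algebraMap k L).injective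
  have hk0 : CharZero k0 := by
    constructor
    intro a b hab
    have h1 := congrArg (algebraMap k0 k) hab
    rw [map_natCast, map_natCast] at h1
    exact Nat.cast_injective h1
  obtain ⟨s, hs, hy⟩ := exists_isTranscendenceBasis_superset (R := k0)
    (s := Set.range c) hc.coe_range
  have hz := hy.sumElim_comp (IsFF.basis ht)
  obtain ⟨z, hzd⟩ : ∃ z : Unit ⊕ s → L, z = Sum.elim (fun _ => t) (algebraMap k L ∘ fun w : s =>
    (w : k)) := ⟨_, rfl⟩
  rw [← hzd] at hz
  have hE : ∀ b : β, ∃ E : Derivation k0 L L, ∀ i, E (z i) =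
      Sum.elim (fun _ => 0) (fun w : s => if (w : k) = c b then 1 else 0) i :=
    fun b => Pool.Agent.W602.GT.exists_der z hz _
  choose E hE using hE
  refine ⟨E, fun b => ?_, fun b => ?_, fun b b' => ?_, fun b b' a => ?_⟩
  · obtain ⟨S, hS⟩ : ∃ S : Set L, S = Set.range (algebraMap k0 L) ∪
      Set.range (algebraMap k L ∘ fun w : s => (w : k)) := ⟨_, rfl⟩
    have hkr : IsAlgClosed (algebraMap k L).fieldRange :=
      IsAlgClosed.of_ringEquiv k _ (RingHom.rangeRestrictFieldEquiv (algebraMap k L))
    have hSk : acl S ≤ (algebraMap k L).fieldRange := by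
      refine acl_of_isAlgClosed hkr ?_
      rw [hS]
      rintro _ (⟨r, rfl⟩ | ⟨i, rfl⟩)
      · exact ⟨algebraMap k0 k r, (IsScalarTower.algebraMap_apply k0 k L r).symm⟩
      · exact ⟨i, rfl⟩
    have hkS : ∀ r : k, algebraMap k L r ∈ acl S := by
      intro r
      rw [mem_acl]
      have h1 : IsAlgebraic (IntermediateField.adjoin k0 (Set.range fun w : s => (w : k))) r := by
        have := hy.isAlgebraic_field
        exact this.isAlgebraic r
      obtain ⟨p, hp0, hp⟩ := h1
      have h2 : ∀ a : IntermediateField.adjoin k0 (Set.range fun w : s => (w : k)),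
          algebraMap k L (a : k) ∈ Subfield.closure S := by
        intro a
        have h3 : (a : k) ∈ Subfield.closure (Set.range (algebraMap k0 k) ∪
            Set.range fun w : s => (w : k)) := by
          rw [← IntermediateField.adjoin_toSubfield]
          exact a.2
        have h4 : Subfield.closure (Set.range (algebraMap k0 k) ∪
            Set.range fun w : s => (w : k)) ≤
            (Subfield.closure S).comap (algebraMap k L) := by
          rw [Subfield.closure_le]
          rintro _ (⟨r, rfl⟩ | ⟨i, rfl⟩)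
          · refine Subfield.subset_closure ?_
            rw [hS]
            exact Or.inl ⟨r, IsScalarTower.algebraMap_apply k0 k L r⟩
          · refine Subfield.subset_closure ?_
            rw [hS]
            exact Or.inr ⟨i, rfl⟩
        exact h4 h3
      let φ : IntermediateField.adjoin k0 (Set.range fun w : s => (w : k)) →+*
          Subfield.closure S :=
        { toFun := fun a => ⟨algebraMap k L (a : k), h2 a⟩
          map_one' := Subtype.ext (map_one (algebraMap k L))
          map_mul' := fun a b => Subtype.ext (map_mul (algebraMap k L) (a : k) b)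
          map_zero' := Subtype.ext (map_zero (algebraMap k L))
          map_add' := fun a b => Subtype.ext (map_add (algebraMap k L) (a : k) b) }
      refine ⟨p.map φ, (Polynomial.map_ne_zero_iff φ.injective).2 hp0, ?_⟩
      have h5 := congrArg (algebraMap k L) hp
      rw [map_zero, Polynomial.aeval_def, Polynomial.hom_eval₂] at h5
      rw [Polynomial.aeval_def, Polynomial.eval₂_map]
      exact h5
    intro r
    have h1 : (E b).restrictScalars ℤ (algebraMap k L r) ∈ acl S := by
      refine der_acl ((E b).restrictScalars ℤ) ?_ (hkS r)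
      rw [hS]
      rintro s' (⟨r, rfl⟩ | ⟨i, rfl⟩)
      · change E b (algebraMap k0 L r) ∈ _
        rw [Derivation.map_algebraMap]
        exact zero_mem _
      · change E b ((algebraMap k L ∘ fun w : s => (w : k)) i) ∈ _
        have h2 : (algebraMap k L ∘ fun w : s => (w : k)) i = z (Sum.inr i) := by rw [hzd]; rfl
        rw [h2, hE]
        simp only [Sum.elim_inr]
        split_ifs
        · exact one_mem _
        · exact zero_mem _
    obtain ⟨r', hr'⟩ := hSk h1
    exact ⟨r', hr'.symm⟩
  · have h2 : t = z (Sum.inl ()) := by rw [hzd]; rfl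
    rw [h2, hE]
    rfl
  · have h2 : algebraMap k L (c b') = z (Sum.inr ⟨c b', hs ⟨b', rfl⟩⟩) := by rw [hzd]; rfl
    rw [h2, hE]
    simp only [Sum.elim_inr]
    by_cases h : b = b'
    · rw [h, if_pos rfl, if_pos rfl]
    · rw [if_neg h, if_neg fun h' => h (hc.injective h').symm]
  · have h1 : ⁅E b, E b'⁆ = 0 := by
      refine Pool.Agent.W602.GT.der_eq_zero ⁅E b, E b'⁆ (Set.range z) hz.isAlgebraic_field ?_
      have h2 : ∀ (b : β) i, ∃ r : k0, E b (z i) = algebraMap k0 L r := by
        intro b i
        rw [hE]
        rcases i with i | i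
        · exact ⟨0, (map_zero _).symm⟩
        · simp only [Sum.elim_inr]
          split_ifs
          · exact ⟨1, (map_one _).symm⟩
          · exact ⟨0, (map_zero _).symm⟩
      rintro _ ⟨i, rfl⟩
      obtain ⟨r, hr⟩ := h2 b' i
      obtain ⟨r', hr'⟩ := h2 b i
      rw [Derivation.commutator_apply, hr, hr', Derivation.map_algebraMap,
        Derivation.map_algebraMap, sub_self]
    have h2 := congrArg (fun X : Derivation k0 L L => X a) h1
    rw [Derivation.commutator_apply] at h2
    exact sub_eq_zero.1 h2

section loss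

variable {k L : Type} [Field k] [Field L] [Algebra k L] [CharZero k] [IsFF k L] [IsAlgClosed k]

/-- A derivation that preserves the constants and kills a function with a zero or a pole preserves
the local ring. -/
theorem reg_of_kill (P : Place k L) {D : Derivation ℤ L L} (hS : Sem k D) {τ : L}
    (hτ : P.ord τ ≠ 0) (h0 : D τ = 0) {f : L} (hf : Ge P 0 f) : Ge P 0 (D f) := by
  have hczL : CharZero L := charZero_of_injective_algebraMap (algebraMap k L).injective
  have hτ0 : τ ≠ 0 := by
    rintro rfl
    exact hτ P.ord_zero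
  have hπ := ord_unif P
  set π := unif P with hπd
  have hπ0 : π ≠ 0 := by
    intro h
    rw [h, P.ord_zero] at hπ; omega
  refine reg_of_unif P hπ hS le_rfl ?_ hf
  by_contra hcon
  have hDπ0 : D π ≠ 0 := fun h => hcon (Or.inl h)
  have hN : P.ord (D π) < 0 := by
    by_contra h
    exact hcon (Or.inr (not_lt.1 h))
  obtain ⟨m, hm⟩ : ∃ m, m = P.ord τ := ⟨_, rfl⟩
  rw [← hm] at hτ
  obtain ⟨u, hu⟩ : ∃ u, u = τ * π ^ (-m) := ⟨_, rfl⟩
  have hτu : τ = π ^ m * u := by
    rw [hu, mul_comm, mul_assoc, ← zpow_add₀ hπ0]
    simp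
  have hu0 : u ≠ 0 := by
    rintro rfl
    rw [mul_zero] at hτu
    exact hτ0 hτu
  have huo : P.ord u = 0 := by
    rw [hu, P.ord_mul hτ0 (zpow_ne_zero _ hπ0), P.ord_zpow, hπ, ← hm]
    ring
  have hDu : Ge P (P.ord (D π)) (D u) :=
    reg_of_unif P hπ hS hN.le (Or.inr le_rfl) (Or.inr huo.ge)
  have h1 : (m : L) * (u * D π) = - (π * D u) := by
    have h2 := h0
    rw [hτu, D.leibniz, Derivation.leibniz_zpow] at h2
    simp only [smul_eq_mul, zsmul_eq_mul] at h2
    have h3 : π ^ m = π * π ^ (m - 1) := by
      rw [← zpow_one_add₀ hπ0]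
      congr 1
      ring
    rw [h3] at h2
    have h4 : π ^ (m - 1) * ((m : L) * (u * D π) + π * D u) = 0 := by
      linear_combination h2
    have h5 := (mul_eq_zero.1 h4).resolve_left (zpow_ne_zero _ hπ0)
    linear_combination h5
  have hmk : (m : k) ≠ 0 := by exact_mod_cast hτ
  have hmL : (m : L) = algebraMap k L (m : k) := (map_intCast _ _).symm
  have hm0 : (m : L) ≠ 0 := by
    rw [hmL, Ne, map_eq_zero]
    exact hmk
  have h2 : Ge P (1 + P.ord (D π)) ((m : L) * (u * D π)) := by
    have hπ1 : Ge P 1 π := Or.inr hπ.ge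
    rw [h1]
    exact (hπ1.mul hDu).neg
  have h3 := h2.resolve_left (mul_ne_zero hm0 (mul_ne_zero hu0 hDπ0))
  rw [P.ord_mul hm0 (mul_ne_zero hu0 hDπ0), P.ord_mul hu0 hDπ0, huo, hmL, P.ord_const hmk] at h3
  omega

/-- The loss of the derivation with respect to a function. -/
theorem loss_delta (P : Place k L) {δ : Derivation k L L} (hδ : δ ≠ 0) {f : L} (hf : Ge P 0 f) :
    Ge P (-max (-vo P δ) 0) (δ f) := by
  have h1 : Ge P (-max (-vo P δ) 0) ((δ.restrictScalars ℤ) f) := by
    refine reg_of_unif P (ord_unif P) (fun c => ⟨0, ?_⟩) ?_ ?_ hf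
    · rw [map_zero]
      exact δ.map_algebraMap c
    · have := le_max_right (-vo P δ) 0
      omega
    · right
      change _ ≤ P.ord (δ (unif P))
      rw [vo_eq P (ord_unif P) hδ]
      have := le_max_left (-vo P δ) 0
      omega
  exact h1

/-- The loss of the derivations that preserve the constants and kill a function. -/
theorem loss_T (P : Place k L) {t : L} (ht : Transcendental k t) {δ : Derivation k L L}
    (hδt : δ t = 1) {D : Derivation ℤ L L} (hS : Sem k D) (hDt : D t = 0) {f : L}
    (hf : Ge P 0 f) : Ge P (-max (-vo P δ) 0) (D f) := by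
  have hδ : δ ≠ 0 := by
    rintro rfl
    simp at hδt
  have hmax := le_max_right (-vo P δ) 0
  by_cases hP : P.ord t < 0
  · exact (reg_of_kill P hS hP.ne hDt hf).mono (by omega)
  · push Not at hP
    obtain ⟨c, hc⟩ := exists_const P (Or.inr hP : Ge P 0 t)
    have h6 : t - algebraMap k L c ≠ 0 := by
      intro h
      rw [sub_eq_zero] at h
      exact ht (h ▸ isAlgebraic_algebraMap c)
    have h7 := hc.resolve_left h6
    obtain ⟨c', hc'⟩ := hS c
    obtain ⟨D1, hD1⟩ : ∃ D1 : Derivation ℤ L L, ∀ f, D1 f = D f + algebraMap k L c' * δ f :=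
      ⟨D + algebraMap k L c' • (δ.restrictScalars ℤ), fun f => by
        rw [Derivation.add_apply, Derivation.smul_apply, smul_eq_mul]
        rfl⟩
    have hS1 : Sem k D1 := by
      intro b
      obtain ⟨b', hb'⟩ := hS b
      refine ⟨b', ?_⟩
      rw [hD1, δ.map_algebraMap, mul_zero, add_zero, hb']
    have h8 : D1 (t - algebraMap k L c) = 0 := by
      rw [hD1, map_sub, map_sub, hDt, hc', hδt, δ.map_algebraMap]
      ring
    have h9 := reg_of_kill P hS1 (by omega) h8 hf
    have h10 : D f = D1 f - algebraMap k L c' * δ f := by rw [hD1]; ring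
    rw [h10]
    refine (h9.mono (by omega)).sub ?_
    have h11 := (Ge.const (P := P) c').mul (loss_delta P hδ hf)
    rwa [zero_add] at h11

/-- The total loss. -/
theorem loc_T {t : L} (ht : Transcendental k t) {δ : Derivation k L L} (hδt : δ t = 1) :
    Loc (fun P : Place k L => max (-vo P δ) 0) (canDeg k L + 2 * hgt k t) := by
  classical
  have hδ : δ ≠ 0 := by
    rintro rfl
    simp at hδt
  have hfin : {P : Place k L | max (-vo P δ) 0 ≠ 0}.Finite :=
    (vo_finite hδ).subset fun P hP h0 => hP (by
      have h1 : vo P δ = 0 := h0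
      rw [h1]; simp)
  refine ⟨fun P => le_max_right _ _, hfin, ?_⟩
  obtain ⟨T0, hT0⟩ := exists_supp (k := k) (Finset.univ : Finset (Fin 1)) ![t]
  set T : Finset (Place k L) := T0 ∪ (vo_finite hδ).toFinset with hT
  have h1 : ∀ P : Place k L, P.ord t ≠ 0 → P ∈ T := fun P hP =>
    Finset.mem_union_left _ (hT0 0 (Finset.mem_univ _) P hP)
  have h2 : ∀ P : Place k L, vo P δ ≠ 0 → P ∈ T := fun P hP => by simp [hT, hP]
  have h3 := canDeg_finset hδ T h2
  have h4 : canDeg k L = - ∑ P ∈ T, vo P δ := by rw [h3, neg_neg]
  rw [finsum_eq_sum_of_support_subset (s := T) _ (fun P hP => by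
    refine h2 P fun h0 => hP ?_
    dsimp only
    rw [h0]; simp), h4, hgt_finset t T h1, Finset.mul_sum, ← Finset.sum_neg_distrib,
    ← Finset.sum_add_distrib]
  refine Finset.sum_le_sum fun P _ => ?_
  by_cases hP : P.ord t < 0
  · have h5 := (ord_der P hδ hP.ne).2
    rw [hδt, P.ord_one] at h5
    rw [max_eq_left (by omega : 0 ≤ -P.ord t)]
    rw [max_le_iff]
    constructor <;> omega
  · push Not at hP
    obtain ⟨c, hc⟩ := exists_const P (Or.inr hP : Ge P 0 t)
    have h6 : t - algebraMap k L c ≠ 0 := by
      intro h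
      rw [sub_eq_zero] at h
      exact ht (h ▸ isAlgebraic_algebraMap c)
    have h7 := hc.resolve_left h6
    have h8 := (ord_der P hδ (f := t - algebraMap k L c) (by omega)).2
    rw [map_sub, hδt, Derivation.map_algebraMap, sub_zero, P.ord_one] at h8
    have h9 := le_max_right (-P.ord t) 0
    rw [max_le_iff]
    constructor <;> omega

end loss

end Pool.Agent.Y741
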