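import Pool.Agent.Y741.UCurve

/-!
The degrees of curves in generic pairs.
-/

set_option autoImplicit false

open MvPolynomial FF Pool.Agent.W603.LV Pool.Agent.W603.PV Pool.Agent.TH145.GH
open Pool.Agent.TH145.GC (Cf finite_cf)
open Pool.Agent.W602.GT Pool.Agent.TH145.MG
open Pool.Agent.Y735 (po po_finite)

namespace Pool.Agent.Y741

/-- The places at which a point meets the boundary. -/
theorem meets_finite {κ L : Type} [Field κ] [Field L] [Algebra κ L] [CharZero κ] [IsFF κ L]
    {n : ℕ} {A : Type} [Finite A] (F : Fam L n A) (dg : A → ℕ) (C : Finset A)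
    {x : Fin (n + 1) → L} (hx : x ≠ 0) :
    {P : Place κ L | ∃ b, b ∉ C ∧ dg b * pord P x < P.ord (eval x (F b))}.Finite := by
  classical
  have h1 := po_finite (k := κ) hx
  have h2 : (⋃ b : A, {P : Place κ L | P.ord (eval x (F b)) ≠ 0}).Finite :=
    Set.finite_iUnion fun b => finite_support _
  refine (h1.union h2).subset ?_
  rintro P ⟨b, -, hb⟩
  by_contra hcon
  simp only [Set.mem_union, Set.mem_iUnion, Set.mem_ofPred_eq, not_or, not_exists, not_not]
    at hcon
  have h3 : pord P x = 0 := hcon.1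
  rw [h3, hcon.2 b] at hb
  simp at hb

theorem loc_ind {κ L : Type} [Field κ] [Field L] [Algebra κ L] {S : Set (Place κ L)}
    (hS : S.Finite) : ∃ s : Place κ L → ℤ, Loc s S.ncard ∧ ∀ P, s P = 0 → P ∉ S := by
  classical
  refine ⟨fun P => if P ∈ S then 1 else 0, ⟨fun P => ?_, hS.subset fun P hP => ?_, ?_⟩,
    fun P hP h => ?_⟩
  · split_ifs <;> omega
  · by_contra hcon
    exact hP (if_neg hcon)
  · rw [finsum_eq_sum_of_support_subset (s := hS.toFinset)]
    · rw [Finset.sum_congr rfl (g := fun _ => (1 : ℤ)) fun P hP =>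
        if_pos ((Set.Finite.mem_toFinset hS).1 hP), Finset.sum_const, Set.ncard_eq_toFinset_card S hS]
      simp
    · intro P hP
      rw [Set.Finite.coe_toFinset]
      by_contra hcon
      exact hP (if_neg hcon)
  · have h1 : (if P ∈ S then (1 : ℤ) else 0) = 0 := hP
    rw [if_pos h] at h1
    omega

/-- The degrees of the curves in generic pairs. -/
theorem curve_pairs (n : ℕ) (A : Type) [Fintype A] [DecidableEq A] (dg : A → ℕ) (hn : 1 ≤ n)
    (hpos : ∀ a, 0 < dg a) (C : Finset A) (hd : 3 * n + 3 ≤ 2 * ∑ a, dg a + C.card) :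
    ∃ c : ℤ, 0 ≤ c ∧ ∀ (k0 k L Ω : Type) [Field k0] [Field k] [Field L] [Field Ω] [Algebra k0 k]
      [Algebra k L] [Algebra L Ω] [IsAlgClosed k] [CharZero k] [IsFF k L] [IsAlgClosed Ω]
      (F : A → MvPolynomial (Fin (n + 1)) k), (∀ a, (F a).IsHomogeneous (dg a)) →
      (AlgebraicIndependent k0 fun p : Cf n dg => (F p.1).coeff p.2.1) →
      ∀ (x : Fin (n + 1) → L), x ≠ 0 → ∀ t : L, Transcendental k t →
      (∀ c ∈ C, aeval x (F c) = 0) → (∀ b, b ∉ C → aeval x (F b) ≠ 0) →
      ¬ Exc 2 (mapF (algebraMap L Ω) fun a => map (algebraMap k L) (F a)) C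
        (fun j => algebraMap L Ω (x j)) →
      pht k x ≤ c * (canDeg k L + 2 * hgt k t +
        {P : Place k L | ∃ b, b ∉ C ∧ dg b * pord P x < P.ord (aeval x (F b))}.ncard) := by
  classical
  obtain ⟨c, hc0, hc⟩ := uni_pairs n A dg hn C hd
  refine ⟨2 * c, by positivity, ?_⟩
  intro k0 k L Ω _ _ _ _ _ _ _ _ _ _ _ F hF hgen x hx0 t ht hxC hxb hexc
  have hczL : CharZero L := charZero_of_injective_algebraMap (algebraMap k L).injective
  let _ : Algebra k0 L := ((algebraMap k L).comp (algebraMap k0 k)).toAlgebra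
  have hst : IsScalarTower k0 k L := IsScalarTower.of_algebraMap_eq fun _ => rfl
  obtain ⟨Db, hDbS, hDbt, hDbc, hDbcm⟩ := exists_dualsT (k0 := k0) ht _ hgen
  obtain ⟨D, hD⟩ : ∃ D : A → (Fin (n + 1) →₀ ℕ) → Derivation ℤ L L, ∀ a I, D a I =
      if h : I.degree = dg a then (Db ⟨a, ⟨I, h⟩⟩).restrictScalars ℤ else 0 :=
    ⟨_, fun _ _ => rfl⟩
  have hDd : ∀ a I (h : I.degree = dg a) f, D a I f = Db ⟨a, ⟨I, h⟩⟩ f := fun a I h f => by
    rw [hD, dif_pos h]; rfl
  have hD0 : ∀ a (I : Fin (n + 1) →₀ ℕ), I.degree ≠ dg a → D a I = 0 := fun a I h => by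
    rw [hD, dif_neg h]
  obtain ⟨G, hG⟩ : ∃ G : Fam L n A, ∀ a, G a = map (algebraMap k L) (F a) := ⟨_, fun _ => rfl⟩
  have hev : ∀ a, eval x (G a) = aeval x (F a) := fun a => by
    rw [hG, eval_map, ← aeval_def]
  -- the derivation with respect to the function
  obtain ⟨δ, hδt⟩ : ∃ δ : Derivation k L L, δ t = 1 := by
    obtain ⟨δ0, hδ0⟩ := Pool.Agent.W603.LV.exists_der (k := k) (K := L)
    have h0 := der_ne_zero hδ0 ht
    refine ⟨(δ0 t)⁻¹ • δ0, ?_⟩
    rw [Derivation.coe_smul, Pi.smul_apply, smul_eq_mul, inv_mul_cancel₀ h0]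
  have hδ : δ ≠ 0 := by
    rintro rfl
    simp at hδt
  have hLe := loc_T ht hδt
  have hE0 := hLe.B_nonneg
  have hdat : DataL k G dg D (fun P => max (-vo P δ) 0) (fun _ => 0) := by
    refine ⟨hpos, fun a => ?_, ?_, fun P => le_max_right _ _, fun P => le_rfl, ?_, ?_, ?_⟩
    · rw [hG]; exact (hF a).map _
    · intro a b I J hI hJ
      rw [hDd a I hI, hG, coeff_map]
      have h1 := hDbc ⟨a, ⟨I, hI⟩⟩ ⟨b, ⟨J, hJ⟩⟩
      dsimp only at h1
      rw [h1]
      constructor
      · rintro rfl rfl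
        rw [if_pos rfl]
      · intro h
        rw [if_neg]
        intro h2
        have h3 : a = b := congrArg Sigma.fst h2
        subst h3
        have h4 := eq_of_heq (Sigma.mk.inj_iff.1 h2).2
        have h5 : I = J := congrArg Subtype.val h4
        rcases h with h | h
        · exact h rfl
        · exact h h5
    · intro P f hf a I hI
      have h1 : D a I f = (Db ⟨a, ⟨I, hI⟩⟩).restrictScalars ℤ f := hDd a I hI f
      rw [h1]
      exact loss_T P ht hδt (hDbS _) (hDbt _) hf
    · intro P a u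
      rw [hG, coeff_map, neg_zero]
      exact Ge.const _
    · refine hLe.fin.subset fun P hP => ?_
      rcases hP with hP | hP
      · exact hP
      · exact absurd rfl hP
  have hcm : Comm D := by
    intro a b I J f
    by_cases hI : I.degree = dg a
    · by_cases hJ : J.degree = dg b
      · rw [hDd b J hJ, hDd a I hI, hDd a I hI, hDd b J hJ]
        exact hDbcm _ _ _
      · rw [hD0 b J hJ, Derivation.zero_apply, Derivation.zero_apply, map_zero]
    · rw [hD0 a I hI, Derivation.zero_apply, Derivation.zero_apply, map_zero]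
  obtain ⟨s, hLs, hs⟩ := loc_ind (meets_finite (κ := k) G dg C hx0)
  have hset : {P : Place k L | ∃ b, b ∉ C ∧ dg b * pord P x < P.ord (eval x (G b))} =
      {P : Place k L | ∃ b, b ∉ C ∧ dg b * pord P x < P.ord (aeval x (F b))} := by
    ext P
    refine exists_congr fun b => and_congr_right fun _ => ?_
    rw [hev]
  have hGG : G = fun a => map (algebraMap k L) (F a) := funext hG
  have h1 := hc k L Ω δ (fun P => max (-vo P δ) 0) (canDeg k L + 2 * hgt k t) hδ hLe
    (fun P f hf => loss_delta P hδ hf) G D (fun P => max (-vo P δ) 0) (fun _ => 0)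
    (canDeg k L + 2 * hgt k t) 0 hdat hcm hLe Loc.zero s _ hLs x hx0
    (fun c hc => by rw [hev]; exact hxC c hc) (fun b hb => by rw [hev]; exact hxb b hb)
    (fun P hP b hb => by
      by_contra hcon
      exact hs P hP ⟨b, hb, not_le.1 hcon⟩) (by rw [hGG]; exact hexc)
  rw [hset] at h1
  refine h1.trans ?_
  have h2 : (0 : ℤ) ≤ ({P : Place k L | ∃ b, b ∉ C ∧
    dg b * pord P x < P.ord (aeval x (F b))}.ncard : ℤ) := by positivity
  nlinarith

end Pool.Agent.Y741
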