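import Pool.Agent.Y741.Proper
import Pool.Agent.Y741.MainV


/-!
The exceptional locus over extensions of the base field: arbitrary coordinates.
-/

set_option autoImplicit false

open MvPolynomial FF Pool.Agent.W603.LV Pool.Agent.W603.PV Pool.Agent.W602.RG Pool.Agent.TH145.GH
open Pool.Agent.TH145.GC (Gen Rt Cf finite_cf exists_big indep_scale)
open Pool.Agent.Y735 (rho eval_rho rho_X pl fht rho_deg Two card_le_adjoin coeff_rho_mem H_descend)
open Pool.Agent.W602.GT

namespace Pool.Agent.Y741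

/-- The points on the lines of one type, over all extension fields. -/
theorem exists_H_typeS {k K : Type} [Field k] [Field K] [Algebra k K] [Infinite K] {n N : ℕ}
    {A : Type} [Fintype A] [DecidableEq A] {dg : A → ℕ}
    {F : Fam K n A} (hF : ∀ a, (F a).IsHomogeneous (dg a)) {C : Finset A}
    (σ : Fin N → Fin (n + 1)) (hσ : Function.Injective σ)
    (hd : 2 * n + 3 ≤ N + (∑ a, dg a + C.card))
    (hind : AlgebraicIndependent k fun p : Cf n dg => (F p.1).coeff p.2.1)
    (i j : Fin (n + 1)) (m0 m1 : A → ℕ) :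
    ∃ H : MvPolynomial (Fin N) K, H ≠ 0 ∧ ∀ (Ω' : Type) [Field Ω'] [Algebra K Ω']
      (x y : Fin (n + 1) → Ω') (e : A → Ω') (t0 t1 : Ω'),
      pl x y (i, j) ≠ 0 → ExcD (mapF (algebraMap K Ω') F) C x y e m0 m1 t0 t1 →
      aeval (fun l => x (σ l)) H = 0 := by
  classical
  by_contra hcon
  push Not at hcon
  obtain ⟨V, hV⟩ : ∃ V : Type, V = ((Fin (n + 1) ⊕ Fin (n + 1)) ⊕ (A ⊕ Bool)) := ⟨_, rfl⟩
  obtain ⟨vx, vy, ve, vt, hvev, hvxi⟩ : ∃ (vx vy : Fin (n + 1) → V) (ve : A → V) (vt : Bool → V),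
      (∀ (Z : Type) (x y : Fin (n + 1) → Z) (e : A → Z) (t : Bool → Z), ∃ g : V → Z,
        (∀ l, g (vx l) = x l) ∧ (∀ l, g (vy l) = y l) ∧ (∀ b, g (ve b) = e b) ∧
          ∀ b, g (vt b) = t b) ∧ Function.Injective vx := by
    subst hV
    refine ⟨fun l => Sum.inl (Sum.inl l), fun l => Sum.inl (Sum.inr l),
      fun b => Sum.inr (Sum.inl b), fun b => Sum.inr (Sum.inr b), fun Z x y e t =>
        ⟨Sum.elim (Sum.elim x y) (Sum.elim e t), fun _ => rfl, fun _ => rfl, fun _ => rfl,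
          fun _ => rfl⟩, fun a b hab => ?_⟩
    exact Sum.inl_injective (Sum.inl_injective hab)
  -- the ideal
  obtain ⟨f, hf⟩ : ∃ f : K → K → A → MvPolynomial V K, ∀ s t a, f s t a =
      aeval (fun l => MvPolynomial.C s * X (vx l) + MvPolynomial.C t * X (vy l)) (F a) :=
    ⟨_, fun _ _ _ => rfl⟩
  obtain ⟨g, hg⟩ : ∃ g : K → K → A → MvPolynomial V K, ∀ s t a, g s t a =
      X (ve a) * ((MvPolynomial.C s - X (vt false) * MvPolynomial.C t) ^ m0 a *
        (MvPolynomial.C s - X (vt true) * MvPolynomial.C t) ^ m1 a) :=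
    ⟨_, fun _ _ _ => rfl⟩
  obtain ⟨p, hp⟩ : ∃ p : MvPolynomial V K, p =
    X (vx i) * X (vy j) - X (vx j) * X (vy i) := ⟨_, rfl⟩
  obtain ⟨ι, hι⟩ : ∃ ι : MvPolynomial (Fin N) K →ₐ[K] MvPolynomial V K,
      ∀ H, ι H = rename (fun l : Fin N => vx (σ l)) H := ⟨rename _, fun _ => rfl⟩
  have hιinj : Function.Injective ι := by
    intro a b hab
    rw [hι, hι] at hab
    refine rename_injective _ ?_ hab
    intro a b hab
    exact hσ (hvxi hab)
  obtain ⟨I, hI⟩ : ∃ I : Ideal (MvPolynomial V K), I = Ideal.span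
    ({q | ∃ s t : K, ∃ c ∈ C, q = f s t c} ∪ {q | ∃ s t : K, ∃ b, b ∉ C ∧
      q = f s t b - g s t b}) := ⟨_, rfl⟩
  obtain ⟨M, hM⟩ : ∃ M : Submonoid (MvPolynomial V K),
    ∀ a, a ∈ M ↔ ∃ (H : MvPolynomial (Fin N) K) (m : ℕ), H ≠ 0 ∧ a = ι H * p ^ m := by
    refine ⟨{ carrier := {a | ∃ (H : MvPolynomial (Fin N) K) (m : ℕ), H ≠ 0 ∧ a = ι H * p ^ m}
              one_mem' := ⟨1, 0, one_ne_zero, by rw [map_one, pow_zero, mul_one]⟩
              mul_mem' := ?_ }, fun a => Iff.rfl⟩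
    rintro a b ⟨H, m, hH, rfl⟩ ⟨H', m', hH', rfl⟩
    refine ⟨H * H', m + m', mul_ne_zero hH hH', ?_⟩
    rw [map_mul, pow_add]
    ring
  have hdis : Disjoint (I : Set (MvPolynomial V K)) M := by
    rw [Set.disjoint_left]
    rintro a haI haM
    obtain ⟨H, m, hH, rfl⟩ := (hM a).1 haM
    obtain ⟨Ω', iΩ, iA, x, y, e, t0, t1, hxy, hD, hxH⟩ := hcon H hH
    obtain ⟨gg, hg1, hg2, hg3, hg4⟩ := hvev Ω' x y e (fun b => if b then t1 else t0)
    obtain ⟨ev, hev⟩ : ∃ ev : MvPolynomial V K →ₐ[K] Ω', ev = aeval gg := ⟨_, rfl⟩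
    have hevf : ∀ s t a, ev (f s t a) = eval (algebraMap K Ω' s • x + algebraMap K Ω' t • y)
        (mapF (algebraMap K Ω') F a) := by
      intro s t a
      unfold mapF
      rw [hf, hev, eval_map, ← aeval_def, ← AlgHom.comp_apply]
      congr 1
      apply MvPolynomial.algHom_ext
      intro l
      rw [AlgHom.comp_apply, aeval_X, aeval_X, map_add, map_mul, map_mul, aeval_X, aeval_X,
        hg1, hg2, ← MvPolynomial.algebraMap_eq, AlgHom.commutes, AlgHom.commutes]
      rfl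
    have hevg : ∀ s t a, ev (g s t a) = e a * ((algebraMap K Ω' s - t0 * algebraMap K Ω' t) ^ m0 a *
        (algebraMap K Ω' s - t1 * algebraMap K Ω' t) ^ m1 a) := by
      intro s t a
      rw [hg, hev]
      simp only [map_mul, map_pow, map_sub, aeval_X, aeval_C, hg3, hg4, Bool.false_eq_true, if_true,
        if_false]
    have h1 : I ≤ RingHom.ker (ev : MvPolynomial V K →+* Ω') := by
      rw [hI, Ideal.span_le]
      rintro _ (⟨s, t, c, hc, rfl⟩ | ⟨s, t, b, hb, rfl⟩)
      · rw [SetLike.mem_coe, RingHom.mem_ker, RingHom.coe_coe, hevf]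
        exact hD.1 c hc _ _
      · rw [SetLike.mem_coe, RingHom.mem_ker, RingHom.coe_coe, map_sub, hevf, hevg, hD.2 b hb,
          sub_self]
    have h2 := h1 haI
    rw [RingHom.mem_ker, RingHom.coe_coe, map_mul, map_pow] at h2
    rcases mul_eq_zero.1 h2 with h3 | h3
    · apply hxH
      rw [hι, hev, aeval_rename] at h3
      have h4 : (gg ∘ fun l : Fin N => vx (σ l)) = fun l => x (σ l) :=
        funext fun l => hg1 _
      rw [h4] at h3
      exact h3
    · have h5 : ev p = 0 := by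
        by_contra hne
        exact pow_ne_zero m hne h3
      rw [hp, hev, map_sub, map_mul, map_mul, aeval_X, aeval_X, aeval_X, aeval_X, hg1, hg1, hg2,
        hg2] at h5
      exact hxy h5
  obtain ⟨P, hP, hIP, hPM⟩ := Ideal.exists_le_prime_disjoint I M hdis
  -- the field
  have hdom : IsDomain (MvPolynomial V K ⧸ P) :=
    (Ideal.Quotient.isDomain_iff_prime P).2 hP
  obtain ⟨Ω, hΩ, hΩA, q, hq0⟩ : ∃ (Ω : Type) (_ : Field Ω) (_ : Algebra K Ω)
      (q : MvPolynomial V K →ₐ[K] Ω), ∀ a, q a = 0 ↔ a ∈ P := by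
    have hV' : V = ((Fin (n + 1) ⊕ Fin (n + 1)) ⊕ (A ⊕ Bool)) := hV
    refine ⟨FractionRing (MvPolynomial V K ⧸ P), inferInstance,
      inferInstance, (IsScalarTower.toAlgHom K (MvPolynomial V K ⧸ P)
      (FractionRing (MvPolynomial V K ⧸ P))).comp
      (Ideal.Quotient.mkₐ K P), fun a => ?_⟩
    change algebraMap (MvPolynomial V K ⧸ P)
      (FractionRing (MvPolynomial V K ⧸ P))
      (Ideal.Quotient.mk P a) = 0 ↔ a ∈ P
    rw [← Ideal.Quotient.eq_zero_iff_mem]
    constructor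
    · intro h
      exact (IsFractionRing.injective (MvPolynomial V K ⧸ P)
        (FractionRing (MvPolynomial V K ⧸ P))) (by rw [h, map_zero])
    · intro h
      rw [h, map_zero]
  let _ : Algebra k Ω := ((algebraMap K Ω).comp (algebraMap k K)).toAlgebra
  have hst : IsScalarTower k K Ω := IsScalarTower.of_algebraMap_eq fun _ => rfl
  have hinjΩ : Function.Injective (algebraMap K Ω) := (algebraMap K Ω).injective
  have hinf : Infinite Ω := Infinite.of_injective _ hinjΩ
  obtain ⟨x, hx⟩ : ∃ x : Fin (n + 1) → Ω, ∀ l, x l = q (X (vx l)) := ⟨_, fun _ => rfl⟩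
  obtain ⟨y, hy⟩ : ∃ y : Fin (n + 1) → Ω, ∀ l, y l = q (X (vy l)) := ⟨_, fun _ => rfl⟩
  obtain ⟨e, he⟩ : ∃ e : A → Ω, ∀ l, e l = q (X (ve l)) := ⟨_, fun _ => rfl⟩
  obtain ⟨t, ht⟩ : ∃ t : Bool → Ω, ∀ l, t l = q (X (vt l)) := ⟨_, fun _ => rfl⟩
  obtain ⟨F', hF'⟩ : ∃ F' : Fam Ω n A, ∀ a, F' a = map (algebraMap K Ω) (F a) :=
    ⟨_, fun _ => rfl⟩
  have hqf : ∀ (s s' : K) (a : A), q (f s s' a) = eval (algebraMap K Ω s • x +
      algebraMap K Ω s' • y) (F' a) := by
    intro s s' a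
    rw [hf, hF', eval_map, ← aeval_def, ← AlgHom.comp_apply]
    congr 1
    apply MvPolynomial.algHom_ext
    intro l
    rw [AlgHom.comp_apply, aeval_X, aeval_X, map_add, map_mul, map_mul, ← hx, ← hy,
      Pi.add_apply, Pi.smul_apply, Pi.smul_apply, smul_eq_mul, smul_eq_mul]
    congr 2
    · exact q.commutes s
    · exact q.commutes s'
  have hqC : ∀ s : K, q (MvPolynomial.C s) = algebraMap K Ω s := fun s => q.commutes s
  have hqg : ∀ (s s' : K) (a : A), q (g s s' a) = e a *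
      ((algebraMap K Ω s - t false * algebraMap K Ω s') ^ m0 a *
        (algebraMap K Ω s - t true * algebraMap K Ω s') ^ m1 a) := by
    intro s s' a
    rw [hg]
    simp only [map_mul, map_pow, map_sub, hqC, ← he, ← ht]
  have hFh : ∀ a, (F' a).IsHomogeneous (dg a) := fun a => by rw [hF']; exact (hF a).map _
  have hevC : ∀ (s s' : K), ∀ c ∈ C, eval (algebraMap K Ω s • x + algebraMap K Ω s' • y)
      (F' c) = 0 := by
    intro s s' c hc
    rw [← hqf]
    refine (hq0 _).2 (hIP ?_)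
    rw [hI]
    exact Ideal.subset_span (Or.inl ⟨s, s', c, hc, rfl⟩)
  have hevB : ∀ (s s' : K), ∀ b, b ∉ C → eval (algebraMap K Ω s • x + algebraMap K Ω s' • y)
      (F' b) = e b * ((algebraMap K Ω s - t false * algebraMap K Ω s') ^ m0 b *
        (algebraMap K Ω s - t true * algebraMap K Ω s') ^ m1 b) := by
    intro s s' b hb
    rw [← hqf, ← hqg]
    have h1 : q (f s s' b - g s s' b) = 0 := by
      refine (hq0 _).2 (hIP ?_)
      rw [hI]
      exact Ideal.subset_span (Or.inr ⟨s, s', b, hb, rfl⟩)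
    rw [map_sub] at h1
    exact sub_eq_zero.1 h1
  -- two polynomials in two variables that agree over the small field are equal
  have hext : ∀ (Q1 Q2 : MvPolynomial (Fin 2) Ω), (∀ s s' : K, eval ![algebraMap K Ω s,
      algebraMap K Ω s'] Q1 = eval ![algebraMap K Ω s, algebraMap K Ω s'] Q2) → Q1 = Q2 := by
    intro Q1 Q2 h
    refine MvPolynomial.funext_set (fun _ => Set.range (algebraMap K Ω))
      (fun _ => Set.infinite_range_of_injective hinjΩ) ?_
    intro z hz
    obtain ⟨s, hs⟩ := hz 0 (Set.mem_univ _)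
    obtain ⟨s', hs'⟩ := hz 1 (Set.mem_univ _)
    have h1 : z = ![algebraMap K Ω s, algebraMap K Ω s'] := by
      funext l
      fin_cases l
      · exact hs.symm
      · exact hs'.symm
    rw [h1]
    exact h s s'
  obtain ⟨Q, hQ⟩ : ∃ Q : A → MvPolynomial (Fin 2) Ω, ∀ a s s', eval ![s, s'] (Q a) =
      eval (s • x + s' • y) (F' a) := by
    refine ⟨fun a => aeval (fun l => X 0 * MvPolynomial.C (x l) + X 1 * MvPolynomial.C (y l))
      (F' a), fun a s s' => ?_⟩
    rw [← coe_aeval_eq_eval, RingHom.coe_coe, ← coe_aeval_eq_eval, RingHom.coe_coe,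
      ← AlgHom.comp_apply]
    congr 1
    apply MvPolynomial.algHom_ext
    intro l
    rw [AlgHom.comp_apply, aeval_X, aeval_X, map_add, map_mul, map_mul, aeval_X, aeval_X]
    simp
  have hD : ExcD F' C x y e m0 m1 (t false) (t true) := by
    refine ⟨fun c hc a b => ?_, fun b hb a a' => ?_⟩
    · have h1 : Q c = 0 := hext _ _ fun s s' => by
        rw [hQ, hevC s s' c hc, map_zero]
      rw [← hQ, h1, map_zero]
    · have h1 : Q b = MvPolynomial.C (e b) * ((X 0 - MvPolynomial.C (t false) * X 1) ^ m0 b *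
          (X 0 - MvPolynomial.C (t true) * X 1) ^ m1 b) := hext _ _ fun s s' => by
        rw [hQ, hevB s s' b hb]
        simp
      rw [← hQ, h1]
      simp
  have hpl : pl x y (i, j) ≠ 0 := by
    have h1 : pl x y (i, j) = q p := by
      rw [hp, map_sub, map_mul, map_mul, ← hx, ← hx, ← hy, ← hy]
      rfl
    rw [h1]
    intro h2
    refine Set.disjoint_left.1 hPM ((hq0 _).1 h2) ((hM _).2 ⟨1, 1, one_ne_zero, ?_⟩)
    rw [map_one, pow_one, one_mul]
  have hxind : AlgebraicIndependent K fun l : Fin N => x (σ l) := by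
    rw [algebraicIndependent_iff_injective_aeval, injective_iff_map_eq_zero]
    intro H hH
    by_contra hne
    have h1 : aeval (fun l : Fin N => x (σ l)) H = q (ι H) := by
      rw [hι, ← AlgHom.comp_apply]
      congr 1
      apply MvPolynomial.algHom_ext
      intro l
      rw [aeval_X, AlgHom.comp_apply, rename_X, hx]
    rw [h1] at hH
    refine Set.disjoint_left.1 hPM ((hq0 _).1 hH) ((hM _).2 ⟨H, 0, hne, ?_⟩)
    rw [pow_zero, mul_one]
  have h1 := line_count' (k := k) hFh hpl e m0 m1 (t false) (t true) hD.1 hD.2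
    (fun l : Fin N => σ l) (by
    have h2 := hind.sumElim_comp hxind
    convert h2 using 2
    funext I
    rw [hF', coeff_map]
    rfl)
  have h2 := h1.1
  rw [Nat.card_eq_fintype_card, Fintype.card_fin] at h2
  omega


end Pool.Agent.Y741
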