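import Pool.Agent.W619.PQ.Genus
import Pool.Agent.Y741.PolyH

/-!
Functions of small degree on a curve.
-/

set_option autoImplicit false

open FF Pool.Agent.W603.LV Module Pool.Agent.W619.PQ IntermediateField

namespace Pool.Agent.Y741

section

variable {k F : Type} [Field k] [Field F] [Algebra k F] [CharZero k] [IsFF k F] [IsAlgClosed k]

/-- Minus the divisor of a derivation. -/
noncomputable def WD (E : Derivation k F F) (hE : E ≠ 0) : Place k F →₀ ℤ :=
  Finsupp.ofSupportFinite (fun P => -vo P E) ((vo_finite hE).subset fun P hP h0 => hP (by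
    have h1 : vo P E = 0 := h0
    dsimp only
    rw [h1]; rfl))

theorem WD_apply (E : Derivation k F F) (hE : E ≠ 0) (P : Place k F) : WD E hE P = -vo P E := rfl

theorem ddeg_WD (E : Derivation k F F) (hE : E ≠ 0) : ddeg (WD E hE) = canDeg k F := by
  classical
  have h1 := canDeg_finset (k := k) hE (WD E hE).support (fun P hP => by
    rw [Finsupp.mem_support_iff, WD_apply]
    omega)
  unfold ddeg Finsupp.sum
  have h2 : canDeg k F = - ∑ P ∈ (WD E hE).support, vo P E := by rw [h1, neg_neg]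
  rw [h2, ← Finset.sum_neg_distrib]
  refine Finset.sum_congr rfl fun P _ => ?_
  beta_reduce
  rw [WD_apply, deg_one, Nat.cast_one, mul_one]

theorem mem_WD {E : Derivation k F F} {hE : E ≠ 0} {f : F} (h : ∀ P : Place k F, vo P E ≤ P.ord f) :
    f ∈ LL (WD E hE) := by
  rw [mem_LL]
  right
  intro P
  rw [WD_apply, neg_neg]
  exact h P

theorem ell_WD (E : Derivation k F F) (hE : E ≠ 0) :
    ell (WD E hE) ≤ max (canDeg k F + 1) 0 := by
  classical
  rcases lt_or_ge (canDeg k F) 0 with h | h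
  · have h1 : LL (WD E hE) = ⊥ := LL_eq_bot (by rw [ddeg_WD]; exact h)
    unfold ell
    rw [h1, finrank_bot]
    exact le_max_right _ _
  · obtain ⟨P, -⟩ := exists_place (k := k) (K := F)
    have h1 : WD E hE - Finsupp.single P (canDeg k F + 1) ≤ WD E hE := by
      intro Q
      rw [Finsupp.sub_apply]
      have h2 : 0 ≤ (Finsupp.single P (canDeg k F + 1)) Q := by
        rw [Finsupp.single_apply]
        split_ifs <;> omega
      omega
    have h2 := ell_le h1
    have h3 : ddeg (WD E hE - Finsupp.single P (canDeg k F + 1)) = -1 := by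
      rw [ddeg_sub, ddeg_WD, ddeg_single, deg_one]
      push_cast
      ring
    have h4 : ell (WD E hE - Finsupp.single P (canDeg k F + 1)) = 0 := by
      unfold ell
      rw [LL_eq_bot (by rw [h3]; norm_num), finrank_bot]
      rfl
    rw [h3, h4, ddeg_WD] at h2
    refine le_trans ?_ (le_max_left _ _)
    omega

omit [CharZero k] [IsFF k F] [IsAlgClosed k] in
/-- The principal parts. -/
theorem lift_part {x : F} {S : Finset (Place k F)}
    (hS : ∀ w, w ∈ S ↔ w.ord x < 0) {P : Place k F} (hP : P ∈ S) {v : F}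
    (hv : v ∈ BB (k := k) x ⊔ BI (k := k) x) (hvS : ∀ Q ∈ S, Q ≠ P → Ge Q 0 v) :
    ∃ b : F, Ge P 0 (b - v) ∧ ∀ Q : Place k F, Q ≠ P → Ge Q 0 b := by
  classical
  obtain ⟨b, hb, c, hc, hbc⟩ := Submodule.mem_sup.1 hv
  refine ⟨b, ?_, fun Q hQ => ?_⟩
  · have e : b - v = -c := by rw [← hbc]; ring
    rw [e]
    exact (hc P ((hS P).1 hP)).neg
  · rcases lt_or_ge (Q.ord x) 0 with hQx | hQx
    · have e : b = v - c := by rw [← hbc]; ring
      rw [e]
      exact (hvS Q ((hS Q).2 hQx) hQ).sub (hc Q hQx)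
    · exact hb Q hQx

/-- The dimension of the quotient. -/
theorem dep_of_card {x : F} (hx : Transcendental k x) {m : ℕ}
    (hm : max (canDeg k F + 1) 0 < m) (v : Fin m → F) :
    ∃ c : Fin m → k, c ≠ 0 ∧ ∑ i, algebraMap k F (c i) * v i ∈ BB (k := k) x ⊔ BI (k := k) x := by
  classical
  obtain ⟨N, hN⟩ : ∃ N, N = BB (k := k) x ⊔ BI (k := k) x := ⟨_, rfl⟩
  rw [← hN]
  by_contra hcon
  push Not at hcon
  have hli : LinearIndependent k fun i => N.mkQ (v i) := by
    rw [Fintype.linearIndependent_iff]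
    intro c hc i
    by_contra hci
    refine hcon c (fun h0 => hci (by rw [h0]; rfl)) ?_
    rw [← Submodule.ker_mkQ N, LinearMap.mem_ker, map_sum]
    rw [← hc]
    refine Finset.sum_congr rfl fun j _ => ?_
    rw [← Algebra.smul_def, map_smul]
  -- the dual functionals
  have hdual : ∀ i : Fin m, ∃ φ : (F ⧸ N) →ₗ[k] k, ∀ j, φ (N.mkQ (v j)) = if j = i then 1 else 0 := by
    intro i
    obtain ⟨φ, hφ⟩ := LinearMap.exists_extend ((Finsupp.lapply i : (Fin m →₀ k) →ₗ[k] k).comp
      (hli.repr : _ →ₗ[k] (Fin m →₀ k)))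
    refine ⟨φ, fun j => ?_⟩
    have h1 : N.mkQ (v j) ∈ Submodule.span k (Set.range fun i => N.mkQ (v i)) :=
      Submodule.subset_span ⟨j, rfl⟩
    have h2 := congrArg (fun ψ => ψ ⟨N.mkQ (v j), h1⟩) hφ
    simp only [LinearMap.comp_apply, Submodule.subtype_apply] at h2
    rw [h2]
    have h3 : hli.repr ⟨N.mkQ (v j), h1⟩ = Finsupp.single j 1 :=
      hli.repr_eq_single j ⟨N.mkQ (v j), h1⟩ rfl
    rw [h3]
    change (Finsupp.single j (1 : k)) i = _
    rw [Finsupp.single_apply]
  choose φ hφ using hdual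
  obtain ⟨lam, hlam⟩ : ∃ lam : Fin m → F →ₗ[k] k, ∀ i, lam i = (φ i).comp N.mkQ :=
    ⟨_, fun _ => rfl⟩
  have hlv : ∀ i j, lam i (v j) = if j = i then 1 else 0 := fun i j => by
    rw [hlam]; exact hφ i j
  have hker : ∀ i, ∀ y ∈ N, lam i y = 0 := by
    intro i y hy
    rw [hlam, LinearMap.comp_apply]
    have h1 : N.mkQ y = 0 := by
      rw [← LinearMap.mem_ker, Submodule.ker_mkQ]
      exact hy
    rw [h1, map_zero]
  have hlB : ∀ i, ∀ y ∈ BB (k := k) x, lam i y = 0 := fun i y hy =>
    hker i y (by rw [hN]; exact Submodule.mem_sup_left hy)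
  have hlI : ∀ i, ∀ y ∈ BI (k := k) x, lam i y = 0 := fun i y hy =>
    hker i y (by rw [hN]; exact Submodule.mem_sup_right hy)
  have hne : ∀ i, lam i ≠ 0 := by
    intro i h0
    have h1 := hlv i i
    rw [h0, if_pos rfl, LinearMap.zero_apply] at h1
    exact zero_ne_one h1
  obtain ⟨D, hD1⟩ : ∃ D : Derivation k F F, D x = 1 := by
    obtain ⟨δ0, hδ0⟩ := Pool.Agent.W603.LV.exists_der (k := k) (K := F)
    have h0 := der_ne_zero hδ0 hx
    refine ⟨(δ0 x)⁻¹ • δ0, ?_⟩
    rw [Derivation.coe_smul, Pi.smul_apply, smul_eq_mul, inv_mul_cancel₀ h0]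
  have hD : D ≠ 0 := by
    rintro rfl
    simp at hD1
  choose f hf0 hf using fun i => exists_mult (lam i) (hlI i) hx (hlB i) (hne i)
  have hfW : ∀ i, f i ∈ LL (WD D hD) := fun i =>
    mem_WD fun P => mult_regular hx D hD1 (lam i) (hlI i) (hlB i) (hf0 i) (hf i) P
  have hnli : ¬ LinearIndependent k fun i => (⟨f i, hfW i⟩ : LL (WD D hD)) := by
    intro h
    have h1 := h.fintype_card_le_finrank
    rw [Fintype.card_fin] at h1
    have h2 := ell_WD D hD
    unfold ell at h2
    omega
  rw [Fintype.not_linearIndependent_iff] at hnli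
  obtain ⟨c, hc, i0, hi0⟩ := hnli
  have hc' : ∑ i, algebraMap k F (c i) * f i = 0 := by
    have h1 := congrArg (Subtype.val : LL (WD D hD) → F) hc
    rw [AddSubmonoidClass.coe_finsetSum] at h1
    rw [← (show ((0 : LL (WD D hD)) : F) = 0 from rfl), ← h1]
    refine Finset.sum_congr rfl fun j _ => ?_
    rw [← Algebra.smul_def]
    rfl
  -- the relation of the functionals
  have hrel : ∀ y, ∑ i, c i * lam i y = 0 := by
    intro y
    have h1 : ∀ i, c i * lam i y = (iota hx (Algebra.trace k⟮x⟯ F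
        (algebraMap k F (c i) * f i * y))).coeff 1 := by
      intro i
      have h2 : algebraMap k F (c i) * f i * y =
          ((algebraMap k k⟮x⟯ (c i) : k⟮x⟯) : F) * (f i * y) := by
        change _ = algebraMap k F (c i) * (f i * y)
        ring
      rw [h2, trace_mul_left, map_mul, hf]
      have h3 : iota hx (algebraMap k k⟮x⟯ (c i)) = HahnSeries.C (c i) := by
        have h1 : algebraMap k k⟮x⟯ (c i) = px x (Polynomial.C (c i)) := by
          rw [← Polynomial.algebraMap_eq, AlgHom.commutes]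
        rw [h1, iota_px, eU_C]
      rw [h3, HahnSeries.C_mul_eq_smul, HahnSeries.coeff_smul, SS_coeff, sub_self, zpow_zero,
        one_mul, smul_eq_mul]
    rw [Finset.sum_congr rfl fun i _ => h1 i]
    have h4 : ∑ i, (iota hx (Algebra.trace k⟮x⟯ F (algebraMap k F (c i) * f i * y))).coeff 1 =
        (iota hx (Algebra.trace k⟮x⟯ F (∑ i, algebraMap k F (c i) * f i * y))).coeff 1 := by
      rw [map_sum, map_sum]
      exact (map_sum (HahnSeries.coeff.linearMap (R := k) (V := k) (Γ := ℤ) 1) _ _).symm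
    rw [h4, ← Finset.sum_mul, hc', zero_mul, map_zero, map_zero]
    rfl
  have h1 := hrel (v i0)
  simp only [hlv] at h1
  rw [Finset.sum_eq_single i0] at h1
  · rw [if_pos rfl, mul_one] at h1
    exact hi0 h1
  · intro j _ hj
    rw [if_neg (fun h => hj h.symm), mul_zero]
  · intro h
    exact absurd (Finset.mem_univ _) h

/-- Functions of small degree. -/
theorem exists_small (k F : Type) [Field k] [Field F] [Algebra k F] [CharZero k] [IsFF k F]
    [IsAlgClosed k] : ∃ t : F, Transcendental k t ∧ hgt k t ≤ max (canDeg k F + 1) 0 + 1 := by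
  classical
  obtain ⟨P, -⟩ := exists_place (k := k) (K := F)
  obtain ⟨π, hπ0, hπ⟩ := P.surj
  set x := π⁻¹ with hx
  have hx0 : x ≠ 0 := inv_ne_zero hπ0
  have hxP : P.ord x = -1 := by rw [hx, P.ord_inv, hπ]
  have hxt : Transcendental k x := P.transcendental_of_ord_ne (by omega)
  obtain ⟨S, hS, -⟩ := poles (k := k) (K := F) hxt
  have hP : P ∈ S := (hS P).2 (by omega)
  obtain ⟨m, hm⟩ : ∃ m : ℕ, (m : ℤ) = max (canDeg k F + 1) 0 + 1 :=
    ⟨(max (canDeg k F + 1) 0 + 1).toNat, Int.toNat_of_nonneg (by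
      have := le_max_right (canDeg k F + 1) 0
      omega)⟩
  choose v hv1 hv2 using fun i : Fin m => approx_one (S.erase P) P (by simp) (x ^ (i.1 + 1)) 0
  obtain ⟨c, hc0, hc⟩ := dep_of_card hxt (m := m) (by omega) v
  obtain ⟨b, hb1, hb2⟩ := lift_part hS hP hc fun Q hQ hne =>
    Ge.sum _ _ fun i _ => by
      have h1 := (Ge.const (P := Q) (c i)).mul (hv2 i Q (Finset.mem_erase.2 ⟨hne, hQ⟩))
      rwa [zero_add] at h1
  -- the principal part
  obtain ⟨p, hp⟩ : ∃ p : Polynomial F, p = ∑ i : Fin m,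
    Polynomial.C (algebraMap k F (c i)) * Polynomial.X ^ (i.1 + 1) := ⟨_, rfl⟩
  have hpe : p.eval x = ∑ i, algebraMap k F (c i) * x ^ (i.1 + 1) := by
    rw [hp, Polynomial.eval_finsetSum]
    refine Finset.sum_congr rfl fun i _ => ?_
    rw [Polynomial.eval_mul, Polynomial.eval_C, Polynomial.eval_pow, Polynomial.eval_X]
  have hpc : ∀ i : Fin m, p.coeff (i.1 + 1) = algebraMap k F (c i) := by
    intro i
    rw [hp, Polynomial.finsetSum_coeff, Finset.sum_eq_single i]
    · rw [Polynomial.coeff_C_mul, Polynomial.coeff_X_pow, if_pos rfl, mul_one]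
    · intro j _ hj
      rw [Polynomial.coeff_C_mul, Polynomial.coeff_X_pow, if_neg, mul_zero]
      intro h
      exact hj (Fin.ext (by omega))
    · intro h
      exact absurd (Finset.mem_univ _) h
  have hp0 : p ≠ 0 := by
    obtain ⟨i, hi⟩ := Function.ne_iff.1 hc0
    intro h0
    have h1 := hpc i
    rw [h0, Polynomial.coeff_zero] at h1
    exact hi ((map_eq_zero _).1 h1.symm)
  have hpP : PGe P 0 p := by
    rw [hp]
    refine PGe.sum _ _ fun i _ => ?_
    have h1 := (PGe.C (Ge.const (P := P) (c i))).mul ((PGe.X (P := P)).pow (i.1 + 1))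
    rw [mul_zero, add_zero] at h1
    exact h1
  have hpd : p.natDegree ≤ m := by
    rw [hp]
    refine Polynomial.natDegree_sum_le_of_forall_le _ _ fun i _ => ?_
    refine (Polynomial.natDegree_C_mul_X_pow_le _ _).trans ?_
    exact i.2
  have hp1 : 1 ≤ p.natDegree := by
    by_contra hcon
    have h1 : p = Polynomial.C (p.coeff 0) := Polynomial.eq_C_of_natDegree_le_zero (by omega)
    have h2 : p.coeff 0 = 0 := by
      rw [hp, Polynomial.finsetSum_coeff]
      refine Finset.sum_eq_zero fun i _ => ?_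
      rw [Polynomial.coeff_C_mul, Polynomial.coeff_X_pow, if_neg (by omega), mul_zero]
    rw [h2, Polynomial.C_0] at h1
    exact hp0 h1
  have hlc0 : p.leadingCoeff ≠ 0 := Polynomial.leadingCoeff_ne_zero.2 hp0
  have hlc : P.ord p.leadingCoeff = 0 := by
    obtain ⟨j, hj⟩ : ∃ j : Fin m, j.1 + 1 = p.natDegree := ⟨⟨p.natDegree - 1, by omega⟩, by
      dsimp only
      omega⟩
    have h1 : p.leadingCoeff = algebraMap k F (c j) := by
      rw [← hpc j, hj]
      rfl
    rw [h1] at hlc0 ⊢
    exact P.ord_const fun h => hlc0 (by rw [h, map_zero])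
  obtain ⟨hq0, hq⟩ := dom hp0 hpP (z := x) (by rw [hlc, hxP]; norm_num)
  rw [hlc, hxP] at hq
  have hbp : Ge P 0 (b - p.eval x) := by
    have h1 : b - p.eval x = (b - ∑ i, algebraMap k F (c i) * v i) +
        ∑ i, algebraMap k F (c i) * (v i - x ^ (i.1 + 1)) := by
      rw [hpe]
      simp only [mul_sub, Finset.sum_sub_distrib]
      ring
    rw [h1]
    refine hb1.add (Ge.sum _ _ fun i _ => ?_)
    have h2 := (Ge.const (P := P) (c i)).mul (hv1 i)
    rwa [zero_add] at h2
  have hbo : b ≠ 0 ∧ P.ord b = -p.natDegree := by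
    by_cases h3 : b - p.eval x = 0
    · rw [sub_eq_zero.1 h3]
      exact ⟨hq0, by omega⟩
    · have h4 := hbp.resolve_left h3
      have h5 := P.ord_add_eq (f := p.eval x) (g := b - p.eval x) hq0 h3 (by omega)
      rw [add_sub_cancel] at h5
      exact ⟨h5.1, by rw [h5.2, hq]; omega⟩
  refine ⟨b, P.transcendental_of_ord_ne (by omega), ?_⟩
  have h1 : hgt k b = max (-P.ord b) 0 := by
    unfold hgt
    refine finsum_eq_single _ P fun Q hQ => ?_
    have h2 := (hb2 Q hQ).resolve_left hbo.1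
    exact max_eq_right (by omega)
  rw [h1, hbo.2, ← hm]
  refine max_le ?_ (by omega)
  omega

end

end Pool.Agent.Y741
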