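import Pool.Agent.Y741.UCurve2
import Pool.Agent.Y741.USmall

/-!
Maps from the multiplicative group to generic pairs: power maps.
-/

set_option autoImplicit false

open MvPolynomial FF Pool.Agent.W603.LV Pool.Agent.W603.PV Pool.Agent.TH145.GH
open Pool.Agent.TH145.GC (Cf finite_cf)
open Pool.Agent.W602.GT Pool.Agent.TH145.MG

namespace Pool.Agent.Y741

section

variable {k L : Type} [Field k] [Field L] [Algebra k L] [CharZero k] [IsFF k L] [IsAlgClosed k]

theorem neg_ord_le_hgt_u (P : Place k L) (f : L) : -P.ord f ≤ hgt k f := by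
  classical
  by_cases h0 : P.ord f = 0
  · rw [h0, neg_zero]; exact hgt_nonneg _
  obtain ⟨T, hT⟩ := exists_supp (k := k) (Finset.univ : Finset (Fin 1)) ![f]
  have h1 : ∀ P : Place k L, P.ord f ≠ 0 → P ∈ T := fun P hP => hT 0 (Finset.mem_univ _) P hP
  rw [hgt_finset f T h1]
  refine (le_max_left _ 0).trans (Finset.single_le_sum (f := fun P : Place k L => max (-P.ord f) 0)
    (fun _ _ => le_max_right _ _) (h1 P h0))

theorem ord_le_hgt_u (P : Place k L) (f : L) : P.ord f ≤ hgt k f := by
  by_cases hf : f = 0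
  · rw [hf, P.ord_zero]; exact hgt_nonneg _
  have h1 := neg_ord_le_hgt_u P f⁻¹
  rw [hgt_inv, P.ord_inv] at h1
  linarith

theorem hgt_sub_const (f : L) (c : k) : hgt k (f - algebraMap k L c) = hgt k f := by
  classical
  unfold hgt
  refine finsum_congr fun P => ?_
  rcases lt_or_ge (P.ord f) 0 with h | h
  · have hf0 : f ≠ 0 := by
      rintro rfl
      rw [P.ord_zero] at h; omega
    have h1 : P.ord (f - algebraMap k L c) = P.ord f := by
      rw [sub_eq_add_neg, ← map_neg]
      by_cases hc : -c = 0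
      · rw [hc, map_zero, add_zero]
      · have h2 : P.ord (algebraMap k L (-c)) = 0 := P.ord_const hc
        have h3 : P.ord f < P.ord (algebraMap k L (-c)) := by rw [h2]; exact h
        exact (P.ord_add_eq hf0 ((_root_.map_ne_zero _).2 hc) h3).2
    rw [h1]
  · have h2 : Ge P 0 (f - algebraMap k L c) := Ge.sub (P := P) (Or.inr h : Ge P 0 f) (Ge.const c)
    rcases h2 with h2 | h2
    · rw [h2, P.ord_zero]
      rw [max_eq_right (by omega), max_eq_right (by omega)]
    · rw [max_eq_right (by omega), max_eq_right (by omega)]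


/-- A coordinate of the projective line with zeros and poles at given places. -/
theorem exists_u {t : L} (ht : Transcendental k t) (h1 : hgt k t ≤ 1) (S : Finset (Place k L))
    (hS : S.card ≤ 2) : ∃ u : L, Transcendental k u ∧ hgt k u ≤ 1 ∧ ∀ P ∈ S, P.ord u ≠ 0 := by
  classical
  have htr : ∀ {s : L} (c : k), Transcendental k s → Transcendental k (s - algebraMap k L c) := by
    intro s c hs h
    apply hs
    have h2 := h.add (isAlgebraic_algebraMap (A := L) c)
    rwa [sub_add_cancel] at h2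
  rcases S.eq_empty_or_nonempty with rfl | ⟨P2, hP2⟩
  · exact ⟨t, ht, h1, fun P hP => absurd hP (Finset.notMem_empty _)⟩
  obtain ⟨s, hs, hs1, hsP⟩ : ∃ s : L, Transcendental k s ∧ hgt k s ≤ 1 ∧ P2.ord s < 0 := by
    rcases lt_or_ge (P2.ord t) 0 with h | h
    · exact ⟨t, ht, h1, h⟩
    · obtain ⟨c, hc⟩ := exists_const P2 (Or.inr h : Ge P2 0 t)
      have h2 := htr c ht
      have h3 : t - algebraMap k L c ≠ 0 := fun h0 => h2 (h0 ▸ isAlgebraic_zero)
      refine ⟨(t - algebraMap k L c)⁻¹, fun h => h2 (by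
        have := h.inv
        rwa [inv_inv] at this), by rw [hgt_inv, hgt_sub_const]; exact h1, ?_⟩
      rw [P2.ord_inv]
      have := hc.resolve_left h3
      omega
  rcases (S.erase P2).eq_empty_or_nonempty with h | ⟨P1, hP1⟩
  · refine ⟨s, hs, hs1, fun P hP => ?_⟩
    by_cases hPP : P = P2
    · rw [hPP]; exact hsP.ne
    · exact absurd (Finset.mem_erase.2 ⟨hPP, hP⟩) (by rw [h]; exact Finset.notMem_empty _)
  have hcov : ∀ P ∈ S, P = P2 ∨ P = P1 := by
    intro P hP
    by_contra hcon
    push Not at hcon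
    obtain ⟨hne, hP1S⟩ := Finset.mem_erase.1 hP1
    have h3 : ({P2, P1, P} : Finset (Place k L)) ⊆ S := by
      intro Q hQ
      simp only [Finset.mem_insert, Finset.mem_singleton] at hQ
      rcases hQ with rfl | rfl | rfl
      · exact hP2
      · exact hP1S
      · exact hP
    have h4 := Finset.card_le_card h3
    rw [Finset.card_eq_three.2 ⟨P2, P1, P, hne.symm, hcon.1.symm, hcon.2.symm, rfl⟩] at h4
    omega
  rcases lt_or_ge (P1.ord s) 0 with h | h
  · refine ⟨s, hs, hs1, fun P hP => ?_⟩
    rcases hcov P hP with rfl | rfl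
    · exact hsP.ne
    · exact h.ne
  · obtain ⟨c, hc⟩ := exists_const P1 (Or.inr h : Ge P1 0 s)
    have h2 := htr c hs
    have h3 : s - algebraMap k L c ≠ 0 := fun h0 => h2 (h0 ▸ isAlgebraic_zero)
    refine ⟨s - algebraMap k L c, h2, by rw [hgt_sub_const]; exact hs1, fun P hP => ?_⟩
    rcases hcov P hP with rfl | rfl
    · intro h0
      have h4 : Ge P 0 s := by
        have h5 : Ge P 0 (s - algebraMap k L c) := Or.inr h0.ge
        have h6 := h5.add (Ge.const (P := P) c)
        rwa [sub_add_cancel] at h6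
      rcases h4 with h4 | h4
      · exact hs (h4 ▸ isAlgebraic_zero)
      · omega
    · have := hc.resolve_left h3
      omega

/-- The canonical degree of the projective line is not positive. -/
theorem canDeg_le_zero {t : L} (ht : Transcendental k t) (h1 : hgt k t ≤ 1) : canDeg k L ≤ 0 := by
  classical
  obtain ⟨δ, hδt⟩ : ∃ δ : Derivation k L L, δ t = 1 := by
    obtain ⟨δ0, hδ0⟩ := Pool.Agent.W603.LV.exists_der (k := k) (K := L)
    have h0 := der_ne_zero hδ0 ht
    refine ⟨(δ0 t)⁻¹ • δ0, ?_⟩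
    rw [Derivation.coe_smul, Pi.smul_apply, smul_eq_mul, inv_mul_cancel₀ h0]
  have hδ : δ ≠ 0 := by
    rintro rfl
    simp at hδt
  have h3 := canDeg_finset hδ (vo_finite hδ).toFinset (fun P hP => by simp [hP])
  have h3' : canDeg k L = - ∑ P ∈ (vo_finite hδ).toFinset, vo P δ := by rw [h3, neg_neg]
  rw [h3', neg_nonpos]
  refine Finset.sum_nonneg fun P _ => ?_
  by_cases hP : P.ord t < 0
  · have h5 := (ord_der P hδ hP.ne).2
    rw [hδt, P.ord_one] at h5
    omega
  · push Not at hP
    obtain ⟨c, hc⟩ := exists_const P (Or.inr hP : Ge P 0 t)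
    have h6 : t - algebraMap k L c ≠ 0 := by
      intro h
      rw [sub_eq_zero] at h
      exact ht (h ▸ isAlgebraic_algebraMap c)
    have h7 := hc.resolve_left h6
    have h8 := (ord_der P hδ (f := t - algebraMap k L c) (by omega)).2
    rw [map_sub, hδt, Derivation.map_algebraMap, sub_zero, P.ord_one] at h8
    have h9 := ord_le_hgt_u P (t - algebraMap k L c)
    rw [hgt_sub_const] at h9
    omega

/-- The number of zeros and poles. -/
theorem card_supp_le (v : L) : ({P : Place k L | P.ord v ≠ 0}.ncard : ℤ) ≤ 2 * hgt k v := by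
  classical
  have hfin : {P : Place k L | P.ord v ≠ 0}.Finite := finite_support (k := k) v
  have h1 := card_poles (k := k) (Finset.univ : Finset (Fin 2)) ![v, v⁻¹] hfin.toFinset (by
    intro P hP
    rw [Set.Finite.mem_toFinset] at hP
    rcases lt_or_gt_of_ne hP with h | h
    · exact ⟨0, Finset.mem_univ _, h⟩
    · refine ⟨1, Finset.mem_univ _, ?_⟩
      change P.ord v⁻¹ < 0
      rw [P.ord_inv]
      omega)
  rw [← Set.ncard_eq_toFinset_card _ hfin, Fin.sum_univ_two] at h1
  simp only [Matrix.cons_val_zero, Matrix.cons_val_one] at h1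
  rw [hgt_inv] at h1
  linarith

/-- Roots of a coordinate of the projective line. -/
theorem exists_root (Ω : Type) [Field Ω] [Algebra L Ω] [IsAlgClosed Ω] [Algebra k Ω]
    [IsScalarTower k L Ω] {m : ℕ} (hm : 1 ≤ m)
    {u : L} (hu : Transcendental k u) (h1 : hgt k u ≤ 1) :
    ∃ (E : IntermediateField L Ω) (_ : FiniteDimensional L E) (_ : IsFF k E) (v : E),
      v ^ m = algebraMap L E u ∧ hgt k v ≤ 1 ∧ Transcendental k v ∧
      m ≤ Module.finrank L E := by
  classical
  obtain ⟨v0, hv0⟩ := IsAlgClosed.exists_pow_nat_eq (algebraMap L Ω u) (n := m) (by omega)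
  obtain ⟨p, hp⟩ : ∃ p : Polynomial L, p = Polynomial.X ^ m - Polynomial.C u := ⟨_, rfl⟩
  have hpm : p.Monic := by rw [hp]; exact Polynomial.monic_X_pow_sub_C u (by omega)
  have hpv : Polynomial.aeval v0 p = 0 := by
    rw [hp, map_sub, map_pow, Polynomial.aeval_X, Polynomial.aeval_C, hv0, sub_self]
  have hint : IsIntegral L v0 := ⟨p, hpm, hpv⟩
  obtain ⟨E, hE⟩ : ∃ E : IntermediateField L Ω, E = IntermediateField.adjoin L {v0} := ⟨_, rfl⟩
  have hfd : FiniteDimensional L E := by
    rw [hE]; exact IntermediateField.adjoin.finiteDimensional hint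
  have hrk : Module.finrank L E ≤ m := by
    rw [hE, IntermediateField.adjoin.finrank hint]
    have h2 := Polynomial.natDegree_le_of_dvd (minpoly.dvd L v0 hpv) hpm.ne_zero
    rwa [hp, Polynomial.natDegree_X_pow_sub_C] at h2
  have hFFE : IsFF k E := isFF_of_finite (F := L)
  have hv0E : v0 ∈ E := by rw [hE]; exact IntermediateField.mem_adjoin_simple_self L v0
  obtain ⟨v, hv⟩ : ∃ v : E, v = ⟨v0, hv0E⟩ := ⟨_, rfl⟩
  have hvm : v ^ m = algebraMap L E u := by
    apply Subtype.ext
    rw [hv]
    exact hv0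
  have hutr : Transcendental k (algebraMap L E u) :=
    (transcendental_algebraMap_iff (algebraMap L E).injective).2 hu
  have hvtr : Transcendental k v := by
    intro h
    apply hutr
    rw [← hvm]
    exact h.pow m
  have hvne : v ≠ 0 := fun h0 => hvtr (h0 ▸ isAlgebraic_zero)
  have h2 : (m : ℤ) * hgt k v = Module.finrank L E * hgt k u := by
    rw [← hgt_pow hvne, hvm, hgt_algebraMap]
  have h3 : 1 ≤ hgt k v := by
    by_contra hcon
    obtain ⟨c, hc⟩ := const_of_hgt (k := k) (f := v) (by omega)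
    exact hvtr (hc ▸ isAlgebraic_algebraMap c)
  have h3u : 1 ≤ hgt k u := by
    by_contra hcon
    obtain ⟨c, hc⟩ := const_of_hgt (k := k) (f := u) (by omega)
    exact hu (hc ▸ isAlgebraic_algebraMap c)
  have h4 : hgt k u = 1 := le_antisymm h1 h3u
  rw [h4, mul_one] at h2
  have h5 : (Module.finrank L E : ℤ) ≤ m := by exact_mod_cast hrk
  have hm' : (1 : ℤ) ≤ m := by exact_mod_cast hm
  refine ⟨E, hfd, hFFE, v, hvm, ?_, hvtr, ?_⟩
  · nlinarith
  · have h6 : (m : ℤ) ≤ Module.finrank L E := by nlinarith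
    exact_mod_cast h6

end

end Pool.Agent.Y741
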