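import Pool.Agent.Y741.USolve

/-!
The theorem of Mason with slowly moving targets: uniform constants.
-/

set_option autoImplicit false

open Polynomial FF Pool.Agent.W603.LV Pool.Agent.W603.PV
open Pool.Agent.TH145.MW (hgt_mul_le hgt_neg hgt_add_le)
open Pool.Agent.TH145.GH (Sem exists_loss loss_all)

namespace Pool.Agent.Y741

/-- The theorem of Mason. -/
theorem mason_u {r : ℕ} (hr : 3 ≤ r) :
    ∃ C : ℤ, 0 ≤ C ∧ ∀ (κ L : Type) [Field κ] [Field L] [Algebra κ L] [CharZero κ] [IsFF κ L]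
      [IsAlgClosed κ] (D : Derivation κ L L) (e : Place κ L → ℤ) (E : ℤ), D ≠ 0 → Loc e E →
      (∀ P f, Ge P 0 f → Ge P (-e P) (D f)) →
      ∀ (χ : L[X]) (ζ : L) (c : Place κ L → ℤ) (H : ℤ), χ.Monic →
      χ.natDegree = r → IsCoprime χ (derivative χ) → Loc c H → (∀ P, PGe P (-c P) χ) →
      χ.eval ζ ≠ 0 → (∀ P, c P = 0 → P.ord (χ.eval ζ) ≤ r * min (P.ord ζ) 0) →
      hgt κ ζ ≤ C * (H + E) := by
  classical
  obtain ⟨Cs, hCs0, hCs⟩ := solve_u r (by omega)
  refine ⟨(2 * r + 3) * (1 + 8 * ((r + 1) * Cs)) + 10 * (r + 1), by positivity,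
    fun κ L _ _ _ _ _ _ D e E hD hLe he χ ζ c H hm hdeg hcop hLc hχc hne hint => ?_⟩
  have he0 := hLe.nonneg
  have hloss0 : ∀ P f, Ge P 0 f → Ge P (-e P) (D f) := he
  have hloss : ∀ P f, f ≠ 0 → Ge P (P.ord f - (e P + 1)) (D f) := fun P f hf =>
    loss_all P (D := D.restrictScalars ℤ) (he P) hf
  have hE0 : 0 ≤ E := hLe.B_nonneg
  have hH0 : 0 ≤ H := hLc.B_nonneg
  have hχH : ∀ i, hgt κ (χ.coeff i) ≤ H := fun i => hgt_le_of_loc hLc fun P => hχc P i
  obtain ⟨χD, hχD⟩ : ∃ χD : L[X], ∀ i, χD.coeff i = D (χ.coeff i) := by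
    let _ : Differential L := ⟨D.restrictScalars ℤ⟩
    exact ⟨Differential.mapCoeffs χ, fun i => Differential.coeff_mapCoeffs χ i⟩
  have hχDH : ∀ i, hgt κ (χD.coeff i) ≤ 2 * H + E := by
    intro i
    refine hgt_le_of_loc ((hLc.mul (m := 2) (by norm_num)).add hLe) fun P => ?_
    rw [hχD]
    refine (ge_der_zeta (hloss P) (hloss0 P) (χ.coeff i)).mono ?_
    have h1 : -c P ≤ min (P.ord (χ.coeff i)) 0 := by
      have h2 := hLc.nonneg P
      rcases hχc P i with h3 | h3
      · rw [h3, P.ord_zero, min_self]; omega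
      · exact le_min h3 (by omega)
    linarith
  have hdegree : χ.degree = r := by rw [degree_eq_natDegree hm.ne_zero, hdeg]
  have h1d : (1 : L[X]).degree < (2 * r : ℕ) := by
    rw [degree_one]
    exact_mod_cast (by omega : 0 < 2 * r)
  have hDd : χD.degree < (2 * r : ℕ) := by
    rw [degree_lt_iff_coeff_zero]
    intro m hm2
    rw [hχD, coeff_eq_zero_of_natDegree_lt (by omega), map_zero]
  have h1H : ∀ i, hgt κ ((1 : L[X]).coeff i) ≤ 2 * H + E := by
    intro i
    rw [coeff_one]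
    split_ifs
    · rw [hgt_one]; omega
    · rw [hgt_zero]; omega
  have hχH' : ∀ i, hgt κ (χ.coeff i) ≤ 2 * H + E := fun i => (hχH i).trans (by omega)
  obtain ⟨u, v, huv, hud, hvd, huH, hvH⟩ := hCs κ L χ 1 (2 * H + E) (by omega) hdegree hcop h1d hχH' h1H
  obtain ⟨a, b, hab, had, hbd, haH, hbH⟩ :=
    hCs κ L χ χD (2 * H + E) (by omega) hdegree hcop hDd hχH' hχDH
  have hnd : ∀ f : L[X], f.degree < r → f.natDegree ≤ r - 1 := by
    intro f hf
    rw [natDegree_le_iff_coeff_eq_zero]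
    intro N hN
    exact (degree_lt_iff_coeff_zero _ _).1 hf N (by omega)
  have hlp : ∀ f : L[X], f.degree < r → (∀ i, hgt κ (f.coeff i) ≤ Cs * (2 * H + E)) →
      ∃ c : Place κ L → ℤ, Loc c ((r + 1) * (Cs * (2 * H + E))) ∧ ∀ P, PGe P (-c P) f := by
    intro f hf hfH
    obtain ⟨c, hc, h⟩ := exists_loc_poly f hfH
    refine ⟨c, hc.mono ?_, h⟩
    refine mul_le_mul_of_nonneg_right ?_ (by positivity)
    have := hnd f hf
    push_cast
    have h2 : (f.natDegree : ℤ) ≤ r := by exact_mod_cast (by omega : f.natDegree ≤ r)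
    linarith
  obtain ⟨cu, hLu, hcu⟩ := hlp u hud huH
  obtain ⟨cv, hLv, hcv⟩ := hlp v hvd hvH
  obtain ⟨ca, hLa, hca⟩ := hlp a had haH
  obtain ⟨cb, hLb, hcb⟩ := hlp b hbd hbH
  obtain ⟨c1, hc1⟩ : ∃ c1 : Place κ L → ℤ, ∀ P, c1 P = c P + e P + (cu P + cv P + (ca P + cb P)) :=
    ⟨_, fun _ => rfl⟩
  obtain ⟨B1, hB1⟩ : ∃ B1, B1 = H + E + 4 * ((r + 1) * (Cs * (2 * H + E))) := ⟨_, rfl⟩
  have hL1 : Loc c1 B1 := by
    have h1 := ((hLc.add hLe).add ((hLu.add hLv).add (hLa.add hLb))).mono (B' := B1) (by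
      rw [hB1]; linarith)
    have h2 : c1 = fun P => c P + e P + (cu P + cv P + (ca P + cb P)) := funext hc1
    rw [h2]
    exact h1
  have hCr : 0 ≤ (r + 1 : ℤ) * Cs := by positivity
  have hB1' : B1 ≤ (1 + 8 * ((r + 1) * Cs)) * (H + E) := by
    rw [hB1]
    nlinarith
  have hle : ∀ P, c P ≤ c1 P ∧ e P ≤ c1 P ∧ cu P ≤ c1 P ∧ cv P ≤ c1 P ∧ ca P ≤ c1 P ∧
      cb P ≤ c1 P := by
    intro P
    have h1 := hLc.nonneg P
    have h2 := hLe.nonneg P
    have h3 := hLu.nonneg P
    have h4 := hLv.nonneg P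
    have h5 := hLa.nonneg P
    have h6 := hLb.nonneg P
    have h7 := hc1 P
    refine ⟨?_, ?_, ?_, ?_, ?_, ?_⟩ <;> omega
  have hB10 : 0 ≤ B1 := hL1.B_nonneg
  have hr0 : (0 : ℤ) ≤ r := by positivity
  by_cases hE' : D ζ + b.eval ζ = 0
  · rcases le_or_gt b.natDegree 2 with ht | ht
    · have h1 := riccati hD hr hm hdeg hcop hχD hab ht hE' hne hχH
      refine h1.trans ?_
      have h2 : 0 ≤ (2 * r + 3) * (1 + 8 * ((r + 1) * Cs)) * (H + E) := by
        positivity
      nlinarith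
    · -- the degree is large
      have hb0 : b ≠ 0 := by
        rintro rfl
        rw [natDegree_zero] at ht
        omega
      have h1 : hgt κ ζ ≤ B1 := by
        refine hgt_le_of_ord hL1 b.leadingCoeff fun P => ?_
        have hbP : PGe P (-c1 P) b := (hcb P).mono (by have := hle P; omega)
        have hlcP := (hbP b.natDegree).resolve_left (leadingCoeff_ne_zero.2 hb0)
        have hlcP' : -c1 P ≤ P.ord b.leadingCoeff := hlcP
        refine max_le ?_ (by omega)
        by_contra hcon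
        push Not at hcon
        obtain ⟨h2, h3⟩ := dom hb0 hbP (z := ζ) (by omega)
        have hζ0 : ζ ≠ 0 := by
          rintro rfl
          rw [P.ord_zero] at hcon
          omega
        have h4 := hloss P ζ hζ0
        have h5 : D ζ = - b.eval ζ := eq_neg_of_add_eq_zero_left hE'
        rw [h5] at h4
        have h6 := h4.resolve_left (neg_ne_zero.2 h2)
        rw [P.ord_neg, h3] at h6
        have h7 := (hle P).2.1
        have h8 : (3 : ℤ) ≤ b.natDegree := by exact_mod_cast ht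
        have h9 : P.ord ζ < 0 := by omega
        nlinarith
      refine h1.trans (hB1'.trans ?_)
      have h2 : 0 ≤ (1 + 8 * ((r + 1) * Cs)) * (H + E) := by positivity
      nlinarith
  · have h1 : hgt κ ζ ≤ (2 * r + 3) * B1 := by
      refine hgt_le_of_ord (hL1.mul (m := 2 * r + 3) (by positivity))
        ((D ζ + b.eval ζ) / χ.eval ζ) fun P => ?_
      have h2 := mason_local (P := P) (c := c1 P) (he0 P) (hle P).2.1 hr (hloss P) (hloss0 P)
        ((hχc P).mono (by have := hle P; omega)) ((hcu P).mono (by have := hle P; omega))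
        ((hcv P).mono (by have := hle P; omega)) ((hca P).mono (by have := hle P; omega))
        ((hcb P).mono (by have := hle P; omega)) ((hnd u hud).trans (by omega))
        ((hnd v hvd).trans (by omega)) ((hnd a had).trans (by omega)) (hnd b hbd) huv hχD hab hm
        hdeg hne (fun h => hint P (by have := hle P; have := hLc.nonneg P; omega)) hE'
      rw [P.ord_div hE' hne]
      have h3 : max (-P.ord ζ) 0 = - min (P.ord ζ) 0 := by
        rw [← max_neg_neg, neg_zero]
      rw [h3]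
      linarith
    refine h1.trans ?_
    have h2 : (2 * r + 3) * B1 ≤ (2 * r + 3) *
        ((1 + 8 * ((r + 1) * Cs)) * (H + E)) :=
      mul_le_mul_of_nonneg_left hB1' (by positivity)
    have h3 : 0 ≤ 10 * ((r : ℤ) + 1) * (H + E) := by positivity
    nlinarith

end Pool.Agent.Y741
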