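import Pool.Agent.Y741.ULine
import Pool.Agent.Y741.KFin

/-!
The heights of the points of generic pairs: uniform constants.
-/

set_option autoImplicit false

open MvPolynomial FF Pool.Agent.W603.LV Pool.Agent.W603.PV Pool.Agent.W602.RG Pool.Agent.TH145.GH
open Pool.Agent.Y735 (rho eval_rho rho_X pl fht rho_deg fht_nonneg)

namespace Pool.Agent.Y741

theorem DataL.mono' {κ L : Type} [Field κ] [Field L] [Algebra κ L] {n : ℕ} {A : Type}
    {F : Fam L n A} {dg : A → ℕ} {D : A → (Fin (n + 1) →₀ ℕ) → Derivation ℤ L L}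
    {e g s : Place κ L → ℤ} (h : DataL κ F dg D e g) (hs : ∀ P, 0 ≤ s P)
    (hf : {P | s P ≠ 0}.Finite) : DataL κ F dg D (fun P => e P + s P) g := by
  refine ⟨h.pos, h.hom, h.dual, fun P => add_nonneg (h.e_nonneg P) (hs P), h.g_nonneg,
    fun P f hP a I hI => (h.loss P f hP a I hI).mono (by have := hs P; omega), h.coef, ?_⟩
  refine (h.fin.union hf).subset fun P hP => ?_
  by_contra hcon
  simp only [Set.mem_union, Set.mem_ofPred_eq, not_or, not_not] at hcon
  rcases hP with hP | hP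
  · exact hP (by rw [hcon.1.1, hcon.2]; rfl)
  · exact hP hcon.1.2

theorem CL_le {κ L : Type} [Field κ] [Field L] [Algebra κ L] (n : ℕ) (A : Type) [Fintype A]
    {e g : Place κ L → ℤ} {E G : ℤ} (he : Loc e E) (hg : Loc g G) :
    CL n A e g ≤ (n + 1 + Fintype.card A) * (E + G) := by
  have h := (he.add hg).mul (m := (n + 1 + Fintype.card A : ℤ)) (by positivity)
  exact h.le

/-- The heights of the points of generic pairs. -/
theorem uni_pairs (n : ℕ) (A : Type) [Fintype A] [DecidableEq A] (dg : A → ℕ) (hn : 1 ≤ n)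
    (C : Finset A) (hd : 3 * n + 3 ≤ 2 * ∑ a, dg a + C.card) :
    ∃ c : ℤ, 0 ≤ c ∧ ∀ (κ L Ω : Type) [Field κ] [Field L] [Field Ω] [Algebra κ L] [Algebra L Ω]
      [IsAlgClosed κ] [CharZero κ] [IsFF κ L] [IsAlgClosed Ω] (D0 : Derivation κ L L)
      (e0 : Place κ L → ℤ) (E0 : ℤ), D0 ≠ 0 → Loc e0 E0 →
      (∀ P f, Ge P 0 f → Ge P (-e0 P) (D0 f)) →
      ∀ (F : Fam L n A) (D : A → (Fin (n + 1) →₀ ℕ) → Derivation ℤ L L) (e g : Place κ L → ℤ)
      (E G : ℤ), DataL κ F dg D e g → Comm D → Loc e E → Loc g G →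
      ∀ (s : Place κ L → ℤ) (S : ℤ), Loc s S → ∀ x : Fin (n + 1) → L, x ≠ 0 →
      (∀ c ∈ C, eval x (F c) = 0) → (∀ b, b ∉ C → eval x (F b) ≠ 0) →
      (∀ P, s P = 0 → ∀ b, b ∉ C → P.ord (eval x (F b)) ≤ dg b * pord P x) →
      ¬ Exc 2 (mapF (algebraMap L Ω) F) C (fun j => algebraMap L Ω (x j)) →
      pht κ x ≤ c * (E + G + S + E0) := by
  classical
  obtain ⟨cM, hcM0, hcM⟩ := lineM_u n A dg C
  obtain ⟨S0, hS0⟩ : ∃ S0 : ℤ, S0 = ((∑ a, dg a : ℕ) : ℤ) := ⟨_, rfl⟩
  have hS00 : 0 ≤ S0 := by rw [hS0]; positivity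
  obtain ⟨m, hm⟩ : ∃ m : ℤ, m = n + 1 + Fintype.card A := ⟨_, rfl⟩
  have hm0 : 0 ≤ m := by rw [hm]; positivity
  refine ⟨((S0 + 1) * m + (S0 + 1)) + cM * (m + 1), by positivity, ?_⟩
  intro κ L Ω _ _ _ _ _ _ _ _ _ D0 e0 E0 hD0 hLe0 he0 F D e g E G hdat hcm hLe hLg s S hLs x hx0
    hxC hxb hint hexc
  have hczL : CharZero L := charZero_of_injective_algebraMap (algebraMap κ L).injective
  have hE := hLe.B_nonneg
  have hG := hLg.B_nonneg
  have hS := hLs.B_nonneg
  have hE0 := hLe0.B_nonneg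
  obtain ⟨T, hT⟩ : ∃ T, T = E + G + S + E0 := ⟨_, rfl⟩
  rw [← hT]
  have hT0 : 0 ≤ T := by rw [hT]; positivity
  have hexc' : ∀ (y : Fin (n + 1) → L) (ik : Fin (n + 1) × Fin (n + 1)),
      pl x y ik ≠ 0 → OnL F C x y → ¬ Pun 2 (mapF (algebraMap L Ω) F) C
        (fun j => algebraMap L Ω (x j)) (fun j => algebraMap L Ω (y j)) := by
    intro y ik hik h1 h2
    apply hexc
    have hinf : Infinite Ω := IsAlgClosed.instInfinite
    refine ⟨_, ik, ?_, (onL_mapF _ hdat.hom hxC).2 h1, h2⟩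
    rw [pl_map]
    dsimp only
    rwa [Ne, map_eq_zero]
  have hcMT : 0 ≤ cM * (m + 1) * T := by positivity
  by_cases hC : ∃ b, b ∉ C
  · have hdat' := hdat.mono' hLs.nonneg hLs.fin
    have hLe' := hLe.add hLs
    obtain ⟨H0, hH0⟩ : ∃ H0 : ℤ, H0 = CL n A (fun P => e P + s P) g := ⟨_, rfl⟩
    have hH0T : H0 ≤ m * T := by
      rw [hH0]
      refine (CL_le n A hLe' hLg).trans ?_
      rw [← hm]
      exact mul_le_mul_of_nonneg_left (by rw [hT]; linarith) hm0
    have hH00 : 0 ≤ H0 := by rw [hH0]; exact hdat'.CL_nonneg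
    have hP : PlOK dg D (fun P => e P + s P) F C x := by
      intro P
      by_cases hsP : s P = 0
      · exact Or.inl (hint P hsP)
      · right
        intro f hf a I hI
        have h1 := loss_all P (fun f hf => hdat.loss P f hf a I hI) hf
        refine h1.mono ?_
        have := hLs.nonneg P
        have h2 : 1 ≤ s P := by omega
        dsimp only
        omega
    have hB1 : S0 * H0 + H0 + G ≤ ((S0 + 1) * m + (S0 + 1)) * T := by
      have h1 : (S0 + 1) * H0 ≤ (S0 + 1) * (m * T) :=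
        mul_le_mul_of_nonneg_left hH0T (by positivity)
      have h2 : G ≤ T := by rw [hT]; linarith
      nlinarith
    have hB2 : cM * (G + H0 + S + E0) ≤ cM * (m + 1) * T := by
      have h1 : G + H0 + S + E0 ≤ (m + 1) * T := by
        rw [hT] at hH0T ⊢
        nlinarith
      have h2 := mul_le_mul_of_nonneg_left h1 hcM0
      linarith
    have hB1' : 0 ≤ ((S0 + 1) * m + (S0 + 1)) * T := by positivity
    rcases tricho hdat.pos hdat.hom hdat.dual hcm hn hC hd hxC hxb hx0 with h | h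
    · obtain ⟨y', ik, hik, h1, h2⟩ := h
      exact absurd (pun_of_one (by norm_num) (one_mapF _ h2)) (hexc' y' ik hik h1)
    · obtain ⟨w, b, u, t, rn, y', i0, ik, hi0, hik, hV, hcase⟩ := h
      have h1 := VRD.ineq hdat' hxC hxb hi0 hik hV hP
      rw [Fintype.card_fin, Fintype.card_fin, Fintype.card_fin, ← hH0] at h1
      have h2 := pht_nonneg (k := κ) hx0
      have hp0 : pl x y' ≠ 0 := fun h0 => hik (by rw [h0]; rfl)
      have h3 : 0 ≤ fht κ (pl x y') := fht_nonneg hp0
      have hSH : 0 ≤ S0 * H0 := by positivity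
      rcases hcase with ⟨hu, ht, hSS⟩ | ⟨hSS, hut⟩
      · rw [hu, ht, Nat.cast_zero, sub_zero, zero_mul, add_zero] at h1
        have h4 : (1 : ℤ) ≤ ((∑ a, dg a : ℕ) : ℤ) - ((n + 1 + b + 0 : ℕ) : ℤ) := by omega
        nlinarith
      · have h4 : (0 : ℤ) ≤ ((∑ a, dg a : ℕ) : ℤ) - ((n + 1 + b + t : ℕ) : ℤ) := by omega
        have h5 : (1 : ℤ) ≤ (t : ℤ) - u := by omega
        have h6 := mul_nonneg h4 h2
        have h7 : fht κ (pl x y') ≤ H0 := by nlinarith
        by_cases hz : OnL F C x y'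
        · have h8 := hcM κ L Ω D0 e0 E0 hD0 hLe0 he0 F hdat.hom g G hLg hdat.coef s S hLs H0 x y'
            ik hik h7 hxb hint (hexc' y' ik hik hz)
          linarith
        · unfold OnL at hz
          push Not at hz
          obtain ⟨c, hc, a, b, hab⟩ := hz
          have h8 := hdat'.line_ht (hxC c hc) hik hab
          have h9 : (dg c : ℤ) * fht κ (pl x y') ≤ dg c * H0 :=
            mul_le_mul_of_nonneg_left h7 (by positivity)
          have h10 : (dg c : ℤ) ≤ S0 := by
            rw [hS0]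
            exact_mod_cast Finset.single_le_sum (f := dg) (fun _ _ => Nat.zero_le _)
              (Finset.mem_univ c)
          have h11 : (dg c : ℤ) * H0 ≤ S0 * H0 := mul_le_mul_of_nonneg_right h10 hH00
          have h12 := hLg.le
          linarith
  · push Not at hC
    have hCu : C = Finset.univ := Finset.eq_univ_iff_forall.2 hC
    subst hCu
    rcases combineK hdat hcm hn hd (fun a => hxC a (Finset.mem_univ a)) hx0 with h | h
    · obtain ⟨y', ik, hik, h1⟩ := h
      refine absurd ?_ (hexc' y' ik hik h1)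
      have hinf : Infinite Ω := IsAlgClosed.instInfinite
      exact pun_of_one (dg := dg) (by norm_num) ⟨0, fun b hb => absurd (Finset.mem_univ b) hb⟩
    · have h1 := CL_le n A hLe hLg
      rw [← hm] at h1
      have h2 := hLg.le
      have h3 : CL n A e g + ∑ᶠ P, g P ≤ (m + 1) * T := by
        have h4 : m * (E + G) ≤ m * T :=
          mul_le_mul_of_nonneg_left (by rw [hT]; linarith) hm0
        have h5 : G ≤ T := by rw [hT]; linarith
        linarith
      have h6 := mul_le_mul_of_nonneg_left h3 (by positivity : 0 ≤ S0 + 1)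
      rw [← hS0] at h
      nlinarith

end Pool.Agent.Y741
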