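import Pool.Agent.Y741.Mason

/-!
The theorem of Mason with slowly moving targets: uniform constants.
-/

set_option autoImplicit false

open Polynomial FF Pool.Agent.W603.LV Pool.Agent.W603.PV
open Pool.Agent.TH145.MW (hgt_mul_le hgt_neg hgt_add_le hgt_sum_le)
open Pool.Agent.TH145.GH (Sem exists_loss loss_all)

namespace Pool.Agent.Y741

theorem hgt_prod_le {k L : Type} [Field k] [Field L] [Algebra k L] [CharZero k] [IsFF k L]
    {α : Type*} (s : Finset α) (f : α → L) :
    hgt k (∏ i ∈ s, f i) ≤ ∑ i ∈ s, hgt k (f i) := by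
  classical
  induction s using Finset.induction_on with
  | empty => rw [Finset.prod_empty, Finset.sum_empty, hgt_one]
  | insert a s ha ih =>
    rw [Finset.prod_insert ha, Finset.sum_insert ha]
    exact (hgt_mul_le _ _).trans (by linarith)

theorem hgt_det_u (N : ℕ) : ∃ C : ℤ, 0 ≤ C ∧ ∀ (k L : Type) [Field k] [Field L] [Algebra k L]
    [CharZero k] [IsFF k L] (M : Matrix (Fin N) (Fin N) L) (H : ℤ),
      (∀ i j, hgt k (M i j) ≤ H) → hgt k M.det ≤ C * H := by
  classical
  refine ⟨(Fintype.card (Equiv.Perm (Fin N)) : ℤ) * N, by positivity, ?_⟩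
  intro k L _ _ _ _ _ M H hM
  rw [Matrix.det_apply]
  refine (hgt_sum_le _ _).trans ?_
  refine (Finset.sum_le_sum (g := fun _ => (N : ℤ) * H) fun σ _ => ?_).trans ?_
  · have h1 : hgt k (Equiv.Perm.sign σ • ∏ i, M (σ i) i) = hgt k (∏ i, M (σ i) i) := by
      rcases Int.units_eq_one_or (Equiv.Perm.sign σ) with h | h
      · rw [h, one_smul]
      · rw [h, Units.neg_smul, one_smul, hgt_neg]
    rw [h1]
    refine (hgt_prod_le _ _).trans ?_
    refine (Finset.sum_le_sum (g := fun _ => H) fun i _ => hM _ _).trans ?_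
    rw [Finset.sum_const, nsmul_eq_mul, Finset.card_univ, Fintype.card_fin]
  · rw [Finset.sum_const, nsmul_eq_mul, Finset.card_univ, mul_assoc]

/-- The coordinates of the point that spans the kernel of a matrix. -/
theorem cramer_u (n : ℕ) : ∃ C : ℤ, 0 ≤ C ∧ ∀ (k L : Type) [Field k] [Field L] [Algebra k L]
    [CharZero k] [IsFF k L] [IsAlgClosed k] (ρ : Type) (N : ρ → Fin (n + 1) → L)
      (x : Fin (n + 1) → L) (H : ℤ),
      0 ≤ H → (∀ r i, hgt k (N r i) ≤ H) → (∀ r, N r ⬝ᵥ x = 0) →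
      (∀ y, (∀ r, N r ⬝ᵥ y = 0) → ∃ c : L, y = c • x) →
      ∀ i l, x i ≠ 0 → hgt k (x l / x i) ≤ C * H := by
  classical
  obtain ⟨C, hC0, hC⟩ := hgt_det_u (n + 1)
  refine ⟨(n + 2) * C, by positivity, ?_⟩
  intro k L _ _ _ _ _ _ ρ N x H hH hN hx hker i l hi
  let N' : Option ρ → Fin (n + 1) → L := fun r => Option.elim r (Pi.single i 1) N
  obtain ⟨σ, hσ⟩ : ∃ σ : Fin (n + 1) → Option ρ, (Matrix.of fun a b => N' (σ a) b).det ≠ 0 := by
    by_contra hcon
    push Not at hcon
    obtain ⟨v, hv0, hv⟩ := Pool.Agent.TH145.MF.kernel_of_minors N' hcon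
    obtain ⟨c, rfl⟩ := hker v fun r => hv (some r)
    have h1 := hv none
    simp only [N', Option.elim_none, single_dotProduct, one_mul, Pi.smul_apply, smul_eq_mul] at h1
    rcases mul_eq_zero.1 h1 with h2 | h2
    · apply hv0
      rw [h2, zero_smul]
    · exact hi h2
  obtain ⟨M, hM⟩ : ∃ M : Matrix (Fin (n + 1)) (Fin (n + 1)) L, M =
    Matrix.of fun a b => N' (σ a) b := ⟨_, rfl⟩
  rw [← hM] at hσ
  have hs1 : ∀ a b : Fin (n + 1), hgt k ((Pi.single a 1 : Fin (n + 1) → L) b) = 0 := by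
    intro a b
    by_cases h : b = a
    · rw [h, Pi.single_eq_same, hgt_one]
    · rw [Pi.single_eq_of_ne h, hgt_zero]
  have hMH : ∀ a b, hgt k (M a b) ≤ H := by
    intro a b
    rw [hM]
    simp only [Matrix.of_apply, N']
    cases h : σ a with
    | none => simp only [Option.elim_none]; rw [hs1]; exact hH
    | some r => simp only [Option.elim_some]; exact hN r b
  have hdet : hgt k M.det ≤ C * H := hC k L M H hMH
  have hadj : ∀ a b, hgt k (M.adjugate a b) ≤ C * H := by
    intro a b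
    rw [Matrix.adjugate_apply]
    apply hC
    intro c d
    rw [Matrix.updateRow_apply]
    split_ifs with h
    · rw [hs1]; exact hH
    · exact hMH c d
  have hMx : M.mulVec x = fun a => if σ a = none then x i else 0 := by
    funext a
    change (fun b => M a b) ⬝ᵥ x = _
    rw [hM]
    simp only [Matrix.of_apply, N']
    cases h : σ a with
    | none => simp only [Option.elim_none, if_true]; rw [single_dotProduct, one_mul]
    | some r =>
      simp only [Option.elim_some]
      rw [if_neg (by simp)]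
      exact hx r
  have h1 : M.det • x = M.adjugate.mulVec (M.mulVec x) := by
    rw [Matrix.mulVec_mulVec, Matrix.adjugate_mul, Matrix.smul_mulVec, Matrix.one_mulVec]
  have h2 := congrFun h1 l
  rw [hMx] at h2
  simp only [Pi.smul_apply, smul_eq_mul, Matrix.mulVec, dotProduct] at h2
  have h3 : x l / x i = (∑ a, if σ a = none then M.adjugate l a else 0) / M.det := by
    rw [div_eq_div_iff hi hσ, mul_comm, h2, Finset.sum_mul]
    refine Finset.sum_congr rfl fun a _ => ?_
    split_ifs <;> simp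
  rw [h3, div_eq_mul_inv]
  refine (hgt_mul_le _ _).trans ?_
  rw [hgt_inv]
  have h4 : hgt k (∑ a, if σ a = none then M.adjugate l a else 0) ≤ (n + 1) * (C * H) := by
    refine (hgt_sum_le _ _).trans ?_
    refine (Finset.sum_le_sum (g := fun _ => C * H) fun a _ => ?_).trans ?_
    · split_ifs
      · exact hadj l a
      · rw [hgt_zero]; positivity
    · rw [Finset.sum_const, nsmul_eq_mul, Finset.card_univ, Fintype.card_fin]
      push_cast
      exact le_rfl
  have h5 : (((n : ℤ) + 2) * C) * H = (n + 1) * (C * H) + C * H := by ring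
  rw [h5]
  linarith

/-- The coordinates of the vector that spans the kernel of a matrix. -/
theorem cramer_u' (ι : Type) [Fintype ι] [Nonempty ι] :
    ∃ C : ℤ, 0 ≤ C ∧ ∀ (κ L : Type) [Field κ] [Field L] [Algebra κ L] [CharZero κ] [IsFF κ L]
      [IsAlgClosed κ] (ρ : Type) (N : ρ → ι → L) (x : ι → L) (H : ℤ),
      0 ≤ H → (∀ r i, hgt κ (N r i) ≤ H) → (∀ r, ∑ i, N r i * x i = 0) →
      (∀ y : ι → L, (∀ r, ∑ i, N r i * y i = 0) → ∃ c : L, y = c • x) →
      ∀ i l, x i ≠ 0 → hgt κ (x l / x i) ≤ C * H := by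
  obtain ⟨n, hn⟩ : ∃ n, Fintype.card ι = n + 1 :=
    ⟨Fintype.card ι - 1, by have := Fintype.card_pos (α := ι); omega⟩
  have e : ι ≃ Fin (n + 1) := Fintype.equivFinOfCardEq hn
  obtain ⟨C, hC0, hC⟩ := cramer_u n
  refine ⟨C, hC0, fun κ L _ _ _ _ _ _ ρ N x H hH hN hx hker i l hi => ?_⟩
  have h := hC κ L ρ (fun r j => N r (e.symm j)) (fun j => x (e.symm j)) H hH (fun r j => hN r _)
    (fun r => ?_) (fun y hy => ?_) (e i) (e l) (by rwa [e.symm_apply_apply])
  · rwa [e.symm_apply_apply, e.symm_apply_apply] at h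
  · rw [← hx r]
    exact Equiv.sum_comp e.symm fun i => N r i * x i
  · obtain ⟨c, hc⟩ := hker (fun i => y (e i)) fun r => by
      rw [← hy r, dotProduct, ← Equiv.sum_comp e.symm fun i => N r i * y (e i)]
      exact Finset.sum_congr rfl fun j _ => by rw [e.apply_symm_apply]
    refine ⟨c, funext fun j => ?_⟩
    have := congrFun hc (e.symm j)
    rw [e.apply_symm_apply] at this
    exact this

/-- The relation of Bezout. -/
theorem solve_u (r : ℕ) (hr1 : 1 ≤ r) :
    ∃ C : ℤ, 0 ≤ C ∧ ∀ (κ L : Type) [Field κ] [Field L] [Algebra κ L] [CharZero κ] [IsFF κ L]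
    [IsAlgClosed κ] (χ w : L[X]) (H : ℤ), 0 ≤ H → χ.degree = r →
      IsCoprime χ (derivative χ) → w.degree < (2 * r : ℕ) → (∀ i, hgt κ (χ.coeff i) ≤ H) →
      (∀ i, hgt κ (w.coeff i) ≤ H) →
      ∃ a b : L[X], a * χ + b * derivative χ = w ∧ a.degree < r ∧ b.degree < r ∧
        (∀ i, hgt κ (a.coeff i) ≤ C * H) ∧ ∀ i, hgt κ (b.coeff i) ≤ C * H := by
  classical
  obtain ⟨C, hC0, hC⟩ := cramer_u' (Option (Fin r ⊕ Fin r))
  refine ⟨C, hC0, fun κ L _ _ _ _ _ _ χ w H hH hr hcop hw hχH hwH => ?_⟩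
  obtain ⟨a, b, hab, ha, hb⟩ := bezout hr hcop hw hr1
  obtain ⟨N, hN⟩ : ∃ N : ℕ → Option (Fin r ⊕ Fin r) → L, ∀ k, N k none = - w.coeff k ∧
      (∀ i, N k (some (Sum.inl i)) = (X ^ i.1 * χ).coeff k) ∧
      ∀ i, N k (some (Sum.inr i)) = (X ^ i.1 * derivative χ).coeff k :=
    ⟨fun k o => Option.elim o (- w.coeff k) fun s => Sum.elim
      (fun i : Fin r => (X ^ i.1 * χ).coeff k)
      (fun i : Fin r => (X ^ i.1 * derivative χ).coeff k) s,
      fun k => ⟨rfl, fun _ => rfl, fun _ => rfl⟩⟩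
  have hsum : ∀ (y : Option (Fin r ⊕ Fin r) → L) k, ∑ i, N k i * y i =
      (pol (fun i => y (some (Sum.inl i))) * χ + pol (fun i => y (some (Sum.inr i))) *
        derivative χ - Polynomial.C (y none) * w).coeff k := by
    intro y k
    rw [Fintype.sum_option, Fintype.sum_sum_type, coeff_sub, coeff_add, pol_mul_coeff,
      pol_mul_coeff, coeff_C_mul, (hN k).1]
    simp only [(hN k).2.1, (hN k).2.2]
    ring
  obtain ⟨x, hx⟩ : ∃ x : Option (Fin r ⊕ Fin r) → L, x none = 1 ∧
      (∀ i, x (some (Sum.inl i)) = a.coeff i.1) ∧ ∀ i, x (some (Sum.inr i)) = b.coeff i.1 :=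
    ⟨fun o => Option.elim o 1 fun s => Sum.elim (fun i : Fin r => a.coeff i.1)
      (fun i : Fin r => b.coeff i.1) s, rfl, fun _ => rfl, fun _ => rfl⟩
  have hxa : pol (fun i => x (some (Sum.inl i))) = a := by
    simp only [hx.2.1]
    exact pol_of ha
  have hxb : pol (fun i => x (some (Sum.inr i))) = b := by
    simp only [hx.2.2]
    exact pol_of hb
  have hkey := hC κ L ℕ N x H hH (fun k i => ?_) (fun k => ?_) (fun y hy => ?_) none
  · refine ⟨a, b, hab, ha, hb, fun i => ?_, fun i => ?_⟩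
    · by_cases hi : i < r
      · have := hkey (some (Sum.inl ⟨i, hi⟩)) (by rw [hx.1]; exact one_ne_zero)
        rwa [hx.1, hx.2.1, div_one] at this
      · rw [(degree_lt_iff_coeff_zero _ _).1 ha i (not_lt.1 hi), hgt_zero]
        positivity
    · by_cases hi : i < r
      · have := hkey (some (Sum.inr ⟨i, hi⟩)) (by rw [hx.1]; exact one_ne_zero)
        rwa [hx.1, hx.2.2, div_one] at this
      · rw [(degree_lt_iff_coeff_zero _ _).1 hb i (not_lt.1 hi), hgt_zero]
        positivity
  · rcases i with _ | i | i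
    · rw [(hN k).1, hgt_neg]
      exact hwH k
    · rw [(hN k).2.1]
      exact hgt_X_pow_mul hH hχH _ _
    · rw [(hN k).2.2]
      exact hgt_X_pow_mul hH (hgt_deriv_coeff hχH) _ _
  · rw [hsum, hxa, hxb, hx.1, C_1, one_mul, hab, sub_self, coeff_zero]
  · have h1 : pol (fun i => y (some (Sum.inl i))) * χ + pol (fun i => y (some (Sum.inr i))) *
        derivative χ - Polynomial.C (y none) * w = 0 := by
      ext k
      rw [← hsum, hy k, coeff_zero]
    have h2 : (pol (fun i => y (some (Sum.inl i))) - Polynomial.C (y none) * a) * χ +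
        (pol (fun i => y (some (Sum.inr i))) - Polynomial.C (y none) * b) * derivative χ = 0 := by
      rw [← hab] at h1
      linear_combination h1
    obtain ⟨h3, h4⟩ := bezout_unique hr hcop ((degree_sub_le _ _).trans_lt (max_lt (pol_deg _)
      ((degree_C_mul_le' _ _).trans_lt hb))) h2
    refine ⟨y none, funext fun i => ?_⟩
    rw [Pi.smul_apply, smul_eq_mul]
    rcases i with _ | i | i
    · rw [hx.1, mul_one]
    · have h5 := congrArg (fun f => f.coeff i.1) h3
      simp only [coeff_sub, coeff_C_mul, coeff_zero, coeff_pol, i.2, dif_pos] at h5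
      rw [hx.2.1]
      exact sub_eq_zero.1 h5
    · have h5 := congrArg (fun f => f.coeff i.1) h4
      simp only [coeff_sub, coeff_C_mul, coeff_zero, coeff_pol, i.2, dif_pos] at h5
      rw [hx.2.2]
      exact sub_eq_zero.1 h5

end Pool.Agent.Y741
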