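import Pool.Agent.Y741.UCurve2
import Pool.Agent.Y735.V.Vojta

/-!
Vojta's height inequality for generic pairs over function fields.
-/

set_option autoImplicit false

open MvPolynomial FF Pool.Agent.W603.LV Pool.Agent.W603.PV Pool.Agent.TH145.GH
open Pool.Agent.TH145.GC (Cf finite_cf)
open Pool.Agent.W602.GT Pool.Agent.TH145.MG
open Pool.Agent.Y735 (po po_finite)
open Pool.Agent.Y735.V Pool.Agent.TH812.GV Pool.Agent.TH812.GV2

namespace Pool.Agent.Y741

/-- Vojta's height inequality for generic pairs. -/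
theorem vojta_pairs (n : ℕ) (A : Type) [Fintype A] [DecidableEq A] (dg : A → ℕ) (hn : 1 ≤ n)
    (hpos : ∀ a, 0 < dg a) (C : Finset A) (hd : 3 * n + 3 ≤ 2 * ∑ a, dg a + C.card) :
    ∃ c : ℕ, ∀ (k0 k F0 F : Type) [Field k0] [Field k] [Field F0] [Field F] [IsAlgClosed k]
      [CharZero k] [Algebra k0 k] [Algebra k F] [Algebra k0 F] [IsScalarTower k0 k F]
      [Algebra k0 F0] [Algebra F0 F] [IsScalarTower k0 F0 F] [IsFF k F],
      (∃ S : Finset F0, IntermediateField.adjoin k0 (S : Set F0) = ⊤) →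
      ∀ (H : A → MvPolynomial (Fin (n + 1)) F), (∀ a, (H a).IsHomogeneous (dg a)) →
      (AlgebraicIndependent F0 fun p : Cf n dg => (H p.1).coeff p.2.1) →
      ∃ B : ℕ, ∀ (L Ω : Type) [Field L] [Field Ω] [Algebra k L] [Algebra F L]
        [IsScalarTower k F L] [FiniteDimensional F L] [Algebra L Ω] [IsAlgClosed Ω]
        (x : Fin (n + 1) → L), x ≠ 0 →
        (∀ c ∈ C, aeval x (H c) = 0) → (∀ b, b ∉ C → aeval x (H b) ≠ 0) →
        ¬ Exc 2 (mapF (algebraMap L Ω) fun a => map (algebraMap F L) (H a)) C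
          (fun j => algebraMap L Ω (x j)) →
        pht k x ≤ c * (canDeg k L +
          {P : Place k L | ∃ b, b ∉ C ∧ dg b * pord P x < P.ord (aeval x (H b))}.ncard) +
            B * Module.finrank F L := by
  classical
  obtain ⟨c0, hc00, hc0⟩ := uni_pairs n A dg hn C hd
  refine ⟨(2 * c0).toNat, ?_⟩
  have e2 : (((2 * c0).toNat : ℕ) : ℤ) = 2 * c0 := Int.toNat_of_nonneg (by positivity)
  rw [e2]
  intro k0 k F0 F _ _ _ _ _ _ _ _ _ _ _ _ _ _ hfg H hH hgen
  have hF : CharZero F := charZero_of_injective_algebraMap (algebraMap k F).injective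
  have hcf := finite_cf n dg
  obtain ⟨Db, hDbg, -, hDb, hDbc⟩ := exists_duals3 (k0 := k0) (k := k) (F0 := F0) (F := F) hfg
    (fun p : Cf n dg => (H p.1).coeff p.2.1) hgen
  obtain ⟨D, hD⟩ : ∃ D : A → (Fin (n + 1) →₀ ℕ) → Derivation ℤ F F, ∀ a I, D a I =
      if h : I.degree = dg a then Db ⟨a, ⟨I, h⟩⟩ else 0 := ⟨_, fun _ _ => rfl⟩
  have hDd : ∀ a I (h : I.degree = dg a), D a I = Db ⟨a, ⟨I, h⟩⟩ := fun a I h => by
    rw [hD, dif_pos h]
  have hD0 : ∀ a, ∀ I : Fin (n + 1) →₀ ℕ, I.degree ≠ dg a → D a I = 0 := fun a I h => by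
    rw [hD, dif_neg h]
  have hgood : ∀ a I, GoodS k (D a I) := by
    intro a I
    by_cases h : I.degree = dg a
    · rw [hDd a I h]; exact hDbg _
    · rw [hD0 a I h]; exact GoodS.zero
  have hcom : ∀ a b I J f, D a I (D b J f) = D b J (D a I f) := by
    intro a b I J f
    by_cases hI : I.degree = dg a
    · by_cases hJ : J.degree = dg b
      · rw [hDd a I hI, hDd b J hJ]; exact hDbc _ _ _
      · rw [hD0 b J hJ, Derivation.zero_apply, Derivation.zero_apply, map_zero]
    · rw [hD0 a I hI, Derivation.zero_apply, Derivation.zero_apply, map_zero]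
  choose q hq0 hqf hq using hgood
  have hfinI : ∀ a, {I : Fin (n + 1) →₀ ℕ | I.degree = dg a}.Finite := fun a =>
    (Finsupp.finite_of_degree_le (dg a)).subset fun I hI => le_of_eq hI
  obtain ⟨Q, hQ⟩ : ∃ Q : Place k F → ℤ, ∀ v, Q v = ∑ a, ∑ I ∈ (hfinI a).toFinset, q a I v :=
    ⟨_, fun _ => rfl⟩
  have hQ0 : ∀ v, 0 ≤ Q v := fun v => by
    rw [hQ]
    exact Finset.sum_nonneg fun a _ => Finset.sum_nonneg fun I _ => hq0 a I v
  have hQf : {v | Q v ≠ 0}.Finite := by
    have h1 : (⋃ a : A, ⋃ I ∈ (hfinI a).toFinset, {v | q a I v ≠ 0}).Finite :=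
      Set.finite_iUnion fun a => (hfinI a).toFinset.finite_toSet.biUnion fun I _ => hqf a I
    refine h1.subset fun v hv => ?_
    by_contra hcon
    simp only [Set.mem_iUnion, not_exists, Set.mem_ofPred_eq, not_not] at hcon
    apply hv
    rw [hQ]
    exact Finset.sum_eq_zero fun a _ => Finset.sum_eq_zero fun I hI => hcon a I hI
  have hQle : ∀ a (I : Fin (n + 1) →₀ ℕ), I.degree = dg a → ∀ v, q a I v ≤ Q v := by
    intro a I hI v
    rw [hQ]
    refine le_trans ?_ (Finset.single_le_sum (f := fun a => ∑ I ∈ (hfinI a).toFinset, q a I v)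
      (fun a _ => Finset.sum_nonneg fun I _ => hq0 a I v) (Finset.mem_univ a))
    exact Finset.single_le_sum (f := fun I => q a I v) (fun I _ => hq0 a I v)
      (by rw [Set.Finite.mem_toFinset]; exact hI)
  obtain ⟨C1, hC1⟩ := sum_loss (k := k) hQ0 hQf
  -- the derivation over the constants
  obtain ⟨δF, hδF⟩ := Pool.Agent.W603.LV.exists_der (k := k) (K := F)
  have hSδ : Sem k (δF.restrictScalars ℤ) := fun c => ⟨0, by
    rw [map_zero]; exact δF.map_algebraMap c⟩
  obtain ⟨q0, hq00, hq0f, hq0l⟩ := exists_loss hSδ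
  obtain ⟨C2, hC2⟩ := sum_loss (k := k) hq00 hq0f
  -- the poles of the coefficients
  obtain ⟨G, hG0, hGf, hG⟩ := exists_poles (κ := k)
    (Finset.univ.biUnion fun a => (H a).support.image fun u => (H a).coeff u)
  obtain ⟨C3, hC3⟩ := sum_under (k := k) hG0 hGf
  refine ⟨(c0 * (C1 + C2 + C3)).toNat, ?_⟩
  have e3 : (((c0 * (C1 + C2 + C3)).toNat : ℕ) : ℤ) = c0 * (C1 + C2 + C3) :=
    Int.toNat_of_nonneg (by positivity)
  rw [e3]
  intro L Ω _ _ _ _ _ _ _ _ x hx hxC hxb hexc
  have hL : IsFF k L := isFF_of_finite (F := F)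
  have hLz : CharZero L := charZero_of_injective_algebraMap (algebraMap k L).injective
  choose D' hD' hDl using fun a I => hq a I L
  obtain ⟨HL, hHL⟩ : ∃ HL : Fam L n A, ∀ a, HL a = map (algebraMap F L) (H a) :=
    ⟨_, fun _ => rfl⟩
  obtain ⟨hqfin, hqsum⟩ := hC1 L
  obtain ⟨hpfin, hpsum⟩ := hC2 L
  obtain ⟨hufin, husum⟩ := hC3 L
  obtain ⟨el, hel⟩ : ∃ el : Place k L → ℤ, ∀ P, el P =
    ((ram F P : ℤ) - 1) + ram F P * Q (under F P) := ⟨_, fun _ => rfl⟩
  obtain ⟨pl, hpl⟩ : ∃ pl : Place k L → ℤ, ∀ P, pl P =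
    ((ram F P : ℤ) - 1) + ram F P * q0 (under F P) := ⟨_, fun _ => rfl⟩
  obtain ⟨gl, hgl⟩ : ∃ gl : Place k L → ℤ, ∀ P, gl P = ram F P * G (under F P) :=
    ⟨_, fun _ => rfl⟩
  have hram : ∀ P : Place k L, (1 : ℤ) ≤ ram F P := fun P => by
    have := (ram_spec (F := F) P).1
    omega
  have hgl0 : ∀ P, 0 ≤ gl P := fun P => by
    rw [hgl]
    exact mul_nonneg (by positivity) (hG0 _)
  have hel0 : ∀ P, 0 ≤ el P := fun P => by
    rw [hel]
    have h1 := hram P
    have h2 : 0 ≤ (ram F P : ℤ) * Q (under F P) := mul_nonneg (by positivity) (hQ0 _)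
    linarith
  have hpl0 : ∀ P, 0 ≤ pl P := fun P => by
    rw [hpl]
    have h1 := hram P
    have h2 : 0 ≤ (ram F P : ℤ) * q0 (under F P) := mul_nonneg (by positivity) (hq00 _)
    linarith
  have hpole : ∀ z : F, (∀ v, Ge v (-G v) z) → ∀ P : Place k L, Ge P (-gl P) (algebraMap F L z) := by
    intro z hz P
    by_cases hz0 : z = 0
    · rw [hz0, map_zero]; exact Or.inl rfl
    · right
      have h1 := (hz (under F P)).resolve_left hz0
      rw [ord_under, hgl]
      have h2 := hram P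
      nlinarith
  have hefin : {P | el P ≠ 0}.Finite := by simp only [hel]; exact hqfin
  have hgfin : {P | gl P ≠ 0}.Finite := by simp only [hgl]; exact hufin
  have hplfin : {P | pl P ≠ 0}.Finite := by simp only [hpl]; exact hpfin
  have hcoefz : ∀ a u v, Ge v (-G v) ((H a).coeff u) := by
    intro a u v
    by_cases hu : u ∈ (H a).support
    · exact hG v _ (Finset.mem_biUnion.2 ⟨a, Finset.mem_univ _, Finset.mem_image.2 ⟨u, hu, rfl⟩⟩)
    · rw [notMem_support_iff.1 hu]; exact Or.inl rfl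
  have hdat : DataL k HL dg D' el gl := by
    refine ⟨hpos, fun a => by rw [hHL]; exact (hH a).map _, ?_, hel0, hgl0, ?_, ?_, ?_⟩
    · intro a b I J hI hJ
      rw [hHL, coeff_map, hD', hDd a I hI]
      constructor
      · rintro rfl rfl
        have := (hDb ⟨a, ⟨I, hI⟩⟩ ⟨a, ⟨I, hJ⟩⟩).1 rfl
        dsimp only at this
        rw [this, map_one]
      · intro h
        have := (hDb ⟨a, ⟨I, hI⟩⟩ ⟨b, ⟨J, hJ⟩⟩).2 (by
          intro h2
          have h3 : a = b := congrArg Sigma.fst h2
          subst h3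
          have h4 := eq_of_heq (Sigma.mk.inj_iff.1 h2).2
          have h5 : I = J := congrArg Subtype.val h4
          rcases h with h | h
          · exact h rfl
          · exact h h5)
        dsimp only at this
        rw [this, map_zero]
    · intro P f hf a I hI
      obtain ⟨δ, hδ⟩ := exists_locd P
      obtain ⟨h1, h2⟩ := hDl a I P
      have h3 := h2 δ hδ 0 f hf
      have h4 := h1.mul (hδ.2.2 f hf)
      have h5 : D' a I f = D' a I (unif P) * δ f + (D' a I f - D' a I (unif P) * δ f) := by ring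
      have h6 := hQle a I hI (under F P)
      have h7 := hram P
      have h8 : (ram F P : ℤ) * q a I (under F P) ≤ ram F P * Q (under F P) :=
        mul_le_mul_of_nonneg_left h6 (by omega)
      rw [h5]
      refine Ge.add (h4.mono ?_) (h3.mono ?_)
      · rw [hel]; linarith
      · rw [hel]; linarith
    · intro P a u
      rw [hHL, coeff_map]
      exact hpole _ (fun v => hcoefz a u v) P
    · refine (hefin.union hgfin).subset fun P hP => ?_
      rcases hP with hP | hP
      · exact Or.inl hP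
      · exact Or.inr hP
  have hcomL : Comm D' := by
    intro a b I J f
    have h1 := zero_of_alg (F := F) (L := L) ⁅D' a I, D' b J⁆ (fun f => by
      rw [Derivation.commutator_apply, hD', hD', hD', hD', hcom, sub_self]) f
    rw [Derivation.commutator_apply] at h1
    exact sub_eq_zero.1 h1
  -- the derivation over the constants
  obtain ⟨δL, hδL⟩ := Pool.Agent.W603.PV.exists_ext_der (L := L) δF
  have hδL0 : δL ≠ 0 := by
    rintro rfl
    apply hδF
    ext y
    have h1 := hδL y
    rw [Derivation.coe_zero, Pi.zero_apply, eq_comm, map_eq_zero] at h1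
    rw [h1]; rfl
  have hδloss : ∀ P f, Ge P 0 f → Ge P (-pl P) (δL f) := by
    intro P f hf
    have h1 := loss_ext (D := δF.restrictScalars ℤ) hq00 hq0l (D' := δL.restrictScalars ℤ)
      (fun c => ⟨0, by rw [map_zero]; exact δL.map_algebraMap c⟩) (fun y => hδL y) P hf
    rw [← hpl] at h1
    exact h1
  have hev : ∀ a, eval x (HL a) = aeval x (H a) := fun a => by
    rw [hHL, eval_map, ← aeval_def]
  have hes : ∑ᶠ P, el P ≤ canDeg k L + C1 * Module.finrank F L := by
    have h1 : el = fun P => ((ram F P : ℤ) - 1) + ram F P * Q (under F P) := funext hel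
    rw [h1]
    exact hqsum
  have hps : ∑ᶠ P, pl P ≤ canDeg k L + C2 * Module.finrank F L := by
    have h1 : pl = fun P => ((ram F P : ℤ) - 1) + ram F P * q0 (under F P) := funext hpl
    rw [h1]
    exact hpsum
  have hgs : ∑ᶠ P, gl P ≤ C3 * Module.finrank F L := by
    have h1 : gl = fun P => (ram F P : ℤ) * G (under F P) := funext hgl
    rw [h1]
    exact husum
  obtain ⟨s, hLs, hs⟩ := loc_ind (Pool.Agent.Y741.meets_finite (κ := k) HL dg C hx)
  have hset : {P : Place k L | ∃ b, b ∉ C ∧ dg b * pord P x < P.ord (eval x (HL b))} =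
      {P : Place k L | ∃ b, b ∉ C ∧ dg b * pord P x < P.ord (aeval x (H b))} := by
    ext P
    refine exists_congr fun b => and_congr_right fun _ => ?_
    rw [hev]
  have hGG : HL = fun a => map (algebraMap F L) (H a) := funext hHL
  have h1 := hc0 k L Ω δL pl (canDeg k L + C2 * Module.finrank F L) hδL0 ⟨hpl0, hplfin, hps⟩
    hδloss HL D' el gl (canDeg k L + C1 * Module.finrank F L) (C3 * Module.finrank F L) hdat hcomL
    ⟨hel0, hefin, hes⟩ ⟨hgl0, hgfin, hgs⟩ s _ hLs x hx
    (fun c hc => by rw [hev]; exact hxC c hc) (fun b hb => by rw [hev]; exact hxb b hb)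
    (fun P hP b hb => by
      by_contra hcon
      exact hs P hP ⟨b, hb, not_le.1 hcon⟩) (by rw [hGG]; exact hexc)
  rw [hset] at h1
  refine h1.trans ?_
  have h2 : (0 : ℤ) ≤ ({P : Place k L | ∃ b, b ∉ C ∧
    dg b * pord P x < P.ord (aeval x (H b))}.ncard : ℤ) := by positivity
  have h3 := mul_nonneg hc00 h2
  linarith

end Pool.Agent.Y741
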