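import Pool.Agent.Y741.UnitFF
import Pool.Agent.Y735.MainL

/-!
The unit equation over finitely generated rings: the induction on the transcendence degree.
-/

set_option autoImplicit false

open FF Pool.Agent.W603.LV Pool.Agent.W603.PV
open Pool.Agent.Y735 (trdeg_adjoin_le)

namespace Pool.Agent.Y741

theorem UnitPair.map {K K' : Type} [Field K] [Field K'] (φ : K →+* K') {R : Subring K} {x : K}
    (h : UnitPair R x) : UnitPair (R.map φ) (φ x) := by
  obtain ⟨h0, h1, h2, h3, h4, h5⟩ := h
  have e1 : φ (1 - x) = 1 - φ x := by rw [map_sub, map_one]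
  refine ⟨by rwa [Ne, map_eq_zero], ?_, ⟨x, h2, rfl⟩, ⟨x⁻¹, h3, map_inv₀ φ x⟩, ⟨1 - x, h4, e1⟩,
    ⟨(1 - x)⁻¹, h5, by rw [map_inv₀, e1]⟩⟩
  rw [← e1, Ne, map_eq_zero]
  exact h1

theorem UnitPair.comap {K K' : Type} [Field K] [Field K'] (φ : K →+* K') {R : Subring K} {x : K}
    (h : UnitPair (R.map φ) (φ x)) : UnitPair R x := by
  obtain ⟨h0, h1, h2, h3, h4, h5⟩ := h
  have e1 : φ (1 - x) = 1 - φ x := by rw [map_sub, map_one]
  have hmem : ∀ z : K, φ z ∈ R.map φ → z ∈ R := by
    rintro z ⟨w, hw, hwz⟩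
    rwa [← φ.injective hwz]
  refine ⟨by rwa [Ne, map_eq_zero] at h0, ?_, hmem _ h2, hmem _ (by rwa [map_inv₀]),
    hmem _ (by rwa [e1]), hmem _ (by rwa [map_inv₀, e1])⟩
  rw [← e1, Ne, map_eq_zero] at h1
  exact h1

theorem UnitPair.mono {K : Type} [Field K] {R R' : Subring K} (h : R ≤ R') {x : K}
    (hx : UnitPair R x) : UnitPair R' x :=
  ⟨hx.1, hx.2.1, h hx.2.2.1, h hx.2.2.2.1, h hx.2.2.2.2.1, h hx.2.2.2.2.2⟩

/-- Reduction to a subfield. -/
theorem finite_of_range {K K' : Type} [Field K] [Field K'] (φ : K →+* K') {T : Finset K'}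
    (hT : (T : Set K') ⊆ Set.range φ)
    (h : ∀ T' : Finset K, {x : K | UnitPair (Subring.closure (T' : Set K)) x}.Finite) :
    {x : K' | UnitPair (Subring.closure (T : Set K')) x}.Finite := by
  classical
  obtain ⟨T', hT'⟩ : ∃ T' : Finset K, T'.image φ = T := by
    refine ⟨T.preimage φ φ.injective.injOn, ?_⟩
    ext z
    rw [Finset.mem_image]
    constructor
    · rintro ⟨w, hw, rfl⟩
      exact Finset.mem_preimage.1 hw
    · intro hz
      obtain ⟨w, hw⟩ := hT hz
      exact ⟨w, Finset.mem_preimage.2 (by rw [hw]; exact hz), hw⟩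
  have h1 : Subring.closure (T : Set K') = (Subring.closure (T' : Set K)).map φ := by
    rw [RingHom.map_closure, ← hT', Finset.coe_image]
  refine ((h T').image φ).subset ?_
  intro x hx
  have hx' : UnitPair (Subring.closure (T : Set K')) x := hx
  rw [h1] at hx'
  obtain ⟨w, hw, hwx⟩ := hx'.2.2.1
  refine ⟨w, ?_, hwx⟩
  rw [← hwx] at hx'
  exact UnitPair.comap φ hx'

/-- One step of the induction. -/
theorem uf_step {κ K : Type} [Field κ] [Field K] [Algebra κ K] [IsAlgClosed κ] [CharZero κ]
    (htr : Algebra.trdeg κ K ≤ 1) (h : UF κ) : UF K := by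
  classical
  intro T
  obtain ⟨L, hL⟩ : ∃ L, L = IntermediateField.adjoin κ (T : Set K) := ⟨_, rfl⟩
  refine finite_of_range (K := L) L.val.toRingHom (T := T) (fun t ht => ?_) fun T' => ?_
  · exact ⟨⟨t, by rw [hL]; exact IntermediateField.subset_adjoin _ _ ht⟩, rfl⟩
  have hconst : (algebraMap κ L '' {x : κ | UnitPair (Subring.closure (T' : Set L))
      (algebraMap κ L x)}).Finite := (finite_const h T').image _
  by_cases halg : Algebra.IsAlgebraic κ L
  · refine hconst.subset ?_
    intro x hx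
    have hbij : Function.Bijective (algebraMap κ L) :=
      IsAlgClosed.algebraMap_bijective_of_isIntegral
    obtain ⟨c, rfl⟩ := hbij.2 x
    exact ⟨c, hx, rfl⟩
  · have h1 : Algebra.trdeg κ L ≤ 1 :=
      (trdeg_le_of_injective L.val L.val.injective).trans htr
    have h2 : Algebra.trdeg κ L ≠ 0 := fun h => halg (trdeg_eq_zero_iff.1 h)
    have hff : IsFF κ L := by
      refine ⟨?_, le_antisymm h1 (Cardinal.one_le_iff_ne_zero.2 h2)⟩
      rw [IntermediateField.essFiniteType_iff, hL]
      exact IntermediateField.fg_adjoin_finset T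
    refine ((finite_nonconst (κ := κ) T').union hconst).subset ?_
    intro x hx
    by_cases hc : x ∈ Set.range (algebraMap κ L)
    · obtain ⟨c, rfl⟩ := hc
      exact Or.inr ⟨c, hx, rfl⟩
    · exact Or.inl ⟨hc, UnitPair.mono (Subring.closure_mono Set.subset_union_right) hx⟩

/-- The induction. -/
theorem exists_uf {K : Type} [Field K] [CharZero K] [IsAlgClosed K]
    (h0 : UF (algebraicClosure ℚ K)) (T : Finset K) :
    ∃ (κ : Type) (_ : Field κ) (_ : Algebra κ K) (_ : IsAlgClosed κ) (_ : CharZero κ),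
      UF κ ∧ (T : Set K) ⊆ Set.range (algebraMap κ K) := by
  classical
  induction T using Finset.induction_on with
  | empty =>
    refine ⟨algebraicClosure ℚ K, inferInstance, inferInstance,
      (algebraicClosure.isAlgClosure ℚ K).isAlgClosed, inferInstance, h0, ?_⟩
    rw [Finset.coe_empty]
    exact Set.empty_subset _
  | insert t T _ ih =>
    obtain ⟨κ, _, _, _, _, hκ, hT⟩ := ih
    obtain ⟨E, hE⟩ : ∃ E : IntermediateField κ K, E = IntermediateField.adjoin κ {t} := ⟨_, rfl⟩
    have h1 : Algebra.trdeg κ E ≤ 1 := by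
      have := trdeg_adjoin_le (k := κ) ({t} : Finset K)
      rw [Finset.coe_singleton, ← hE, Finset.card_singleton, Nat.cast_one] at this
      exact this
    have h2 : Algebra.trdeg E (algebraicClosure E K) = 0 :=
      trdeg_eq_zero_iff.2 inferInstance
    have h3 : Algebra.trdeg κ (algebraicClosure E K) ≤ 1 := by
      rw [← trdeg_add_eq κ E (A := algebraicClosure E K), h2, add_zero]
      exact h1
    refine ⟨algebraicClosure E K, inferInstance, inferInstance,
      (algebraicClosure.isAlgClosure E K).isAlgClosed, inferInstance, uf_step h3 hκ, ?_⟩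
    rw [Finset.coe_insert, Set.insert_subset_iff]
    constructor
    · have ht : t ∈ E := by
        rw [hE]
        exact IntermediateField.mem_adjoin_simple_self κ t
      exact ⟨algebraMap E (algebraicClosure E K) ⟨t, ht⟩, rfl⟩
    · intro z hz
      obtain ⟨w, hw⟩ := hT hz
      exact ⟨algebraMap κ (algebraicClosure E K) w, hw⟩

theorem uf_of_base {K : Type} [Field K] [CharZero K] [IsAlgClosed K]
    (h0 : UF (algebraicClosure ℚ K)) : UF K := by
  intro T
  obtain ⟨κ, _, _, _, _, hκ, hT⟩ := exists_uf h0 T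
  exact finite_of_range (algebraMap κ K) hT hκ

end Pool.Agent.Y741
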