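import Pool.Agent.Y215.AF.LogConv
import Pool.Agent.Y741.UnitStep

/-!
The unit equation over finitely generated rings of algebraic numbers.
-/

set_option autoImplicit false

open MvPolynomial IsDedekindDomain NumberField
open Pool.Agent.Y215.AF Pool.Agent.H159R3.Exp

namespace Pool.Agent.Y741

/-- Laurent polynomials without zeros are monomials. -/
theorem laur_unit {L : Type} [Field L] [CharZero L] {φ ψ : L → L} (hφ : Laur φ) (hψ : Laur ψ)
    (h : ∀ t, t ≠ 0 → φ t * ψ t = 1) :
    ∃ (c : L) (m M : ℕ), c ≠ 0 ∧ ∀ t, t ≠ 0 → φ t * t ^ M = c * t ^ m := by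
  obtain ⟨M1, Q1, h1⟩ := hφ
  obtain ⟨M2, Q2, h2⟩ := hψ
  have h3 : Q1 * Q2 = Polynomial.X ^ (M1 + M2) := by
    refine Polynomial.eq_of_infinite_eval_eq _ _ ?_
    refine Set.Infinite.mono ?_ (Set.Infinite.sdiff (Set.infinite_univ (α := L))
      (Set.finite_singleton (0 : L)))
    rintro t ⟨-, ht⟩
    have ht0 : t ≠ 0 := ht
    change (Q1 * Q2).eval t = (Polynomial.X ^ (M1 + M2)).eval t
    rw [Polynomial.eval_mul, ← h1 t ht0, ← h2 t ht0, Polynomial.eval_pow, Polynomial.eval_X,
      pow_add]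
    linear_combination t ^ M1 * t ^ M2 * h t ht0
  have h4 : Q1 ∣ Polynomial.X ^ (M1 + M2) := ⟨Q2, h3.symm⟩
  obtain ⟨m, -, hm⟩ := (dvd_prime_pow Polynomial.prime_X _).1 h4
  obtain ⟨u, hu⟩ := hm.symm
  obtain ⟨c, hc, hcu⟩ := Polynomial.isUnit_iff.1 u.isUnit
  refine ⟨c, m, M1, hc.ne_zero, fun t ht => ?_⟩
  rw [h1 t ht, ← hu, ← hcu, Polynomial.eval_mul, Polynomial.eval_pow, Polynomial.eval_X,
    Polynomial.eval_C, mul_comm]

/-- A sum of two monomials which is a monomial. -/
theorem const_of_add {L : Type} [Field L] [CharZero L] {c e : L} {m M m' M' : ℕ} (hc : c ≠ 0)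
    (h : ∀ t : L, t ≠ 0 → c * t ^ (m + M') + e * t ^ (m' + M) = t ^ (M + M')) : m = M := by
  by_contra hne
  have h1 : Polynomial.C c * Polynomial.X ^ (m + M') + Polynomial.C e * Polynomial.X ^ (m' + M) =
      Polynomial.X ^ (M + M') := by
    refine Polynomial.eq_of_infinite_eval_eq _ _ ?_
    refine Set.Infinite.mono ?_ (Set.Infinite.sdiff (Set.infinite_univ (α := L))
      (Set.finite_singleton (0 : L)))
    rintro t ⟨-, ht⟩
    have ht0 : t ≠ 0 := ht
    change (_ : Polynomial L).eval t = (_ : Polynomial L).eval t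
    simp only [Polynomial.eval_add, Polynomial.eval_mul, Polynomial.eval_C, Polynomial.eval_pow,
      Polynomial.eval_X]
    exact h t ht0
  have h2 := congrArg (fun p => Polynomial.coeff p (m + M')) h1
  have h3 := congrArg (fun p => Polynomial.coeff p (M + M')) h1
  simp only [Polynomial.coeff_add, Polynomial.coeff_C_mul, Polynomial.coeff_X_pow] at h2 h3
  have e1 : ¬ (m + M' = M + M') := by omega
  have e2 : ¬ (M + M' = m + M') := by omega
  simp only [if_true, if_neg e1, mul_one] at h2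
  simp only [if_true, if_neg e2, mul_zero, zero_add] at h3
  by_cases h4 : m + M' = m' + M
  · have e3 : ¬ (M + M' = m' + M) := by omega
    rw [if_neg e3] at h3
    simp at h3
  · rw [if_neg h4] at h2
    apply hc
    simpa using h2

/-- The equations `x + y = 1`, `x z = 1`, `y w = 1`. -/
noncomputable def uF : Fin 3 → MvPolynomial (Fin 4) ℚ :=
  ![X 0 + X 1 - 1, X 0 * X 2 - 1, X 1 * X 3 - 1]

theorem uF_iff {L : Type} [Field L] [Algebra ℚ L] (x : Fin 4 → L) :
    (∀ i, aeval x (uF i) = 0) ↔ x 0 + x 1 = 1 ∧ x 0 * x 2 = 1 ∧ x 1 * x 3 = 1 := by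
  constructor
  · intro h
    have h0 := h 0
    have h1 := h 1
    have h2 := h 2
    simp only [uF, Matrix.cons_val_zero, Matrix.cons_val_one, Matrix.cons_val, map_sub, map_add,
      map_mul, aeval_X, map_one] at h0 h1 h2
    exact ⟨sub_eq_zero.1 h0, sub_eq_zero.1 h1, sub_eq_zero.1 h2⟩
  · rintro ⟨h0, h1, h2⟩ i
    fin_cases i
    · change aeval x (X 0 + X 1 - 1 : MvPolynomial (Fin 4) ℚ) = 0
      rw [map_sub, map_add, aeval_X, aeval_X, map_one, h0, sub_self]
    · change aeval x (X 0 * X 2 - 1 : MvPolynomial (Fin 4) ℚ) = 0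
      rw [map_sub, map_mul, aeval_X, aeval_X, map_one, h1, sub_self]
    · change aeval x (X 1 * X 3 - 1 : MvPolynomial (Fin 4) ℚ) = 0
      rw [map_sub, map_mul, aeval_X, aeval_X, map_one, h2, sub_self]

theorem noGm_uF : NoGmCurve uF := by
  intro L _ _ _ v hv hF t s ht hs
  have hL : CharZero L := charZero_of_injective_algebraMap (algebraMap ℚ L).injective
  have h := fun t (ht : t ≠ 0) => (uF_iff (v t)).1 fun i => hF i t ht
  obtain ⟨c, m, M, hc, h1⟩ := laur_unit (hv 0) (hv 2) fun t ht => (h t ht).2.1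
  obtain ⟨e, m', M', he, h2⟩ := laur_unit (hv 1) (hv 3) fun t ht => (h t ht).2.2
  have h3 : m = M := by
    refine const_of_add (e := e) (m' := m') (M' := M') hc fun t ht => ?_
    have h4 := h1 t ht
    have h5 := h2 t ht
    have h6 := (h t ht).1
    rw [pow_add, pow_add, pow_add]
    linear_combination (-(t ^ M')) * h4 - t ^ M * h5 + t ^ M * t ^ M' * h6
  have h7 : ∀ t, t ≠ 0 → v t 0 = c := by
    intro t ht
    have h4 := h1 t ht
    rw [h3] at h4
    exact mul_right_cancel₀ (pow_ne_zero _ ht) h4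
  have h8 : ∀ t, t ≠ 0 → v t 1 = 1 - c := by
    intro t ht
    rw [← h7 t ht]
    linear_combination (h t ht).1
  funext a
  fin_cases a
  · exact (h7 t ht).trans (h7 s hs).symm
  · exact (h8 t ht).trans (h8 s hs).symm
  · have e1 := (h t ht).2.1
    have e2 := (h s hs).2.1
    rw [h7 t ht] at e1
    rw [h7 s hs] at e2
    exact mul_left_cancel₀ hc (e1.trans e2.symm)
  · have e1 := (h t ht).2.2
    have e2 := (h s hs).2.2
    have h9 : v t 1 ≠ 0 := left_ne_zero_of_mul (by rw [e1]; exact one_ne_zero)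
    rw [h8 s hs, ← h8 t ht] at e2
    exact mul_left_cancel₀ h9 (e1.trans e2.symm)

theorem unit_off : UnitSumOff uF 1 1 := by
  obtain ⟨d, hd⟩ : ∃ d, ∀ i, (uF i).totalDegree ≤ d :=
    ⟨Finset.univ.sup fun i => (uF i).totalDegree, fun i =>
      Finset.le_sup (f := fun i => (uF i).totalDegree) (Finset.mem_univ i)⟩
  exact unitSumOff uF 1 1 (rationalOff uF 1 _ (heightsOff uF d hd 1 _
    (curCond_one uF d hd noGm_uF (4 * 1))))

/-- The unit equation over number fields. -/
theorem uf_nf (L : Type) [Field L] [NumberField L] : UF L := by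
  classical
  intro T
  obtain ⟨S, hS⟩ : ∃ S : Set (HeightOneSpectrum (𝓞 L)),
    S = ⋃ t ∈ T, HeightOneSpectrum.Support (𝓞 L) t := ⟨_, rfl⟩
  have hSf : S.Finite := by
    rw [hS]
    exact Set.Finite.biUnion T.finite_toSet fun t _ => HeightOneSpectrum.Support.finite (𝓞 L) t
  have hcl : ∀ v : HeightOneSpectrum (𝓞 L), v ∉ S → ∀ z ∈ Subring.closure (T : Set L),
      v.valuation L z ≤ 1 := by
    intro v hv z hz
    have h1 : Subring.closure (T : Set L) ≤ (v.valuation L).integer := by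
      rw [Subring.closure_le]
      intro t ht
      rw [SetLike.mem_coe, Valuation.mem_integer_iff]
      by_contra hcon
      apply hv
      rw [hS]
      exact Set.mem_biUnion (Finset.mem_coe.1 ht) (not_le.1 hcon)
    exact (Valuation.mem_integer_iff _ _).1 (h1 hz)
  have hun : ∀ z : L, z ≠ 0 → z ∈ Subring.closure (T : Set L) →
      z⁻¹ ∈ Subring.closure (T : Set L) → ∀ v : HeightOneSpectrum (𝓞 L), v ∉ S →
        v.valuation L z = 1 := by
    intro z hz h1 h2 v hv
    refine le_antisymm (hcl v hv z h1) ?_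
    have h3 := hcl v hv _ h2
    rw [map_inv₀] at h3
    have h4 : v.valuation L z ≠ 0 := (Valuation.ne_zero_iff _).2 hz
    exact (inv_le_one₀ (zero_lt_iff.2 h4)).1 h3
  refine ((unit_off L S hSf).image fun x => x 0).subset ?_
  rintro x ⟨h0, h1, h2, h3, h4, h5⟩
  have key : ∀ z : L, z ≠ 0 → z ∈ Subring.closure (T : Set L) →
      z⁻¹ ∈ Subring.closure (T : Set L) → UnitSum S 1 z := by
    intro z hz hz1 hz2
    refine ⟨Finset.univ, fun _ => Units.mk0 z hz, fun _ => ?_, by simp⟩
    intro v hv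
    exact hun z hz hz1 hz2 v hv
  refine ⟨![x, 1 - x, x⁻¹, (1 - x)⁻¹], ⟨⟨(uF_iff _).2 ⟨?_, ?_, ?_⟩, ?_⟩, fun a => ?_⟩, rfl⟩
  · change x + (1 - x) = 1
    ring
  · exact mul_inv_cancel₀ h0
  · exact mul_inv_cancel₀ h1
  · rw [map_one]
    exact one_ne_zero
  · fin_cases a
    · exact key x h0 h2 h3
    · exact key _ h1 h4 h5
    · exact key x⁻¹ (inv_ne_zero h0) h3 (by rw [inv_inv]; exact h2)
    · exact key (1 - x)⁻¹ (inv_ne_zero h1) h5 (by rw [inv_inv]; exact h4)

/-- The unit equation over finitely generated rings. -/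
theorem uf {K : Type} [Field K] [CharZero K] [IsAlgClosed K] : UF K := by
  classical
  refine uf_of_base fun T => ?_
  obtain ⟨L, hL⟩ : ∃ L, L = IntermediateField.adjoin ℚ (T : Set (algebraicClosure ℚ K)) :=
    ⟨_, rfl⟩
  have hfin : FiniteDimensional ℚ L := by
    rw [hL]
    refine IntermediateField.finiteDimensional_adjoin fun x _ => ?_
    have h1 := ((algebraicClosure.isAlgebraic ℚ K).isAlgebraic x).isIntegral
    convert h1
    exact Subsingleton.elim _ _
  have hnf : NumberField L := ⟨⟩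
  refine finite_of_range (K := L) L.val.toRingHom (T := T) (fun t ht => ?_) (uf_nf L)
  exact ⟨⟨t, by rw [hL]; exact IntermediateField.subset_adjoin _ _ ht⟩, rfl⟩

end Pool.Agent.Y741
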