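import Pool.Agent.Y741.Comb

/-!
Choices of the rows with coefficients that are natural numbers.
-/

set_option autoImplicit false

open MvPolynomial FF Pool.Agent.W603.LV Pool.Agent.W603.PV Pool.Agent.TH145.GH
open Pool.Agent.Y735 (lf pm tm pl Good exists_pl fht Mx mem_Mx exists_pairs pmx span_pmx imB imB_le
  compl_one pm_x pm_y sel span_tm sum_tm)

namespace Pool.Agent.Y741

variable {k K : Type} [Field k] [Field K] [Algebra k K] {n : ℕ} {A W B U T : Type}

/-- The data of the rows, with coefficients that are natural numbers. -/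
structure RN (n : ℕ) (A W B U T : Type) where
  /-- the elements of the linear group and of the torus -/
  wa : W → (Fin (n + 1) × Fin (n + 1)) ⊕ A
  /-- the forms of the pairs -/
  PB : B → A → MvPolynomial (Fin (n + 1)) ℕ
  /-- the first variables of the pairs -/
  jb : B → Fin (n + 1)
  /-- the second variables of the pairs -/
  lb : B → Fin (n + 1)
  /-- the forms of the third type -/
  PU : U → A → MvPolynomial (Fin (n + 1)) ℕ
  /-- the triples -/
  tu : U → Fin (n + 1) × Fin (n + 1) × Fin (n + 1)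
  /-- the forms of the fourth type -/
  PT : T → A → MvPolynomial (Fin (n + 1)) ℕ

variable (K) in
/-- A family over the field. -/
noncomputable def nf (Q : A → MvPolynomial (Fin (n + 1)) ℕ) : Fam K n A :=
  fun a => map (Nat.castRingHom K) (Q a)

variable (K) in
/-- The data over the field. -/
noncomputable def RN.rd (rn : RN n A W B U T) : RD K n A W B U T :=
  ⟨rn.wa, fun b => nf K (rn.PB b), rn.jb, rn.lb, fun b => nf K (rn.PU b), rn.tu,
    fun b => nf K (rn.PT b)⟩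

theorem exists_nat {p : MvPolynomial (Fin (n + 1)) K} {e : ℕ} (hp : p.IsHomogeneous e)
    (hc : Nc p) : ∃ q : MvPolynomial (Fin (n + 1)) ℕ, q.IsHomogeneous e ∧
      map (Nat.castRingHom K) q = p := by
  classical
  choose c hc using hc
  refine ⟨∑ u ∈ p.support, monomial u (c u), ?_, ?_⟩
  · refine IsHomogeneous.sum _ _ _ fun u hu => isHomogeneous_monomial _ (deg_of_mem hp hu)
  · rw [map_sum]
    conv_rhs => rw [p.as_sum]
    refine Finset.sum_congr rfl fun u _ => ?_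
    rw [MvPolynomial.map_monomial, hc u]
    rfl

theorem exists_nf {Q : Fam K n A} {dg : A → ℕ} (hQ : Q ∈ CS K n dg) :
    ∃ Q0 : A → MvPolynomial (Fin (n + 1)) ℕ, (∀ a, (Q0 a).IsHomogeneous (dg a - 1)) ∧
      nf K Q0 = Q := by
  choose Q0 h1 h2 using fun a => exists_nat (hQ.1 a) (hQ.2 a)
  exact ⟨Q0, h1, funext h2⟩

theorem nf_hom {Q0 : A → MvPolynomial (Fin (n + 1)) ℕ} {dg : A → ℕ}
    (h : ∀ a, (Q0 a).IsHomogeneous (dg a - 1)) (a : A) :
    (nf K Q0 a).IsHomogeneous (dg a - 1) := (h a).map _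

theorem nf_nc (Q0 : A → MvPolynomial (Fin (n + 1)) ℕ) (a : A) : Nc (nf K Q0 a) := fun u =>
  ⟨(Q0 a).coeff u, by unfold nf; rw [coeff_map]; rfl⟩

variable [DecidableEq A] [Fintype A]

/-- A valid choice of the rows. -/
structure VRD [Fintype W] [Fintype B] [Fintype U] [Fintype T] (F : Fam K n A) (dg : A → ℕ)
    (D : A → (Fin (n + 1) →₀ ℕ) → Derivation ℤ K K) (C : Finset A) (x y : Fin (n + 1) → K)
    (i0 : Fin (n + 1)) (ik : Fin (n + 1) × Fin (n + 1)) (rn : RN n A W B U T) : Prop where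
  PB : ∀ b a, (rn.PB b a).IsHomogeneous (dg a - 1)
  PU : ∀ b a, (rn.PU b a).IsHomogeneous (dg a - 1)
  PT : ∀ b a, (rn.PT b a).IsHomogeneous (dg a - 1)
  hT : ∀ t m, ∑ l, m l * x l = 0 → ∑ l, m l * y l = 0 → vq D x (nf K (rn.PT t)) m ∈
      Submodule.span K (row1 F dg D C x y i0 ik (rn.rd K) ''
        {κ | rk (Sum.inr κ : Ri C W B U T) < 2})
  card : C.card + 1 + Fintype.card W + 2 * Fintype.card B + Fintype.card U +
      Fintype.card T = n + 1
  span : TC F C x ≤ Submodule.span K (Set.range (row1 F dg D C x y i0 ik (rn.rd K)))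

section

variable {F : Fam K n A} {dg : A → ℕ}
  {D : A → (Fin (n + 1) →₀ ℕ) → Derivation ℤ K K} {e g : Place k K → ℤ}

/-- The inequality. -/
theorem VRD.ineq [CharZero k] [IsFF k K] [IsAlgClosed k]
    [Fintype W] [Fintype B] [Fintype U] [Fintype T]
    (hdat : DataL k F dg D e g) {C : Finset A} {x y : Fin (n + 1) → K}
    (hxC : ∀ c ∈ C, eval x (F c) = 0) (hxb : ∀ b, b ∉ C → eval x (F b) ≠ 0)
    {i0 : Fin (n + 1)} (hi0 : x i0 ≠ 0) {ik : Fin (n + 1) × Fin (n + 1)} (hik : pl x y ik ≠ 0)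
    {rn : RN n A W B U T} (h : VRD F dg D C x y i0 ik rn) (hP : PlOK dg D e F C x) :
    (((∑ a, dg a : ℕ) : ℤ) - ((n + 1 + Fintype.card B + Fintype.card T : ℕ) : ℤ)) * pht k x +
      ((Fintype.card T : ℤ) - Fintype.card U) * fht k (pl x y) ≤ CL n A e g :=
  global_ineq hdat hxC hxb hi0 hik (rn.rd K) (fun b a => nf_hom (h.PB b) a)
    (fun b a => nf_hom (h.PU b) a) (fun b a => nf_hom (h.PT b) a) (fun b a => nf_nc _ a)
    (fun b a => nf_nc _ a) (fun b a => nf_nc _ a) hP h.hT h.card h.span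

end

section cases

variable {F : Fam K n A} {dg : A → ℕ} {D : A → (Fin (n + 1) →₀ ℕ) → Derivation ℤ K K}
  [Infinite K] (hpos : ∀ a, 0 < dg a) (hF : ∀ a, (F a).IsHomogeneous (dg a))
  (hD : TH145.GC.Dual F dg D)

include hpos hF hD

/-- The first case, even. -/
theorem vrd_even (hn : 1 ≤ n) {C : Finset A} {x : Fin (n + 1) → K}
    (hxC : ∀ c ∈ C, eval x (F c) = 0) (hxb : ∀ b, b ∉ C → eval x (F b) ≠ 0) (hx0 : x ≠ 0)
    (hG : Good (Bset D x dg) (TC F C x) (Wsp F D x)) {p : ℕ}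
    (hp : C.card + Module.finrank K (Wsp F D x) + 2 * p = n + 1) :
    ∃ (w : ℕ) (rn : RN n A (Fin w) (Fin p) (Fin 0) (Fin 0)) (y : Fin (n + 1) → K)
      (i0 : Fin (n + 1)) (ik : Fin (n + 1) × Fin (n + 1)), x i0 ≠ 0 ∧ pl x y ik ≠ 0 ∧
      VRD F dg D C x y i0 ik rn := by
  classical
  obtain ⟨i0, hi0⟩ := Function.ne_iff.1 hx0
  have hi0' : x i0 ≠ 0 := hi0
  have hker := TC_finrank hF hD hxC hx0
  obtain ⟨a, v, ha, hv⟩ := exists_wa F D hx0
  obtain ⟨b, i, j, hb, hfin⟩ := exists_pairs (pmx x i0) (span_pmx hi0') (Bset D x dg)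
    (TC F C x) p (Wsp F D x) (im_top hpos hF hD hxC hxb hx0) hG
    (by omega)
  choose Q hQ hbQ using fun a => mem_Bset.1 (hb a)
  choose Q0 hQ0 hQQ using fun a => exists_nf (hQ a)
  -- a second point
  obtain ⟨y, ik, hik⟩ : ∃ (y : Fin (n + 1) → K) (ik : Fin (n + 1) × Fin (n + 1)),
      pl x y ik ≠ 0 := by
    obtain ⟨l, hl⟩ : ∃ l, l ≠ i0 := by
      have : Nontrivial (Fin (n + 1)) := Fin.nontrivial_iff_two_le.2 (by omega)
      exact exists_ne i0
    refine ⟨Pi.single l 1, (i0, l), ?_⟩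
    simp only [pl, Pi.single_eq_same, mul_one]
    rw [Pi.single_eq_of_ne hl.symm, mul_zero, sub_zero]
    exact hi0'
  obtain ⟨rn, hrn⟩ : ∃ rn : RN n A (Fin a) (Fin p) (Fin 0) (Fin 0),
      rn = ⟨v, Q0, i, j, fun e => e.elim0, fun e => e.elim0, fun e => e.elim0⟩ := ⟨_, rfl⟩
  have hwa : (rn.rd K).wa = v := by rw [hrn]; rfl
  have hPB : (rn.rd K).PB = Q := by rw [hrn]; exact funext hQQ
  have hjb : (rn.rd K).jb = i := by rw [hrn]; rfl
  have hlb : (rn.rd K).lb = j := by rw [hrn]; rfl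
  have hW : Wsp F D x ≤ Submodule.span K (Set.range (row1 F dg D C x y i0 ik (rn.rd K))) :=
    (Wsp_le_rows F dg D C x y i0 ik (rn.rd K) (by rw [hwa]; exact hv)).trans
      (Submodule.span_mono (Set.image_subset_range _ _))
  refine ⟨a, rn, y, i0, ik, hi0', hik, fun b => ?_, fun b => b.elim0, fun b => b.elim0,
    fun b => b.elim0, ?_, ?_⟩
  · rw [hrn]
    exact hQ0 b
  · rw [Fintype.card_fin, Fintype.card_fin, Fintype.card_fin]
    omega
  · have h2 : Wsp F D x ⊔ Submodule.span K (Set.range (fun a => b a (pmx x i0 (i a))) ∪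
        Set.range (fun a => b a (pmx x i0 (j a)))) = TC F C x := by
      refine Submodule.eq_of_le_of_finrank_eq ?_ (by rw [hfin]; omega)
      refine sup_le (Wsp_le hpos hF hD hxC) ?_
      rw [Submodule.span_le]
      rintro _ (⟨a, rfl⟩ | ⟨a, rfl⟩)
      · dsimp only
        rw [hbQ a]
        exact vq_mem_TC hpos hF hD hxC (hQ a).1 (mem_Mx.1 (pmx x i0 (i a)).2)
      · dsimp only
        rw [hbQ a]
        exact vq_mem_TC hpos hF hD hxC (hQ a).1 (mem_Mx.1 (pmx x i0 (j a)).2)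
    rw [← h2]
    refine sup_le hW ?_
    rw [Submodule.span_le]
    rintro _ (⟨a, rfl⟩ | ⟨a, rfl⟩)
    · dsimp only
      rw [hbQ a]
      refine Submodule.subset_span ⟨some (Sum.inr (Sum.inl (Sum.inl a))), ?_⟩
      change vq D x ((rn.rd K).PB a) (pm x i0 ((rn.rd K).jb a)) = _
      rw [hPB, hjb]
      rfl
    · dsimp only
      rw [hbQ a]
      refine Submodule.subset_span ⟨some (Sum.inr (Sum.inl (Sum.inr a))), ?_⟩
      change vq D x ((rn.rd K).PB a) (pm x i0 ((rn.rd K).lb a)) = _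
      rw [hPB, hlb]
      rfl

/-- The first case, odd. -/
theorem vrd_odd {C : Finset A} {x : Fin (n + 1) → K}
    (hxC : ∀ c ∈ C, eval x (F c) = 0) (hxb : ∀ b, b ∉ C → eval x (F b) ≠ 0) (hx0 : x ≠ 0)
    (hG : Good (Bset D x dg) (TC F C x) (Wsp F D x)) {p : ℕ}
    (hp : C.card + Module.finrank K (Wsp F D x) + 2 * p + 1 = n + 1) :
    ∃ (w : ℕ) (rn : RN n A (Fin w) (Fin p) (Fin 0) (Fin 1)) (y : Fin (n + 1) → K)
      (i0 : Fin (n + 1)) (ik : Fin (n + 1) × Fin (n + 1)), x i0 ≠ 0 ∧ pl x y ik ≠ 0 ∧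
      VRD F dg D C x y i0 ik rn := by
  classical
  obtain ⟨i0, hi0⟩ := Function.ne_iff.1 hx0
  have hi0' : x i0 ≠ 0 := hi0
  have hker := TC_finrank hF hD hxC hx0
  obtain ⟨a, v, ha, hv⟩ := exists_wa F D hx0
  have him := im_top hpos hF hD hxC hxb hx0
  obtain ⟨b, i, j, hb, hfin⟩ := exists_pairs (pmx x i0) (span_pmx hi0') (Bset D x dg)
    (TC F C x) p (Wsp F D x) him hG (by omega)
  choose Q hQ hbQ using fun a => mem_Bset.1 (hb a)
  choose Q0 hQ0 hQQ using fun a => exists_nf (hQ a)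
  obtain ⟨D', hD'⟩ : ∃ D', D' = Wsp F D x ⊔ Submodule.span K
    (Set.range (fun a => b a (pmx x i0 (i a))) ∪
          Set.range (fun a => b a (pmx x i0 (j a)))) := ⟨_, rfl⟩
  rw [← hD'] at hfin
  have hD'T : D' ≤ TC F C x := by
    rw [hD']
    refine sup_le (Wsp_le hpos hF hD hxC) ?_
    rw [Submodule.span_le]
    rintro _ (⟨a, rfl⟩ | ⟨a, rfl⟩)
    · dsimp only
      rw [hbQ a]
      exact vq_mem_TC hpos hF hD hxC (hQ a).1 (mem_Mx.1 (pmx x i0 (i a)).2)
    · dsimp only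
      rw [hbQ a]
      exact vq_mem_TC hpos hF hD hxC (hQ a).1 (mem_Mx.1 (pmx x i0 (j a)).2)
  -- the last vector
  obtain ⟨Q1, hQ1, m0, hm0⟩ : ∃ Q0 ∈ CS K n dg, ∃ m : Mx x, bmap D x Q0 m ∉ D' := by
    by_contra hcon
    push Not at hcon
    have h1 : TC F C x ≤ D' := by
      rw [← him]
      refine sup_le (imB_le ?_) (by rw [hD']; exact le_sup_left)
      rintro b ⟨Q, hQ, rfl⟩ m -
      exact hcon Q hQ m
    have := Submodule.finrank_mono h1
    omega
  have hmemT : ∀ m : Mx x, bmap D x Q1 m ∈ TC F C x := fun m =>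
    vq_mem_TC hpos hF hD hxC hQ1.1 (mem_Mx.1 m.2)
  obtain ⟨ψ, hψ0, hψ⟩ := Submodule.exists_dual_map_eq_bot_of_notMem hm0 inferInstance
  have hψD : ∀ z ∈ D', ψ z = 0 := by
    intro z hz
    have h1 : ψ z ∈ D'.map ψ := Submodule.mem_map_of_mem hz
    rw [hψ] at h1
    exact (Submodule.mem_bot K).1 h1
  obtain ⟨φ, hφ⟩ : ∃ φ : Mx x →ₗ[K] K, ∀ m, φ m = ψ (bmap D x Q1 m) :=
    ⟨ψ ∘ₗ bmap D x Q1, fun _ => rfl⟩
  have hφ0 : φ ≠ 0 := by
    intro h0
    apply hψ0
    rw [← hφ, h0, LinearMap.zero_apply]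
  have hφker : ∀ m, φ m = 0 → bmap D x Q1 m ∈ D' := by
    intro m hm
    have h1 := compl_one hD'T (by omega) (hmemT m0) hm0
    have h2 := hmemT m
    rw [← h1] at h2
    obtain ⟨z, hz, w, hw, hzw⟩ := Submodule.mem_sup.1 h2
    obtain ⟨c, rfl⟩ := Submodule.mem_span_singleton.1 hw
    rw [hφ, ← hzw, map_add, hψD z hz, zero_add, map_smul, smul_eq_mul] at hm
    rcases mul_eq_zero.1 hm with h3 | h3
    · rw [← hzw, h3, zero_smul, add_zero]; exact hz
    · exact absurd h3 hψ0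
  obtain ⟨y, hy, ik, hik⟩ := exists_pl hx0 hφ0
  obtain ⟨Q2, hQ2, hQ21⟩ := exists_nf hQ1
  obtain ⟨rn, hrn⟩ : ∃ rn : RN n A (Fin a) (Fin p) (Fin 0) (Fin 1),
      rn = ⟨v, Q0, i, j, fun e => e.elim0, fun e => e.elim0, fun _ => Q2⟩ := ⟨_, rfl⟩
  have hwa : (rn.rd K).wa = v := by rw [hrn]; rfl
  have hPB : (rn.rd K).PB = Q := by rw [hrn]; exact funext hQQ
  have hjb : (rn.rd K).jb = i := by rw [hrn]; rfl
  have hlb : (rn.rd K).lb = j := by rw [hrn]; rfl
  have hPT : ∀ t, nf K (rn.PT t) = Q1 := fun t => by rw [hrn]; exact hQ21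
  have hW := Wsp_le_rows F dg D C x y i0 ik (rn.rd K) (by rw [hwa]; exact hv)
  have hD'row : D' ≤ Submodule.span K (row1 F dg D C x y i0 ik (rn.rd K) ''
        {κ | rk (Sum.inr κ : Ri C (Fin a) (Fin p) (Fin 0) (Fin 1)) < 2}) := by
    rw [hD']
    refine sup_le hW ?_
    rw [Submodule.span_le]
    rintro _ (⟨a, rfl⟩ | ⟨a, rfl⟩)
    · dsimp only
      rw [hbQ a]
      refine Submodule.subset_span ⟨some (Sum.inr (Sum.inl (Sum.inl a))), by simp [rk], ?_⟩
      change vq D x ((rn.rd K).PB a) (pm x i0 ((rn.rd K).jb a)) = _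
      rw [hPB, hjb]
      rfl
    · dsimp only
      rw [hbQ a]
      refine Submodule.subset_span ⟨some (Sum.inr (Sum.inl (Sum.inr a))), by simp [rk], ?_⟩
      change vq D x ((rn.rd K).PB a) (pm x i0 ((rn.rd K).lb a)) = _
      rw [hPB, hlb]
      rfl
  refine ⟨a, rn, y, i0, ik, hi0', hik, fun b => ?_, fun b => b.elim0, fun b => ?_,
    fun t m hmx hmy => ?_, ?_, ?_⟩
  · rw [hrn]; exact hQ0 b
  · rw [hrn]; exact hQ2
  · refine hD'row ?_
    rw [hPT]
    exact hφker ⟨m, mem_Mx.2 hmx⟩ (by rw [hy]; exact hmy)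
  · rw [Fintype.card_fin, Fintype.card_fin, Fintype.card_fin, Fintype.card_fin]
    omega
  · obtain ⟨m1, hm1⟩ : ∃ m1 : Mx x, (m1 : Fin (n + 1) → K) =
      (pl x y ik)⁻¹ • pm x ik.1 ik.2 := ⟨⟨_, mem_Mx.2 (pm_x x y ik)⟩, rfl⟩
    have hφ1 : φ m1 = 1 := by rw [hy, hm1, pm_y x y hik]
    have h2 : bmap D x Q1 m1 ∉ D' := by
      intro h2
      have h3 := hψD _ h2
      rw [← hφ, hφ1] at h3
      exact one_ne_zero h3
    rw [← compl_one hD'T (by omega) (hmemT m1) h2]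
    refine sup_le (hD'row.trans (Submodule.span_mono (Set.image_subset_range _ _))) ?_
    rw [Submodule.span_le, Set.singleton_subset_iff]
    refine Submodule.subset_span ⟨some (Sum.inr (Sum.inr (Sum.inr 0))), ?_⟩
    change vq D x (nf K (rn.PT 0)) ((pl x y ik)⁻¹ • pm x ik.1 ik.2) = _
    rw [bmap_apply, hm1, hPT]

/-- The second case. -/
theorem vrd_line {C : Finset A} {x : Fin (n + 1) → K}
    (hxC : ∀ c ∈ C, eval x (F c) = 0) (hxb : ∀ b, b ∉ C → eval x (F b) ≠ 0)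
    {y : Fin (n + 1) → K} {ik : Fin (n + 1) × Fin (n + 1)} (hik : pl x y ik ≠ 0) {j r : ℕ}
    (hj : Module.finrank K (Wsp F D x) + j = Module.finrank K (Vl F dg D x y))
    (hr : C.card + Module.finrank K (Vl F dg D x y) + r = n + 1) :
    ∃ (w : ℕ) (rn : RN n A (Fin w) (Fin 0) (Fin j) (Fin r)) (i0 : Fin (n + 1)), x i0 ≠ 0 ∧
      VRD F dg D C x y i0 ik rn := by
  classical
  have hx0 : x ≠ 0 := by
    rintro rfl
    apply hik
    simp [pl]
  obtain ⟨i0, hi0⟩ := Function.ne_iff.1 hx0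
  have hi0' : x i0 ≠ 0 := hi0
  have hker := TC_finrank hF hD hxC hx0
  obtain ⟨a, v, ha, hv⟩ := exists_wa F D hx0
  have him := im_top hpos hF hD hxC hxb hx0
  -- the forms that vanish on the line
  obtain ⟨w1, hw1⟩ : ∃ w1 : CS K n dg × Fin (n + 1) × Fin (n + 1) × Fin (n + 1) →
      Fin (n + 1) → K, ∀ q, w1 q = vq D x (q.1 : Fam K n A) (tm (pl x y) q.2) := ⟨_, fun _ => rfl⟩
  have hV1 : Wsp F D x ⊔ Submodule.span K (Set.range w1) = Vl F dg D x y := by
    unfold Vl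
    refine le_antisymm (sup_le le_sup_left ?_) (sup_le le_sup_left ?_)
    · rw [Submodule.span_le]
      rintro _ ⟨q, rfl⟩
      rw [hw1]
      exact Submodule.mem_sup_right (Submodule.subset_span
        ⟨_, _, q.1.2.1, (sum_tm x y _).1, (sum_tm x y _).2, rfl⟩)
    · rw [Submodule.span_le]
      rintro _ ⟨Q, m, hQ, hmx, hmy, rfl⟩
      refine vq_mem_of_nat D x _ (fun Q' hQ' => Submodule.mem_sup_right ?_) hQ
      rw [span_tm hik hmx hmy, map_sum]
      refine sum_mem fun c _ => ?_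
      rw [map_smul]
      refine Submodule.smul_mem _ _ (Submodule.subset_span ⟨(⟨Q', hQ'⟩, (ik.1, ik.2, c)), ?_⟩)
      rw [hw1]
  obtain ⟨v1, hv1⟩ := sel w1 j (Wsp F D x) (by rw [hV1, hj])
  rw [hV1] at hv1
  -- the other forms
  obtain ⟨w2, hw2⟩ : ∃ w2 : CS K n dg → Fin (n + 1) → K,
      ∀ q, w2 q = vq D x (q : Fam K n A) ((pl x y ik)⁻¹ • pm x ik.1 ik.2) := ⟨_, fun _ => rfl⟩
  have hV2 : Vl F dg D x y ⊔ Submodule.span K (Set.range w2) = TC F C x := by
    refine le_antisymm (sup_le (sup_le (Wsp_le hpos hF hD hxC) ?_) ?_) ?_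
    · rw [Submodule.span_le]
      rintro _ ⟨Q, m, hQ, hmx, hmy, rfl⟩
      exact vq_mem_TC hpos hF hD hxC hQ hmx
    · rw [Submodule.span_le]
      rintro _ ⟨q, rfl⟩
      rw [hw2]
      exact vq_mem_TC hpos hF hD hxC q.2.1 (pm_x x y ik)
    · rw [← him]
      refine sup_le (imB_le ?_) (le_sup_left.trans le_sup_left)
      rintro b ⟨Q, hQ, rfl⟩ m -
      have hmx := mem_Mx.1 m.2
      obtain ⟨s, hs⟩ : ∃ s, s = ∑ l, (m : Fin (n + 1) → K) l * y l := ⟨_, rfl⟩
      have h1 : (m : Fin (n + 1) → K) = s • ((pl x y ik)⁻¹ • pm x ik.1 ik.2) +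
          ((m : Fin (n + 1) → K) - s • ((pl x y ik)⁻¹ • pm x ik.1 ik.2)) := by abel
      rw [bmap_apply, h1, map_add, map_smul]
      refine add_mem (Submodule.mem_sup_right (Submodule.smul_mem _ _
        (Submodule.subset_span ⟨⟨Q, hQ⟩, hw2 _⟩))) (Submodule.mem_sup_left
        (Submodule.mem_sup_right (Submodule.subset_span ⟨Q, _, hQ.1, ?_, ?_, rfl⟩)))
      · simp only [Pi.sub_apply, sub_mul, Finset.sum_sub_distrib]
        rw [hmx, zero_sub, neg_eq_zero]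
        have h2 := pm_x x y ik
        simp only [Pi.smul_apply s, smul_eq_mul, mul_assoc] at h2 ⊢
        rw [← Finset.mul_sum]
        simp only [Pi.smul_apply, smul_eq_mul, mul_assoc] at h2 ⊢
        rw [h2, mul_zero]
      · simp only [Pi.sub_apply, sub_mul, Finset.sum_sub_distrib]
        rw [← hs, sub_eq_zero]
        have h2 := pm_y x y hik
        simp only [Pi.smul_apply s, smul_eq_mul, mul_assoc] at h2 ⊢
        rw [← Finset.mul_sum]
        simp only [Pi.smul_apply, smul_eq_mul, mul_assoc] at h2 ⊢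
        rw [h2, mul_one]
  obtain ⟨v2, hv2⟩ := sel w2 r (Vl F dg D x y) (by rw [hV2]; omega)
  rw [hV2] at hv2
  choose Q1 hQ1 hQ11 using fun u => exists_nf (v1 u).1.2
  choose Q2 hQ2 hQ22 using fun t => exists_nf (v2 t).2
  obtain ⟨rn, hrn⟩ : ∃ rn : RN n A (Fin a) (Fin 0) (Fin j) (Fin r),
      rn = ⟨v, fun e => e.elim0, fun e => e.elim0, fun e => e.elim0, Q1,
        fun u => (v1 u).2, Q2⟩ := ⟨_, rfl⟩
  have hwa : (rn.rd K).wa = v := by rw [hrn]; rfl
  have hPU : ∀ u, (rn.rd K).PU u = (v1 u).1 := fun u => by rw [hrn]; exact hQ11 u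
  have htu : ∀ u, (rn.rd K).tu u = (v1 u).2 := fun u => by rw [hrn]; rfl
  have hPT : ∀ t, nf K (rn.PT t) = v2 t := fun t => by rw [hrn]; exact hQ22 t
  have hW := Wsp_le_rows F dg D C x y i0 ik (rn.rd K) (by rw [hwa]; exact hv)
  have hVrow : Vl F dg D x y ≤ Submodule.span K (row1 F dg D C x y i0 ik (rn.rd K) ''
        {κ | rk (Sum.inr κ : Ri C (Fin a) (Fin 0) (Fin j) (Fin r)) < 2}) := by
    rw [← hv1]
    refine sup_le hW ?_
    rw [Submodule.span_le]
    rintro _ ⟨u, rfl⟩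
    rw [Function.comp_apply, hw1]
    refine Submodule.subset_span ⟨some (Sum.inr (Sum.inr (Sum.inl u))), by simp [rk], ?_⟩
    change vq D x ((rn.rd K).PU u) (tm (pl x y) ((rn.rd K).tu u)) = _
    rw [hPU, htu]
  refine ⟨a, rn, i0, hi0', fun b => b.elim0, fun u => ?_, fun t => ?_, fun t m hmx hmy => ?_,
    ?_, ?_⟩
  · rw [hrn]; exact hQ1 u
  · rw [hrn]; exact hQ2 t
  · rw [hPT]
    exact hVrow (Submodule.mem_sup_right (Submodule.subset_span
      ⟨_, m, (v2 t).2.1, hmx, hmy, rfl⟩))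
  · rw [Fintype.card_fin, Fintype.card_fin, Fintype.card_fin, Fintype.card_fin]
    omega
  · rw [← hv2]
    refine sup_le (hVrow.trans (Submodule.span_mono (Set.image_subset_range _ _))) ?_
    rw [Submodule.span_le]
    rintro _ ⟨t, rfl⟩
    rw [Function.comp_apply, hw2]
    refine Submodule.subset_span ⟨some (Sum.inr (Sum.inr (Sum.inr t))), ?_⟩
    change vq D x (nf K (rn.PT t)) ((pl x y ik)⁻¹ • pm x ik.1 ik.2) = _
    rw [hPT]

end cases

end Pool.Agent.Y741
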