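import Pool.Agent.Y735.Vec
import Pool.Agent.TH145.GC.Est

/-!
Vector fields given by families of forms.
-/

set_option autoImplicit false

open MvPolynomial FF Pool.Agent.W603.LV Pool.Agent.W603.PV Pool.Agent.TH145.GH Pool.Agent.Y735

namespace Pool.Agent.Y741

/-- Families of forms. -/
abbrev Fam (K : Type) [Field K] (n : ℕ) (A : Type) := A → MvPolynomial (Fin (n + 1)) K

variable {K : Type} [Field K] {n : ℕ} {A : Type}

section basic

variable [Fintype A]

/-- The derivation `∑ G_{a,J} D_{a,J}`. -/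
noncomputable def DA (D : A → (Fin (n + 1) →₀ ℕ) → Derivation ℤ K K) :
    Fam K n A →ₗ[K] Derivation ℤ K K :=
  ∑ a, DD (D a) ∘ₗ LinearMap.proj a

theorem DA_eq (D : A → (Fin (n + 1) →₀ ℕ) → Derivation ℤ K K) (G : Fam K n A) :
    DA D G = ∑ a, DD (D a) (G a) := by
  unfold DA
  rw [LinearMap.sum_apply]
  rfl

theorem DA_apply (D : A → (Fin (n + 1) →₀ ℕ) → Derivation ℤ K K) (G : Fam K n A) (f : K) :
    DA D G f = ∑ a, DD (D a) (G a) f := by
  rw [DA_eq, ← Derivation.coeFnAddMonoidHom_apply, map_sum, Finset.sum_apply]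
  rfl

theorem DA_add (D : A → (Fin (n + 1) →₀ ℕ) → Derivation ℤ K K) (G H : Fam K n A) (f : K) :
    DA D (G + H) f = DA D G f + DA D H f := by
  rw [map_add]; rfl

theorem DA_smul (D : A → (Fin (n + 1) →₀ ℕ) → Derivation ℤ K K) (c : K) (G : Fam K n A) (f : K) :
    DA D (c • G) f = c * DA D G f := by
  rw [map_smul]; rfl

/-- The vector `D_G x`. -/
noncomputable def vA (D : A → (Fin (n + 1) →₀ ℕ) → Derivation ℤ K K) (x : Fin (n + 1) → K) :
    Fam K n A →ₗ[K] (Fin (n + 1) → K) where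
  toFun G := fun l => DA D G (x l)
  map_add' G H := by funext l; exact DA_add D G H (x l)
  map_smul' c G := by funext l; exact DA_smul D c G (x l)

theorem vA_apply (D : A → (Fin (n + 1) →₀ ℕ) → Derivation ℤ K K) (x : Fin (n + 1) → K)
    (G : Fam K n A) (l : Fin (n + 1)) : vA D x G l = DA D G (x l) := rfl

theorem vA_sum (D : A → (Fin (n + 1) →₀ ℕ) → Derivation ℤ K K) (x : Fin (n + 1) → K)
    (G : Fam K n A) : vA D x G = ∑ a, vec (D a) x (G a) := by
  funext l
  rw [vA_apply, DA_apply, Finset.sum_apply]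
  rfl

theorem vA_scale (D : A → (Fin (n + 1) →₀ ℕ) → Derivation ℤ K K) (x : Fin (n + 1) → K) (lam : K)
    (G : Fam K n A) : vA D (lam • x) G = lam • vA D x G + DA D G lam • x := by
  funext l
  rw [vA_apply, Pi.add_apply, Pi.smul_apply, Pi.smul_apply, Pi.smul_apply, vA_apply,
    smul_eq_mul, (DA D G).leibniz]
  simp only [smul_eq_mul]
  ring

/-- The family of the products with a linear form. -/
noncomputable def ql (Q : Fam K n A) : (Fin (n + 1) → K) →ₗ[K] Fam K n A :=
  LinearMap.pi fun a => LinearMap.mulLeft K (Q a) ∘ₗ lf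

omit [Fintype A] in
theorem ql_apply (Q : Fam K n A) (m : Fin (n + 1) → K) (a : A) : ql Q m a = Q a * lf m := rfl

omit [Fintype A] in
theorem ql_add (Q R : Fam K n A) (m : Fin (n + 1) → K) : ql (Q + R) m = ql Q m + ql R m := by
  funext a
  rw [ql_apply, Pi.add_apply, add_mul, Pi.add_apply, ql_apply, ql_apply]

/-- The vector field given by a family of forms of degree `d - 1` and a linear form. -/
noncomputable def vq (D : A → (Fin (n + 1) →₀ ℕ) → Derivation ℤ K K) (x : Fin (n + 1) → K)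
    (Q : Fam K n A) : (Fin (n + 1) → K) →ₗ[K] (Fin (n + 1) → K) := vA D x ∘ₗ ql Q

theorem vq_apply (D : A → (Fin (n + 1) →₀ ℕ) → Derivation ℤ K K) (x : Fin (n + 1) → K)
    (Q : Fam K n A) (m : Fin (n + 1) → K) : vq D x Q m = vA D x (ql Q m) := rfl

theorem vq_scale (D : A → (Fin (n + 1) →₀ ℕ) → Derivation ℤ K K) (x : Fin (n + 1) → K) (lam : K)
    (Q : Fam K n A) (m : Fin (n + 1) → K) :
    vq D (lam • x) Q m = lam • vq D x Q m + DA D (ql Q m) lam • x := vA_scale D x lam _

/-- The order of `D_G f`. -/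
theorem ge_DA {k : Type} [Field k] [Algebra k K] (P : Place k K) {dg : A → ℕ}
    {D : A → (Fin (n + 1) →₀ ℕ) → Derivation ℤ K K} {m c : ℤ} {f : K}
    (he : ∀ a, ∀ I : Fin (n + 1) →₀ ℕ, I.degree = dg a → Ge P m (D a I f))
    {G : Fam K n A} (hG : ∀ a, (G a).IsHomogeneous (dg a)) (hc : ∀ a u, Ge P c ((G a).coeff u)) :
    Ge P (c + m) (DA D G f) := by
  rw [DA_apply]
  refine Ge.sum _ _ fun a _ => ?_
  rw [DD_apply]
  refine Ge.sum _ _ fun J hJ => ?_
  exact (hc a J).mul (he a J (deg_of_mem (hG a) hJ))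

end basic

section dual

variable [DecidableEq A] {F : Fam K n A} {dg : A → ℕ}
  {D : A → (Fin (n + 1) →₀ ℕ) → Derivation ℤ K K}

theorem dF_sum (G : MvPolynomial (Fin (n + 1)) K) (x : Fin (n + 1) → K) {ι : Type*}
    (s : Finset ι) (f : ι → Fin (n + 1) → K) : dF G x (∑ J ∈ s, f J) = ∑ J ∈ s, dF G x (f J) := by
  unfold dF
  rw [Finset.sum_comm]
  refine Finset.sum_congr rfl fun l _ => ?_
  rw [Finset.sum_apply, Finset.mul_sum]

theorem dF_vec1 (hF : ∀ a, (F a).IsHomogeneous (dg a)) (hD : TH145.GC.Dual F dg D)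
    (x : Fin (n + 1) → K) {a : A} {G : MvPolynomial (Fin (n + 1)) K}
    (hG : G.IsHomogeneous (dg a)) (b : A) :
    dF (F b) x (vec (D a) x G) = DD (D a) G (eval x (F b)) - if a = b then eval x G else 0 := by
  have h1 : vec (D a) x G = ∑ J ∈ G.support, G.coeff J • TH145.GC.Ev D x a J := by
    funext l
    rw [vec_apply, DD_apply, Finset.sum_apply]
    rfl
  have h3 : (if a = b then eval x G else 0) =
      ∑ J ∈ G.support, G.coeff J * if a = b then mon x J else 0 := by
    split_ifs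
    · exact eval_mon x G
    · simp
  rw [h1, dF_sum, DD_apply, h3, ← Finset.sum_sub_distrib]
  refine Finset.sum_congr rfl fun J hJ => ?_
  rw [dF_smul, TH145.GC.dF_Ev hF hD x (deg_of_mem hG hJ)]
  ring

variable [Fintype A]

/-- The differentials of the forms at the vector `D_G x`. -/
theorem dF_vA (hF : ∀ a, (F a).IsHomogeneous (dg a)) (hD : TH145.GC.Dual F dg D)
    (x : Fin (n + 1) → K) {G : Fam K n A} (hG : ∀ a, (G a).IsHomogeneous (dg a)) (b : A) :
    dF (F b) x (vA D x G) = DA D G (eval x (F b)) - eval x (G b) := by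
  rw [vA_sum, dF_sum, DA_apply, Finset.sum_congr rfl fun a _ => dF_vec1 hF hD x (hG a) b,
    Finset.sum_sub_distrib, Finset.sum_ite_eq' Finset.univ b, if_pos (Finset.mem_univ b)]

omit [Fintype A] in
theorem DD_coeff1 (hF : ∀ a, (F a).IsHomogeneous (dg a)) (hD : TH145.GC.Dual F dg D)
    {a : A} {G : MvPolynomial (Fin (n + 1)) K} (hG : G.IsHomogeneous (dg a)) (b : A)
    (J : Fin (n + 1) →₀ ℕ) :
    DD (D a) G ((F b).coeff J) = if a = b then G.coeff J else 0 := by
  classical
  rw [DD_apply]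
  by_cases hJ : J.degree = dg b
  · by_cases hab : a = b
    · subst hab
      rw [if_pos rfl]
      have h1 : ∀ I ∈ G.support, G.coeff I * D a I ((F a).coeff J) =
          if I = J then G.coeff I else 0 := by
        intro I hI
        split_ifs with h
        · rw [(hD a a I J (deg_of_mem hG hI) hJ).1 rfl h, mul_one]
        · rw [(hD a a I J (deg_of_mem hG hI) hJ).2 (Or.inr h), mul_zero]
      rw [Finset.sum_congr rfl h1, Finset.sum_ite_eq' G.support J]
      split_ifs with h
      · rfl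
      · rw [notMem_support_iff.1 h]
    · rw [if_neg hab]
      refine Finset.sum_eq_zero fun I hI => ?_
      rw [(hD a b I J (deg_of_mem hG hI) hJ).2 (Or.inl hab), mul_zero]
  · have h1 : (F b).coeff J = 0 := by
      by_contra h
      exact hJ (deg_of_mem (hF b) (mem_support_iff.2 h))
    have h2 : (if a = b then G.coeff J else 0) = 0 := by
      split_ifs with hab
      · subst hab
        by_contra h
        exact hJ (deg_of_mem hG (mem_support_iff.2 h))
      · rfl
    rw [h1, h2]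
    exact Finset.sum_eq_zero fun I _ => by rw [map_zero, mul_zero]

/-- `D_G F = G`. -/
theorem DA_coeff (hF : ∀ a, (F a).IsHomogeneous (dg a)) (hD : TH145.GC.Dual F dg D)
    {G : Fam K n A} (hG : ∀ a, (G a).IsHomogeneous (dg a)) (b : A) (J : Fin (n + 1) →₀ ℕ) :
    DA D G ((F b).coeff J) = (G b).coeff J := by
  rw [DA_apply, Finset.sum_congr rfl fun a _ => DD_coeff1 hF hD (hG a) b J,
    Finset.sum_ite_eq' Finset.univ b, if_pos (Finset.mem_univ b)]

end dual

section lin

variable [DecidableEq A] [Fintype A]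

/-- The families of the forms of the linear group and of the torus. -/
noncomputable def gf (F : Fam K n A) : (Fin (n + 1) × Fin (n + 1)) ⊕ A → Fam K n A
  | Sum.inl pq => fun a => X pq.2 * pderiv pq.1 (F a)
  | Sum.inr a => Pi.single a (F a)

/-- The corrected vector fields of the linear group and of the torus. -/
noncomputable def ww (F : Fam K n A) (D : A → (Fin (n + 1) →₀ ℕ) → Derivation ℤ K K)
    (x : Fin (n + 1) → K) : (Fin (n + 1) × Fin (n + 1)) ⊕ A → Fin (n + 1) → K
  | Sum.inl pq => x pq.2 • (Pi.single pq.1 1 : Fin (n + 1) → K) + vA D x (gf F (Sum.inl pq))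
  | Sum.inr a => vA D x (gf F (Sum.inr a))

theorem ww_scale (F : Fam K n A) (D : A → (Fin (n + 1) →₀ ℕ) → Derivation ℤ K K)
    (x : Fin (n + 1) → K) (lam : K) (w : (Fin (n + 1) × Fin (n + 1)) ⊕ A) :
    ww F D (lam • x) w = lam • ww F D x w + DA D (gf F w) lam • x := by
  rcases w with pq | a
  · simp only [ww]
    rw [vA_scale, Pi.smul_apply, smul_add, smul_smul, smul_eq_mul]
    abel
  · exact vA_scale D x lam _

variable {F : Fam K n A} {dg : A → ℕ} {D : A → (Fin (n + 1) →₀ ℕ) → Derivation ℤ K K}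

omit [Fintype A] in
theorem single_hom {a : A} {G : MvPolynomial (Fin (n + 1)) K} (hG : G.IsHomogeneous (dg a))
    (b : A) : ((Pi.single a G : Fam K n A) b).IsHomogeneous (dg b) := by
  by_cases h : b = a
  · subst h
    rw [Pi.single_eq_same]; exact hG
  · rw [Pi.single_eq_of_ne h]; exact isHomogeneous_zero _ _ _

omit [Fintype A] in
theorem gf_hom (hpos : ∀ a, 0 < dg a) (hF : ∀ a, (F a).IsHomogeneous (dg a))
    (w : (Fin (n + 1) × Fin (n + 1)) ⊕ A) (a : A) : (gf F w a).IsHomogeneous (dg a) := by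
  rcases w with pq | b
  · have h4 := (isHomogeneous_X K pq.2).mul ((hF a).pderiv (i := pq.1))
    have h5 : 1 + (dg a - 1) = dg a := by
      have := hpos a
      omega
    rwa [h5] at h4
  · exact single_hom (hF b) a

omit [DecidableEq A] [Fintype A] in
theorem ql_hom (hpos : ∀ a, 0 < dg a) {Q : Fam K n A}
    (hQ : ∀ a, (Q a).IsHomogeneous (dg a - 1)) (m : Fin (n + 1) → K) (a : A) :
    (ql Q m a).IsHomogeneous (dg a) := by
  have h3 := (hQ a).mul (lf_hom m)
  rwa [Nat.sub_add_cancel (hpos a)] at h3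

theorem dF_ww (hpos : ∀ a, 0 < dg a) (hF : ∀ a, (F a).IsHomogeneous (dg a))
    (hD : TH145.GC.Dual F dg D) (x : Fin (n + 1) → K) (w : (Fin (n + 1) × Fin (n + 1)) ⊕ A)
    (b : A) : dF (F b) x (ww F D x w) = DA D (gf F w) (eval x (F b)) -
      if w = Sum.inr b then eval x (F b) else 0 := by
  rcases w with pq | a
  · rw [if_neg (by simp)]
    simp only [ww]
    have h3 : dF (F b) x (Pi.single pq.1 1) = eval x (pderiv pq.1 (F b)) := by
      have := dF_single (F b) x pq.1 1
      simpa using this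
    rw [dF_add, dF_smul, dF_vA hF hD x (gf_hom hpos hF _), h3]
    simp only [gf, map_mul, eval_X]
    ring
  · simp only [ww]
    rw [dF_vA hF hD x (gf_hom hpos hF _)]
    congr 1
    by_cases h : a = b
    · subst h
      rw [if_pos rfl]
      simp only [gf, Pi.single_eq_same]
    · rw [if_neg fun h' => h (Sum.inr_injective h')]
      simp only [gf]
      rw [Pi.single_eq_of_ne (fun h' => h h'.symm), map_zero]

/-- The vectors that are tangent to the hypersurfaces of the family `C`. -/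
noncomputable def TC (F : Fam K n A) (C : Finset A) (x : Fin (n + 1) → K) :
    Submodule K (Fin (n + 1) → K) where
  carrier := {z | ∀ c ∈ C, dF (F c) x z = 0}
  add_mem' := by
    intro y z hy hz c hc
    rw [dF_add, hy c hc, hz c hc, add_zero]
  zero_mem' := by
    intro c _
    simp [dF]
  smul_mem' := by
    intro r z hz c hc
    rw [dF_smul, hz c hc, mul_zero]

omit [DecidableEq A] [Fintype A] in
theorem mem_TC {C : Finset A} {x z : Fin (n + 1) → K} :
    z ∈ TC F C x ↔ ∀ c ∈ C, dF (F c) x z = 0 := Iff.rfl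

omit [DecidableEq A] [Fintype A] in
theorem x_mem_TC (hF : ∀ a, (F a).IsHomogeneous (dg a)) {C : Finset A} {x : Fin (n + 1) → K}
    (hx : ∀ c ∈ C, eval x (F c) = 0) : x ∈ TC F C x := by
  intro c hc
  rw [TH145.GC.dF_self (hF c), hx c hc, mul_zero]

theorem ww_mem_TC (hpos : ∀ a, 0 < dg a) (hF : ∀ a, (F a).IsHomogeneous (dg a))
    (hD : TH145.GC.Dual F dg D) {C : Finset A} {x : Fin (n + 1) → K}
    (hx : ∀ c ∈ C, eval x (F c) = 0) (w : (Fin (n + 1) × Fin (n + 1)) ⊕ A) :
    ww F D x w ∈ TC F C x := by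
  intro c hc
  rw [dF_ww hpos hF hD, hx c hc, map_zero]
  simp

theorem vA_mem_TC (hF : ∀ a, (F a).IsHomogeneous (dg a))
    (hD : TH145.GC.Dual F dg D) {C : Finset A} {x : Fin (n + 1) → K}
    (hx : ∀ c ∈ C, eval x (F c) = 0) {G : Fam K n A} (hG : ∀ a, (G a).IsHomogeneous (dg a))
    (hGx : ∀ c ∈ C, eval x (G c) = 0) : vA D x G ∈ TC F C x := by
  intro c hc
  rw [dF_vA hF hD x hG, hx c hc, map_zero, hGx c hc, sub_zero]

omit [DecidableEq A] [Fintype A] in
theorem eval_ql (Q : Fam K n A) (m x : Fin (n + 1) → K) (a : A) :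
    eval x (ql Q m a) = eval x (Q a) * ∑ l, m l * x l := by
  rw [ql_apply, map_mul, eval_lf]

theorem vq_mem_TC (hpos : ∀ a, 0 < dg a) (hF : ∀ a, (F a).IsHomogeneous (dg a))
    (hD : TH145.GC.Dual F dg D) {C : Finset A} {x : Fin (n + 1) → K}
    (hx : ∀ c ∈ C, eval x (F c) = 0) {Q : Fam K n A}
    (hQ : ∀ a, (Q a).IsHomogeneous (dg a - 1)) {m : Fin (n + 1) → K}
    (hm : ∑ l, m l * x l = 0) : vq D x Q m ∈ TC F C x :=
  vA_mem_TC hF hD hx (ql_hom hpos hQ m) fun c _ => by rw [eval_ql, hm, mul_zero]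

end lin

/-- The data of the inequality at the places. -/
structure DataL (k : Type) {K : Type} [Field k] [Field K] [Algebra k K] {n : ℕ} {A : Type}
    (F : Fam K n A) (dg : A → ℕ) (D : A → (Fin (n + 1) →₀ ℕ) → Derivation ℤ K K)
    (e g : Place k K → ℤ) : Prop where
  pos : ∀ a, 0 < dg a
  hom : ∀ a, (F a).IsHomogeneous (dg a)
  dual : TH145.GC.Dual F dg D
  e_nonneg : ∀ P, 0 ≤ e P
  g_nonneg : ∀ P, 0 ≤ g P
  loss : ∀ P f, Ge P 0 f → ∀ a, ∀ I : Fin (n + 1) →₀ ℕ, I.degree = dg a →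
    Ge P (-e P) (D a I f)
  coef : ∀ P a u, Ge P (-g P) ((F a).coeff u)
  fin : {P | e P ≠ 0 ∨ g P ≠ 0}.Finite

end Pool.Agent.Y741
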